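import Mathlib

/-!
# Secant varieties of Segre varieties: definitions

`n : Fin k → ℕ` is the format of the Segre variety of `P^{n 0} × ... × P^{n (k-1)}`. A tensor is a
function on the multi-indices `Idx n`; a rank one tensor is a product `a ↦ ∏ i, x i (a i)`.
-/

open Module

namespace Pool.Agent.Lib.MP_635d71_ag

/-- Multi-indices. -/
abbrev Idx {k : ℕ} (n : Fin k → ℕ) : Type := ∀ i, Fin (n i + 1)

/-- One vector in every factor. -/
abbrev Vecs {k : ℕ} (n : Fin k → ℕ) : Type := ∀ i, Fin (n i + 1) → ℂ

/-- The tensor `x 0 ⊗ ... ⊗ x (k-1)`. -/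
def rankOne {k : ℕ} {n : Fin k → ℕ} (x : Vecs n) : Idx n → ℂ := fun a => ∏ i, x i (a i)

/-- The sum of `r` such tensors. -/
def rankSum {k r : ℕ} {n : Fin k → ℕ} (x : Fin r → Vecs n) : Idx n → ℂ := ∑ j, rankOne (x j)

/-- Tensors of rank at most `r`. The affine cone over the `r`-th secant variety of the Segre variety is
the Zariski closure of this set. -/
def lowRank {k : ℕ} (n : Fin k → ℕ) (r : ℕ) : Set (Idx n → ℂ) :=
  Set.range (rankSum (r := r) (n := n))

/-- The coordinate ring of the affine cone over the `r`-th secant variety: polynomials modulo those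
which vanish on all tensors of rank at most `r`. -/
abbrev CoordRing {k : ℕ} (n : Fin k → ℕ) (r : ℕ) : Type :=
  MvPolynomial (Idx n) ℂ ⧸ MvPolynomial.vanishingIdeal ℂ (lowRank n r)

/-- The dimension of the affine cone over the `r`-th secant variety: the transcendence degree of its
coordinate ring. -/
noncomputable def coneDim {k : ℕ} (n : Fin k → ℕ) (r : ℕ) : Cardinal :=
  Algebra.trdeg ℂ (CoordRing n r)

/-- The affine cone over the tangent space of the Segre variety at `x`. -/
def tangent {k : ℕ} {n : Fin k → ℕ} (x : Vecs n) : Submodule ℂ (Idx n → ℂ) :=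
  Submodule.span ℂ {t | ∃ (i : Fin k) (w : Fin (n i + 1) → ℂ), t = rankOne (Function.update x i w)}

end Pool.Agent.Lib.MP_635d71_ag
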