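import Mathlib
import Pool.Agent.Lib.MP_635d71_ag.Defs

/-!
# Terracini's lemma: tangent spaces give a lower bound for the dimension of secant varieties
-/

open Module

namespace Pool.Agent.Lib.MP_635d71_ag

open scoped Topology

/-- The map `rankSum` is smooth. -/
theorem contDiff_rankSum {k r : ℕ} (n : Fin k → ℕ) :
    ContDiff ℂ 1 (rankSum (r := r) (n := n)) := by
  rw [contDiff_pi]
  intro a
  have : (fun x : Fin r → Vecs n => rankSum x a) = fun x => ∑ j, ∏ i, x j i (a i) := by
    funext x
    simp [rankSum, rankOne]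
  rw [this]
  apply ContDiff.sum
  intro j _
  apply contDiff_prod
  intro i _
  exact contDiff_pi.1 (contDiff_pi.1 (contDiff_pi.1 contDiff_id j) i) (a i)

/-- A line in a coordinate direction. -/
theorem rankSum_line {k r : ℕ} {n : Fin k → ℕ} (x : Fin r → Vecs n) (j : Fin r) (i : Fin k)
    (w : Fin (n i + 1) → ℂ) (t : ℂ) :
    rankSum (x + t • (Pi.single j (Pi.single i w) : Fin r → Vecs n))
      = rankSum x + t • rankOne (Function.update (x j) i w) := by
  classical
  funext a
  set y : Fin r → Vecs n := x + t • (Pi.single j (Pi.single i w) : Fin r → Vecs n) with hy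
  have h1 : ∀ j', rankOne (y j') a
      = rankOne (x j') a + if j' = j then t * rankOne (Function.update (x j) i w) a else 0 := by
    intro j'
    by_cases hj' : j' = j
    · subst hj'
      rw [if_pos rfl]
      simp only [rankOne]
      rw [← Finset.mul_prod_erase _ (fun i' => y j' i' (a i')) (Finset.mem_univ i),
        ← Finset.mul_prod_erase _ (fun i' => x j' i' (a i')) (Finset.mem_univ i),
        ← Finset.mul_prod_erase _ (fun i' => Function.update (x j') i w i' (a i'))
          (Finset.mem_univ i)]
      have e1 : ∀ i' ∈ Finset.univ.erase i, y j' i' (a i') = x j' i' (a i') := by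
        intro i' hi'
        have : i' ≠ i := Finset.ne_of_mem_erase hi'
        simp [hy, Pi.single_eq_of_ne this]
      have e2 : ∀ i' ∈ Finset.univ.erase i,
          Function.update (x j') i w i' (a i') = x j' i' (a i') := by
        intro i' hi'
        have : i' ≠ i := Finset.ne_of_mem_erase hi'
        rw [Function.update_of_ne this]
      rw [Finset.prod_congr rfl e1, Finset.prod_congr rfl e2]
      simp [hy]
      ring
    · rw [if_neg hj', add_zero]
      have : y j' = x j' := by
        simp [hy, Pi.single_eq_of_ne hj']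
      rw [this]
  have h2 : rankSum y a = ∑ j', rankOne (y j') a := by simp [rankSum]
  have h3 : (rankSum x + t • rankOne (Function.update (x j) i w)) a
      = ∑ j', rankOne (x j') a + t * rankOne (Function.update (x j) i w) a := by
    simp [rankSum]
  rw [h2, h3, Finset.sum_congr rfl (fun j' _ => h1 j'), Finset.sum_add_distrib]
  simp

/-- Terracini's lemma (the half we need). -/
theorem le_coneDim {k r : ℕ} {n : Fin k → ℕ} (x : Fin r → Vecs n) :
    ((finrank ℂ (⨆ j, tangent (x j) : Submodule ℂ (Idx n → ℂ)) : ℕ) : Cardinal) ≤ coneDim n r := by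
  classical
  set S : Submodule ℂ (Idx n → ℂ) := ⨆ j, tangent (x j) with hS
  -- the derivative
  have hstrict : HasStrictFDerivAt (rankSum (r := r) (n := n)) (fderiv ℂ rankSum x) x :=
    ((contDiff_rankSum (r := r) n).contDiffAt).hasStrictFDerivAt (by norm_num)
  set D := fderiv ℂ (rankSum (r := r) (n := n)) x with hD
  have hDv : ∀ (j : Fin r) (i : Fin k) (w : Fin (n i + 1) → ℂ),
      D (Pi.single j (Pi.single i w)) = rankOne (Function.update (x j) i w) := by
    intro j i w
    have h1 : HasDerivAt (fun t : ℂ => rankSum (x + t • (Pi.single j (Pi.single i w) : Fin r → Vecs n)))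
        (D (Pi.single j (Pi.single i w))) 0 :=
      hstrict.hasFDerivAt.hasLineDerivAt _
    have h2 : HasDerivAt (fun t : ℂ => rankSum (x + t • (Pi.single j (Pi.single i w) : Fin r → Vecs n)))
        (rankOne (Function.update (x j) i w)) 0 := by
      have : (fun t : ℂ => rankSum (x + t • (Pi.single j (Pi.single i w) : Fin r → Vecs n)))
        = fun t : ℂ => rankSum x + t • rankOne (Function.update (x j) i w) := by
        funext t
        exact rankSum_line x j i w t
      rw [this]
      have := ((hasDerivAt_id (0 : ℂ)).smul_const (rankOne (Function.update (x j) i w))).const_add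
        (rankSum x)
      simpa using this
    exact h1.unique h2
  have hSD : S ≤ LinearMap.range (D : (Fin r → Vecs n) →ₗ[ℂ] (Idx n → ℂ)) := by
    rw [hS]
    refine iSup_le fun j => ?_
    rw [tangent, Submodule.span_le]
    rintro t ⟨i, w, rfl⟩
    exact ⟨_, hDv j i w⟩
  -- a linear map which is bijective on `S`
  set s := finrank ℂ S with hs
  obtain ⟨C, hC⟩ := S.exists_isCompl
  let e : S ≃ₗ[ℂ] (Fin s → ℂ) := (Module.finBasis ℂ S).equivFun
  let L : (Idx n → ℂ) →ₗ[ℂ] (Fin s → ℂ) := e.toLinearMap ∘ₗ (S.projectionOnto C hC)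
  have hL : ∀ v : S, L v = e v := by
    intro v
    simp [L]
  let Lc : (Idx n → ℂ) →L[ℂ] (Fin s → ℂ) := LinearMap.toContinuousLinearMap L
  have hF : HasStrictFDerivAt (fun y => Lc (rankSum (r := r) (n := n) y)) (Lc.comp D) x :=
    Lc.hasStrictFDerivAt.comp x hstrict
  have hsurj : LinearMap.range (Lc.comp D : (Fin r → Vecs n) →ₗ[ℂ] (Fin s → ℂ)) = ⊤ := by
    rw [LinearMap.range_eq_top]
    intro u
    obtain ⟨y, hy⟩ := hSD (e.symm u).2
    refine ⟨y, ?_⟩
    have : D y = ((e.symm u : S) : Idx n → ℂ) := hy
    change L (D y) = u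
    rw [this, hL, LinearEquiv.apply_symm_apply]
  have hnhds := hF.map_nhds_eq_of_surj hsurj
  have hrange : Set.range (fun y => Lc (rankSum (r := r) (n := n) y)) ∈ 𝓝 (Lc (rankSum x)) := by
    rw [← hnhds]
    exact Filter.mem_map.2 (Filter.univ_mem' fun y => ⟨y, rfl⟩)
  obtain ⟨ε, hε, hball⟩ := Metric.mem_nhds_iff.1 hrange
  rw [ball_pi _ hε] at hball
  -- the linear forms
  let l : Fin s → MvPolynomial (Idx n) ℂ := fun c =>
    ∑ a, MvPolynomial.C (L (Pi.single a 1) c) * MvPolynomial.X a
  have hl : ∀ (z : Idx n → ℂ) (c : Fin s), MvPolynomial.aeval z (l c) = L z c := by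
    intro z c
    simp only [l, map_sum, map_mul, MvPolynomial.aeval_C, MvPolynomial.aeval_X]
    conv_rhs => rw [← Finset.univ_sum_single z]
    rw [map_sum, Finset.sum_apply]
    refine Finset.sum_congr rfl fun a _ => ?_
    have : (Pi.single a (z a) : Idx n → ℂ) = z a • Pi.single a 1 := by
      rw [← Pi.single_smul, smul_eq_mul, mul_one]
    rw [this, map_smul]
    simp [mul_comm]
  have hind : AlgebraicIndependent ℂ
      (fun c : Fin s => (Ideal.Quotient.mkₐ ℂ (MvPolynomial.vanishingIdeal ℂ (lowRank n r)) (l c) :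
        CoordRing n r)) := by
    rw [algebraicIndependent_iff]
    intro p hp
    have h1 : Ideal.Quotient.mkₐ ℂ (MvPolynomial.vanishingIdeal ℂ (lowRank n r))
        (MvPolynomial.aeval l p) = 0 := by
      rw [← hp]
      exact (MvPolynomial.comp_aeval_apply l _ p)
    have h2 : MvPolynomial.aeval l p ∈ MvPolynomial.vanishingIdeal ℂ (lowRank n r) :=
      Ideal.Quotient.eq_zero_iff_mem.1 h1
    rw [MvPolynomial.mem_vanishingIdeal_iff] at h2
    refine MvPolynomial.funext_set (fun c => Metric.ball (Lc (rankSum x) c) ε) (fun c => ?_) ?_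
    · exact infinite_of_mem_nhds _ (Metric.ball_mem_nhds _ hε)
    · intro u hu
      obtain ⟨y, hy⟩ := hball hu
      have h3 := h2 (rankSum y) ⟨y, rfl⟩
      have h4 : MvPolynomial.aeval (rankSum y) (MvPolynomial.aeval l p)
          = MvPolynomial.aeval (fun c => MvPolynomial.aeval (rankSum y) (l c)) p :=
        MvPolynomial.comp_aeval_apply l _ p
      rw [h4] at h3
      have h5 : (fun c => MvPolynomial.aeval (rankSum y) (l c)) = u := by
        funext c
        rw [hl, ← hy]
        rfl
      rw [h5] at h3
      rw [map_zero]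
      exact h3
  have := hind.cardinalMk_le_trdeg
  simpa [coneDim] using this

end Pool.Agent.Lib.MP_635d71_ag
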