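import Mathlib
import Pool.Agent.Lib.MP_635d71_ag.Defs

/-!
# Dimension of secant varieties: upper bound
-/

open Module

namespace Pool.Agent.Lib.MP_635d71_ag

section upper

variable {k : ℕ} (n : Fin k → ℕ) (r : ℕ)

/-- The parameters of the normalized parametrization. -/
abbrev UpIdx : Type := Fin r × Option (Σ i : Fin k, Fin (n i))

/-- The normalized parametrization. -/
noncomputable def upPsi : MvPolynomial (Idx n) ℂ →ₐ[ℂ] MvPolynomial (UpIdx n r) ℂ :=
  MvPolynomial.aeval fun a => ∑ j : Fin r, MvPolynomial.X (j, none) *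
    ∏ i, (Fin.cons 1 (fun c => MvPolynomial.X (j, some ⟨i, c⟩)) :
      Fin (n i + 1) → MvPolynomial (UpIdx n r) ℂ) (a i)

/-- The point of the normalized parametrization. -/
noncomputable def upPoint (x : Fin r → Vecs n) : UpIdx n r → ℂ
  | (j, none) => ∏ i, x j i 0
  | (j, some ⟨i, c⟩) => x j i c.succ / x j i 0

lemma upPsi_eval (x : Fin r → Vecs n) (hx : ∀ j i, x j i 0 ≠ 0)
    (p : MvPolynomial (Idx n) ℂ) :
    MvPolynomial.aeval (upPoint n r x) (upPsi n r p) = MvPolynomial.aeval (rankSum x) p := by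
  have h : (MvPolynomial.aeval (upPoint n r x)).comp (upPsi n r) =
      (MvPolynomial.aeval (rankSum x) : MvPolynomial (Idx n) ℂ →ₐ[ℂ] ℂ) := by
    apply MvPolynomial.algHom_ext
    intro a
    rw [AlgHom.comp_apply]
    unfold upPsi
    rw [MvPolynomial.aeval_X, MvPolynomial.aeval_X, map_sum]
    unfold rankSum
    rw [Finset.sum_apply]
    refine Finset.sum_congr rfl fun j _ => ?_
    rw [map_mul, MvPolynomial.aeval_X, map_prod]
    have h1 : ∀ i, (MvPolynomial.aeval (upPoint n r x))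
        ((Fin.cons 1 (fun c => MvPolynomial.X (j, some ⟨i, c⟩)) :
          Fin (n i + 1) → MvPolynomial (UpIdx n r) ℂ) (a i)) = x j i (a i) / x j i 0 := by
      intro i
      generalize a i = b
      refine Fin.cases ?_ (fun c => ?_) b
      · rw [Fin.cons_zero, map_one, div_self (hx j i)]
      · rw [Fin.cons_succ, MvPolynomial.aeval_X]
        rfl
    rw [Finset.prod_congr rfl fun i _ => h1 i, Finset.prod_div_distrib]
    change (∏ i, x j i 0) * _ = _
    rw [mul_div_cancel₀]
    · rfl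
    · exact Finset.prod_ne_zero_iff.mpr fun i _ => hx j i
  rw [← h]
  rfl

lemma upPsi_ker : RingHom.ker (upPsi n r) ≤ MvPolynomial.vanishingIdeal ℂ (lowRank n r) := by
  intro p hp
  rw [RingHom.mem_ker] at hp
  set Q : MvPolynomial (Fin r × Σ i : Fin k, Fin (n i + 1)) ℂ :=
    MvPolynomial.aeval (fun a : Idx n => ∑ j : Fin r, ∏ i, MvPolynomial.X (j, ⟨i, a i⟩)) p
    with hQ
  set H : MvPolynomial (Fin r × Σ i : Fin k, Fin (n i + 1)) ℂ :=
    ∏ j : Fin r, ∏ i, MvPolynomial.X (j, ⟨i, 0⟩) with hH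
  have hQe : ∀ y : Fin r × (Σ i : Fin k, Fin (n i + 1)) → ℂ,
      MvPolynomial.eval y Q =
        MvPolynomial.aeval (rankSum (n := n) (fun j i c => y (j, ⟨i, c⟩))) p := by
    intro y
    have h : (MvPolynomial.aeval y).comp
        (MvPolynomial.aeval (fun a : Idx n => ∑ j : Fin r,
          ∏ i, (MvPolynomial.X (j, ⟨i, a i⟩) :
            MvPolynomial (Fin r × Σ i : Fin k, Fin (n i + 1)) ℂ))) =
        (MvPolynomial.aeval (rankSum (n := n) (fun j i c => y (j, ⟨i, c⟩))) :
          MvPolynomial (Idx n) ℂ →ₐ[ℂ] ℂ) := by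
      apply MvPolynomial.algHom_ext
      intro a
      rw [AlgHom.comp_apply, MvPolynomial.aeval_X, MvPolynomial.aeval_X, map_sum]
      unfold rankSum
      rw [Finset.sum_apply]
      refine Finset.sum_congr rfl fun j _ => ?_
      rw [map_prod]
      unfold rankOne
      refine Finset.prod_congr rfl fun i _ => ?_
      rw [MvPolynomial.aeval_X]
    rw [← h]
    rfl
  have hQH : Q * H = 0 := by
    apply MvPolynomial.funext
    intro y
    rw [map_mul, map_zero]
    by_cases hy : MvPolynomial.eval y H = 0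
    · rw [hy, mul_zero]
    · rw [hQe]
      have h1 : ∀ j i, y (j, ⟨i, 0⟩) ≠ 0 := by
        intro j i h0
        apply hy
        rw [hH, map_prod]
        refine Finset.prod_eq_zero (Finset.mem_univ j) ?_
        rw [map_prod]
        refine Finset.prod_eq_zero (Finset.mem_univ i) ?_
        rw [MvPolynomial.eval_X]
        exact h0
      rw [← upPsi_eval n r (fun j i c => y (j, ⟨i, c⟩)) h1, hp, map_zero, zero_mul]
  have hH0 : H ≠ 0 := by
    rw [hH]
    refine Finset.prod_ne_zero_iff.mpr fun j _ => Finset.prod_ne_zero_iff.mpr fun i _ => ?_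
    exact MvPolynomial.X_ne_zero _
  have hQ0 : Q = 0 := (mul_eq_zero.mp hQH).resolve_right hH0
  rw [MvPolynomial.mem_vanishingIdeal_iff]
  rintro _ ⟨x, rfl⟩
  have h2 := hQe (fun q => x q.1 q.2.1 q.2.2)
  rw [hQ0, map_zero] at h2
  exact h2.symm

lemma card_upIdx : Fintype.card (UpIdx n r) = r * (∑ i, n i + 1) := by
  rw [Fintype.card_prod, Fintype.card_option, Fintype.card_sigma, Fintype.card_fin]
  simp

end upper

/-- The expected dimension is an upper bound. -/
theorem coneDim_le {k : ℕ} (n : Fin k → ℕ) (r : ℕ) :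
    coneDim n r ≤ ((min (r * (∑ i, n i + 1)) (∏ i, (n i + 1)) : ℕ) : Cardinal) := by
  have h1 : coneDim n r ≤ ((r * (∑ i, n i + 1) : ℕ) : Cardinal) := by
    unfold coneDim
    have a1 : Algebra.trdeg ℂ (CoordRing n r) ≤
        Algebra.trdeg ℂ (MvPolynomial (Idx n) ℂ ⧸ RingHom.ker (upPsi n r)) :=
      trdeg_le_of_surjective (Ideal.Quotient.factorₐ ℂ (upPsi_ker n r))
        (Ideal.Quotient.factor_surjective (upPsi_ker n r))
    have a2 : Algebra.trdeg ℂ (MvPolynomial (Idx n) ℂ ⧸ RingHom.ker (upPsi n r)) ≤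
        Algebra.trdeg ℂ (MvPolynomial (UpIdx n r) ℂ) :=
      trdeg_le_of_injective (Ideal.kerLiftAlg (upPsi n r)) (Ideal.kerLiftAlg_injective _)
    have a3 : Algebra.trdeg ℂ (MvPolynomial (UpIdx n r) ℂ) =
        ((r * (∑ i, n i + 1) : ℕ) : Cardinal) := by
      rw [MvPolynomial.trdeg_of_isDomain, Cardinal.mk_fintype, card_upIdx, Cardinal.lift_natCast]
    exact a1.trans (a2.trans (le_of_eq a3))
  have h2 : coneDim n r ≤ ((∏ i, (n i + 1) : ℕ) : Cardinal) := by
    unfold coneDim
    have a1 : Algebra.trdeg ℂ (CoordRing n r) ≤ Algebra.trdeg ℂ (MvPolynomial (Idx n) ℂ) :=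
      trdeg_le_of_surjective (Ideal.Quotient.mkₐ ℂ _) (Ideal.Quotient.mkₐ_surjective ℂ _)
    have a3 : Algebra.trdeg ℂ (MvPolynomial (Idx n) ℂ) = ((∏ i, (n i + 1) : ℕ) : Cardinal) := by
      rw [MvPolynomial.trdeg_of_isDomain, Cardinal.mk_fintype, Cardinal.lift_natCast,
        Fintype.card_pi]
      simp
    exact a1.trans (le_of_eq a3)
  rcases le_total (r * (∑ i, n i + 1)) (∏ i, (n i + 1)) with h | h
  · rw [min_eq_left h]
    exact h1
  · rw [min_eq_right h]
    exact h2

end Pool.Agent.Lib.MP_635d71_ag
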