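import Mathlib

/-!
# Genericity without algebraic geometry

A set is *big* if every line through one of its points meets its complement in finitely many points.
-/

open Module Submodule Polynomial

namespace Pool.Agent.Lib.MP_635d71_ag

variable {K : Type} [Field K] {V : Type} [AddCommGroup V] [Module K V]

/-- A set such that every line through one of its points meets the complement in finitely many
points. -/
def Big (K : Type) [Field K] {V : Type} [AddCommGroup V] [Module K V] (G : Set V) : Prop :=
  ∀ x0 ∈ G, ∀ x1 : V, {t : K | x0 + t • (x1 - x0) ∉ G}.Finite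

theorem Big.inter {G H : Set V} (hG : Big K G) (hH : Big K H) : Big K (G ∩ H) := by
  intro x0 hx0 x1
  refine ((hG x0 hx0.1 x1).union (hH x0 hx0.2 x1)).subset ?_
  intro t ht
  by_contra hcon
  simp only [Set.mem_union, Set.mem_ofPred_eq, not_or, not_not] at hcon
  exact ht hcon

theorem Big.inter_nonempty [Infinite K] {G H : Set V} (hG : Big K G) (hH : Big K H)
    (h1 : G.Nonempty) (h2 : H.Nonempty) : (G ∩ H).Nonempty := by
  obtain ⟨x0, hx0⟩ := h1
  obtain ⟨x1, hx1⟩ := h2
  have f1 := hG x0 hx0 x1
  have f2 := hH x1 hx1 x0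
  have f3 : {t : K | x0 + t • (x1 - x0) ∉ H}.Finite := by
    refine (f2.image (fun t => 1 - t)).subset ?_
    intro t ht
    refine ⟨1 - t, ?_, by ring⟩
    simp only [Set.mem_ofPred_eq] at ht ⊢
    have : x1 + (1 - t) • (x0 - x1) = x0 + t • (x1 - x0) := by module
    rwa [this]
  obtain ⟨t, ht⟩ := (f1.union f3).infinite_compl.nonempty
  simp only [Set.mem_compl_iff, Set.mem_union, Set.mem_ofPred_eq, not_or, not_not] at ht
  exact ⟨_, ht⟩

theorem Big.iInter_finset [Infinite K] {ι : Type} (s : Finset ι) (G : ι → Set V)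
    (h : ∀ i, Big K (G i)) (hn : ∀ i, (G i).Nonempty) :
    Big K {x | ∀ i ∈ s, x ∈ G i} ∧ {x | ∀ i ∈ s, x ∈ G i}.Nonempty := by
  classical
  induction s using Finset.induction_on with
  | empty => exact ⟨fun x0 _ x1 => by simp, ⟨0, by simp⟩⟩
  | insert a s ha ih =>
    have : {x | ∀ i ∈ insert a s, x ∈ G i} = G a ∩ {x | ∀ i ∈ s, x ∈ G i} := by
      ext x; simp
    rw [this]
    exact ⟨(h a).inter ih.1, (h a).inter_nonempty ih.1 (hn a) ih.2⟩

/-- Finitely many nonempty big sets have a common point. -/
theorem Big.exists_forall [Infinite K] {ι : Type} [Finite ι] (G : ι → Set V)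
    (h : ∀ i, Big K (G i)) (hn : ∀ i, (G i).Nonempty) : ∃ x, ∀ i, x ∈ G i := by
  cases nonempty_fintype ι
  obtain ⟨x, hx⟩ := (Big.iInter_finset Finset.univ G h hn).2
  exact ⟨x, fun i => hx i (Finset.mem_univ i)⟩

/-- `f` is polynomial along every line. -/
def LinePoly {κ : Type} (K : Type) [Field K] {V : Type} [AddCommGroup V] [Module K V]
    (f : V → κ → K) : Prop :=
  ∀ x0 x1 : V, ∀ c, ∃ p : K[X], ∀ t, f (x0 + t • (x1 - x0)) c = p.eval t

theorem exists_li_of_le_finrank {W : Type} [AddCommGroup W] [Module K W] [FiniteDimensional K W]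
    {ι : Type} (g : ι → W) (m : ℕ) (h : m ≤ finrank K ↥(span K (Set.range g))) :
    ∃ a : Fin m → ι, LinearIndependent K (fun j => g (a j)) := by
  obtain ⟨b, hb, hspan, hli⟩ := exists_linearIndependent K (Set.range g)
  have hfin : b.Finite := hli.setFinite
  have := hfin.fintype
  have hcard : finrank K ↥(span K b) = Fintype.card b := by
    have := finrank_span_eq_card hli
    rwa [Subtype.range_coe] at this
  rw [← hspan, hcard] at h
  obtain ⟨e⟩ : Nonempty (Fin m ↪ b) := by
    apply Function.Embedding.nonempty_of_card_le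
    simpa using h
  choose a ha using fun j => hb (e j).2
  refine ⟨a, ?_⟩
  have h2 := hli.comp e e.injective
  have h3 : (fun j => g (a j)) = (fun x : b => (x : W)) ∘ e := by
    funext j; exact ha j
  rw [h3]; exact h2

/-- Rank conditions define big sets. -/
theorem big_rank {ι κ : Type} [Fintype κ] (M : Submodule K (κ → K)) (f : ι → V → κ → K)
    (hf : ∀ i, LinePoly K (f i)) (m : ℕ) :
    Big K {x | m ≤ finrank K ↥(M ⊔ span K (Set.range fun i => f i x))} := by
  classical
  intro x0 hx0 x1
  let g : V → M ⊕ ι → κ → K := fun x => Sum.elim (fun v => (v : κ → K)) (fun i => f i x)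
  have hg : ∀ x, M ⊔ span K (Set.range fun i => f i x) = span K (Set.range (g x)) := by
    intro x
    have h1 : Set.range (g x) = (M : Set (κ → K)) ∪ Set.range (fun i => f i x) := by
      simp only [g, Set.Sum.elim_range, Subtype.range_coe_subtype]
      rfl
    rw [h1, span_union, span_eq]
  have hgp : ∀ i, LinePoly K (fun x => g x i) := by
    rintro (v | i)
    · intro x0 x1 c
      exact ⟨C ((v : κ → K) c), fun t => by simp [g]⟩
    · exact hf i
  change m ≤ finrank K ↥(M ⊔ span K (Set.range fun i => f i x0)) at hx0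
  change {t : K | ¬ (m ≤ finrank K
    ↥(M ⊔ span K (Set.range fun i => f i (x0 + t • (x1 - x0)))))}.Finite
  have hg2 : ∀ x, finrank K ↥(M ⊔ span K (Set.range fun i => f i x)) =
      finrank K ↥(span K (Set.range (g x))) := fun x => by rw [hg]
  simp only [hg2] at hx0 ⊢
  obtain ⟨a, ha⟩ := exists_li_of_le_finrank (g x0) m hx0
  obtain ⟨L, hL⟩ := LinearMap.exists_leftInverse_of_injective
    (Fintype.linearCombination K (fun j => g x0 (a j)))
    (LinearMap.ker_eq_bot.2 (linearIndependent_iff_injective_fintypeLinearCombination.1 ha))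
  have hL' : ∀ j, L (g x0 (a j)) = Pi.single j 1 := by
    intro j
    have := LinearMap.congr_fun hL (Pi.single j 1)
    simpa using this
  choose p hp using fun (i : M ⊕ ι) c => hgp i x0 x1 c
  let A : Matrix (Fin m) (Fin m) K[X] := fun j k => ∑ c, p (a j) c * C (L (Pi.single c 1) k)
  have hLexp : ∀ w : κ → K, ∀ k, L w k = ∑ c, w c * L (Pi.single c 1) k := by
    intro w k
    have h0 : w = ∑ c, Pi.single c (w c) := (Finset.univ_sum_single w).symm
    conv_lhs => rw [h0]
    rw [map_sum, Finset.sum_apply]
    refine Finset.sum_congr rfl fun c _ => ?_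
    have : (Pi.single c (w c) : κ → K) = w c • Pi.single c 1 := by
      rw [← Pi.single_smul, smul_eq_mul, mul_one]
    rw [this, map_smul, Pi.smul_apply, smul_eq_mul]
  have hA : ∀ t j k, (A j k).eval t = L (g (x0 + t • (x1 - x0)) (a j)) k := by
    intro t j k
    rw [hLexp]
    simp only [A, eval_finsetSum, eval_mul, eval_C, hp]
  have hdet : ∀ t, (A.det).eval t = Matrix.det (Matrix.of fun j k => L (g (x0 + t • (x1 - x0)) (a j)) k) := by
    intro t
    rw [← coe_evalRingHom, RingHom.map_det]
    congr 1
    ext j k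
    simp only [RingHom.mapMatrix_apply, Matrix.map_apply, coe_evalRingHom]
    exact hA t j k
  have hne : A.det ≠ 0 := by
    intro h0
    have h1 := hdet 0
    rw [h0, eval_zero] at h1
    have h2 : Matrix.of (fun j k => L (g (x0 + (0 : K) • (x1 - x0)) (a j)) k) = 1 := by
      ext j k
      rw [Matrix.of_apply, zero_smul, add_zero, hL']
      rw [Matrix.one_apply, Pi.single_apply]
      simp [eq_comm]
    rw [h2, Matrix.det_one] at h1
    exact zero_ne_one h1
  refine (A.det.roots.toFinset.finite_toSet).subset ?_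
  intro t ht
  simp only [Finset.mem_coe, Multiset.mem_toFinset, mem_roots hne, IsRoot.def]
  by_contra hcon
  apply ht
  rw [hdet] at hcon
  have hli : LinearIndependent K (fun j => g (x0 + t • (x1 - x0)) (a j)) :=
    LinearIndependent.of_comp L (Matrix.linearIndependent_rows_of_det_ne_zero hcon)
  have h1 := finrank_span_eq_card hli
  rw [Fintype.card_fin] at h1
  show m ≤ _
  rw [← h1]
  apply Submodule.finrank_mono
  apply span_mono
  rintro _ ⟨j, rfl⟩
  exact ⟨a j, rfl⟩

end Pool.Agent.Lib.MP_635d71_ag
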