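import Mathlib

/-!
# Formats as lists

A Segre format is encoded as a list `l` of sizes `q = n_i + 1`. `Grid l` is the set of multi-indices,
`Coord l → K` is the space of tuples of vectors, `E l x` is the product tensor of a tuple `x`, `T l x`
the tangent space of the cone over the Segre variety at `E l x`.
-/

open Module Submodule

namespace Pool.Agent.Lib.MP_635d71_ag

/-- The dimension of the affine cone over the Segre variety. -/
def D : List ℕ → ℕ
  | [] => 1
  | q :: l => (q - 1) + D l

/-- Multi-indices. -/
@[reducible] def Grid : List ℕ → Type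
  | [] => Unit
  | q :: l => Fin q × Grid l

instance Grid.instFintype : ∀ l, Fintype (Grid l)
  | [] => inferInstanceAs (Fintype Unit)
  | q :: l =>
    letI := Grid.instFintype l
    inferInstanceAs (Fintype (Fin q × Grid l))

instance Grid.instDecidableEq : ∀ l, DecidableEq (Grid l)
  | [] => inferInstanceAs (DecidableEq Unit)
  | q :: l =>
    letI := Grid.instDecidableEq l
    inferInstanceAs (DecidableEq (Fin q × Grid l))

/-- Index set of the coordinates of a tuple of vectors. -/
@[reducible] def Coord : List ℕ → Type
  | [] => Empty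
  | q :: l => Fin q ⊕ Coord l

/-- Index set of the spanning set of the tangent space. -/
@[reducible] def TI : List ℕ → Type
  | [] => Unit
  | q :: l => TI l ⊕ Fin q

variable {K : Type} [Field K]

/-- The first vector of a tuple. -/
def hd {q : ℕ} {l : List ℕ} (x : Coord (q :: l) → K) : Fin q → K := fun j => x (Sum.inl j)

/-- The other vectors of a tuple. -/
def tl {q : ℕ} {l : List ℕ} (x : Coord (q :: l) → K) : Coord l → K := fun c => x (Sum.inr c)

/-- Put a vector in front of a tuple. -/
def cons {q : ℕ} {l : List ℕ} (u : Fin q → K) (x : Coord l → K) : Coord (q :: l) → K := Sum.elim u x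

@[simp] theorem hd_cons {q : ℕ} {l : List ℕ} (u : Fin q → K) (x : Coord l → K) :
    hd (cons u x) = u := rfl

@[simp] theorem tl_cons {q : ℕ} {l : List ℕ} (u : Fin q → K) (x : Coord l → K) :
    tl (cons u x) = x := rfl

/-- `u ⊗ f`. -/
def ten {q : ℕ} {l : List ℕ} (u : Fin q → K) (f : Grid l → K) : Grid (q :: l) → K :=
  fun g => u g.1 * f g.2

@[simp] theorem ten_apply {q : ℕ} {l : List ℕ} (u : Fin q → K) (f : Grid l → K) (j : Fin q)
    (g : Grid l) : ten u f (j, g) = u j * f g := rfl

/-- The product tensor. -/
def E : ∀ l : List ℕ, (Coord l → K) → Grid l → K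
  | [], _ => fun _ => 1
  | _ :: l, x => ten (hd x) (E l (tl x))

/-- The spanning set of the tangent space. -/
def TVec : ∀ l : List ℕ, (Coord l → K) → TI l → Grid l → K
  | [], _, _ => fun _ => 1
  | _ :: l, x, Sum.inl i => ten (hd x) (TVec l (tl x) i)
  | _ :: l, x, Sum.inr j => ten (Pi.single j 1) (E l (tl x))

/-- The tangent space. -/
def T (l : List ℕ) (x : Coord l → K) : Submodule K (Grid l → K) :=
  span K (Set.range (TVec l x))

/-- Tensors supported in `C`. -/
def coordSub {G : Type} (K : Type) [Field K] (C : Finset G) : Submodule K (G → K) where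
  carrier := {f | ∀ g, g ∉ C → f g = 0}
  add_mem' := fun hf hg c hc => by simp [hf c hc, hg c hc]
  zero_mem' := fun c _ => rfl
  smul_mem' := fun a f hf c hc => by simp [hf c hc]

@[simp] theorem mem_coordSub {G : Type} (C : Finset G) (f : G → K) :
    f ∈ coordSub K C ↔ ∀ g, g ∉ C → f g = 0 := Iff.rfl

/-- There are `b` tuples such that the tangent spaces and the coordinate space of `C` are linearly
independent and have the maximal dimension. -/
def Good (K : Type) [Field K] (l : List ℕ) (b : ℕ) (C : Finset (Grid l)) : Prop :=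
  ∃ x : Fin b → Coord l → K,
    C.card + b * D l ≤ finrank K ↥(coordSub K C ⊔ ⨆ a, T l (x a) : Submodule K (Grid l → K))

/-- There are `r` tuples such that the tangent spaces span a space of dimension at least `s`. -/
def Reach (K : Type) [Field K] (l : List ℕ) (r s : ℕ) : Prop :=
  ∃ x : Fin r → Coord l → K, s ≤ finrank K ↥(⨆ a, T l (x a) : Submodule K (Grid l → K))

/-- The coordinate tuple of a multi-index. -/
def cpt : ∀ l : List ℕ, Grid l → Coord l → K
  | [], _ => fun _ => 0
  | _ :: l, g => cons (Pi.single g.1 1) (cpt l g.2)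

/-- The Hamming ball of radius one. -/
def Ball : ∀ l : List ℕ, Grid l → Finset (Grid l)
  | [], _ => Finset.univ
  | q :: l, g => (Ball l g.2).map ⟨fun h => ((g.1, h) : Fin q × Grid l), fun _ _ h => (Prod.ext_iff.1 h).2⟩ ∪
      Finset.univ.map ⟨fun j : Fin q => ((j, g.2) : Fin q × Grid l), fun _ _ h => (Prod.ext_iff.1 h).1⟩

theorem card_grid : ∀ l : List ℕ, Fintype.card (Grid l) = l.prod
  | [] => (Fintype.card_unit : Fintype.card Unit = 1)
  | q :: l => by
    have h : Fintype.card (Grid (q :: l)) = Fintype.card (Fin q × Grid l) := rfl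
    rw [h, Fintype.card_prod, card_grid l, Fintype.card_fin, List.prod_cons]

end Pool.Agent.Lib.MP_635d71_ag
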