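import Mathlib
import Pool.Agent.Lib.MP_635d71_ag.Fmt

/-!
# Dimension counts: slices, coordinate spaces, disjoint supports
-/

open Module Submodule

namespace Pool.Agent.Lib.MP_635d71_ag

variable {K : Type} [Field K]

/-- Slice by slice lower bound for the dimension of a space of tensors. -/
theorem sum_finrank_le {q : ℕ} {G : Type} [Finite G] (S : Submodule K (Fin q × G → K))
    (W : Fin q → Submodule K (G → K))
    (h : ∀ j, ∀ g ∈ W j, ∃ f ∈ S, (∀ j' < j, ∀ c, f (j', c) = 0) ∧ ∀ c, f (j, c) = g c) :
    ∑ j, finrank K (W j) ≤ finrank K S := by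
  classical
  cases nonempty_fintype G
  -- the filtration
  let F : ℕ → Submodule K (Fin q × G → K) := fun n =>
    { carrier := {f | f ∈ S ∧ ∀ j : Fin q, j.val < n → ∀ c, f (j, c) = 0}
      add_mem' := fun {a b} ha hb => ⟨S.add_mem ha.1 hb.1, fun j hj c => by
        simp [ha.2 j hj c, hb.2 j hj c]⟩
      zero_mem' := ⟨S.zero_mem, fun j hj c => rfl⟩
      smul_mem' := fun a f hf => ⟨S.smul_mem a hf.1, fun j hj c => by simp [hf.2 j hj c]⟩ }
  have hF : ∀ n f, f ∈ F n ↔ f ∈ S ∧ ∀ j : Fin q, j.val < n → ∀ c, f (j, c) = 0 := fun n f => Iff.rfl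
  have hF0 : F 0 = S := by
    ext f; rw [hF]; simp
  have step : ∀ n (hn : n < q), finrank K (W ⟨n, hn⟩) + finrank K (F (n + 1)) ≤ finrank K (F n) := by
    intro n hn
    let R : (Fin q × G → K) →ₗ[K] (G → K) := LinearMap.funLeft K K (fun c => (⟨n, hn⟩, c))
    have hR : ∀ f c, R f c = f (⟨n, hn⟩, c) := fun f c => rfl
    have h1 := LinearMap.finrank_range_add_finrank_ker (R.domRestrict (F n))
    have h2 : finrank K (W ⟨n, hn⟩) ≤ finrank K (LinearMap.range (R.domRestrict (F n))) := by
      apply Submodule.finrank_mono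
      intro g hg
      obtain ⟨f, hfS, hf0, hfg⟩ := h ⟨n, hn⟩ g hg
      refine ⟨⟨f, (hF n f).2 ⟨hfS, fun j hj c => hf0 j hj c⟩⟩, ?_⟩
      ext c
      exact hfg c
    have h3 : finrank K (F (n + 1)) ≤ finrank K (LinearMap.ker (R.domRestrict (F n))) := by
      have hle : F (n + 1) ≤ F n := fun f hf => ⟨hf.1, fun j hj c => hf.2 j (by omega) c⟩
      let ψ : F (n + 1) →ₗ[K] LinearMap.ker (R.domRestrict (F n)) :=
        LinearMap.codRestrict _ (Submodule.inclusion hle) (fun f => by
          rw [LinearMap.mem_ker]
          ext c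
          exact f.2.2 ⟨n, hn⟩ (Nat.lt_succ_self n) c)
      apply LinearMap.finrank_le_finrank_of_injective (f := ψ)
      intro a b hab
      have h4 := congrArg
        (fun z : LinearMap.ker (R.domRestrict (F n)) => ((z : F n) : Fin q × G → K)) hab
      exact Subtype.ext h4
    omega
  have key : ∀ n ≤ q, ∑ j ∈ Finset.univ.filter (fun j : Fin q => q - n ≤ j.val),
      finrank K (W j) ≤ finrank K (F (q - n)) := by
    intro n
    induction n with
    | zero =>
      intro _
      have : Finset.univ.filter (fun j : Fin q => q - 0 ≤ j.val) = ∅ := by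
        ext j; simp [j.2]
      rw [this]; simp
    | succ n ih =>
      intro hn
      have ih' := ih (by omega)
      have hst := step (q - (n + 1)) (by omega)
      have e : q - (n + 1) + 1 = q - n := by omega
      rw [e] at hst
      have hset : Finset.univ.filter (fun j : Fin q => q - (n + 1) ≤ j.val) =
          insert (⟨q - (n + 1), by omega⟩ : Fin q)
            (Finset.univ.filter (fun j : Fin q => q - n ≤ j.val)) := by
        ext j
        simp only [Finset.mem_filter, Finset.mem_univ, true_and, Finset.mem_insert, Fin.ext_iff]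
        omega
      rw [hset, Finset.sum_insert (by simp; omega)]
      omega
  have h5 := key q le_rfl
  rw [Nat.sub_self, hF0] at h5
  simpa only [Nat.zero_le, Finset.filter_true] using h5

theorem finrank_coordSub {G : Type} [Fintype G] [DecidableEq G] (C : Finset G) :
    finrank K (coordSub K C) = C.card := by
  have e : coordSub K C ≃ₗ[K] (C → K) :=
    { toFun := fun f c => f.1 c.1
      map_add' := fun _ _ => rfl
      map_smul' := fun _ _ => rfl
      invFun := fun g => ⟨fun c => if h : c ∈ C then g ⟨c, h⟩ else 0, fun c hc => dif_neg hc⟩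
      left_inv := fun f => by
        ext c
        by_cases h : c ∈ C
        · simp [h]
        · simp [h, f.2 c h]
      right_inv := fun g => by
        ext c
        simp }
  rw [e.finrank_eq, Module.finrank_fintype_fun_eq_card, Fintype.card_coe]

theorem coordSub_mono {G : Type} {A B : Finset G} (h : A ⊆ B) : coordSub K A ≤ coordSub K B :=
  fun _ hf g hg => hf g fun h' => hg (h h')

/-- Replacing a coordinate space by a subspace. -/
theorem finrank_sup_ge {G : Type} [Fintype G] [DecidableEq G] (C : Finset G)
    (M S : Submodule K (G → K)) (hM : M ≤ coordSub K C) :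
    finrank K M + finrank K ↥(coordSub K C ⊔ S) ≤ finrank K ↥(M ⊔ S) + C.card := by
  have h1 := Submodule.finrank_sup_add_finrank_inf_eq M S
  have h2 := Submodule.finrank_sup_add_finrank_inf_eq (coordSub K C) S
  rw [finrank_coordSub] at h2
  have h3 : finrank K ↥(M ⊓ S) ≤ finrank K ↥(coordSub K C ⊓ S) :=
    Submodule.finrank_mono (inf_le_inf_right S hM)
  omega

/-- Spaces with pairwise disjoint supports. -/
theorem sum_finrank_le_iSup {G ι : Type} [Fintype G] [DecidableEq G] [Fintype ι]
    (A : ι → Finset G) (S : ι → Submodule K (G → K)) (hS : ∀ i, S i ≤ coordSub K (A i))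
    (hA : ∀ i j, i ≠ j → Disjoint (A i) (A j)) :
    ∑ i, finrank K (S i) ≤ finrank K ↥(⨆ i, S i) := by
  classical
  have key : ∀ s : Finset ι, ∑ i ∈ s, finrank K (S i) ≤ finrank K ↥(⨆ i ∈ s, S i) := by
    intro s
    induction s using Finset.induction_on with
    | empty => simp
    | insert a s ha ih =>
      rw [Finset.sum_insert ha, Finset.iSup_insert]
      have h1 := Submodule.finrank_sup_add_finrank_inf_eq (S a) (⨆ i ∈ s, S i)
      have h2 : S a ⊓ (⨆ i ∈ s, S i) = ⊥ := by
        rw [eq_bot_iff]
        intro f hf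
        rw [Submodule.mem_bot]
        ext g
        by_cases hg : g ∈ A a
        · have h3 : (⨆ i ∈ s, S i) ≤ coordSub K (Finset.univ \ A a) := by
            refine iSup₂_le fun i hi => (hS i).trans (coordSub_mono ?_)
            intro x hx
            have hd := hA i a (fun h => ha (h ▸ hi))
            simp only [Finset.mem_sdiff, Finset.mem_univ, true_and]
            exact fun hxa => (Finset.disjoint_left.1 hd hx) hxa
          exact h3 hf.2 g (by simp [hg])
        · exact hS a hf.1 g hg
      rw [h2, finrank_bot] at h1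
      omega
  have h5 := key Finset.univ
  have h6 : (⨆ i ∈ (Finset.univ : Finset ι), S i) = ⨆ i, S i := by simp
  rwa [h6] at h5

end Pool.Agent.Lib.MP_635d71_ag
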