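import Mathlib
import Pool.Agent.Lib.MP_635d71_ag.Fmt
import Pool.Agent.Lib.MP_635d71_ag.Big
import Pool.Agent.Lib.MP_635d71_ag.Filt

/-!
# Basic facts on product tensors and tangent spaces
-/

open Module Submodule Polynomial

namespace Pool.Agent.Lib.MP_635d71_ag

variable {K : Type} [Field K] {V : Type} [AddCommGroup V] [Module K V]

/-- `tl` as a linear map. -/
def tlL (K : Type) [Field K] (q : ℕ) (l : List ℕ) : (Coord (q :: l) → K) →ₗ[K] (Coord l → K) :=
  LinearMap.funLeft K K (Sum.inr : Coord l → Fin q ⊕ Coord l)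

/-- `f ↦ u ⊗ f` as a linear map. -/
def tenL {q : ℕ} (u : Fin q → K) (l : List ℕ) : (Grid l → K) →ₗ[K] (Grid (q :: l) → K) where
  toFun := fun f => ten u f
  map_add' := fun f g => by ext c; simp [ten, mul_add]
  map_smul' := fun a f => by ext c; simp [ten, mul_left_comm]

/-- `v ↦ v ⊗ f` as a linear map. -/
def tenR {q : ℕ} {l : List ℕ} (f : Grid l → K) : (Fin q → K) →ₗ[K] (Grid (q :: l) → K) where
  toFun := fun u => ten u f
  map_add' := fun f g => by ext c; simp [ten, add_mul]
  map_smul' := fun a f => by ext c; simp [ten, mul_assoc]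

theorem linePoly_coord {ι : Type} (L : V →ₗ[K] (ι → K)) (c : ι) (x0 x1 : V) :
    ∃ p : K[X], ∀ t, L (x0 + t • (x1 - x0)) c = p.eval t := by
  refine ⟨C (L x0 c) + X * C (L x1 c - L x0 c), fun t => ?_⟩
  simp [map_add, map_smul, map_sub]

theorem linePoly_E (l : List ℕ) (L : V →ₗ[K] (Coord l → K)) : LinePoly K fun x => E l (L x) := by
  induction l with
  | nil => intro x0 x1 c; exact ⟨C 1, fun t => by simp [E]⟩
  | cons q l ih =>
    intro x0 x1 c
    obtain ⟨p, hp⟩ := linePoly_coord L (Sum.inl c.1) x0 x1
    obtain ⟨r, hr⟩ := ih ((tlL K q l).comp L) x0 x1 c.2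
    refine ⟨p * r, fun t => ?_⟩
    rw [eval_mul, ← hp, ← hr]
    rfl

theorem linePoly_TVec (l : List ℕ) (L : V →ₗ[K] (Coord l → K)) (i : TI l) :
    LinePoly K fun x => TVec l (L x) i := by
  induction l with
  | nil => intro x0 x1 c; exact ⟨C 1, fun t => by simp [TVec]⟩
  | cons q l ih =>
    intro x0 x1 c
    rcases i with i | j
    · obtain ⟨p, hp⟩ := linePoly_coord L (Sum.inl c.1) x0 x1
      obtain ⟨r, hr⟩ := ih ((tlL K q l).comp L) i x0 x1 c.2
      refine ⟨p * r, fun t => ?_⟩
      rw [eval_mul, ← hp, ← hr]
      rfl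
    · obtain ⟨r, hr⟩ := linePoly_E l ((tlL K q l).comp L) x0 x1 c.2
      refine ⟨C ((Pi.single j 1 : Fin q → K) c.1) * r, fun t => ?_⟩
      rw [eval_mul, ← hr, eval_C]
      rfl

theorem ten_mem_T {q : ℕ} {l : List ℕ} (x : Coord (q :: l) → K) {f : Grid l → K}
    (hf : f ∈ T l (tl x)) : ten (hd x) f ∈ T (q :: l) x := by
  have h : (T l (tl x)).map (tenL (hd x) l) ≤ T (q :: l) x := by
    rw [T, Submodule.map_span_le]
    rintro _ ⟨i, rfl⟩
    exact subset_span ⟨Sum.inl i, rfl⟩
  exact h ⟨f, hf, rfl⟩

theorem ten_E_mem_T {q : ℕ} {l : List ℕ} (x : Coord (q :: l) → K) (v : Fin q → K) :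
    ten v (E l (tl x)) ∈ T (q :: l) x := by
  have h : ten v (E l (tl x)) = ∑ j, v j • ten (Pi.single j 1) (E l (tl x)) := by
    ext c
    rw [Finset.sum_apply]
    simp only [ten, Pi.smul_apply, smul_eq_mul]
    rw [Finset.sum_eq_single c.1]
    · simp
    · intro b _ hb
      rw [Pi.single_eq_of_ne hb.symm]; ring
    · intro h; exact absurd (Finset.mem_univ _) h
  rw [h]
  exact Submodule.sum_mem _ fun j _ => Submodule.smul_mem _ _ (subset_span ⟨Sum.inr j, rfl⟩)

theorem E_mem_T (l : List ℕ) (x : Coord l → K) : E l x ∈ T l x := by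
  induction l with
  | nil => exact subset_span ⟨(), rfl⟩
  | cons q l ih => exact ten_mem_T x (ih (tl x))

theorem ten_single {q : ℕ} {l : List ℕ} (j : Fin q) (g : Grid l) :
    ten (Pi.single j (1 : K)) (Pi.single g 1) = (Pi.single ((j, g) : Grid (q :: l)) 1) := by
  ext ⟨j', g'⟩
  by_cases h1 : j' = j
  · by_cases h2 : g' = g
    · subst h1 h2; simp
    · have : ((j', g') : Grid (q :: l)) ≠ (j, g) := fun h => h2 (Prod.ext_iff.1 h).2
      rw [ten_apply, Pi.single_eq_of_ne h2, Pi.single_eq_of_ne this, mul_zero]
  · have : ((j', g') : Grid (q :: l)) ≠ (j, g) := fun h => h1 (Prod.ext_iff.1 h).1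
    rw [ten_apply, Pi.single_eq_of_ne h1, Pi.single_eq_of_ne this, zero_mul]

theorem E_cpt (l : List ℕ) (g : Grid l) : E l (cpt l g : Coord l → K) = Pi.single g 1 := by
  induction l with
  | nil => ext c; cases c; cases g; simp [E]
  | cons q l ih =>
    obtain ⟨j, g⟩ := g
    have h : E (q :: l) (cpt (q :: l) (j, g) : Coord (q :: l) → K) =
      ten (Pi.single j 1) (E l (cpt l g)) := rfl
    rw [h, ih]
    exact ten_single j g

theorem mem_Ball_nil (g h : Grid []) : h ∈ Ball [] g := Finset.mem_univ _

theorem mem_Ball_cons {q : ℕ} {l : List ℕ} (j j' : Fin q) (g g' : Grid l) :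
    ((j', g') : Grid (q :: l)) ∈ Ball (q :: l) (j, g) ↔ (j' = j ∧ g' ∈ Ball l g) ∨ g' = g := by
  simp only [Ball, Finset.mem_union, Finset.mem_map, Finset.mem_univ, true_and]
  constructor
  · rintro (⟨h, hh, he⟩ | ⟨i, he⟩)
    · obtain ⟨h1, h2⟩ := Prod.ext_iff.1 he
      have h3 : h = g' := h2
      exact Or.inl ⟨h1.symm, h3 ▸ hh⟩
    · exact Or.inr (Prod.ext_iff.1 he).2.symm
  · rintro (⟨h1, h2⟩ | h)
    · exact Or.inl ⟨g', h2, by rw [h1]; rfl⟩
    · exact Or.inr ⟨j', by rw [h]; rfl⟩

theorem self_mem_Ball (l : List ℕ) (g : Grid l) : g ∈ Ball l g := by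
  induction l with
  | nil => exact mem_Ball_nil g g
  | cons q l ih => obtain ⟨j, g⟩ := g; exact (mem_Ball_cons j j g g).2 (Or.inr rfl)

theorem mem_Ball_comm (l : List ℕ) (g h : Grid l) : g ∈ Ball l h ↔ h ∈ Ball l g := by
  induction l with
  | nil => exact ⟨fun _ => mem_Ball_nil _ _, fun _ => mem_Ball_nil _ _⟩
  | cons q l ih =>
    obtain ⟨j, g⟩ := g
    obtain ⟨j', h⟩ := h
    rw [mem_Ball_cons, mem_Ball_cons, ih g h, eq_comm, eq_comm (a := g)]

theorem T_cpt (l : List ℕ) (g : Grid l) : T l (cpt l g : Coord l → K) = coordSub K (Ball l g) := by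
  induction l with
  | nil =>
    apply le_antisymm
    · intro f _ h hh
      exact absurd (mem_Ball_nil g h) hh
    · intro f _
      have : f = f () • TVec [] (cpt [] g : Coord [] → K) () := by
        ext c; cases c; simp [TVec]
      rw [this]
      exact Submodule.smul_mem _ _ (subset_span ⟨(), rfl⟩)
  | cons q l ih =>
    obtain ⟨j, g⟩ := g
    have hE : E l (tl (cpt (q :: l) (j, g) : Coord (q :: l) → K)) = Pi.single g 1 := E_cpt l g
    apply le_antisymm
    · rw [T, span_le]
      rintro _ ⟨i | i, rfl⟩
      · rintro ⟨j', g'⟩ hh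
        rw [mem_Ball_cons, not_or, not_and] at hh
        change (Pi.single j (1 : K) : Fin q → K) j' * TVec l (cpt l g) i g' = 0
        by_cases h1 : j' = j
        · have h2 : TVec l (cpt l g : Coord l → K) i ∈ coordSub K (Ball l g) := by
            rw [← ih g]; exact subset_span ⟨i, rfl⟩
          rw [h2 g' (hh.1 h1), mul_zero]
        · rw [Pi.single_eq_of_ne h1, zero_mul]
      · rintro ⟨j', g'⟩ hh
        rw [mem_Ball_cons, not_or] at hh
        change (Pi.single i (1 : K) : Fin q → K) j' * E l (tl (cpt (q :: l) (j, g) : Coord (q :: l) → K)) g' = 0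
        rw [hE, Pi.single_eq_of_ne hh.2, mul_zero]
    · intro f hf
      -- split f
      have h1 : ten (Pi.single j 1) (fun g' => if g' = g then 0 else f (j, g')) ∈
          T (q :: l) (cpt (q :: l) (j, g) : Coord (q :: l) → K) := by
        refine ten_mem_T (cpt (q :: l) (j, g) : Coord (q :: l) → K) ?_
        change _ ∈ T l (cpt l g)
        rw [ih g]
        intro g' hg'
        have hne : g' ≠ g := fun h => hg' (h ▸ self_mem_Ball l g)
        simp only [hne, if_false]
        exact hf (j, g') (by rw [mem_Ball_cons, not_or]; exact ⟨fun h => hg' h.2, hne⟩)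
      have h2 : ten (fun j' => f (j', g)) (Pi.single g 1) ∈
          T (q :: l) (cpt (q :: l) (j, g) : Coord (q :: l) → K) := by
        have := ten_E_mem_T (cpt (q :: l) (j, g) : Coord (q :: l) → K) (fun j' => f (j', g))
        rwa [hE] at this
      have h3 : f = ten (Pi.single j 1) (fun g' => if g' = g then 0 else f (j, g')) +
          ten (fun j' => f (j', g)) (Pi.single g 1) := by
        ext ⟨j', g'⟩
        rw [Pi.add_apply, ten_apply, ten_apply]
        by_cases hg : g' = g
        · subst hg; simp
        · rw [if_neg hg, Pi.single_eq_of_ne hg, mul_zero, add_zero]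
          by_cases hj : j' = j
          · subst hj; simp
          · rw [Pi.single_eq_of_ne hj, zero_mul]
            exact hf (j', g') (by rw [mem_Ball_cons, not_or]; exact ⟨fun h => hj h.1, hg⟩)
      rw [h3]
      exact Submodule.add_mem _ h1 h2

theorem card_Ball_le (l : List ℕ) (g : Grid l) : (Ball l g).card ≤ D l := by
  induction l with
  | nil => exact (Finset.card_le_univ _).trans (by rw [card_grid]; rfl)
  | cons q l ih =>
    obtain ⟨j, g⟩ := g
    have h : Ball (q :: l) (j, g) ⊆
        (Ball l g).map ⟨fun h => ((j, h) : Fin q × Grid l), fun _ _ h => (Prod.ext_iff.1 h).2⟩ ∪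
        (Finset.univ.erase j).map ⟨fun j : Fin q => ((j, g) : Fin q × Grid l),
          fun _ _ h => (Prod.ext_iff.1 h).1⟩ := by
      rintro ⟨j', g'⟩ hh
      rw [mem_Ball_cons] at hh
      rw [Finset.mem_union, Finset.mem_map, Finset.mem_map]
      by_cases h1 : j' = j
      · left
        refine ⟨g', ?_, by rw [h1]; rfl⟩
        rcases hh with hh | hh
        · exact hh.2
        · rw [hh]; exact self_mem_Ball l g
      · right
        refine ⟨j', Finset.mem_erase.2 ⟨h1, Finset.mem_univ _⟩, ?_⟩
        rcases hh with hh | hh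
        · exact absurd hh.1 h1
        · rw [hh]; rfl
    refine (Finset.card_le_card h).trans ((Finset.card_union_le _ _).trans ?_)
    rw [Finset.card_map, Finset.card_map, Finset.card_erase_of_mem (Finset.mem_univ _),
      Finset.card_univ, Fintype.card_fin, D]
    have := ih g
    omega

theorem le_card_Ball (l : List ℕ) (g : Grid l) : D l ≤ (Ball l g).card := by
  induction l with
  | nil =>
    have : (Ball [] g) = Finset.univ := rfl
    rw [this, Finset.card_univ, card_grid]; rfl
  | cons q l ih =>
    obtain ⟨j, g⟩ := g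
    have h : 
        (Ball l g).map ⟨fun h => ((j, h) : Fin q × Grid l), fun _ _ h => (Prod.ext_iff.1 h).2⟩ ∪
        (Finset.univ.erase j).map ⟨fun j : Fin q => ((j, g) : Fin q × Grid l),
          fun _ _ h => (Prod.ext_iff.1 h).1⟩ ⊆ Ball (q :: l) (j, g) := by
      intro p hp
      rw [Finset.mem_union, Finset.mem_map, Finset.mem_map] at hp
      rcases hp with ⟨h, hh, rfl⟩ | ⟨i, hi, rfl⟩
      · exact (mem_Ball_cons _ _ _ _).2 (Or.inl ⟨rfl, hh⟩)
      · exact (mem_Ball_cons _ _ _ _).2 (Or.inr rfl)
    refine le_trans ?_ (Finset.card_le_card h)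
    rw [Finset.card_union_of_disjoint, Finset.card_map, Finset.card_map,
      Finset.card_erase_of_mem (Finset.mem_univ _), Finset.card_univ, Fintype.card_fin, D]
    · have := ih g
      omega
    · rw [Finset.disjoint_left]
      rintro p hp hq
      rw [Finset.mem_map] at hp hq
      obtain ⟨h, _, rfl⟩ := hp
      obtain ⟨i, hi, he⟩ := hq
      exact (Finset.mem_erase.1 hi).1 (Prod.ext_iff.1 he).1

theorem card_Ball (l : List ℕ) (g : Grid l) : (Ball l g).card = D l :=
  le_antisymm (card_Ball_le l g) (le_card_Ball l g)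

theorem finrank_T_le (l : List ℕ) (x : Coord l → K) : finrank K (T l x) ≤ D l := by
  induction l with
  | nil =>
    refine (Submodule.finrank_le _).trans ?_
    rw [Module.finrank_fintype_fun_eq_card, card_grid]; rfl
  | cons q l ih =>
    by_cases hq : ∃ j0, hd x j0 ≠ 0
    · obtain ⟨j0, hj0⟩ := hq
      have h : T (q :: l) x ≤ (T l (tl x)).map (tenL (hd x) l) ⊔
          span K (Set.range fun j : {j : Fin q // j ≠ j0} => ten (Pi.single j.1 1) (E l (tl x))) := by
        have h0 : ten (hd x) (E l (tl x)) ∈ (T l (tl x)).map (tenL (hd x) l) :=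
          ⟨_, E_mem_T l (tl x), rfl⟩
        rw [T, span_le]
        rintro _ ⟨i | i, rfl⟩
        · exact mem_sup_left ⟨_, subset_span ⟨i, rfl⟩, rfl⟩
        · by_cases hi : i = j0
          · subst hi
            have h1 : TVec (q :: l) x (Sum.inr i) = (hd x i)⁻¹ • (ten (hd x) (E l (tl x)) -
                ∑ j : {j : Fin q // j ≠ i}, hd x j.1 • ten (Pi.single j.1 1) (E l (tl x))) := by
              ext ⟨j', g'⟩
              rw [Pi.smul_apply, Pi.sub_apply, Finset.sum_apply, smul_eq_mul]
              simp only [Pi.smul_apply, smul_eq_mul, ten_apply]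
              change (Pi.single i (1 : K) : Fin q → K) j' * E l (tl x) g' = _
              by_cases hj' : j' = i
              · subst hj'
                rw [Finset.sum_eq_zero, Pi.single_eq_same, sub_zero, ← mul_assoc,
                  inv_mul_cancel₀ hj0]
                rintro ⟨k, hk⟩ _
                rw [Pi.single_eq_of_ne (Ne.symm hk)]; ring
              · rw [Pi.single_eq_of_ne hj', Finset.sum_eq_single ⟨j', hj'⟩]
                · simp
                · rintro ⟨k, hk⟩ _ hne
                  rw [Pi.single_eq_of_ne (fun h => hne (Subtype.ext h.symm))]; ring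
                · intro h; exact absurd (Finset.mem_univ _) h
            rw [h1]
            refine Submodule.smul_mem _ _ (Submodule.sub_mem _ (mem_sup_left h0) (mem_sup_right ?_))
            exact Submodule.sum_mem _ fun j _ => Submodule.smul_mem _ _ (subset_span ⟨j, rfl⟩)
          · exact mem_sup_right (subset_span ⟨⟨i, hi⟩, rfl⟩)
      have h1 := (Submodule.finrank_mono h).trans (Submodule.finrank_add_le_finrank_add_finrank _ _)
      have h2 : finrank K ((T l (tl x)).map (tenL (hd x) l)) ≤ D l :=
        (Submodule.finrank_map_le _ _).trans (ih (tl x))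
      have h3 := finrank_range_le_card (R := K)
        (fun j : {j : Fin q // j ≠ j0} => ten (l := l) (Pi.single j.1 1) (E l (tl x)))
      have h4 : Fintype.card {j : Fin q // j ≠ j0} = q - 1 := by
        rw [Fintype.card_subtype_compl, Fintype.card_fin, Fintype.card_subtype_eq]
      rw [Set.finrank, h4] at h3
      rw [D]
      omega
    · push Not at hq
      have h : T (q :: l) x ≤
          span K (Set.range fun j : Fin q => ten (Pi.single j 1) (E l (tl x))) := by
        rw [T, span_le]
        rintro _ ⟨i | i, rfl⟩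
        · have : TVec (q :: l) x (Sum.inl i) = 0 := by
            ext ⟨j', g'⟩
            change hd x j' * _ = 0
            rw [hq, zero_mul]
          rw [this]; exact Submodule.zero_mem _
        · exact subset_span ⟨i, rfl⟩
      have h1 := Submodule.finrank_mono h
      have h3 := finrank_range_le_card (R := K)
        (fun j : Fin q => ten (l := l) (Pi.single j 1) (E l (tl x)))
      rw [Set.finrank, Fintype.card_fin] at h3
      have h4 : 1 ≤ D l := by
        clear * -
        induction l with
        | nil => exact le_rfl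
        | cons q l ih => rw [D]; omega
      rw [D]
      omega

theorem one_le_D (l : List ℕ) : 1 ≤ D l := by
  induction l with
  | nil => exact le_rfl
  | cons q l ih => rw [D]; omega

/-- Generic points on the Segre variety increase the dimension as long as possible. -/
theorem point_lemma (l : List ℕ) (M : Submodule K (Grid l → K)) (n : ℕ) :
    ∃ z : Fin n → Coord l → K, min l.prod (finrank K M + n) ≤
      finrank K ↥(M ⊔ span K (Set.range fun i => E l (z i))) := by
  induction n with
  | zero =>
    refine ⟨fun i => i.elim0, ?_⟩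
    refine (min_le_right _ _).trans ?_
    exact Submodule.finrank_mono le_sup_left
  | succ n ih =>
    obtain ⟨z, hz⟩ := ih
    by_cases htop : M ⊔ span K (Set.range fun i => E l (z i)) = ⊤
    · refine ⟨Fin.cons 0 z, ?_⟩
      have h : M ⊔ span K (Set.range fun i => E l (z i)) ≤
          M ⊔ span K (Set.range fun i => E l ((Fin.cons 0 z : Fin (n + 1) → Coord l → K) i)) := by
        refine sup_le_sup_left (span_mono ?_) _
        rintro _ ⟨i, rfl⟩
        exact ⟨i.succ, by simp⟩
      rw [htop] at h
      rw [top_le_iff.1 h, finrank_top, Module.finrank_fintype_fun_eq_card, card_grid]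
      exact min_le_left _ _
    · obtain ⟨g, hg⟩ : ∃ g : Grid l, (Pi.single g 1 : Grid l → K) ∉
          M ⊔ span K (Set.range fun i => E l (z i)) := by
        by_contra hcon
        push Not at hcon
        apply htop
        rw [eq_top_iff]
        intro f _
        rw [← Finset.univ_sum_single f]
        refine Submodule.sum_mem _ fun g _ => ?_
        have : (Pi.single g (f g) : Grid l → K) = f g • Pi.single g 1 := by
          rw [← Pi.single_smul, smul_eq_mul, mul_one]
        rw [this]
        exact Submodule.smul_mem _ _ (hcon g)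
      refine ⟨Fin.cons (cpt l g) z, ?_⟩
      have h : M ⊔ span K (Set.range fun i => E l (z i)) <
          M ⊔ span K (Set.range fun i =>
            E l ((Fin.cons (cpt l g) z : Fin (n + 1) → Coord l → K) i)) := by
        refine lt_of_le_of_ne (sup_le_sup_left (span_mono ?_) _) ?_
        · rintro _ ⟨i, rfl⟩
          exact ⟨i.succ, by simp⟩
        · intro h
          apply hg
          rw [h]
          refine mem_sup_right (subset_span ⟨0, ?_⟩)
          simp only [Fin.cons_zero]
          exact E_cpt l g
      have h2 := Submodule.finrank_lt_finrank_of_lt h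
      have : min l.prod (finrank K M + (n + 1)) ≤ min l.prod (finrank K M + n) + 1 := by
        omega
      omega

end Pool.Agent.Lib.MP_635d71_ag
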