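import Mathlib
import Pool.Agent.Lib.MP_635d71_ag.Point

/-!
# The unit gadget
-/

open Module Submodule

namespace Pool.Agent.Lib.MP_635d71_ag

variable {K : Type} [Field K]

/-- Three points whose tangent spaces span a space of dimension `3 D - 1`, one less than expected. -/
structure Gadget (K : Type) [Field K] (l : List ℕ) (A : Finset (Grid l)) where
  /-- first point -/
  y : Coord l → K
  /-- second point -/
  s : Coord l → K
  /-- third point -/
  t : Coord l → K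
  /-- common vector -/
  ν : Grid l → K
  hy : T l y ≤ coordSub K A
  hs : T l s ≤ coordSub K A
  ht : T l t ≤ coordSub K A
  hνy : ν ∈ T l y
  hνst : ν ∈ T l s ⊔ T l t
  h4 : 4 ≤ finrank K ↥(span K {E l y, E l s, E l t, ν})
  hT : 3 * D l ≤ finrank K ↥(T l y ⊔ T l s ⊔ T l t) + 1

/-- Cylinder over a set. -/
def lift (q : ℕ) {l : List ℕ} (A : Finset (Grid l)) : Finset (Grid (q :: l)) :=
  Finset.univ.filter fun g => g.2 ∈ A

theorem mem_lift {q : ℕ} {l : List ℕ} (A : Finset (Grid l)) (j : Fin q) (g : Grid l) :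
    ((j, g) : Grid (q :: l)) ∈ lift q A ↔ g ∈ A := by
  simp [lift]

theorem card_lift {q : ℕ} {l : List ℕ} (A : Finset (Grid l)) : (lift q A).card = q * A.card := by
  classical
  have h : lift q A = (Finset.univ : Finset (Fin q)) ×ˢ A := by
    ext ⟨j, g⟩
    rw [mem_lift, Finset.mem_product]
    simp
  rw [h, Finset.card_product, Finset.card_univ, Fintype.card_fin]

theorem lift_disjoint {q : ℕ} {l : List ℕ} {A B : Finset (Grid l)} (h : Disjoint A B) :
    Disjoint (lift q A) (lift q B) := by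
  rw [Finset.disjoint_left] at h ⊢
  rintro ⟨j, g⟩ h1 h2
  exact h ((mem_lift A j g).1 h1) ((mem_lift B j g).1 h2)

theorem T_le_lift {q : ℕ} {l : List ℕ} (x : Coord (q :: l) → K) (A : Finset (Grid l))
    (h : T l (tl x) ≤ coordSub K A) : T (q :: l) x ≤ coordSub K (lift q A) := by
  rw [T, span_le]
  rintro _ ⟨i | i, rfl⟩
  · rintro ⟨j, g⟩ hg
    rw [mem_lift] at hg
    change hd x j * TVec l (tl x) i g = 0
    have : TVec l (tl x) i ∈ T l (tl x) := subset_span ⟨i, rfl⟩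
    rw [h this g hg, mul_zero]
  · rintro ⟨j, g⟩ hg
    rw [mem_lift] at hg
    change (Pi.single i (1 : K) : Fin q → K) j * E l (tl x) g = 0
    rw [h (E_mem_T l (tl x)) g hg, mul_zero]

theorem three_slices {v : ℕ} {l : List ℕ} (S : Submodule K (Grid ((v + 2) :: l) → K))
    (W0 W1 W2 : Submodule K (Grid l → K)) (u0 : Fin (v + 2) → K) (hu0 : u0 0 = 1)
    (h0 : W0.map (tenL u0 l) ≤ S) (h1 : W1.map (tenL (Pi.single 1 1) l) ≤ S)
    (h2 : ∀ j : Fin v, W2.map (tenL (Pi.single j.succ.succ 1) l) ≤ S) :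
    finrank K W0 + finrank K W1 + v * finrank K W2 ≤ finrank K S := by
  have h := sum_finrank_le (K := K) (G := Grid l) S
    (Fin.cons W0 (Fin.cons W1 fun _ => W2 : Fin (v + 1) → Submodule K (Grid l → K))) (by
      intro j
      refine Fin.cases ?_ (fun j => Fin.cases ?_ (fun j => ?_) j) j
      · intro g hg
        refine ⟨ten u0 g, h0 ⟨g, hg, rfl⟩, fun j' hj' => absurd hj' (Fin.not_lt_zero j'), ?_⟩
        intro c
        rw [ten_apply, hu0, one_mul]
      · intro g hg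
        refine ⟨ten (Pi.single 1 1) g, h1 ⟨g, hg, rfl⟩, fun j' hj' c => ?_, ?_⟩
        · have hne : j' ≠ 1 := hj'.ne
          rw [ten_apply, Pi.single_eq_of_ne hne, zero_mul]
        · intro c
          change (Pi.single 1 (1 : K) : Fin (v + 2) → K) 1 * g c = g c
          rw [Pi.single_eq_same, one_mul]
      · intro g hg
        refine ⟨ten (Pi.single j.succ.succ 1) g, h2 j ⟨g, hg, rfl⟩, fun j' hj' c => ?_, ?_⟩
        · rw [ten_apply, Pi.single_eq_of_ne hj'.ne, zero_mul]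
        · intro c
          rw [ten_apply, Pi.single_eq_same, one_mul])
  rw [Fin.sum_univ_succ, Fin.sum_univ_succ] at h
  have h' : finrank K W0 + (finrank K W1 + ∑ _j : Fin v, finrank K W2) ≤ finrank K S := h
  simp only [Finset.sum_const, Finset.card_univ, Fintype.card_fin, smul_eq_mul] at h'
  omega

theorem finrank_add_one_le {G : Type} [Finite G] (S : Submodule K (G → K)) (a : G → K) (ha : a ∉ S) :
    finrank K S + 1 ≤ finrank K ↥(S ⊔ span K {a}) := by
  apply Submodule.finrank_lt_finrank_of_lt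
  refine lt_of_le_of_ne le_sup_left (fun h => ha ?_)
  rw [h]
  exact mem_sup_right (mem_span_singleton_self a)

theorem one_le_span {G : Type} [Finite G] (a : G → K) (ha : a ≠ 0) :
    1 ≤ finrank K ↥(span K {a}) := by
  rw [finrank_span_singleton ha]

theorem two_le_span {G : Type} [Finite G] (a b : G → K) (c : G) (ha : a c ≠ 0) (hb : b c = 0)
    (hb0 : b ≠ 0) : 2 ≤ finrank K ↥(span K {a} ⊔ span K {b}) := by
  rw [sup_comm]
  have h := finrank_add_one_le (span K {b}) a (by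
    intro h
    obtain ⟨k, hk⟩ := mem_span_singleton.1 h
    apply ha
    rw [← hk, Pi.smul_apply, hb, smul_zero])
  have := one_le_span b hb0
  omega

/-- `e₀ + e₁`. -/
def xv (K : Type) [Field K] (v : ℕ) : Fin (v + 2) → K := Pi.single 0 1 + Pi.single 1 1

theorem xv_zero (v : ℕ) : xv K v 0 = 1 := by simp [xv]

theorem xv_one (v : ℕ) : xv K v 1 = 1 := by simp [xv]

theorem finrank_T_x {v : ℕ} {l : List ℕ} (x : Coord l → K) (h : D l ≤ finrank K (T l x))
    (hE : E l x ≠ 0) : D ((v + 2) :: l) ≤ finrank K (T ((v + 2) :: l) (cons (xv K v) x)) := by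
  have h1 := three_slices (T ((v + 2) :: l) (cons (xv K v) x)) (T l x) (span K {E l x})
    (span K {E l x}) (xv K v) (xv_zero v) (by
      rintro _ ⟨f, hf, rfl⟩
      exact ten_mem_T (cons (xv K v) x) hf) (by
      rw [Submodule.map_span_le]
      rintro _ rfl
      exact ten_E_mem_T (cons (xv K v) x) (Pi.single 1 1)) (fun j => by
      rw [Submodule.map_span_le]
      rintro _ rfl
      exact ten_E_mem_T (cons (xv K v) x) (Pi.single j.succ.succ 1))
  have h2 := one_le_span (E l x) hE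
  have h3 : v * 1 ≤ v * finrank K ↥(span K {E l x}) := Nat.mul_le_mul_left _ h2
  rw [D]
  omega

/-- Two-factor part: `T(x, x, w) + E(1, 1, w)`. -/
theorem finrank_T_xx (v3 v4 : ℕ) (R : List ℕ) (w : Grid R) :
    D ((v3 + 2) :: (v4 + 2) :: R) + 1 ≤ finrank K ↥(
      T ((v3 + 2) :: (v4 + 2) :: R) (cons (xv K v3) (cons (xv K v4) (cpt R w))) ⊔
      span K {E ((v3 + 2) :: (v4 + 2) :: R) (cons (Pi.single 1 1) (cons (Pi.single 1 1) (cpt R w)))}) := by
  have hEw : E R (cpt R w : Coord R → K) = Pi.single w 1 := E_cpt R w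
  have hEx : E ((v4 + 2) :: R) (cons (xv K v4) (cpt R w)) = ten (xv K v4) (Pi.single w 1) := by
    rw [E, hd_cons, tl_cons, hEw]
  have hE1 : E ((v4 + 2) :: R) (cons (Pi.single 1 1 : Fin (v4 + 2) → K) (cpt R w)) =
      ten (Pi.single 1 1) (Pi.single w 1) := by
    rw [E, hd_cons, tl_cons, hEw]
  have hTw : D R ≤ finrank K (T R (cpt R w : Coord R → K)) := by
    rw [T_cpt, finrank_coordSub, card_Ball]
  have hT4 := finrank_T_x (v := v4) (cpt R w : Coord R → K) hTw (by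
    rw [hEw]; intro h0
    have := congrFun h0 w
    simp at this)
  have hx0 : (E ((v4 + 2) :: R) (cons (xv K v4) (cpt R w))) ((0, w) : Grid ((v4 + 2) :: R)) = 1 := by
    rw [hEx, ten_apply, xv_zero]; simp
  have h1 := three_slices
    (T ((v3 + 2) :: (v4 + 2) :: R) (cons (xv K v3) (cons (xv K v4) (cpt R w))) ⊔
      span K {E ((v3 + 2) :: (v4 + 2) :: R) (cons (Pi.single 1 1) (cons (Pi.single 1 1) (cpt R w)))})
    (T ((v4 + 2) :: R) (cons (xv K v4) (cpt R w)))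
    (span K {E ((v4 + 2) :: R) (cons (xv K v4) (cpt R w))} ⊔
      span K {E ((v4 + 2) :: R) (cons (Pi.single 1 1 : Fin (v4 + 2) → K) (cpt R w))})
    (span K {E ((v4 + 2) :: R) (cons (xv K v4) (cpt R w))}) (xv K v3) (xv_zero v3) (by
      rintro _ ⟨f, hf, rfl⟩
      exact mem_sup_left (ten_mem_T (cons (xv K v3) (cons (xv K v4) (cpt R w))) hf)) (by
      rw [Submodule.map_sup]
      refine sup_le ?_ ?_
      · rw [Submodule.map_span_le]
        rintro _ rfl
        exact mem_sup_left (ten_E_mem_T (cons (xv K v3) (cons (xv K v4) (cpt R w))) (Pi.single 1 1))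
      · rw [Submodule.map_span_le]
        rintro _ rfl
        exact mem_sup_right (mem_span_singleton_self _)) (fun j => by
      rw [Submodule.map_span_le]
      rintro _ rfl
      exact mem_sup_left (ten_E_mem_T (cons (xv K v3) (cons (xv K v4) (cpt R w)))
        (Pi.single j.succ.succ 1)))
  have h2 := two_le_span (E ((v4 + 2) :: R) (cons (xv K v4) (cpt R w)))
    (E ((v4 + 2) :: R) (cons (Pi.single 1 1 : Fin (v4 + 2) → K) (cpt R w)))
    ((0, w) : Grid ((v4 + 2) :: R)) (by rw [hx0]; exact one_ne_zero) (by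
      rw [hE1, ten_apply, Pi.single_eq_of_ne (by simp), zero_mul]) (by
      rw [hE1]
      intro h0
      have := congrFun h0 ((1, w) : Grid ((v4 + 2) :: R))
      rw [ten_apply] at this
      simp at this)
  have h3 := one_le_span (E ((v4 + 2) :: R) (cons (xv K v4) (cpt R w))) (by
    intro h0
    rw [h0] at hx0
    exact zero_ne_one hx0)
  have h4 := Nat.mul_le_mul_left v3 h3
  have h5 : D ((v3 + 2) :: (v4 + 2) :: R) = (v3 + 1) + D ((v4 + 2) :: R) := rfl
  omega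

theorem le_finrank_of_dual {G : Type} [Finite G] {m : ℕ} (f : Fin m → G → K) (c : Fin m → G)
    (h : ∀ i j, f i (c j) = if i = j then 1 else 0) (S : Submodule K (G → K)) (hS : ∀ i, f i ∈ S) :
    m ≤ finrank K S := by
  have hli : LinearIndependent K f := by
    rw [Fintype.linearIndependent_iff]
    intro g hg i
    have := congrFun hg (c i)
    simpa [h] using this
  have h1 := finrank_span_eq_card hli
  rw [Fintype.card_fin] at h1
  rw [← h1]
  apply Submodule.finrank_mono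
  rw [span_le]
  rintro _ ⟨i, rfl⟩
  exact hS i

section main

variable (v1 v2 v3 v4 : ℕ) (R : List ℕ) (w : Grid R)

/-- The point `(0, 0, w)`. -/
def pa (K : Type) [Field K] : Coord ((v3 + 2) :: (v4 + 2) :: R) → K :=
  cons (Pi.single 0 1) (cons (Pi.single 0 1) (cpt R w))

/-- The point `(x, x, w)`. -/
def pb (K : Type) [Field K] : Coord ((v3 + 2) :: (v4 + 2) :: R) → K :=
  cons (xv K v3) (cons (xv K v4) (cpt R w))

/-- The point `(1, 1, w)`. -/
def pc (K : Type) [Field K] : Coord ((v3 + 2) :: (v4 + 2) :: R) → K :=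
  cons (Pi.single 1 1) (cons (Pi.single 1 1) (cpt R w))

theorem E_pa (i : Fin (v3 + 2)) (j : Fin (v4 + 2)) (h : Grid R) :
    E ((v3 + 2) :: (v4 + 2) :: R) (pa v3 v4 R w K) (i, j, h) =
      (Pi.single 0 (1 : K) : Fin (v3 + 2) → K) i * ((Pi.single 0 (1 : K) : Fin (v4 + 2) → K) j *
        (Pi.single w (1 : K) : Grid R → K) h) := by
  rw [← E_cpt R w]; rfl

theorem E_pb (i : Fin (v3 + 2)) (j : Fin (v4 + 2)) (h : Grid R) :
    E ((v3 + 2) :: (v4 + 2) :: R) (pb v3 v4 R w K) (i, j, h) =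
      xv K v3 i * (xv K v4 j * (Pi.single w (1 : K) : Grid R → K) h) := by
  rw [← E_cpt R w]; rfl

theorem E_pc (i : Fin (v3 + 2)) (j : Fin (v4 + 2)) (h : Grid R) :
    E ((v3 + 2) :: (v4 + 2) :: R) (pc v3 v4 R w K) (i, j, h) =
      (Pi.single 1 (1 : K) : Fin (v3 + 2) → K) i * ((Pi.single 1 (1 : K) : Fin (v4 + 2) → K) j *
        (Pi.single w (1 : K) : Grid R → K) h) := by
  rw [← E_cpt R w]; rfl

theorem pa_eq : pa v3 v4 R w K = cpt ((v3 + 2) :: (v4 + 2) :: R) (0, 0, w) := rfl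

theorem pc_eq : pc v3 v4 R w K = cpt ((v3 + 2) :: (v4 + 2) :: R) (1, 1, w) := rfl

theorem fin01 {v : ℕ} : (0 : Fin (v + 2)) ≠ 1 := by simp

theorem not_mem_Ball1 : ((1, 1, w) : Grid ((v3 + 2) :: (v4 + 2) :: R)) ∉
    Ball ((v3 + 2) :: (v4 + 2) :: R) (0, 0, w) := by
  rw [mem_Ball_cons]
  rintro (⟨h, _⟩ | h)
  · exact fin01 h.symm
  · exact fin01 (Prod.ext_iff.1 h).1.symm

theorem not_mem_Ball0 : ((0, 0, w) : Grid ((v3 + 2) :: (v4 + 2) :: R)) ∉
    Ball ((v3 + 2) :: (v4 + 2) :: R) (1, 1, w) := by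
  rw [mem_Ball_cons]
  rintro (⟨h, _⟩ | h)
  · exact fin01 h
  · exact fin01 (Prod.ext_iff.1 h).1

theorem dim_i : D ((v3 + 2) :: (v4 + 2) :: R) + 1 ≤ finrank K
    ↥(T _ (pa v3 v4 R w K) ⊔ span K {E _ (pc v3 v4 R w K)}) := by
  rw [pa_eq, pc_eq, E_cpt]
  have h := finrank_add_one_le (T _ (cpt ((v3 + 2) :: (v4 + 2) :: R) (0, 0, w) : _ → K))
    (Pi.single ((1, 1, w) : Grid ((v3 + 2) :: (v4 + 2) :: R)) 1) (by
      rw [T_cpt]
      intro h
      have := h _ (not_mem_Ball1 v3 v4 R w)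
      simp at this)
  rwa [T_cpt, finrank_coordSub, card_Ball, ← T_cpt] at h

theorem dim_ii : D ((v3 + 2) :: (v4 + 2) :: R) + 1 ≤ finrank K
    ↥(T _ (pc v3 v4 R w K) ⊔ span K {E _ (pa v3 v4 R w K)}) := by
  rw [pa_eq, pc_eq, E_cpt]
  have h := finrank_add_one_le (T _ (cpt ((v3 + 2) :: (v4 + 2) :: R) (1, 1, w) : _ → K))
    (Pi.single ((0, 0, w) : Grid ((v3 + 2) :: (v4 + 2) :: R)) 1) (by
      rw [T_cpt]
      intro h
      have := h _ (not_mem_Ball0 v3 v4 R w)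
      simp at this)
  rwa [T_cpt, finrank_coordSub, card_Ball, ← T_cpt] at h

theorem dim_iii : D ((v3 + 2) :: (v4 + 2) :: R) + 1 ≤ finrank K
    ↥(T _ (pb v3 v4 R w K) ⊔ span K {E _ (pc v3 v4 R w K)}) :=
  finrank_T_xx v3 v4 R w

theorem val_aa : E ((v3 + 2) :: (v4 + 2) :: R) (pa v3 v4 R w K) (0, 0, w) = 1 := by
  rw [E_pa]; simp

theorem val_ac : E ((v3 + 2) :: (v4 + 2) :: R) (pa v3 v4 R w K) (1, 1, w) = 0 := by
  rw [E_pa, Pi.single_eq_of_ne fin01.symm, zero_mul]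

theorem val_ba : E ((v3 + 2) :: (v4 + 2) :: R) (pb v3 v4 R w K) (0, 0, w) = 1 := by
  rw [E_pb, xv_zero, xv_zero]; simp

theorem val_bc : E ((v3 + 2) :: (v4 + 2) :: R) (pb v3 v4 R w K) (1, 1, w) = 1 := by
  rw [E_pb, xv_one, xv_one]; simp

theorem val_ca : E ((v3 + 2) :: (v4 + 2) :: R) (pc v3 v4 R w K) (0, 0, w) = 0 := by
  rw [E_pc, Pi.single_eq_of_ne fin01, zero_mul]

theorem val_cc : E ((v3 + 2) :: (v4 + 2) :: R) (pc v3 v4 R w K) (1, 1, w) = 1 := by
  rw [E_pc]; simp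

theorem ne_a : E ((v3 + 2) :: (v4 + 2) :: R) (pa v3 v4 R w K) ≠ 0 := by
  intro h
  have := val_aa (K := K) v3 v4 R w
  rw [h] at this
  exact zero_ne_one this

theorem ne_b : E ((v3 + 2) :: (v4 + 2) :: R) (pb v3 v4 R w K) ≠ 0 := by
  intro h
  have := val_ba (K := K) v3 v4 R w
  rw [h] at this
  exact zero_ne_one this

theorem ne_c : E ((v3 + 2) :: (v4 + 2) :: R) (pc v3 v4 R w K) ≠ 0 := by
  intro h
  have := val_cc (K := K) v3 v4 R w
  rw [h] at this
  exact zero_ne_one this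

theorem dim_iv : 2 ≤ finrank K
    ↥(span K {E _ (pa v3 v4 R w K)} ⊔ span K {E _ (pb v3 v4 R w K)}) := by
  rw [sup_comm]
  exact two_le_span _ _ ((1, 1, w) : Grid ((v3 + 2) :: (v4 + 2) :: R))
    (by rw [val_bc]; exact one_ne_zero) (val_ac v3 v4 R w) (ne_a v3 v4 R w)

theorem dim_v : 2 ≤ finrank K
    ↥(span K {E _ (pa v3 v4 R w K)} ⊔ span K {E _ (pc v3 v4 R w K)}) :=
  two_le_span _ _ ((0, 0, w) : Grid ((v3 + 2) :: (v4 + 2) :: R))
    (by rw [val_aa]; exact one_ne_zero) (val_ca v3 v4 R w) (ne_c v3 v4 R w)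

theorem dim_vi : 2 ≤ finrank K
    ↥(span K {E _ (pb v3 v4 R w K)} ⊔ span K {E _ (pc v3 v4 R w K)}) :=
  two_le_span _ _ ((0, 0, w) : Grid ((v3 + 2) :: (v4 + 2) :: R))
    (by rw [val_ba]; exact one_ne_zero) (val_ca v3 v4 R w) (ne_c v3 v4 R w)

theorem map_T_le {q : ℕ} {l : List ℕ} (u : Fin q → K) (x : Coord l → K) :
    (T l x).map (tenL u l) ≤ T (q :: l) (cons u x) := by
  rintro _ ⟨f, hf, rfl⟩
  exact ten_mem_T (cons u x) hf

theorem map_E_le {q : ℕ} {l : List ℕ} (u v : Fin q → K) (x : Coord l → K) :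
    (span K {E l x}).map (tenL v l) ≤ T (q :: l) (cons u x) := by
  rw [Submodule.map_span_le]
  rintro _ rfl
  exact ten_E_mem_T (cons u x) v

theorem map_EE_le {q : ℕ} {l : List ℕ} (u : Fin q → K) (x : Coord l → K) :
    (span K {E l x}).map (tenL u l) ≤ span K {E (q :: l) (cons u x)} := by
  rw [Submodule.map_span_le]
  rintro _ rfl
  exact mem_span_singleton_self _

/-- The first point of the gadget. -/
def gy (K : Type) [Field K] : Coord ((v1 + 2) :: (v2 + 2) :: (v3 + 2) :: (v4 + 2) :: R) → K :=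
  cons (Pi.single 0 1) (cons (Pi.single 0 1) (pa v3 v4 R w K))

/-- The second point of the gadget. -/
def gs (K : Type) [Field K] : Coord ((v1 + 2) :: (v2 + 2) :: (v3 + 2) :: (v4 + 2) :: R) → K :=
  cons (Pi.single 1 1) (cons (Pi.single 1 1) (pb v3 v4 R w K))

/-- The third point of the gadget. -/
def gt (K : Type) [Field K] : Coord ((v1 + 2) :: (v2 + 2) :: (v3 + 2) :: (v4 + 2) :: R) → K :=
  cons (Pi.single 1 1) (cons (Pi.single 0 1) (pc v3 v4 R w K))

theorem dim_W0 : D ((v3 + 2) :: (v4 + 2) :: R) + 3 + v2 ≤ finrank K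
    ↥(T ((v2 + 2) :: (v3 + 2) :: (v4 + 2) :: R) (cons (Pi.single 0 1) (pa v3 v4 R w K)) ⊔
      span K {E _ (cons (Pi.single 1 1 : Fin (v2 + 2) → K) (pb v3 v4 R w K))} ⊔
      span K {E _ (cons (Pi.single 0 1 : Fin (v2 + 2) → K) (pc v3 v4 R w K))}) := by
  have h := three_slices (v := v2)
    (T ((v2 + 2) :: (v3 + 2) :: (v4 + 2) :: R) (cons (Pi.single 0 1) (pa v3 v4 R w K)) ⊔
      span K {E _ (cons (Pi.single 1 1 : Fin (v2 + 2) → K) (pb v3 v4 R w K))} ⊔
      span K {E _ (cons (Pi.single 0 1 : Fin (v2 + 2) → K) (pc v3 v4 R w K))})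
    (T _ (pa v3 v4 R w K) ⊔ span K {E _ (pc v3 v4 R w K)})
    (span K {E _ (pa v3 v4 R w K)} ⊔ span K {E _ (pb v3 v4 R w K)})
    (span K {E _ (pa v3 v4 R w K)})
    (Pi.single 0 1) (by simp) (by
      rw [Submodule.map_sup]
      exact sup_le (le_sup_of_le_left (le_sup_of_le_left (map_T_le _ _)))
        (le_sup_of_le_right (map_EE_le _ _))) (by
      rw [Submodule.map_sup]
      exact sup_le (le_sup_of_le_left (le_sup_of_le_left (map_E_le _ _ _)))
        (le_sup_of_le_left (le_sup_of_le_right (map_EE_le _ _)))) (fun j =>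
      le_sup_of_le_left (le_sup_of_le_left (map_E_le _ _ _)))
  have h1 := dim_i (K := K) v3 v4 R w
  have h2 := dim_iv (K := K) v3 v4 R w
  have h3 := Nat.mul_le_mul_left v2 (one_le_span _ (ne_a (K := K) v3 v4 R w))
  omega

theorem dim_W1 : 2 * D ((v3 + 2) :: (v4 + 2) :: R) + 2 + 2 * v2 ≤ finrank K
    ↥(span K {E ((v2 + 2) :: (v3 + 2) :: (v4 + 2) :: R) (cons (Pi.single 0 1) (pa v3 v4 R w K))} ⊔
      T _ (cons (Pi.single 1 1 : Fin (v2 + 2) → K) (pb v3 v4 R w K)) ⊔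
      T _ (cons (Pi.single 0 1 : Fin (v2 + 2) → K) (pc v3 v4 R w K))) := by
  have h := three_slices (v := v2)
    (span K {E ((v2 + 2) :: (v3 + 2) :: (v4 + 2) :: R) (cons (Pi.single 0 1) (pa v3 v4 R w K))} ⊔
      T _ (cons (Pi.single 1 1 : Fin (v2 + 2) → K) (pb v3 v4 R w K)) ⊔
      T _ (cons (Pi.single 0 1 : Fin (v2 + 2) → K) (pc v3 v4 R w K)))
    (T _ (pc v3 v4 R w K) ⊔ span K {E _ (pa v3 v4 R w K)})
    (T _ (pb v3 v4 R w K) ⊔ span K {E _ (pc v3 v4 R w K)})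
    (span K {E _ (pb v3 v4 R w K)} ⊔ span K {E _ (pc v3 v4 R w K)})
    (Pi.single 0 1) (by simp) (by
      rw [Submodule.map_sup]
      exact sup_le (le_sup_of_le_right (map_T_le _ _))
        (le_sup_of_le_left (le_sup_of_le_left (map_EE_le _ _)))) (by
      rw [Submodule.map_sup]
      exact sup_le (le_sup_of_le_left (le_sup_of_le_right (map_T_le _ _)))
        (le_sup_of_le_right (map_E_le _ _ _))) (fun j => by
      rw [Submodule.map_sup]
      exact sup_le (le_sup_of_le_left (le_sup_of_le_right (map_E_le _ _ _)))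
        (le_sup_of_le_right (map_E_le _ _ _)))
  have h1 := dim_ii (K := K) v3 v4 R w
  have h2 := dim_iii (K := K) v3 v4 R w
  have h3 := Nat.mul_le_mul_left v2 (dim_vi (K := K) v3 v4 R w)
  omega

theorem dim_W2 : 3 ≤ finrank K
    ↥(span K {E ((v2 + 2) :: (v3 + 2) :: (v4 + 2) :: R) (cons (Pi.single 0 1) (pa v3 v4 R w K))} ⊔
      span K {E _ (cons (Pi.single 1 1 : Fin (v2 + 2) → K) (pb v3 v4 R w K))} ⊔
      span K {E _ (cons (Pi.single 0 1 : Fin (v2 + 2) → K) (pc v3 v4 R w K))}) := by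
  have h := three_slices (v := v2)
    (span K {E ((v2 + 2) :: (v3 + 2) :: (v4 + 2) :: R) (cons (Pi.single 0 1) (pa v3 v4 R w K))} ⊔
      span K {E _ (cons (Pi.single 1 1 : Fin (v2 + 2) → K) (pb v3 v4 R w K))} ⊔
      span K {E _ (cons (Pi.single 0 1 : Fin (v2 + 2) → K) (pc v3 v4 R w K))})
    (span K {E _ (pa v3 v4 R w K)} ⊔ span K {E _ (pc v3 v4 R w K)})
    (span K {E _ (pb v3 v4 R w K)})
    ⊥
    (Pi.single 0 1) (by simp) (by
      rw [Submodule.map_sup]
      exact sup_le (le_sup_of_le_left (le_sup_of_le_left (map_EE_le _ _)))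
        (le_sup_of_le_right (map_EE_le _ _)))
      (le_sup_of_le_left (le_sup_of_le_right (map_EE_le _ _))) (fun j => by
      rw [Submodule.map_bot]; exact bot_le)
  have h1 := dim_v (K := K) v3 v4 R w
  have h2 := one_le_span _ (ne_b (K := K) v3 v4 R w)
  omega

theorem dim_gadget : 3 * D ((v1 + 2) :: (v2 + 2) :: (v3 + 2) :: (v4 + 2) :: R) ≤ finrank K
    ↥(T _ (gy v1 v2 v3 v4 R w K) ⊔ T _ (gs v1 v2 v3 v4 R w K) ⊔ T _ (gt v1 v2 v3 v4 R w K)) + 1 := by
  have h := three_slices (v := v1)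
    (T _ (gy v1 v2 v3 v4 R w K) ⊔ T _ (gs v1 v2 v3 v4 R w K) ⊔ T _ (gt v1 v2 v3 v4 R w K))
    (T ((v2 + 2) :: (v3 + 2) :: (v4 + 2) :: R) (cons (Pi.single 0 1) (pa v3 v4 R w K)) ⊔
      span K {E _ (cons (Pi.single 1 1 : Fin (v2 + 2) → K) (pb v3 v4 R w K))} ⊔
      span K {E _ (cons (Pi.single 0 1 : Fin (v2 + 2) → K) (pc v3 v4 R w K))})
    (span K {E ((v2 + 2) :: (v3 + 2) :: (v4 + 2) :: R) (cons (Pi.single 0 1) (pa v3 v4 R w K))} ⊔
      T _ (cons (Pi.single 1 1 : Fin (v2 + 2) → K) (pb v3 v4 R w K)) ⊔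
      T _ (cons (Pi.single 0 1 : Fin (v2 + 2) → K) (pc v3 v4 R w K)))
    (span K {E ((v2 + 2) :: (v3 + 2) :: (v4 + 2) :: R) (cons (Pi.single 0 1) (pa v3 v4 R w K))} ⊔
      span K {E _ (cons (Pi.single 1 1 : Fin (v2 + 2) → K) (pb v3 v4 R w K))} ⊔
      span K {E _ (cons (Pi.single 0 1 : Fin (v2 + 2) → K) (pc v3 v4 R w K))})
    (Pi.single 0 1) (by simp) (by
      rw [Submodule.map_sup, Submodule.map_sup]
      exact sup_le (sup_le (le_sup_of_le_left (le_sup_of_le_left (map_T_le _ _)))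
        (le_sup_of_le_left (le_sup_of_le_right (map_E_le _ _ _))))
        (le_sup_of_le_right (map_E_le _ _ _))) (by
      rw [Submodule.map_sup, Submodule.map_sup]
      exact sup_le (sup_le (le_sup_of_le_left (le_sup_of_le_left (map_E_le _ _ _)))
        (le_sup_of_le_left (le_sup_of_le_right (map_T_le _ _))))
        (le_sup_of_le_right (map_T_le _ _))) (fun j => by
      rw [Submodule.map_sup, Submodule.map_sup]
      exact sup_le (sup_le (le_sup_of_le_left (le_sup_of_le_left (map_E_le _ _ _)))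
        (le_sup_of_le_left (le_sup_of_le_right (map_E_le _ _ _))))
        (le_sup_of_le_right (map_E_le _ _ _)))
  have h0 := dim_W0 (K := K) v2 v3 v4 R w
  have h1 := dim_W1 (K := K) v2 v3 v4 R w
  have h2 := Nat.mul_le_mul_left v1 (dim_W2 (K := K) v2 v3 v4 R w)
  have hD : D ((v1 + 2) :: (v2 + 2) :: (v3 + 2) :: (v4 + 2) :: R) =
    (v1 + 1) + ((v2 + 1) + D ((v3 + 2) :: (v4 + 2) :: R)) := rfl
  omega

theorem E_pa_mem : E _ (pa v3 v4 R w K) ∈ span K {E _ (pb v3 v4 R w K)} ⊔ T _ (pc v3 v4 R w K) := by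
  have h : E _ (pb v3 v4 R w K) - E _ (pa v3 v4 R w K) ∈ T _ (pc v3 v4 R w K) := by
    rw [pc_eq, T_cpt]
    rintro ⟨i, j, h⟩ hg
    rw [mem_Ball_cons, mem_Ball_cons] at hg
    rw [Pi.sub_apply, E_pb, E_pa]
    by_cases hh : h = w
    · subst hh
      have hi : i ≠ 1 := fun hi => hg (Or.inl ⟨hi, Or.inr rfl⟩)
      have hj : j ≠ 1 := fun hj => hg (Or.inr (by rw [hj]))
      simp only [xv, Pi.add_apply, Pi.single_eq_of_ne hi, Pi.single_eq_of_ne hj, add_zero, sub_self]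
    · rw [Pi.single_eq_of_ne hh]; ring
  have h2 : E _ (pa v3 v4 R w K) = E _ (pb v3 v4 R w K) -
    (E _ (pb v3 v4 R w K) - E _ (pa v3 v4 R w K)) := by abel
  rw [h2]
  exact Submodule.sub_mem _ (mem_sup_left (mem_span_singleton_self _)) (mem_sup_right h)

/-- The gadget at the word `w`. -/
theorem exists_gadget_pts : ∃ G : Gadget K ((v1 + 2) :: (v2 + 2) :: (v3 + 2) :: (v4 + 2) :: R)
    (lift (v1 + 2) (lift (v2 + 2) (lift (v3 + 2) (lift (v4 + 2) (Ball R w))))),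
    G.y = gy v1 v2 v3 v4 R w K ∧ G.s = gs v1 v2 v3 v4 R w K ∧ G.t = gt v1 v2 v3 v4 R w K := by
  have hT : T R (cpt R w : Coord R → K) ≤ coordSub K (Ball R w) := (T_cpt R w).le
  refine ⟨{ y := gy v1 v2 v3 v4 R w K
            s := gs v1 v2 v3 v4 R w K
            t := gt v1 v2 v3 v4 R w K
            ν := ten (Pi.single 1 1) (ten (Pi.single 0 1) (E _ (pa v3 v4 R w K)))
            hy := T_le_lift _ _ (T_le_lift _ _ (T_le_lift _ _ (T_le_lift _ _ hT)))
            hs := T_le_lift _ _ (T_le_lift _ _ (T_le_lift _ _ (T_le_lift _ _ hT)))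
            ht := T_le_lift _ _ (T_le_lift _ _ (T_le_lift _ _ (T_le_lift _ _ hT)))
            hνy := ten_E_mem_T (gy v1 v2 v3 v4 R w K) (Pi.single 1 1)
            hνst := ?_
            h4 := ?_
            hT := dim_gadget v1 v2 v3 v4 R w }, rfl, rfl, rfl⟩
  · have h := E_pa_mem (K := K) v3 v4 R w
    have h1 : ((span K {E _ (pb v3 v4 R w K)} ⊔ T _ (pc v3 v4 R w K)).map
        (tenL (Pi.single 0 1 : Fin (v2 + 2) → K) _)).map (tenL (Pi.single 1 1 : Fin (v1 + 2) → K) _) ≤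
        T _ (gs v1 v2 v3 v4 R w K) ⊔ T _ (gt v1 v2 v3 v4 R w K) := by
      rw [Submodule.map_sup, Submodule.map_sup]
      refine sup_le (le_sup_of_le_left ?_) (le_sup_of_le_right ?_)
      · exact (Submodule.map_mono (map_E_le (Pi.single 1 1) _ _)).trans (map_T_le _ _)
      · exact (Submodule.map_mono (map_T_le _ _)).trans (map_T_le _ _)
    exact h1 ⟨_, ⟨_, h, rfl⟩, rfl⟩
  · obtain ⟨ga, hga⟩ : ∃ g : Grid ((v3 + 2) :: (v4 + 2) :: R), g = (0, 0, w) := ⟨_, rfl⟩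
    obtain ⟨gc, hgc⟩ : ∃ g : Grid ((v3 + 2) :: (v4 + 2) :: R), g = (1, 1, w) := ⟨_, rfl⟩
    have vaa : E _ (pa v3 v4 R w K) ga = 1 := by rw [hga]; exact val_aa v3 v4 R w
    have vac : E _ (pa v3 v4 R w K) gc = 0 := by rw [hgc]; exact val_ac v3 v4 R w
    have vba : E _ (pb v3 v4 R w K) ga = 1 := by rw [hga]; exact val_ba v3 v4 R w
    have vbc : E _ (pb v3 v4 R w K) gc = 1 := by rw [hgc]; exact val_bc v3 v4 R w
    have vca : E _ (pc v3 v4 R w K) ga = 0 := by rw [hga]; exact val_ca v3 v4 R w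
    have vcc : E _ (pc v3 v4 R w K) gc = 1 := by rw [hgc]; exact val_cc v3 v4 R w
    obtain ⟨fy, hfy⟩ : ∃ f, f = E _ (gy v1 v2 v3 v4 R w K) := ⟨_, rfl⟩
    obtain ⟨fs, hfs⟩ : ∃ f, f = E _ (gs v1 v2 v3 v4 R w K) := ⟨_, rfl⟩
    obtain ⟨ft, hft⟩ : ∃ f, f = E _ (gt v1 v2 v3 v4 R w K) := ⟨_, rfl⟩
    obtain ⟨fn, hfn⟩ : ∃ f, f = (ten (Pi.single 1 1) (ten (Pi.single 0 1) (E _ (pa v3 v4 R w K))) :
      Grid ((v1 + 2) :: (v2 + 2) :: (v3 + 2) :: (v4 + 2) :: R) → K) := ⟨_, rfl⟩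
    have hy : ∀ i j g, fy (i, j, g) =
      (Pi.single 0 (1 : K) : Fin (v1 + 2) → K) i * ((Pi.single 0 (1 : K) : Fin (v2 + 2) → K) j *
        E _ (pa v3 v4 R w K) g) := fun i j g => by rw [hfy]; rfl
    have hs : ∀ i j g, fs (i, j, g) =
      (Pi.single 1 (1 : K) : Fin (v1 + 2) → K) i * ((Pi.single 1 (1 : K) : Fin (v2 + 2) → K) j *
        E _ (pb v3 v4 R w K) g) := fun i j g => by rw [hfs]; rfl
    have ht : ∀ i j g, ft (i, j, g) =
      (Pi.single 1 (1 : K) : Fin (v1 + 2) → K) i * ((Pi.single 0 (1 : K) : Fin (v2 + 2) → K) j *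
        E _ (pc v3 v4 R w K) g) := fun i j g => by rw [hft]; rfl
    have hn : ∀ i j g, fn (i, j, g) =
      (Pi.single 1 (1 : K) : Fin (v1 + 2) → K) i * ((Pi.single 0 (1 : K) : Fin (v2 + 2) → K) j *
        E _ (pa v3 v4 R w K) g) := fun i j g => by rw [hfn]; rfl
    rw [← hfy, ← hfs, ← hft, ← hfn]
    refine le_finrank_of_dual (m := 4) ![fy, fs, ft, fn]
      ![(0, 0, ga), (1, 1, ga), (1, 0, gc), (1, 0, ga)] ?_ _ ?_
    · intro i j
      fin_cases i <;> fin_cases j <;>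
      simp [hy, hs, ht, hn, vaa, vac, vba, vbc, vca, vcc]
    · intro i
      apply subset_span
      fin_cases i <;> simp

theorem exists_gadget : Nonempty (Gadget K ((v1 + 2) :: (v2 + 2) :: (v3 + 2) :: (v4 + 2) :: R)
    (lift (v1 + 2) (lift (v2 + 2) (lift (v3 + 2) (lift (v4 + 2) (Ball R w)))))) := by
  obtain ⟨G, _⟩ := exists_gadget_pts (K := K) v1 v2 v3 v4 R w
  exact ⟨G⟩

end main

end Pool.Agent.Lib.MP_635d71_ag
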