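import Mathlib
import Pool.Agent.Lib.MP_635d71_ag.Point

/-!
# The specialization step
-/

open Module Submodule Polynomial

namespace Pool.Agent.Lib.MP_635d71_ag

variable {K : Type} [Field K]

theorem point_lemma' (l : List ℕ) (M : Submodule K (Grid l → K)) (ι : Type) [Fintype ι] :
    ∃ z : ι → Coord l → K, min l.prod (finrank K M + Fintype.card ι) ≤
      finrank K ↥(M ⊔ span K (Set.range fun i => E l (z i))) := by
  obtain ⟨z, hz⟩ := point_lemma l M (Fintype.card ι)
  let e := Fintype.equivFin ι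
  refine ⟨fun i => z (e i), ?_⟩
  have h : (Set.range fun i => E l (z (e i))) = Set.range fun i => E l (z i) :=
    e.surjective.range_comp (fun i => E l (z i))
  rw [h]
  exact hz

theorem Good.finrank_sup {l : List ℕ} {b : ℕ} {C : Finset (Grid l)} (h : Good K l b C)
    (M : Submodule K (Grid l → K)) (hM : M ≤ coordSub K C) :
    ∃ x : Fin b → Coord l → K, finrank K M + b * D l ≤ finrank K ↥(M ⊔ ⨆ a, T l (x a)) := by
  obtain ⟨x, hx⟩ := h
  refine ⟨x, ?_⟩
  have := finrank_sup_ge C M (⨆ a, T l (x a)) hM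
  omega

theorem card_sigma_ne {q : ℕ} (b : Fin q → ℕ) (j : Fin q) :
    Fintype.card {i : Σ j, Fin (b j) // i.1 ≠ j} = ∑ j' ∈ Finset.univ.erase j, b j' := by
  classical
  rw [Fintype.card_subtype]
  have : (Finset.univ.filter fun i : Σ j, Fin (b j) => i.1 ≠ j) =
      (Finset.univ.erase j).sigma (fun j' => (Finset.univ : Finset (Fin (b j')))) := by
    ext ⟨a, b⟩; simp
  rw [this, Finset.card_sigma]
  simp

/-- Simultaneous choice of points for all the slices. -/
theorem slices [Infinite K] {q : ℕ} (l : List ℕ) (b : Fin q → ℕ) (C : Fin q → Finset (Grid l))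
    (M : Fin q → Submodule K (Grid l → K))
    (hM : ∀ j, M j ≤ coordSub K (C j)) (hG : ∀ j, Good K l (b j) (C j)) :
    ∃ z : (Σ j, Fin (b j)) → Coord l → K, ∀ j,
      min l.prod (finrank K (M j) + b j * D l + ∑ j' ∈ Finset.univ.erase j, b j') ≤
        finrank K ↥(M j ⊔ (⨆ a, T l (z ⟨j, a⟩)) ⊔
          span K {f | ∃ i : Σ j, Fin (b j), i.1 ≠ j ∧ f = E l (z i)}) := by
  classical
  let f : ∀ j, (Fin (b j) × TI l) ⊕ {i : Σ j, Fin (b j) // i.1 ≠ j} →
      ((Σ j, Fin (b j)) → Coord l → K) → Grid l → K := fun j k z =>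
    Sum.elim (fun p => TVec l (z ⟨j, p.1⟩) p.2) (fun i => E l (z i.1)) k
  have hf : ∀ j z, M j ⊔ (⨆ a, T l (z ⟨j, a⟩)) ⊔
      span K {f | ∃ i : Σ j, Fin (b j), i.1 ≠ j ∧ f = E l (z i)} =
      M j ⊔ span K (Set.range fun k => f j k z) := by
    intro j z
    rw [sup_assoc]
    congr 1
    have h1 : (Set.range fun k => f j k z) =
        (⋃ a, Set.range (TVec l (z ⟨j, a⟩))) ∪
          {f | ∃ i : Σ j, Fin (b j), i.1 ≠ j ∧ f = E l (z i)} := by
      ext g
      simp only [Set.mem_range, Set.mem_union, Set.mem_iUnion]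
      constructor
      · rintro ⟨p | i, rfl⟩
        · exact Or.inl ⟨p.1, p.2, rfl⟩
        · exact Or.inr ⟨i.1, i.2, rfl⟩
      · rintro (⟨a, t, rfl⟩ | ⟨i, hi, rfl⟩)
        · exact ⟨Sum.inl (a, t), rfl⟩
        · exact ⟨Sum.inr ⟨i, hi⟩, rfl⟩
    rw [h1, span_union, span_iUnion]
    rfl
  have hpoly : ∀ j k, LinePoly K (f j k) := by
    intro j k
    rcases k with p | i
    · exact linePoly_TVec l (LinearMap.proj (R := K) (φ := fun _ => Coord l → K)
        (⟨j, p.1⟩ : Σ j, Fin (b j))) p.2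
    · exact linePoly_E l (LinearMap.proj (R := K) (φ := fun _ => Coord l → K) i.1)
  obtain ⟨z, hz⟩ := Big.exists_forall (K := K)
    (fun j => {z | min l.prod (finrank K (M j) + b j * D l + ∑ j' ∈ Finset.univ.erase j, b j') ≤
      finrank K ↥(M j ⊔ span K (Set.range fun k => f j k z))})
    (fun j => big_rank (M j) (f j) (hpoly j) _) (by
      intro j
      obtain ⟨x, hx⟩ := (hG j).finrank_sup (M j) (hM j)
      obtain ⟨w, hw⟩ := point_lemma' l (M j ⊔ ⨆ a, T l (x a)) {i : Σ j, Fin (b j) // i.1 ≠ j}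
      let z : (Σ j, Fin (b j)) → Coord l → K := fun i =>
        if h : i.1 = j then x (Fin.cast (by rw [h]) i.2) else w ⟨i, h⟩
      refine ⟨z, ?_⟩
      change _ ≤ finrank K _
      rw [← hf]
      have hz1 : ∀ a, z ⟨j, a⟩ = x a := by
        intro a
        simp only [z, dif_pos]
        rfl
      have hz2 : {f | ∃ i : Σ j, Fin (b j), i.1 ≠ j ∧ f = E l (z i)} =
          Set.range fun i => E l (w i) := by
        ext g
        constructor
        · rintro ⟨i, hi, rfl⟩
          exact ⟨⟨i, hi⟩, by simp only [z, dif_neg hi]⟩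
        · rintro ⟨⟨i, hi⟩, rfl⟩
          exact ⟨i, hi, by simp only [z, dif_neg hi]⟩
      have hz3 : (⨆ a, T l (z ⟨j, a⟩)) = ⨆ a, T l (x a) := by simp only [hz1]
      rw [hz2, hz3]
      refine le_trans ?_ hw
      rw [card_sigma_ne]
      omega)
  refine ⟨z, fun j => ?_⟩
  rw [hf]
  exact hz j

/-- The slices of a set of multi-indices. -/
def slice {q : ℕ} {l : List ℕ} (C : Finset (Grid (q :: l))) (j : Fin q) : Finset (Grid l) :=
  Finset.univ.filter fun g => ((j, g) : Grid (q :: l)) ∈ C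

theorem sum_card_slice {q : ℕ} {l : List ℕ} (C : Finset (Grid (q :: l))) :
    ∑ j, (slice C j).card = C.card := by
  classical
  have h := Finset.card_eq_sum_card_fiberwise (s := C) (t := Finset.univ)
    (f := fun g : Grid (q :: l) => g.1) (fun _ _ => Finset.mem_univ _)
  rw [h]
  refine Finset.sum_congr rfl fun j _ => ?_
  refine Finset.card_bij (fun g _ => ((j, g) : Grid (q :: l))) ?_ ?_ ?_
  · intro g hg
    simp only [slice, Finset.mem_filter, Finset.mem_univ, true_and] at hg
    exact Finset.mem_filter.2 ⟨hg, rfl⟩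
  · intro g _ g' _ h
    exact (Prod.ext_iff.1 h).2
  · rintro ⟨j', g⟩ hg
    obtain ⟨h1, h2⟩ := Finset.mem_filter.1 hg
    have h3 : j' = j := h2
    subst h3
    exact ⟨g, by simpa [slice] using h1, rfl⟩

/-- The specialization step: distribute the points among the slices. -/
theorem good_step [Infinite K] {q : ℕ} (l : List ℕ) (b : Fin q → ℕ) (C : Finset (Grid (q :: l)))
    (hG : ∀ j, Good K l (b j) (slice C j))
    (hP : ∀ j, (slice C j).card + b j * D l + ∑ j' ∈ Finset.univ.erase j, b j' ≤ l.prod) :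
    Good K (q :: l) (∑ j, b j) C := by
  classical
  obtain ⟨z, hz⟩ := slices l b (slice C) (fun j => coordSub K (slice C j)) (fun j => le_rfl) hG
  let x : (Σ j, Fin (b j)) → Coord (q :: l) → K := fun i => cons (Pi.single i.1 1) (z i)
  refine ⟨fun a => x (finSigmaFinEquiv.symm a), ?_⟩
  have hS : (⨆ a, T (q :: l) (x (finSigmaFinEquiv.symm a))) = ⨆ i, T (q :: l) (x i) :=
    (finSigmaFinEquiv (n := b)).symm.iSup_comp (g := fun i => T (q :: l) (x i))
  rw [hS]
  have h1 := sum_finrank_le (K := K) (G := Grid l) (coordSub K C ⊔ ⨆ i, T (q :: l) (x i))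
    (fun j => coordSub K (slice C j) ⊔ (⨆ a, T l (z ⟨j, a⟩)) ⊔
          span K {f | ∃ i : Σ j, Fin (b j), i.1 ≠ j ∧ f = E l (z i)}) (by
      intro j g hg
      refine ⟨ten (Pi.single j 1) g, ?_, ?_, ?_⟩
      · have h2 : (coordSub K (slice C j) ⊔ (⨆ a, T l (z ⟨j, a⟩)) ⊔
          span K {f | ∃ i : Σ j, Fin (b j), i.1 ≠ j ∧ f = E l (z i)}).map
            (tenL (Pi.single j 1) l) ≤ coordSub K C ⊔ ⨆ i, T (q :: l) (x i) := by
          rw [Submodule.map_sup, Submodule.map_sup, Submodule.map_iSup]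
          refine sup_le (sup_le (le_sup_of_le_left ?_) (le_sup_of_le_right (iSup_le fun a => ?_)))
            (le_sup_of_le_right ?_)
          · rintro _ ⟨f, hf, rfl⟩ ⟨j', g'⟩ hg'
            change (Pi.single j (1 : K) : Fin q → K) j' * f g' = 0
            by_cases h : j' = j
            · subst h
              rw [hf g' (by simpa [slice] using hg'), mul_zero]
            · rw [Pi.single_eq_of_ne h, zero_mul]
          · refine le_trans ?_ (le_iSup (fun i => T (q :: l) (x i)) ⟨j, a⟩)
            rintro _ ⟨f, hf, rfl⟩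
            exact ten_mem_T (x ⟨j, a⟩) hf
          · rw [Submodule.map_span_le]
            rintro _ ⟨i, hi, rfl⟩
            refine (le_iSup (fun i => T (q :: l) (x i)) i) ?_
            exact ten_E_mem_T (x i) (Pi.single j 1)
        exact h2 ⟨g, hg, rfl⟩
      · intro j' hj' c
        change (Pi.single j (1 : K) : Fin q → K) j' * g c = 0
        rw [Pi.single_eq_of_ne hj'.ne, zero_mul]
      · intro c
        change (Pi.single j (1 : K) : Fin q → K) j * g c = g c
        rw [Pi.single_eq_same, one_mul])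
  refine le_trans ?_ h1
  have h3 : ∀ j, (slice C j).card + b j * D l + ∑ j' ∈ Finset.univ.erase j, b j' ≤
      finrank K ↥(coordSub K (slice C j) ⊔ (⨆ a, T l (z ⟨j, a⟩)) ⊔
          span K {f | ∃ i : Σ j, Fin (b j), i.1 ≠ j ∧ f = E l (z i)}) := by
    intro j
    have := hz j
    rw [finrank_coordSub] at this
    have := hP j
    omega
  refine le_trans ?_ (Finset.sum_le_sum fun j _ => h3 j)
  rw [Finset.sum_add_distrib, Finset.sum_add_distrib, sum_card_slice, ← Finset.sum_mul]
  have h4 : ∑ j, ∑ j' ∈ Finset.univ.erase j, b j' = (q - 1) * ∑ j, b j := by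
    have : ∀ j : Fin q, ∑ j' ∈ Finset.univ.erase j, b j' = (∑ j', b j') - b j := by
      intro j
      rw [← Finset.add_sum_erase Finset.univ b (Finset.mem_univ j)]
      omega
    have h5 : ∑ j, ∑ j' ∈ Finset.univ.erase j, b j' + ∑ j, b j = q * ∑ j, b j := by
      rw [← Finset.sum_add_distrib]
      have : ∀ j ∈ (Finset.univ : Finset (Fin q)),
          (∑ j' ∈ Finset.univ.erase j, b j') + b j = ∑ j', b j' := fun j _ =>
        Finset.sum_erase_add _ _ (Finset.mem_univ j)
      rw [Finset.sum_congr rfl this]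
      simp
    rcases q with _ | q
    · simp
    · rw [Nat.add_sub_cancel]
      have : (q + 1) * ∑ j, b j = q * ∑ j, b j + ∑ j, b j := by ring
      omega
  rw [h4, D]
  have : (∑ j, b j) * (q - 1 + D l) = (∑ j, b j) * D l + (q - 1) * ∑ j, b j := by ring
  omega

end Pool.Agent.Lib.MP_635d71_ag
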