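import Mathlib
import Pool.Agent.Lib.MP_635d71_ag.Step
import Pool.Agent.Lib.MP_635d71_ag.Gadget

/-!
# The main specialization
-/

open Module Submodule

namespace Pool.Agent.Lib.MP_635d71_ag

variable {K : Type} [Field K]

/-- The space of leading slices. -/
def lead {q : ℕ} {l : List ℕ} (S : Submodule K (Grid (q :: l) → K)) (j : Fin q) :
    Submodule K (Grid l → K) where
  carrier := {g | ∃ f ∈ S, (∀ j' < j, ∀ c, f ((j', c) : Grid (q :: l)) = 0) ∧
    ∀ c, f ((j, c) : Grid (q :: l)) = g c}
  add_mem' := by
    rintro g g' ⟨f, hf, h1, h2⟩ ⟨f', hf', h1', h2'⟩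
    refine ⟨f + f', S.add_mem hf hf', fun j' hj' c => ?_, fun c => ?_⟩
    · rw [Pi.add_apply, h1 j' hj', h1' j' hj', add_zero]
    · rw [Pi.add_apply, h2, h2', Pi.add_apply]
  zero_mem' := ⟨0, S.zero_mem, fun _ _ _ => rfl, fun _ => rfl⟩
  smul_mem' := by
    rintro a g ⟨f, hf, h1, h2⟩
    refine ⟨a • f, S.smul_mem a hf, fun j' hj' c => ?_, fun c => ?_⟩
    · rw [Pi.smul_apply, h1 j' hj', smul_zero]
    · rw [Pi.smul_apply, h2, Pi.smul_apply]

theorem sum_finrank_lead_le {q : ℕ} {l : List ℕ} (S : Submodule K (Grid (q :: l) → K))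
    (W : Fin q → Submodule K (Grid l → K)) (h : ∀ j, W j ≤ lead S j) :
    ∑ j, finrank K (W j) ≤ finrank K S :=
  sum_finrank_le (K := K) (G := Grid l) S W fun j g hg => h j hg

/-- First vector of the first point of a gadget between the slices `j` and `j + 1`. -/
def uy (K : Type) [Field K] {q : ℕ} (j : Fin q) : Fin q → K :=
  fun j' => if j'.val = j.val ∨ j'.val = j.val + 1 then 1 else 0

/-- The dimension contributed by the slice `j`. -/
def load {q : ℕ} (d : ℕ) (b m : Fin q → ℕ) (j : Fin q) : ℕ :=
  (∑ j', m j' * (if j' = j then 3 * d - 1 else if j'.val + 1 = j.val then 4 else 3)) +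
    b j * d + ∑ j' ∈ Finset.univ.erase j, b j'

/-- Contribution of a gadget to a slice. -/
def contr {q : ℕ} {l : List ℕ} {A : Finset (Grid l)} (g : Gadget K l A) (i j : Fin q) :
    Submodule K (Grid l → K) :=
  if i = j then T l g.y ⊔ T l g.s ⊔ T l g.t
  else if i.val + 1 = j.val then span K {E l g.y, E l g.s, E l g.t, g.ν}
  else span K {E l g.y, E l g.s, E l g.t}

theorem contr_le {q : ℕ} {l : List ℕ} {A : Finset (Grid l)} (g : Gadget K l A) (i j : Fin q) :
    contr g i j ≤ coordSub K A := by
  unfold contr
  split_ifs
  · exact sup_le (sup_le g.hy g.hs) g.ht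
  · rw [span_le]
    rintro _ (rfl | rfl | rfl | rfl)
    · exact g.hy (E_mem_T _ _)
    · exact g.hs (E_mem_T _ _)
    · exact g.ht (E_mem_T _ _)
    · exact g.hy g.hνy
  · rw [span_le]
    rintro _ (rfl | rfl | rfl)
    · exact g.hy (E_mem_T _ _)
    · exact g.hs (E_mem_T _ _)
    · exact g.ht (E_mem_T _ _)

theorem le_finrank_contr {q : ℕ} {l : List ℕ} {A : Finset (Grid l)} (g : Gadget K l A)
    (i j : Fin q) : (if i = j then 3 * D l - 1 else if i.val + 1 = j.val then 4 else 3) ≤
      finrank K (contr g i j) := by
  by_cases h1 : i = j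
  · have e : contr g i j = T l g.y ⊔ T l g.s ⊔ T l g.t := if_pos h1
    rw [if_pos h1, e]
    have := g.hT
    omega
  · by_cases h2 : i.val + 1 = j.val
    · have e : contr g i j = span K {E l g.y, E l g.s, E l g.t, g.ν} := by
        unfold contr
        rw [if_neg h1, if_pos h2]
      rw [if_neg h1, if_pos h2, e]
      exact g.h4
    · have e : contr g i j = span K {E l g.y, E l g.s, E l g.t} := by
        unfold contr
        rw [if_neg h1, if_neg h2]
      rw [if_neg h1, if_neg h2, e]
      have h4 := g.h4
      have h : span K {E l g.y, E l g.s, E l g.t, g.ν} ≤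
          span K {E l g.y, E l g.s, E l g.t} ⊔ span K {g.ν} := by
        rw [span_le]
        rintro _ (rfl | rfl | rfl | rfl)
        · exact mem_sup_left (subset_span (by simp))
        · exact mem_sup_left (subset_span (by simp))
        · exact mem_sup_left (subset_span (by simp))
        · exact mem_sup_right (subset_span (by simp))
      have h5 := (Submodule.finrank_mono h).trans
        (Submodule.finrank_add_le_finrank_add_finrank _ _)
      have h6 := finrank_span_le_card (R := K) ({g.ν} : Set (Grid l → K))
      rw [Set.toFinset_singleton, Finset.card_singleton] at h6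
      omega

/-- The main specialization. -/
theorem assembly [Infinite K] {q : ℕ} (l : List ℕ) (b m : Fin q → ℕ)
    (A : (Σ j, Fin (m j)) → Finset (Grid l)) (hA : ∀ i i', i ≠ i' → Disjoint (A i) (A i'))
    (gad : ∀ i, Gadget K l (A i)) (hG : ∀ j, Good K l (b j) (Finset.univ.biUnion A)) :
    Reach K (q :: l) (∑ j, (b j + 3 * m j)) (∑ j, min l.prod (load (D l) b m j)) := by
  classical
  obtain ⟨z, hz⟩ := slices l b (fun _ => Finset.univ.biUnion A)
    (fun j => ⨆ i, contr (gad i) i.1 j) (fun j => iSup_le fun i =>
      (contr_le (gad i) i.1 j).trans (coordSub_mono (Finset.subset_biUnion_of_mem A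
        (Finset.mem_univ i)))) hG
  let x : (Σ j, Fin (b j)) ⊕ (Fin 3 × (Σ j, Fin (m j))) → Coord (q :: l) → K := fun p =>
    match p with
    | Sum.inl i => cons (Pi.single i.1 1) (z i)
    | Sum.inr (0, i) => cons (uy K i.1) (gad i).y
    | Sum.inr (1, i) => cons (Pi.single i.1 1) (gad i).s
    | Sum.inr (2, i) => cons (Pi.single i.1 1) (gad i).t
  have hcard : Fintype.card ((Σ j, Fin (b j)) ⊕ (Fin 3 × (Σ j, Fin (m j)))) =
      ∑ j, (b j + 3 * m j) := by
    simp [Finset.sum_add_distrib, Finset.mul_sum]
  let e := Fintype.equivFinOfCardEq hcard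
  refine ⟨fun a => x (e.symm a), ?_⟩
  have hS : (⨆ a, T (q :: l) (x (e.symm a))) = ⨆ p, T (q :: l) (x p) :=
    e.symm.iSup_comp (g := fun p => T (q :: l) (x p))
  rw [hS]
  have key := sum_finrank_lead_le (⨆ p, T (q :: l) (x p))
    (fun j => (⨆ i, contr (gad i) i.1 j) ⊔ (⨆ a, T l (z ⟨j, a⟩)) ⊔
          span K {f | ∃ i : Σ j, Fin (b j), i.1 ≠ j ∧ f = E l (z i)}) (by
      intro j
      have hE : ∀ p, E l (tl (x p)) ∈ lead (⨆ p, T (q :: l) (x p)) j := by
        intro p
        refine ⟨ten (Pi.single j 1) (E l (tl (x p))), ?_, fun j' hj' c => ?_, fun c => ?_⟩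
        · exact (le_iSup (fun p => T (q :: l) (x p)) p) (ten_E_mem_T (x p) _)
        · rw [ten_apply, Pi.single_eq_of_ne hj'.ne, zero_mul]
        · rw [ten_apply, Pi.single_eq_same, one_mul]
      have hT : ∀ p, hd (x p) j = 1 → (∀ j' < j, hd (x p) j' = 0) →
          T l (tl (x p)) ≤ lead (⨆ p, T (q :: l) (x p)) j := by
        intro p h1 h2 f hf
        refine ⟨ten (hd (x p)) f, ?_, fun j' hj' c => ?_, fun c => ?_⟩
        · exact (le_iSup (fun p => T (q :: l) (x p)) p) (ten_mem_T (x p) hf)
        · rw [ten_apply, h2 j' hj', zero_mul]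
        · rw [ten_apply, h1, one_mul]
      have hss : ∀ j' < j, (Pi.single j (1 : K) : Fin q → K) j' = 0 := fun j' hj' =>
        Pi.single_eq_of_ne hj'.ne _
      refine sup_le (sup_le (iSup_le fun i => ?_) (iSup_le fun a => ?_)) ?_
      · unfold contr
        split_ifs with h1 h2
        · refine sup_le (sup_le ?_ ?_) ?_
          · refine hT (Sum.inr (0, i)) ?_ ?_
            · change uy K i.1 j = 1
              simp [uy, h1]
            · intro j' hj'
              change uy K i.1 j' = 0
              rw [h1, uy, if_neg]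
              have : j'.val < j.val := hj'
              omega
          · refine hT (Sum.inr (1, i)) ?_ ?_
            · change (Pi.single i.1 (1 : K) : Fin q → K) j = 1
              rw [h1, Pi.single_eq_same]
            · intro j' hj'
              change (Pi.single i.1 (1 : K) : Fin q → K) j' = 0
              rw [h1, hss j' hj']
          · refine hT (Sum.inr (2, i)) ?_ ?_
            · change (Pi.single i.1 (1 : K) : Fin q → K) j = 1
              rw [h1, Pi.single_eq_same]
            · intro j' hj'
              change (Pi.single i.1 (1 : K) : Fin q → K) j' = 0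
              rw [h1, hss j' hj']
        · rw [span_le]
          rintro _ (rfl | rfl | rfl | rfl)
          · exact hE (Sum.inr (0, i))
          · exact hE (Sum.inr (1, i))
          · exact hE (Sum.inr (2, i))
          · -- the extra vector
            have hu : ∀ c, (Pi.single j (1 : K) : Fin q → K) c =
                uy K i.1 c - (Pi.single i.1 (1 : K) : Fin q → K) c := by
              intro c
              by_cases hc1 : c = i.1
              · have hcj : c ≠ j := fun h => by
                  rw [← hc1, h] at h2; omega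
                rw [Pi.single_eq_of_ne hcj, hc1, Pi.single_eq_same, uy, if_pos (Or.inl rfl), sub_self]
              · have hc1' : c.val ≠ i.1.val := fun h => hc1 (Fin.ext h)
                rw [Pi.single_eq_of_ne hc1, sub_zero, uy]
                by_cases hcj : c = j
                · rw [hcj, Pi.single_eq_same, if_pos (Or.inr h2.symm)]
                · have hcj' : c.val ≠ j.val := fun h => hcj (Fin.ext h)
                  rw [Pi.single_eq_of_ne hcj, if_neg (by omega)]
            refine ⟨ten (Pi.single j 1) (gad i).ν, ?_, fun j' hj' c => ?_, fun c => ?_⟩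
            · have h3 : ten (l := l) (Pi.single j (1 : K)) (gad i).ν =
                  ten (uy K i.1) (gad i).ν - ten (Pi.single i.1 1) (gad i).ν := by
                ext ⟨c, g⟩
                rw [Pi.sub_apply, ten_apply, ten_apply, ten_apply, hu]; ring
              rw [h3]
              refine Submodule.sub_mem _ ?_ ?_
              · exact (le_iSup (fun p => T (q :: l) (x p)) (Sum.inr (0, i)))
                  (ten_mem_T (x (Sum.inr (0, i))) (gad i).hνy)
              · have h4 : (T l (gad i).s ⊔ T l (gad i).t).map (tenL (Pi.single i.1 1) l) ≤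
                    ⨆ p, T (q :: l) (x p) := by
                  rw [Submodule.map_sup]
                  refine sup_le ?_ ?_
                  · refine le_trans ?_ (le_iSup (fun p => T (q :: l) (x p)) (Sum.inr (1, i)))
                    rintro _ ⟨f, hf, rfl⟩
                    exact ten_mem_T (x (Sum.inr (1, i))) hf
                  · refine le_trans ?_ (le_iSup (fun p => T (q :: l) (x p)) (Sum.inr (2, i)))
                    rintro _ ⟨f, hf, rfl⟩
                    exact ten_mem_T (x (Sum.inr (2, i))) hf
                exact h4 ⟨_, (gad i).hνst, rfl⟩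
            · rw [ten_apply, hss j' hj', zero_mul]
            · rw [ten_apply, Pi.single_eq_same, one_mul]
        · rw [span_le]
          rintro _ (rfl | rfl | rfl)
          · exact hE (Sum.inr (0, i))
          · exact hE (Sum.inr (1, i))
          · exact hE (Sum.inr (2, i))
      · refine hT (Sum.inl ⟨j, a⟩) ?_ ?_
        · change (Pi.single j (1 : K) : Fin q → K) j = 1
          rw [Pi.single_eq_same]
        · exact hss
      · rw [span_le]
        rintro _ ⟨i, _, rfl⟩
        exact hE (Sum.inl i))
  refine le_trans (Finset.sum_le_sum fun j _ => ?_) key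
  refine le_trans ?_ (hz j)
  have h1 := sum_finrank_le_iSup (K := K) A (fun i => contr (gad i) i.1 j)
    (fun i => contr_le (gad i) i.1 j) hA
  have h2 : ∑ j', m j' * (if j' = j then 3 * D l - 1 else if j'.val + 1 = j.val then 4 else 3) ≤
      ∑ i, finrank K (contr (gad i) i.1 j) := by
    rw [Fintype.sum_sigma]
    refine Finset.sum_le_sum fun j' _ => ?_
    have h3 : ∀ a ∈ (Finset.univ : Finset (Fin (m j'))),
        (if j' = j then 3 * D l - 1 else if j'.val + 1 = j.val then 4 else 3) ≤
        finrank K (contr (gad ⟨j', a⟩) j' j) := fun a _ => le_finrank_contr (gad ⟨j', a⟩) j' j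
    have h4 := Finset.card_nsmul_le_sum _ _ _ h3
    rw [Finset.card_univ, Fintype.card_fin, smul_eq_mul] at h4
    exact h4
  rw [load]
  have h5 := h2.trans h1
  omega

end Pool.Agent.Lib.MP_635d71_ag
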