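import Mathlib
import Pool.Agent.Lib.MP_635d71_ag.Assembly

/-!
# Arithmetic: distribution of the points among the slices
-/

namespace Pool.Agent.Lib.MP_635d71_ag

theorem load_eq {q : ℕ} (Λ : ℕ) (hΛ : 1 ≤ Λ) (b m : Fin q → ℕ) (j : Fin q) :
    load (Λ + 1) b m j + m j = (∑ j', (b j' + 3 * m j')) + (b j + 3 * m j) * Λ +
      ∑ j', (if j'.val + 1 = j.val then m j' else 0) := by
  classical
  have h1 : ∀ j', m j' * (if j' = j then 3 * (Λ + 1) - 1 else if j'.val + 1 = j.val then 4 else 3) =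
      3 * m j' + (if j' = j then m j * (3 * Λ - 1) else 0) +
        (if j'.val + 1 = j.val then m j' else 0) := by
    intro j'
    obtain ⟨Λ', rfl⟩ : ∃ Λ', Λ = Λ' + 1 := ⟨Λ - 1, by omega⟩
    by_cases h : j' = j
    · subst h
      have h3 : 3 * (Λ' + 1 + 1) - 1 = 3 * Λ' + 5 := by omega
      have h4 : 3 * (Λ' + 1) - 1 = 3 * Λ' + 2 := by omega
      rw [if_pos rfl, if_pos rfl, if_neg (by omega), h3, h4]; ring
    · rw [if_neg h, if_neg h]
      split_ifs <;> ring
  rw [load]
  simp only [h1, Finset.sum_add_distrib]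
  rw [Finset.sum_ite_eq' Finset.univ j, if_pos (Finset.mem_univ j)]
  rw [← Finset.mul_sum]
  have h2 : ∑ j', b j' = b j + ∑ j' ∈ Finset.univ.erase j, b j' :=
    (Finset.add_sum_erase Finset.univ b (Finset.mem_univ j)).symm
  rw [h2]
  obtain ⟨Λ', rfl⟩ : ∃ Λ', Λ = Λ' + 1 := ⟨Λ - 1, by omega⟩
  have h4 : 3 * (Λ' + 1) - 1 = 3 * Λ' + 2 := by omega
  rw [h4]
  ring

theorem low_bound (Λ Dx H P N r a : ℤ) (hΛ : 1 ≤ Λ) (hDx : Λ + 2 ≤ Dx) (hH : P = r + H)
    (hr1 : r * Dx ≤ (Dx - Λ) * P + Dx) (hP : N * Dx + 5 * Dx * (Dx + 1) ≤ P)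
    (ha : H - Dx - Λ ≤ Λ * a) : N + 3 * Λ ≤ a := by
  by_contra hcon
  push Not at hcon
  have hcon' : a ≤ N + 3 * Λ - 1 := by linarith
  have h1 : Dx * (H - Dx - Λ) ≤ Dx * (Λ * a) := mul_le_mul_of_nonneg_left ha (by linarith)
  have h2 : Dx * (Λ * a) ≤ Dx * (Λ * (N + 3 * Λ - 1)) :=
    mul_le_mul_of_nonneg_left (mul_le_mul_of_nonneg_left hcon' (by linarith)) (by linarith)
  have h3 : Λ * (N * Dx + 5 * Dx * (Dx + 1)) ≤ Λ * P :=
    mul_le_mul_of_nonneg_left hP (by linarith)
  have h4 : Λ * P - Dx ≤ Dx * H := by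
    have : Dx * H = Dx * P - r * Dx := by rw [hH]; ring
    rw [this]; linarith
  have h5 : 0 ≤ Λ * Dx * (Dx - Λ) :=
    mul_nonneg (mul_nonneg (by linarith) (by linarith)) (by linarith)
  have h6 : 0 ≤ (Λ - 1) * Dx := mul_nonneg (by linarith) (by linarith)
  have h7 : 0 ≤ (Λ - 1) * (Dx * Dx) :=
    mul_nonneg (by linarith) (mul_nonneg (by linarith) (by linarith))
  have h8 : 0 < Λ * Dx := mul_pos (by linarith) (by linarith)
  have h9 : 0 < Λ * (Dx * Dx) := mul_pos (by linarith) (mul_pos (by linarith) (by linarith))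
  linarith

theorem up_bound (Λ Dx H P N r a : ℤ) (hΛ : 1 ≤ Λ) (hDx : Λ + 2 ≤ Dx) (hH : P = r + H)
    (hN : 0 ≤ N) (hr2 : (Dx - Λ) * P ≤ r * Dx + Dx) (hP : N * Dx + 5 * Dx * (Dx + 1) ≤ P)
    (ha : Λ * a ≤ H + Dx) : a * (2 * (Λ + 1) + 1) ≤ 2 * P := by
  have h1 : Dx * (Λ * a) ≤ Dx * (H + Dx) := mul_le_mul_of_nonneg_left ha (by linarith)
  have h4 : Dx * H ≤ Λ * P + Dx := by
    have : Dx * H = Dx * P - r * Dx := by rw [hH]; ring
    rw [this]; linarith
  have h2 : (Dx * (Λ * a)) * (2 * (Λ + 1) + 1) ≤ (Λ * P + Dx + Dx * Dx) * (2 * (Λ + 1) + 1) := by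
    apply mul_le_mul_of_nonneg_right _ (by linarith)
    linarith
  have hP0 : 0 ≤ P := by
    have h5 : 0 ≤ N * Dx := mul_nonneg hN (by linarith)
    have h6 : 0 ≤ 5 * Dx * (Dx + 1) := mul_nonneg (by linarith) (by linarith)
    linarith
  have h5 : 5 * Dx * (Dx + 1) ≤ P := by
    have : 0 ≤ N * Dx := mul_nonneg hN (by linarith)
    linarith
  have h6 : Λ * (5 * Dx * (Dx + 1)) ≤ Λ * P := mul_le_mul_of_nonneg_left h5 (by linarith)
  have h7 : (Dx + Dx * Dx) * (2 * (Λ + 1) + 1) ≤ Λ * (5 * Dx * (Dx + 1)) := by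
    have : 0 ≤ (Dx * (Dx + 1)) * (3 * (Λ - 1)) :=
      mul_nonneg (mul_nonneg (by linarith) (by linarith)) (by linarith)
    linarith
  have h8 : 0 ≤ Λ * P * (Dx - Λ - 2) :=
    mul_nonneg (mul_nonneg (by linarith) hP0) (by linarith)
  have h9 : (Dx * Λ) * (a * (2 * (Λ + 1) + 1)) ≤ (Dx * Λ) * (2 * P) := by
    linarith
  exact le_of_mul_le_mul_left h9 (mul_pos (by linarith) (by linarith))

theorem arith (q Λ P r N : ℕ) (hq : 2 ≤ q) (hΛ : 1 ≤ Λ)
    (hr1 : r * (Λ + q) ≤ q * P + (Λ + q)) (hr2 : q * P ≤ r * (Λ + q) + (Λ + q))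
    (hP : N * (Λ + q) + 5 * (Λ + q) * (Λ + q + 1) ≤ P) :
    ∃ b m : Fin q → ℕ, ∑ j, (b j + 3 * m j) = r ∧ ∑ j, m j ≤ q * Λ ∧
      (∀ j, (b j - 1) * (2 * (Λ + 1) + 1) ≤ 2 * P) ∧ (∀ j, N ≤ b j + 1) ∧
      min (r * (Λ + q)) (q * P) ≤ ∑ j, min P (load (Λ + 1) b m j) := by
  obtain ⟨q', rfl⟩ : ∃ q', q = q' + 1 := ⟨q - 1, by omega⟩
  have hq' : 1 ≤ q' := by omega
  -- r ≤ P
  have hrP : r ≤ P := by
    by_contra hcon
    push Not at hcon
    have h1 : (P + 1) * (Λ + (q' + 1)) ≤ r * (Λ + (q' + 1)) := Nat.mul_le_mul_right _ hcon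
    have h2 : 1 * P ≤ Λ * P := Nat.mul_le_mul_right _ hΛ
    have h3 : 1 ≤ P := by
      refine le_trans ?_ hP
      have : 1 ≤ 5 * (Λ + (q' + 1)) * (Λ + (q' + 1) + 1) := by
        have : 1 * 1 ≤ 5 * (Λ + (q' + 1)) * (Λ + (q' + 1) + 1) :=
          Nat.mul_le_mul (by omega) (by omega)
        omega
      omega
    nlinarith
  obtain ⟨H, hH⟩ : ∃ H, P = r + H := ⟨P - r, by omega⟩
  let f : ℕ → ℕ := fun i => (i * H + (Λ - 1)) / Λ
  have hf0 : f 0 = 0 := by
    simp only [f, zero_mul, zero_add]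
    exact Nat.div_eq_of_lt (by omega)
  have hf1 : ∀ i, i * H ≤ Λ * f i := by
    intro i
    have h1 := Nat.div_add_mod (i * H + (Λ - 1)) Λ
    have h2 := Nat.mod_lt (i * H + (Λ - 1)) (show 0 < Λ by omega)
    simp only [f]
    omega
  have hf2 : ∀ i, Λ * f i + 1 ≤ i * H + Λ := by
    intro i
    have h1 := Nat.div_add_mod (i * H + (Λ - 1)) Λ
    simp only [f]
    omega
  have hfm : ∀ i, f i ≤ f (i + 1) := by
    intro i
    simp only [f]
    apply Nat.div_le_div_right
    have : (i + 1) * H = i * H + H := by ring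
    omega
  -- integer facts
  have hΛz : (1 : ℤ) ≤ Λ := by exact_mod_cast hΛ
  have hqz : (1 : ℤ) ≤ q' := by exact_mod_cast hq'
  have hHz : (P : ℤ) = r + H := by exact_mod_cast hH
  have hr1z : (r : ℤ) * (Λ + (q' + 1)) ≤ (q' + 1) * P + (Λ + (q' + 1)) := by exact_mod_cast hr1
  have hr2z : ((q' : ℤ) + 1) * P ≤ r * (Λ + (q' + 1)) + (Λ + (q' + 1)) := by exact_mod_cast hr2
  have hPz : (N : ℤ) * (Λ + (q' + 1)) + 5 * (Λ + (q' + 1)) * (Λ + (q' + 1) + 1) ≤ P := by
    exact_mod_cast hP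
  -- bounds for a number `a` with `H - D - Λ ≤ Λ a ≤ H + D`
  have hlow : ∀ a : ℤ, (H : ℤ) - (Λ + (q' + 1)) - Λ ≤ Λ * a → (N : ℤ) + 3 * Λ ≤ a := fun a ha =>
    low_bound Λ (Λ + (q' + 1)) H P N r a hΛz (by linarith) hHz (by linarith) hPz ha
  have hup : ∀ a : ℤ, (Λ : ℤ) * a ≤ H + (Λ + (q' + 1)) → a * (2 * (Λ + 1) + 1) ≤ 2 * P :=
    fun a ha => up_bound Λ (Λ + (q' + 1)) H P N r a hΛz (by linarith) hHz (by positivity)
      (by linarith) hPz ha
  -- the data
  let a : ℕ → ℕ := fun j => if j < q' then f (j + 1) - f j else r - f q'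
  let mm : ℕ → ℕ := fun j => if j < q' then Λ * f (j + 1) - (j + 1) * H else 0
  have ha1 : ∀ j, j < q' → a j + f j = f (j + 1) := by
    intro j hj
    have := hfm j
    simp only [a, if_pos hj]
    omega
  have hm1 : ∀ j, j < q' → mm j + (j + 1) * H = Λ * f (j + 1) := by
    intro j hj
    have := hf1 (j + 1)
    simp only [mm, if_pos hj]
    omega
  have hm0 : ∀ j, mm j + 1 ≤ Λ := by
    intro j
    by_cases hj : j < q'
    · have h1 := hm1 j hj
      have h2 := hf2 (j + 1)
      omega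
    · simp only [mm, if_neg hj]; omega
  -- the last one
  have hlast : (N : ℤ) + 3 * Λ ≤ (r : ℤ) - f q' := by
    apply hlow
    have h2 : (Λ : ℤ) * f q' + 1 ≤ q' * H + Λ := by exact_mod_cast hf2 q'
    have h3 : (Λ : ℤ) * (r - f q') = Λ * r - Λ * f q' := by ring
    rw [h3]
    have h4 : (r : ℤ) * (Λ + (q' + 1)) = Λ * r + q' * r + r := by ring
    have h5 : ((q' : ℤ) + 1) * P = q' * r + q' * H + P := by rw [hHz]; ring
    linarith
  have hfr : f q' ≤ r := by
    have : (0 : ℤ) ≤ (r : ℤ) - f q' := by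
      have : (0 : ℤ) ≤ N := by positivity
      linarith
    have : (f q' : ℤ) ≤ r := by linarith
    exact_mod_cast this
  have ha2 : a q' + f q' = r := by
    simp only [a, if_neg (lt_irrefl q')]
    omega
  have hlo : ∀ j, j ≤ q' → N + 3 * Λ ≤ a j := by
    intro j hj
    rcases Nat.lt_or_ge j q' with h | h
    · have h1 : (a j : ℤ) + f j = f (j + 1) := by exact_mod_cast ha1 j h
      have h2 : (Λ : ℤ) * f j + 1 ≤ j * H + Λ := by exact_mod_cast hf2 j
      have h3 : ((j : ℤ) + 1) * H ≤ Λ * f (j + 1) := by exact_mod_cast hf1 (j + 1)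
      have h4 : (N : ℤ) + 3 * Λ ≤ a j := by
        apply hlow
        have h5 : (Λ : ℤ) * a j = Λ * f (j + 1) - Λ * f j := by rw [← h1]; ring
        have h6 : ((j : ℤ) + 1) * H = j * H + H := by ring
        rw [h5]
        linarith
      exact_mod_cast h4
    · have : j = q' := by omega
      subst this
      have h1 : (a j : ℤ) + f j = r := by exact_mod_cast ha2
      have h4 : (N : ℤ) + 3 * Λ ≤ a j := by linarith
      exact_mod_cast h4
  have hhi : ∀ j, j ≤ q' → a j * (2 * (Λ + 1) + 1) ≤ 2 * P := by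
    intro j hj
    have h4 : (a j : ℤ) * (2 * (Λ + 1) + 1) ≤ 2 * P := by
      apply hup
      rcases Nat.lt_or_ge j q' with h | h
      · have h1 : (a j : ℤ) + f j = f (j + 1) := by exact_mod_cast ha1 j h
        have h2 : (Λ : ℤ) * f (j + 1) + 1 ≤ (j + 1) * H + Λ := by exact_mod_cast hf2 (j + 1)
        have h3 : (j : ℤ) * H ≤ Λ * f j := by exact_mod_cast hf1 j
        have h5 : (Λ : ℤ) * a j = Λ * f (j + 1) - Λ * f j := by rw [← h1]; ring
        have h6 : ((j : ℤ) + 1) * H = j * H + H := by ring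
        rw [h5]
        linarith
      · have : j = q' := by omega
        subst this
        have h1 : (a j : ℤ) + f j = r := by exact_mod_cast ha2
        have h3 : (j : ℤ) * H ≤ Λ * f j := by exact_mod_cast hf1 j
        have h5 : (Λ : ℤ) * a j = Λ * r - Λ * f j := by rw [← h1]; ring
        have h4 : (r : ℤ) * (Λ + (j + 1)) = Λ * r + j * r + r := by ring
        have h6 : ((j : ℤ) + 1) * P = j * r + j * H + P := by rw [hHz]; ring
        rw [h5]
        linarith
    exact_mod_cast h4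
  have hsum : ∀ i, i ≤ q' → ∑ j ∈ Finset.range i, a j = f i := by
    intro i
    induction i with
    | zero => intro _; rw [Finset.sum_range_zero, hf0]
    | succ i ih =>
      intro hi
      rw [Finset.sum_range_succ, ih (by omega)]
      have := ha1 i (by omega)
      omega
  have hb : ∀ j, j ≤ q' → a j - 3 * mm j + 3 * mm j = a j := by
    intro j hj
    have h1 := hlo j hj
    have h2 := hm0 j
    omega
  have hb' : ∀ j : Fin (q' + 1), a j.val - 3 * mm j.val + 3 * mm j.val = a j.val := fun j =>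
    hb j.val (by have := j.2; omega)
  have htot : ∑ j : Fin (q' + 1), ((a j.val - 3 * mm j.val) + 3 * mm j.val) = r := by
    rw [Finset.sum_congr rfl fun j _ => hb' j]
    rw [Fin.sum_univ_eq_sum_range (fun j => a j), Finset.sum_range_succ, hsum q' le_rfl]
    omega
  refine ⟨fun j => a j.val - 3 * mm j.val, fun j => mm j.val, htot, ?_, ?_, ?_, ?_⟩
  · refine (Finset.sum_le_card_nsmul _ _ Λ fun j _ => ?_).trans ?_
    · have := hm0 j.val
      change mm j.val ≤ Λ
      omega
    · simp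
  · intro j
    refine le_trans (Nat.mul_le_mul_right _ ?_) (hhi j.val (by have := j.2; omega))
    dsimp only
    omega
  · intro j
    have h1 := hlo j.val (by have := j.2; omega)
    have h2 := hm0 j.val
    dsimp only
    omega
  · -- the loads
    have hprev : ∀ j : Fin (q' + 1),
        (∑ j' : Fin (q' + 1), (if j'.val + 1 = j.val then mm j'.val else 0)) + j.val * H =
          Λ * f j.val := by
      intro j
      rcases Nat.eq_zero_or_pos j.val with h0 | h0
      · rw [h0, hf0]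
        have : ∀ j' ∈ (Finset.univ : Finset (Fin (q' + 1))),
            (if j'.val + 1 = 0 then mm j'.val else 0) = 0 := by
          intro j' _
          rw [if_neg (by omega)]
        rw [Finset.sum_eq_zero this]
        ring
      · obtain ⟨i, hi⟩ : ∃ i, j.val = i + 1 := ⟨j.val - 1, by omega⟩
        have hiq : i < q' := by have := j.2; omega
        rw [hi, Finset.sum_eq_single (⟨i, by omega⟩ : Fin (q' + 1))]
        · rw [if_pos rfl]
          exact hm1 i hiq
        · intro j' _ hne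
          rw [if_neg]
          intro h
          exact hne (Fin.ext (by simpa using h))
        · intro h; exact absurd (Finset.mem_univ _) h
    have hload : ∀ j : Fin (q' + 1),
        load (Λ + 1) (fun j => a j.val - 3 * mm j.val) (fun j => mm j.val) j + mm j.val + j.val * H =
          r + a j.val * Λ + Λ * f j.val := by
      intro j
      have h1 := load_eq Λ hΛ (fun j : Fin (q' + 1) => a j.val - 3 * mm j.val)
        (fun j => mm j.val) j
      rw [htot, hb' j] at h1
      have h2 := hprev j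
      omega
    have hload1 : ∀ j : Fin q', load (Λ + 1) (fun j : Fin (q' + 1) => a j.val - 3 * mm j.val)
        (fun j => mm j.val) j.castSucc = P := by
      intro j
      have h1 := hload j.castSucc
      simp only [Fin.val_castSucc] at h1
      have h2 := ha1 j.val j.2
      have h3 := hm1 j.val j.2
      have h4 : a j.val * Λ + Λ * f j.val = Λ * f (j.val + 1) := by rw [← h2]; ring
      have h5 : (j.val + 1) * H = j.val * H + H := by ring
      omega
    have hload2 : load (Λ + 1) (fun j : Fin (q' + 1) => a j.val - 3 * mm j.val)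
        (fun j => mm j.val) (Fin.last q') + q' * H = r + Λ * r := by
      have h1 := hload (Fin.last q')
      simp only [Fin.val_last] at h1
      have h3 : mm q' = 0 := by simp [mm]
      have h4 : a q' * Λ + Λ * f q' = Λ * r := by rw [← ha2]; ring
      omega
    rw [Fin.sum_univ_castSucc]
    simp only [hload1, min_self, Finset.sum_const, Finset.card_univ, Fintype.card_fin, smul_eq_mul]
    have h6 : (q' + 1) * P = q' * P + P := by ring
    have h7 : r * (Λ + (q' + 1)) = Λ * r + r + q' * r := by ring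
    have h8 : q' * P = q' * r + q' * H := by rw [hH]; ring
    rw [h6, h7]
    omega

end Pool.Agent.Lib.MP_635d71_ag
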