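import Mathlib
import Pool.Agent.Lib.MP_635d71_ag.Step

/-!
# Packing and induction
-/

open Module Submodule Polynomial

namespace Pool.Agent.Lib.MP_635d71_ag

variable {K : Type} [Field K]

/-- Greedy packing of Hamming balls. -/
theorem exists_packing (l : List ℕ) (S : Finset (Grid l)) (b : ℕ)
    (h : (b * D l + S.card) * D l ≤ l.prod) :
    ∃ γ : Fin b → Grid l, (∀ a, Disjoint (Ball l (γ a)) S) ∧
      ∀ a a', a ≠ a' → Disjoint (Ball l (γ a)) (Ball l (γ a')) := by
  classical
  induction b with
  | zero => exact ⟨fun i => i.elim0, fun i => i.elim0, fun i => i.elim0⟩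
  | succ b ih =>
    have hD := one_le_D l
    obtain ⟨γ, h1, h2⟩ := ih ((Nat.mul_le_mul_right _ (by
      have : b * D l ≤ (b + 1) * D l := Nat.mul_le_mul_right _ (Nat.le_succ b)
      omega)).trans h)
    -- the union
    let U : Finset (Grid l) := S ∪ Finset.univ.biUnion (fun a => Ball l (γ a))
    have hU : U.card ≤ b * D l + S.card := by
      refine (Finset.card_union_le _ _).trans ?_
      have : (Finset.univ.biUnion (fun a => Ball l (γ a))).card ≤ b * D l := by
        refine Finset.card_biUnion_le.trans ?_
        refine (Finset.sum_le_card_nsmul _ _ (D l) (fun a _ => card_Ball_le l (γ a))).trans ?_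
        simp
      omega
    -- the bad centres
    have hB : (U.biUnion (fun g => Ball l g)).card < Fintype.card (Grid l) := by
      refine lt_of_le_of_lt (Finset.card_biUnion_le.trans
        (Finset.sum_le_card_nsmul _ _ (D l) (fun a _ => card_Ball_le l a))) ?_
      rw [card_grid, smul_eq_mul]
      refine lt_of_lt_of_le ?_ h
      refine Nat.mul_lt_mul_of_pos_right ?_ hD
      have : (b + 1) * D l = b * D l + D l := by ring
      omega
    obtain ⟨g, hg⟩ : ∃ g, g ∉ U.biUnion (fun g => Ball l g) := by
      by_contra hcon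
      push Not at hcon
      have : U.biUnion (fun g => Ball l g) = Finset.univ := Finset.eq_univ_iff_forall.2 hcon
      rw [this, Finset.card_univ] at hB
      exact lt_irrefl _ hB
    have hg' : Disjoint (Ball l g) U := by
      rw [Finset.disjoint_left]
      intro u hu hu'
      exact hg (Finset.mem_biUnion.2 ⟨u, hu', (mem_Ball_comm l g u).2 hu⟩)
    refine ⟨Fin.cons g γ, ?_, ?_⟩
    · intro a
      refine Fin.cases ?_ (fun a => ?_) a
      · rw [Fin.cons_zero]
        exact Finset.disjoint_of_subset_right Finset.subset_union_left hg'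
      · rw [Fin.cons_succ]; exact h1 a
    · have h3 : ∀ a, Disjoint (Ball l g) (Ball l (γ a)) := fun a =>
        Finset.disjoint_of_subset_right (fun x hx => Finset.mem_union_right _
          (Finset.mem_biUnion.2 ⟨a, Finset.mem_univ _, hx⟩)) hg'
      intro a a'
      refine Fin.cases ?_ (fun a => ?_) a
      · refine Fin.cases (fun h => absurd rfl h) (fun a' _ => ?_) a'
        rw [Fin.cons_zero, Fin.cons_succ]; exact h3 a'
      · refine Fin.cases (fun _ => ?_) (fun a' h => ?_) a'
        · rw [Fin.cons_zero, Fin.cons_succ]; exact (h3 a).symm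
        · rw [Fin.cons_succ, Fin.cons_succ]
          exact h2 a a' (fun h' => h (by rw [h']))

theorem good_of_packing (l : List ℕ) (C : Finset (Grid l)) (b : ℕ)
    (h : (b * D l + C.card) * D l ≤ l.prod) : Good K l b C := by
  classical
  obtain ⟨γ, h1, h2⟩ := exists_packing l C b h
  refine ⟨fun a => cpt l (γ a), ?_⟩
  have h0 : (⨆ a, T l (cpt l (γ a) : Coord l → K)) = ⨆ a, coordSub K (Ball l (γ a)) :=
    iSup_congr fun a => T_cpt l (γ a)
  rw [h0]
  have h3 := sum_finrank_le_iSup (K := K) (ι := Option (Fin b))
    (fun o => o.elim C (fun a => Ball l (γ a)))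
    (fun o => o.elim (coordSub K C) (fun a => coordSub K (Ball l (γ a)))) (by
      rintro (_ | a)
      · exact le_rfl
      · exact le_rfl) (by
      rintro (_ | a) (_ | a') hne
      · exact absurd rfl hne
      · exact (h1 a').symm
      · exact h1 a
      · exact h2 a a' (fun h => hne (by rw [h])))
  rw [iSup_option, Fintype.sum_option] at h3
  have h4 : finrank K ↥(coordSub K C) + ∑ a, finrank K ↥(coordSub K (Ball l (γ a))) ≤
      finrank K ↥(coordSub K C ⊔ ⨆ a, coordSub K (Ball l (γ a))) := h3
  simpa only [finrank_coordSub, card_Ball, Finset.sum_const, Finset.card_univ,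
    Fintype.card_fin, smul_eq_mul] using h4

theorem exists_split (q : ℕ) (hq : 1 ≤ q) (b : ℕ) :
    ∃ β : Fin q → ℕ, ∑ j, β j = b ∧ ∀ j, q * β j ≤ b + (q - 1) ∧ b + 1 ≤ q * (β j + 1) := by
  have hmod := Nat.mod_lt b (show 0 < q by omega)
  have hdiv := Nat.div_add_mod b q
  refine ⟨fun j => b / q + if j.val < b % q then 1 else 0, ?_, ?_⟩
  · rw [Finset.sum_add_distrib]
    have h1 : ∑ j : Fin q, (if j.val < b % q then 1 else 0) = b % q := by
      rw [← Finset.card_filter]
      have := Fin.card_filter_val_lt (n := q) (m := b % q)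
      omega
    rw [h1]
    simp only [Finset.sum_const, Finset.card_univ, Fintype.card_fin, smul_eq_mul]
    exact hdiv
  · intro j
    have hmul : q * (b / q + 1) = q * (b / q) + q := by ring
    have hmul2 : q * (b / q + 1 + 1) = q * (b / q) + q + q := by ring
    have hj := j.2
    dsimp only
    split_ifs with h
    · rw [hmul, hmul2]; omega
    · rw [add_zero, hmul]; omega

/-- Induction on the format: balanced distribution of the points. -/
theorem flex [Infinite K] (z : List ℕ) (Δ c : ℕ) (hz : D z ^ 2 ≤ Δ) :
    ∀ (l : List ℕ) (b : ℕ) (C : Finset (Grid (l ++ z))), (∀ q ∈ l, 1 ≤ q) → D (l ++ z) ≤ Δ →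
      (b - 1) * (2 * Δ + 1) ≤ 2 * (l ++ z).prod →
      l.prod * (2 * Δ + 2 * c * D z + 4) ≤ b + 1 → C.card ≤ c → Good K (l ++ z) b C := by
  intro l
  induction l with
  | nil =>
    intro b C _ _ h1 h2 h3
    rw [List.prod_nil, one_mul] at h2
    obtain ⟨b', rfl⟩ : ∃ b', b = b' + 1 := ⟨b - 1, by omega⟩
    rw [Nat.add_sub_cancel, List.nil_append] at h1
    apply good_of_packing
    have h4 : (b' + 1) * D z * D z ≤ (b' + 1) * Δ := by
      rw [mul_assoc, ← sq]; exact Nat.mul_le_mul_left _ hz
    have h5 : C.card * D z ≤ c * D z := Nat.mul_le_mul_right _ h3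
    change ((b' + 1) * D z + C.card) * D z ≤ z.prod
    rw [add_mul]
    nlinarith [h1, h2, h4, h5]
  | cons q l ih =>
    intro b C hpos hD h1 h2 h3
    have hq : 1 ≤ q := hpos q (List.mem_cons_self)
    obtain ⟨β, hβ, hβ2⟩ := exists_split q hq b
    have hprod : ((q :: l) ++ z).prod = q * (l ++ z).prod := by
      rw [List.cons_append, List.prod_cons]
    have hDc : D ((q :: l) ++ z) = (q - 1) + D (l ++ z) := rfl
    rw [hDc] at hD
    rw [hprod] at h1
    rw [List.prod_cons, mul_assoc] at h2
    have key : Good K (q :: (l ++ z)) (∑ j, β j) C := by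
      have hcard : ∀ j, (slice (l := l ++ z) C j).card ≤ c := fun j => by
        refine le_trans ?_ h3
        rw [← sum_card_slice (l := l ++ z) C]
        exact Finset.single_le_sum (f := fun j => (slice (l := l ++ z) C j).card)
          (fun _ _ => Nat.zero_le _) (Finset.mem_univ j)
      have hlow : ∀ j, l.prod * (2 * Δ + 2 * c * D z + 4) ≤ β j + 1 := fun j => by
        have := h2.trans (hβ2 j).2
        exact Nat.le_of_mul_le_mul_left this (by omega)
      have hup : ∀ j, q * (β j - 1) ≤ b - 1 := fun j => by
        rcases Nat.eq_zero_or_pos (β j) with h0 | h0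
        · rw [h0]; simp
        · obtain ⟨β', hβ'⟩ : ∃ β', β j = β' + 1 := ⟨β j - 1, by omega⟩
          have := (hβ2 j).1
          rw [hβ', mul_add, mul_one] at this
          rw [hβ', Nat.add_sub_cancel]
          omega
      refine good_step (l ++ z) β C (fun j => ih (β j) _ (fun q' hq' => hpos q'
        (List.mem_cons_of_mem _ hq')) (by omega) ?_ (hlow j) (hcard j)) (fun j => ?_)
      · -- upper bound
        have h4 : q * ((β j - 1) * (2 * Δ + 1)) ≤ q * (2 * (l ++ z).prod) := by
          rw [← mul_assoc]
          refine (Nat.mul_le_mul_right _ (hup j)).trans (h1.trans (le_of_eq (by ring)))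
        exact Nat.le_of_mul_le_mul_left h4 (by omega)
      · -- room in the slice
        have hsum : ∑ j' ∈ Finset.univ.erase j, β j' + β j = b := by
          rw [Finset.sum_erase_add _ _ (Finset.mem_univ j), hβ]
        have hL : 1 ≤ l.prod := by
          refine Nat.one_le_iff_ne_zero.2 (fun h0 => ?_)
          have := hpos 0 (List.mem_cons_of_mem _ (List.prod_eq_zero_iff.1 h0))
          omega
        obtain ⟨d', hd'⟩ : ∃ d', D (l ++ z) = d' + 1 := ⟨D (l ++ z) - 1, by
          have := one_le_D (l ++ z); omega⟩
        have hzD := one_le_D z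
        have hc' : 2 * Δ + 2 * c + 4 ≤ l.prod * (2 * Δ + 2 * c * D z + 4) := by
          calc 2 * Δ + 2 * c + 4 ≤ 1 * (2 * Δ + 2 * c * D z + 4) := by
                rw [one_mul]
                have : 2 * c * 1 ≤ 2 * c * D z := Nat.mul_le_mul_left _ hzD
                omega
            _ ≤ _ := Nat.mul_le_mul_right _ hL
        have hc : q * (2 * Δ + 2 * c + 4) ≤ b + 1 := (Nat.mul_le_mul_left q hc').trans h2
        obtain ⟨b', rfl⟩ : ∃ b', b = b' + 1 := ⟨b - 1, by
          have : q * 1 ≤ q * (2 * Δ + 2 * c + 4) := Nat.mul_le_mul_left q (by omega)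
          have : 1 * 4 ≤ q * (2 * Δ + 2 * c + 4) := Nat.mul_le_mul hq (by omega)
          omega⟩
        rw [Nat.add_sub_cancel] at h1
        rw [hd'] at hD ⊢
        have ha : q * β j ≤ b' + q := by
          have := (hβ2 j).1
          omega
        have hcj := hcard j
        set x := β j
        set s := ∑ j' ∈ Finset.univ.erase j, β j'
        set P := (l ++ z).prod
        set w := (slice (l := l ++ z) C j).card
        have hgoal : w + x * (d' + 1) + s = w + x * d' + (b' + 1) := by
          rw [mul_add, mul_one]; omega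
        rw [hgoal]
        have h6 : q * (x * d') ≤ (b' + q) * d' := by
          rw [← mul_assoc]; exact Nat.mul_le_mul_right _ ha
        have h7 : b' * (d' + q) ≤ b' * Δ := Nat.mul_le_mul_left _ (by omega)
        have h8 : q * (d' + q) ≤ q * Δ := Nat.mul_le_mul_left _ (by omega)
        have h9 : q * 1 ≤ q * q := Nat.mul_le_mul_left _ hq
        have h10 : q * w ≤ q * c := Nat.mul_le_mul_left _ hcj
        have h11 : (2 * q) * (w + x * d' + (b' + 1)) ≤ (2 * q) * P := by
          nlinarith [h6, h7, h8, h9, h10, h1, hc]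
        exact Nat.le_of_mul_le_mul_left h11 (by omega)
    rw [hβ] at key
    exact key

end Pool.Agent.Lib.MP_635d71_ag
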