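import Mathlib
import Pool.Agent.Lib.MP_635d71_ag.Arith
import Pool.Agent.Lib.MP_635d71_ag.Flex

/-!
# Nondefectivity near the critical rank, then for every rank
-/

open Module Submodule

namespace Pool.Agent.Lib.MP_635d71_ag

variable {K : Type} [Field K]

theorem Reach.mono {l : List ℕ} {r s s' : ℕ} (h : Reach K l r s) (hs : s' ≤ s) : Reach K l r s' := by
  obtain ⟨x, hx⟩ := h
  exact ⟨x, hs.trans hx⟩

theorem D_append_le (l z : List ℕ) : D z ≤ D (l ++ z) := by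
  induction l with
  | nil => exact le_rfl
  | cons q l ih =>
    have : D ((q :: l) ++ z) = (q - 1) + D (l ++ z) := rfl
    omega

theorem one_le_prod (l : List ℕ) (h : ∀ q ∈ l, 1 ≤ q) : 1 ≤ l.prod := by
  induction l with
  | nil => exact le_rfl
  | cons q l ih =>
    rw [List.prod_cons]
    exact Nat.mul_le_mul (h q (List.mem_cons_self)) (ih fun q' hq' => h q' (List.mem_cons_of_mem _ hq'))

/-- The expected dimension for ranks near the critical one. -/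
theorem reach_close [Infinite K] (q v1 v2 v3 v4 : ℕ) (R z : List ℕ) (hq : 2 ≤ q)
    (hR : ∀ a ∈ R, 1 ≤ a)
    (hz : D z ^ 2 ≤ D ((v1 + 2) :: (v2 + 2) :: (v3 + 2) :: (v4 + 2) :: (R ++ z)))
    (c : ℕ) (hc : q * D ((v1 + 2) :: (v2 + 2) :: (v3 + 2) :: (v4 + 2) :: (R ++ z)) *
      ((v1 + 2) * ((v2 + 2) * ((v3 + 2) * ((v4 + 2) * D (R ++ z))))) ≤ c)
    (hP : D (q :: (v1 + 2) :: (v2 + 2) :: (v3 + 2) :: (v4 + 2) :: (R ++ z)) *
      (2 * D ((v1 + 2) :: (v2 + 2) :: (v3 + 2) :: (v4 + 2) :: (R ++ z)) + 2 * c * D z + 4 +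
        5 * (D (q :: (v1 + 2) :: (v2 + 2) :: (v3 + 2) :: (v4 + 2) :: (R ++ z)) + 1)) ≤ z.prod)
    (r : ℕ) (hr1 : r * D (q :: (v1 + 2) :: (v2 + 2) :: (v3 + 2) :: (v4 + 2) :: (R ++ z)) ≤
      (q :: (v1 + 2) :: (v2 + 2) :: (v3 + 2) :: (v4 + 2) :: (R ++ z)).prod +
        D (q :: (v1 + 2) :: (v2 + 2) :: (v3 + 2) :: (v4 + 2) :: (R ++ z)))
    (hr2 : (q :: (v1 + 2) :: (v2 + 2) :: (v3 + 2) :: (v4 + 2) :: (R ++ z)).prod ≤
      r * D (q :: (v1 + 2) :: (v2 + 2) :: (v3 + 2) :: (v4 + 2) :: (R ++ z)) +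
        D (q :: (v1 + 2) :: (v2 + 2) :: (v3 + 2) :: (v4 + 2) :: (R ++ z))) :
    Reach K (q :: (v1 + 2) :: (v2 + 2) :: (v3 + 2) :: (v4 + 2) :: (R ++ z)) r
      (min (r * D (q :: (v1 + 2) :: (v2 + 2) :: (v3 + 2) :: (v4 + 2) :: (R ++ z)))
        (q :: (v1 + 2) :: (v2 + 2) :: (v3 + 2) :: (v4 + 2) :: (R ++ z)).prod) := by
  classical
  have hDR := one_le_D (R ++ z)
  have hDz := one_le_D z
  have hRp := one_le_prod R hR
  have hpRz : (R ++ z).prod = R.prod * z.prod := List.prod_append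
  have hDY : D ((v1 + 2) :: (v2 + 2) :: (v3 + 2) :: (v4 + 2) :: (R ++ z)) =
    (v1 + 1) + ((v2 + 1) + ((v3 + 1) + ((v4 + 1) + D (R ++ z)))) := rfl
  obtain ⟨Λ, hΛ⟩ : ∃ Λ, D ((v1 + 2) :: (v2 + 2) :: (v3 + 2) :: (v4 + 2) :: (R ++ z)) = Λ + 1 :=
    ⟨_, by rw [hDY]; exact (Nat.succ_pred_eq_of_pos (by omega)).symm⟩
  have hDX : D (q :: (v1 + 2) :: (v2 + 2) :: (v3 + 2) :: (v4 + 2) :: (R ++ z)) = Λ + q := by
    have : D (q :: (v1 + 2) :: (v2 + 2) :: (v3 + 2) :: (v4 + 2) :: (R ++ z)) = (q - 1) +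
      D ((v1 + 2) :: (v2 + 2) :: (v3 + 2) :: (v4 + 2) :: (R ++ z)) := rfl
    rw [this, hΛ]; omega
  have hΛR : D (R ++ z) ≤ Λ := by omega
  set Y := (v1 + 2) :: (v2 + 2) :: (v3 + 2) :: (v4 + 2) :: (R ++ z) with hY
  let l1 : List ℕ := (v1 + 2) :: (v2 + 2) :: (v3 + 2) :: (v4 + 2) :: R
  have hl1 : l1 ++ z = Y := rfl
  have hl1p : Y.prod = l1.prod * z.prod := by rw [← hl1, List.prod_append]
  have hl1m : ∀ a ∈ l1, 1 ≤ a := by
    intro a ha
    simp only [l1, List.mem_cons] at ha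
    rcases ha with rfl | rfl | rfl | rfl | ha
    · omega
    · omega
    · omega
    · omega
    · exact hR a ha
  have hl1one := one_le_prod l1 hl1m
  have hXp : (q :: Y).prod = q * Y.prod := List.prod_cons
  rw [hXp, hDX] at hr1 hr2 ⊢
  rw [hDX, hΛ] at hP
  rw [hΛ] at hz hc
  -- the arithmetic
  have hN : (l1.prod * (2 * (Λ + 1) + 2 * c * D z + 4)) * (Λ + q) +
      5 * (Λ + q) * (Λ + q + 1) ≤ Y.prod := by
    rw [hl1p]
    have h1 := Nat.mul_le_mul_left l1.prod hP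
    have h2 : 5 * (Λ + q) * (Λ + q + 1) ≤ l1.prod * (5 * (Λ + q) * (Λ + q + 1)) :=
      Nat.le_mul_of_pos_left _ hl1one
    refine le_trans ?_ h1
    refine le_trans (Nat.add_le_add_left h2 _) (le_of_eq (by ring))
  obtain ⟨b, m, hbm, hm, hb1, hb2, hload⟩ := arith q Λ Y.prod r
    (l1.prod * (2 * (Λ + 1) + 2 * c * D z + 4)) hq (by omega) hr1 hr2 hN
  -- the gadgets
  have hpack : ((∑ j, m j) * D (R ++ z) + (∅ : Finset (Grid (R ++ z))).card) * D (R ++ z) ≤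
      (R ++ z).prod := by
    rw [Finset.card_empty, add_zero, hpRz]
    refine le_trans ?_ (Nat.le_mul_of_pos_left _ hRp)
    refine le_trans ?_ hP
    have hqL : q * Λ * D (R ++ z) ≤ c := by
      refine le_trans ?_ hc
      refine Nat.mul_le_mul (Nat.mul_le_mul_left _ (by omega)) ?_
      calc D (R ++ z) = 1 * (1 * (1 * (1 * D (R ++ z)))) := by ring
        _ ≤ _ := Nat.mul_le_mul (by omega) (Nat.mul_le_mul (by omega) (Nat.mul_le_mul (by omega)
          (Nat.mul_le_mul (by omega) le_rfl)))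
    calc (∑ j, m j) * D (R ++ z) * D (R ++ z) ≤ (q * Λ * D (R ++ z)) * D (R ++ z) :=
          Nat.mul_le_mul_right _ (Nat.mul_le_mul_right _ hm)
      _ ≤ c * (Λ + q) := Nat.mul_le_mul hqL (by omega)
      _ ≤ (Λ + q) * (2 * (Λ + 1) + 2 * c * D z + 4 + 5 * (Λ + q + 1)) := by
          rw [mul_comm c]
          refine Nat.mul_le_mul_left _ ?_
          have : c * 1 ≤ c * D z := Nat.mul_le_mul_left _ hDz
          have h2 : 2 * c * D z = 2 * (c * D z) := by ring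
          omega
  obtain ⟨γ, -, hγ⟩ := exists_packing (R ++ z) ∅ (∑ j, m j) hpack
  let A : (Σ j, Fin (m j)) → Finset (Grid Y) := fun i =>
    lift (v1 + 2) (lift (v2 + 2) (lift (v3 + 2) (lift (v4 + 2) (Ball (R ++ z)
      (γ (finSigmaFinEquiv i))))))
  have hA : ∀ i i', i ≠ i' → Disjoint (A i) (A i') := by
    intro i i' hne
    exact lift_disjoint (lift_disjoint (lift_disjoint (lift_disjoint
      (hγ _ _ fun h => hne (finSigmaFinEquiv.injective h)))))
  have gad : ∀ i, Gadget K Y (A i) := fun i =>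
    Classical.choice (exists_gadget v1 v2 v3 v4 (R ++ z) (γ (finSigmaFinEquiv i)))
  have hcard : (Finset.univ.biUnion A).card ≤ c := by
    refine Finset.card_biUnion_le.trans ?_
    refine (Finset.sum_le_card_nsmul _ _
      ((v1 + 2) * ((v2 + 2) * ((v3 + 2) * ((v4 + 2) * D (R ++ z))))) fun i _ => ?_).trans ?_
    · change (lift (v1 + 2) (lift (v2 + 2) (lift (v3 + 2) (lift (v4 + 2) (Ball (R ++ z)
        (γ (finSigmaFinEquiv i))))))).card ≤ _
      rw [card_lift, card_lift, card_lift, card_lift, card_Ball]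
    · refine le_trans ?_ hc
      rw [smul_eq_mul]
      refine Nat.mul_le_mul_right _ ?_
      have : (Finset.univ : Finset (Σ j, Fin (m j))).card = ∑ j, m j := by simp
      rw [this]
      exact hm.trans (Nat.mul_le_mul_left _ (by omega))
  have hG : ∀ j, Good K Y (b j) (Finset.univ.biUnion A) := fun j =>
    flex z (Λ + 1) c hz l1 (b j) (Finset.univ.biUnion A) hl1m (le_of_eq hΛ) (hb1 j) (hb2 j) hcard
  have key := assembly Y b m A hA gad hG
  rw [hbm] at key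
  refine key.mono (hload.trans (le_of_eq ?_))
  rw [hΛ]

end Pool.Agent.Lib.MP_635d71_ag
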