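import Mathlib
import Pool.Agent.Lib.MP_635d71_ag.Main

/-!
# Every rank
-/

open Module Submodule

namespace Pool.Agent.Lib.MP_635d71_ag

variable {K : Type} [Field K]

theorem iSup_fin_succ' {M : Type} [AddCommGroup M] [Module K M] {r : ℕ}
    (S : Fin (r + 1) → Submodule K M) : (⨆ a, S a) = S 0 ⊔ ⨆ a : Fin r, S a.succ := by
  apply le_antisymm
  · refine iSup_le fun a => ?_
    refine Fin.cases le_sup_left (fun a => ?_) a
    exact le_sup_of_le_right (le_iSup (fun a : Fin r => S a.succ) a)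
  · exact sup_le (le_iSup S 0) (iSup_le fun a => le_iSup S a.succ)

theorem Reach.drop {l : List ℕ} {r s : ℕ} (h : Reach K l (r + 1) s) : Reach K l r (s - D l) := by
  obtain ⟨x, hx⟩ := h
  refine ⟨fun a => x a.succ, ?_⟩
  rw [iSup_fin_succ'] at hx
  have h1 := Submodule.finrank_add_le_finrank_add_finrank (T l (x 0)) (⨆ a : Fin r, T l (x a.succ))
  have h2 := finrank_T_le l (x 0)
  change s - D l ≤ finrank K ↥(⨆ a : Fin r, T l (x a.succ))
  omega

theorem Reach.drop' {l : List ℕ} {r s : ℕ} (i : ℕ) (h : Reach K l (r + i) s) :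
    Reach K l r (s - i * D l) := by
  induction i generalizing s with
  | zero => simpa using h
  | succ i ih =>
    have h1 := ih (Reach.drop (r := r + i) h)
    refine h1.mono (le_of_eq ?_)
    have : (i + 1) * D l = i * D l + D l := by ring
    omega

theorem Reach.add {l : List ℕ} {r s : ℕ} (h : Reach K l r s) : Reach K l (r + 1) s := by
  obtain ⟨x, hx⟩ := h
  refine ⟨Fin.cons 0 x, hx.trans ?_⟩
  rw [iSup_fin_succ']
  have h1 : (⨆ a, T l (x a)) ≤ T l ((Fin.cons 0 x : Fin (r + 1) → Coord l → K) 0) ⊔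
      ⨆ a : Fin r, T l ((Fin.cons 0 x : Fin (r + 1) → Coord l → K) a.succ) := by
    simp only [Fin.cons_succ]
    exact le_sup_right
  exact Submodule.finrank_mono h1

theorem Reach.add' {l : List ℕ} {r s : ℕ} (i : ℕ) (h : Reach K l r s) : Reach K l (r + i) s := by
  induction i with
  | zero => exact h
  | succ i ih => exact ih.add

/-- From ranks near the critical one to every rank. -/
theorem Reach.all {l : List ℕ} (h : ∀ r, r * D l ≤ l.prod + D l → l.prod ≤ r * D l + D l →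
    Reach K l r (min (r * D l) l.prod)) (r : ℕ) : Reach K l r (min (r * D l) l.prod) := by
  have hD := one_le_D l
  have h1 := Nat.div_add_mod l.prod (D l)
  have h2 := Nat.mod_lt l.prod (show 0 < D l by omega)
  obtain ⟨r0, hr0⟩ : ∃ r0, l.prod / D l = r0 := ⟨_, rfl⟩
  rw [hr0] at h1
  have h3 : r0 * D l ≤ l.prod := by rw [mul_comm]; omega
  have h4 : l.prod < (r0 + 1) * D l := by
    have : (r0 + 1) * D l = D l * r0 + D l := by ring
    omega
  rcases Nat.lt_or_ge r0 r with hr | hr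
  · obtain ⟨i, rfl⟩ : ∃ i, r = (r0 + 1) + i := ⟨r - (r0 + 1), by omega⟩
    have h5 : (r0 + 1) * D l = r0 * D l + D l := by ring
    have h6 := h (r0 + 1) (by omega) (by omega)
    refine (h6.add' i).mono ?_
    rw [min_eq_right (le_of_lt h4)]
    exact min_le_right _ _
  · obtain ⟨i, rfl⟩ : ∃ i, r0 = r + i := ⟨r0 - r, by omega⟩
    have h5 : (r + i + 1) * D l = (r + i) * D l + D l := by ring
    have h6 := h (r + i) (by omega) (by omega)
    refine (Reach.drop' i h6).mono ?_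
    rw [min_eq_left h3]
    have h7 : (r + i) * D l = r * D l + i * D l := by ring
    refine (min_le_left _ _).trans ?_
    omega

theorem D_le_append (l z : List ℕ) : D z ≤ D (l ++ z) := D_append_le l z

/-- The criterion for lists. -/
theorem main_lists [Infinite K] (n q v1 v2 v3 v4 : ℕ) (R z : List ℕ) (hq : 2 ≤ q) (hq' : q ≤ n + 1)
    (h1 : v1 + 2 ≤ n + 1) (h2 : v2 + 2 ≤ n + 1) (h3 : v3 + 2 ≤ n + 1) (h4 : v4 + 2 ≤ n + 1)
    (hR : ∀ a ∈ R, 1 ≤ a) (L : List ℕ)
    (hL : L = q :: (v1 + 2) :: (v2 + 2) :: (v3 + 2) :: (v4 + 2) :: (R ++ z))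
    (hz : D z ^ 2 + n ≤ D L)
    (hP : D L * (7 * D L + 9 + 2 * (n + 1) ^ 5 * D L ^ 2 * D z) ≤ z.prod) (r : ℕ) :
    Reach K L r (min (r * D L) L.prod) := by
  refine Reach.all (fun r hr1 hr2 => ?_) r
  subst hL
  have hDY : D (q :: (v1 + 2) :: (v2 + 2) :: (v3 + 2) :: (v4 + 2) :: (R ++ z)) =
    (q - 1) + D ((v1 + 2) :: (v2 + 2) :: (v3 + 2) :: (v4 + 2) :: (R ++ z)) := rfl
  have hDR : D ((v1 + 2) :: (v2 + 2) :: (v3 + 2) :: (v4 + 2) :: (R ++ z)) =
    (v1 + 1) + ((v2 + 1) + ((v3 + 1) + ((v4 + 1) + D (R ++ z)))) := rfl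
  set DX := D (q :: (v1 + 2) :: (v2 + 2) :: (v3 + 2) :: (v4 + 2) :: (R ++ z)) with hDX
  refine reach_close q v1 v2 v3 v4 R z hq hR (by omega) _ le_rfl ?_ r hr1 hr2
  rw [← hDX]
  refine le_trans ?_ hP
  refine Nat.mul_le_mul_left _ ?_
  set DY := D ((v1 + 2) :: (v2 + 2) :: (v3 + 2) :: (v4 + 2) :: (R ++ z)) with hDY'
  have h5 : DY ≤ DX := by omega
  have h6 : D (R ++ z) ≤ DX := by omega
  have h7 : q * DY * ((v1 + 2) * ((v2 + 2) * ((v3 + 2) * ((v4 + 2) * D (R ++ z))))) ≤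
      (n + 1) ^ 5 * DX ^ 2 := by
    calc q * DY * ((v1 + 2) * ((v2 + 2) * ((v3 + 2) * ((v4 + 2) * D (R ++ z))))) ≤
        (n + 1) * DX * ((n + 1) * ((n + 1) * ((n + 1) * ((n + 1) * DX)))) :=
          Nat.mul_le_mul (Nat.mul_le_mul hq' h5) (Nat.mul_le_mul h1 (Nat.mul_le_mul h2
            (Nat.mul_le_mul h3 (Nat.mul_le_mul h4 h6))))
      _ = (n + 1) ^ 5 * DX ^ 2 := by ring
  have h8 := Nat.mul_le_mul_right (D z) (Nat.mul_le_mul_left 2 h7)
  have h9 : 2 * ((n + 1) ^ 5 * DX ^ 2) * D z = 2 * (n + 1) ^ 5 * DX ^ 2 * D z := by ring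
  rw [h9] at h8
  omega

theorem D_perm {L L' : List ℕ} (h : L.Perm L') : D L = D L' := by
  induction h with
  | nil => rfl
  | cons q _ ih => rw [D, D, ih]
  | swap a b L => simp only [D]; omega
  | trans _ _ ih1 ih2 => exact ih1.trans ih2

theorem D_map {ι : Type} (d : ι → ℕ) (l : List ι) :
    D (l.map fun i => d i + 1) = (l.map d).sum + 1 := by
  induction l with
  | nil => rfl
  | cons i l ih =>
    rw [List.map_cons, D, ih, List.map_cons, List.sum_cons]
    omega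

end Pool.Agent.Lib.MP_635d71_ag
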