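import Mathlib
import Pool.Agent.Lib.MP_635d71_ag.Step

/-!
# Assembly of the slices, with a small parameter

The first vectors of the points depend on a parameter `ε`; for `ε = 0` they are coordinate vectors.
Relations between the tangent spaces in one slice give vectors in other slices.
-/

open Module Submodule Polynomial

namespace Pool.Agent.Lib.MP_635d71_ag

variable {K : Type} [Field K]

theorem LinePoly.of_poly {V κ : Type} [AddCommGroup V] [Module K V] (P : κ → K[X]) :
    LinePoly K (fun (w : K × V) (c : κ) => (P c).eval w.1) := by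
  intro x0 x1 c
  refine ⟨(P c).comp (C x0.1 + X * C (x1.1 - x0.1)), fun t => ?_⟩
  simp [eval_comp]

theorem linePoly_ten {V : Type} [AddCommGroup V] [Module K V] {q : ℕ} {l : List ℕ}
    (u : V → Fin q → K) (f : V → Grid l → K) (hu : LinePoly K u) (hf : LinePoly K f) :
    LinePoly K (fun v => (ten (u v) (f v) : Grid (q :: l) → K)) := by
  intro x0 x1 c
  obtain ⟨a, ha⟩ := hu x0 x1 c.1
  obtain ⟨b, hb⟩ := hf x0 x1 c.2
  refine ⟨a * b, fun t => ?_⟩
  rw [eval_mul, ← ha, ← hb]
  rfl

theorem LinePoly.const {V κ : Type} [AddCommGroup V] [Module K V] (f : κ → K) :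
    LinePoly K (fun (_ : V) (c : κ) => f c) := fun _ _ c => ⟨C (f c), fun t => by simp⟩

theorem LinePoly.smul_const {V κ : Type} [AddCommGroup V] [Module K V] (a : K) (f : V → κ → K)
    (hf : LinePoly K f) : LinePoly K (fun v c => a * f v c) := by
  intro x0 x1 c
  obtain ⟨b, hb⟩ := hf x0 x1 c
  exact ⟨C a * b, fun t => by rw [eval_mul, eval_C, ← hb]⟩

theorem big_ne_zero (V : Type) [AddCommGroup V] [Module K V] :
    Big K {w : K × V | w.1 ≠ 0} := by
  intro x0 hx0 x1
  have h : {t : K | x0 + t • (x1 - x0) ∉ {w : K × V | w.1 ≠ 0}} ⊆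
      {t : K | x0.1 + t * (x1.1 - x0.1) = 0} := by
    intro t ht
    simp only [Set.mem_ofPred_eq, not_not] at ht
    simpa using ht
  refine Set.Finite.subset ?_ h
  have hx0' : x0.1 ≠ 0 := hx0
  by_cases hd : x1.1 - x0.1 = 0
  · have : {t : K | x0.1 + t * (x1.1 - x0.1) = 0} = ∅ := by
      ext t
      simp [hd, hx0']
    rw [this]
    exact Set.finite_empty
  · refine (Set.finite_singleton (-x0.1 / (x1.1 - x0.1))).subset ?_
    intro t ht
    have ht' : x0.1 + t * (x1.1 - x0.1) = 0 := ht
    rw [Set.mem_singleton_iff, eq_div_iff hd]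
    linear_combination ht'

/-- Assembly of the slices. -/
theorem assembly_eps [Infinite K] {q : ℕ} (l : List ℕ) {ι κ : Type} [Finite ι]
    {V : Type} [AddCommGroup V] [Module K V] (C : Finset (Grid (q :: l)))
    (L : ι → V →ₗ[K] (Coord l → K)) (sl : ι → Fin q) (u : ι → Fin q → K[X])
    (hu0 : ∀ p j, (u p j).eval 0 = (Pi.single (sl p) (1 : K) : Fin q → K) j)
    (Ω : κ → K × V → Grid (q :: l) → K) (hΩ : ∀ k, LinePoly K (Ω k))
    (hΩm : ∀ k w, w.1 ≠ 0 → Ω k w ∈
      ⨆ p, T (q :: l) (cons (fun j => (u p j).eval w.1) (L p w.2)))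
    (tgt : κ → Fin q) (ν : κ → V → Grid l → K) (hν : ∀ k, LinePoly K (ν k))
    (hΩ0 : ∀ k v, Ω k (0, v) = ten (Pi.single (tgt k) 1) (ν k v)) (n : Fin q → ℕ)
    (hn : ∀ j, ∃ v, n j ≤ finrank K ↥(coordSub K (slice C j) ⊔
      span K ({f | ∃ p, sl p = j ∧ f ∈ T l (L p v)} ∪ {f | ∃ k, tgt k = j ∧ f = ν k v} ∪
        {f | ∃ p, f = E l (L p v)}))) :
    ∃ w : K × V, ∑ j, n j ≤ finrank K ↥(coordSub K C ⊔
      ⨆ p, T (q :: l) (cons (fun j => (u p j).eval w.1) (L p w.2))) := by
  classical
  -- the families of vectors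
  let F : (ι × TI l) ⊕ (ι × Fin q) ⊕ κ → K × V → Grid (q :: l) → K := fun k w =>
    Sum.elim (fun p => ten (fun j => (u p.1 j).eval w.1) (TVec l (L p.1 w.2) p.2))
      (Sum.elim (fun p => ten (Pi.single p.2 1) (E l (L p.1 w.2))) (fun k => Ω k w)) k
  have hF : ∀ k, LinePoly K (F k) := by
    rintro (p | p | k)
    · exact linePoly_ten _ _ (LinePoly.of_poly (u p.1))
        (linePoly_TVec l ((L p.1).comp (LinearMap.snd K K V)) p.2)
    · exact linePoly_ten _ _ (LinePoly.const _) (linePoly_E l ((L p.1).comp (LinearMap.snd K K V)))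
    · exact hΩ k
  let f : Fin q → (ι × TI l) ⊕ κ ⊕ ι → V → Grid l → K := fun j k v =>
    Sum.elim (fun p => if sl p.1 = j then TVec l (L p.1 v) p.2 else 0)
      (Sum.elim (fun k => if tgt k = j then ν k v else 0) (fun p => E l (L p v))) k
  have hf : ∀ j k, LinePoly K (f j k) := by
    rintro j (p | k | p)
    · by_cases h : sl p.1 = j
      · have : f j (Sum.inl p) = fun v => TVec l (L p.1 v) p.2 := by
          funext v; simp only [f, Sum.elim_inl, if_pos h]
        rw [this]; exact linePoly_TVec l (L p.1) p.2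
      · have : f j (Sum.inl p) = fun v => 0 := by
          funext v; simp only [f, Sum.elim_inl, if_neg h]
        rw [this]; exact LinePoly.const (K := K) (V := V) (0 : Grid l → K)
    · by_cases h : tgt k = j
      · have : f j (Sum.inr (Sum.inl k)) = fun v => ν k v := by
          funext v; simp only [f, Sum.elim_inl, Sum.elim_inr, if_pos h]
        rw [this]; exact hν k
      · have : f j (Sum.inr (Sum.inl k)) = fun v => 0 := by
          funext v; simp only [f, Sum.elim_inl, Sum.elim_inr, if_neg h]
        rw [this]; exact LinePoly.const (K := K) (V := V) (0 : Grid l → K)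
    · exact linePoly_E l (L p)
  -- the choice of the points
  obtain ⟨v, hv⟩ := Big.exists_forall (K := K)
    (fun j => {v | n j ≤ finrank K ↥(coordSub K (slice C j) ⊔
      span K (Set.range fun k => f j k v))})
    (fun j => big_rank (coordSub K (slice C j)) (f j) (hf j) _) (by
      intro j
      obtain ⟨v, hv⟩ := hn j
      refine ⟨v, hv.trans (Submodule.finrank_mono (sup_le_sup_left ?_ _))⟩
      rw [span_le]
      rintro g ((⟨p, hp, hg⟩ | ⟨k, hk, rfl⟩) | ⟨p, rfl⟩)
      · have h1 : T l (L p v) ≤ span K (Set.range fun k => f j k v) := by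
          rw [T, span_le]
          rintro _ ⟨i, rfl⟩
          exact subset_span ⟨Sum.inl (p, i), by simp only [f, Sum.elim_inl, if_pos hp]⟩
        exact h1 hg
      · exact subset_span ⟨Sum.inr (Sum.inl k), by
          simp only [f, Sum.elim_inl, Sum.elim_inr, if_pos hk]⟩
      · exact subset_span ⟨Sum.inr (Sum.inr p), rfl⟩)
  -- the limit
  have hlim : ∑ j, n j ≤ finrank K ↥(coordSub K C ⊔ span K (Set.range fun k => F k (0, v))) := by
    refine (Finset.sum_le_sum fun j _ => hv j).trans ?_
    refine sum_finrank_le (K := K) (G := Grid l) _ _ ?_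
    intro j g hg
    refine ⟨ten (Pi.single j 1) g, ?_, ?_, ?_⟩
    · have h2 : (coordSub K (slice C j) ⊔ span K (Set.range fun k => f j k v)).map
          (tenL (Pi.single j 1) l) ≤ coordSub K C ⊔ span K (Set.range fun k => F k (0, v)) := by
        rw [Submodule.map_sup]
        refine sup_le (le_sup_of_le_left ?_) (le_sup_of_le_right ?_)
        · rintro _ ⟨f, hf, rfl⟩ ⟨j', g'⟩ hg'
          change (Pi.single j (1 : K) : Fin q → K) j' * f g' = 0
          by_cases h : j' = j
          · subst h
            rw [hf g' (by simpa [slice] using hg'), mul_zero]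
          · rw [Pi.single_eq_of_ne h, zero_mul]
        · rw [Submodule.map_span_le]
          rintro _ ⟨k, rfl⟩
          have h0 : tenL (Pi.single j (1 : K)) l (0 : Grid l → K) = 0 := map_zero _
          rcases k with p | k | p
          · by_cases h : sl p.1 = j
            · refine subset_span ⟨Sum.inl p, ?_⟩
              simp only [F, f, Sum.elim_inl, if_pos h]
              have : (fun j => (u p.1 j).eval 0) = (Pi.single j (1 : K) : Fin q → K) := by
                funext j'
                rw [hu0, h]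
              rw [this]
              rfl
            · simp only [f, Sum.elim_inl, if_neg h, h0]
              exact Submodule.zero_mem _
          · by_cases h : tgt k = j
            · refine subset_span ⟨Sum.inr (Sum.inr k), ?_⟩
              simp only [F, f, Sum.elim_inl, Sum.elim_inr, if_pos h]
              rw [hΩ0, h]
              rfl
            · simp only [f, Sum.elim_inl, Sum.elim_inr, if_neg h, h0]
              exact Submodule.zero_mem _
          · exact subset_span ⟨Sum.inr (Sum.inl (p, j)), rfl⟩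
      exact h2 ⟨g, hg, rfl⟩
    · intro j' hj' c
      change (Pi.single j (1 : K) : Fin q → K) j' * g c = 0
      rw [Pi.single_eq_of_ne hj'.ne, zero_mul]
    · intro c
      change (Pi.single j (1 : K) : Fin q → K) j * g c = g c
      rw [Pi.single_eq_same, one_mul]
  -- a nonzero parameter
  obtain ⟨w, hw1, hw2⟩ := Big.inter_nonempty (K := K)
    (big_rank (coordSub K C) F hF (∑ j, n j)) (big_ne_zero (K := K) V) ⟨(0, v), hlim⟩
    ⟨(1, 0), one_ne_zero⟩
  refine ⟨w, le_trans hw1 (Submodule.finrank_mono (sup_le_sup_left ?_ _))⟩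
  rw [span_le]
  rintro _ ⟨p | p | k, rfl⟩
  · refine (le_iSup (fun p => T (q :: l) (cons (fun j => (u p j).eval w.1) (L p w.2))) p.1) ?_
    exact ten_mem_T (cons (fun j => (u p.1 j).eval w.1) (L p.1 w.2)) (subset_span ⟨p.2, rfl⟩)
  · refine (le_iSup (fun p => T (q :: l) (cons (fun j => (u p j).eval w.1) (L p w.2))) p.1) ?_
    exact ten_E_mem_T (cons (fun j => (u p.1 j).eval w.1) (L p.1 w.2)) _
  · exact hΩm k w hw2

end Pool.Agent.Lib.MP_635d71_ag
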