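import Mathlib
import Pool.Agent.Lib.MP_635d71_ag.Arith

/-!
# Arithmetic: balanced distribution of the points among the slices
-/

namespace Pool.Agent.Lib.MP_635d71_ag

theorem arithB (q Λ P r : ℕ) (hq : 2 ≤ q) (hΛ : 1 ≤ Λ)
    (hr1 : r * (Λ + q) ≤ q * P + (Λ + q)) (hr2 : q * P ≤ r * (Λ + q) + (Λ + q))
    (hP : (3 * Λ + 1) * (Λ + q) ≤ P) :
    ∃ b m : Fin q → ℕ, ∑ j, (b j + 3 * m j) = r ∧ ∑ j, m j ≤ q * Λ ∧
      (∀ j, (b j - 1) * (2 * (Λ + 1) + 1) ≤ 2 * P) ∧
      min (r * (Λ + q)) (q * P) ≤ ∑ j, min P (load (Λ + 1) b m j) := by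
  have hq0 : 0 < q := by omega
  have hΛ0 : 0 < Λ := by omega
  -- `r` is large
  have hrl : 3 * Λ * q + q ≤ r + 1 := by
    have h1 : q * ((3 * Λ + 1) * (Λ + q)) ≤ q * P := Nat.mul_le_mul_left _ hP
    have h2 : (q * (3 * Λ + 1)) * (Λ + q) ≤ (r + 1) * (Λ + q) := by
      calc (q * (3 * Λ + 1)) * (Λ + q) = q * ((3 * Λ + 1) * (Λ + q)) := by ring
        _ ≤ _ := h1.trans (hr2.trans (le_of_eq (by ring)))
    have h3 := Nat.le_of_mul_le_mul_right h2 (by omega)
    calc 3 * Λ * q + q = q * (3 * Λ + 1) := by ring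
      _ ≤ _ := h3
  obtain ⟨X, hX⟩ : ∃ X : ℕ → ℕ, ∀ j, X j = j * (r * Λ) / q := ⟨_, fun _ => rfl⟩
  obtain ⟨F, hF⟩ : ∃ F : ℕ → ℕ, ∀ j, F j = (X j + (Λ - 1)) / Λ := ⟨_, fun _ => rfl⟩
  have hX0 : X 0 = 0 := by rw [hX]; simp
  have hXq : X q = r * Λ := by rw [hX]; exact Nat.mul_div_cancel_left _ hq0
  have hXle : ∀ j, q * X j ≤ j * (r * Λ) := fun j => by
    rw [hX]; exact Nat.mul_div_le _ _
  have hXge : ∀ j, j * (r * Λ) + 1 ≤ q * X j + q := fun j => by
    rw [hX]
    have h1 := Nat.div_add_mod (j * (r * Λ)) q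
    have h2 := Nat.mod_lt (j * (r * Λ)) hq0
    omega
  have hXm : ∀ j, X j ≤ X (j + 1) := fun j => by
    rw [hX, hX]
    exact Nat.div_le_div_right (Nat.mul_le_mul_right _ (Nat.le_succ j))
  have hF1 : ∀ j, X j ≤ Λ * F j := fun j => by
    rw [hF]
    have h1 := Nat.div_add_mod (X j + (Λ - 1)) Λ
    have h2 := Nat.mod_lt (X j + (Λ - 1)) hΛ0
    omega
  have hF2 : ∀ j, Λ * F j + 1 ≤ X j + Λ := fun j => by
    rw [hF]
    have h1 := Nat.div_add_mod (X j + (Λ - 1)) Λ
    omega
  have hF0 : F 0 = 0 := by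
    rw [hF, hX0, zero_add]; exact Nat.div_eq_of_lt (by omega)
  have hFq : F q = r := by
    have h1 := hF1 q
    have h2 := hF2 q
    rw [hXq] at h1 h2
    apply le_antisymm
    · have : Λ * F q < Λ * (r + 1) := by
        have : Λ * (r + 1) = r * Λ + Λ := by ring
        omega
      have := Nat.lt_of_mul_lt_mul_left this
      omega
    · have : Λ * r ≤ Λ * F q := by
        have : Λ * r = r * Λ := mul_comm _ _
        omega
      exact Nat.le_of_mul_le_mul_left this hΛ0
  have hFm : ∀ j, F j ≤ F (j + 1) := fun j => by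
    rw [hF, hF]
    exact Nat.div_le_div_right (Nat.add_le_add_right (hXm j) _)
  obtain ⟨a, ha⟩ : ∃ a : ℕ → ℕ, ∀ j, a j + F j = F (j + 1) :=
    ⟨fun j => F (j + 1) - F j, fun j => by
      have := hFm j
      change F (j + 1) - F j + F j = F (j + 1)
      omega⟩
  obtain ⟨mm, hmm⟩ : ∃ mm : ℕ → ℕ, ∀ j, mm j + X (j + 1) = Λ * F (j + 1) :=
    ⟨fun j => Λ * F (j + 1) - X (j + 1), fun j => by
      have := hF1 (j + 1)
      change Λ * F (j + 1) - X (j + 1) + X (j + 1) = Λ * F (j + 1)
      omega⟩
  have hm0 : ∀ j, mm j + 1 ≤ Λ := fun j => by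
    have h1 := hmm j
    have h2 := hF2 (j + 1)
    omega
  have hΛa : ∀ j, Λ * a j + Λ * F j = Λ * F (j + 1) := fun j => by rw [← ha j]; ring
  -- lower bound for the increments of `X`
  have hXinc : ∀ j, 3 * Λ * Λ ≤ X (j + 1) - X j := fun j => by
    have h1 : q * (3 * Λ * Λ) ≤ r * Λ := by
      have : 3 * Λ * q ≤ r := by omega
      calc q * (3 * Λ * Λ) = (3 * Λ * q) * Λ := by ring
        _ ≤ r * Λ := Nat.mul_le_mul_right _ this
    have h2 : X j + 3 * Λ * Λ ≤ X (j + 1) := by
      rw [hX, hX, ← Nat.add_mul_div_left _ _ hq0]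
      apply Nat.div_le_div_right
      have : (j + 1) * (r * Λ) = j * (r * Λ) + r * Λ := by ring
      omega
    omega
  have halow : ∀ j, 3 * (Λ - 1) ≤ a j := fun j => by
    have h1 := hXinc j
    have h2 := hF1 (j + 1)
    have h3 := hF2 j
    have h4 := hΛa j
    have h5 : Λ * (3 * (Λ - 1)) ≤ Λ * a j := by
      have h6 : Λ * (3 * (Λ - 1)) + 3 * Λ = 3 * Λ * Λ := by
        obtain ⟨Λ', rfl⟩ : ∃ Λ', Λ = Λ' + 1 := ⟨Λ - 1, by omega⟩
        rw [Nat.add_sub_cancel]; ring
      omega
    exact Nat.le_of_mul_le_mul_left h5 hΛ0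
  have haup : ∀ j, q * (a j - 1) ≤ r := fun j => by
    rcases Nat.eq_zero_or_pos (a j) with h0 | h0
    · rw [h0]; simp
    · obtain ⟨a', ha'⟩ : ∃ a', a j = a' + 1 := ⟨a j - 1, by omega⟩
      rw [ha', Nat.add_sub_cancel]
      have h1 := hF2 (j + 1)
      have h2 := hF1 j
      have h3 := hΛa j
      have h4 := hXle (j + 1)
      have h5 := hXge j
      rw [ha'] at h3
      have h6 : Λ * (a' + 1) + X j + 1 ≤ X (j + 1) + Λ := by omega
      have h7 : q * (Λ * (a' + 1) + X j + 1) ≤ q * (X (j + 1) + Λ) := Nat.mul_le_mul_left _ h6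
      have h8 : (j + 1) * (r * Λ) = j * (r * Λ) + r * Λ := by ring
      have h9 : Λ * (q * a') ≤ Λ * r := by
        have e1 : q * (Λ * (a' + 1) + X j + 1) = Λ * (q * a') + q * Λ + q * X j + q := by ring
        have e2 : q * (X (j + 1) + Λ) = q * X (j + 1) + q * Λ := by ring
        have e3 : Λ * r = r * Λ := mul_comm _ _
        omega
      exact Nat.le_of_mul_le_mul_left h9 hΛ0
  have hsum : ∀ i, ∑ j ∈ Finset.range i, a j = F i := by
    intro i
    induction i with
    | zero => rw [Finset.sum_range_zero, hF0]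
    | succ i ih =>
      rw [Finset.sum_range_succ, ih]
      have := ha i
      omega
  have hb : ∀ j, a j - 3 * mm j + 3 * mm j = a j := fun j => by
    have h1 := halow j
    have h2 := hm0 j
    omega
  have htot : ∑ j : Fin q, ((a j.val - 3 * mm j.val) + 3 * mm j.val) = r := by
    rw [Finset.sum_congr rfl fun j _ => hb j.val]
    rw [Fin.sum_univ_eq_sum_range (fun j => a j), hsum, hFq]
  refine ⟨fun j => a j.val - 3 * mm j.val, fun j => mm j.val, htot, ?_, ?_, ?_⟩
  · refine (Finset.sum_le_card_nsmul _ _ Λ fun j _ => ?_).trans ?_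
    · have := hm0 j.val
      change mm j.val ≤ Λ
      omega
    · simp
  · intro j
    refine le_trans (Nat.mul_le_mul_right (2 * (Λ + 1) + 1)
      (show a j.val - 3 * mm j.val - 1 ≤ a j.val - 1 by omega)) ?_
    have h1 := haup j.val
    have h2 : q * ((a j.val - 1) * (2 * (Λ + 1) + 1)) ≤ q * (2 * P) := by
      calc q * ((a j.val - 1) * (2 * (Λ + 1) + 1)) = (q * (a j.val - 1)) * (2 * (Λ + 1) + 1) := by ring
        _ ≤ r * (2 * (Λ + 1) + 1) := Nat.mul_le_mul_right _ h1
        _ ≤ q * (2 * P) := by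
          obtain ⟨q', rfl⟩ : ∃ q', q = q' + 2 := ⟨q - 2, by omega⟩
          have e1 : r * (2 * (Λ + 1) + 1) + r * (2 * q' + 1) = 2 * (r * (Λ + (q' + 2))) := by ring
          have e2 : r * 1 ≤ r * (2 * q' + 1) := Nat.mul_le_mul_left _ (by omega)
          have e3 : 2 * (Λ + (q' + 2)) ≤ r := by
            have : 3 * Λ * (q' + 2) = 3 * (Λ * q') + 6 * Λ := by ring
            have e4 : 1 * q' ≤ Λ * q' := Nat.mul_le_mul_right _ hΛ
            omega
          have e5 : (q' + 2) * (2 * P) = 2 * ((q' + 2) * P) := by ring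
          omega
    exact Nat.le_of_mul_le_mul_left h2 hq0
  · -- the loads
    have hprev : ∀ j : Fin q,
        (∑ j' : Fin q, (if j'.val + 1 = j.val then mm j'.val else 0)) + X j.val = Λ * F j.val := by
      intro j
      rcases Nat.eq_zero_or_pos j.val with h0 | h0
      · rw [h0, hF0, hX0]
        have : ∀ j' ∈ (Finset.univ : Finset (Fin q)),
            (if j'.val + 1 = 0 then mm j'.val else 0) = 0 := by
          intro j' _
          rw [if_neg (by omega)]
        rw [Finset.sum_eq_zero this, Nat.mul_zero]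
      · obtain ⟨i, hi⟩ : ∃ i, j.val = i + 1 := ⟨j.val - 1, by omega⟩
        have hiq : i + 1 < q := by have := j.2; omega
        rw [hi, Finset.sum_eq_single (⟨i, by omega⟩ : Fin q)]
        · rw [if_pos rfl]
          exact hmm i
        · intro j' _ hne
          rw [if_neg]
          intro h
          exact hne (Fin.ext (by simpa using h))
        · intro h; exact absurd (Finset.mem_univ _) h
    have hload : ∀ j : Fin q,
        load (Λ + 1) (fun j => a j.val - 3 * mm j.val) (fun j => mm j.val) j + X j.val =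
          r + X (j.val + 1) := by
      intro j
      have h1 := load_eq Λ hΛ (fun j : Fin q => a j.val - 3 * mm j.val)
        (fun j => mm j.val) j
      have hbj := hb j.val
      rw [htot, hbj] at h1
      have h2 := hprev j
      have h3 := hmm j.val
      have h4 := hΛa j.val
      have h5 : a j.val * Λ = Λ * a j.val := mul_comm _ _
      omega
    rcases Nat.le_total (r * (Λ + q)) (q * P) with hc | hc
    · -- all loads are at most `P`
      rw [min_eq_left hc]
      have hrP : r ≤ P := by
        by_contra hcon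
        push Not at hcon
        have h1 : (P + 1) * (Λ + q) ≤ q * P := (Nat.mul_le_mul_right _ hcon).trans hc
        nlinarith
      have h1 : ∀ j : Fin q, min P (load (Λ + 1) (fun j => a j.val - 3 * mm j.val)
          (fun j => mm j.val) j) + X j.val = r + X (j.val + 1) := by
        intro j
        have h2 := hload j
        have h3 : X (j.val + 1) ≤ X j.val + (P - r) := by
          rw [hX, hX, ← Nat.add_mul_div_left _ _ hq0]
          apply Nat.div_le_div_right
          obtain ⟨H, rfl⟩ : ∃ H, P = r + H := ⟨P - r, by omega⟩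
          rw [Nat.add_sub_cancel_left]
          have e1 : (j.val + 1) * (r * Λ) = j.val * (r * Λ) + r * Λ := by ring
          have e2 : r * (Λ + q) = r * Λ + q * r := by ring
          have e3 : q * (r + H) = q * r + q * H := by ring
          omega
        rw [min_eq_right (by omega)]
        exact h2
      have h4 : ∑ j : Fin q, min P (load (Λ + 1) (fun j => a j.val - 3 * mm j.val)
          (fun j => mm j.val) j) + ∑ j : Fin q, X j.val = q * r + ∑ j : Fin q, X (j.val + 1) := by
        rw [← Finset.sum_add_distrib, Finset.sum_congr rfl fun j _ => h1 j,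
          Finset.sum_add_distrib]
        simp
      rw [Fin.sum_univ_eq_sum_range (fun j => X j), Fin.sum_univ_eq_sum_range (fun j => X (j + 1))]
        at h4
      have h5 : ∑ j ∈ Finset.range q, X (j + 1) + X 0 = ∑ j ∈ Finset.range q, X j + X q := by
        rw [← Finset.sum_range_succ, ← Finset.sum_range_succ']
      rw [hX0, hXq] at h5
      have e2 : r * (Λ + q) = r * Λ + q * r := by ring
      omega
    · -- all loads are at least `P`
      rw [min_eq_right hc]
      have h1 : ∀ j : Fin q, P ≤ min P (load (Λ + 1) (fun j => a j.val - 3 * mm j.val)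
          (fun j => mm j.val) j) := by
        intro j
        have h2 := hload j
        refine le_min le_rfl ?_
        rcases Nat.le_total P r with hPr | hPr
        · have := hXm j.val
          omega
        · have h3 : X j.val + (P - r) ≤ X (j.val + 1) := by
            rw [hX, hX, ← Nat.add_mul_div_left _ _ hq0]
            apply Nat.div_le_div_right
            obtain ⟨H, rfl⟩ : ∃ H, P = r + H := ⟨P - r, by omega⟩
            rw [Nat.add_sub_cancel_left]
            have e1 : (j.val + 1) * (r * Λ) = j.val * (r * Λ) + r * Λ := by ring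
            have e2 : r * (Λ + q) = r * Λ + q * r := by ring
            have e3 : q * (r + H) = q * r + q * H := by ring
            omega
          omega
      have h2 := Finset.card_nsmul_le_sum (Finset.univ : Finset (Fin q)) _ P fun j _ => h1 j
      rw [Finset.card_univ, Fintype.card_fin, smul_eq_mul] at h2
      exact h2

end Pool.Agent.Lib.MP_635d71_ag
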