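import Mathlib
import Pool.Agent.Lib.MP_635d71_ag.Main
import Pool.Agent.Lib.MP_635d71_ag.Gadget

/-!
# Induction on the format, in two phases
-/

open Module Submodule

namespace Pool.Agent.Lib.MP_635d71_ag

variable {K : Type} [Field K]

/-- The last part of a multi-index. -/
def lastPart (z : List ℕ) : ∀ l : List ℕ, Grid (l ++ z) → Grid z
  | [], g => g
  | _ :: l, g => lastPart z l g.2

theorem card_le_of_lastPart (z : List ℕ) (W : Finset (Grid z)) :
    ∀ (l : List ℕ) (C : Finset (Grid (l ++ z))), (∀ g ∈ C, lastPart z l g ∈ W) →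
      C.card ≤ l.prod * W.card := by
  intro l
  induction l with
  | nil =>
    intro C hC
    rw [List.prod_nil, one_mul]
    exact Finset.card_le_card fun g hg => hC g hg
  | cons q l ih =>
    intro C hC
    rw [← sum_card_slice (l := l ++ z) C, List.prod_cons]
    refine (Finset.sum_le_card_nsmul _ _ (l.prod * W.card) fun j _ => ih _ fun g hg => ?_).trans ?_
    · have : ((j, g) : Grid (q :: (l ++ z))) ∈ C := by simpa [slice] using hg
      exact hC _ this
    · simp [mul_assoc]

theorem D_le_prod (l : List ℕ) (h : ∀ q ∈ l, 1 ≤ q) : D l ≤ l.prod := by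
  induction l with
  | nil => exact le_rfl
  | cons q l ih =>
    have h1 := ih fun q' hq' => h q' (List.mem_cons_of_mem _ hq')
    have h2 := h q List.mem_cons_self
    have h3 := one_le_D l
    rw [D, List.prod_cons]
    obtain ⟨q', rfl⟩ : ∃ q', q = q' + 1 := ⟨q - 1, by omega⟩
    rw [Nat.add_sub_cancel]
    have h4 : q' * 1 ≤ q' * l.prod := Nat.mul_le_mul_left _ (h3.trans h1)
    have h5 : (q' + 1) * l.prod = q' * l.prod + l.prod := by ring
    omega

theorem D_append (l z : List ℕ) : D (l ++ z) + 1 = D l + D z := by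
  induction l with
  | nil => simp [D, add_comm]
  | cons q l ih =>
    have : D ((q :: l) ++ z) = (q - 1) + D (l ++ z) := rfl
    rw [this, D]
    omega

/-- The room in a slice. -/
theorem room_aux (q b bj Δ PZ DZ : ℕ) (hq : 1 ≤ q) (h1 : (b - 1) * (2 * Δ + 1) ≤ 2 * (q * PZ))
    (h2 : q * bj ≤ b + (q - 1)) (hbj : bj ≤ b) (hDZ : 1 ≤ DZ) :
    (2 * Δ + 1) * (bj * DZ + (b - bj)) ≤ 2 * PZ * (DZ + (q - 1)) + DZ * (2 * Δ + 1) := by
  rcases Nat.eq_zero_or_pos b with h0 | h0
  · have : bj = 0 := by omega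
    subst this; subst h0; simp
  · obtain ⟨b', rfl⟩ : ∃ b', b = b' + 1 := ⟨b - 1, by omega⟩
    obtain ⟨q', rfl⟩ : ∃ q', q = q' + 1 := ⟨q - 1, by omega⟩
    obtain ⟨d', rfl⟩ : ∃ d', DZ = d' + 1 := ⟨DZ - 1, by omega⟩
    rw [Nat.add_sub_cancel] at h1 h2
    rw [Nat.add_sub_cancel]
    have e1 : bj * (d' + 1) + (b' + 1 - bj) = bj * d' + (b' + 1) := by
      rw [mul_add, mul_one]; omega
    rw [e1]
    have h3 : (q' + 1) * bj * d' ≤ (b' + 1 + q') * d' := Nat.mul_le_mul_right _ h2
    have h4 : (q' + 1) * ((2 * Δ + 1) * (bj * d' + (b' + 1))) ≤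
        (q' + 1) * (2 * PZ * (d' + 1 + q') + (d' + 1) * (2 * Δ + 1)) := by
      have h5 : (2 * Δ + 1) * ((q' + 1) * bj * d') ≤ (2 * Δ + 1) * ((b' + 1 + q') * d') :=
        Nat.mul_le_mul_left _ h3
      have h6 : (d' + 1 + q') * (b' * (2 * Δ + 1)) ≤ (d' + 1 + q') * (2 * ((q' + 1) * PZ)) :=
        Nat.mul_le_mul_left _ h1
      nlinarith [h5, h6]
    exact Nat.le_of_mul_le_mul_left h4 (by omega)

/-- First phase. -/
theorem flex_top [Infinite K] (z : List ℕ) (Δ : ℕ) (W : Finset (Grid z)) (hW : W.card ≤ D z)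
    (hz : (2 * Δ + 1) * (2 * D z + 1) ≤ z.prod)
    (base : ∀ b C, C ⊆ W → (b - 1) * (2 * Δ + 1) ≤ 2 * z.prod → Good K z b C) :
    ∀ (l : List ℕ) (b : ℕ) (C : Finset (Grid (l ++ z))), (∀ q ∈ l, 1 ≤ q) → D (l ++ z) ≤ Δ →
      (b - 1) * (2 * Δ + 1) ≤ 2 * (l ++ z).prod → (∀ g ∈ C, lastPart z l g ∈ W) →
      Good K (l ++ z) b C := by
  intro l
  induction l with
  | nil =>
    intro b C _ _ h1 h2
    exact base b C (fun g hg => h2 g hg) h1
  | cons q l ih =>
    intro b C hpos hD h1 h2
    have hq : 1 ≤ q := hpos q List.mem_cons_self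
    have hpos' : ∀ q' ∈ l, 1 ≤ q' := fun q' hq' => hpos q' (List.mem_cons_of_mem _ hq')
    obtain ⟨β, hβ, hβ2⟩ := exists_split q hq b
    have hprod : ((q :: l) ++ z).prod = q * (l ++ z).prod := by
      rw [List.cons_append, List.prod_cons]
    have hDc : D ((q :: l) ++ z) = (q - 1) + D (l ++ z) := rfl
    rw [hDc] at hD
    rw [hprod] at h1
    have key : Good K (q :: (l ++ z)) (∑ j, β j) C := by
      have hC' : ∀ j, ∀ g ∈ slice (l := l ++ z) C j, lastPart z l g ∈ W := by
        intro j g hg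
        have : ((j, g) : Grid (q :: (l ++ z))) ∈ C := by simpa [slice] using hg
        exact h2 _ this
      refine good_step (l ++ z) β C (fun j => ih (β j) _ hpos' (by omega) ?_ (hC' j))
        (fun j => ?_)
      · rcases Nat.eq_zero_or_pos (β j) with h0 | h0
        · rw [h0]; simp
        · obtain ⟨β', hβ'⟩ : ∃ β', β j = β' + 1 := ⟨β j - 1, by omega⟩
          rw [hβ', Nat.add_sub_cancel]
          have h3 := (hβ2 j).1
          rw [hβ', mul_add, mul_one] at h3
          have h4 : q * (β' * (2 * Δ + 1)) ≤ q * (2 * (l ++ z).prod) := by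
            calc q * (β' * (2 * Δ + 1)) = (q * β') * (2 * Δ + 1) := by ring
              _ ≤ (b - 1) * (2 * Δ + 1) := Nat.mul_le_mul_right _ (by omega)
              _ ≤ _ := h1.trans (le_of_eq (by ring))
          exact Nat.le_of_mul_le_mul_left h4 (by omega)
      · have hsum : ∑ j' ∈ Finset.univ.erase j, β j' + β j = b := by
          rw [Finset.sum_erase_add _ _ (Finset.mem_univ j), hβ]
        have hroom := room_aux q b (β j) Δ (l ++ z).prod (D (l ++ z)) hq h1 (hβ2 j).1
          (by omega) (one_le_D _)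
        have hcard : (slice (l := l ++ z) C j).card ≤ l.prod * D z :=
          (card_le_of_lastPart z W l _ (hC' j)).trans (Nat.mul_le_mul_left _ hW)
        have hDl := D_le_prod l hpos'
        have hDa := D_append l z
        have hlp := one_le_prod l hpos'
        have hpr : (l ++ z).prod = l.prod * z.prod := List.prod_append
        have h5 : (2 * Δ + 1) * ((slice (l := l ++ z) C j).card + D (l ++ z)) ≤ (l ++ z).prod := by
          rw [hpr]
          calc (2 * Δ + 1) * ((slice (l := l ++ z) C j).card + D (l ++ z))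
              ≤ (2 * Δ + 1) * (l.prod * (2 * D z + 1)) := by
                refine Nat.mul_le_mul_left _ ?_
                have h6 : 1 * D z ≤ l.prod * D z := Nat.mul_le_mul_right _ hlp
                have h7 : l.prod * (2 * D z + 1) = l.prod * D z + l.prod * D z + l.prod := by ring
                omega
            _ = l.prod * ((2 * Δ + 1) * (2 * D z + 1)) := by ring
            _ ≤ _ := Nat.mul_le_mul_left _ hz
        have h8 : 2 * (l ++ z).prod * (D (l ++ z) + (q - 1)) ≤ 2 * (l ++ z).prod * Δ :=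
          Nat.mul_le_mul_left _ (by omega)
        have h9 : b - β j = ∑ j' ∈ Finset.univ.erase j, β j' := by omega
        rw [h9] at hroom
        have h10 : (2 * Δ + 1) * ((slice (l := l ++ z) C j).card + β j * D (l ++ z) +
            ∑ j' ∈ Finset.univ.erase j, β j') ≤ (2 * Δ + 1) * (l ++ z).prod := by
          nlinarith [hroom, h5, h8]
        exact Nat.le_of_mul_le_mul_left h10 (by omega)
    rw [hβ] at key
    exact key

theorem four_D_le (l z : List ℕ) (h : ∀ q ∈ l, 1 ≤ q) (hz : 4 * D z ≤ z.prod) :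
    4 * D (l ++ z) ≤ (l ++ z).prod := by
  induction l with
  | nil => exact hz
  | cons q l ih =>
    have h1 := ih fun q' hq' => h q' (List.mem_cons_of_mem _ hq')
    have h2 := h q List.mem_cons_self
    have h3 := one_le_D (l ++ z)
    have h4 : D ((q :: l) ++ z) = (q - 1) + D (l ++ z) := rfl
    have h5 : ((q :: l) ++ z).prod = q * (l ++ z).prod := by
      rw [List.cons_append, List.prod_cons]
    rw [h4, h5]
    obtain ⟨q', rfl⟩ : ∃ q', q = q' + 1 := ⟨q - 1, by omega⟩
    rw [Nat.add_sub_cancel]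
    have h6 : q' * (4 * 1) ≤ q' * (l ++ z).prod := Nat.mul_le_mul_left _ (by omega)
    have h7 : (q' + 1) * (l ++ z).prod = q' * (l ++ z).prod + (l ++ z).prod := by ring
    omega

/-- Second phase. -/
theorem flex_bot [Infinite K] (z : List ℕ) (Δ : ℕ) (hz : 4 * D z ≤ z.prod)
    (base : ∀ b w C, C ⊆ Ball z w → (b - 1) * (2 * Δ + 1) ≤ 2 * z.prod → Good K z b C) :
    ∀ (l : List ℕ) (b : ℕ) (w : Grid (l ++ z)) (C : Finset (Grid (l ++ z))), (∀ q ∈ l, 1 ≤ q) →
      2 * D (l ++ z) ≤ Δ → (b - 1) * (2 * Δ + 1) ≤ 2 * (l ++ z).prod → C ⊆ Ball (l ++ z) w →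
      Good K (l ++ z) b C := by
  intro l
  induction l with
  | nil =>
    intro b w C _ _ h1 h2
    exact base b w C h2 h1
  | cons q l ih =>
    intro b w C hpos hD h1 h2
    have hq : 1 ≤ q := hpos q List.mem_cons_self
    have hpos' : ∀ q' ∈ l, 1 ≤ q' := fun q' hq' => hpos q' (List.mem_cons_of_mem _ hq')
    obtain ⟨β, hβ, hβ2⟩ := exists_split q hq b
    have hprod : ((q :: l) ++ z).prod = q * (l ++ z).prod := by
      rw [List.cons_append, List.prod_cons]
    have hDc : D ((q :: l) ++ z) = (q - 1) + D (l ++ z) := rfl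
    rw [hDc] at hD
    rw [hprod] at h1
    obtain ⟨j0, w⟩ := w
    have key : Good K (q :: (l ++ z)) (∑ j, β j) C := by
      have hC' : ∀ j, slice (l := l ++ z) C j ⊆ Ball (l ++ z) w := by
        intro j g hg
        have h3 : ((j, g) : Grid (q :: (l ++ z))) ∈ C := by simpa [slice] using hg
        have h4 : ((j, g) : Grid (q :: (l ++ z))) ∈ Ball (q :: (l ++ z)) (j0, w) := h2 h3
        rw [mem_Ball_cons] at h4
        rcases h4 with h4 | h4
        · exact h4.2
        · rw [h4]; exact self_mem_Ball _ _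
      refine good_step (l ++ z) β C (fun j => ih (β j) w _ hpos' (by omega) ?_ (hC' j))
        (fun j => ?_)
      · rcases Nat.eq_zero_or_pos (β j) with h0 | h0
        · rw [h0]; simp
        · obtain ⟨β', hβ'⟩ : ∃ β', β j = β' + 1 := ⟨β j - 1, by omega⟩
          rw [hβ', Nat.add_sub_cancel]
          have h3 := (hβ2 j).1
          rw [hβ', mul_add, mul_one] at h3
          have h4 : q * (β' * (2 * Δ + 1)) ≤ q * (2 * (l ++ z).prod) := by
            calc q * (β' * (2 * Δ + 1)) = (q * β') * (2 * Δ + 1) := by ring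
              _ ≤ (b - 1) * (2 * Δ + 1) := Nat.mul_le_mul_right _ (by omega)
              _ ≤ _ := h1.trans (le_of_eq (by ring))
          exact Nat.le_of_mul_le_mul_left h4 (by omega)
      · have hsum : ∑ j' ∈ Finset.univ.erase j, β j' + β j = b := by
          rw [Finset.sum_erase_add _ _ (Finset.mem_univ j), hβ]
        have hroom := room_aux q b (β j) Δ (l ++ z).prod (D (l ++ z)) hq h1 (hβ2 j).1
          (by omega) (one_le_D _)
        have hcard : (slice (l := l ++ z) C j).card ≤ D (l ++ z) :=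
          (Finset.card_le_card (hC' j)).trans (card_Ball_le _ _)
        have h4 := four_D_le l z hpos' hz
        have h8 : (l ++ z).prod * (4 * (D (l ++ z) + (q - 1))) ≤ (l ++ z).prod * (2 * Δ + 1) :=
          Nat.mul_le_mul_left _ (by omega)
        have h9 : b - β j = ∑ j' ∈ Finset.univ.erase j, β j' := by omega
        rw [h9] at hroom
        have h11 : (2 * Δ + 1) * ((slice (l := l ++ z) C j).card) ≤ (2 * Δ + 1) * D (l ++ z) :=
          Nat.mul_le_mul_left _ hcard
        have h12 : (2 * Δ + 1) * (4 * D (l ++ z)) ≤ (2 * Δ + 1) * (l ++ z).prod :=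
          Nat.mul_le_mul_left _ h4
        have h10 : (2 * Δ + 1) * ((slice (l := l ++ z) C j).card + β j * D (l ++ z) +
            ∑ j' ∈ Finset.univ.erase j, β j') ≤ (2 * Δ + 1) * (l ++ z).prod := by
          nlinarith [hroom, h8, h11, h12]
        exact Nat.le_of_mul_le_mul_left h10 (by omega)
    rw [hβ] at key
    exact key

end Pool.Agent.Lib.MP_635d71_ag
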