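import Mathlib
import Pool.Agent.Lib.MP_635d71_ag.Gadget

/-!
# Gadgets at arbitrary positions, with small supports
-/

open Module Submodule

namespace Pool.Agent.Lib.MP_635d71_ag

variable {K : Type} [Field K]

/-- Supports of a product tensor and of its tangent space. -/
def HasSupp (l : List ℕ) (x : Coord l → K) (S : Finset (Grid l)) : Prop :=
  E l x ∈ coordSub K S ∧ T l x ≤ coordSub K (S.biUnion (Ball l))

theorem hasSupp_cpt (l : List ℕ) (g : Grid l) : HasSupp l (cpt l g : Coord l → K) {g} := by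
  refine ⟨?_, ?_⟩
  · rw [E_cpt]
    intro h hh
    rw [Finset.mem_singleton] at hh
    rw [Pi.single_eq_of_ne hh]
  · rw [T_cpt, Finset.singleton_biUnion]

/-- Product of supports. -/
def prodSupp {q : ℕ} {l : List ℕ} (U : Finset (Fin q)) (S : Finset (Grid l)) : Finset (Grid (q :: l)) :=
  U ×ˢ S

theorem mem_prodSupp {q : ℕ} {l : List ℕ} (U : Finset (Fin q)) (S : Finset (Grid l)) (j : Fin q)
    (g : Grid l) : ((j, g) : Grid (q :: l)) ∈ prodSupp U S ↔ j ∈ U ∧ g ∈ S := Finset.mem_product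

theorem hasSupp_cons {q : ℕ} {l : List ℕ} {x : Coord l → K} {S : Finset (Grid l)}
    (h : HasSupp l x S) (u : Fin q → K) (U : Finset (Fin q)) (hu : ∀ j, j ∉ U → u j = 0)
    (hU : U.Nonempty) : HasSupp (q :: l) (cons u x) (prodSupp U S) := by
  obtain ⟨h1, h2⟩ := h
  refine ⟨?_, ?_⟩
  · rintro ⟨j, g⟩ hg
    rw [mem_prodSupp, not_and_or] at hg
    change u j * E l x g = 0
    rcases hg with hg | hg
    · rw [hu j hg, zero_mul]
    · rw [h1 g hg, mul_zero]
  · rw [T, span_le]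
    rintro _ ⟨i | i, rfl⟩
    · rintro ⟨j, g⟩ hg
      change u j * TVec l x i g = 0
      by_cases hj : j ∈ U
      · have h3 : TVec l x i ∈ T l x := subset_span ⟨i, rfl⟩
        rw [h2 h3 g ?_, mul_zero]
        intro hg'
        apply hg
        obtain ⟨s, hs, hs'⟩ := Finset.mem_biUnion.1 hg'
        refine Finset.mem_biUnion.2 ⟨(j, s), (mem_prodSupp _ _ _ _).2 ⟨hj, hs⟩, ?_⟩
        rw [mem_Ball_cons]
        exact Or.inl ⟨rfl, hs'⟩
      · rw [hu j hj, zero_mul]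
    · rintro ⟨j, g⟩ hg
      change (Pi.single i (1 : K) : Fin q → K) j * E l x g = 0
      rw [h1 g ?_, mul_zero]
      intro hg'
      apply hg
      obtain ⟨j', hj'⟩ := hU
      refine Finset.mem_biUnion.2 ⟨(j', g), (mem_prodSupp _ _ _ _).2 ⟨hj', hg'⟩, ?_⟩
      rw [mem_Ball_cons]
      exact Or.inr rfl

/-- Transport along a bijection of the multi-indices. -/
def Rel (l : List ℕ) (e : Grid l ≃ Grid l) (x y : Coord l → K) : Prop :=
  E l y = E l x ∘ e ∧ (T l x).map (LinearMap.funLeft K K e) ≤ T l y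

theorem rel_refl (l : List ℕ) (x : Coord l → K) : Rel l (Equiv.refl _) x x := by
  refine ⟨rfl, ?_⟩
  rintro _ ⟨f, hf, rfl⟩
  exact hf

theorem rel_cons {q : ℕ} {l : List ℕ} {e : Grid l ≃ Grid l} {x y : Coord l → K} (h : Rel l e x y)
    (σ : Fin q ≃ Fin q) (u u' : Fin q → K) (hu : ∀ j, u' j = u (σ j)) :
    Rel (q :: l) (σ.prodCongr e) (cons u x) (cons u' y) := by
  obtain ⟨h1, h2⟩ := h
  refine ⟨?_, ?_⟩
  · ext ⟨j, g⟩
    change u' j * E l y g = u (σ j) * E l x (e g)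
    rw [hu, h1]; rfl
  · rw [T, Submodule.map_span_le]
    rintro _ ⟨i | i, rfl⟩
    · have h3 : LinearMap.funLeft K K e (TVec l x i) ∈ T l y := h2 ⟨_, subset_span ⟨i, rfl⟩, rfl⟩
      have h4 := ten_mem_T (cons u' y) h3
      convert h4 using 1
      ext ⟨j, g⟩
      change u (σ j) * TVec l x i (e g) = u' j * TVec l x i (e g)
      rw [hu]
    · have h4 := ten_E_mem_T (cons u' y) (Pi.single (σ.symm i) 1)
      convert h4 using 1
      ext ⟨j, g⟩
      change (Pi.single i (1 : K) : Fin q → K) (σ j) * E l x (e g) =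
        (Pi.single (σ.symm i) (1 : K) : Fin q → K) j * E l y g
      rw [h1]
      change _ = _ * E l x (e g)
      congr 1
      by_cases hj : σ j = i
      · have : j = σ.symm i := by rw [← hj, Equiv.symm_apply_apply]
        rw [hj, Pi.single_eq_same, this, Pi.single_eq_same]
      · have : j ≠ σ.symm i := fun h => hj (by rw [h, Equiv.apply_symm_apply])
        rw [Pi.single_eq_of_ne hj, Pi.single_eq_of_ne this]

section main

variable (v1 v2 v3 v4 : ℕ) (R : List ℕ)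

/-- The six words of a gadget. -/
def wrd (c : Fin 6) (g : Grid ((v1 + 2) :: (v2 + 2) :: (v3 + 2) :: (v4 + 2) :: R)) :
    Grid ((v1 + 2) :: (v2 + 2) :: (v3 + 2) :: (v4 + 2) :: R) :=
  (g.1 + (![0, 1, 1, 1, 1, 1] : Fin 6 → Fin (v1 + 2)) c,
    g.2.1 + (![0, 1, 1, 1, 1, 0] : Fin 6 → Fin (v2 + 2)) c,
    g.2.2.1 + (![0, 0, 0, 1, 1, 1] : Fin 6 → Fin (v3 + 2)) c,
    g.2.2.2.1 + (![0, 0, 1, 0, 1, 1] : Fin 6 → Fin (v4 + 2)) c, g.2.2.2.2)

theorem wrd_injective (c : Fin 6) : Function.Injective (wrd v1 v2 v3 v4 R c) := by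
  rintro ⟨a1, a2, a3, a4, a⟩ ⟨b1, b2, b3, b4, b⟩ h
  simp only [wrd, Prod.mk.injEq, add_left_inj] at h
  obtain ⟨rfl, rfl, rfl, rfl, rfl⟩ := h
  rfl

/-- The support of the gadget. -/
def sup6 (g : Grid ((v1 + 2) :: (v2 + 2) :: (v3 + 2) :: (v4 + 2) :: R)) :
    Finset (Grid ((v1 + 2) :: (v2 + 2) :: (v3 + 2) :: (v4 + 2) :: R)) :=
  Finset.univ.biUnion fun c => Ball _ (wrd v1 v2 v3 v4 R c g)

theorem Ball_le_sup6 (c : Fin 6) (g h : Grid ((v1 + 2) :: (v2 + 2) :: (v3 + 2) :: (v4 + 2) :: R))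
    (hc : h = wrd v1 v2 v3 v4 R c g) : Ball _ h ⊆ sup6 v1 v2 v3 v4 R g := by
  rw [hc]
  exact Finset.subset_biUnion_of_mem (fun c => Ball _ (wrd v1 v2 v3 v4 R c g)) (Finset.mem_univ c)

variable (g1 : Fin (v1 + 2)) (g2 : Fin (v2 + 2)) (g3 : Fin (v3 + 2)) (g4 : Fin (v4 + 2)) (w : Grid R)

/-- The second point of the gadget. -/
def gsB (K : Type) [Field K] : Coord ((v1 + 2) :: (v2 + 2) :: (v3 + 2) :: (v4 + 2) :: R) → K :=
  cons (Pi.single (g1 + 1) 1) (cons (Pi.single (g2 + 1) 1)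
    (cons (Pi.single g3 1 + Pi.single (g3 + 1) 1) (cons (Pi.single g4 1 + Pi.single (g4 + 1) 1)
      (cpt R w))))

theorem supp_gsB : T _ (gsB v1 v2 v3 v4 R g1 g2 g3 g4 w K) ≤
    coordSub K (sup6 v1 v2 v3 v4 R (g1, g2, g3, g4, w)) := by
  have hs : ∀ {n : ℕ} (a j : Fin n), j ∉ ({a} : Finset (Fin n)) →
      (Pi.single a (1 : K) : Fin n → K) j = 0 := by
    intro n a j hj
    rw [Finset.mem_singleton] at hj
    exact Pi.single_eq_of_ne hj _
  have hd : ∀ {n : ℕ} (a b j : Fin n), j ∉ ({a, b} : Finset (Fin n)) →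
      (Pi.single a (1 : K) + Pi.single b 1 : Fin n → K) j = 0 := by
    intro n a b j hj
    simp only [Finset.mem_insert, Finset.mem_singleton, not_or] at hj
    rw [Pi.add_apply, Pi.single_eq_of_ne hj.1, Pi.single_eq_of_ne hj.2, add_zero]
  have k0 := hasSupp_cpt (K := K) R w
  have k1 := hasSupp_cons k0 (Pi.single g4 1 + Pi.single (g4 + 1) 1) {g4, g4 + 1}
    (hd _ _) ⟨g4, by simp⟩
  have k2 := hasSupp_cons k1 (Pi.single g3 1 + Pi.single (g3 + 1) 1) {g3, g3 + 1}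
    (hd _ _) ⟨g3, by simp⟩
  have k3 := hasSupp_cons k2 (Pi.single (g2 + 1) 1) {g2 + 1} (hs _) ⟨g2 + 1, by simp⟩
  have h := hasSupp_cons k3 (Pi.single (g1 + 1) 1) {g1 + 1} (hs _) ⟨g1 + 1, by simp⟩
  refine h.2.trans (coordSub_mono ?_)
  rw [Finset.biUnion_subset]
  rintro ⟨a1, a2, a3, a4, a⟩ ha
  rw [mem_prodSupp, mem_prodSupp, mem_prodSupp, mem_prodSupp] at ha
  simp only [Finset.mem_insert, Finset.mem_singleton] at ha
  obtain ⟨rfl, rfl, h3, h4, rfl⟩ := ha
  rcases h3 with rfl | rfl <;> rcases h4 with rfl | rfl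
  · exact Ball_le_sup6 v1 v2 v3 v4 R 1 _ _ (by simp [wrd])
  · exact Ball_le_sup6 v1 v2 v3 v4 R 2 _ _ (by simp [wrd])
  · exact Ball_le_sup6 v1 v2 v3 v4 R 3 _ _ (by simp [wrd])
  · exact Ball_le_sup6 v1 v2 v3 v4 R 4 _ _ (by simp [wrd])

/-- Translation of a coordinate. -/
def rot {v : ℕ} (a : Fin (v + 2)) : Fin (v + 2) ≃ Fin (v + 2) where
  toFun := fun j => j - a
  invFun := fun j => j + a
  left_inv := fun j => sub_add_cancel j a
  right_inv := fun j => add_sub_cancel_right j a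

theorem single_rot {v : ℕ} (a c j : Fin (v + 2)) : (Pi.single (a + c) (1 : K) : Fin (v + 2) → K) j =
    (Pi.single c (1 : K) : Fin (v + 2) → K) (rot a j) := by
  by_cases h : j = a + c
  · have : rot a j = c := by rw [h]; exact add_sub_cancel_left a c
    rw [h, Pi.single_eq_same, ← h, this, Pi.single_eq_same]
  · have : rot a j ≠ c := fun h' => h (by rw [← h']; exact (add_sub_cancel a j).symm)
    rw [Pi.single_eq_of_ne h, Pi.single_eq_of_ne this]

/-- The translation. -/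
def rotE : Grid ((v1 + 2) :: (v2 + 2) :: (v3 + 2) :: (v4 + 2) :: R) ≃
    Grid ((v1 + 2) :: (v2 + 2) :: (v3 + 2) :: (v4 + 2) :: R) :=
  (rot g1).prodCongr ((rot g2).prodCongr ((rot g3).prodCongr ((rot g4).prodCongr (Equiv.refl _))))

theorem rel_gy : Rel _ (rotE v1 v2 v3 v4 R g1 g2 g3 g4) (gy v1 v2 v3 v4 R w K)
    (cpt ((v1 + 2) :: (v2 + 2) :: (v3 + 2) :: (v4 + 2) :: R) (g1, g2, g3, g4, w)) := by
  have h : ∀ {v : ℕ} (a j : Fin (v + 2)), (Pi.single a (1 : K) : Fin (v + 2) → K) j =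
      (Pi.single 0 (1 : K) : Fin (v + 2) → K) (rot a j) := fun a j => by
    rw [← single_rot, add_zero]
  exact rel_cons (rel_cons (rel_cons (rel_cons (rel_refl R (cpt R w)) (rot g4) _ _ (h g4)) (rot g3) _ _
    (h g3)) (rot g2) _ _ (h g2)) (rot g1) _ _ (h g1)

theorem rel_gt : Rel _ (rotE v1 v2 v3 v4 R g1 g2 g3 g4) (gt v1 v2 v3 v4 R w K)
    (cpt ((v1 + 2) :: (v2 + 2) :: (v3 + 2) :: (v4 + 2) :: R) (g1 + 1, g2, g3 + 1, g4 + 1, w)) := by
  have h : ∀ {v : ℕ} (a j : Fin (v + 2)), (Pi.single a (1 : K) : Fin (v + 2) → K) j =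
      (Pi.single 0 (1 : K) : Fin (v + 2) → K) (rot a j) := fun a j => by
    rw [← single_rot, add_zero]
  exact rel_cons (rel_cons (rel_cons (rel_cons (rel_refl R (cpt R w)) (rot g4) _ _ (single_rot g4 1))
    (rot g3) _ _ (single_rot g3 1)) (rot g2) _ _ (h g2)) (rot g1) _ _ (single_rot g1 1)

theorem rel_gs : Rel _ (rotE v1 v2 v3 v4 R g1 g2 g3 g4) (gs v1 v2 v3 v4 R w K)
    (gsB v1 v2 v3 v4 R g1 g2 g3 g4 w K) := by
  have h : ∀ {v : ℕ} (a j : Fin (v + 2)), (Pi.single a (1 : K) + Pi.single (a + 1) 1 :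
      Fin (v + 2) → K) j = xv K v (rot a j) := fun a j => by
    rw [xv, Pi.add_apply, Pi.add_apply, ← single_rot, ← single_rot, add_zero]
  exact rel_cons (rel_cons (rel_cons (rel_cons (rel_refl R (cpt R w)) (rot g4) _ _ (h g4))
    (rot g3) _ _ (h g3)) (rot g2) _ _ (single_rot g2 1)) (rot g1) _ _ (single_rot g1 1)

theorem finrank_map_funLeft {G : Type} (e : G ≃ G) (S : Submodule K (G → K)) :
    finrank K ↥(S.map (LinearMap.funLeft K K e)) = finrank K S :=
  ((Submodule.equivMapOfInjective _ (LinearMap.funLeft_injective_of_surjective K K e e.surjective)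
    S).finrank_eq).symm

/-- The gadget at an arbitrary position. -/
theorem exists_gadgetB (g : Grid ((v1 + 2) :: (v2 + 2) :: (v3 + 2) :: (v4 + 2) :: R)) :
    Nonempty (Gadget K ((v1 + 2) :: (v2 + 2) :: (v3 + 2) :: (v4 + 2) :: R)
      (sup6 v1 v2 v3 v4 R g)) := by
  obtain ⟨g1, g2, g3, g4, w⟩ := g
  obtain ⟨G, hy, hs, ht⟩ := exists_gadget_pts (K := K) v1 v2 v3 v4 R w
  obtain ⟨ry1, ry2⟩ := rel_gy (K := K) v1 v2 v3 v4 R g1 g2 g3 g4 w
  obtain ⟨rs1, rs2⟩ := rel_gs (K := K) v1 v2 v3 v4 R g1 g2 g3 g4 w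
  obtain ⟨rt1, rt2⟩ := rel_gt (K := K) v1 v2 v3 v4 R g1 g2 g3 g4 w
  rw [← hy] at ry1 ry2
  rw [← hs] at rs1 rs2
  rw [← ht] at rt1 rt2
  refine ⟨{ y := cpt _ (g1, g2, g3, g4, w)
            s := gsB v1 v2 v3 v4 R g1 g2 g3 g4 w K
            t := cpt _ (g1 + 1, g2, g3 + 1, g4 + 1, w)
            ν := LinearMap.funLeft K K (rotE v1 v2 v3 v4 R g1 g2 g3 g4) G.ν
            hy := ?_
            hs := supp_gsB v1 v2 v3 v4 R g1 g2 g3 g4 w
            ht := ?_
            hνy := ry2 ⟨_, G.hνy, rfl⟩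
            hνst := ?_
            h4 := ?_
            hT := ?_ }⟩
  · rw [T_cpt]
    exact coordSub_mono (Ball_le_sup6 v1 v2 v3 v4 R 0 _ _ (by simp [wrd]))
  · rw [T_cpt]
    exact coordSub_mono (Ball_le_sup6 v1 v2 v3 v4 R 5 _ _ (by simp [wrd]))
  · have h1 : (T _ G.s ⊔ T _ G.t).map (LinearMap.funLeft K K (rotE v1 v2 v3 v4 R g1 g2 g3 g4)) ≤
        T _ (gsB v1 v2 v3 v4 R g1 g2 g3 g4 w K) ⊔ T _ (cpt _ (g1 + 1, g2, g3 + 1, g4 + 1, w)) := by
      rw [Submodule.map_sup]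
      exact sup_le_sup rs2 rt2
    exact h1 ⟨_, G.hνst, rfl⟩
  · refine G.h4.trans ?_
    rw [← finrank_map_funLeft (rotE v1 v2 v3 v4 R g1 g2 g3 g4)]
    apply Submodule.finrank_mono
    rw [Submodule.map_span_le]
    rintro _ (rfl | rfl | rfl | rfl)
    · apply subset_span; left; exact ry1.symm
    · apply subset_span; right; left; exact rs1.symm
    · apply subset_span; right; right; left; exact rt1.symm
    · apply subset_span; right; right; right; rfl
  · refine G.hT.trans ?_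
    rw [← finrank_map_funLeft (rotE v1 v2 v3 v4 R g1 g2 g3 g4)]
    refine Nat.add_le_add_right (Submodule.finrank_mono ?_) 1
    rw [Submodule.map_sup, Submodule.map_sup]
    exact sup_le_sup (sup_le_sup ry2 rs2) rt2

/-- Greedy packing of gadgets. -/
theorem exists_packing6 (b : ℕ)
    (h : 36 * b * D ((v1 + 2) :: (v2 + 2) :: (v3 + 2) :: (v4 + 2) :: R) ^ 2 ≤
      ((v1 + 2) :: (v2 + 2) :: (v3 + 2) :: (v4 + 2) :: R).prod) :
    ∃ γ : Fin b → Grid ((v1 + 2) :: (v2 + 2) :: (v3 + 2) :: (v4 + 2) :: R),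
      ∀ a a', a ≠ a' → Disjoint (sup6 v1 v2 v3 v4 R (γ a)) (sup6 v1 v2 v3 v4 R (γ a')) := by
  classical
  set l := (v1 + 2) :: (v2 + 2) :: (v3 + 2) :: (v4 + 2) :: R with hl
  have hD := one_le_D l
  have hsup : ∀ g, (sup6 v1 v2 v3 v4 R g).card ≤ 6 * D l := by
    intro g
    refine Finset.card_biUnion_le.trans ?_
    refine (Finset.sum_le_card_nsmul _ _ (D l) (fun c _ => card_Ball_le l _)).trans ?_
    simp
  induction b with
  | zero => exact ⟨fun i => i.elim0, fun i => i.elim0⟩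
  | succ b ih =>
    obtain ⟨γ, h2⟩ := ih (le_trans (Nat.mul_le_mul_right _ (Nat.mul_le_mul_left _ (Nat.le_succ b))) h)
    let U : Finset (Grid l) := Finset.univ.biUnion (fun a => sup6 v1 v2 v3 v4 R (γ a))
    have hU : U.card ≤ b * (6 * D l) := by
      refine Finset.card_biUnion_le.trans ?_
      refine (Finset.sum_le_card_nsmul _ _ (6 * D l) (fun a _ => hsup (γ a))).trans ?_
      simp
    let V : Finset (Grid l) := U.biUnion (fun g => Ball l g)
    have hV : V.card ≤ b * (6 * D l) * D l := by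
      refine (Finset.card_biUnion_le.trans
        (Finset.sum_le_card_nsmul _ _ (D l) (fun a _ => card_Ball_le l a))).trans ?_
      rw [smul_eq_mul]
      exact Nat.mul_le_mul_right _ hU
    let B : Finset (Grid l) := (Finset.univ : Finset (Fin 6)).biUnion fun c =>
      Finset.univ.filter fun g => wrd v1 v2 v3 v4 R c g ∈ V
    have hB : B.card < Fintype.card (Grid l) := by
      have h3 : ∀ c ∈ (Finset.univ : Finset (Fin 6)),
          (Finset.univ.filter fun g => wrd v1 v2 v3 v4 R c g ∈ V).card ≤ V.card := fun c _ =>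
        Finset.card_le_card_of_injOn (wrd v1 v2 v3 v4 R c) (fun g hg => (Finset.mem_filter.1 hg).2)
          (fun _ _ _ _ h => wrd_injective v1 v2 v3 v4 R c h)
      have h4 : B.card ≤ 6 * V.card := by
        refine Finset.card_biUnion_le.trans ?_
        refine (Finset.sum_le_card_nsmul _ _ V.card h3).trans ?_
        simp
      refine lt_of_le_of_lt h4 ?_
      rw [card_grid]
      refine lt_of_lt_of_le ?_ h
      have h5 : 0 < D l * D l := Nat.mul_pos hD hD
      calc 6 * V.card ≤ 6 * (b * (6 * D l) * D l) := Nat.mul_le_mul_left _ hV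
        _ = 36 * b * (D l * D l) := by ring
        _ < 36 * b * (D l * D l) + 36 * (D l * D l) := by omega
        _ = 36 * (b + 1) * D l ^ 2 := by ring
    obtain ⟨g, hg⟩ : ∃ g, g ∉ B := by
      by_contra hcon
      push Not at hcon
      have : B = Finset.univ := Finset.eq_univ_iff_forall.2 hcon
      rw [this, Finset.card_univ] at hB
      exact lt_irrefl _ hB
    have hg' : Disjoint (sup6 v1 v2 v3 v4 R g) U := by
      rw [Finset.disjoint_left]
      intro u hu hu'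
      obtain ⟨c, _, hc⟩ := Finset.mem_biUnion.1 hu
      refine hg (Finset.mem_biUnion.2 ⟨c, Finset.mem_univ _, Finset.mem_filter.2
        ⟨Finset.mem_univ _, ?_⟩⟩)
      exact Finset.mem_biUnion.2 ⟨u, hu', (mem_Ball_comm l _ u).2 hc⟩
    refine ⟨Fin.cons g γ, ?_⟩
    have h3 : ∀ a, Disjoint (sup6 v1 v2 v3 v4 R g) (sup6 v1 v2 v3 v4 R (γ a)) := fun a =>
      Finset.disjoint_of_subset_right (fun x hx =>
        (Finset.mem_biUnion.2 ⟨a, Finset.mem_univ _, hx⟩ : x ∈ U)) hg'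
    intro a a'
    refine Fin.cases ?_ (fun a => ?_) a
    · refine Fin.cases (fun h => absurd rfl h) (fun a' _ => ?_) a'
      rw [Fin.cons_zero, Fin.cons_succ]; exact h3 a'
    · refine Fin.cases (fun _ => ?_) (fun a' h => ?_) a'
      · rw [Fin.cons_zero, Fin.cons_succ]; exact (h3 a).symm
      · rw [Fin.cons_succ, Fin.cons_succ]
        exact h2 a a' (fun h' => h (by rw [h']))

end main

end Pool.Agent.Lib.MP_635d71_ag
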