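import Mathlib
import Pool.Agent.Lib.MP_635d71_ag.ArithB
import Pool.Agent.Lib.MP_635d71_ag.FlexB
import Pool.Agent.Lib.MP_635d71_ag.GadgetB
import Pool.Agent.Lib.MP_635d71_ag.AllR

/-!
# The criterion
-/

open Module Submodule

namespace Pool.Agent.Lib.MP_635d71_ag

variable {K : Type} [Field K]

/-- Concatenation of multi-indices. -/
def app (z : List ℕ) : ∀ l : List ℕ, Grid l → Grid z → Grid (l ++ z)
  | [], _, g => g
  | _ :: l, h, g => (h.1, app z l h.2 g)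

/-- The first part of a multi-index. -/
def firstPart (z : List ℕ) : ∀ l : List ℕ, Grid (l ++ z) → Grid l
  | [], _ => ()
  | _ :: l, g => (g.1, firstPart z l g.2)

theorem firstPart_app (z : List ℕ) : ∀ (l : List ℕ) (h : Grid l) (g : Grid z),
    firstPart z l (app z l h g) = h
  | [], _, _ => rfl
  | _ :: l, h, g => Prod.ext rfl (firstPart_app z l h.2 g)

theorem lastPart_app (z : List ℕ) : ∀ (l : List ℕ) (h : Grid l) (g : Grid z),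
    lastPart z l (app z l h g) = g
  | [], _, _ => rfl
  | _ :: l, h, g => lastPart_app z l h.2 g

theorem mem_Ball_app (z : List ℕ) : ∀ (l : List ℕ) (h : Grid l) (g : Grid z) (x : Grid (l ++ z)),
    x ∈ Ball (l ++ z) (app z l h g) → firstPart z l x ∈ Ball l h ∧ lastPart z l x ∈ Ball z g := by
  intro l
  induction l with
  | nil => intro h g x hx; exact ⟨mem_Ball_nil _ _, hx⟩
  | cons q l ih =>
    rintro ⟨j, h⟩ g ⟨j', x⟩ hx
    have hx' : ((j', x) : Grid (q :: (l ++ z))) ∈ Ball (q :: (l ++ z)) (j, app z l h g) := hx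
    rw [mem_Ball_cons] at hx'
    change ((j', firstPart z l x) : Grid (q :: l)) ∈ Ball (q :: l) (j, h) ∧ lastPart z l x ∈ Ball z g
    rw [mem_Ball_cons]
    rcases hx' with ⟨h1, h2⟩ | h1
    · obtain ⟨h3, h4⟩ := ih h g x h2
      exact ⟨Or.inl ⟨h1, h3⟩, h4⟩
    · rw [h1, firstPart_app, lastPart_app]
      exact ⟨Or.inr rfl, self_mem_Ball _ _⟩

theorem wrd_app (v1 v2 v3 v4 : ℕ) (R z : List ℕ) (c : Fin 6)
    (h : Grid ((v1 + 2) :: (v2 + 2) :: (v3 + 2) :: (v4 + 2) :: R)) (g : Grid z) :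
    wrd v1 v2 v3 v4 (R ++ z) c (app z ((v1 + 2) :: (v2 + 2) :: (v3 + 2) :: (v4 + 2) :: R) h g) =
      app z ((v1 + 2) :: (v2 + 2) :: (v3 + 2) :: (v4 + 2) :: R) (wrd v1 v2 v3 v4 R c h) g := rfl

theorem mem_sup6_app (v1 v2 v3 v4 : ℕ) (R z : List ℕ)
    (h : Grid ((v1 + 2) :: (v2 + 2) :: (v3 + 2) :: (v4 + 2) :: R)) (g : Grid z)
    (x : Grid (((v1 + 2) :: (v2 + 2) :: (v3 + 2) :: (v4 + 2) :: R) ++ z))
    (hx : x ∈ sup6 v1 v2 v3 v4 (R ++ z)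
      (app z ((v1 + 2) :: (v2 + 2) :: (v3 + 2) :: (v4 + 2) :: R) h g)) :
    firstPart z ((v1 + 2) :: (v2 + 2) :: (v3 + 2) :: (v4 + 2) :: R) x ∈ sup6 v1 v2 v3 v4 R h ∧
      lastPart z ((v1 + 2) :: (v2 + 2) :: (v3 + 2) :: (v4 + 2) :: R) x ∈ Ball z g := by
  obtain ⟨c, _, hc⟩ := Finset.mem_biUnion.1 hx
  rw [wrd_app] at hc
  obtain ⟨h1, h2⟩ := mem_Ball_app z _ _ _ _ hc
  exact ⟨Finset.mem_biUnion.2 ⟨c, Finset.mem_univ _, h1⟩, h2⟩

theorem nonempty_grid (l : List ℕ) (h : ∀ a ∈ l, 1 ≤ a) : Nonempty (Grid l) := by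
  rw [← Fintype.card_pos_iff, card_grid]
  exact one_le_prod l h

/-- Packing with fixed entries in some factors. -/
theorem exists_packing6' (v1 v2 v3 v4 : ℕ) (R O : List ℕ) (hO : ∀ a ∈ O, 1 ≤ a) (b : ℕ)
    (h : 36 * b * D ((v1 + 2) :: (v2 + 2) :: (v3 + 2) :: (v4 + 2) :: R) ^ 2 ≤
      ((v1 + 2) :: (v2 + 2) :: (v3 + 2) :: (v4 + 2) :: R).prod) :
    ∃ γ : Fin b → Grid ((v1 + 2) :: (v2 + 2) :: (v3 + 2) :: (v4 + 2) :: (R ++ O)),
      ∀ a a', a ≠ a' →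
        Disjoint (sup6 v1 v2 v3 v4 (R ++ O) (γ a)) (sup6 v1 v2 v3 v4 (R ++ O) (γ a')) := by
  obtain ⟨γ, hγ⟩ := exists_packing6 v1 v2 v3 v4 R b h
  obtain ⟨o⟩ := nonempty_grid O hO
  refine ⟨fun a => app O ((v1 + 2) :: (v2 + 2) :: (v3 + 2) :: (v4 + 2) :: R) (γ a) o, ?_⟩
  intro a a' hne
  rw [Finset.disjoint_left]
  intro x hx hx'
  have h1 := (mem_sup6_app v1 v2 v3 v4 R O _ o x hx).1
  have h2 := (mem_sup6_app v1 v2 v3 v4 R O _ o x hx').1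
  exact (Finset.disjoint_left.1 (hγ _ _ hne)) h1 h2

/-- The criterion, near the critical rank. -/
theorem reach_closeB [Infinite K] (q v1 v2 v3 v4 Λ : ℕ) (R O M z : List ℕ) (hq : 2 ≤ q)
    (hR : ∀ a ∈ R, 1 ≤ a) (hO : ∀ a ∈ O, 1 ≤ a) (hM : ∀ a ∈ M, 1 ≤ a) (hz : ∀ a ∈ z, 1 ≤ a) (hΛ1 : 1 ≤ Λ)
    (hΛ : D ((v1 + 2) :: (v2 + 2) :: (v3 + 2) :: (v4 + 2) :: ((R ++ O) ++ (M ++ z))) = Λ + 1)
    (hP : (3 * Λ + 1) * (Λ + q) ≤
      ((v1 + 2) :: (v2 + 2) :: (v3 + 2) :: (v4 + 2) :: ((R ++ O) ++ (M ++ z))).prod)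
    (hpack : 36 * (q * Λ) * D ((v1 + 2) :: (v2 + 2) :: (v3 + 2) :: (v4 + 2) :: R) ^ 2 ≤
      ((v1 + 2) :: (v2 + 2) :: (v3 + 2) :: (v4 + 2) :: R).prod)
    (hZ1 : (2 * (Λ + 1) + 1) * (2 * D (M ++ z) + 1) ≤ (M ++ z).prod)
    (hZ2 : 2 * D (M ++ z) ≤ Λ + 1) (h4 : 4 * D z ≤ z.prod)
    (base : ∀ b w C, C ⊆ Ball z w → (b - 1) * (2 * (Λ + 1) + 1) ≤ 2 * z.prod → Good K z b C)
    (r : ℕ) (hr1 : r * (Λ + q) ≤
      q * ((v1 + 2) :: (v2 + 2) :: (v3 + 2) :: (v4 + 2) :: ((R ++ O) ++ (M ++ z))).prod + (Λ + q))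
    (hr2 : q * ((v1 + 2) :: (v2 + 2) :: (v3 + 2) :: (v4 + 2) :: ((R ++ O) ++ (M ++ z))).prod ≤
      r * (Λ + q) + (Λ + q)) :
    Reach K (q :: (v1 + 2) :: (v2 + 2) :: (v3 + 2) :: (v4 + 2) :: ((R ++ O) ++ (M ++ z))) r
      (min (r * (Λ + q))
        (q * ((v1 + 2) :: (v2 + 2) :: (v3 + 2) :: (v4 + 2) :: ((R ++ O) ++ (M ++ z))).prod)) := by
  classical
  obtain ⟨b, m, hbm, hm, hb1, hload⟩ := arithB q Λ
    ((v1 + 2) :: (v2 + 2) :: (v3 + 2) :: (v4 + 2) :: ((R ++ O) ++ (M ++ z))).prod r hq hΛ1 hr1 hr2 hP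
  obtain ⟨w⟩ := nonempty_grid (M ++ z) (fun a ha => (List.mem_append.1 ha).elim (hM a) (hz a))
  obtain ⟨γ, hγ⟩ := exists_packing6' v1 v2 v3 v4 R O hO (∑ j, m j) (by
    refine le_trans ?_ hpack
    exact Nat.mul_le_mul_right _ (Nat.mul_le_mul_left _ hm))
  let l : List ℕ := (v1 + 2) :: (v2 + 2) :: (v3 + 2) :: (v4 + 2) :: (R ++ O)
  let A : (Σ j, Fin (m j)) → Finset (Grid (l ++ (M ++ z))) := fun i =>
    sup6 v1 v2 v3 v4 ((R ++ O) ++ (M ++ z)) (app (M ++ z) l (γ (finSigmaFinEquiv i)) w)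
  have hA : ∀ i i', i ≠ i' → Disjoint (A i) (A i') := by
    intro i i' hne
    rw [Finset.disjoint_left]
    intro x hx hx'
    have h1 := (mem_sup6_app v1 v2 v3 v4 (R ++ O) (M ++ z) _ w x hx).1
    have h2 := (mem_sup6_app v1 v2 v3 v4 (R ++ O) (M ++ z) _ w x hx').1
    exact (Finset.disjoint_left.1 (hγ _ _ fun h => hne (finSigmaFinEquiv.injective h))) h1 h2
  have gad : ∀ i, Gadget K (l ++ (M ++ z)) (A i) := fun i =>
    Classical.choice (exists_gadgetB v1 v2 v3 v4 ((R ++ O) ++ (M ++ z))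
      (app (M ++ z) l (γ (finSigmaFinEquiv i)) w))
  have hl : ∀ a ∈ l, 1 ≤ a := by
    intro a ha
    simp only [l, List.mem_cons] at ha
    rcases ha with rfl | rfl | rfl | rfl | ha
    · omega
    · omega
    · omega
    · omega
    · exact (List.mem_append.1 ha).elim (hR a) (hO a)
  have hG : ∀ j, Good K (l ++ (M ++ z)) (b j) (Finset.univ.biUnion A) := by
    intro j
    refine flex_top (M ++ z) (Λ + 1) (Ball (M ++ z) w) (card_Ball_le _ _) hZ1 ?_ l (b j) _ hl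
      (le_of_eq hΛ) (hb1 j) ?_
    · intro b C hC hb
      exact flex_bot z (Λ + 1) h4 base M b w C hM hZ2 hb hC
    · intro g hg
      obtain ⟨i, _, hi⟩ := Finset.mem_biUnion.1 hg
      exact (mem_sup6_app v1 v2 v3 v4 (R ++ O) (M ++ z) _ w g hi).2
  have key := assembly (l ++ (M ++ z)) b m A hA gad hG
  rw [hbm] at key
  have hDl : D (l ++ (M ++ z)) = Λ + 1 := hΛ
  rw [hDl] at key
  exact key.mono hload

end Pool.Agent.Lib.MP_635d71_ag
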