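import Mathlib
import Pool.Agent.Lib.MP_635d71_ag.MainB
import Pool.Agent.Lib.MP_635d71_ag.Eps

/-!
# Tuples on a concatenation of formats
-/

open Module Submodule

namespace Pool.Agent.Lib.MP_635d71_ag

variable {K : Type} [Field K]

/-- Concatenation of tuples. -/
def capp (z : List ℕ) : ∀ l : List ℕ, (Coord l → K) → (Coord z → K) → Coord (l ++ z) → K
  | [], _, y => y
  | _ :: l, x, y => cons (hd x) (capp z l (tl x) y)

/-- Product of tensors on a concatenation. -/
def tapp (z l : List ℕ) (f : Grid l → K) (h : Grid z → K) : Grid (l ++ z) → K :=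
  fun g => f (firstPart z l g) * h (lastPart z l g)

theorem tapp_cons (z : List ℕ) {q : ℕ} (l : List ℕ) (u : Fin q → K) (f : Grid l → K)
    (h : Grid z → K) : (tapp z (q :: l) (ten u f) h : Grid (q :: (l ++ z)) → K) =
      ten u (tapp z l f h) := by
  funext g
  change u g.1 * f (firstPart z l g.2) * h (lastPart z l g.2) =
    u g.1 * (f (firstPart z l g.2) * h (lastPart z l g.2))
  ring

theorem tapp_nil (z : List ℕ) (x : Coord [] → K) (h : Grid z → K) :
    (tapp z [] (E [] x) h : Grid z → K) = h := by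
  funext g
  change (1 : K) * h g = h g
  ring

theorem E_capp (z : List ℕ) : ∀ (l : List ℕ) (x : Coord l → K) (y : Coord z → K),
    E (l ++ z) (capp z l x y) = tapp z l (E l x) (E z y)
  | [], x, y => (tapp_nil z x _).symm
  | q :: l, x, y => by
    have h : E ((q :: l) ++ z) (capp z (q :: l) x y) =
        ten (hd x) (E (l ++ z) (capp z l (tl x) y)) := rfl
    rw [h, E_capp z l]
    exact (tapp_cons z l (hd x) _ _).symm

theorem tapp_mem_T (z : List ℕ) : ∀ (l : List ℕ) (x : Coord l → K) (y : Coord z → K)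
    (f : Grid z → K), f ∈ T z y → tapp z l (E l x) f ∈ T (l ++ z) (capp z l x y)
  | [], x, y, f, hf => by
    rw [tapp_nil]
    exact hf
  | q :: l, x, y, f, hf => by
    have h1 := tapp_mem_T z l (tl x) y f hf
    have h2 : tapp z (q :: l) (E (q :: l) x) f = ten (hd x) (tapp z l (E l (tl x)) f) :=
      tapp_cons z l (hd x) _ _
    rw [h2]
    exact ten_mem_T (q := q) (l := l ++ z) (cons (hd x) (capp z l (tl x) y)) h1

theorem capp_add (z : List ℕ) : ∀ (l : List ℕ) (x x' : Coord l → K) (y y' : Coord z → K),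
    capp z l (x + x') (y + y') = capp z l x y + capp z l x' y'
  | [], _, _, _, _ => rfl
  | q :: l, x, x', y, y' => by
    have h := capp_add z l (tl x) (tl x') y y'
    funext c
    rcases c with c | c
    · rfl
    · exact congrFun h c

theorem capp_smul (z : List ℕ) (a : K) : ∀ (l : List ℕ) (x : Coord l → K) (y : Coord z → K),
    capp z l (a • x) (a • y) = a • capp z l x y
  | [], _, _ => rfl
  | q :: l, x, y => by
    have h := capp_smul z a l (tl x) y
    funext c
    rcases c with c | c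
    · rfl
    · exact congrFun h c

theorem cpt_app (z : List ℕ) : ∀ (l : List ℕ) (o : Grid l) (g : Grid z),
    (cpt (l ++ z) (app z l o g) : Coord (l ++ z) → K) = capp z l (cpt l o) (cpt z g)
  | [], _, _ => rfl
  | q :: l, o, g => by
    have h := cpt_app z l o.2 g
    change cons (Pi.single o.1 1) (cpt (l ++ z) (app z l o.2 g)) =
      cons (Pi.single o.1 1) (capp z l (cpt l o.2) (cpt z g))
    rw [h]

theorem app_parts (z : List ℕ) : ∀ (l : List ℕ) (x : Grid (l ++ z)),
    app z l (firstPart z l x) (lastPart z l x) = x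
  | [], _ => rfl
  | _ :: l, x => Prod.ext rfl (app_parts z l x.2)

theorem eq_app_iff (z l : List ℕ) (h : Grid l) (g : Grid z) (x : Grid (l ++ z)) :
    x = app z l h g ↔ firstPart z l x = h ∧ lastPart z l x = g := by
  constructor
  · rintro rfl
    exact ⟨firstPart_app _ _ _ _, lastPart_app _ _ _ _⟩
  · rintro ⟨rfl, rfl⟩
    exact (app_parts z l x).symm

theorem mem_Ball_app' (z : List ℕ) : ∀ (l : List ℕ) (h : Grid l) (g : Grid z) (x : Grid (l ++ z)),
    x ∈ Ball (l ++ z) (app z l h g) ↔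
      (firstPart z l x = h ∧ lastPart z l x ∈ Ball z g) ∨
        (firstPart z l x ∈ Ball l h ∧ lastPart z l x = g) := by
  intro l
  induction l with
  | nil =>
    intro h g x
    constructor
    · intro hx; exact Or.inl ⟨rfl, hx⟩
    · rintro (⟨_, hx⟩ | ⟨_, hx⟩)
      · exact hx
      · change x = g at hx
        rw [hx]
        exact self_mem_Ball _ _
  | cons q l ih =>
    rintro ⟨j, h⟩ g ⟨j', x⟩
    change ((j', x) : Grid (q :: (l ++ z))) ∈ Ball (q :: (l ++ z)) (j, app z l h g) ↔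
      (((j', firstPart z l x) : Grid (q :: l)) = (j, h) ∧ lastPart z l x ∈ Ball z g) ∨
        (((j', firstPart z l x) : Grid (q :: l)) ∈ Ball (q :: l) (j, h) ∧ lastPart z l x = g)
    rw [mem_Ball_cons, mem_Ball_cons, ih, Prod.mk.injEq]
    rw [eq_app_iff]
    have h0 := self_mem_Ball l h
    constructor
    · rintro (⟨rfl, (⟨h1, h2⟩ | ⟨h1, h2⟩)⟩ | ⟨h1, h2⟩)
      · exact Or.inl ⟨⟨rfl, h1⟩, h2⟩
      · exact Or.inr ⟨Or.inl ⟨rfl, h1⟩, h2⟩
      · exact Or.inr ⟨Or.inr h1, h2⟩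
    · rintro (⟨⟨h1, h2⟩, h3⟩ | ⟨(⟨h1, h2⟩ | h1), h3⟩)
      · exact Or.inl ⟨h1, Or.inl ⟨h2, h3⟩⟩
      · exact Or.inl ⟨h1, Or.inr ⟨h2, h3⟩⟩
      · exact Or.inr ⟨h1, h3⟩

variable {s1 s2 s3 : ℕ}

/-- A tuple of three vectors. -/
def pt (z : Fin s3 → K) (x : Fin s1 → K) (y : Fin s2 → K) : Coord [s3, s1, s2] → K :=
  cons z (cons x (cons y (fun e : Empty => e.elim)))

/-- A tuple on `O ++ [s3, s1, s2]`. -/
def pw (O : List ℕ) (ζ : Coord O → K) (z : Fin s3 → K) (x : Fin s1 → K) (y : Fin s2 → K) :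
    Coord (O ++ [s3, s1, s2]) → K := capp [s3, s1, s2] O ζ (pt z x y)

/-- A cell of `O ++ [s3, s1, s2]`. -/
def cell (O : List ℕ) (o : Grid O) (z : Fin s3) (a : Fin s1) (b : Fin s2) :
    Grid (O ++ [s3, s1, s2]) := app [s3, s1, s2] O o (z, a, b, ())

theorem E_pt (z : Fin s3 → K) (x : Fin s1 → K) (y : Fin s2 → K) (g : Grid [s3, s1, s2]) :
    E [s3, s1, s2] (pt z x y) g = z g.1 * x g.2.1 * y g.2.2.1 := by
  change z g.1 * (x g.2.1 * (y g.2.2.1 * 1)) = _
  ring

theorem E_pw (O : List ℕ) (ζ : Coord O → K) (z : Fin s3 → K) (x : Fin s1 → K) (y : Fin s2 → K)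
    (g : Grid (O ++ [s3, s1, s2])) :
    E _ (pw O ζ z x y) g = E O ζ (firstPart [s3, s1, s2] O g) *
      (z (lastPart [s3, s1, s2] O g).1 * x (lastPart [s3, s1, s2] O g).2.1 *
        y (lastPart [s3, s1, s2] O g).2.2.1) := by
  rw [pw, E_capp, tapp, E_pt]

theorem E_pw_add (O : List ℕ) (ζ : Coord O → K) (z : Fin s3 → K) (x x' : Fin s1 → K)
    (y : Fin s2 → K) : E _ (pw O ζ z (x + x') y) = E _ (pw O ζ z x y) + E _ (pw O ζ z x' y) := by
  funext g
  rw [Pi.add_apply, E_pw, E_pw, E_pw, Pi.add_apply]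
  ring

theorem E_pw_smul (O : List ℕ) (ζ : Coord O → K) (z : Fin s3 → K) (a : K) (x : Fin s1 → K)
    (y : Fin s2 → K) : E _ (pw O ζ z (a • x) y) = a • E _ (pw O ζ z x y) := by
  funext g
  rw [Pi.smul_apply, E_pw, E_pw, Pi.smul_apply, smul_eq_mul, smul_eq_mul]
  ring

theorem E_pt_mem_y (z : Fin s3 → K) (x : Fin s1 → K) (y y' : Fin s2 → K) :
    E [s3, s1, s2] (pt z x y') ∈ T [s3, s1, s2] (pt z x y) := by
  have h1 : E [s2] (cons y' (fun e : Empty => e.elim) : Coord [s2] → K) ∈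
      T [s2] (cons y (fun e : Empty => e.elim)) :=
    ten_E_mem_T (q := s2) (l := []) (cons y (fun e : Empty => e.elim)) y'
  have h2 := ten_mem_T (q := s1) (l := [s2]) (cons x (cons y (fun e : Empty => e.elim))) h1
  exact ten_mem_T (q := s3) (l := [s1, s2])
    (cons z (cons x (cons y (fun e : Empty => e.elim)))) h2

theorem E_pt_mem_x (z : Fin s3 → K) (x x' : Fin s1 → K) (y : Fin s2 → K) :
    E [s3, s1, s2] (pt z x' y) ∈ T [s3, s1, s2] (pt z x y) := by
  have h1 : E [s1, s2] (cons x' (cons y (fun e : Empty => e.elim)) : Coord [s1, s2] → K) ∈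
      T [s1, s2] (cons x (cons y (fun e : Empty => e.elim))) :=
    ten_E_mem_T (q := s1) (l := [s2]) (cons x (cons y (fun e : Empty => e.elim))) x'
  exact ten_mem_T (q := s3) (l := [s1, s2])
    (cons z (cons x (cons y (fun e : Empty => e.elim)))) h1

theorem E_pw_mem_y (O : List ℕ) (ζ : Coord O → K) (z : Fin s3 → K) (x : Fin s1 → K)
    (y y' : Fin s2 → K) : E _ (pw O ζ z x y') ∈ T _ (pw O ζ z x y) := by
  rw [pw, pw, E_capp]
  exact tapp_mem_T _ O ζ _ _ (E_pt_mem_y z x y y')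

theorem E_pw_mem_x (O : List ℕ) (ζ : Coord O → K) (z : Fin s3 → K) (x x' : Fin s1 → K)
    (y : Fin s2 → K) : E _ (pw O ζ z x' y) ∈ T _ (pw O ζ z x y) := by
  rw [pw, pw, E_capp]
  exact tapp_mem_T _ O ζ _ _ (E_pt_mem_x z x x' y)

theorem pt_single (z : Fin s3) (a : Fin s1) (b : Fin s2) :
    (pt (Pi.single z 1) (Pi.single a 1) (Pi.single b 1) : Coord [s3, s1, s2] → K) =
      cpt [s3, s1, s2] (z, a, b, ()) := by
  funext c
  rcases c with c | c | c | c
  · rfl
  · rfl
  · rfl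
  · exact c.elim

theorem pw_single (O : List ℕ) (o : Grid O) (z : Fin s3) (a : Fin s1) (b : Fin s2) :
    (pw O (cpt O o) (Pi.single z 1) (Pi.single a 1) (Pi.single b 1) :
      Coord (O ++ [s3, s1, s2]) → K) = cpt _ (cell O o z a b) := by
  rw [pw, pt_single, cell, cpt_app]

theorem E_pw_single (O : List ℕ) (o : Grid O) (z : Fin s3) (a : Fin s1) (b : Fin s2) :
    (E _ (pw O (cpt O o) (Pi.single z 1) (Pi.single a 1) (Pi.single b 1)) :
      Grid (O ++ [s3, s1, s2]) → K) = Pi.single (cell O o z a b) 1 := by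
  rw [pw_single, E_cpt]

theorem T_pw_single (O : List ℕ) (o : Grid O) (z : Fin s3) (a : Fin s1) (b : Fin s2) :
    T _ (pw O (cpt O o) (Pi.single z 1) (Pi.single a 1) (Pi.single b 1) :
      Coord (O ++ [s3, s1, s2]) → K) = coordSub K (Ball _ (cell O o z a b)) := by
  rw [pw_single, T_cpt]

end Pool.Agent.Lib.MP_635d71_ag
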