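import Mathlib

/-!
# Arithmetic for three factors
-/

namespace Pool.Agent.Lib.MP_635d71_ag

theorem arith_core (q N P r : ℕ) (hN : 1 ≤ N) (X T : ℕ → ℕ) (hT0 : T 0 = 0)
    (hTq : T q = r) (hXq : X q = r * N) (h1 : ∀ m, X m ≤ N * T m)
    (h2 : ∀ m, N * T m < X m + 2 * N) (hev : ∀ m, Even (N * T m - X m))
    (hm : ∀ m, T m ≤ T (m + 1))
    (hup : ∀ m, q * (N * T (m + 1)) ≤ q * (N * T m) + (r * N + 3 * q * N))
    (hlo : ∀ m, q * (N * T m) + r * N ≤ q * (N * T (m + 1)) + 3 * q * N)
    (hL : (∀ m, r + X (m + 1) ≤ P + X m) ∨ (∀ m, P + X m ≤ r + X (m + 1))) :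
    ∃ t e : ℕ → ℕ, e 0 = 0 ∧ e q = 0 ∧ ∑ i ∈ Finset.range q, t i = r ∧ (∀ i, Even (e i)) ∧
      (∀ i, e i < 2 * N) ∧ (∀ i, q * t i ≤ r + 3 * q) ∧ (∀ i, r ≤ q * t i + 3 * q) ∧
      ((∀ i, r + N * t i + e i ≤ P + e (i + 1)) ∨ (∀ i, P + e (i + 1) ≤ r + N * t i + e i)) := by
  have ht : ∀ i, N * (T (i + 1) - T i) + N * T i = N * T (i + 1) := fun i => by
    rw [← mul_add, Nat.sub_add_cancel (hm i)]
  refine ⟨fun i => T (i + 1) - T i, fun i => N * T i - X i, ?_, ?_, ?_, hev, ?_, ?_, ?_, ?_⟩
  · simp [hT0]
  · simp only [hTq, hXq]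
    rw [mul_comm]; exact Nat.sub_self _
  · rw [Finset.sum_range_tsub (monotone_nat_of_le_succ hm), hTq, hT0, Nat.sub_zero]
  · intro i
    have := h1 i
    have := h2 i
    dsimp only
    omega
  · intro i
    have h3 := hup i
    have h4 : N * (q * (T (i + 1) - T i)) ≤ N * (r + 3 * q) := by
      have e1 : N * (q * (T (i + 1) - T i)) = q * (N * (T (i + 1) - T i)) := by ring
      have e2 : N * (r + 3 * q) = r * N + 3 * q * N := by ring
      have e3 : q * (N * (T (i + 1) - T i)) + q * (N * T i) = q * (N * T (i + 1)) := by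
        rw [← mul_add, ht i]
      omega
    exact Nat.le_of_mul_le_mul_left h4 hN
  · intro i
    have h3 := hlo i
    have h4 : N * r ≤ N * (q * (T (i + 1) - T i) + 3 * q) := by
      have e1 : N * (q * (T (i + 1) - T i) + 3 * q) = q * (N * (T (i + 1) - T i)) + 3 * q * N := by
        ring
      have e2 : N * r = r * N := mul_comm _ _
      have e3 : q * (N * (T (i + 1) - T i)) + q * (N * T i) = q * (N * T (i + 1)) := by
        rw [← mul_add, ht i]
      omega
    exact Nat.le_of_mul_le_mul_left h4 hN
  · rcases hL with hL | hL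
    · left
      intro i
      have h3 := hL i
      have h4 := ht i
      have h5 := h1 i
      have h6 := h1 (i + 1)
      dsimp only
      omega
    · right
      intro i
      have h3 := hL i
      have h4 := ht i
      have h5 := h1 i
      have h6 := h1 (i + 1)
      dsimp only
      omega

/-- Distribution of the points among the slices. -/
theorem arith3 (q N P r : ℕ) (hq : 1 ≤ q) (hN : 1 ≤ N) (hr : r * (N + q) ≤ q * P ∨
      q * P ≤ r * (N + q))
    (hpar : Odd N ∨ Even (r + P) ∨ r * (N + q) + q ≤ q * P ∨ q * P + q ≤ r * (N + q))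
    (hbig : 3 * q ≤ r) :
    ∃ t e : ℕ → ℕ, e 0 = 0 ∧ e q = 0 ∧ ∑ i ∈ Finset.range q, t i = r ∧ (∀ i, Even (e i)) ∧
      (∀ i, e i < 2 * N) ∧ (∀ i, q * t i ≤ r + 3 * q) ∧ (∀ i, r ≤ q * t i + 3 * q) ∧
      ((∀ i, r + N * t i + e i ≤ P + e (i + 1)) ∨ (∀ i, P + e (i + 1) ≤ r + N * t i + e i)) := by
  have hfl : ∀ c m : ℕ, q * (m * c / q) ≤ m * c ∧ m * c + 1 ≤ q * (m * c / q) + q := fun c m => by
    have h1 := Nat.div_add_mod (m * c) q
    have h2 := Nat.mod_lt (m * c) (show 0 < q by omega)
    omega
  rcases Nat.even_or_odd N with hNe | hNo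
  · -- even case
    obtain ⟨M, hM⟩ := hNe
    have hM1 : 1 ≤ M := by omega
    obtain ⟨Z, hZ⟩ : ∃ Z : ℕ → ℕ, ∀ m, Z m = m * (r * M) / q := ⟨_, fun _ => rfl⟩
    have hZ1 : ∀ m, q * Z m ≤ m * (r * M) := fun m => by rw [hZ]; exact (hfl _ _).1
    have hZ2 : ∀ m, m * (r * M) + 1 ≤ q * Z m + q := fun m => by rw [hZ]; exact (hfl _ _).2
    obtain ⟨T, hT⟩ : ∃ T : ℕ → ℕ, ∀ m, T m = (2 * Z m + (N - 1)) / N := ⟨_, fun _ => rfl⟩
    have hT1 : ∀ m, 2 * Z m ≤ N * T m := fun m => by
      have h1 := Nat.div_add_mod (2 * Z m + (N - 1)) N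
      have h2 := Nat.mod_lt (2 * Z m + (N - 1)) (show 0 < N by omega)
      rw [hT]; omega
    have hT2 : ∀ m, N * T m + 1 ≤ 2 * Z m + N := fun m => by
      have h1 := Nat.div_add_mod (2 * Z m + (N - 1)) N
      rw [hT]; omega
    have hstep : ∀ m, (m + 1) * (r * M) = m * (r * M) + r * M := fun m => by ring
    have hrM : r * N = 2 * (r * M) := by rw [hM]; ring
    have hqN : q * N = 2 * (q * M) := by rw [hM]; ring
    have hqM : q * 1 ≤ q * M := Nat.mul_le_mul_left _ hM1
    have hrbig : 3 * q * N ≤ r * N := Nat.mul_le_mul_right _ hbig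
    have e3 : 3 * q * N = 3 * (q * N) := by ring
    refine arith_core q N P r hN (fun m => 2 * Z m) T ?_ ?_ ?_ hT1 ?_ ?_ ?_ ?_ ?_ ?_
    · have h1 : Z 0 = 0 := by rw [hZ]; simp
      have h2 := hT2 0
      rw [h1] at h2
      by_contra hcon
      have : N * 1 ≤ N * T 0 := Nat.mul_le_mul_left _ (by omega)
      omega
    · -- the last one
      have h1 := hT1 q
      have h2 := hT2 q
      have h3 : Z q = r * M := by rw [hZ]; exact Nat.mul_div_cancel_left _ (by omega)
      rw [h3, ← hrM] at h1 h2
      have h4 : N * r = r * N := mul_comm _ _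
      apply le_antisymm
      · have : N * T q < N * (r + 1) := by
          have : N * (r + 1) = r * N + N := by ring
          omega
        have := Nat.lt_of_mul_lt_mul_left this
        omega
      · exact Nat.le_of_mul_le_mul_left (by omega) (show 0 < N by omega)
    · have h3 : Z q = r * M := by rw [hZ]; exact Nat.mul_div_cancel_left _ (by omega)
      simp only [h3, hrM]
    · intro m
      have := hT2 m
      omega
    · intro m
      rw [Nat.even_sub (hT1 m)]
      refine iff_of_true ?_ (even_two_mul _)
      exact Even.mul_right ⟨M, hM⟩ _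
    · intro m
      have h1 := hT2 m
      have h2 := hT1 (m + 1)
      have h3 := hZ1 m
      have h4 := hZ2 (m + 1)
      rw [hstep] at h4
      have h5 : N * T m ≤ N * T (m + 1) := by
        have h6 : q * (2 * Z m + N) ≤ q * (2 * Z (m + 1)) := by
          have e1 : q * (2 * Z m + N) = 2 * (q * Z m) + q * N := by ring
          have e2 : q * (2 * Z (m + 1)) = 2 * (q * Z (m + 1)) := by ring
          omega
        have h7 := Nat.le_of_mul_le_mul_left h6 (show 0 < q by omega)
        omega
      exact Nat.le_of_mul_le_mul_left h5 (show 0 < N by omega)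
    · intro m
      have h1 := Nat.mul_le_mul_left q (hT2 (m + 1))
      have h2 := Nat.mul_le_mul_left q (hT1 m)
      have h3 := hZ2 m
      have h4 := hZ1 (m + 1)
      rw [hstep] at h4
      have e1 : q * (N * T (m + 1) + 1) = q * (N * T (m + 1)) + q := by ring
      have e2 : q * (2 * Z (m + 1) + N) = 2 * (q * Z (m + 1)) + q * N := by ring
      have e4 : q * (2 * Z m) = 2 * (q * Z m) := by ring
      omega
    · intro m
      have h1 := Nat.mul_le_mul_left q (hT2 m)
      have h2 := Nat.mul_le_mul_left q (hT1 (m + 1))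
      have h3 := hZ1 m
      have h4 := hZ2 (m + 1)
      rw [hstep] at h4
      have e1 : q * (N * T m + 1) = q * (N * T m) + q := by ring
      have e2 : q * (2 * Z m + N) = 2 * (q * Z m) + q * N := by ring
      have e4 : q * (2 * Z (m + 1)) = 2 * (q * Z (m + 1)) := by ring
      omega
    · -- the loads
      have hsplit : r * (N + q) = 2 * (r * M) + q * r := by rw [hM]; ring
      rw [hsplit] at hr
      have hodd : ¬ Odd N := by rw [Nat.not_odd_iff_even]; exact ⟨M, hM⟩
      have hpar2 := hpar.resolve_left hodd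
      rw [hsplit] at hpar2
      rcases hr with hr | hr
      · by_cases hx : 2 * (r * M) + q * r = q * P
        · -- exact
          have hk : Even (r + P) := by
            rcases hpar2 with h | h | h
            · exact h
            · omega
            · omega
          left
          intro m
          have h3 := hZ2 m
          have h4 := hZ1 (m + 1)
          rw [hstep] at h4
          obtain ⟨k, hk⟩ := hk
          by_contra hcon
          push Not at hcon
          have h5 : P + 2 * Z m + 2 ≤ r + 2 * Z (m + 1) := by omega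
          have h6 := Nat.mul_le_mul_left q h5
          have e1 : q * (P + 2 * Z m + 2) = q * P + 2 * (q * Z m) + 2 * q := by ring
          have e2 : q * (r + 2 * Z (m + 1)) = q * r + 2 * (q * Z (m + 1)) := by ring
          omega
        · left
          intro m
          have h3 := hZ2 m
          have h4 := hZ1 (m + 1)
          rw [hstep] at h4
          by_contra hcon
          push Not at hcon
          rcases hpar2 with ⟨k, hk⟩ | h | h
          · have h5 : P + 2 * Z m + 2 ≤ r + 2 * Z (m + 1) := by omega
            have h6 := Nat.mul_le_mul_left q h5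
            have e1 : q * (P + 2 * Z m + 2) = q * P + 2 * (q * Z m) + 2 * q := by ring
            have e2 : q * (r + 2 * Z (m + 1)) = q * r + 2 * (q * Z (m + 1)) := by ring
            omega
          · have h5 : P + 2 * Z m + 1 ≤ r + 2 * Z (m + 1) := by omega
            have h6 := Nat.mul_le_mul_left q h5
            have e1 : q * (P + 2 * Z m + 1) = q * P + 2 * (q * Z m) + q := by ring
            have e2 : q * (r + 2 * Z (m + 1)) = q * r + 2 * (q * Z (m + 1)) := by ring
            omega
          · omega
      · right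
        intro m
        have h3 := hZ1 m
        have h4 := hZ2 (m + 1)
        rw [hstep] at h4
        by_contra hcon
        push Not at hcon
        rcases hpar2 with ⟨k, hk⟩ | h | h
        · have h5 : r + 2 * Z (m + 1) + 2 ≤ P + 2 * Z m := by omega
          have h6 := Nat.mul_le_mul_left q h5
          have e1 : q * (P + 2 * Z m) = q * P + 2 * (q * Z m) := by ring
          have e2 : q * (r + 2 * Z (m + 1) + 2) = q * r + 2 * (q * Z (m + 1)) + 2 * q := by ring
          omega
        · omega
        · have h5 : r + 2 * Z (m + 1) + 1 ≤ P + 2 * Z m := by omega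
          have h6 := Nat.mul_le_mul_left q h5
          have e1 : q * (P + 2 * Z m) = q * P + 2 * (q * Z m) := by ring
          have e2 : q * (r + 2 * Z (m + 1) + 1) = q * r + 2 * (q * Z (m + 1)) + q := by ring
          omega
  · -- odd case
    obtain ⟨X, hX⟩ : ∃ X : ℕ → ℕ, ∀ m, X m = m * (r * N) / q := ⟨_, fun _ => rfl⟩
    have hX1 : ∀ m, q * X m ≤ m * (r * N) := fun m => by rw [hX]; exact (hfl _ _).1
    have hX2 : ∀ m, m * (r * N) + 1 ≤ q * X m + q := fun m => by rw [hX]; exact (hfl _ _).2
    have hXq : X q = r * N := by rw [hX]; exact Nat.mul_div_cancel_left _ (by omega)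
    have hX0 : X 0 = 0 := by rw [hX]; simp
    obtain ⟨T, hT⟩ : ∃ T : ℕ → ℕ, ∀ m, T m = X m % 2 +
      2 * ((X m - N * (X m % 2) + (2 * N - 1)) / (2 * N)) := ⟨_, fun _ => rfl⟩
    obtain ⟨N', hN'⟩ := hNo
    have hTmod : ∀ m, T m % 2 = X m % 2 := fun m => by rw [hT]; omega
    have hTN : ∀ m, X m ≤ N * T m ∧ N * T m < X m + 2 * N := fun m => by
      have h1 := Nat.div_add_mod (X m - N * (X m % 2) + (2 * N - 1)) (2 * N)
      have h2 := Nat.mod_lt (X m - N * (X m % 2) + (2 * N - 1)) (show 0 < 2 * N by omega)
      have h3 : N * T m = N * (X m % 2) +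
          2 * N * ((X m - N * (X m % 2) + (2 * N - 1)) / (2 * N)) := by
        rw [hT]; ring
      rcases Nat.mod_two_eq_zero_or_one (X m) with h4 | h4
      · rw [h4, mul_zero] at h1 h2 h3
        omega
      · rw [h4, mul_one] at h1 h2 h3
        by_cases hXN : X m < N
        · have h5 : (X m - N + (2 * N - 1)) / (2 * N) = 0 := Nat.div_eq_of_lt (by omega)
          rw [h5, mul_zero] at h3
          omega
        · omega
    have hev : ∀ m, Even (N * T m - X m) := fun m => by
      have h1 := hTmod m
      have h2 : (N * T m) % 2 = X m % 2 := by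
        rw [Nat.mul_mod, h1, show N % 2 = 1 by omega, one_mul, Nat.mod_mod]
      rw [Nat.even_sub (hTN m).1, Nat.even_iff, Nat.even_iff, h2]
    have hstep : ∀ m, (m + 1) * (r * N) = m * (r * N) + r * N := fun m => by ring
    have hrbig : 3 * q * N ≤ r * N := Nat.mul_le_mul_right _ hbig
    have e3 : 3 * q * N = 3 * (q * N) := by ring
    have hqN : q * 1 ≤ q * N := Nat.mul_le_mul_left _ hN
    refine arith_core q N P r hN X T ?_ ?_ hXq (fun m => (hTN m).1) (fun m => (hTN m).2) hev
      ?_ ?_ ?_ ?_
    · have h1 := (hTN 0).2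
      have h2 := hTmod 0
      rw [hX0] at h1 h2
      by_contra hcon
      have : N * 2 ≤ N * T 0 := Nat.mul_le_mul_left _ (by omega)
      omega
    · have h1 := hTN q
      have h2 := hTmod q
      rw [hXq] at h1 h2
      have h4 : N * r = r * N := mul_comm _ _
      have h5 : r ≤ T q := Nat.le_of_mul_le_mul_left (by omega) (show 0 < N by omega)
      have h6 : T q < r + 2 := by
        have : N * T q < N * (r + 2) := by
          have : N * (r + 2) = r * N + 2 * N := by ring
          omega
        exact Nat.lt_of_mul_lt_mul_left this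
      have h7 : (r * N) % 2 = r % 2 := by
        rw [Nat.mul_mod, show N % 2 = 1 by omega, mul_one, Nat.mod_mod]
      omega
    · intro m
      have h1 := (hTN m).2
      have h2 := (hTN (m + 1)).1
      have h3 := hX1 m
      have h4 := hX2 (m + 1)
      rw [hstep] at h4
      have h5 : N * T m ≤ N * T (m + 1) := by
        have h6 : q * (X m + 2 * N) ≤ q * (X (m + 1) + 1) := by
          have e1 : q * (X m + 2 * N) = q * X m + 2 * (q * N) := by ring
          have e2 : q * (X (m + 1) + 1) = q * X (m + 1) + q := by ring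
          omega
        have h7 := Nat.le_of_mul_le_mul_left h6 (show 0 < q by omega)
        omega
      exact Nat.le_of_mul_le_mul_left h5 (show 0 < N by omega)
    · intro m
      have h1 := Nat.mul_le_mul_left q (Nat.succ_le_of_lt (hTN (m + 1)).2)
      have h2 := Nat.mul_le_mul_left q (hTN m).1
      have h3 := hX2 m
      have h4 := hX1 (m + 1)
      rw [hstep] at h4
      have e1 : q * Nat.succ (N * T (m + 1)) = q * (N * T (m + 1)) + q := by
        rw [Nat.succ_eq_add_one]; ring
      have e2 : q * (X (m + 1) + 2 * N) = q * X (m + 1) + 2 * (q * N) := by ring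
      omega
    · intro m
      have h1 := Nat.mul_le_mul_left q (Nat.succ_le_of_lt (hTN m).2)
      have h2 := Nat.mul_le_mul_left q (hTN (m + 1)).1
      have h3 := hX1 m
      have h4 := hX2 (m + 1)
      rw [hstep] at h4
      have e1 : q * Nat.succ (N * T m) = q * (N * T m) + q := by
        rw [Nat.succ_eq_add_one]; ring
      have e2 : q * (X m + 2 * N) = q * X m + 2 * (q * N) := by ring
      omega
    · have hsplit : r * (N + q) = r * N + q * r := by ring
      rw [hsplit] at hr
      rcases hr with hr | hr
      · left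
        intro m
        have h3 := hX2 m
        have h4 := hX1 (m + 1)
        rw [hstep] at h4
        by_contra hcon
        push Not at hcon
        have h6 := Nat.mul_le_mul_left q (Nat.succ_le_of_lt hcon)
        have e1 : q * Nat.succ (P + X m) = q * P + q * X m + q := by
          rw [Nat.succ_eq_add_one]; ring
        have e2 : q * (r + X (m + 1)) = q * r + q * X (m + 1) := by ring
        omega
      · right
        intro m
        have h3 := hX1 m
        have h4 := hX2 (m + 1)
        rw [hstep] at h4
        by_contra hcon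
        push Not at hcon
        have h6 := Nat.mul_le_mul_left q (Nat.succ_le_of_lt hcon)
        have e1 : q * Nat.succ (r + X (m + 1)) = q * r + q * X (m + 1) + q := by
          rw [Nat.succ_eq_add_one]; ring
        have e2 : q * (P + X m) = q * P + q * X m := by ring
        omega

end Pool.Agent.Lib.MP_635d71_ag
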