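import Mathlib

/-!
# Arithmetic for at least four factors
-/

namespace Pool.Agent.Lib.MP_635d71_ag

theorem arith_core_ne (q N P r : ℕ) (hN : 1 ≤ N) (X T : ℕ → ℕ) (hT0 : T 0 = 0)
    (hTq : T q = r) (hXq : X q = r * N) (h1 : ∀ m, X m ≤ N * T m)
    (h2 : ∀ m, N * T m ≤ X m + N + 1) (hev : ∀ m, N * T m - X m ≠ 1)
    (hm : ∀ m, T m ≤ T (m + 1))
    (hup : ∀ m, q * (N * T (m + 1)) ≤ q * (N * T m) + (r * N + 3 * q * N))
    (hlo : ∀ m, q * (N * T m) + r * N ≤ q * (N * T (m + 1)) + 3 * q * N)
    (hL : (∀ m, r + X (m + 1) ≤ P + X m) ∨ (∀ m, P + X m ≤ r + X (m + 1))) :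
    ∃ t e : ℕ → ℕ, e 0 = 0 ∧ e q = 0 ∧ ∑ i ∈ Finset.range q, t i = r ∧ (∀ i, e i ≠ 1) ∧
      (∀ i, e i ≤ N + 1) ∧ (∀ i, q * t i ≤ r + 3 * q) ∧ (∀ i, r ≤ q * t i + 3 * q) ∧
      ((∀ i, r + N * t i + e i ≤ P + e (i + 1)) ∨ (∀ i, P + e (i + 1) ≤ r + N * t i + e i)) := by
  have ht : ∀ i, N * (T (i + 1) - T i) + N * T i = N * T (i + 1) := fun i => by
    rw [← mul_add, Nat.sub_add_cancel (hm i)]
  refine ⟨fun i => T (i + 1) - T i, fun i => N * T i - X i, ?_, ?_, ?_, hev, ?_, ?_, ?_, ?_⟩
  · simp [hT0]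
  · simp only [hTq, hXq]
    rw [mul_comm]; exact Nat.sub_self _
  · rw [Finset.sum_range_tsub (monotone_nat_of_le_succ hm), hTq, hT0, Nat.sub_zero]
  · intro i
    have := h1 i
    have := h2 i
    dsimp only
    omega
  · intro i
    have h3 := hup i
    have h4 : N * (q * (T (i + 1) - T i)) ≤ N * (r + 3 * q) := by
      have e1 : N * (q * (T (i + 1) - T i)) = q * (N * (T (i + 1) - T i)) := by ring
      have e2 : N * (r + 3 * q) = r * N + 3 * q * N := by ring
      have e3 : q * (N * (T (i + 1) - T i)) + q * (N * T i) = q * (N * T (i + 1)) := by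
        rw [← mul_add, ht i]
      omega
    exact Nat.le_of_mul_le_mul_left h4 hN
  · intro i
    have h3 := hlo i
    have h4 : N * r ≤ N * (q * (T (i + 1) - T i) + 3 * q) := by
      have e1 : N * (q * (T (i + 1) - T i) + 3 * q) = q * (N * (T (i + 1) - T i)) + 3 * q * N := by
        ring
      have e2 : N * r = r * N := mul_comm _ _
      have e3 : q * (N * (T (i + 1) - T i)) + q * (N * T i) = q * (N * T (i + 1)) := by
        rw [← mul_add, ht i]
      omega
    exact Nat.le_of_mul_le_mul_left h4 hN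
  · rcases hL with hL | hL
    · left
      intro i
      have h3 := hL i
      have h4 := ht i
      have h5 := h1 i
      have h6 := h1 (i + 1)
      dsimp only
      omega
    · right
      intro i
      have h3 := hL i
      have h4 := ht i
      have h5 := h1 i
      have h6 := h1 (i + 1)
      dsimp only
      omega

/-- Distribution of the points among the slices. -/
theorem arith_ne (q N P r : ℕ) (hq : 1 ≤ q) (hN : 2 ≤ N) (hbig : 4 * q ≤ r) :
    ∃ t e : ℕ → ℕ, e 0 = 0 ∧ e q = 0 ∧ ∑ i ∈ Finset.range q, t i = r ∧ (∀ i, e i ≠ 1) ∧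
      (∀ i, e i ≤ N + 1) ∧ (∀ i, q * t i ≤ r + 3 * q) ∧ (∀ i, r ≤ q * t i + 3 * q) ∧
      ((∀ i, r + N * t i + e i ≤ P + e (i + 1)) ∨ (∀ i, P + e (i + 1) ≤ r + N * t i + e i)) := by
  have hq0 : 0 < q := by omega
  have hN0 : 0 < N := by omega
  obtain ⟨X, hX⟩ : ∃ X : ℕ → ℕ, ∀ m, X m = m * (r * N) / q := ⟨_, fun _ => rfl⟩
  have hX1 : ∀ m, q * X m ≤ m * (r * N) := fun m => by rw [hX]; exact Nat.mul_div_le _ _
  have hX2 : ∀ m, m * (r * N) + 1 ≤ q * X m + q := fun m => by
    have h1 := Nat.div_add_mod (m * (r * N)) q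
    have h2 := Nat.mod_lt (m * (r * N)) hq0
    rw [hX]; omega
  have hX0 : X 0 = 0 := by rw [hX]; simp
  have hXq : X q = r * N := by rw [hX]; exact Nat.mul_div_cancel_left _ hq0
  obtain ⟨T0, hT0⟩ : ∃ T0 : ℕ → ℕ, ∀ m, T0 m = (X m + (N - 1)) / N := ⟨_, fun _ => rfl⟩
  have hT01 : ∀ m, X m ≤ N * T0 m := fun m => by
    have h1 := Nat.div_add_mod (X m + (N - 1)) N
    have h2 := Nat.mod_lt (X m + (N - 1)) hN0
    rw [hT0]; omega
  have hT02 : ∀ m, N * T0 m + 1 ≤ X m + N := fun m => by
    have h1 := Nat.div_add_mod (X m + (N - 1)) N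
    rw [hT0]; omega
  obtain ⟨T, hT⟩ : ∃ T : ℕ → ℕ, ∀ m, T m = if N * T0 m = X m + 1 then T0 m + 1 else T0 m :=
    ⟨_, fun _ => rfl⟩
  have hT1 : ∀ m, X m ≤ N * T m ∧ N * T m ≤ X m + N + 1 ∧ N * T m ≠ X m + 1 := fun m => by
    have h1 := hT01 m
    have h2 := hT02 m
    rw [hT]
    split_ifs with h
    · have h3 : N * (T0 m + 1) = N * T0 m + N := by ring
      omega
    · omega
  have hstep : ∀ m, (m + 1) * (r * N) = m * (r * N) + r * N := fun m => by ring
  have hrbig : q * (4 * N) ≤ r * N := by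
    have : 4 * q * N ≤ r * N := Nat.mul_le_mul_right _ hbig
    have e1 : q * (4 * N) = 4 * q * N := by ring
    omega
  refine arith_core_ne q N P r (by omega) X T ?_ ?_ hXq (fun m => (hT1 m).1) ?_ ?_ ?_ ?_ ?_ ?_
  · have h1 := hT02 0
    rw [hX0] at h1
    have h2 : T0 0 = 0 := by
      by_contra hcon
      have : N * 1 ≤ N * T0 0 := Nat.mul_le_mul_left _ (by omega)
      omega
    rw [hT, h2, hX0]
    simp
  · have h1 := hT01 q
    have h2 := hT02 q
    rw [hXq] at h1 h2
    have h4 : N * r = r * N := mul_comm _ _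
    have h5 : T0 q = r := by
      apply le_antisymm
      · have : N * T0 q < N * (r + 1) := by
          have : N * (r + 1) = r * N + N := by ring
          omega
        have := Nat.lt_of_mul_lt_mul_left this
        omega
      · exact Nat.le_of_mul_le_mul_left (by omega) hN0
    rw [hT, h5, hXq, if_neg]
    omega
  · intro m
    have := (hT1 m).2.1
    omega
  · intro m
    have := hT1 m
    omega
  · intro m
    have h1 := (hT1 m).2.1
    have h2 := (hT1 (m + 1)).1
    have h3 := hX1 m
    have h4 := hX2 (m + 1)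
    rw [hstep] at h4
    have h5 : N * T m ≤ N * T (m + 1) := by
      have h6 : q * (X m + N + 1) ≤ q * X (m + 1) := by
        have e1 : q * (X m + N + 1) = q * X m + q * (N + 1) := by ring
        have e2 : q * (N + 1) + q ≤ q * (4 * N) := by
          have : q * (N + 2) ≤ q * (4 * N) := Nat.mul_le_mul_left _ (by omega)
          have e3 : q * (N + 2) = q * (N + 1) + q := by ring
          omega
        omega
      have h7 := Nat.le_of_mul_le_mul_left h6 hq0
      omega
    exact Nat.le_of_mul_le_mul_left h5 hN0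
  · intro m
    have h1 := Nat.mul_le_mul_left q (hT1 (m + 1)).2.1
    have h2 := Nat.mul_le_mul_left q (hT1 m).1
    have h3 := hX2 m
    have h4 := hX1 (m + 1)
    rw [hstep] at h4
    have e1 : q * (X (m + 1) + N + 1) = q * X (m + 1) + q * (N + 1) := by ring
    have e2 : q * (N + 1) + q ≤ 3 * q * N := by
      have : q * (N + 2) ≤ q * (3 * N) := Nat.mul_le_mul_left _ (by omega)
      have e3 : q * (N + 2) = q * (N + 1) + q := by ring
      have e4 : q * (3 * N) = 3 * q * N := by ring
      omega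
    omega
  · intro m
    have h1 := Nat.mul_le_mul_left q (hT1 m).2.1
    have h2 := Nat.mul_le_mul_left q (hT1 (m + 1)).1
    have h3 := hX1 m
    have h4 := hX2 (m + 1)
    rw [hstep] at h4
    have e1 : q * (X m + N + 1) = q * X m + q * (N + 1) := by ring
    have e2 : q * (N + 1) + q ≤ 3 * q * N := by
      have : q * (N + 2) ≤ q * (3 * N) := Nat.mul_le_mul_left _ (by omega)
      have e3 : q * (N + 2) = q * (N + 1) + q := by ring
      have e4 : q * (3 * N) = 3 * q * N := by ring
      omega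
    omega
  · rcases le_total (r * N) (q * (P - r)) with h | h
    · by_cases hPr : r ≤ P
      · left
        intro m
        have h1 : X (m + 1) ≤ X m + (P - r) := by
          rw [hX, hX, hstep]
          calc (m * (r * N) + r * N) / q ≤ (m * (r * N) + q * (P - r)) / q :=
              Nat.div_le_div_right (Nat.add_le_add_left h _)
            _ = m * (r * N) / q + (P - r) := Nat.add_mul_div_left _ _ hq0
        omega
      · right
        intro m
        have h1 : X m ≤ X (m + 1) := by
          rw [hX, hX, hstep]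
          exact Nat.div_le_div_right (Nat.le_add_right _ _)
        omega
    · right
      intro m
      have h1 : X m + (P - r) ≤ X (m + 1) := by
        rw [hX, hX, hstep]
        calc m * (r * N) / q + (P - r) = (m * (r * N) + q * (P - r)) / q :=
            (Nat.add_mul_div_left _ _ hq0).symm
          _ ≤ (m * (r * N) + r * N) / q := Nat.div_le_div_right (Nat.add_le_add_left h _)
      omega

end Pool.Agent.Lib.MP_635d71_ag
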