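import Mathlib
import Pool.Agent.Lib.MP_635d71_ag.FlexB

/-!
# Base case: at most one point
-/

open Module Submodule

namespace Pool.Agent.Lib.MP_635d71_ag

variable {K : Type} [Field K]

theorem exists_ne_fin {q : ℕ} (hq : 2 ≤ q) (j : Fin q) : ∃ j', j' ≠ j := by
  haveI : Nontrivial (Fin q) := Fin.nontrivial_iff_two_le.2 hq
  exact exists_ne j

/-- Two disjoint Hamming balls. -/
theorem exists_far (z : List ℕ) (hlen : 3 ≤ z.length) (hz : ∀ q ∈ z, 2 ≤ q) (w : Grid z) :
    ∃ g : Grid z, Disjoint (Ball z g) (Ball z w) := by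
  match z, hlen, hz, w with
  | a :: b :: c :: l, _, hz, (w1, w2, w3, w') =>
    obtain ⟨g1, h1⟩ := exists_ne_fin (hz a (by simp)) w1
    obtain ⟨g2, h2⟩ := exists_ne_fin (hz b (by simp)) w2
    obtain ⟨g3, h3⟩ := exists_ne_fin (hz c (by simp)) w3
    refine ⟨(g1, g2, g3, w'), ?_⟩
    rw [Finset.disjoint_left]
    rintro ⟨x1, x2, x3, x'⟩ hx hy
    rw [mem_Ball_cons, mem_Ball_cons, mem_Ball_cons] at hx hy
    simp only [Prod.mk.injEq] at hx hy
    rcases hx with ⟨rfl, hx⟩ | ⟨rfl, rfl, rfl⟩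
    · rcases hy with ⟨rfl, hy⟩ | ⟨rfl, rfl, rfl⟩
      · exact h1 rfl
      · rcases hx with ⟨rfl, hx⟩ | ⟨rfl, hx⟩
        · exact h2 rfl
        · exact h3 rfl
    · rcases hy with ⟨rfl, hy⟩ | ⟨rfl, hy⟩
      · rcases hy with ⟨rfl, hy⟩ | ⟨rfl, hy⟩
        · exact h2 rfl
        · exact h3 rfl
      · exact h2 rfl

theorem finrank_sup_disjoint {G : Type} [Fintype G] [DecidableEq G] (A B : Finset G)
    (h : Disjoint A B) : A.card + B.card ≤ finrank K ↥(coordSub K A ⊔ coordSub K B) := by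
  have h1 : coordSub K (A ∪ B) ≤ coordSub K A ⊔ coordSub K B := by
    intro f hf
    have h2 : f = (fun g => if g ∈ A then f g else 0) + (fun g => if g ∈ A then 0 else f g) := by
      ext g
      rw [Pi.add_apply]
      split_ifs <;> simp
    rw [h2]
    refine Submodule.add_mem _ (mem_sup_left ?_) (mem_sup_right ?_)
    · intro g hg
      simp [hg]
    · intro g hg
      by_cases hA : g ∈ A
      · simp [hA]
      · simp only [hA, if_false]
        exact hf g (by simp [hA, hg])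
  have h2 := Submodule.finrank_mono h1
  rw [finrank_coordSub, Finset.card_union_of_disjoint h] at h2
  exact h2

theorem good_zero (z : List ℕ) (C : Finset (Grid z)) : Good K z 0 C := by
  refine ⟨fun i => i.elim0, ?_⟩
  rw [zero_mul, add_zero]
  conv_lhs => rw [← finrank_coordSub (K := K) C]
  exact Submodule.finrank_mono le_sup_left

theorem base_one (z : List ℕ) (hlen : 3 ≤ z.length) (hz : ∀ q ∈ z, 2 ≤ q) (Δ : ℕ)
    (hP : z.prod ≤ Δ) (b : ℕ) (w : Grid z) (C : Finset (Grid z)) (hC : C ⊆ Ball z w)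
    (hb : (b - 1) * (2 * Δ + 1) ≤ 2 * z.prod) : Good K z b C := by
  have h1 : b ≤ 1 := by
    by_contra hcon
    have : 1 * (2 * Δ + 1) ≤ (b - 1) * (2 * Δ + 1) := Nat.mul_le_mul_right _ (by omega)
    omega
  rcases Nat.eq_zero_or_pos b with h0 | h0
  · rw [h0]; exact good_zero z C
  · have : b = 1 := by omega
    subst this
    obtain ⟨g, hg⟩ := exists_far z hlen hz w
    refine ⟨fun _ => cpt z g, ?_⟩
    have h2 : (⨆ _a : Fin 1, T z (cpt z g : Coord z → K)) = coordSub K (Ball z g) := by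
      rw [iSup_const, T_cpt]
    rw [h2, one_mul]
    have h3 := finrank_sup_disjoint (K := K) C (Ball z g)
      (Finset.disjoint_of_subset_left hC hg.symm)
    rw [card_Ball] at h3
    exact h3

end Pool.Agent.Lib.MP_635d71_ag
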