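import Mathlib
import Pool.Agent.Lib.MP_635d71_ag.BaseA

/-!
# Base case: at most one point in every slice
-/

open Module Submodule

namespace Pool.Agent.Lib.MP_635d71_ag

variable {K : Type} [Field K]

/-- A Hamming ball which avoids a given word. -/
theorem exists_far2 (z : List ℕ) (hlen : 2 ≤ z.length) (hz : ∀ q ∈ z, 2 ≤ q) (w : Grid z) :
    ∃ g : Grid z, w ∉ Ball z g := by
  match z, hlen, hz, w with
  | a :: b :: l, _, hz, (w1, w2, w') =>
    obtain ⟨g1, h1⟩ := exists_ne_fin (hz a (by simp)) w1
    obtain ⟨g2, h2⟩ := exists_ne_fin (hz b (by simp)) w2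
    refine ⟨(g1, g2, w'), ?_⟩
    rw [mem_Ball_cons, mem_Ball_cons]
    simp only [Prod.mk.injEq]
    rintro (⟨rfl, _⟩ | ⟨rfl, _⟩)
    · exact h1 rfl
    · exact h2 rfl

theorem good_one_far (z : List ℕ) (C : Finset (Grid z)) (g : Grid z)
    (h : Disjoint C (Ball z g)) : Good K z 1 C := by
  refine ⟨fun _ => cpt z g, ?_⟩
  have h2 : (⨆ _a : Fin 1, T z (cpt z g : Coord z → K)) = coordSub K (Ball z g) := by
    rw [iSup_const, T_cpt]
  rw [h2, one_mul]
  have h3 := finrank_sup_disjoint (K := K) C (Ball z g) h
  rw [card_Ball] at h3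
  exact h3

theorem base_slices [Infinite K] (s : ℕ) (l : List ℕ) (hlen : 2 ≤ l.length) (hl : ∀ a ∈ l, 2 ≤ a)
    (b : ℕ) (hb : b + 1 ≤ s) (hroom : D l + b ≤ l.prod) (w : Grid (s :: l))
    (C : Finset (Grid (s :: l))) (hC : C ⊆ Ball (s :: l) w) : Good K (s :: l) b C := by
  classical
  obtain ⟨j0, w⟩ := w
  obtain ⟨S, hS, hSb⟩ := Finset.exists_subset_card_eq (s := (Finset.univ : Finset (Fin s)).erase j0)
    (n := b) (by
      rw [Finset.card_erase_of_mem (Finset.mem_univ _), Finset.card_univ, Fintype.card_fin]; omega)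
  let β : Fin s → ℕ := fun j => if j ∈ S then 1 else 0
  have hβ : ∑ j, β j = b := by
    simp only [β]
    rw [← Finset.card_filter, Finset.filter_mem_eq_inter, Finset.univ_inter, hSb]
  have hj0 : j0 ∉ S := fun h => by
    have := hS h
    simp at this
  have hD := one_le_D l
  have hsum : ∀ j, ∑ j' ∈ Finset.univ.erase j, β j' + β j = b := fun j => by
    rw [Finset.sum_erase_add _ _ (Finset.mem_univ j), hβ]
  have hsl : ∀ j, j ≠ j0 → slice C j ⊆ {w} := by
    intro j hj g hg
    have h3 : ((j, g) : Grid (s :: l)) ∈ Ball (s :: l) (j0, w) := hC (by simpa [slice] using hg)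
    rw [mem_Ball_cons] at h3
    rw [Finset.mem_singleton]
    rcases h3 with h3 | h3
    · exact absurd h3.1 hj
    · exact h3
  have hsl0 : slice C j0 ⊆ Ball l w := by
    intro g hg
    have h3 : ((j0, g) : Grid (s :: l)) ∈ Ball (s :: l) (j0, w) := hC (by simpa [slice] using hg)
    rw [mem_Ball_cons] at h3
    rcases h3 with h3 | h3
    · exact h3.2
    · rw [h3]; exact self_mem_Ball _ _
  have key : Good K (s :: l) (∑ j, β j) C := by
    refine good_step l β C (fun j => ?_) (fun j => ?_)
    · by_cases hj : j ∈ S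
      · have h1 : β j = 1 := if_pos hj
        rw [h1]
        obtain ⟨g, hg⟩ := exists_far2 l hlen hl w
        refine good_one_far l _ g ?_
        have hjj : j ≠ j0 := fun h => hj0 (h ▸ hj)
        rw [Finset.disjoint_left]
        intro x hx hx'
        have := hsl j hjj hx
        rw [Finset.mem_singleton] at this
        rw [this] at hx'
        exact hg hx'
      · have h1 : β j = 0 := if_neg hj
        rw [h1]
        exact good_zero l _
    · have h5 := hsum j
      by_cases hj : j = j0
      · subst hj
        have h1 : β j = 0 := if_neg hj0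
        have h2 := (Finset.card_le_card hsl0).trans (card_Ball_le l w)
        rw [h1] at h5 ⊢
        omega
      · have h2 := Finset.card_le_card (hsl j hj)
        rw [Finset.card_singleton] at h2
        by_cases hjS : j ∈ S
        · have h1 : β j = 1 := if_pos hjS
          rw [h1] at h5 ⊢
          omega
        · have h1 : β j = 0 := if_neg hjS
          rw [h1] at h5 ⊢
          omega
  rw [hβ] at key
  exact key

end Pool.Agent.Lib.MP_635d71_ag
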