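import Mathlib
import Pool.Agent.Lib.MP_635d71_ag.BaseA

/-!
# Base case: three large factors, small blocks
-/

open Module Submodule

namespace Pool.Agent.Lib.MP_635d71_ag.Two

variable {K : Type} [Field K]

/-- Every factor is cut into `s / 2` blocks with at least two elements. -/
def blk (s : ℕ) (x : Fin s) : ℕ := min (x.val / 2) (s / 2 - 1)

theorem blk_lt {s : ℕ} (h : 1 ≤ s / 2) (x : Fin s) : blk s x < s / 2 := by
  unfold blk; omega

theorem blk_mk {s : ℕ} (i c : ℕ) (hi : i < s / 2) (hc : c < 2) (hs : 2 * i + c < s) :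
    blk s ⟨2 * i + c, hs⟩ = i := by
  unfold blk
  dsimp only
  omega

/-- A further element in every block. -/
theorem exists_other {s : ℕ} (i : ℕ) (hi : i < s / 2) (w : Fin s) :
    ∃ h : Fin s, blk s h = i ∧ h ≠ w := by
  have h0 := blk_mk (s := s) i 0 hi (by omega) (by omega)
  have h1 := blk_mk (s := s) i 1 hi (by omega) (by omega)
  by_cases hw0 : w.val = 2 * i
  · refine ⟨_, h1, ?_⟩
    intro h; have := congrArg Fin.val h; simp at this; omega
  · refine ⟨_, h0, ?_⟩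
    intro h; have := congrArg Fin.val h; simp at this; omega

/-- Two elements in a block, one of them possibly prescribed. -/
theorem exists_pair {s : ℕ} (i : ℕ) (hi : i < s / 2) (w : Fin s) (P : Prop) :
    ∃ x x' : Fin s, blk s x = i ∧ blk s x' = i ∧ x ≠ x' ∧
      (blk s w = i → (P → x = w) ∧ (¬ P → x' = w)) := by
  by_cases hw : blk s w = i
  · obtain ⟨h, h1, h2⟩ := exists_other i hi w
    by_cases hP : P
    · exact ⟨w, h, hw, h1, h2.symm, fun _ => ⟨fun _ => rfl, fun h' => absurd hP h'⟩⟩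
    · exact ⟨h, w, h1, hw, h2, fun _ => ⟨fun h' => absurd h' hP, fun _ => rfl⟩⟩
  · obtain ⟨h, h1, _⟩ := exists_other i hi w
    obtain ⟨h', h3, h4⟩ := exists_other i hi h
    exact ⟨h, h', h1, h3, h4.symm, fun h' => absurd h' hw⟩

section three

variable (s1 s2 s3 : ℕ)

/-- Boxes. -/
abbrev Box : Type := Fin (s1 / 2) × Fin (s2 / 2) × Fin (s3 / 2)

variable {s1 s2 s3}

/-- A multi-index lies in a box. -/
def inBox (γ : Box s1 s2 s3) (g : Grid [s1, s2, s3]) : Prop :=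
  blk s1 g.1 = γ.1.val ∧ blk s2 g.2.1 = γ.2.1.val ∧ blk s3 g.2.2.1 = γ.2.2.val

instance (γ : Box s1 s2 s3) : DecidablePred (inBox γ) := fun g => by unfold inBox; infer_instance

/-- The multi-indices in a box. -/
def boxSet (γ : Box s1 s2 s3) : Finset (Grid [s1, s2, s3]) := Finset.univ.filter (inBox γ)

/-- Membership in a ball, explicitly. -/
theorem mem_Ball3 (x g1 : Fin s1) (y g2 : Fin s2) (z g3 : Fin s3) :
    ((x, y, z, ()) : Grid [s1, s2, s3]) ∈ Ball [s1, s2, s3] (g1, g2, g3, ()) ↔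
      (x = g1 ∧ y = g2) ∨ (x = g1 ∧ z = g3) ∨ (y = g2 ∧ z = g3) := by
  rw [mem_Ball_cons, mem_Ball_cons, mem_Ball_cons]
  have h1 : (() : Grid []) ∈ Ball [] () := mem_Ball_nil _ _
  simp only [Prod.mk.injEq, h1, and_true]
  tauto

/-- The mask of a box. -/
def mask (K : Type) [Field K] (γ : Box s1 s2 s3) : Coord [s1, s2, s3] → K
  | Sum.inl x => if blk s1 x = γ.1.val then 1 else 0
  | Sum.inr (Sum.inl y) => if blk s2 y = γ.2.1.val then 1 else 0
  | Sum.inr (Sum.inr (Sum.inl z)) => if blk s3 z = γ.2.2.val then 1 else 0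
  | Sum.inr (Sum.inr (Sum.inr _)) => 1

/-- Restriction of a tuple to a box. -/
def maskL (K : Type) [Field K] (γ : Box s1 s2 s3) :
    (Coord [s1, s2, s3] → K) →ₗ[K] (Coord [s1, s2, s3] → K) where
  toFun := fun y c => mask K γ c * y c
  map_add' := fun y y' => by ext c; simp [mul_add]
  map_smul' := fun a y => by ext c; simp [mul_left_comm]

/-- The elements of the spanning set of the tangent space which are supported in the box `γ`, for a
point supported in the box `α`. -/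
def Compat (γ α : Box s1 s2 s3) : TI [s1, s2, s3] → Prop
  | Sum.inr x => blk s1 x = γ.1.val ∧ α.2.1 = γ.2.1 ∧ α.2.2 = γ.2.2
  | Sum.inl (Sum.inr y) => α.1 = γ.1 ∧ blk s2 y = γ.2.1.val ∧ α.2.2 = γ.2.2
  | Sum.inl (Sum.inl (Sum.inr z)) => α.1 = γ.1 ∧ α.2.1 = γ.2.1 ∧ blk s3 z = γ.2.2.val
  | Sum.inl (Sum.inl (Sum.inl _)) => False

theorem compat_supp (γ α : Box s1 s2 s3) (y : Coord [s1, s2, s3] → K) (t : TI [s1, s2, s3])
    (ht : Compat γ α t) : TVec [s1, s2, s3] (maskL K α y) t ∈ coordSub K (boxSet γ) := by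
  rintro ⟨x', y', z', u⟩ hg
  have hg' : ¬ (blk s1 x' = γ.1.val ∧ blk s2 y' = γ.2.1.val ∧ blk s3 z' = γ.2.2.val) := by
    intro h
    exact hg (Finset.mem_filter.2 ⟨Finset.mem_univ _, h⟩)
  match t, ht with
  | Sum.inr x, ht =>
    obtain ⟨h1, h2, h3⟩ := ht
    change (Pi.single x (1 : K) : Fin s1 → K) x' *
      ((mask K α (Sum.inr (Sum.inl y')) * _) * ((mask K α (Sum.inr (Sum.inr (Sum.inl z'))) * _) * 1)) = 0
    by_cases hx : x' = x
    · subst hx
      by_cases hy : blk s2 y' = γ.2.1.val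
      · have hz : blk s3 z' ≠ γ.2.2.val := fun hz => hg' ⟨h1, hy, hz⟩
        have : mask K α (Sum.inr (Sum.inr (Sum.inl z'))) = 0 := if_neg (by rw [h3]; exact hz)
        rw [this]; ring
      · have : mask K α (Sum.inr (Sum.inl y')) = 0 := if_neg (by rw [h2]; exact hy)
        rw [this]; ring
    · rw [Pi.single_eq_of_ne hx]; ring
  | Sum.inl (Sum.inr y), ht =>
    obtain ⟨h1, h2, h3⟩ := ht
    change (mask K α (Sum.inl x') * _) * ((Pi.single y (1 : K) : Fin s2 → K) y' *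
      ((mask K α (Sum.inr (Sum.inr (Sum.inl z'))) * _) * 1)) = 0
    by_cases hx : y' = y
    · subst hx
      by_cases hy : blk s1 x' = γ.1.val
      · have hz : blk s3 z' ≠ γ.2.2.val := fun hz => hg' ⟨hy, h2, hz⟩
        have : mask K α (Sum.inr (Sum.inr (Sum.inl z'))) = 0 := if_neg (by rw [h3]; exact hz)
        rw [this]; ring
      · have : mask K α (Sum.inl x') = 0 := if_neg (by rw [h1]; exact hy)
        rw [this]; ring
    · rw [Pi.single_eq_of_ne hx]; ring
  | Sum.inl (Sum.inl (Sum.inr z)), ht =>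
    obtain ⟨h1, h2, h3⟩ := ht
    change (mask K α (Sum.inl x') * _) * ((mask K α (Sum.inr (Sum.inl y')) * _) *
      ((Pi.single z (1 : K) : Fin s3 → K) z' * 1)) = 0
    by_cases hx : z' = z
    · subst hx
      by_cases hy : blk s1 x' = γ.1.val
      · have hz : blk s2 y' ≠ γ.2.1.val := fun hz => hg' ⟨hy, hz, h3⟩
        have : mask K α (Sum.inr (Sum.inl y')) = 0 := if_neg (by rw [h2]; exact hz)
        rw [this]; ring
      · have : mask K α (Sum.inl x') = 0 := if_neg (by rw [h1]; exact hy)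
        rw [this]; ring
    · rw [Pi.single_eq_of_ne hx]; ring
  | Sum.inl (Sum.inl (Sum.inl _)), ht => exact ht.elim

theorem maskL_cpt (α : Box s1 s2 s3) (g : Grid [s1, s2, s3]) (hg : inBox α g) :
    maskL K α (cpt [s1, s2, s3] g) = cpt [s1, s2, s3] g := by
  obtain ⟨g1, g2, g3, u⟩ := g
  obtain ⟨h1, h2, h3⟩ := hg
  ext c
  match c with
  | Sum.inl x =>
    change mask K α (Sum.inl x) * (Pi.single g1 (1 : K) : Fin s1 → K) x =
      (Pi.single g1 (1 : K) : Fin s1 → K) x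
    by_cases hx : x = g1
    · subst hx
      have : mask K α (Sum.inl x) = 1 := if_pos h1
      rw [this, one_mul]
    · rw [Pi.single_eq_of_ne hx, mul_zero]
  | Sum.inr (Sum.inl x) =>
    change mask K α (Sum.inr (Sum.inl x)) * (Pi.single g2 (1 : K) : Fin s2 → K) x =
      (Pi.single g2 (1 : K) : Fin s2 → K) x
    by_cases hx : x = g2
    · subst hx
      have : mask K α (Sum.inr (Sum.inl x)) = 1 := if_pos h2
      rw [this, one_mul]
    · rw [Pi.single_eq_of_ne hx, mul_zero]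
  | Sum.inr (Sum.inr (Sum.inl x)) =>
    change mask K α (Sum.inr (Sum.inr (Sum.inl x))) * (Pi.single g3 (1 : K) : Fin s3 → K) x =
      (Pi.single g3 (1 : K) : Fin s3 → K) x
    by_cases hx : x = g3
    · subst hx
      have : mask K α (Sum.inr (Sum.inr (Sum.inl x))) = 1 := if_pos h3
      rw [this, one_mul]
    · rw [Pi.single_eq_of_ne hx, mul_zero]
  | Sum.inr (Sum.inr (Sum.inr e)) => exact Empty.elim e

theorem exists_compat (γ α : Box s1 s2 s3) (g h : Grid [s1, s2, s3]) (hg : inBox α g)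
    (hh : inBox γ h) (hB : h ∈ Ball [s1, s2, s3] g) :
    ∃ t, Compat γ α t ∧ TVec [s1, s2, s3] (cpt [s1, s2, s3] g : _ → K) t = Pi.single h 1 := by
  obtain ⟨g1, g2, g3, u⟩ := g
  obtain ⟨x, y, z, u'⟩ := h
  obtain ⟨a1, a2, a3⟩ := hg
  obtain ⟨b1, b2, b3⟩ := hh
  dsimp only at a1 a2 a3 b1 b2 b3
  rw [mem_Ball3] at hB
  rcases hB with ⟨rfl, rfl⟩ | ⟨rfl, rfl⟩ | ⟨rfl, rfl⟩
  · refine ⟨Sum.inl (Sum.inl (Sum.inr z)), ⟨Fin.ext (a1.symm.trans b1), Fin.ext (a2.symm.trans b2),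
      b3⟩, ?_⟩
    have : TVec [s1, s2, s3] (cpt [s1, s2, s3] (x, y, g3, u) : _ → K)
        (Sum.inl (Sum.inl (Sum.inr z))) =
        ten (Pi.single x 1) (ten (Pi.single y 1) (ten (Pi.single z 1) (E [] (cpt [] u)))) := rfl
    rw [this, E_cpt, ten_single, ten_single, ten_single]
  · refine ⟨Sum.inl (Sum.inr y), ⟨Fin.ext (a1.symm.trans b1), b2, Fin.ext (a3.symm.trans b3)⟩, ?_⟩
    have : TVec [s1, s2, s3] (cpt [s1, s2, s3] (x, g2, z, u) : _ → K) (Sum.inl (Sum.inr y)) =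
        ten (Pi.single x 1) (ten (Pi.single y 1) (E [s3] (cpt [s3] (z, u)))) := rfl
    rw [this, E_cpt, ten_single, ten_single]
  · refine ⟨Sum.inr x, ⟨b1, Fin.ext (a2.symm.trans b2), Fin.ext (a3.symm.trans b3)⟩, ?_⟩
    have : TVec [s1, s2, s3] (cpt [s1, s2, s3] (g1, y, z, u) : _ → K) (Sum.inr x) =
        ten (Pi.single x 1) (E [s2, s3] (cpt [s2, s3] (y, z, u))) := rfl
    rw [this, E_cpt, ten_single]

theorem blk_swap {s : ℕ} (a b x : Fin s) (h : blk s a = blk s b) :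
    blk s (Equiv.swap a b x) = blk s x := by
  rw [Equiv.swap_apply_def]
  split_ifs with h1 h2
  · rw [h1, h]
  · rw [h2, h]
  · rfl

theorem card_box_ball_le (γ α : Box s1 s2 s3) (g g' : Grid [s1, s2, s3]) (hg : inBox α g)
    (hg' : inBox α g') : (boxSet γ ∩ Ball [s1, s2, s3] g).card ≤
      (boxSet γ ∩ Ball [s1, s2, s3] g').card := by
  obtain ⟨g1, g2, g3, u⟩ := g
  obtain ⟨g1', g2', g3', u'⟩ := g'
  obtain ⟨a1, a2, a3⟩ := hg
  obtain ⟨b1, b2, b3⟩ := hg'
  dsimp only at a1 a2 a3 b1 b2 b3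
  refine Finset.card_le_card_of_injOn (fun h : Grid [s1, s2, s3] =>
    ((Equiv.swap g1 g1' h.1, Equiv.swap g2 g2' h.2.1, Equiv.swap g3 g3' h.2.2.1, ()) :
      Grid [s1, s2, s3])) ?_ ?_
  · rintro ⟨x, y, z, v⟩ hh
    obtain ⟨h1, h2⟩ := Finset.mem_inter.1 (Finset.mem_coe.1 hh)
    have h1' := (Finset.mem_filter.1 h1).2
    obtain ⟨c1, c2, c3⟩ := h1'
    dsimp only at c1 c2 c3
    rw [mem_Ball3] at h2
    refine Finset.mem_coe.2 (Finset.mem_inter.2 ⟨Finset.mem_filter.2 ⟨Finset.mem_univ _, ?_⟩, ?_⟩)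
    · refine ⟨?_, ?_, ?_⟩
      · exact (blk_swap _ _ _ (a1.trans b1.symm)).trans c1
      · exact (blk_swap _ _ _ (a2.trans b2.symm)).trans c2
      · exact (blk_swap _ _ _ (a3.trans b3.symm)).trans c3
    · rw [mem_Ball3]
      rcases h2 with ⟨rfl, rfl⟩ | ⟨rfl, rfl⟩ | ⟨rfl, rfl⟩
      · exact Or.inl ⟨Equiv.swap_apply_left _ _, Equiv.swap_apply_left _ _⟩
      · exact Or.inr (Or.inl ⟨Equiv.swap_apply_left _ _, Equiv.swap_apply_left _ _⟩)
      · exact Or.inr (Or.inr ⟨Equiv.swap_apply_left _ _, Equiv.swap_apply_left _ _⟩)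
  · rintro ⟨x, y, z, v⟩ _ ⟨x', y', z', v'⟩ _ h
    simp only [Prod.mk.injEq, EmbeddingLike.apply_eq_iff_eq, and_true] at h
    obtain ⟨rfl, rfl, rfl⟩ := h
    rfl

theorem card_box_ball (γ α : Box s1 s2 s3) (g g' : Grid [s1, s2, s3]) (hg : inBox α g)
    (hg' : inBox α g') : (boxSet γ ∩ Ball [s1, s2, s3] g).card =
      (boxSet γ ∩ Ball [s1, s2, s3] g').card :=
  le_antisymm (card_box_ball_le γ α g g' hg hg') (card_box_ball_le γ α g' g hg' hg)

theorem boxSet_disjoint {γ γ' : Box s1 s2 s3} (h : γ ≠ γ') : Disjoint (boxSet γ) (boxSet γ') := by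
  rw [Finset.disjoint_left]
  intro g hg hg'
  have h1 := (Finset.mem_filter.1 hg).2
  have h2 := (Finset.mem_filter.1 hg').2
  exact h (Prod.ext (Fin.ext (h1.1.symm.trans h2.1)) (Prod.ext (Fin.ext (h1.2.1.symm.trans h2.2.1))
    (Fin.ext (h1.2.2.symm.trans h2.2.2))))

theorem sum_card_box (h1 : 1 ≤ s1 / 2) (h2 : 1 ≤ s2 / 2) (h3 : 1 ≤ s3 / 2)
    (S : Finset (Grid [s1, s2, s3])) : ∑ γ : Box s1 s2 s3, (boxSet γ ∩ S).card = S.card := by
  classical
  let f : Grid [s1, s2, s3] → Box s1 s2 s3 := fun g =>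
    (⟨blk s1 g.1, blk_lt h1 _⟩, ⟨blk s2 g.2.1, blk_lt h2 _⟩, ⟨blk s3 g.2.2.1, blk_lt h3 _⟩)
  rw [Finset.card_eq_sum_card_fiberwise (s := S) (t := Finset.univ) (f := f)
    (fun _ _ => Finset.mem_univ _)]
  refine Finset.sum_congr rfl fun γ _ => ?_
  congr 1
  ext g
  simp only [Finset.mem_inter, Finset.mem_filter, boxSet, Finset.mem_univ, true_and]
  constructor
  · rintro ⟨hg, hS⟩
    exact ⟨hS, Prod.ext (Fin.ext hg.1) (Prod.ext (Fin.ext hg.2.1) (Fin.ext hg.2.2))⟩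
  · rintro ⟨hS, hg⟩
    refine ⟨⟨?_, ?_, ?_⟩, hS⟩
    · rw [← hg]
    · rw [← hg]
    · rw [← hg]

/-- For every box there are points in the given boxes such that all the parts in the box are
disjoint; one of the points is prescribed. -/
theorem exists_choice {b : ℕ}
    (α : Fin (b + 1) → Box s1 s2 s3)
    (l12 : ∀ a a', (α a).1 = (α a').1 → (α a).2.1 = (α a').2.1 → a = a')
    (l13 : ∀ a a', (α a).1 = (α a').1 → (α a).2.2 = (α a').2.2 → a = a')
    (l23 : ∀ a a', (α a).2.1 = (α a').2.1 → (α a).2.2 = (α a').2.2 → a = a')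
    (w : Grid [s1, s2, s3]) (hw : inBox (α 0) w) (γ : Box s1 s2 s3) :
    ∃ G : Fin (b + 1) → Grid [s1, s2, s3], (∀ a, inBox (α a) (G a)) ∧ G 0 = w ∧
      ∀ a a', a ≠ a' → Disjoint (boxSet γ ∩ Ball [s1, s2, s3] (G a))
        (boxSet γ ∩ Ball [s1, s2, s3] (G a')) := by
  classical
  obtain ⟨w1, w2, w3, wu⟩ := w
  obtain ⟨hw1, hw2, hw3⟩ := hw
  dsimp only at hw1 hw2 hw3
  obtain ⟨x, x', hx1, hx2, hx3, hx4⟩ := exists_pair γ.1.val γ.1.2 w1 ((α 0).2.2 = γ.2.2)
  obtain ⟨y, y', hy1, hy2, hy3, hy4⟩ := exists_pair γ.2.1.val γ.2.1.2 w2 ((α 0).2.2 = γ.2.2)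
  obtain ⟨z, z', hz1, hz2, hz3, hz4⟩ := exists_pair γ.2.2.val γ.2.2.2 w3 ((α 0).2.1 = γ.2.1)
  have hany1 : ∀ i : Fin (s1 / 2), ∃ g : Fin s1, blk s1 g = i.val ∧ (blk s1 w1 = i.val → g = w1) :=
    fun i => by
      by_cases h : blk s1 w1 = i.val
      · exact ⟨w1, h, fun _ => rfl⟩
      · obtain ⟨g, hg, _⟩ := exists_other i.val i.2 w1
        exact ⟨g, hg, fun h' => absurd h' h⟩
  have hany2 : ∀ i : Fin (s2 / 2), ∃ g : Fin s2, blk s2 g = i.val ∧ (blk s2 w2 = i.val → g = w2) :=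
    fun i => by
      by_cases h : blk s2 w2 = i.val
      · exact ⟨w2, h, fun _ => rfl⟩
      · obtain ⟨g, hg, _⟩ := exists_other i.val i.2 w2
        exact ⟨g, hg, fun h' => absurd h' h⟩
  have hany3 : ∀ i : Fin (s3 / 2), ∃ g : Fin s3, blk s3 g = i.val ∧ (blk s3 w3 = i.val → g = w3) :=
    fun i => by
      by_cases h : blk s3 w3 = i.val
      · exact ⟨w3, h, fun _ => rfl⟩
      · obtain ⟨g, hg, _⟩ := exists_other i.val i.2 w3
        exact ⟨g, hg, fun h' => absurd h' h⟩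
  choose n1 hn1 hn1' using hany1
  choose n2 hn2 hn2' using hany2
  choose n3 hn3 hn3' using hany3
  let c1 : Fin (b + 1) → Fin s1 := fun a =>
    if (α a).1 = γ.1 then (if (α a).2.2 = γ.2.2 then x else x') else n1 (α a).1
  let c2 : Fin (b + 1) → Fin s2 := fun a =>
    if (α a).2.1 = γ.2.1 then (if (α a).2.2 = γ.2.2 then y else y') else n2 (α a).2.1
  let c3 : Fin (b + 1) → Fin s3 := fun a =>
    if (α a).2.2 = γ.2.2 then (if (α a).2.1 = γ.2.1 then z else z') else n3 (α a).2.2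
  have hc1 : ∀ a, blk s1 (c1 a) = (α a).1.val := by
    intro a
    simp only [c1]
    split_ifs with e1 e2
    · rw [hx1, e1]
    · rw [hx2, e1]
    · exact hn1 _
  have hc2 : ∀ a, blk s2 (c2 a) = (α a).2.1.val := by
    intro a
    simp only [c2]
    split_ifs with e1 e2
    · rw [hy1, e1]
    · rw [hy2, e1]
    · exact hn2 _
  have hc3 : ∀ a, blk s3 (c3 a) = (α a).2.2.val := by
    intro a
    simp only [c3]
    split_ifs with e1 e2
    · rw [hz1, e1]
    · rw [hz2, e1]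
    · exact hn3 _
  refine ⟨fun a => (c1 a, c2 a, c3 a, ()), fun a => ⟨hc1 a, hc2 a, hc3 a⟩, ?_, ?_⟩
  · -- the prescribed point
    have e1 : c1 0 = w1 := by
      simp only [c1]
      split_ifs with e1 e2
      · exact (hx4 (by rw [hw1, e1])).1 e2
      · exact (hx4 (by rw [hw1, e1])).2 e2
      · exact hn1' _ hw1
    have e2 : c2 0 = w2 := by
      simp only [c2]
      split_ifs with e1 e2
      · exact (hy4 (by rw [hw2, e1])).1 e2
      · exact (hy4 (by rw [hw2, e1])).2 e2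
      · exact hn2' _ hw2
    have e3 : c3 0 = w3 := by
      simp only [c3]
      split_ifs with e1 e2
      · exact (hz4 (by rw [hw3, e1])).1 e2
      · exact (hz4 (by rw [hw3, e1])).2 e2
      · exact hn3' _ hw3
    change ((c1 0, c2 0, c3 0, ()) : Grid [s1, s2, s3]) = (w1, w2, w3, wu)
    rw [e1, e2, e3]
  · intro a a' hne
    rw [Finset.disjoint_left]
    rintro ⟨p, q, r, v⟩ hh hh'
    obtain ⟨hh1, hh2⟩ := Finset.mem_inter.1 hh
    obtain ⟨_, hh3⟩ := Finset.mem_inter.1 hh'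
    obtain ⟨k1, k2, k3⟩ := (Finset.mem_filter.1 hh1).2
    dsimp only at k1 k2 k3
    rw [mem_Ball3] at hh2 hh3
    -- agreement forces the block
    have f1 : ∀ a, p = c1 a → (α a).1 = γ.1 := fun a h => Fin.ext (by rw [← hc1 a, ← h, k1])
    have f2 : ∀ a, q = c2 a → (α a).2.1 = γ.2.1 := fun a h => Fin.ext (by rw [← hc2 a, ← h, k2])
    have f3 : ∀ a, r = c3 a → (α a).2.2 = γ.2.2 := fun a h => Fin.ext (by rw [← hc3 a, ← h, k3])
    -- mixed cases
    have m1 : ∀ a a', p = c1 a → q = c2 a → p = c1 a' → r = c3 a' → a = a' := by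
      intro a a' e1 e2 e3 e4
      have i1 := f1 a e1
      have i2 := f2 a e2
      have i3 := f1 a' e3
      have i4 := f3 a' e4
      have h5 : (α a).2.2 = γ.2.2 := by
        by_contra hcon
        have h6 : c1 a = x' := by simp only [c1, if_pos i1, if_neg hcon]
        have h7 : c1 a' = x := by simp only [c1, if_pos i3, if_pos i4]
        exact hx3 (by rw [← h6, ← h7, ← e1, ← e3])
      exact l13 a a' (i1.trans i3.symm) (h5.trans i4.symm)
    have m2 : ∀ a a', p = c1 a → q = c2 a → q = c2 a' → r = c3 a' → a = a' := by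
      intro a a' e1 e2 e3 e4
      have i1 := f1 a e1
      have i2 := f2 a e2
      have i3 := f2 a' e3
      have i4 := f3 a' e4
      have h5 : (α a).2.2 = γ.2.2 := by
        by_contra hcon
        have h6 : c2 a = y' := by simp only [c2, if_pos i2, if_neg hcon]
        have h7 : c2 a' = y := by simp only [c2, if_pos i3, if_pos i4]
        exact hy3 (by rw [← h6, ← h7, ← e2, ← e3])
      exact l23 a a' (i2.trans i3.symm) (h5.trans i4.symm)
    have m3 : ∀ a a', p = c1 a → r = c3 a → q = c2 a' → r = c3 a' → a = a' := by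
      intro a a' e1 e2 e3 e4
      have i1 := f1 a e1
      have i2 := f3 a e2
      have i3 := f2 a' e3
      have i4 := f3 a' e4
      have h5 : (α a).2.1 = γ.2.1 := by
        by_contra hcon
        have h6 : c3 a = z' := by simp only [c3, if_pos i2, if_neg hcon]
        have h7 : c3 a' = z := by simp only [c3, if_pos i4, if_pos i3]
        exact hz3 (by rw [← h6, ← h7, ← e2, ← e4])
      exact l23 a a' (h5.trans i3.symm) (i2.trans i4.symm)
    rcases hh2 with ⟨e1, e2⟩ | ⟨e1, e2⟩ | ⟨e1, e2⟩ <;>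
      rcases hh3 with ⟨e3, e4⟩ | ⟨e3, e4⟩ | ⟨e3, e4⟩
    · exact hne (l12 a a' ((f1 a e1).trans (f1 a' e3).symm) ((f2 a e2).trans (f2 a' e4).symm))
    · exact hne (m1 a a' e1 e2 e3 e4)
    · exact hne (m2 a a' e1 e2 e3 e4)
    · exact hne (m1 a' a e3 e4 e1 e2).symm
    · exact hne (l13 a a' ((f1 a e1).trans (f1 a' e3).symm) ((f3 a e2).trans (f3 a' e4).symm))
    · exact hne (m3 a a' e1 e2 e3 e4)
    · exact hne (m2 a' a e3 e4 e1 e2).symm
    · exact hne (m3 a' a e3 e4 e1 e2).symm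
    · exact hne (l23 a a' ((f2 a e1).trans (f2 a' e3).symm) ((f3 a e2).trans (f3 a' e4).symm))

/-- The part of the span of the tangent spaces which lies in a box. -/
def boxSpace (K : Type) [Field K] {b : ℕ} (α : Fin b → Box s1 s2 s3)
    (C : Finset (Grid [s1, s2, s3])) (γ : Box s1 s2 s3) (y : Fin b → Coord [s1, s2, s3] → K) :
    Submodule K (Grid [s1, s2, s3] → K) :=
  coordSub K (boxSet γ ∩ C) ⊔ span K (Set.range
      fun k : {p : Fin b × TI [s1, s2, s3] // Compat γ (α p.1) p.2} =>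
        TVec [s1, s2, s3] (maskL K (α k.1.1) (y k.1.1)) k.1.2)

theorem boxSpace_big {b : ℕ} (α : Fin b → Box s1 s2 s3)
    (C : Finset (Grid [s1, s2, s3])) (γ : Box s1 s2 s3) (n : ℕ) :
    Big K {y : Fin b → Coord [s1, s2, s3] → K | n ≤ finrank K (boxSpace K α C γ y)} :=
  big_rank (coordSub K (boxSet γ ∩ C)) (fun (k : {p : Fin b × TI [s1, s2, s3] //
      Compat γ (α p.1) p.2}) (y : Fin b → Coord [s1, s2, s3] → K) =>
        TVec [s1, s2, s3] (maskL K (α k.1.1) (y k.1.1)) k.1.2)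
    (fun k => linePoly_TVec [s1, s2, s3]
      ((maskL K (α k.1.1)).comp (LinearMap.proj (R := K)
        (φ := fun _ : Fin b => Coord [s1, s2, s3] → K) k.1.1)) k.1.2) n

theorem boxSpace_le_box {b : ℕ} (α : Fin b → Box s1 s2 s3)
    (C : Finset (Grid [s1, s2, s3])) (γ : Box s1 s2 s3) (y : Fin b → Coord [s1, s2, s3] → K) :
    boxSpace K α C γ y ≤ coordSub K (boxSet γ) := by
  refine sup_le (coordSub_mono Finset.inter_subset_left) ?_
  rw [span_le]
  rintro _ ⟨k, rfl⟩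
  exact compat_supp γ (α k.1.1) (y k.1.1) k.1.2 k.2

theorem boxSpace_le {b : ℕ} (α : Fin b → Box s1 s2 s3)
    (C : Finset (Grid [s1, s2, s3])) (γ : Box s1 s2 s3) (y : Fin b → Coord [s1, s2, s3] → K) :
    boxSpace K α C γ y ≤ coordSub K C ⊔ ⨆ a, T [s1, s2, s3] (maskL K (α a) (y a)) := by
  refine sup_le_sup (coordSub_mono Finset.inter_subset_right) ?_
  rw [span_le]
  rintro _ ⟨k, rfl⟩
  exact (le_iSup (fun a => T [s1, s2, s3] (maskL K (α a) (y a))) k.1.1) (subset_span ⟨k.1.2, rfl⟩)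

theorem le_boxSpace {b : ℕ} (α : Fin b → Box s1 s2 s3)
    (C : Finset (Grid [s1, s2, s3])) (γ : Box s1 s2 s3) (G : Fin b → Grid [s1, s2, s3])
    (hG1 : ∀ a, inBox (α a) (G a)) :
    coordSub K (boxSet γ ∩ C) ⊔ (⨆ a, coordSub K (boxSet γ ∩ Ball [s1, s2, s3] (G a))) ≤
      boxSpace K α C γ (fun a => cpt [s1, s2, s3] (G a)) := by
  classical
  refine sup_le_sup le_rfl (iSup_le fun a => ?_)
  intro f hf
  rw [← Finset.univ_sum_single f]
  refine Submodule.sum_mem _ fun h _ => ?_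
  by_cases hh : h ∈ boxSet γ ∩ Ball [s1, s2, s3] (G a)
  · obtain ⟨hh1, hh2⟩ := Finset.mem_inter.1 hh
    obtain ⟨t, ht1, ht2⟩ := exists_compat (K := K) γ (α a) (G a) h (hG1 a)
      (Finset.mem_filter.1 hh1).2 hh2
    have : (Pi.single h (f h) : Grid [s1, s2, s3] → K) = f h • Pi.single h 1 := by
      rw [← Pi.single_smul, smul_eq_mul, mul_one]
    rw [this, ← ht2]
    refine Submodule.smul_mem _ _ (subset_span ⟨⟨(a, t), ht1⟩, ?_⟩)
    dsimp only
    rw [maskL_cpt _ _ (hG1 a)]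
  · rw [hf h hh, Pi.single_zero]
    exact Submodule.zero_mem _

theorem finrank_disjoint_family {G : Type} [Fintype G] [DecidableEq G] {b : ℕ} (C : Finset G)
    (B : Fin b → Finset G) (h1 : ∀ a, Disjoint (B a) C) (h2 : ∀ a a', a ≠ a' → Disjoint (B a) (B a')) :
    C.card + ∑ a, (B a).card ≤ finrank K ↥(coordSub K C ⊔ ⨆ a, coordSub K (B a)) := by
  have h5 := sum_finrank_le_iSup (K := K) (ι := Option (Fin b))
    (fun o => o.elim C B) (fun o => o.elim (coordSub K C) (fun a => coordSub K (B a))) (by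
      rintro (_ | a)
      · exact le_rfl
      · exact le_rfl) (by
      rintro (_ | a) (_ | a') hne
      · exact absurd rfl hne
      · exact (h1 a').symm
      · exact h1 a
      · exact h2 a a' (fun h => hne (by rw [h])))
  rw [iSup_option, Fintype.sum_option] at h5
  have h7 : finrank K ↥(coordSub K C) + ∑ a, finrank K ↥(coordSub K (B a)) ≤
      finrank K ↥(coordSub K C ⊔ ⨆ a, coordSub K (B a)) := h5
  simpa only [finrank_coordSub] using h7

/-- Points in boxes in general position. -/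
theorem good_boxes [Infinite K] (h1 : 1 ≤ s1 / 2) (h2 : 1 ≤ s2 / 2) (h3 : 1 ≤ s3 / 2) {b : ℕ}
    (α : Fin (b + 1) → Box s1 s2 s3)
    (l12 : ∀ a a', (α a).1 = (α a').1 → (α a).2.1 = (α a').2.1 → a = a')
    (l13 : ∀ a a', (α a).1 = (α a').1 → (α a).2.2 = (α a').2.2 → a = a')
    (l23 : ∀ a a', (α a).2.1 = (α a').2.1 → (α a).2.2 = (α a').2.2 → a = a')
    (w : Grid [s1, s2, s3]) (hw : inBox (α 0) w)
    (C : Finset (Grid [s1, s2, s3])) (hC : C ⊆ Ball [s1, s2, s3] w) :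
    Good K [s1, s2, s3] b C := by
  classical
  obtain ⟨G0, hG0⟩ : ∃ G : Fin (b + 1) → Grid [s1, s2, s3], (∀ a, inBox (α a) (G a)) := by
    obtain ⟨G, hG, _⟩ := exists_choice α l12 l13 l23 w hw (⟨0, h1⟩, ⟨0, h2⟩, ⟨0, h3⟩)
    exact ⟨G, hG⟩
  let α' : Fin b → Box s1 s2 s3 := fun a => α a.succ
  obtain ⟨y, hy⟩ := Big.exists_forall (K := K)
    (fun γ : Box s1 s2 s3 => {y : Fin b → Coord [s1, s2, s3] → K | (boxSet γ ∩ C).card +
      ∑ a : Fin b, (boxSet γ ∩ Ball [s1, s2, s3] (G0 a.succ)).card ≤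
        finrank K (boxSpace K α' C γ y)})
    (fun γ => boxSpace_big α' C γ _) (by
      intro γ
      obtain ⟨G, hG1, hG2, hG3⟩ := exists_choice α l12 l13 l23 w hw γ
      refine ⟨fun a => cpt [s1, s2, s3] (G a.succ), ?_⟩
      refine le_trans ?_ (Submodule.finrank_mono (le_boxSpace α' C γ (fun a => G a.succ)
        (fun a => hG1 a.succ)))
      refine le_trans (le_of_eq ?_) (finrank_disjoint_family (boxSet γ ∩ C)
        (fun a : Fin b => boxSet γ ∩ Ball [s1, s2, s3] (G a.succ)) (fun a => ?_)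
        (fun a a' h => hG3 _ _ (fun h' => h (Fin.succ_injective _ h'))))
      · congr 1
        exact Finset.sum_congr rfl fun a _ => card_box_ball γ (α a.succ) _ _ (hG0 a.succ) (hG1 a.succ)
      · refine Finset.disjoint_of_subset_right ?_ (hG3 a.succ 0 (Fin.succ_ne_zero a))
        rw [hG2]
        exact Finset.inter_subset_inter_left hC)
  refine ⟨fun a => maskL K (α' a) (y a), ?_⟩
  -- sum over the boxes
  refine le_trans ?_ (Submodule.finrank_mono (iSup_le fun γ => boxSpace_le α' C γ y))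
  refine le_trans ?_ (sum_finrank_le_iSup (K := K) boxSet (fun γ => boxSpace K α' C γ y)
    (fun γ => boxSpace_le_box α' C γ y) fun γ γ' h => boxSet_disjoint h)
  refine le_trans ?_ (Finset.sum_le_sum fun γ _ => hy γ)
  rw [Finset.sum_add_distrib, sum_card_box h1 h2 h3, Finset.sum_comm]
  have h8 : ∀ a ∈ (Finset.univ : Finset (Fin b)),
      ∑ γ : Box s1 s2 s3, (boxSet γ ∩ Ball [s1, s2, s3] (G0 a.succ)).card = D [s1, s2, s3] := by
    intro a _
    rw [sum_card_box h1 h2 h3, card_Ball]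
  rw [Finset.sum_congr rfl h8, Finset.sum_const, Finset.card_univ, Fintype.card_fin, smul_eq_mul]

/-- Base case with three large factors. -/
theorem base_three [Infinite K] (h1 : 1 ≤ s1 / 2) (h2 : 1 ≤ s2 / 2) (h13 : s1 / 2 ≤ s3 / 2)
    (h23 : s2 / 2 ≤ s3 / 2) (b : ℕ) (hb : b + 1 ≤ (s1 / 2) * (s2 / 2)) (w : Grid [s1, s2, s3])
    (C : Finset (Grid [s1, s2, s3])) (hC : C ⊆ Ball [s1, s2, s3] w) : Good K [s1, s2, s3] b C := by
  classical
  have h3 : 1 ≤ s3 / 2 := h1.trans h13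
  have hw1 := blk_lt h1 w.1
  have hw2 := blk_lt h2 w.2.1
  have hw3 := blk_lt h3 w.2.2.1
  obtain ⟨f⟩ : Nonempty (Fin (b + 1) ↪ Fin (s1 / 2) × Fin (s2 / 2)) :=
    Function.Embedding.nonempty_of_card_le (by simpa using hb)
  let β : Fin (s1 / 2) × Fin (s2 / 2) := (⟨blk s1 w.1, hw1⟩, ⟨blk s2 w.2.1, hw2⟩)
  let g : Fin (b + 1) → Fin (s1 / 2) × Fin (s2 / 2) := fun a => Equiv.swap (f 0) β (f a)
  have hg : Function.Injective g := (Equiv.injective _).comp f.injective
  have hg0 : g 0 = β := Equiv.swap_apply_left _ _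
  let c : ℕ := blk s3 w.2.2.1 + 2 * (s3 / 2) - blk s1 w.1 - blk s2 w.2.1
  have e3 : ∀ a : Fin (b + 1), ((g a).1.val + (g a).2.val + c) % (s3 / 2) < s3 / 2 := fun a =>
    Nat.mod_lt _ h3
  have hmod : ∀ n x y : ℕ, x < n → y < n → ∀ c : ℕ, (c + x) % n = (c + y) % n → x = y := by
    intro n x y hx hy c h
    have h5 : (c + x) ≡ (c + y) [MOD n] := h
    have h6 := Nat.ModEq.add_left_cancel' c h5
    have h7 : x % n = y % n := h6
    rwa [Nat.mod_eq_of_lt hx, Nat.mod_eq_of_lt hy] at h7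
  refine good_boxes h1 h2 h3 (fun a => ((g a).1, (g a).2,
    ⟨((g a).1.val + (g a).2.val + c) % (s3 / 2), e3 a⟩)) ?_ ?_ ?_ w ?_ C hC
  · intro a a' k1 k2
    exact hg (Prod.ext k1 k2)
  · intro a a' k1 k2
    have k1' : (g a).1 = (g a').1 := k1
    have k2' : ((g a).1.val + (g a).2.val + c) % (s3 / 2) =
      ((g a').1.val + (g a').2.val + c) % (s3 / 2) := congrArg Fin.val k2
    refine hg (Prod.ext k1' (Fin.ext (hmod (s3 / 2) _ _ (by have := (g a).2.2; omega)
      (by have := (g a').2.2; omega) ((g a).1.val + c) ?_)))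
    rw [show (g a).1.val + c + (g a).2.val = (g a).1.val + (g a).2.val + c by ring, k2', k1']
    congr 1
    ring
  · intro a a' k1 k2
    have k1' : (g a).2 = (g a').2 := k1
    have k2' : ((g a).1.val + (g a).2.val + c) % (s3 / 2) =
      ((g a').1.val + (g a').2.val + c) % (s3 / 2) := congrArg Fin.val k2
    refine hg (Prod.ext (Fin.ext (hmod (s3 / 2) _ _ (by have := (g a).1.2; omega)
      (by have := (g a').1.2; omega) ((g a).2.val + c) ?_)) k1')
    rw [show (g a).2.val + c + (g a).1.val = (g a).1.val + (g a).2.val + c by ring, k2', k1']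
    congr 1
    ring
  · refine ⟨?_, ?_, ?_⟩
    · change blk s1 w.1 = (g 0).1.val
      rw [hg0]
    · change blk s2 w.2.1 = (g 0).2.val
      rw [hg0]
    · change blk s3 w.2.2.1 = ((g 0).1.val + (g 0).2.val + c) % (s3 / 2)
      rw [hg0]
      have : blk s1 w.1 + blk s2 w.2.1 + c = blk s3 w.2.2.1 + 2 * (s3 / 2) := by
        simp only [c]; omega
      change blk s3 w.2.2.1 = (blk s1 w.1 + blk s2 w.2.1 + c) % (s3 / 2)
      rw [this, Nat.add_mul_mod_self_right, Nat.mod_eq_of_lt hw3]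

end three

end Pool.Agent.Lib.MP_635d71_ag.Two
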