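import Mathlib

/-!
# Sums of four triangular numbers, and classes with a given number of pairs
-/

namespace Pool.Agent.Lib.MP_635d71_ag

theorem exists_half (x : ℤ) (hx : Odd x) : ∃ t : ℤ, 1 ≤ t ∧ (2 * t - 1) ^ 2 = x ^ 2 := by
  obtain ⟨k, hk⟩ := hx
  rcases le_total 0 k with h | h
  · exact ⟨k + 1, by omega, by rw [hk]; ring⟩
  · rcases eq_or_lt_of_le h with h' | h'
    · exact ⟨1, le_rfl, by rw [hk, h']; ring⟩
    · exact ⟨-k, by omega, by rw [hk]; ring⟩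

/-- Every number is a sum of four triangular numbers. -/
theorem four_tri (m : ℕ) : ∃ t1 t2 t3 t4 : ℕ, t1 * (t1 - 1) + t2 * (t2 - 1) + t3 * (t3 - 1) +
    t4 * (t4 - 1) = 2 * m ∧ (t1 + t2 + t3 + t4 - 2) ^ 2 ≤ 4 * (2 * m + 1) := by
  obtain ⟨a, b, c, d, h⟩ := Nat.sum_four_squares (2 * m + 1)
  have hz : (a : ℤ) ^ 2 + b ^ 2 + c ^ 2 + d ^ 2 = 2 * m + 1 := by exact_mod_cast h
  have hodd : Odd ((a : ℤ) + b + c + d) := by
    have h1 : Odd ((a : ℤ) ^ 2 + b ^ 2 + c ^ 2 + d ^ 2) := by rw [hz]; exact ⟨m, by ring⟩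
    have h2 : Even (((a : ℤ) ^ 2 + b ^ 2 + c ^ 2 + d ^ 2) - (a + b + c + d)) := by
      have e : ((a : ℤ) ^ 2 + b ^ 2 + c ^ 2 + d ^ 2) - (a + b + c + d) =
          a * (a - 1) + b * (b - 1) + c * (c - 1) + d * (d - 1) := by ring
      rw [e]
      exact (((Int.even_mul_pred_self _).add (Int.even_mul_pred_self _)).add
        (Int.even_mul_pred_self _)).add (Int.even_mul_pred_self _)
    have e : (a : ℤ) + b + c + d = (a ^ 2 + b ^ 2 + c ^ 2 + d ^ 2) -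
        ((a ^ 2 + b ^ 2 + c ^ 2 + d ^ 2) - (a + b + c + d)) := by ring
    rw [e]
    exact h1.sub_even h2
  obtain ⟨t1, p1, q1⟩ := exists_half ((a : ℤ) + b + c + d) hodd
  obtain ⟨t2, p2, q2⟩ := exists_half ((a : ℤ) + b - c - d) (by
    have : (a : ℤ) + b - c - d = (a + b + c + d) - 2 * (c + d) := by ring
    rw [this]; exact hodd.sub_even ⟨c + d, by ring⟩)
  obtain ⟨t3, p3, q3⟩ := exists_half ((a : ℤ) - b + c - d) (by
    have : (a : ℤ) - b + c - d = (a + b + c + d) - 2 * (b + d) := by ring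
    rw [this]; exact hodd.sub_even ⟨b + d, by ring⟩)
  obtain ⟨t4, p4, q4⟩ := exists_half ((a : ℤ) - b - c + d) (by
    have : (a : ℤ) - b - c + d = (a + b + c + d) - 2 * (b + c) := by ring
    rw [this]; exact hodd.sub_even ⟨b + c, by ring⟩)
  have hsum : (2 * t1 - 1) ^ 2 + (2 * t2 - 1) ^ 2 + (2 * t3 - 1) ^ 2 + (2 * t4 - 1) ^ 2 =
      4 * (2 * (m : ℤ) + 1) := by
    rw [q1, q2, q3, q4, ← hz]; ring
  lift t1 to ℕ using by omega
  lift t2 to ℕ using by omega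
  lift t3 to ℕ using by omega
  lift t4 to ℕ using by omega
  obtain ⟨u1, rfl⟩ : ∃ u, t1 = u + 1 := ⟨t1 - 1, by omega⟩
  obtain ⟨u2, rfl⟩ : ∃ u, t2 = u + 1 := ⟨t2 - 1, by omega⟩
  obtain ⟨u3, rfl⟩ : ∃ u, t3 = u + 1 := ⟨t3 - 1, by omega⟩
  obtain ⟨u4, rfl⟩ : ∃ u, t4 = u + 1 := ⟨t4 - 1, by omega⟩
  refine ⟨u1 + 1, u2 + 1, u3 + 1, u4 + 1, ?_, ?_⟩
  · simp only [Nat.add_sub_cancel]
    zify
    push_cast at hsum
    linarith
  · rw [show u1 + 1 + (u2 + 1) + (u3 + 1) + (u4 + 1) - 2 = u1 + u2 + u3 + u4 + 2 by omega]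
    zify
    push_cast at hsum
    nlinarith [sq_nonneg ((u1 : ℤ) - u2), sq_nonneg ((u1 : ℤ) - u3), sq_nonneg ((u1 : ℤ) - u4),
      sq_nonneg ((u2 : ℤ) - u3), sq_nonneg ((u2 : ℤ) - u4), sq_nonneg ((u3 : ℤ) - u4)]

/-- Classes with a given number of pairs. -/
theorem exists_classes (δ z : ℕ) (hδ : δ ≠ 1) (hz : 4 * (δ + 1) ≤ z ^ 2) :
    ∃ (a : Fin 5 → ℕ) (e : ℕ), (e = 0 ∨ e = 1) ∧ a 4 = 2 * e ∧
      ∑ c, a c * (a c - 1) + e = δ ∧ ∑ c, a c ≤ z + 4 := by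
  have key : ∀ m, 2 * m ≤ δ → ∃ t1 t2 t3 t4 : ℕ, t1 * (t1 - 1) + t2 * (t2 - 1) + t3 * (t3 - 1) +
      t4 * (t4 - 1) = 2 * m ∧ t1 + t2 + t3 + t4 ≤ z + 2 := by
    intro m hm
    obtain ⟨t1, t2, t3, t4, h1, h2⟩ := four_tri m
    refine ⟨t1, t2, t3, t4, h1, ?_⟩
    have h3 : (t1 + t2 + t3 + t4 - 2) ^ 2 ≤ z ^ 2 := h2.trans (by omega)
    have h4 := (Nat.pow_le_pow_iff_left (by norm_num)).1 h3
    omega
  rcases Nat.even_or_odd δ with ⟨m, hm⟩ | ⟨m, hm⟩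
  · obtain ⟨t1, t2, t3, t4, h1, h2⟩ := key m (by omega)
    refine ⟨![t1, t2, t3, t4, 0], 0, Or.inl rfl, rfl, ?_, ?_⟩
    · simp only [Fin.sum_univ_five]
      simp only [Fin.isValue, Matrix.cons_val]
      omega
    · simp only [Fin.sum_univ_five]
      simp only [Fin.isValue, Matrix.cons_val]
      omega
  · obtain ⟨t1, t2, t3, t4, h1, h2⟩ := key (m - 1) (by omega)
    refine ⟨![t1, t2, t3, t4, 2], 1, Or.inr rfl, rfl, ?_, ?_⟩
    · simp only [Fin.sum_univ_five]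
      simp only [Fin.isValue, Matrix.cons_val]
      omega
    · simp only [Fin.sum_univ_five]
      simp only [Fin.isValue, Matrix.cons_val]
      omega

end Pool.Agent.Lib.MP_635d71_ag
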