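import Mathlib
import Pool.Agent.Lib.MP_635d71_ag.App

/-!
# Induction on the number of factors for good sets of cells
-/

open Module Submodule

namespace Pool.Agent.Lib.MP_635d71_ag

variable {K : Type} [Field K]

theorem Good.mono {l : List ℕ} {b : ℕ} {C C' : Finset (Grid l)} (hC : C ⊆ C')
    (h : Good K l b C') : Good K l b C := by
  obtain ⟨x, hx⟩ := h.finrank_sup (coordSub K C) (coordSub_mono hC)
  exact ⟨x, by rwa [finrank_coordSub] at hx⟩

theorem Good.drop_one {l : List ℕ} {b : ℕ} {C : Finset (Grid l)} (h : Good K l (b + 1) C) :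
    Good K l b C := by
  obtain ⟨x, hx⟩ := h
  refine ⟨fun a => x a.succ, ?_⟩
  rw [iSup_fin_succ'] at hx
  have h0 : coordSub K C ⊔ (T l (x 0) ⊔ ⨆ a : Fin b, T l (x a.succ)) =
      T l (x 0) ⊔ (coordSub K C ⊔ ⨆ a : Fin b, T l (x a.succ)) := sup_left_comm _ _ _
  rw [h0] at hx
  have h1 := Submodule.finrank_add_le_finrank_add_finrank (T l (x 0))
    (coordSub K C ⊔ ⨆ a : Fin b, T l (x a.succ))
  have h2 := finrank_T_le l (x 0)
  have h3 : (b + 1) * D l = b * D l + D l := by ring
  change C.card + b * D l ≤ finrank K ↥(coordSub K C ⊔ ⨆ a : Fin b, T l (x a.succ))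
  omega

theorem Good.drop_le {l : List ℕ} {b b' : ℕ} {C : Finset (Grid l)} (hb : b ≤ b')
    (h : Good K l b' C) : Good K l b C := by
  obtain ⟨i, rfl⟩ := Nat.exists_eq_add_of_le hb
  clear hb
  induction i with
  | zero => exact h
  | succ i ih => exact ih h.drop_one

/-- Cells near the word `o`. -/
def cset (z O : List ℕ) (o : Grid O) (F Q : Finset (Grid z)) : Finset (Grid (O ++ z)) :=
  Finset.univ.filter fun g => (firstPart z O g ∈ Ball O o ∧ lastPart z O g ∈ F) ∨
    (firstPart z O g = o ∧ lastPart z O g ∈ Q)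

theorem mem_cset (z O : List ℕ) (o : Grid O) (F Q : Finset (Grid z)) (g : Grid (O ++ z)) :
    g ∈ cset z O o F Q ↔ (firstPart z O g ∈ Ball O o ∧ lastPart z O g ∈ F) ∨
    (firstPart z O g = o ∧ lastPart z O g ∈ Q) := by simp [cset]

theorem card_cset_le (z O : List ℕ) (o : Grid O) (F Q : Finset (Grid z)) :
    (cset z O o F Q).card ≤ Q.card + F.card * D O := by
  classical
  have h : cset z O o F Q ⊆ (Q.image (fun g => app z O o g)) ∪
      ((Ball O o ×ˢ F).image (fun x => app z O x.1 x.2)) := by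
    intro g hg
    rw [mem_cset] at hg
    rw [Finset.mem_union, Finset.mem_image, Finset.mem_image]
    rcases hg with ⟨h1, h2⟩ | ⟨h1, h2⟩
    · exact Or.inr ⟨(firstPart z O g, lastPart z O g), Finset.mem_product.2 ⟨h1, h2⟩,
        app_parts z O g⟩
    · exact Or.inl ⟨lastPart z O g, h2, by rw [← h1]; exact app_parts z O g⟩
  refine (Finset.card_le_card h).trans ((Finset.card_union_le _ _).trans ?_)
  have h1 := Finset.card_image_le (s := Q) (f := fun g => app z O o g)
  have h2 := Finset.card_image_le (s := Ball O o ×ˢ F) (f := fun x => app z O x.1 x.2)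
  rw [Finset.card_product, card_Ball, mul_comm] at h2
  omega

theorem slice_cset (z : List ℕ) {s : ℕ} (O : List ℕ) (o : Grid (s :: O)) (F Q : Finset (Grid z))
    (hFQ : F ⊆ Q) (j : Fin s) :
    slice (l := O ++ z) (cset z (s :: O) o F Q) j ⊆ cset z O o.2 F Q := by
  intro g hg
  have hg' : ((j, g) : Grid (s :: (O ++ z))) ∈ cset z (s :: O) o F Q := by
    simpa [slice] using hg
  rw [mem_cset] at hg' ⊢
  rcases hg' with ⟨h1, h2⟩ | ⟨h1, h2⟩
  · have h1' : ((j, firstPart z O g) : Grid (s :: O)) ∈ Ball (s :: O) (o.1, o.2) := h1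
    rw [mem_Ball_cons] at h1'
    rcases h1' with ⟨_, h3⟩ | h3
    · exact Or.inl ⟨h3, h2⟩
    · exact Or.inr ⟨h3, hFQ h2⟩
  · have h1' : ((j, firstPart z O g) : Fin s × Grid O) = o := h1
    exact Or.inr ⟨congrArg Prod.snd h1', h2⟩

theorem good_ind [Infinite K] (z : List ℕ) (F Q : Finset (Grid z)) (hFQ : F ⊆ Q) (Θ c w : ℕ)
    (hc : 1 ≤ c) (hbase : ∀ b, b * Θ ≤ z.prod + c * Θ → Good K z b Q)
    (hnum : Θ * (Q.card + F.card + c * Θ) ≤ w * z.prod) : ∀ (O : List ℕ), (∀ s ∈ O, 1 ≤ s) →
    D (O ++ z) + w ≤ Θ → ∀ b, b * Θ ≤ (O ++ z).prod + c * Θ → ∀ o : Grid O,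
      Good K (O ++ z) b (cset z O o F Q) := by
  intro O
  induction O with
  | nil =>
    intro _ _ b hb o
    refine Good.mono ?_ (hbase b hb)
    intro g hg
    rw [mem_cset] at hg
    rcases hg with ⟨_, h⟩ | ⟨_, h⟩
    · exact hFQ h
    · exact h
  | cons s O ih =>
    intro hO hΘ b hb o
    have hs := hO s List.mem_cons_self
    have hO' : ∀ a ∈ O, 1 ≤ a := fun a ha => hO a (List.mem_cons_of_mem _ ha)
    have hD1 : D ((s :: O) ++ z) = (s - 1) + D (O ++ z) := rfl
    have hP1 : ((s :: O) ++ z).prod = s * (O ++ z).prod := by simp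
    rw [hD1] at hΘ
    rw [hP1] at hb
    obtain ⟨b', hb'⟩ : ∃ b', (b + s - 1) / s = b' := ⟨_, rfl⟩
    have e1 : s * b' ≤ b + s - 1 := by
      rw [← hb']
      exact Nat.mul_div_le _ _
    have e2 : b ≤ s * b' := by
      have h1 := Nat.lt_mul_div_succ (b + s - 1) (show 0 < s by omega)
      rw [hb'] at h1
      have h2 : s * (b' + 1) = s * b' + s := by ring
      omega
    set P' := (O ++ z).prod with hP'
    have e3 : b' * Θ ≤ P' + c * Θ := by
      have h1 : s * (b' * Θ) ≤ s * (P' + c * Θ) := by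
        calc s * (b' * Θ) = s * b' * Θ := by ring
          _ ≤ (b + s - 1) * Θ := Nat.mul_le_mul_right _ e1
          _ = b * Θ + (s - 1) * Θ := by
            rw [Nat.add_sub_assoc hs, add_mul]
          _ ≤ s * P' + c * Θ + (s - 1) * Θ := Nat.add_le_add_right hb _
          _ ≤ s * P' + c * Θ + (s - 1) * (c * Θ) := by
            have : 1 * Θ ≤ c * Θ := Nat.mul_le_mul_right _ hc
            rw [one_mul] at this
            exact Nat.add_le_add_left (Nat.mul_le_mul_left _ this) _
          _ = s * (P' + c * Θ) := by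
            obtain ⟨s', rfl⟩ : ∃ s', s = s' + 1 := ⟨s - 1, by omega⟩
            rw [Nat.add_sub_cancel]
            ring
      exact Nat.le_of_mul_le_mul_left h1 (by omega)
    have hG := ih hO' (by omega) b' e3 o.2
    have hG2 : Good K (s :: (O ++ z)) (∑ _j : Fin s, b') (cset z (s :: O) o F Q) := by
      refine good_step (O ++ z) (fun _ : Fin s => b') (cset z (s :: O) o F Q)
        (fun j => Good.mono (slice_cset z O o F Q hFQ j) hG) ?_
      intro j
      have h1 := (Finset.card_le_card (slice_cset z O o F Q hFQ j)).trans (card_cset_le z O o.2 F Q)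
      have h2 : ∑ _j' ∈ Finset.univ.erase j, b' = (s - 1) * b' := by
        rw [Finset.sum_const, Finset.card_erase_of_mem (Finset.mem_univ _), Finset.card_univ,
          Fintype.card_fin, smul_eq_mul]
      rw [h2]
      change _ ≤ (O ++ z).prod
      rw [← hP']
      refine (Nat.add_le_add_right (Nat.add_le_add_right h1 _) _).trans ?_
      set DO := D O
      set Dl := (s - 1) + D (O ++ z) with hDl
      have h3 : b' * D (O ++ z) + (s - 1) * b' = b' * Dl := by rw [hDl]; ring
      have hDO : DO ≤ O.prod := D_le_prod O hO'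
      have hDO1 : 1 ≤ DO := one_le_D O
      have hPP : P' = O.prod * z.prod := by rw [hP', List.prod_append]
      have h4 : Θ * (Q.card + F.card * DO + b' * Dl) ≤ Θ * P' := by
        obtain ⟨v, hv⟩ : ∃ v, Θ = Dl + v := ⟨Θ - Dl, by omega⟩
        have hvw : w ≤ v := by omega
        have h5 : Θ * (Q.card + F.card * DO + c * Dl) ≤ v * P' := by
          calc Θ * (Q.card + F.card * DO + c * Dl) ≤
              Θ * (Q.card * DO + F.card * DO + c * Θ * DO) := by
                refine Nat.mul_le_mul_left _ (Nat.add_le_add (Nat.add_le_add_right ?_ _) ?_)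
                · exact Nat.le_mul_of_pos_right _ hDO1
                · refine (Nat.mul_le_mul_left c (show Dl ≤ Θ by omega)).trans ?_
                  exact Nat.le_mul_of_pos_right _ hDO1
            _ = DO * (Θ * (Q.card + F.card + c * Θ)) := by ring
            _ ≤ DO * (w * z.prod) := Nat.mul_le_mul_left _ hnum
            _ ≤ O.prod * (v * z.prod) := Nat.mul_le_mul hDO (Nat.mul_le_mul_right _ hvw)
            _ = v * P' := by rw [hPP]; ring
        calc Θ * (Q.card + F.card * DO + b' * Dl) =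
            Θ * (Q.card + F.card * DO) + (b' * Θ) * Dl := by ring
          _ ≤ Θ * (Q.card + F.card * DO) + (P' + c * Θ) * Dl :=
            Nat.add_le_add_left (Nat.mul_le_mul_right _ e3) _
          _ = Θ * (Q.card + F.card * DO + c * Dl) + P' * Dl := by ring
          _ ≤ v * P' + P' * Dl := Nat.add_le_add_right h5 _
          _ = Θ * P' := by rw [hv]; ring
      rw [add_assoc, h3]
      have hΘ1 : 0 < Θ := by
        have := one_le_D (O ++ z)
        omega
      exact Nat.le_of_mul_le_mul_left h4 hΘ1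
    rw [Finset.sum_const, Finset.card_univ, Fintype.card_fin, smul_eq_mul] at hG2
    exact Good.drop_le e2 hG2

end Pool.Agent.Lib.MP_635d71_ag
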