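import Mathlib

/-!
# Classes with a given number of pairs
-/

namespace Pool.Agent.Lib.MP_635d71_ag

/-- `G` is the number of ordered pairs of different elements in the same class, `m` the number of
elements. -/
inductive Cl : ℕ → ℕ → Prop
  | zero : Cl 0 0
  | add (T G m : ℕ) : Cl G m → Cl (G + T * (T - 1)) (m + T)

/-- Number of pairs with the same label. -/
def same (cls : ℕ → ℕ) (m : ℕ) : ℕ :=
  ((Finset.range m ×ˢ Finset.range m).filter (fun x => cls x.1 = cls x.2)).card

theorem same_eq_sum (cls : ℕ → ℕ) (m : ℕ) : same cls m =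
    ∑ x ∈ Finset.range m, ∑ y ∈ Finset.range m, if cls x = cls y then 1 else 0 := by
  rw [same, Finset.card_filter, Finset.sum_product]

theorem same_congr (cls cls' : ℕ → ℕ) (m : ℕ) (h : ∀ x < m, cls x = cls' x) :
    same cls m = same cls' m := by
  rw [same_eq_sum, same_eq_sum]
  refine Finset.sum_congr rfl fun x hx => Finset.sum_congr rfl fun y hy => ?_
  rw [h x (Finset.mem_range.1 hx), h y (Finset.mem_range.1 hy)]

theorem same_add (cls : ℕ → ℕ) (m T L : ℕ) (h1 : ∀ y < T, cls (m + y) = L)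
    (h2 : ∀ x < m, cls x ≠ L) : same cls (m + T) = same cls m + T ^ 2 := by
  rw [same_eq_sum, same_eq_sum, Finset.sum_range_add]
  have e1 : ∀ x ∈ Finset.range m, (∑ y ∈ Finset.range (m + T), if cls x = cls y then 1 else 0) =
      ∑ y ∈ Finset.range m, if cls x = cls y then 1 else 0 := by
    intro x hx
    rw [Finset.sum_range_add]
    have : ∑ y ∈ Finset.range T, (if cls x = cls (m + y) then 1 else 0) = 0 :=
      Finset.sum_eq_zero fun y hy => by
        rw [h1 y (Finset.mem_range.1 hy), if_neg (h2 x (Finset.mem_range.1 hx))]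
    rw [this, add_zero]
  have e2 : ∀ x ∈ Finset.range T, (∑ y ∈ Finset.range (m + T),
      if cls (m + x) = cls y then 1 else 0) = T := by
    intro x hx
    rw [Finset.sum_range_add]
    have h3 : ∑ y ∈ Finset.range m, (if cls (m + x) = cls y then 1 else 0) = 0 :=
      Finset.sum_eq_zero fun y hy => by
        rw [h1 x (Finset.mem_range.1 hx), if_neg (h2 y (Finset.mem_range.1 hy)).symm]
    have h4 : ∑ y ∈ Finset.range T, (if cls (m + x) = cls (m + y) then 1 else 0) = T := by
      rw [Finset.sum_congr rfl (g := fun _ => 1) fun y hy => by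
        rw [h1 x (Finset.mem_range.1 hx), h1 y (Finset.mem_range.1 hy), if_pos rfl]]
      simp
    rw [h3, h4, zero_add]
  rw [Finset.sum_congr rfl e1, Finset.sum_congr rfl e2]
  simp [pow_two]

theorem exists_big_label (cls : ℕ → ℕ) (m : ℕ) : ∃ L, ∀ x < m, cls x ≠ L := by
  refine ⟨(∑ x ∈ Finset.range m, cls x) + 1, fun x hx h => ?_⟩
  have := Finset.single_le_sum (f := cls) (fun _ _ => Nat.zero_le _) (Finset.mem_range.2 hx)
  omega

theorem exists_extend (cls : ℕ → ℕ) (m T : ℕ) : ∃ cls' : ℕ → ℕ, (∀ x < m, cls' x = cls x) ∧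
    same cls' (m + T) = same cls m + T ^ 2 := by
  obtain ⟨L, hL⟩ := exists_big_label cls m
  refine ⟨fun x => if x < m then cls x else L, fun x hx => if_pos hx, ?_⟩
  rw [same_add _ m T L]
  · rw [same_congr _ cls m fun x hx => if_pos hx]
  · intro y _
    exact if_neg (by omega)
  · intro x hx
    rw [if_pos hx]
    exact hL x hx

theorem Cl.labels {G m : ℕ} (h : Cl G m) (s : ℕ) :
    ∃ cls : ℕ → ℕ, same cls m = G + m ∧ same cls (m + s) = G + (m + s) := by
  have h0 : ∃ cls : ℕ → ℕ, same cls m = G + m := by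
    induction h with
    | zero => exact ⟨id, by simp [same]⟩
    | add T G m _ ih =>
      obtain ⟨cls, hcls⟩ := ih
      obtain ⟨cls', _, h2⟩ := exists_extend cls m T
      refine ⟨cls', ?_⟩
      rw [h2, hcls]
      rcases T with _ | T
      · simp
      · rw [Nat.add_sub_cancel]; ring
  obtain ⟨cls, hcls⟩ := h0
  induction s with
  | zero => exact ⟨cls, hcls, hcls⟩
  | succ s ih =>
    obtain ⟨cls1, h1, h2⟩ := ih
    obtain ⟨cls', h3, h4⟩ := exists_extend cls1 (m + s) 1
    refine ⟨cls', ?_, ?_⟩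
    · rw [← h1]
      exact same_congr _ _ m fun x hx => h3 x (by omega)
    · rw [← add_assoc, h4, h2]
      ring

theorem same_compl (cls : ℕ → ℕ) (t : ℕ) :
    ((Finset.range t ×ˢ Finset.range t).filter (fun x => x.1 = x.2 ∨ cls x.1 ≠ cls x.2)).card +
      same cls t = t ^ 2 + t := by
  classical
  rw [same]
  have h1 := Finset.card_union_add_card_inter
    ((Finset.range t ×ˢ Finset.range t).filter (fun x => x.1 = x.2 ∨ cls x.1 ≠ cls x.2))
    ((Finset.range t ×ˢ Finset.range t).filter (fun x => cls x.1 = cls x.2))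
  have h2 : (Finset.range t ×ˢ Finset.range t).filter (fun x => x.1 = x.2 ∨ cls x.1 ≠ cls x.2) ∪
      (Finset.range t ×ˢ Finset.range t).filter (fun x => cls x.1 = cls x.2) =
      Finset.range t ×ˢ Finset.range t := by
    rw [← Finset.filter_or]
    refine Finset.filter_true_of_mem fun x _ => ?_
    tauto
  have h3 : (Finset.range t ×ˢ Finset.range t).filter (fun x => x.1 = x.2 ∨ cls x.1 ≠ cls x.2) ∩
      (Finset.range t ×ˢ Finset.range t).filter (fun x => cls x.1 = cls x.2) =
      (Finset.range t).image (fun x => (x, x)) := by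
    ext ⟨x, y⟩
    simp only [Finset.mem_inter, Finset.mem_filter, Finset.mem_product, Finset.mem_range,
      Finset.mem_image, Prod.mk.injEq]
    constructor
    · rintro ⟨⟨⟨h1, h2⟩, h3⟩, _, h4⟩
      have : x = y := h3.resolve_right fun h => h h4
      exact ⟨x, h1, rfl, this⟩
    · rintro ⟨a, ha, rfl, rfl⟩
      exact ⟨⟨⟨ha, ha⟩, Or.inl rfl⟩, ⟨ha, ha⟩, rfl⟩
  rw [h2, h3, Finset.card_image_of_injective _ (fun x y h => (Prod.mk.inj h).1),
    Finset.card_product, Finset.card_range] at h1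
  rw [← h1, pow_two]

/-- Sizes of the classes. -/
theorem exists_Cl (G : ℕ) (hG : Even G) : ∃ m, Cl G m ∧ m ^ 2 ≤ 5 * G := by
  induction G using Nat.strong_induction_on with
  | _ G ih =>
    rcases Nat.lt_or_ge G 72 with h72 | h72
    · -- a table
      let tab : List (ℕ × ℕ × ℕ × ℕ) := [(0, 0, 0, 0), (2, 0, 0, 0), (2, 2, 0, 0), (3, 0, 0, 0),
        (3, 2, 0, 0), (3, 2, 2, 0), (4, 0, 0, 0), (4, 2, 0, 0), (4, 2, 2, 0), (4, 3, 0, 0),
        (5, 0, 0, 0), (5, 2, 0, 0), (5, 2, 2, 0), (5, 3, 0, 0), (5, 3, 2, 0), (6, 0, 0, 0),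
        (6, 2, 0, 0), (6, 2, 2, 0), (6, 3, 0, 0), (6, 3, 2, 0), (6, 3, 2, 2), (7, 0, 0, 0),
        (7, 2, 0, 0), (7, 2, 2, 0), (7, 3, 0, 0), (7, 3, 2, 0), (7, 3, 2, 2), (7, 4, 0, 0),
        (8, 0, 0, 0), (8, 2, 0, 0), (8, 2, 2, 0), (8, 3, 0, 0), (8, 3, 2, 0), (8, 3, 2, 2),
        (8, 4, 0, 0), (8, 4, 2, 0)]
      have htab : ∀ i < 36, 2 * i = 0 + (tab.getD i (0, 0, 0, 0)).1 *
          ((tab.getD i (0, 0, 0, 0)).1 - 1) + (tab.getD i (0, 0, 0, 0)).2.1 *
          ((tab.getD i (0, 0, 0, 0)).2.1 - 1) + (tab.getD i (0, 0, 0, 0)).2.2.1 *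
          ((tab.getD i (0, 0, 0, 0)).2.2.1 - 1) + (tab.getD i (0, 0, 0, 0)).2.2.2 *
          ((tab.getD i (0, 0, 0, 0)).2.2.2 - 1) ∧ (0 + (tab.getD i (0, 0, 0, 0)).1 +
          (tab.getD i (0, 0, 0, 0)).2.1 + (tab.getD i (0, 0, 0, 0)).2.2.1 +
          (tab.getD i (0, 0, 0, 0)).2.2.2) ^ 2 ≤ 5 * (2 * i) := by
        decide
      obtain ⟨i, hi⟩ := hG
      obtain ⟨h1, h2⟩ := htab i (by omega)
      have hGi : G = 2 * i := by omega
      refine ⟨_, ?_, by rw [hGi]; exact h2⟩
      rw [hGi, h1]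
      exact Cl.add _ _ _ (Cl.add _ _ _ (Cl.add _ _ _ (Cl.add _ _ _ Cl.zero)))
    · -- the largest clique
      obtain ⟨T, hT1, hT2⟩ : ∃ T, T * (T - 1) ≤ G ∧ G < (T + 1) * T := by
        have hex : ∃ T, G < (T + 1) * T := ⟨G + 1, by nlinarith⟩
        classical
        refine ⟨Nat.find hex, ?_, Nat.find_spec hex⟩
        by_contra hcon
        push Not at hcon
        rcases Nat.eq_zero_or_pos (Nat.find hex) with h0 | h0
        · rw [h0] at hcon; simp at hcon
        · obtain ⟨T, hT⟩ : ∃ T, Nat.find hex = T + 1 := ⟨Nat.find hex - 1, by omega⟩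
          rw [hT, Nat.add_sub_cancel] at hcon
          exact Nat.find_min hex (m := T) (by omega) hcon
      have hT9 : 9 ≤ T := by
        by_contra hcon
        have : (T + 1) * T ≤ 9 * 8 := Nat.mul_le_mul (by omega) (by omega)
        omega
      obtain ⟨T', rfl⟩ : ∃ T', T = T' + 1 := ⟨T - 1, by omega⟩
      rw [Nat.add_sub_cancel] at hT1
      have hev : Even (G - (T' + 1) * T') := by
        rw [Nat.even_sub hT1]
        refine iff_of_true hG ?_
        rw [mul_comm]
        exact Nat.even_mul_succ_self T'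
      have hlt : G - (T' + 1) * T' < 2 * (T' + 1) := by
        have : (T' + 1 + 1) * (T' + 1) = (T' + 1) * T' + 2 * (T' + 1) := by ring
        omega
      obtain ⟨m, hm1, hm2⟩ := ih (G - (T' + 1) * T') (by
        have : 0 < (T' + 1) * T' := Nat.mul_pos (by omega) (by omega)
        omega) hev
      refine ⟨m + (T' + 1), ?_, ?_⟩
      · have h1 := Cl.add (T' + 1) _ _ hm1
        rw [Nat.add_sub_cancel] at h1
        have h2 : G - (T' + 1) * T' + (T' + 1) * T' = G := by omega
        rwa [h2] at h1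
      · have h1 : m ^ 2 ≤ 10 * T' + 10 := by omega
        have h2 : m + 6 ≤ 2 * T' := by
          by_contra hcon
          push Not at hcon
          have h3 : (2 * T' - 5) ^ 2 ≤ m ^ 2 := Nat.pow_le_pow_left (by omega) 2
          obtain ⟨s, rfl⟩ := Nat.exists_eq_add_of_le (show 8 ≤ T' by omega)
          rw [show 2 * (8 + s) - 5 = 11 + 2 * s by omega] at h3
          nlinarith
        have h4 : 2 * (T' + 1) * (m + 6) ≤ 2 * (T' + 1) * (2 * T') := Nat.mul_le_mul_left _ h2
        nlinarith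

/-- Classes on `t` elements with `G` ordered pairs of different elements in the same class; the
first `m` elements contain all these pairs. -/
theorem exists_cls (t G : ℕ) (hG : Even G) (h : 5 * G ≤ t ^ 2) : ∃ (cls : ℕ → ℕ) (m : ℕ),
    m ^ 2 ≤ 5 * G ∧ m ≤ t ∧ same cls m = G + m ∧
    ((Finset.range t ×ˢ Finset.range t).filter (fun x => x.1 = x.2 ∨ cls x.1 ≠ cls x.2)).card + G =
      t ^ 2 := by
  obtain ⟨m, hm1, hm2⟩ := exists_Cl G hG
  have hmt : m ≤ t := by
    by_contra hcon
    have h1 : (t + 1) ^ 2 ≤ m ^ 2 := Nat.pow_le_pow_left (by omega) 2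
    nlinarith
  obtain ⟨s, rfl⟩ := Nat.exists_eq_add_of_le hmt
  obtain ⟨cls, h1, h2⟩ := hm1.labels s
  refine ⟨cls, m, hm2, hmt, h1, ?_⟩
  have h3 := same_compl cls (m + s)
  omega

end Pool.Agent.Lib.MP_635d71_ag
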