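import Mathlib
import Pool.Agent.Lib.MP_635d71_ag.Eps

/-!
# Flows between the slices of a format with three factors

For two points in the same slice the tensor `x ⊗ y'` lies in both tangent spaces; the difference of
the first vectors decides to which slice it contributes.
-/

open Module Submodule Polynomial

namespace Pool.Agent.Lib.MP_635d71_ag

variable {K : Type} [Field K]

/-- The first vector of a tuple, the other vectors of another tuple. -/
def mix {A : ℕ} {l : List ℕ} (x y : Coord (A :: l) → K) : Coord (A :: l) → K := cons (hd x) (tl y)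

theorem T_single_eq_top (B : ℕ) (y : Coord [B] → K) : T [B] y = ⊤ := by
  rw [eq_top_iff]
  intro f _
  have h : f = ten (fun b => f (b, ())) (E [] (tl y)) := by
    ext ⟨b, c⟩
    cases c
    rw [ten_apply]
    simp [E]
  rw [h]
  exact ten_E_mem_T y _

theorem ten_mem_T_two {A B : ℕ} (x : Coord [A, B] → K) (f : Grid [B] → K) :
    ten (hd x) f ∈ T [A, B] x :=
  ten_mem_T x (by rw [T_single_eq_top]; trivial)

theorem E_mix_mem_left {A B : ℕ} (x y : Coord [A, B] → K) : E [A, B] (mix x y) ∈ T [A, B] x :=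
  ten_mem_T_two x _

theorem E_mix_mem_right {A B : ℕ} (x y : Coord [A, B] → K) : E [A, B] (mix x y) ∈ T [A, B] y :=
  ten_E_mem_T y (hd x)

/-- The linear map `v ↦ mix (v p) (v p')`. -/
def mixL (K : Type) [Field K] {ι : Type} (A : ℕ) (l : List ℕ) (p p' : ι) :
    (ι → Coord (A :: l) → K) →ₗ[K] (Coord (A :: l) → K) where
  toFun := fun v => mix (v p) (v p')
  map_add' := fun v w => by
    ext (c | c) <;> rfl
  map_smul' := fun a v => by
    ext (c | c) <;> rfl

theorem ten_sub_left {q : ℕ} {l : List ℕ} (u u' : Fin q → K) (f : Grid l → K) :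
    ten u f - ten u' f = (ten (u - u') f : Grid (q :: l) → K) := by
  ext c
  simp [ten, sub_mul]

theorem ten_smul_left {q : ℕ} {l : List ℕ} (a : K) (u : Fin q → K) (f : Grid l → K) :
    ten (a • u) f = a • (ten u f : Grid (q :: l) → K) := by
  ext c
  simp [ten, mul_assoc]

/-- Flows between the slices. -/
theorem flow [Infinite K] {q A B : ℕ} {ι : Type} [Finite ι] (sl : ι → Fin q) (cls : ι → ℕ)
    (n1 n2 : Fin q → Fin q) (C : Finset (Grid [q, A, B])) (n : Fin q → ℕ)
    (hn : ∀ j, ∃ v : ι → Coord [A, B] → K, n j ≤ finrank K ↥(coordSub K (slice C j) ⊔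
      span K (({f | ∃ p, sl p = j ∧ f ∈ T [A, B] (v p)} ∪
        {f | ∃ p p', p ≠ p' ∧ sl p = sl p' ∧ ((cls p ≠ cls p' ∧ n1 (sl p) = j) ∨
          (cls p = cls p' ∧ n2 (sl p) = j)) ∧ f = E [A, B] (mix (v p) (v p'))}) ∪
        {f | ∃ p, f = E [A, B] (v p)}))) :
    ∃ x : ι → Coord [q, A, B] → K,
      ∑ j, n j ≤ finrank K ↥(coordSub K C ⊔ ⨆ p, T [q, A, B] (x p)) := by
  classical
  cases nonempty_fintype ι
  obtain ⟨c, hc⟩ : ∃ c : ι → K, ∀ p p', c p = c p' ↔ cls p = cls p' :=
    ⟨fun p => Infinite.natEmbedding K (cls p), fun p p' =>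
      (Infinite.natEmbedding K).injective.eq_iff⟩
  obtain ⟨d, hd⟩ : ∃ d : ι → K, Function.Injective d :=
    ⟨fun p => Infinite.natEmbedding K (Fintype.equivFin ι p).val,
      (Infinite.natEmbedding K).injective.comp
        (Fin.val_injective.comp (Fintype.equivFin ι).injective)⟩
  let u : ι → Fin q → K[X] := fun p j => Polynomial.C ((Pi.single (sl p) (1 : K) : Fin q → K) j) +
    X * Polynomial.C (c p * (Pi.single (n1 (sl p)) (1 : K) : Fin q → K) j) +
    X ^ 2 * Polynomial.C (d p * (Pi.single (n2 (sl p)) (1 : K) : Fin q → K) j)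
  have hu : ∀ p (ε : K), (fun j => (u p j).eval ε) = (Pi.single (sl p) (1 : K) : Fin q → K) +
      (ε * c p) • (Pi.single (n1 (sl p)) (1 : K) : Fin q → K) +
      (ε ^ 2 * d p) • (Pi.single (n2 (sl p)) (1 : K) : Fin q → K) := by
    intro p ε
    funext j
    simp only [u, eval_add, eval_mul, eval_C, eval_X, eval_pow, Pi.add_apply, Pi.smul_apply,
      smul_eq_mul]
    ring
  let L : ι → (ι → Coord [A, B] → K) →ₗ[K] (Coord [A, B] → K) := fun p => LinearMap.proj p
  let κ := {x : ι × ι // x.1 ≠ x.2 ∧ sl x.1 = sl x.2}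
  -- the direction of a pair
  let P : κ → Fin q → K[X] := fun k j => if cls k.1.1 = cls k.1.2 then
      Polynomial.C ((d k.1.1 - d k.1.2) * (Pi.single (n2 (sl k.1.1)) (1 : K) : Fin q → K) j)
    else Polynomial.C ((c k.1.1 - c k.1.2) * (Pi.single (n1 (sl k.1.1)) (1 : K) : Fin q → K) j) +
      X * Polynomial.C ((d k.1.1 - d k.1.2) * (Pi.single (n2 (sl k.1.1)) (1 : K) : Fin q → K) j)
  let Ω : κ → K × (ι → Coord [A, B] → K) → Grid [q, A, B] → K := fun k w =>
    ten (fun j => (P k j).eval w.1) (E [A, B] (mix (w.2 k.1.1) (w.2 k.1.2)))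
  let tgt : κ → Fin q := fun k => if cls k.1.1 = cls k.1.2 then n2 (sl k.1.1) else n1 (sl k.1.1)
  let co : κ → K := fun k => if cls k.1.1 = cls k.1.2 then d k.1.1 - d k.1.2 else
    c k.1.1 - c k.1.2
  have hco : ∀ k, co k ≠ 0 := by
    intro k
    simp only [co]
    split_ifs with h
    · exact sub_ne_zero.2 fun h' => k.2.1 (hd h')
    · exact sub_ne_zero.2 fun h' => h ((hc _ _).1 h')
  let ν : κ → (ι → Coord [A, B] → K) → Grid [A, B] → K := fun k v g =>
    co k * E [A, B] (mix (v k.1.1) (v k.1.2)) g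
  have hmixpoly : ∀ p p' : ι, LinePoly K (fun v : ι → Coord [A, B] → K =>
      E [A, B] (mix (v p) (v p'))) := fun p p' => linePoly_E [A, B] (mixL K A [B] p p')
  obtain ⟨w, hw⟩ := assembly_eps (K := K) [A, B] C L sl u
    (fun p j => by
      have h := congrFun (hu p 0) j
      change (u p j).eval 0 = _ at h
      rw [h]
      simp)
    Ω (fun k => linePoly_ten _ _ (LinePoly.of_poly (P k))
      (linePoly_E [A, B] ((mixL K A [B] k.1.1 k.1.2).comp
        (LinearMap.snd K K (ι → Coord [A, B] → K)))))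
    (by
      intro k w hw
      have h1 : ten (fun j => (u k.1.1 j).eval w.1) (E [A, B] (mix (w.2 k.1.1) (w.2 k.1.2))) -
          ten (fun j => (u k.1.2 j).eval w.1) (E [A, B] (mix (w.2 k.1.1) (w.2 k.1.2))) ∈
          ⨆ p, T [q, A, B] (cons (fun j => (u p j).eval w.1) (L p w.2)) := by
        refine Submodule.sub_mem _ ?_ ?_
        · refine (le_iSup (fun p => T [q, A, B] (cons (fun j => (u p j).eval w.1) (L p w.2)))
            k.1.1) ?_
          exact ten_mem_T (cons (fun j => (u k.1.1 j).eval w.1) (L k.1.1 w.2))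
            (E_mix_mem_left (w.2 k.1.1) (w.2 k.1.2))
        · refine (le_iSup (fun p => T [q, A, B] (cons (fun j => (u p j).eval w.1) (L p w.2)))
            k.1.2) ?_
          exact ten_mem_T (cons (fun j => (u k.1.2 j).eval w.1) (L k.1.2 w.2))
            (E_mix_mem_right (w.2 k.1.1) (w.2 k.1.2))
      rw [ten_sub_left, hu, hu, ← k.2.2] at h1
      by_cases h : cls k.1.1 = cls k.1.2
      · have hcc : c k.1.1 = c k.1.2 := (hc _ _).2 h
        have h2 : (Pi.single (sl k.1.1) (1 : K) : Fin q → K) +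
            (w.1 * c k.1.1) • (Pi.single (n1 (sl k.1.1)) (1 : K) : Fin q → K) +
            (w.1 ^ 2 * d k.1.1) • (Pi.single (n2 (sl k.1.1)) (1 : K) : Fin q → K) -
            ((Pi.single (sl k.1.1) (1 : K) : Fin q → K) +
            (w.1 * c k.1.2) • (Pi.single (n1 (sl k.1.1)) (1 : K) : Fin q → K) +
            (w.1 ^ 2 * d k.1.2) • (Pi.single (n2 (sl k.1.1)) (1 : K) : Fin q → K)) =
            w.1 ^ 2 • (fun j => (P k j).eval w.1) := by
          funext j
          simp only [P, if_pos h, hcc, eval_C, Pi.add_apply, Pi.sub_apply, Pi.smul_apply,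
            smul_eq_mul]
          ring
        rw [h2, ten_smul_left] at h1
        have h3 := Submodule.smul_mem _ (w.1 ^ 2)⁻¹ h1
        rwa [smul_smul, inv_mul_cancel₀ (pow_ne_zero 2 hw), one_smul] at h3
      · have h2 : (Pi.single (sl k.1.1) (1 : K) : Fin q → K) +
            (w.1 * c k.1.1) • (Pi.single (n1 (sl k.1.1)) (1 : K) : Fin q → K) +
            (w.1 ^ 2 * d k.1.1) • (Pi.single (n2 (sl k.1.1)) (1 : K) : Fin q → K) -
            ((Pi.single (sl k.1.1) (1 : K) : Fin q → K) +
            (w.1 * c k.1.2) • (Pi.single (n1 (sl k.1.1)) (1 : K) : Fin q → K) +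
            (w.1 ^ 2 * d k.1.2) • (Pi.single (n2 (sl k.1.1)) (1 : K) : Fin q → K)) =
            w.1 • (fun j => (P k j).eval w.1) := by
          funext j
          simp only [P, if_neg h, eval_C, eval_add, eval_mul, eval_X, Pi.add_apply, Pi.sub_apply,
            Pi.smul_apply, smul_eq_mul]
          ring
        rw [h2, ten_smul_left] at h1
        have h3 := Submodule.smul_mem _ (w.1)⁻¹ h1
        rwa [smul_smul, inv_mul_cancel₀ hw, one_smul] at h3)
    tgt ν (fun k => LinePoly.smul_const (co k) _ (hmixpoly k.1.1 k.1.2))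
    (by
      intro k v
      ext ⟨j, g⟩
      rw [ten_apply]
      change (P k j).eval 0 * E [A, B] (mix (v k.1.1) (v k.1.2)) g = _
      by_cases h : cls k.1.1 = cls k.1.2
      · simp only [P, tgt, ν, co, if_pos h, eval_C]
        ring
      · simp only [P, tgt, ν, co, if_neg h, eval_C, eval_add, eval_mul, eval_X]
        ring) n (by
      intro j
      obtain ⟨v, hv⟩ := hn j
      refine ⟨v, hv.trans (Submodule.finrank_mono (sup_le_sup_left ?_ _))⟩
      rw [span_le]
      rintro g ((⟨p, hp, hg⟩ | ⟨p, p', hne, hs, ht, rfl⟩) | ⟨p, rfl⟩)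
      · exact subset_span (Or.inl (Or.inl ⟨p, hp, hg⟩))
      · let k : κ := ⟨(p, p'), hne, hs⟩
        have hk : E [A, B] (mix (v p) (v p')) = (co k)⁻¹ • ν k v := by
          ext g
          rw [Pi.smul_apply, smul_eq_mul]
          change _ = (co k)⁻¹ * (co k * E [A, B] (mix (v p) (v p')) g)
          rw [← mul_assoc, inv_mul_cancel₀ (hco k), one_mul]
        rw [SetLike.mem_coe, hk]
        refine Submodule.smul_mem _ _ (subset_span (Or.inl (Or.inr ⟨k, ?_, rfl⟩)))
        rcases ht with ⟨h1, h2⟩ | ⟨h1, h2⟩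
        · simp only [tgt, k, if_neg h1]; exact h2
        · simp only [tgt, k, if_pos h1]; exact h2
      · exact subset_span (Or.inr ⟨p, rfl⟩))
  exact ⟨fun p => cons (fun j => (u p j).eval w.1) (L p w.2), hw⟩

end Pool.Agent.Lib.MP_635d71_ag
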