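import Mathlib
import Pool.Agent.Lib.MP_635d71_ag.Flow

/-!
# The dimension of a slice
-/

open Module Submodule Polynomial

namespace Pool.Agent.Lib.MP_635d71_ag

variable {K : Type} [Field K]

theorem coordSub_le_of_single {G : Type} [Fintype G] [DecidableEq G] (U : Finset G)
    (S : Submodule K (G → K)) (h : ∀ g ∈ U, (Pi.single g 1 : G → K) ∈ S) : coordSub K U ≤ S := by
  intro f hf
  rw [← Finset.univ_sum_single f]
  refine Submodule.sum_mem _ fun g _ => ?_
  by_cases hg : g ∈ U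
  · have : (Pi.single g (f g) : G → K) = f g • Pi.single g 1 := by
      rw [← Pi.single_smul, smul_eq_mul, mul_one]
    rw [this]
    exact Submodule.smul_mem _ _ (h g hg)
  · rw [hf g hg, Pi.single_zero]
    exact Submodule.zero_mem _

theorem mem_Ball2 {A B : ℕ} (x a : Fin A) (y b : Fin B) :
    ((x, y, ()) : Grid [A, B]) ∈ Ball [A, B] (a, b, ()) ↔ x = a ∨ y = b := by
  rw [mem_Ball_cons, mem_Ball_cons]
  have h1 : (() : Grid []) ∈ Ball [] () := mem_Ball_nil _ _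
  simp only [Prod.mk.injEq, h1, and_true]
  tauto

theorem card_cross (A B t : ℕ) (hA : t ≤ A) (hB : t ≤ B) :
    t * (A + B - t) + (A - t) * (B - t) = A * B := by
  obtain ⟨a, rfl⟩ := Nat.exists_eq_add_of_le hA
  obtain ⟨b, rfl⟩ := Nat.exists_eq_add_of_le hB
  rw [show t + a + (t + b) - t = t + a + b by omega, Nat.add_sub_cancel_left,
    Nat.add_sub_cancel_left]
  ring

/-- The dimension of a slice: `P1` are the points of the slice, `P2` the points whose pairs in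
different classes contribute, `P3` the points whose pairs in the same class contribute. -/
theorem slice_dim [Infinite K] {A B : ℕ} {ι : Type} [Fintype ι] [DecidableEq ι]
    (P1 P2 P3 : Finset ι) (h12 : Disjoint P1 P2) (h13 : Disjoint P1 P3) (h23 : Disjoint P2 P3)
    (cls : ι → ℕ) (ρ : ι → Fin A) (κ : ι → Fin B)
    (hρ : ∀ p ∈ P1 ∪ P2 ∪ P3, ∀ p' ∈ P1 ∪ P2 ∪ P3, ρ p = ρ p' → p = p')
    (hκ : ∀ p ∈ P1 ∪ P2 ∪ P3, ∀ p' ∈ P1 ∪ P2 ∪ P3, κ p = κ p' → p = p')
    (C : Finset (Grid [A, B])) (hC : ∀ g ∈ C, ∀ p ∈ P1 ∪ P2 ∪ P3, g.1 ≠ ρ p ∧ g.2.1 ≠ κ p) :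
    ∃ v : ι → Coord [A, B] → K,
      min (A * B) (C.card + P1.card * (A + B - P1.card) +
        ((P2 ×ˢ P2).filter (fun x => x.1 = x.2 ∨ cls x.1 ≠ cls x.2)).card +
        ((P3 ×ˢ P3).filter (fun x => cls x.1 = cls x.2)).card +
        (Finset.univ \ (P1 ∪ P2 ∪ P3)).card) ≤
      finrank K ↥(coordSub K C ⊔ span K (({f | ∃ p ∈ P1, f ∈ T [A, B] (v p)} ∪
        {f | ∃ p p', p ≠ p' ∧ ((p ∈ P2 ∧ p' ∈ P2 ∧ cls p ≠ cls p') ∨
          (p ∈ P3 ∧ p' ∈ P3 ∧ cls p = cls p')) ∧ f = E [A, B] (mix (v p) (v p'))}) ∪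
        {f | ∃ p, f = E [A, B] (v p)})) := by
  classical
  set Sp := P1 ∪ P2 ∪ P3 with hSp
  have m1 : ∀ p ∈ P1, p ∈ Sp := fun p hp => by simp [hSp, hp]
  have m2 : ∀ p ∈ P2, p ∈ Sp := fun p hp => by simp [hSp, hp]
  have m3 : ∀ p ∈ P3, p ∈ Sp := fun p hp => by simp [hSp, hp]
  let cell : ι × ι → Grid [A, B] := fun x => (ρ x.1, κ x.2, ())
  let U1 : Finset (Grid [A, B]) := Finset.univ.filter fun g => ∃ p ∈ P1, g.1 = ρ p ∨ g.2.1 = κ p
  let Q2 := (P2 ×ˢ P2).filter (fun x : ι × ι => x.1 = x.2 ∨ cls x.1 ≠ cls x.2)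
  let Q3 := (P3 ×ˢ P3).filter (fun x : ι × ι => cls x.1 = cls x.2)
  let U2 := Q2.image cell
  let U3 := Q3.image cell
  have hinj : ∀ Q : Finset (ι × ι), (∀ x ∈ Q, x.1 ∈ Sp ∧ x.2 ∈ Sp) →
      (Q.image cell).card = Q.card := by
    intro Q hQ
    refine Finset.card_image_of_injOn ?_
    intro x hx y hy h
    simp only [cell, Prod.mk.injEq, and_true] at h
    exact Prod.ext (hρ _ (hQ x hx).1 _ (hQ y hy).1 h.1) (hκ _ (hQ x hx).2 _ (hQ y hy).2 h.2)
  have hQ2 : ∀ x ∈ Q2, x.1 ∈ P2 ∧ x.2 ∈ P2 ∧ (x.1 = x.2 ∨ cls x.1 ≠ cls x.2) := by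
    intro x hx
    obtain ⟨h1, h2⟩ := Finset.mem_filter.1 hx
    obtain ⟨h3, h4⟩ := Finset.mem_product.1 h1
    exact ⟨h3, h4, h2⟩
  have hQ3 : ∀ x ∈ Q3, x.1 ∈ P3 ∧ x.2 ∈ P3 ∧ cls x.1 = cls x.2 := by
    intro x hx
    obtain ⟨h1, h2⟩ := Finset.mem_filter.1 hx
    obtain ⟨h3, h4⟩ := Finset.mem_product.1 h1
    exact ⟨h3, h4, h2⟩
  have c2 : U2.card = Q2.card := hinj Q2 fun x hx => ⟨m2 _ (hQ2 x hx).1, m2 _ (hQ2 x hx).2.1⟩
  have c3 : U3.card = Q3.card := hinj Q3 fun x hx => ⟨m3 _ (hQ3 x hx).1, m3 _ (hQ3 x hx).2.1⟩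
  -- the cross
  have cR : (P1.image ρ).card = P1.card := Finset.card_image_of_injOn fun p hp p' hp' h =>
    hρ p (m1 p hp) p' (m1 p' hp') h
  have cK : (P1.image κ).card = P1.card := Finset.card_image_of_injOn fun p hp p' hp' h =>
    hκ p (m1 p hp) p' (m1 p' hp') h
  have hA : P1.card ≤ A := by
    rw [← cR]
    exact (Finset.card_le_univ _).trans (by rw [Fintype.card_fin])
  have hB : P1.card ≤ B := by
    rw [← cK]
    exact (Finset.card_le_univ _).trans (by rw [Fintype.card_fin])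
  have c1 : P1.card * (A + B - P1.card) ≤ U1.card := by
    have h1 : U1.card + (Finset.univ \ U1).card = A * B := by
      rw [Finset.card_sdiff_of_subset (Finset.subset_univ _), Finset.card_univ, card_grid]
      have := Finset.card_le_univ U1
      rw [card_grid] at this
      simp only [List.prod_cons, List.prod_nil, mul_one] at this ⊢
      omega
    have h2 : (Finset.univ \ U1).card ≤ (A - P1.card) * (B - P1.card) := by
      have h3 : Finset.univ \ U1 ⊆ ((Finset.univ \ P1.image ρ) ×ˢ (Finset.univ \ P1.image κ)).image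
          (fun x => ((x.1, x.2, ()) : Grid [A, B])) := by
        rintro ⟨x, y, z⟩ hg
        rw [Finset.mem_sdiff, Finset.mem_filter] at hg
        have hg2 := hg.2
        push Not at hg2
        have hg3 := hg2 (Finset.mem_univ _)
        refine Finset.mem_image.2 ⟨(x, y), ?_, rfl⟩
        rw [Finset.mem_product, Finset.mem_sdiff, Finset.mem_sdiff, Finset.mem_image,
          Finset.mem_image]
        refine ⟨⟨Finset.mem_univ _, ?_⟩, ⟨Finset.mem_univ _, ?_⟩⟩
        · rintro ⟨p, hp, h⟩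
          exact (hg3 p hp).1 h.symm
        · rintro ⟨p, hp, h⟩
          exact (hg3 p hp).2 h.symm
      refine (Finset.card_le_card h3).trans (Finset.card_image_le.trans ?_)
      rw [Finset.card_product, Finset.card_sdiff_of_subset (Finset.subset_univ _),
        Finset.card_sdiff_of_subset (Finset.subset_univ _), Finset.card_univ, Finset.card_univ,
        Fintype.card_fin, Fintype.card_fin, cR, cK]
    have h3 := card_cross A B P1.card hA hB
    omega
  -- disjointness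
  have dj1 : ∀ Q : Finset (ι × ι), (∀ x ∈ Q, (x.1 ∈ Sp ∧ x.1 ∉ P1) ∧ (x.2 ∈ Sp ∧ x.2 ∉ P1)) →
      Disjoint U1 (Q.image cell) := by
    intro Q hQ
    rw [Finset.disjoint_left]
    intro g hg hg'
    obtain ⟨_, p, hp, h⟩ := Finset.mem_filter.1 hg
    obtain ⟨x, hx, rfl⟩ := Finset.mem_image.1 hg'
    obtain ⟨⟨h1, h2⟩, h3, h4⟩ := hQ x hx
    rcases h with h | h
    · have : x.1 = p := hρ _ h1 _ (m1 p hp) h
      exact h2 (this ▸ hp)
    · have : x.2 = p := hκ _ h3 _ (m1 p hp) h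
      exact h4 (this ▸ hp)
  have dj12 : Disjoint U1 U2 := dj1 Q2 fun x hx => by
    obtain ⟨h1, h2, _⟩ := hQ2 x hx
    exact ⟨⟨m2 _ h1, Finset.disjoint_right.1 h12 h1⟩, ⟨m2 _ h2, Finset.disjoint_right.1 h12 h2⟩⟩
  have dj13 : Disjoint U1 U3 := dj1 Q3 fun x hx => by
    obtain ⟨h1, h2, _⟩ := hQ3 x hx
    exact ⟨⟨m3 _ h1, Finset.disjoint_right.1 h13 h1⟩, ⟨m3 _ h2, Finset.disjoint_right.1 h13 h2⟩⟩
  have dj23 : Disjoint U2 U3 := by
    rw [Finset.disjoint_left]
    intro g hg hg'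
    obtain ⟨x, hx, rfl⟩ := Finset.mem_image.1 hg
    obtain ⟨y, hy, h⟩ := Finset.mem_image.1 hg'
    obtain ⟨h1, _, _⟩ := hQ2 x hx
    obtain ⟨h2, _, _⟩ := hQ3 y hy
    simp only [cell, Prod.mk.injEq, and_true] at h
    have := hρ _ (m3 _ h2) _ (m2 _ h1) h.1
    exact Finset.disjoint_left.1 h23 h1 (this ▸ h2)
  have djC : ∀ g ∈ U1 ∪ U2 ∪ U3, g ∉ C := by
    intro g hg hgC
    rw [Finset.mem_union, Finset.mem_union] at hg
    rcases hg with (hg | hg) | hg
    · obtain ⟨_, p, hp, h⟩ := Finset.mem_filter.1 hg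
      rcases h with h | h
      · exact (hC g hgC p (m1 p hp)).1 h
      · exact (hC g hgC p (m1 p hp)).2 h
    · obtain ⟨x, hx, rfl⟩ := Finset.mem_image.1 hg
      exact (hC _ hgC x.1 (m2 _ (hQ2 x hx).1)).1 rfl
    · obtain ⟨x, hx, rfl⟩ := Finset.mem_image.1 hg
      exact (hC _ hgC x.1 (m3 _ (hQ3 x hx).1)).1 rfl
  let U := C ∪ (U1 ∪ U2 ∪ U3)
  have cU : C.card + P1.card * (A + B - P1.card) + Q2.card + Q3.card ≤ U.card := by
    have h1 : U.card = C.card + (U1 ∪ U2 ∪ U3).card := Finset.card_union_of_disjoint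
      (Finset.disjoint_left.2 fun g hg hg' => djC g hg' hg)
    have h2 : (U1 ∪ U2 ∪ U3).card = (U1 ∪ U2).card + U3.card := Finset.card_union_of_disjoint
      (Finset.disjoint_union_left.2 ⟨dj13, dj23⟩)
    have h3 : (U1 ∪ U2).card = U1.card + U2.card := Finset.card_union_of_disjoint dj12
    omega
  -- the generic points
  obtain ⟨z, hz⟩ := point_lemma' [A, B] (coordSub K U) {p : ι // p ∉ Sp}
  let v : ι → Coord [A, B] → K := fun p =>
    if h : p ∈ Sp then cpt [A, B] (ρ p, κ p, ()) else z ⟨p, h⟩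
  have hv1 : ∀ p ∈ Sp, v p = cpt [A, B] (ρ p, κ p, ()) := fun p hp => by simp only [v, dif_pos hp]
  refine ⟨v, ?_⟩
  have hcard : Fintype.card {p : ι // p ∉ Sp} = (Finset.univ \ Sp).card := by
    rw [Fintype.card_subtype]
    congr 1
    ext p
    simp
  have hprod : [A, B].prod = A * B := by simp
  have hmain : coordSub K U ⊔ span K (Set.range fun i => E [A, B] (z i)) ≤
      coordSub K C ⊔ span K (({f | ∃ p ∈ P1, f ∈ T [A, B] (v p)} ∪
        {f | ∃ p p', p ≠ p' ∧ ((p ∈ P2 ∧ p' ∈ P2 ∧ cls p ≠ cls p') ∨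
          (p ∈ P3 ∧ p' ∈ P3 ∧ cls p = cls p')) ∧ f = E [A, B] (mix (v p) (v p'))}) ∪
        {f | ∃ p, f = E [A, B] (v p)}) := by
    refine sup_le (coordSub_le_of_single U _ ?_) (le_sup_of_le_right ?_)
    · intro g hg
      rw [Finset.mem_union] at hg
      rcases hg with hg | hg
      · refine mem_sup_left ?_
        intro g' hg'
        rw [Pi.single_eq_of_ne (fun h => hg' (by rw [h]; exact hg))]
      refine mem_sup_right ?_
      rw [Finset.mem_union, Finset.mem_union] at hg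
      rcases hg with (hg | hg) | hg
      · obtain ⟨_, p, hp, h⟩ := Finset.mem_filter.1 hg
        refine subset_span (Or.inl (Or.inl ⟨p, hp, ?_⟩))
        rw [hv1 p (m1 p hp), T_cpt]
        intro g' hg'
        by_cases hgg : g' = g
        · exfalso
          apply hg'
          rw [hgg]
          obtain ⟨x, y, w⟩ := g
          exact (mem_Ball2 x (ρ p) y (κ p)).2 h
        · rw [Pi.single_eq_of_ne hgg]
      · obtain ⟨x, hx, rfl⟩ := Finset.mem_image.1 hg
        obtain ⟨h1, h2, h3⟩ := hQ2 x hx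
        by_cases h : x.1 = x.2
        · refine subset_span (Or.inr ⟨x.1, ?_⟩)
          rw [hv1 _ (m2 _ h1), E_cpt]
          simp only [cell, ← h]
        · refine subset_span (Or.inl (Or.inr ⟨x.1, x.2, h,
            Or.inl ⟨h1, h2, h3.resolve_left h⟩, ?_⟩))
          rw [hv1 _ (m2 _ h1), hv1 _ (m2 _ h2)]
          exact (E_cpt [A, B] (ρ x.1, κ x.2, ())).symm
      · obtain ⟨x, hx, rfl⟩ := Finset.mem_image.1 hg
        obtain ⟨h1, h2, h3⟩ := hQ3 x hx
        by_cases h : x.1 = x.2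
        · refine subset_span (Or.inr ⟨x.1, ?_⟩)
          rw [hv1 _ (m3 _ h1), E_cpt]
          simp only [cell, ← h]
        · refine subset_span (Or.inl (Or.inr ⟨x.1, x.2, h, Or.inr ⟨h1, h2, h3⟩, ?_⟩))
          rw [hv1 _ (m3 _ h1), hv1 _ (m3 _ h2)]
          exact (E_cpt [A, B] (ρ x.1, κ x.2, ())).symm
    · rw [span_le]
      rintro _ ⟨p, rfl⟩
      refine subset_span (Or.inr ⟨p.1, ?_⟩)
      have : v p.1 = z p := by simp only [v, dif_neg p.2]
      rw [this]
  refine le_trans ?_ (Submodule.finrank_mono hmain)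
  refine le_trans ?_ hz
  rw [finrank_coordSub, hcard, hprod]
  refine min_le_min le_rfl ?_
  change C.card + P1.card * (A + B - P1.card) + Q2.card + Q3.card + _ ≤ _
  omega

end Pool.Agent.Lib.MP_635d71_ag
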