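import Mathlib
import Pool.Agent.Lib.MP_635d71_ag.FlowDim
import Pool.Agent.Lib.MP_635d71_ag.Clique
import Pool.Agent.Lib.MP_635d71_ag.ArithC
import Pool.Agent.Lib.MP_635d71_ag.AllR

/-!
# Three factors
-/

open Module Submodule

namespace Pool.Agent.Lib.MP_635d71_ag

variable {K : Type} [Field K]

theorem count_transfer {α : Type} [DecidableEq α] (S : Finset α) (g : α → ℕ) (m : ℕ)
    (h1 : ∀ x ∈ S, ∀ y ∈ S, g x = g y → x = y) (h2 : ∀ x ∈ S, g x < m)
    (h3 : ∀ i < m, ∃ x ∈ S, g x = i) (R : ℕ → ℕ → Prop) [DecidableRel R] :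
    ((S ×ˢ S).filter (fun x => R (g x.1) (g x.2))).card =
      ((Finset.range m ×ˢ Finset.range m).filter (fun x => R x.1 x.2)).card := by
  refine Finset.card_bij (fun x _ => (g x.1, g x.2)) ?_ ?_ ?_
  · rintro ⟨x, y⟩ hx
    simp only [Finset.mem_filter, Finset.mem_product, Finset.mem_range] at hx ⊢
    exact ⟨⟨h2 x hx.1.1, h2 y hx.1.2⟩, hx.2⟩
  · rintro ⟨x, y⟩ hx ⟨x', y'⟩ hx' h
    simp only [Finset.mem_filter, Finset.mem_product] at hx hx'
    simp only [Prod.mk.injEq] at h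
    exact Prod.ext (h1 x hx.1.1 x' hx'.1.1 h.1) (h1 y hx.1.2 y' hx'.1.2 h.2)
  · rintro ⟨i, j⟩ hij
    simp only [Finset.mem_filter, Finset.mem_product, Finset.mem_range] at hij
    obtain ⟨x, hx, rfl⟩ := h3 i hij.1.1
    obtain ⟨y, hy, rfl⟩ := h3 j hij.1.2
    exact ⟨(x, y), by simp only [Finset.mem_filter, Finset.mem_product]; exact ⟨⟨hx, hy⟩, hij.2⟩, rfl⟩

/-- The first `m` points of the slice `j`. -/
def Pset {q : ℕ} (t : Fin q → ℕ) (j : Fin q) (m : ℕ) : Finset (Σ j, Fin (t j)) :=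
  Finset.univ.filter fun p => p.1 = j ∧ p.2.val < m

theorem mem_Pset {q : ℕ} (t : Fin q → ℕ) (j : Fin q) (m : ℕ) (p : Σ j, Fin (t j)) :
    p ∈ Pset t j m ↔ p.1 = j ∧ p.2.val < m := by simp [Pset]

theorem Pset_ext {q : ℕ} {t : Fin q → ℕ} {p p' : Σ j, Fin (t j)} (h1 : p.1 = p'.1)
    (h2 : p.2.val = p'.2.val) : p = p' := by
  obtain ⟨i, x⟩ := p
  obtain ⟨j, y⟩ := p'
  obtain rfl : i = j := h1
  obtain rfl : x = y := Fin.ext h2
  rfl

theorem Pset_inj {q : ℕ} (t : Fin q → ℕ) (j : Fin q) (m : ℕ) (x : Σ j, Fin (t j))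
    (hx : x ∈ Pset t j m) (y : Σ j, Fin (t j)) (hy : y ∈ Pset t j m) (h : x.2.val = y.2.val) :
    x = y :=
  Pset_ext (((mem_Pset _ _ _ _).1 hx).1.trans ((mem_Pset _ _ _ _).1 hy).1.symm) h

theorem Pset_surj {q : ℕ} (t : Fin q → ℕ) (j : Fin q) (m : ℕ) (hm : m ≤ t j) (i : ℕ) (hi : i < m) :
    ∃ x ∈ Pset t j m, x.2.val = i :=
  ⟨⟨j, ⟨i, by omega⟩⟩, (mem_Pset _ _ _ _).2 ⟨rfl, hi⟩, rfl⟩

theorem card_Pset {q : ℕ} (t : Fin q → ℕ) (j : Fin q) (m : ℕ) (hm : m ≤ t j) :
    (Pset t j m).card = m := by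
  classical
  have h : (Pset t j m).card = (Finset.range m).card := by
    refine Finset.card_bij (fun x _ => x.2.val) ?_ ?_ ?_
    · intro x hx
      exact Finset.mem_range.2 ((mem_Pset _ _ _ _).1 hx).2
    · intro x hx y hy h
      exact Pset_inj t j m x hx y hy h
    · intro i hi
      obtain ⟨x, hx, h⟩ := Pset_surj t j m hm i (Finset.mem_range.1 hi)
      exact ⟨x, hx, h⟩
  rw [h, Finset.card_range]

/-- The dimension of a slice, in terms of the numbers. -/
theorem slice_num [Infinite K] {q A B : ℕ} (t m G : Fin q → ℕ) (cls : Fin q → ℕ → ℕ) (r : ℕ)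
    (hr : ∑ j, t j = r) (hm : ∀ j, m j ≤ t j) (hs : ∀ j, same (cls j) (m j) = G j + m j)
    (hc : ∀ j, ((Finset.range (t j) ×ˢ Finset.range (t j)).filter
      (fun x => x.1 = x.2 ∨ cls j x.1 ≠ cls j x.2)).card + G j = t j ^ 2)
    (i j1 j2 : Fin q) (h1 : i ≠ j1) (h2 : i ≠ j2) (h12 : j1 ≠ j2)
    (hA : t i + t j1 + m j2 ≤ A) (hB : t i + t j1 + m j2 ≤ B) (n1 n2 : Fin q → Fin q)
    (hn1 : n1 j1 = i) (hn2 : n2 j2 = i) (hA0 : 1 ≤ A) (hB0 : 1 ≤ B) :
    ∃ v : (Σ j, Fin (t j)) → Coord [A, B] → K,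
      min (A * B) (t i * (A + B - t i) + (t j1 ^ 2 - G j1) + (G j2 + m j2) +
        (r - (t i + t j1 + m j2))) ≤
      finrank K ↥(coordSub K (slice (∅ : Finset (Grid [q, A, B])) i) ⊔
      span K (({f | ∃ p : (Σ j, Fin (t j)), p.1 = i ∧ f ∈ T [A, B] (v p)} ∪
        {f | ∃ p p' : (Σ j, Fin (t j)), p ≠ p' ∧ p.1 = p'.1 ∧
          ((cls p.1 p.2.val ≠ cls p'.1 p'.2.val ∧ n1 p.1 = i) ∨
          (cls p.1 p.2.val = cls p'.1 p'.2.val ∧ n2 p.1 = i)) ∧
            f = E [A, B] (mix (v p) (v p'))}) ∪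
        {f | ∃ p, f = E [A, B] (v p)})) := by
  classical
  let ι := Σ j, Fin (t j)
  let P1 := Pset t i (t i)
  let P2 := Pset t j1 (t j1)
  let P3 := Pset t j2 (m j2)
  have e1 : ∀ p : ι, p ∈ P1 → p.1 = i := fun p hp => ((mem_Pset _ _ _ _).1 hp).1
  have e2 : ∀ p : ι, p ∈ P2 → p.1 = j1 := fun p hp => ((mem_Pset _ _ _ _).1 hp).1
  have e3 : ∀ p : ι, p ∈ P3 → p.1 = j2 := fun p hp => ((mem_Pset _ _ _ _).1 hp).1
  have d12 : Disjoint P1 P2 := Finset.disjoint_left.2 fun p hp hp' =>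
    h1 ((e1 p hp).symm.trans (e2 p hp'))
  have d13 : Disjoint P1 P3 := Finset.disjoint_left.2 fun p hp hp' =>
    h2 ((e1 p hp).symm.trans (e3 p hp'))
  have d23 : Disjoint P2 P3 := Finset.disjoint_left.2 fun p hp hp' =>
    h12 ((e2 p hp).symm.trans (e3 p hp'))
  let f : ι → ℕ := fun p => if p.1 = i then p.2.val else if p.1 = j1 then t i + p.2.val else
    t i + t j1 + p.2.val
  have f1 : ∀ p ∈ P1, f p = p.2.val ∧ p.2.val < t i := fun p hp => by
    obtain ⟨h3, h4⟩ := (mem_Pset _ _ _ _).1 hp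
    exact ⟨if_pos h3, h4⟩
  have f2 : ∀ p ∈ P2, f p = t i + p.2.val ∧ p.2.val < t j1 := fun p hp => by
    obtain ⟨h3, h4⟩ := (mem_Pset _ _ _ _).1 hp
    refine ⟨?_, h4⟩
    simp only [f]
    rw [if_neg (by rw [h3]; exact h1.symm), if_pos h3]
  have f3 : ∀ p ∈ P3, f p = t i + t j1 + p.2.val ∧ p.2.val < m j2 := fun p hp => by
    obtain ⟨h3, h4⟩ := (mem_Pset _ _ _ _).1 hp
    refine ⟨?_, h4⟩
    simp only [f]
    rw [if_neg (by rw [h3]; exact h2.symm), if_neg (by rw [h3]; exact h12.symm)]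
  have hmem : ∀ p ∈ P1 ∪ P2 ∪ P3, p ∈ P1 ∨ p ∈ P2 ∨ p ∈ P3 := fun p hp => by
    rw [Finset.mem_union, Finset.mem_union] at hp
    tauto
  have flt : ∀ p ∈ P1 ∪ P2 ∪ P3, f p < t i + t j1 + m j2 := by
    intro p hp
    rcases hmem p hp with h | h | h
    · have := f1 p h; omega
    · have := f2 p h; omega
    · have := f3 p h; omega
  have finj : ∀ p ∈ P1 ∪ P2 ∪ P3, ∀ p' ∈ P1 ∪ P2 ∪ P3, f p = f p' → p = p' := by
    intro p hp p' hp' hf
    rcases hmem p hp with h | h | h <;> rcases hmem p' hp' with h' | h' | h'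
    · have := f1 p h; have := f1 p' h'
      exact Pset_inj t i (t i) p h p' h' (by omega)
    · have := f1 p h; have := f2 p' h'; omega
    · have := f1 p h; have := f3 p' h'; omega
    · have := f2 p h; have := f1 p' h'; omega
    · have := f2 p h; have := f2 p' h'
      exact Pset_inj t j1 (t j1) p h p' h' (by omega)
    · have := f2 p h; have := f3 p' h'; omega
    · have := f3 p h; have := f1 p' h'; omega
    · have := f3 p h; have := f2 p' h'; omega
    · have := f3 p h; have := f3 p' h'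
      exact Pset_inj t j2 (m j2) p h p' h' (by omega)
  let ρ : ι → Fin A := fun p => ⟨min (f p) (A - 1), by omega⟩
  let κ : ι → Fin B := fun p => ⟨min (f p) (B - 1), by omega⟩
  obtain ⟨lab, hlab⟩ : ∃ lab : ι → ℕ, ∀ p, lab p = cls p.1 p.2.val := ⟨_, fun _ => rfl⟩
  have hlab' : ∀ (j : Fin q) (p : ι), p.1 = j → lab p = cls j p.2.val := fun j p h => by
    rw [hlab]
    exact congrFun (congrArg cls h) p.2.val
  obtain ⟨v, hv⟩ := slice_dim (K := K) P1 P2 P3 d12 d13 d23 lab ρ κ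
    (by
      intro p hp p' hp' h
      refine finj p hp p' hp' ?_
      have h3 := flt p hp
      have h4 := flt p' hp'
      have h5 : min (f p) (A - 1) = min (f p') (A - 1) := congrArg Fin.val h
      omega)
    (by
      intro p hp p' hp' h
      refine finj p hp p' hp' ?_
      have h3 := flt p hp
      have h4 := flt p' hp'
      have h5 : min (f p) (B - 1) = min (f p') (B - 1) := congrArg Fin.val h
      omega)
    ∅ (fun g hg => absurd hg (Finset.notMem_empty g))
  refine ⟨v, le_trans ?_ (hv.trans (Submodule.finrank_mono (sup_le_sup ?_ (span_mono ?_))))⟩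
  · -- the numbers
    have k1 : P1.card = t i := card_Pset t i (t i) le_rfl
    have k2 : P2.card = t j1 := card_Pset t j1 (t j1) le_rfl
    have k3 : P3.card = m j2 := card_Pset t j2 (m j2) (hm j2)
    have k4 : ((P2 ×ˢ P2).filter (fun x : ι × ι => x.1 = x.2 ∨
        lab x.1 ≠ lab x.2)).card + G j1 = t j1 ^ 2 := by
      rw [← hc j1, ← count_transfer P2 (fun p : ι => p.2.val) (t j1) (Pset_inj t j1 (t j1))
        (fun x hx => (f2 x hx).2) (Pset_surj t j1 (t j1) le_rfl)
        (fun a b => a = b ∨ cls j1 a ≠ cls j1 b)]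
      congr 2
      refine Finset.filter_congr fun x hx => ?_
      obtain ⟨hx1, hx2⟩ := Finset.mem_product.1 hx
      rw [hlab' j1 _ (e2 _ hx1), hlab' j1 _ (e2 _ hx2)]
      refine or_congr_left ?_
      exact ⟨fun h => by rw [h], fun h => Pset_inj t j1 (t j1) x.1 hx1 x.2 hx2 h⟩
    have k5 : ((P3 ×ˢ P3).filter (fun x : ι × ι => lab x.1 = lab x.2)).card = G j2 + m j2 := by
      rw [← hs j2, same, ← count_transfer P3 (fun p : ι => p.2.val) (m j2) (Pset_inj t j2 (m j2))
        (fun x hx => (f3 x hx).2) (Pset_surj t j2 (m j2) (hm j2))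
        (fun a b => cls j2 a = cls j2 b)]
      congr 1
      refine Finset.filter_congr fun x hx => ?_
      obtain ⟨hx1, hx2⟩ := Finset.mem_product.1 hx
      rw [hlab' j2 _ (e3 _ hx1), hlab' j2 _ (e3 _ hx2)]
    have k6 : (Finset.univ \ (P1 ∪ P2 ∪ P3)).card = r - (t i + t j1 + m j2) := by
      rw [Finset.card_sdiff_of_subset (Finset.subset_univ _), Finset.card_union_of_disjoint
        (Finset.disjoint_union_left.2 ⟨d13, d23⟩), Finset.card_union_of_disjoint d12, k1, k2, k3]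
      congr 1
      rw [Finset.card_univ, Fintype.card_sigma, ← hr]
      simp
    refine min_le_min le_rfl ?_
    have k7 : t j1 ^ 2 - G j1 = ((P2 ×ˢ P2).filter (fun x : ι × ι => x.1 = x.2 ∨
        lab x.1 ≠ lab x.2)).card := by omega
    rw [k7, ← k5, ← k6, ← k1, Finset.card_empty, zero_add]
  · exact coordSub_mono (Finset.empty_subset _)
  · refine Set.union_subset_union (Set.union_subset_union ?_ ?_) (fun _ h => h)
    · rintro g ⟨p, hp, hg⟩
      exact ⟨p, e1 p hp, hg⟩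
    · rintro g ⟨p, p', hne, h, rfl⟩
      refine ⟨p, p', hne, ?_, ?_, rfl⟩
      · rcases h with ⟨h3, h4, _⟩ | ⟨h3, h4, _⟩
        · exact (e2 p h3).trans (e2 p' h4).symm
        · exact (e3 p h3).trans (e3 p' h4).symm
      · rcases h with ⟨h3, h4, h5⟩ | ⟨h3, h4, h5⟩
        · rw [hlab, hlab] at h5
          exact Or.inl ⟨h5, by rw [e2 p h3]; exact hn1⟩
        · rw [hlab, hlab] at h5
          exact Or.inr ⟨h5, by rw [e3 p h3]; exact hn2⟩

/-- The load of a slice. -/
theorem load_id (A B N a b m r γ ei e1 G1 G2 : ℕ) (hN : N + 2 = A + B) (haA : a ≤ A + B)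
    (hb : 1 ≤ b) (ha : 1 ≤ a) (hr : a + b + m ≤ r) (h1 : G1 + a * (a - 1) = γ + e1)
    (h2 : G2 + b * (b - 1) = γ + ei) (h3 : G1 ≤ b ^ 2) :
    a * (A + B - a) + (b ^ 2 - G1) + (G2 + m) + (r - (a + b + m)) + e1 = r + N * a + ei := by
  obtain ⟨c, hc⟩ := Nat.exists_eq_add_of_le haA
  obtain ⟨d, rfl⟩ := Nat.exists_eq_add_of_le hr
  obtain ⟨x, hx⟩ := Nat.exists_eq_add_of_le h3
  obtain ⟨a', rfl⟩ := Nat.exists_eq_add_of_le ha
  obtain ⟨b', rfl⟩ := Nat.exists_eq_add_of_le hb
  rw [hc, hx, Nat.add_sub_cancel_left, Nat.add_sub_cancel_left, Nat.add_sub_cancel_left]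
  rw [Nat.add_sub_cancel_left] at h1 h2
  rw [hc] at hN
  zify at *
  have hN' : (N : ℤ) = 1 + a' + c - 2 := by linarith
  rw [hN']
  linear_combination h2 - h1 - hx

/-- The criterion for three factors, for a given rank. -/
theorem three_reach [Infinite K] (q A B w r : ℕ) (hq : 3 ≤ q) (hA : 2 ≤ A) (hB : 2 ≤ B)
    (hpar : Odd (A + B - 2) ∨ Even (r + A * B) ∨ r * (A + B - 2 + q) + q ≤ q * (A * B) ∨
      q * (A * B) + q ≤ r * (A + B - 2 + q))
    (hw : 60 * (r / q) + 10 * (A + B - 2) ≤ w ^ 2) (hws : w + 4 ≤ r / q)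
    (hwA : 2 * (r / q) + 6 + w ≤ A) (hwB : 2 * (r / q) + 6 + w ≤ B) :
    Reach K [q, A, B] r (min (r * (A + B - 2 + q)) (q * (A * B))) := by
  classical
  obtain ⟨N, hN⟩ : ∃ N, A + B - 2 = N := ⟨_, rfl⟩
  obtain ⟨s, hs⟩ : ∃ s, r / q = s := ⟨_, rfl⟩
  rw [hN] at hpar hw ⊢
  rw [hs] at hw hws hwA hwB
  have hq0 : 0 < q := by omega
  have hrs1 : q * s ≤ r := by rw [← hs]; exact Nat.mul_div_le r q
  have hrs2 : r < q * s + q := by
    have h1 := Nat.div_add_mod r q
    have h2 := Nat.mod_lt r hq0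
    rw [hs] at h1
    omega
  have hbig : 3 * q ≤ r := by
    have : q * 3 ≤ q * s := Nat.mul_le_mul_left _ (by omega)
    omega
  obtain ⟨t, e, he0, heq, hsum, hev, helt, hup, hlo, hL⟩ :=
    arith3 q N (A * B) r (by omega) (by omega) (le_total _ _) hpar hbig
  have ht1 : ∀ i, t i ≤ s + 3 := fun i => by
    by_contra hcon
    have h1 : q * (s + 4) ≤ q * t i := Nat.mul_le_mul_left _ (by omega)
    have h2 := hup i
    have h3 : q * (s + 4) = q * s + 4 * q := by ring
    omega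
  have ht2 : ∀ i, s ≤ t i + 3 := fun i => by
    by_contra hcon
    have h1 : q * (t i + 4) ≤ q * s := Nat.mul_le_mul_left _ (by omega)
    have h2 := hlo i
    have h3 : q * (t i + 4) = q * t i + 4 * q := by ring
    omega
  obtain ⟨out, hout⟩ : ∃ out : ℕ → ℕ, ∀ i, out i = t i * (t i - 1) := ⟨_, fun _ => rfl⟩
  obtain ⟨γ, hγ⟩ : ∃ γ, γ = (s + 3) * (s + 2) := ⟨_, rfl⟩
  have hout1 : ∀ i, out i ≤ γ := fun i => by
    rw [hout, hγ]
    exact Nat.mul_le_mul (ht1 i) (by have := ht1 i; omega)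
  obtain ⟨s', rfl⟩ : ∃ s', s = s' + 4 := ⟨s - 4, by omega⟩
  have hout2 : ∀ i, (s' + 1) * s' ≤ out i := fun i => by
    rw [hout]
    have := ht2 i
    exact Nat.mul_le_mul (by omega) (by omega)
  have hoev : ∀ i, Even (out i) := fun i => by
    rw [hout]
    rcases Nat.eq_zero_or_pos (t i) with h0 | h0
    · rw [h0]; simp
    · obtain ⟨x, hx⟩ : ∃ x, t i = x + 1 := ⟨t i - 1, by omega⟩
      rw [hx, Nat.add_sub_cancel, mul_comm]
      exact Nat.even_mul_succ_self x
  have hγev : Even γ := by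
    rw [hγ, mul_comm]
    exact Nat.even_mul_succ_self (s' + 4 + 2)
  obtain ⟨G, hG⟩ : ∃ G : ℕ → ℕ, ∀ i, G i + out ((i + 1) % q) = γ + e ((i + 2) % q) :=
    ⟨fun i => γ + e ((i + 2) % q) - out ((i + 1) % q), fun i => by
      have := hout1 ((i + 1) % q)
      dsimp only
      omega⟩
  have hGev : ∀ i, Even (G i) := fun i => by
    have h1 : Even (G i + out ((i + 1) % q)) := by
      rw [hG]; exact hγev.add (hev _)
    rw [Nat.even_add] at h1
    exact h1.2 (hoev _)
  have hGw : ∀ i, 5 * G i ≤ w ^ 2 := fun i => by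
    have h1 := hG i
    have h2 := hout2 ((i + 1) % q)
    have h3 := helt ((i + 2) % q)
    have h4 : γ = (s' + 1) * s' + 12 * s' + 42 := by rw [hγ]; ring
    omega
  have hwt : ∀ i, w ≤ t i := fun i => by have := ht2 i; omega
  have hcl : ∀ i, ∃ (cls : ℕ → ℕ) (m : ℕ), m ^ 2 ≤ 5 * G i ∧ m ≤ t i ∧ same cls m = G i + m ∧
      ((Finset.range (t i) ×ˢ Finset.range (t i)).filter
        (fun x => x.1 = x.2 ∨ cls x.1 ≠ cls x.2)).card + G i = t i ^ 2 := fun i =>
    exists_cls (t i) (G i) (hGev i) ((hGw i).trans (Nat.pow_le_pow_left (hwt i) 2))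
  choose cls m hm1 hm2 hm3 hm4 using hcl
  have hmw : ∀ i, m i ≤ w := fun i => by
    by_contra hcon
    have h1 : (w + 1) ^ 2 ≤ m i ^ 2 := Nat.pow_le_pow_left (by omega) 2
    have h2 := hm1 i
    have h3 := hGw i
    nlinarith
  -- the slices
  let tF : Fin q → ℕ := fun j => t j.val
  let n1 : Fin q → Fin q := fun j => ⟨(j.val + 1) % q, Nat.mod_lt _ hq0⟩
  let n2 : Fin q → Fin q := fun j => ⟨(j.val + 2) % q, Nat.mod_lt _ hq0⟩
  let p1 : Fin q → Fin q := fun j => ⟨(j.val + (q - 1)) % q, Nat.mod_lt _ hq0⟩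
  let p2 : Fin q → Fin q := fun j => ⟨(j.val + (q - 2)) % q, Nat.mod_lt _ hq0⟩
  have hn1 : ∀ j, n1 (p1 j) = j := fun j => Fin.ext (by
    change ((j.val + (q - 1)) % q + 1) % q = j.val
    rw [Nat.mod_add_mod, show j.val + (q - 1) + 1 = j.val + q by omega, Nat.add_mod_right,
      Nat.mod_eq_of_lt j.2])
  have hn2 : ∀ j, n2 (p2 j) = j := fun j => Fin.ext (by
    change ((j.val + (q - 2)) % q + 2) % q = j.val
    rw [Nat.mod_add_mod, show j.val + (q - 2) + 2 = j.val + q by omega, Nat.add_mod_right,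
      Nat.mod_eq_of_lt j.2])
  have hmodv : ∀ (x : ℕ), x < 2 * q → x % q = if x < q then x else x - q := fun x hx => by
    split_ifs with h
    · exact Nat.mod_eq_of_lt h
    · rw [Nat.mod_eq_sub_mod (by omega), Nat.mod_eq_of_lt (by omega)]
  have hp1 : ∀ j, (p1 j).val = if j.val + (q - 1) < q then j.val + (q - 1) else
      j.val + (q - 1) - q := fun j => hmodv _ (by have := j.2; omega)
  have hp2 : ∀ j, (p2 j).val = if j.val + (q - 2) < q then j.val + (q - 2) else
      j.val + (q - 2) - q := fun j => hmodv _ (by have := j.2; omega)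
  have hd1 : ∀ j, j ≠ p1 j := fun j h => by
    have h1 := congrArg Fin.val h
    rw [hp1] at h1
    have := j.2
    split_ifs at h1 <;> omega
  have hd2 : ∀ j, j ≠ p2 j := fun j h => by
    have h1 := congrArg Fin.val h
    rw [hp2] at h1
    have := j.2
    split_ifs at h1 <;> omega
  have hd12 : ∀ j, p1 j ≠ p2 j := fun j h => by
    have h1 := congrArg Fin.val h
    rw [hp1, hp2] at h1
    have := j.2
    split_ifs at h1 <;> omega
  have hsumF : ∑ j, tF j = r := by
    rw [← hsum, Finset.sum_range]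
  obtain ⟨x, hx⟩ := flow (K := K) (q := q) (A := A) (B := B) (ι := Σ j, Fin (tF j))
    (fun p => p.1) (fun p => cls p.1.val p.2.val) n1 n2 ∅
    (fun i => min (A * B) (tF i * (A + B - tF i) + (tF (p1 i) ^ 2 - G (p1 i).val) +
      (G (p2 i).val + m (p2 i).val) + (r - (tF i + tF (p1 i) + m (p2 i).val))))
    (fun i => slice_num tF (fun j => m j.val) (fun j => G j.val) (fun j => cls j.val) r hsumF
      (fun j => hm2 j.val) (fun j => hm3 j.val) (fun j => hm4 j.val) i (p1 i) (p2 i) (hd1 i) (hd2 i)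
      (hd12 i) (by
        have e1 := ht1 i.val
        have e2 := ht1 (p1 i).val
        have e3 := hmw (p2 i).val
        dsimp only [tF]
        omega) (by
        have e1 := ht1 i.val
        have e2 := ht1 (p1 i).val
        have e3 := hmw (p2 i).val
        dsimp only [tF]
        omega) n1 n2 (hn1 i) (hn2 i) (by omega) (by omega))
  -- the loads
  have hload : ∀ i : Fin q, tF i * (A + B - tF i) + (tF (p1 i) ^ 2 - G (p1 i).val) +
      (G (p2 i).val + m (p2 i).val) + (r - (tF i + tF (p1 i) + m (p2 i).val)) + e (i.val + 1) =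
      r + N * t i.val + e i.val := by
    intro i
    have hi := i.2
    have a1 : ((p1 i).val + 1) % q = i.val := congrArg Fin.val (hn1 i)
    have a2 : e (((p1 i).val + 2) % q) = e (i.val + 1) := by
      have h1 : ((p1 i).val + 2) % q = (i.val + 1) % q := by
        change ((i.val + (q - 1)) % q + 2) % q = _
        rw [Nat.mod_add_mod, show i.val + (q - 1) + 2 = i.val + 1 + q by omega, Nat.add_mod_right]
      rw [h1]
      rcases Nat.lt_or_ge (i.val + 1) q with h | h
      · rw [Nat.mod_eq_of_lt h]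
      · have h2 : i.val + 1 = q := by omega
        rw [h2, Nat.mod_self, he0, heq]
    have a3 : ((p2 i).val + 2) % q = i.val := congrArg Fin.val (hn2 i)
    have a4 : ((p2 i).val + 1) % q = (p1 i).val := by
      change ((i.val + (q - 2)) % q + 1) % q = (i.val + (q - 1)) % q
      rw [Nat.mod_add_mod, show i.val + (q - 2) + 1 = i.val + (q - 1) by omega]
    have g1 := hG (p1 i).val
    rw [a1, a2, hout] at g1
    have g2 := hG (p2 i).val
    rw [a3, a4, hout] at g2
    have hr3 : t i.val + t (p1 i).val + m (p2 i).val ≤ r := by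
      have h1 : ∑ j ∈ ({i, p1 i, p2 i} : Finset (Fin q)), tF j ≤ ∑ j, tF j :=
        Finset.sum_le_sum_of_subset (Finset.subset_univ _)
      rw [Finset.sum_insert (by simp [hd1 i, hd2 i]), Finset.sum_insert (by simp [hd12 i]),
        Finset.sum_singleton, hsumF] at h1
      have h2 := hm2 (p2 i).val
      change t i.val + (t (p1 i).val + t (p2 i).val) ≤ r at h1
      omega
    refine load_id A B N (t i.val) (t (p1 i).val) (m (p2 i).val) r γ (e i.val) (e (i.val + 1))
      (G (p1 i).val) (G (p2 i).val) (by omega) ?_ ?_ ?_ hr3 g1 g2 ?_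
    · have := ht1 i.val; omega
    · have := ht2 (p1 i).val; omega
    · have := ht2 i.val; omega
    · have h1 := hGw (p1 i).val
      have h2 : w ^ 2 ≤ t (p1 i).val ^ 2 := Nat.pow_le_pow_left (hwt _) 2
      omega
  have hcard : Fintype.card (Σ j, Fin (tF j)) = r := by
    rw [Fintype.card_sigma, ← hsumF]
    simp
  let E := Fintype.equivFinOfCardEq hcard
  refine ⟨fun a => x (E.symm a), ?_⟩
  have hS : (⨆ a, T [q, A, B] (x (E.symm a))) = ⨆ p, T [q, A, B] (x p) :=
    E.symm.iSup_comp (g := fun p => T [q, A, B] (x p))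
  rw [hS]
  have hbot : coordSub K (∅ : Finset (Grid [q, A, B])) ⊔ (⨆ p, T [q, A, B] (x p)) =
      ⨆ p, T [q, A, B] (x p) := by
    rw [sup_eq_right]
    intro f hf
    have : f = 0 := by ext g; exact hf g (Finset.notMem_empty g)
    rw [this]
    exact Submodule.zero_mem _
  rw [hbot] at hx
  refine le_trans ?_ hx
  have hesum : ∑ i : Fin q, e (i.val + 1) = ∑ i : Fin q, e i.val := by
    have h1 := Finset.sum_range_succ e q
    have h2 := Finset.sum_range_succ' e q
    rw [h1, heq, he0] at h2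
    rw [← Finset.sum_range (fun i => e (i + 1)), ← Finset.sum_range (fun i => e i)]
    omega
  have htsum : ∑ i : Fin q, t i.val = r := by rw [← Finset.sum_range, hsum]
  rcases hL with hL | hL
  · refine (min_le_left _ _).trans ?_
    have h1 : ∀ i : Fin q, min (A * B) (tF i * (A + B - tF i) + (tF (p1 i) ^ 2 - G (p1 i).val) +
        (G (p2 i).val + m (p2 i).val) + (r - (tF i + tF (p1 i) + m (p2 i).val))) + e (i.val + 1) =
        r + N * t i.val + e i.val := by
      intro i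
      have h2 := hload i
      have h3 := hL i.val
      rw [min_eq_right (by omega)]
      exact h2
    have h4 : ∑ i : Fin q, min (A * B) (tF i * (A + B - tF i) + (tF (p1 i) ^ 2 - G (p1 i).val) +
        (G (p2 i).val + m (p2 i).val) + (r - (tF i + tF (p1 i) + m (p2 i).val))) +
        ∑ i : Fin q, e (i.val + 1) = ∑ i : Fin q, (r + N * t i.val + e i.val) := by
      rw [← Finset.sum_add_distrib]
      exact Finset.sum_congr rfl fun i _ => h1 i
    rw [Finset.sum_add_distrib, Finset.sum_add_distrib, ← Finset.mul_sum, htsum, hesum,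
      Finset.sum_const, Finset.card_univ, Fintype.card_fin, smul_eq_mul] at h4
    have h5 : r * (N + q) = q * r + N * r := by ring
    omega
  · refine (min_le_right _ _).trans ?_
    have h1 : ∀ i : Fin q, A * B ≤ min (A * B) (tF i * (A + B - tF i) +
        (tF (p1 i) ^ 2 - G (p1 i).val) +
        (G (p2 i).val + m (p2 i).val) + (r - (tF i + tF (p1 i) + m (p2 i).val))) := by
      intro i
      have h2 := hload i
      have h3 := hL i.val
      refine le_min le_rfl ?_
      omega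
    calc q * (A * B) = ∑ _i : Fin q, A * B := by simp
      _ ≤ _ := Finset.sum_le_sum fun i _ => h1 i

end Pool.Agent.Lib.MP_635d71_ag
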