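import Mathlib
import Pool.Agent.Lib.MP_635d71_ag.GoodInd
import Pool.Agent.Lib.MP_635d71_ag.Three

/-!
# Good sets of cells for three factors
-/

open Module Submodule

namespace Pool.Agent.Lib.MP_635d71_ag

variable {K : Type} [Field K]

/-- Flows along a cycle of slices. -/
theorem base_flow [Infinite K] (m0 g A B T1 : ℕ) (β : Fin g → ℕ) (nx : Equiv.Perm (Fin g))
    (hnx : ∀ i, nx i ≠ i) (C : Finset (Grid [m0 + g, A, B]))
    (hC : ∀ i : Fin g, ∀ x ∈ slice C (Fin.natAdd m0 i), x.1.val < T1 ∧ x.2.1.val < T1)
    (hA : ∀ i, T1 + β i + β (nx.symm i) ≤ A) (hB : ∀ i, T1 + β i + β (nx.symm i) ≤ B)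
    (hbad : ∀ i : Fin m0, (slice C (Fin.castAdd g i)).card + ∑ i, β i ≤ A * B)
    (hgood : ∀ i : Fin g, (slice C (Fin.natAdd m0 i)).card + β i * (A + B - β i) +
      β (nx.symm i) ^ 2 + (∑ i, β i - (β i + β (nx.symm i))) ≤ A * B) :
    Good K [m0 + g, A, B] (∑ i, β i) C := by
  classical
  let t : Fin (m0 + g) → ℕ := Fin.addCases (fun _ => 0) β
  have ht1 : ∀ i, t (Fin.castAdd g i) = 0 := fun i => Fin.addCases_left i
  have ht2 : ∀ i, t (Fin.natAdd m0 i) = β i := fun i => Fin.addCases_right i
  let n1 : Fin (m0 + g) → Fin (m0 + g) := Fin.addCases (fun i => Fin.castAdd g i)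
    (fun i => Fin.natAdd m0 (nx i))
  have hn1 : ∀ i, n1 (Fin.natAdd m0 i) = Fin.natAdd m0 (nx i) := fun i => Fin.addCases_right i
  have htsum : ∑ j, t j = ∑ i, β i := by
    rw [Fin.sum_univ_add]
    simp only [ht1, ht2, Finset.sum_const_zero, zero_add]
  let ι := Σ j, Fin (t j)
  let n : Fin (m0 + g) → ℕ := Fin.addCases
    (fun i => (slice C (Fin.castAdd g i)).card + ∑ i, β i)
    (fun i => (slice C (Fin.natAdd m0 i)).card + β i * (A + B - β i) +
      β (nx.symm i) ^ 2 + (∑ i, β i - (β i + β (nx.symm i))))
  have hn1' : ∀ i, n (Fin.castAdd g i) = (slice C (Fin.castAdd g i)).card + ∑ i, β i := fun i =>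
    Fin.addCases_left i
  have hn2' : ∀ i, n (Fin.natAdd m0 i) = (slice C (Fin.natAdd m0 i)).card + β i * (A + B - β i) +
      β (nx.symm i) ^ 2 + (∑ i, β i - (β i + β (nx.symm i))) := fun i => Fin.addCases_right i
  obtain ⟨x, hx⟩ := flow (K := K) (fun p : ι => p.1) (fun p => p.2.val) n1 n1 C n (by
    intro j
    refine Fin.addCases (fun i => ?_) (fun i => ?_) j
    · -- a bad slice
      obtain ⟨v, hv⟩ := slice_dim (K := K) (A := A) (B := B) (ι := ι) ∅ ∅ ∅ (by simp) (by simp)
        (by simp) (fun p => p.2.val) (fun p => ⟨0, by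
          have := hA
          rcases Nat.eq_zero_or_pos A with h0 | h0
          · exfalso
            obtain ⟨j, y⟩ := p
            revert y
            refine Fin.addCases (fun i' => ?_) (fun i' => ?_) j
            · rw [ht1]; intro y; exact y.elim0
            · rw [ht2]; intro y
              have h1 := hA i'
              have h2 := y.2
              omega
          · exact h0⟩) (fun p => ⟨0, by
          rcases Nat.eq_zero_or_pos B with h0 | h0
          · exfalso
            obtain ⟨j, y⟩ := p
            revert y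
            refine Fin.addCases (fun i' => ?_) (fun i' => ?_) j
            · rw [ht1]; intro y; exact y.elim0
            · rw [ht2]; intro y
              have h1 := hB i'
              have h2 := y.2
              omega
          · exact h0⟩)
        (by simp) (by simp) (slice C (Fin.castAdd g i)) (by simp)
      refine ⟨v, le_trans ?_ (hv.trans (Submodule.finrank_mono (sup_le_sup_left (span_mono ?_) _)))⟩
      · rw [hn1']
        have h1 : (Finset.univ \ (∅ ∪ ∅ ∪ ∅) : Finset ι).card = ∑ i, β i := by
          rw [Finset.union_empty, Finset.union_empty, Finset.sdiff_empty, Finset.card_univ,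
            Fintype.card_sigma, ← htsum]
          simp
        rw [h1]
        refine le_min (hbad i) ?_
        omega
      · refine Set.union_subset_union (Set.union_subset_union ?_ ?_) (fun _ h => h)
        · rintro f ⟨p, hp, hf⟩
          exact absurd hp (Finset.notMem_empty p)
        · rintro f ⟨p, p', _, h, _⟩
          rcases h with ⟨h, _⟩ | ⟨h, _⟩
          · exact absurd h (Finset.notMem_empty p)
          · exact absurd h (Finset.notMem_empty p)
    · -- a good slice
      set i' := nx.symm i with hi'
      have hne : i' ≠ i := fun h => hnx i' (by rw [hi', Equiv.apply_symm_apply, ← hi', h])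
      have hne' : Fin.natAdd m0 i' ≠ Fin.natAdd m0 i := fun h => hne (Fin.natAdd_injective _ _ h)
      have hA' := hA i
      have hB' := hB i
      rw [← hi'] at hA' hB'
      rcases Nat.eq_zero_or_pos (β i + β i') with h00 | h00
      · -- no points: trivial
        have hb1 : β i = 0 := by omega
        have hb2 : β i' = 0 := by omega
        have hn0 : n (Fin.natAdd m0 i) = (slice C (Fin.natAdd m0 i)).card + ∑ i, β i := by
          rw [hn2', ← hi', hb1, hb2]
          simp
        have hg0 := hgood i
        rw [← hi', hb1, hb2] at hg0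
        have hg1 : (slice C (Fin.natAdd m0 i)).card + ∑ i, β i ≤ A * B := by simpa using hg0
        obtain ⟨z, hz⟩ := point_lemma' [A, B] (coordSub K (slice C (Fin.natAdd m0 i))) ι
        refine ⟨z, le_trans ?_ (hz.trans (Submodule.finrank_mono (sup_le_sup_left
          (span_mono ?_) _)))⟩
        · rw [hn0, finrank_coordSub, Fintype.card_sigma]
          have h1 : ∑ j, Fintype.card (Fin (t j)) = ∑ i, β i := by rw [← htsum]; simp
          rw [h1]
          refine le_min (hg1.trans (le_of_eq (by simp))) le_rfl
        · rintro _ ⟨p, rfl⟩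
          exact Or.inr ⟨p, rfl⟩
      have hA0 : 0 < A := by omega
      have hB0 : 0 < B := by omega
      let P1 := Pset t (Fin.natAdd m0 i) (t (Fin.natAdd m0 i))
      let P2 := Pset t (Fin.natAdd m0 i') (t (Fin.natAdd m0 i'))
      have e1 : ∀ p : ι, p ∈ P1 → p.1 = Fin.natAdd m0 i := fun p hp => ((mem_Pset _ _ _ _).1 hp).1
      have e2 : ∀ p : ι, p ∈ P2 → p.1 = Fin.natAdd m0 i' := fun p hp => ((mem_Pset _ _ _ _).1 hp).1
      let f : ι → ℕ := fun p => if p.1 = Fin.natAdd m0 i then T1 + p.2.val else
        T1 + β i + p.2.val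
      have f1 : ∀ p ∈ P1, f p = T1 + p.2.val ∧ p.2.val < β i := fun p hp => by
        obtain ⟨h3, h4⟩ := (mem_Pset _ _ _ _).1 hp
        rw [ht2] at h4
        exact ⟨if_pos h3, h4⟩
      have f2 : ∀ p ∈ P2, f p = T1 + β i + p.2.val ∧ p.2.val < β i' := fun p hp => by
        obtain ⟨h3, h4⟩ := (mem_Pset _ _ _ _).1 hp
        rw [ht2] at h4
        refine ⟨?_, h4⟩
        simp only [f]
        rw [if_neg (by rw [h3]; exact hne')]
      have hmem : ∀ p ∈ P1 ∪ P2 ∪ ∅, p ∈ P1 ∨ p ∈ P2 := fun p hp => by
        rw [Finset.union_empty, Finset.mem_union] at hp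
        exact hp
      have flt : ∀ p ∈ P1 ∪ P2 ∪ ∅, T1 ≤ f p ∧ f p < T1 + β i + β i' := by
        intro p hp
        rcases hmem p hp with h | h
        · have := f1 p h; omega
        · have := f2 p h; omega
      have finj : ∀ p ∈ P1 ∪ P2 ∪ ∅, ∀ p' ∈ P1 ∪ P2 ∪ ∅, f p = f p' → p = p' := by
        intro p hp p' hp' hf
        rcases hmem p hp with h | h <;> rcases hmem p' hp' with h' | h'
        · have := f1 p h; have := f1 p' h'
          exact Pset_inj t _ _ p h p' h' (by omega)
        · have := f1 p h; have := f2 p' h'; omega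
        · have := f2 p h; have := f1 p' h'; omega
        · have := f2 p h; have := f2 p' h'
          exact Pset_inj t _ _ p h p' h' (by omega)
      let ρ : ι → Fin A := fun p => ⟨min (f p) (A - 1), by omega⟩
      let κ : ι → Fin B := fun p => ⟨min (f p) (B - 1), by omega⟩
      have d12 : Disjoint P1 P2 := Finset.disjoint_left.2 fun p hp hp' =>
        hne' ((e2 p hp').symm.trans (e1 p hp))
      obtain ⟨v, hv⟩ := slice_dim (K := K) P1 P2 ∅ d12 (Finset.disjoint_empty_right _)
        (Finset.disjoint_empty_right _) (fun p : ι => p.2.val) ρ κ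
        (by
          intro p hp p' hp' h
          refine finj p hp p' hp' ?_
          have h3 := flt p hp
          have h4 := flt p' hp'
          have h5 : min (f p) (A - 1) = min (f p') (A - 1) := congrArg Fin.val h
          omega)
        (by
          intro p hp p' hp' h
          refine finj p hp p' hp' ?_
          have h3 := flt p hp
          have h4 := flt p' hp'
          have h5 : min (f p) (B - 1) = min (f p') (B - 1) := congrArg Fin.val h
          omega)
        (slice C (Fin.natAdd m0 i)) (by
          intro x hx p hp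
          obtain ⟨h1, h2⟩ := hC i x hx
          have h3 := flt p hp
          constructor
          · intro h
            have h4 : x.1.val = min (f p) (A - 1) := congrArg Fin.val h
            omega
          · intro h
            have h4 : x.2.1.val = min (f p) (B - 1) := congrArg Fin.val h
            omega)
      refine ⟨v, le_trans ?_ (hv.trans (Submodule.finrank_mono
        (sup_le_sup_left (span_mono ?_) _)))⟩
      · have k1 : P1.card = β i := by rw [card_Pset t _ _ le_rfl, ht2]
        have k2 : P2.card = β i' := by rw [card_Pset t _ _ le_rfl, ht2]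
        have k4 : ((P2 ×ˢ P2).filter (fun x : ι × ι => x.1 = x.2 ∨
            x.1.2.val ≠ x.2.2.val)).card = β i' ^ 2 := by
          rw [Finset.filter_true_of_mem, Finset.card_product, k2, sq]
          intro x hx
          obtain ⟨hx1, hx2⟩ := Finset.mem_product.1 hx
          by_cases h : x.1.2.val = x.2.2.val
          · exact Or.inl (Pset_inj t _ _ x.1 hx1 x.2 hx2 h)
          · exact Or.inr h
        have k6 : (Finset.univ \ (P1 ∪ P2 ∪ ∅)).card = ∑ i, β i - (β i + β i') := by
          rw [Finset.union_empty, Finset.card_sdiff_of_subset (Finset.subset_univ _),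
            Finset.card_union_of_disjoint d12, k1, k2]
          congr 1
          rw [Finset.card_univ, Fintype.card_sigma, ← htsum]
          simp
        rw [hn2', ← hi', k1, k4, k6]
        have h1 := hgood i
        rw [← hi'] at h1
        refine le_min h1 ?_
        omega
      · refine Set.union_subset_union (Set.union_subset_union ?_ ?_) (fun _ h => h)
        · rintro g ⟨p, hp, hg⟩
          exact ⟨p, e1 p hp, hg⟩
        · rintro g ⟨p, p', hne, h, rfl⟩
          rcases h with ⟨h3, h4, h5⟩ | ⟨h3, _⟩
          · refine ⟨p, p', hne, (e2 p h3).trans (e2 p' h4).symm, Or.inl ⟨h5, ?_⟩, rfl⟩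
            rw [e2 p h3, hn1, hi', Equiv.apply_symm_apply]
          · exact absurd h3 (Finset.notMem_empty p))
  -- the points
  have hcard : Fintype.card ι = ∑ i, β i := by
    rw [Fintype.card_sigma, ← htsum]
    simp
  let e := Fintype.equivFinOfCardEq hcard
  refine ⟨fun a => x (e.symm a), ?_⟩
  have hS : (⨆ a, T [m0 + g, A, B] (x (e.symm a))) = ⨆ p, T [m0 + g, A, B] (x p) :=
    e.symm.iSup_comp (g := fun p => T [m0 + g, A, B] (x p))
  rw [hS]
  refine le_trans (le_of_eq ?_) hx
  -- the sum
  have hC1 := sum_card_slice C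
  rw [Fin.sum_univ_add] at hC1
  rw [Fin.sum_univ_add]
  simp only [hn1', hn2']
  have hsq : ∑ i, β (nx.symm i) ^ 2 = ∑ i, β i ^ 2 := Equiv.sum_comp nx.symm (fun i => β i ^ 2)
  have hs1 : ∑ i, β (nx.symm i) = ∑ i, β i := Equiv.sum_comp nx.symm β
  set S := ∑ i, β i with hS'
  rcases Nat.eq_zero_or_pos S with hS0 | hS0
  · have h0 : ∀ i, β i = 0 := by
      intro i
      have := Finset.sum_eq_zero_iff.1 (hS'.symm.trans hS0) i (Finset.mem_univ i)
      exact this
    simp only [h0, hS0]
    simp only [Nat.zero_mul, Nat.add_zero, Nat.sub_zero, ne_eq, OfNat.ofNat_ne_zero,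
      not_false_eq_true, zero_pow]
    exact hC1.symm
  have hle : ∀ i, β i + β (nx.symm i) ≤ S := fun i => by
    have hne : nx.symm i ≠ i := fun h => hnx (nx.symm i) (by rw [Equiv.apply_symm_apply, h])
    have h1 : ∑ j ∈ ({i, nx.symm i} : Finset (Fin g)), β j ≤ S :=
      Finset.sum_le_sum_of_subset (Finset.subset_univ _)
    rw [Finset.sum_pair hne.symm] at h1
    exact h1
  have hterm : ∀ i, (slice C (Fin.natAdd m0 i)).card + β i * (A + B - β i) +
      β (nx.symm i) ^ 2 + (S - (β i + β (nx.symm i))) + (β i ^ 2 + β i + β (nx.symm i)) =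
      (slice C (Fin.natAdd m0 i)).card + (A + B) * β i + β (nx.symm i) ^ 2 + S := by
    intro i
    have h1 := hle i
    have h2 := hA i
    have h3 := hB i
    obtain ⟨c, hc⟩ : ∃ c, A + B = β i + c := ⟨A + B - β i, by omega⟩
    rw [hc, Nat.add_sub_cancel_left]
    have h4 : (β i + c) * β i = β i * c + β i ^ 2 := by ring
    omega
  have hg1 : 1 ≤ g := by
    rcases Nat.eq_zero_or_pos g with h | h
    · subst h
      simp at hS'
      omega
    · exact h
  have hsum := Finset.sum_congr (rfl : (Finset.univ : Finset (Fin g)) = Finset.univ)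
    (fun i _ => hterm i)
  simp only [Finset.sum_add_distrib, ← Finset.mul_sum, Finset.sum_const, Finset.card_univ,
    Fintype.card_fin, smul_eq_mul, hsq, hs1] at hsum ⊢
  have hA1 : 1 ≤ A := by
    have := hle ⟨0, hg1⟩
    have h2 : ∃ i, 0 < β i := by
      by_contra hcon
      push Not at hcon
      have : S = 0 := Finset.sum_eq_zero fun i _ => Nat.le_zero.1 (hcon i)
      omega
    obtain ⟨i, hi⟩ := h2
    have := hA i
    omega
  have hB1 : 1 ≤ B := by
    have h2 : ∃ i, 0 < β i := by
      by_contra hcon
      push Not at hcon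
      have : S = 0 := Finset.sum_eq_zero fun i _ => Nat.le_zero.1 (hcon i)
      omega
    obtain ⟨i, hi⟩ := h2
    have := hB i
    omega
  have hD : D [m0 + g, A, B] = m0 + g + A + B - 2 := by
    change (m0 + g - 1) + ((A - 1) + ((B - 1) + 1)) = _
    omega
  rw [hD]
  obtain ⟨A', rfl⟩ : ∃ A', A = A' + 1 := ⟨A - 1, by omega⟩
  obtain ⟨B', rfl⟩ : ∃ B', B = B' + 1 := ⟨B - 1, by omega⟩
  have h5 : S * (m0 + g + (A' + 1) + (B' + 1) - 2) = m0 * S + g * S + (A' + B') * S := by
    rw [show m0 + g + (A' + 1) + (B' + 1) - 2 = m0 + g + (A' + B') by omega]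
    ring
  rw [h5]
  have h6 : (A' + 1 + (B' + 1)) * S = (A' + B') * S + 2 * S := by ring
  rw [h6] at hsum
  omega

end Pool.Agent.Lib.MP_635d71_ag
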