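import Mathlib
import Pool.Agent.Lib.MP_635d71_ag.GoodBase

/-!
# The set of cells used by the special points, and its base case
-/

open Module Submodule

namespace Pool.Agent.Lib.MP_635d71_ag

variable {K : Type} [Field K]

/-- The cells used by the special points. -/
def Qmax (s A B T1 τ : ℕ) : Finset (Grid [s, A, B]) :=
  Finset.univ.filter fun g => (g.1.val < 6 ∧ (g.2.1.val < T1 ∨ g.2.2.1.val < T1 ∨
    (g.2.1.val < τ ∧ g.2.2.1.val < τ))) ∨ (g.2.1.val < T1 ∧ g.2.2.1.val = g.2.1.val)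

/-- The centres. -/
def Fmax (s A B T1 : ℕ) : Finset (Grid [s, A, B]) :=
  Finset.univ.filter fun g => g.1.val < 6 ∧ g.2.1.val < T1 ∧ g.2.2.1.val = g.2.1.val

theorem mem_Qmax {s A B T1 τ : ℕ} (z : Fin s) (a : Fin A) (b : Fin B) :
    ((z, a, b, ()) : Grid [s, A, B]) ∈ Qmax s A B T1 τ ↔ (z.val < 6 ∧ (a.val < T1 ∨ b.val < T1 ∨
      (a.val < τ ∧ b.val < τ))) ∨ (a.val < T1 ∧ b.val = a.val) := by simp [Qmax]

theorem mem_Fmax {s A B T1 : ℕ} (z : Fin s) (a : Fin A) (b : Fin B) :
    ((z, a, b, ()) : Grid [s, A, B]) ∈ Fmax s A B T1 ↔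
      z.val < 6 ∧ a.val < T1 ∧ b.val = a.val := by simp [Fmax]

theorem Fmax_subset (s A B T1 τ : ℕ) : Fmax s A B T1 ⊆ Qmax s A B T1 τ := by
  rintro ⟨z, a, b, ⟨⟩⟩ h
  rw [mem_Fmax] at h
  rw [mem_Qmax]
  exact Or.inr h.2

theorem card_lt_fin (n m : ℕ) : (Finset.univ.filter fun a : Fin n => a.val < m).card ≤ m := by
  have h : (Finset.univ.filter fun a : Fin n => a.val < m).card ≤ (Finset.range m).card := by
    refine Finset.card_le_card_of_injOn (fun a => a.val) ?_ ?_
    · intro a ha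
      exact Finset.mem_range.2 (Finset.mem_filter.1 ha).2
    · intro a _ b _ h
      exact Fin.ext h
  rwa [Finset.card_range] at h

theorem card_between_fin (n l m : ℕ) :
    (Finset.univ.filter fun a : Fin n => l ≤ a.val ∧ a.val < m).card ≤ m - l := by
  have h : (Finset.univ.filter fun a : Fin n => l ≤ a.val ∧ a.val < m).card ≤
      (Finset.Ico l m).card := by
    refine Finset.card_le_card_of_injOn (fun a => a.val) ?_ ?_
    · intro a ha
      exact Finset.mem_Ico.2 (Finset.mem_filter.1 ha).2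
    · intro a _ b _ h
      exact Fin.ext h
  rwa [Nat.card_Ico] at h

theorem slice_Qmax_bad (s A B T1 τ : ℕ) (z : Fin s) :
    (slice (Qmax s A B T1 τ) z).card ≤ T1 * (A + B) + (τ - T1) ^ 2 := by
  classical
  let U1 := ((Finset.univ.filter fun a : Fin A => a.val < T1) ×ˢ (Finset.univ : Finset (Fin B)))
  let U2 := ((Finset.univ : Finset (Fin A)) ×ˢ (Finset.univ.filter fun b : Fin B => b.val < T1))
  let U3 := ((Finset.univ.filter fun a : Fin A => T1 ≤ a.val ∧ a.val < τ) ×ˢ
    (Finset.univ.filter fun b : Fin B => T1 ≤ b.val ∧ b.val < τ))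
  have h : slice (Qmax s A B T1 τ) z ⊆ (U1 ∪ U2 ∪ U3).image (fun x => ((x.1, x.2, ()) :
      Grid [A, B])) := by
    rintro ⟨a, b, ⟨⟩⟩ hg
    have hg' : ((z, a, b, ()) : Grid [s, A, B]) ∈ Qmax s A B T1 τ := by simpa [slice] using hg
    rw [mem_Qmax] at hg'
    refine Finset.mem_image.2 ⟨(a, b), ?_, rfl⟩
    simp only [U1, U2, U3, Finset.mem_union, Finset.mem_product, Finset.mem_filter,
      Finset.mem_univ, true_and, and_true]
    omega
  refine (Finset.card_le_card h).trans (Finset.card_image_le.trans ?_)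
  have h1 := Finset.card_union_le (U1 ∪ U2) U3
  have h2 := Finset.card_union_le U1 U2
  have h3 : U1.card ≤ T1 * B := by
    rw [Finset.card_product, Finset.card_univ, Fintype.card_fin]
    exact Nat.mul_le_mul_right _ (card_lt_fin A T1)
  have h4 : U2.card ≤ A * T1 := by
    rw [Finset.card_product, Finset.card_univ, Fintype.card_fin]
    exact Nat.mul_le_mul_left _ (card_lt_fin B T1)
  have h5 : U3.card ≤ (τ - T1) * (τ - T1) := by
    rw [Finset.card_product]
    exact Nat.mul_le_mul (card_between_fin A T1 τ) (card_between_fin B T1 τ)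
  have h6 : T1 * (A + B) + (τ - T1) ^ 2 = T1 * B + A * T1 + (τ - T1) * (τ - T1) := by ring
  omega

theorem slice_Qmax_good (s A B T1 τ : ℕ) (z : Fin s) (hz : 6 ≤ z.val) :
    (∀ x ∈ slice (Qmax s A B T1 τ) z, x.1.val < T1 ∧ x.2.1.val < T1) ∧
      (slice (Qmax s A B T1 τ) z).card ≤ T1 := by
  classical
  have h0 : ∀ x ∈ slice (Qmax s A B T1 τ) z, x.1.val < T1 ∧ x.2.1.val = x.1.val := by
    rintro ⟨a, b, ⟨⟩⟩ hg
    have hg' : ((z, a, b, ()) : Grid [s, A, B]) ∈ Qmax s A B T1 τ := by simpa [slice] using hg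
    rw [mem_Qmax] at hg'
    rcases hg' with h | h
    · omega
    · exact h
  refine ⟨fun x hx => ?_, ?_⟩
  · obtain ⟨h1, h2⟩ := h0 x hx
    exact ⟨h1, by rw [h2]; exact h1⟩
  · have h : (slice (Qmax s A B T1 τ) z).card ≤ (Finset.range T1).card := by
      refine Finset.card_le_card_of_injOn (fun x => x.1.val) ?_ ?_
      · intro x hx
        exact Finset.mem_range.2 (h0 x hx).1
      · rintro ⟨a, b, ⟨⟩⟩ hx ⟨a', b', ⟨⟩⟩ hy h
        have h1 := (h0 _ hx).2
        have h2 := (h0 _ hy).2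
        have h3 : a.val = a'.val := h
        have h4 : b.val = b'.val := h1.trans (h3.trans h2.symm)
        rw [Fin.ext h3, Fin.ext h4]
    rwa [Finset.card_range] at h

theorem card_Qmax_le (s A B T1 τ : ℕ) :
    (Qmax s A B T1 τ).card ≤ 6 * (T1 * (A + B) + (τ - T1) ^ 2) + s * T1 := by
  classical
  rw [← sum_card_slice (Qmax s A B T1 τ)]
  have h1 : ∀ z : Fin s, (slice (Qmax s A B T1 τ) z).card ≤
      (if z.val < 6 then T1 * (A + B) + (τ - T1) ^ 2 else 0) + T1 := by
    intro z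
    split_ifs with h
    · have := slice_Qmax_bad s A B T1 τ z
      omega
    · have := (slice_Qmax_good s A B T1 τ z (by omega)).2
      omega
  refine (Finset.sum_le_sum fun z _ => h1 z).trans ?_
  rw [Finset.sum_add_distrib, Finset.sum_const, Finset.card_univ, Fintype.card_fin, smul_eq_mul,
    ← Finset.sum_filter, Finset.sum_const, smul_eq_mul]
  have := card_lt_fin s 6
  have h2 := Nat.mul_le_mul_right (T1 * (A + B) + (τ - T1) ^ 2) this
  omega

theorem card_Fmax_le (s A B T1 : ℕ) : (Fmax s A B T1).card ≤ 6 * T1 := by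
  classical
  have h : (Fmax s A B T1).card ≤ (Finset.range 6 ×ˢ Finset.range T1).card := by
    refine Finset.card_le_card_of_injOn (fun x => (x.1.val, x.2.1.val)) ?_ ?_
    · rintro ⟨z, a, b, ⟨⟩⟩ hx
      rw [Finset.mem_coe, mem_Fmax] at hx
      rw [Finset.mem_coe, Finset.mem_product, Finset.mem_range, Finset.mem_range]
      exact ⟨hx.1, hx.2.1⟩
    · rintro ⟨z, a, b, ⟨⟩⟩ hx ⟨z', a', b', ⟨⟩⟩ hy h
      rw [Finset.mem_coe, mem_Fmax] at hx hy
      simp only [Prod.mk.injEq] at h
      have h4 : b.val = b'.val := hx.2.2.trans (h.2.trans hy.2.2.symm)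
      rw [Fin.ext h.1, Fin.ext h.2, Fin.ext h4]
  rwa [Finset.card_product, Finset.card_range, Finset.card_range] at h

theorem exists_split_fin (g b : ℕ) (hg : 1 ≤ g) : ∃ β : Fin g → ℕ, ∑ i, β i = b ∧
    ∀ i, b / g ≤ β i ∧ β i ≤ b / g + 1 := by
  refine ⟨fun i => b / g + if i.val < b % g then 1 else 0, ?_, fun i => ?_⟩
  · rw [Finset.sum_add_distrib, Finset.sum_const, Finset.card_univ, Fintype.card_fin, smul_eq_mul]
    have h1 : ∑ i : Fin g, (if i.val < b % g then 1 else 0) = b % g := by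
      rw [Fin.sum_univ_eq_sum_range (fun i => if i < b % g then 1 else 0) g,
        ← Finset.sum_filter, Finset.sum_const, smul_eq_mul, mul_one]
      have h2 := Nat.mod_lt b (show 0 < g by omega)
      have h3 : (Finset.range g).filter (fun i => i < b % g) = Finset.range (b % g) := by
        ext i
        simp only [Finset.mem_filter, Finset.mem_range]
        omega
      rw [h3, Finset.card_range]
    rw [h1]
    exact Nat.div_add_mod b g
  · dsimp only
    split_ifs <;> omega

theorem base_num [Infinite K] (g A B T1 τ b : ℕ) (hg : 2 ≤ g)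
    (h1 : T1 + 2 * (b / g) + 2 ≤ A) (h2 : T1 + 2 * (b / g) + 2 ≤ B)
    (h3 : T1 * (A + B) + (τ - T1) ^ 2 + b ≤ A * B)
    (h4 : T1 + (b / g + 1) * (A + B) + (2 * (b / g) + 1) + b ≤ A * B) :
    Good K [6 + g, A, B] b (Qmax (6 + g) A B T1 τ) := by
  obtain ⟨β, hβ1, hβ2⟩ := exists_split_fin g b (by omega)
  obtain ⟨g', rfl⟩ : ∃ g', g = g' + 2 := ⟨g - 2, by omega⟩
  set β0 := b / (g' + 2) with hβ0
  have key := base_flow (K := K) 6 (g' + 2) A B T1 β (finRotate (g' + 2))
    (fun i h => by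
      rw [finRotate_apply] at h
      have h5 : (1 : Fin (g' + 2)) = 0 := by
        have := congrArg (fun x => x - i) h
        simpa using this
      exact absurd h5 (by simp))
    (Qmax (6 + (g' + 2)) A B T1 τ)
    (fun i => (slice_Qmax_good _ A B T1 τ (Fin.natAdd 6 i) (by simp)).1)
    (fun i => by
      have e1 := (hβ2 i).2
      have e2 := (hβ2 ((finRotate (g' + 2)).symm i)).2
      omega)
    (fun i => by
      have e1 := (hβ2 i).2
      have e2 := (hβ2 ((finRotate (g' + 2)).symm i)).2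
      omega)
    (fun i => by
      rw [hβ1]
      have := slice_Qmax_bad (6 + (g' + 2)) A B T1 τ (Fin.castAdd (g' + 2) i)
      omega)
    (fun i => by
      rw [hβ1]
      have e0 := (slice_Qmax_good (6 + (g' + 2)) A B T1 τ (Fin.natAdd 6 i) (by simp)).2
      have e1 := hβ2 i
      have e2 := hβ2 ((finRotate (g' + 2)).symm i)
      set x := β i
      set y := β ((finRotate (g' + 2)).symm i)
      obtain ⟨c, hc⟩ : ∃ c, A + B = x + c := ⟨A + B - x, by omega⟩
      have e3 : x * (A + B - x) + x ^ 2 = x * (A + B) := by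
        rw [hc, Nat.add_sub_cancel_left]; ring
      have e4 : y ^ 2 ≤ (β0 + 1) ^ 2 := Nat.pow_le_pow_left e2.2 2
      have e5 : β0 ^ 2 ≤ x ^ 2 := Nat.pow_le_pow_left e1.1 2
      have e6 : x * (A + B) ≤ (β0 + 1) * (A + B) := Nat.mul_le_mul_right _ e1.2
      have e7 : (β0 + 1) ^ 2 = β0 ^ 2 + (2 * β0 + 1) := by ring
      omega)
  rwa [hβ1] at key

end Pool.Agent.Lib.MP_635d71_ag
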