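import Mathlib
import Pool.Agent.Lib.MP_635d71_ag.GoodNum

/-!
# Product tensors independent modulo a subspace
-/

open Module Submodule

namespace Pool.Agent.Lib.MP_635d71_ag

variable {K : Type} [Field K]

/-- Choosing elements of a spanning family. -/
theorem exists_subfamily {V : Type} [AddCommGroup V] [Module K V] [FiniteDimensional K V]
    (M : Submodule K V) {α : Type} (f : α → V) (n : ℕ)
    (h : finrank K M + n ≤ finrank K ↥(M ⊔ span K (Set.range f))) :
    ∃ g : Fin n → α, finrank K M + n ≤ finrank K ↥(M ⊔ span K (Set.range fun i => f (g i))) := by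
  induction n with
  | zero =>
    refine ⟨fun i => i.elim0, ?_⟩
    rw [add_zero]
    exact Submodule.finrank_mono le_sup_left
  | succ n ih =>
    obtain ⟨g, hg⟩ := ih (by omega)
    obtain ⟨a, ha⟩ : ∃ a, finrank K M + (n + 1) ≤
        finrank K ↥((M ⊔ span K (Set.range fun i => f (g i))) ⊔ span K {f a}) := by
      by_contra hcon
      push Not at hcon
      have h1 : ∀ a, f a ∈ M ⊔ span K (Set.range fun i => f (g i)) := by
        intro a
        have h2 := hcon a
        have h3 : (M ⊔ span K (Set.range fun i => f (g i))) =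
            (M ⊔ span K (Set.range fun i => f (g i))) ⊔ span K {f a} :=
          Submodule.eq_of_le_of_finrank_le le_sup_left (by omega)
        rw [h3]
        exact mem_sup_right (mem_span_singleton_self _)
      have h4 : M ⊔ span K (Set.range f) ≤ M ⊔ span K (Set.range fun i => f (g i)) := by
        refine sup_le le_sup_left ?_
        rw [span_le]
        rintro _ ⟨a, rfl⟩
        exact h1 a
      have h5 := Submodule.finrank_mono h4
      have hne : Nonempty α := by
        by_contra hemp
        rw [not_nonempty_iff] at hemp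
        rw [Set.range_eq_empty, span_empty, sup_bot_eq] at h
        omega
      obtain ⟨a⟩ := hne
      have h6 := hcon a
      have h7 : finrank K ↥(M ⊔ span K (Set.range fun i => f (g i))) ≤
        finrank K ↥((M ⊔ span K (Set.range fun i => f (g i))) ⊔ span K {f a}) :=
        Submodule.finrank_mono le_sup_left
      omega
    refine ⟨Fin.cons a g, ha.trans (Submodule.finrank_mono ?_)⟩
    refine sup_le (sup_le le_sup_left (le_sup_of_le_right (span_mono ?_)))
      (le_sup_of_le_right (span_mono ?_))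
    · rintro _ ⟨i, rfl⟩
      exact ⟨i.succ, by simp⟩
    · rintro _ rfl
      exact ⟨0, by simp⟩

/-- Averaging. -/
theorem exists_big_part {V : Type} [AddCommGroup V] [Module K V] [FiniteDimensional K V]
    (M : Submodule K V) {α : Type} [Fintype α] [Nonempty α] (S : α → Submodule K V)
    (hS : M ⊔ ⨆ a, S a = ⊤) (n : ℕ) (h : finrank K M + n * Fintype.card α ≤ finrank K V) :
    ∃ a, finrank K M + n ≤ finrank K ↥(M ⊔ S a) := by
  classical
  by_contra hcon
  push Not at hcon
  have key : ∀ s : Finset α, finrank K ↥(M ⊔ ⨆ a ∈ s, S a) + s.card ≤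
      finrank K M + s.card * n := by
    intro s
    induction s using Finset.induction_on with
    | empty =>
      have e0 : (⨆ a ∈ (∅ : Finset α), S a) = ⊥ := by simp
      rw [e0, sup_bot_eq, Finset.card_empty, zero_mul]
    | insert a s ha ih =>
      rw [Finset.card_insert_of_notMem ha, Finset.iSup_insert]
      have e : M ⊔ (S a ⊔ ⨆ x ∈ s, S x) = (M ⊔ S a) ⊔ (M ⊔ ⨆ x ∈ s, S x) := by
        apply le_antisymm
        · exact sup_le (le_sup_of_le_left le_sup_left) (sup_le (le_sup_of_le_left le_sup_right)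
            (le_sup_of_le_right le_sup_right))
        · exact sup_le (sup_le le_sup_left (le_sup_of_le_right le_sup_left))
            (sup_le le_sup_left (le_sup_of_le_right le_sup_right))
      rw [e]
      have h1 := Submodule.finrank_sup_add_finrank_inf_eq (M ⊔ S a) (M ⊔ ⨆ x ∈ s, S x)
      have h2 : finrank K M ≤ finrank K ↥((M ⊔ S a) ⊓ (M ⊔ ⨆ x ∈ s, S x)) :=
        Submodule.finrank_mono (le_inf le_sup_left le_sup_left)
      have h3 := hcon a
      have h4 : (s.card + 1) * n = s.card * n + n := by ring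
      omega
  have h1 := key Finset.univ
  have h2 : (⨆ a ∈ (Finset.univ : Finset α), S a) = ⨆ a, S a := by simp
  rw [h2, hS, finrank_top, Finset.card_univ] at h1
  have h3 : 0 < Fintype.card α := Fintype.card_pos
  have h4 : Fintype.card α * n = n * Fintype.card α := mul_comm _ _
  omega

/-- Independent choices of blocks. -/
theorem exists_blocks {V : Type} [AddCommGroup V] [Module K V] [FiniteDimensional K V]
    {β : Type} [Fintype β] {W : Type} [Nonempty W] (f : β → W → Submodule K V) (n : β → ℕ) (κ : ℕ)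
    (hle : ∀ b w, finrank K (f b w) ≤ n b)
    (hext : ∀ b (M : Submodule K V), finrank K M + κ ≤ finrank K V →
      ∃ w, finrank K M + n b ≤ finrank K ↥(M ⊔ f b w)) (M : Submodule K V)
    (hM : finrank K M + κ + ∑ b, n b ≤ finrank K V) :
    ∃ w : β → W, finrank K M + ∑ b, n b ≤ finrank K ↥(M ⊔ ⨆ b, f b (w b)) := by
  classical
  have key : ∀ s : Finset β, ∃ w : β → W,
      finrank K M + ∑ b ∈ s, n b ≤ finrank K ↥(M ⊔ ⨆ b ∈ s, f b (w b)) ∧
      finrank K ↥(M ⊔ ⨆ b ∈ s, f b (w b)) ≤ finrank K M + ∑ b ∈ s, n b := by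
    intro s
    induction s using Finset.induction_on with
    | empty =>
      obtain ⟨w⟩ := (inferInstance : Nonempty W)
      have e0 : (⨆ b ∈ (∅ : Finset β), f b w) = ⊥ := by simp
      refine ⟨fun _ => w, ?_, ?_⟩
      · rw [e0, sup_bot_eq, Finset.sum_empty, add_zero]
      · rw [e0, sup_bot_eq, Finset.sum_empty, add_zero]
    | insert a s ha ih =>
      obtain ⟨w, hw1, hw2⟩ := ih
      have h0 : ∑ b ∈ insert a s, n b ≤ ∑ b, n b :=
        Finset.sum_le_sum_of_subset (Finset.subset_univ _)
      rw [Finset.sum_insert ha] at h0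
      obtain ⟨wa, hwa⟩ := hext a (M ⊔ ⨆ b ∈ s, f b (w b)) (by omega)
      have e : M ⊔ ⨆ b ∈ insert a s, f b ((Function.update w a wa) b) =
          (M ⊔ ⨆ b ∈ s, f b (w b)) ⊔ f a wa := by
        rw [Finset.iSup_insert, Function.update_self]
        have e1 : (⨆ b ∈ s, f b ((Function.update w a wa) b)) = ⨆ b ∈ s, f b (w b) := by
          refine iSup_congr fun b => iSup_congr fun hb => ?_
          rw [Function.update_of_ne (fun h => ha (by rw [← h]; exact hb))]
        rw [e1, sup_assoc, sup_comm (f a wa)]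
      refine ⟨Function.update w a wa, ?_, ?_⟩
      · rw [e, Finset.sum_insert ha]
        omega
      · rw [e, Finset.sum_insert ha]
        have h1 := Submodule.finrank_add_le_finrank_add_finrank (M ⊔ ⨆ b ∈ s, f b (w b)) (f a wa)
        have h2 := hle a wa
        omega
  obtain ⟨w, hw, _⟩ := key Finset.univ
  refine ⟨w, ?_⟩
  have h2 : (⨆ b ∈ (Finset.univ : Finset β), f b (w b)) = ⨆ b, f b (w b) := by simp
  rwa [h2] at hw

/-- The parameters of a class of special points. -/
abbrev Par (K : Type) (O : List ℕ) (s1 s2 s3 : ℕ) : Type :=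
  (Coord O → K) × (Fin s3 → K) × (ℕ → Fin s1 → K) × (ℕ → Fin s2 → K)

variable {O : List ℕ} {s1 s2 s3 : ℕ}

/-- The product tensors of a class. -/
def EE (w : Par K O s1 s2 s3) (x y : ℕ) : Grid (O ++ [s3, s1, s2]) → K :=
  E _ (pw O w.1 w.2.1 (w.2.2.1 x) (w.2.2.2 y))

/-- The product tensor of the external point of a class. -/
def EX (w : Par K O s1 s2 s3) : Grid (O ++ [s3, s1, s2]) → K :=
  E _ (pw O w.1 w.2.1 (w.2.2.1 0 + w.2.2.1 1) (w.2.2.2 2))

/-- The contribution of a class to another slice. -/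
def SB (a o : ℕ) (w : Par K O s1 s2 s3) : Submodule K (Grid (O ++ [s3, s1, s2]) → K) :=
  span K (Set.range fun x : Fin a => EE w x x) ⊔ span K (Set.range fun _ : Fin o => EX w)

theorem finrank_SB_le (a o : ℕ) (w : Par K O s1 s2 s3) : finrank K (SB a o w) ≤ a + o := by
  refine (Submodule.finrank_add_le_finrank_add_finrank _ _).trans ?_
  have h1 := finrank_range_le_card (R := K) (fun x : Fin a => EE w x x)
  have h2 := finrank_range_le_card (R := K) (fun _ : Fin o => EX w)
  rw [Fintype.card_fin] at h1 h2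
  exact Nat.add_le_add h1 h2

theorem single_mem_iSup {G α : Type} [Fintype G] [DecidableEq G] (S : α → Submodule K (G → K))
    (h : ∀ g : G, ∃ a, (Pi.single g 1 : G → K) ∈ S a) : (⨆ a, S a) = ⊤ := by
  rw [eq_top_iff]
  have h1 : coordSub K (Finset.univ : Finset G) ≤ ⨆ a, S a := by
    refine coordSub_le_of_single _ _ fun g _ => ?_
    obtain ⟨a, ha⟩ := h g
    exact (le_iSup S a) ha
  refine le_trans ?_ h1
  intro f _ g hg
  exact absurd (Finset.mem_univ g) hg

theorem cell_surj (g : Grid (O ++ [s3, s1, s2])) : ∃ o z a b, cell O o z a b = g := by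
  refine ⟨firstPart [s3, s1, s2] O g, (lastPart [s3, s1, s2] O g).1,
    (lastPart [s3, s1, s2] O g).2.1, (lastPart [s3, s1, s2] O g).2.2.1, ?_⟩
  exact app_parts [s3, s1, s2] O g

/-- A class of points in general position. -/
theorem ext_clique (a : ℕ) (hO : 1 ≤ O.prod * s3)
    (M : Submodule K (Grid (O ++ [s3, s1, s2]) → K))
    (hM : finrank K M + a * (O.prod * s3) ≤ (O ++ [s3, s1, s2]).prod) :
    ∃ w : Par K O s1 s2 s3, finrank K M + a ≤ finrank K ↥(M ⊔ SB a 0 w) := by
  classical
  have hcard : Fintype.card (Grid O × Fin s3) = O.prod * s3 := by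
    rw [Fintype.card_prod, card_grid, Fintype.card_fin]
  have : Nonempty (Grid O × Fin s3) := by
    rw [← Fintype.card_pos_iff, hcard]; omega
  have hV : finrank K (Grid (O ++ [s3, s1, s2]) → K) = (O ++ [s3, s1, s2]).prod := by
    rw [Module.finrank_fintype_fun_eq_card, card_grid]
  let f : Grid O × Fin s3 → Fin s1 × Fin s2 → Grid (O ++ [s3, s1, s2]) → K := fun p x =>
    Pi.single (cell O p.1 p.2 x.1 x.2) 1
  obtain ⟨p, hp⟩ := exists_big_part M (fun p => span K (Set.range (f p))) (by
    rw [single_mem_iSup, sup_top_eq]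
    intro g
    obtain ⟨o, z, a, b, rfl⟩ := cell_surj g
    exact ⟨(o, z), subset_span ⟨(a, b), rfl⟩⟩) a (by rw [hcard, hV]; exact hM)
  obtain ⟨g, hg⟩ := exists_subfamily M (f p) a hp
  refine ⟨(cpt O p.1, Pi.single p.2 1,
    fun i => if h : i < a then Pi.single (g ⟨i, h⟩).1 1 else 0,
    fun i => if h : i < a then Pi.single (g ⟨i, h⟩).2 1 else 0), ?_⟩
  refine hg.trans (Submodule.finrank_mono (sup_le_sup_left (le_sup_of_le_left (span_mono ?_)) _))
  rintro _ ⟨i, rfl⟩
  refine ⟨i, ?_⟩
  simp only [EE, dif_pos i.2]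
  exact E_pw_single O p.1 p.2 _ _

/-- Two points and an external point in general position. -/
theorem ext_triple (h2 : (2 : K) ≠ 0) (hO : 1 ≤ O.prod * s3 * s1)
    (M : Submodule K (Grid (O ++ [s3, s1, s2]) → K))
    (hM : finrank K M + 3 * (O.prod * s3 * s1) ≤ (O ++ [s3, s1, s2]).prod) :
    ∃ w : Par K O s1 s2 s3, finrank K M + (2 + 1) ≤ finrank K ↥(M ⊔ SB 2 1 w) := by
  classical
  have hcard : Fintype.card (Grid O × Fin s3 × Fin s1) = O.prod * s3 * s1 := by
    rw [Fintype.card_prod, Fintype.card_prod, card_grid, Fintype.card_fin, Fintype.card_fin,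
      mul_assoc]
  have : Nonempty (Grid O × Fin s3 × Fin s1) := by
    rw [← Fintype.card_pos_iff, hcard]; omega
  have hV : finrank K (Grid (O ++ [s3, s1, s2]) → K) = (O ++ [s3, s1, s2]).prod := by
    rw [Module.finrank_fintype_fun_eq_card, card_grid]
  let f : Grid O × Fin s3 × Fin s1 → Fin s2 → Grid (O ++ [s3, s1, s2]) → K := fun p y =>
    Pi.single (cell O p.1 p.2.1 p.2.2 y) 1
  obtain ⟨p, hp⟩ := exists_big_part M (fun p => span K (Set.range (f p))) (by
    rw [single_mem_iSup, sup_top_eq]
    intro g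
    obtain ⟨o, z, a, b, rfl⟩ := cell_surj g
    exact ⟨(o, z, a), subset_span ⟨b, rfl⟩⟩) 3 (by rw [hcard, hV]; exact hM)
  obtain ⟨g, hg⟩ := exists_subfamily M (f p) 3 hp
  refine ⟨(cpt O p.1, Pi.single p.2.1 1, fun _ => Pi.single p.2.2 1,
    fun i => if h : i < 3 then Pi.single (g ⟨i, h⟩) 1 else 0), ?_⟩
  refine hg.trans (Submodule.finrank_mono (sup_le_sup_left ?_ _))
  rw [span_le]
  rintro _ ⟨i, rfl⟩
  fin_cases i
  · refine mem_sup_left (subset_span ⟨0, ?_⟩)
    simp only [EE]
    exact E_pw_single O p.1 p.2.1 _ _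
  · refine mem_sup_left (subset_span ⟨1, ?_⟩)
    simp only [EE]
    exact E_pw_single O p.1 p.2.1 _ _
  · refine mem_sup_right ?_
    have h3 : f p (g 2) = (2 : K)⁻¹ • EX ((cpt O p.1, Pi.single p.2.1 1, fun _ => Pi.single p.2.2 1,
        fun i => if h : i < 3 then Pi.single (g ⟨i, h⟩) 1 else 0) : Par K O s1 s2 s3) := by
      have h4 : (Pi.single p.2.2 1 + Pi.single p.2.2 1 : Fin s1 → K) =
          (2 : K) • Pi.single p.2.2 1 := by rw [two_smul]
      simp only [EX]
      rw [h4, E_pw_smul, smul_smul, inv_mul_cancel₀ h2, one_smul]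
      exact (E_pw_single O p.1 p.2.1 _ _).symm
    change f p (g 2) ∈ _
    rw [h3]
    exact Submodule.smul_mem _ _ (subset_span ⟨0, rfl⟩)

end Pool.Agent.Lib.MP_635d71_ag
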