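import Mathlib
import Pool.Agent.Lib.MP_635d71_ag.Blocks

/-!
# The cells of the special points
-/

open Module Submodule

namespace Pool.Agent.Lib.MP_635d71_ag

variable {K : Type} [Field K]

variable {O : List ℕ} {s1 s2 s3 : ℕ}

theorem mem_Ball_three (z z' : Fin s3) (a a' : Fin s1) (b b' : Fin s2) :
    ((z', a', b', ()) : Grid [s3, s1, s2]) ∈ Ball [s3, s1, s2] (z, a, b, ()) ↔
      (z' = z ∧ (a' = a ∨ b' = b)) ∨ (a' = a ∧ b' = b) := by
  rw [mem_Ball_cons, mem_Ball2]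
  simp only [Prod.mk.injEq, and_true]

theorem cell_inj {o o' : Grid O} {z z' : Fin s3} {a a' : Fin s1} {b b' : Fin s2}
    (h : cell O o z a b = cell O o' z' a' b') : o = o' ∧ z = z' ∧ a = a' ∧ b = b' := by
  have h1 := congrArg (firstPart [s3, s1, s2] O) h
  have h2 := congrArg (lastPart [s3, s1, s2] O) h
  rw [cell, cell, firstPart_app, firstPart_app] at h1
  rw [cell, cell, lastPart_app, lastPart_app] at h2
  simp only [Prod.mk.injEq, and_true] at h2
  exact ⟨h1, h2⟩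

theorem mem_Ball_cell {o o' : Grid O} {z z' : Fin s3} {a a' : Fin s1} {b b' : Fin s2} :
    cell O o' z' a' b' ∈ Ball _ (cell O o z a b) ↔
      (o' = o ∧ ((z' = z ∧ (a' = a ∨ b' = b)) ∨ (a' = a ∧ b' = b))) ∨
        (o' ∈ Ball O o ∧ z' = z ∧ a' = a ∧ b' = b) := by
  rw [cell, cell, mem_Ball_app', firstPart_app, lastPart_app, mem_Ball_three]
  simp only [Prod.mk.injEq, and_true]

/-- The balls around two cells which differ in three places are disjoint. -/
theorem disjoint_Ball_cell {o : Grid O} {z z' : Fin s3} {a a' : Fin s1} {b b' : Fin s2}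
    (hz : z ≠ z') (ha : a ≠ a') (hb : b ≠ b') :
    Disjoint (Ball _ (cell O o z a b)) (Ball _ (cell O o z' a' b')) := by
  rw [Finset.disjoint_left]
  intro g h1 h2
  obtain ⟨o1, z1, a1, b1, rfl⟩ := cell_surj g
  rw [mem_Ball_cell] at h1 h2
  have hz' : ¬ (z1 = z ∧ z1 = z') := fun h => hz (h.1.symm.trans h.2)
  have ha' : ¬ (a1 = a ∧ a1 = a') := fun h => ha (h.1.symm.trans h.2)
  have hb' : ¬ (b1 = b ∧ b1 = b') := fun h => hb (h.1.symm.trans h.2)
  tauto

/-- The balls around two cells which differ in two places meet in at most two cells. -/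
theorem card_inter_Ball_cell {o : Grid O} {z : Fin s3} {a a' : Fin s1} {b b' : Fin s2}
    (ha : a ≠ a') (hb : b ≠ b') :
    (Ball _ (cell O o z a b) ∩ Ball _ (cell O o z a' b')).card ≤ 2 := by
  classical
  have h : Ball _ (cell O o z a b) ∩ Ball _ (cell O o z a' b') ⊆
      {cell O o z a b', cell O o z a' b} := by
    intro g hg
    obtain ⟨h1, h2⟩ := Finset.mem_inter.1 hg
    obtain ⟨o1, z1, a1, b1, rfl⟩ := cell_surj g
    rw [mem_Ball_cell] at h1 h2
    rw [Finset.mem_insert, Finset.mem_singleton]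
    have ha' : ¬ (a1 = a ∧ a1 = a') := fun h => ha (h.1.symm.trans h.2)
    have hb' : ¬ (b1 = b ∧ b1 = b') := fun h => hb (h.1.symm.trans h.2)
    have h3 : (o1 = o ∧ z1 = z ∧ a1 = a ∧ b1 = b') ∨ (o1 = o ∧ z1 = z ∧ a1 = a' ∧ b1 = b) := by
      tauto
    rcases h3 with ⟨rfl, rfl, rfl, rfl⟩ | ⟨rfl, rfl, rfl, rfl⟩
    · exact Or.inl rfl
    · exact Or.inr rfl
  exact (Finset.card_le_card h).trans (Finset.card_le_two)

/-- The contribution of a class to its own slice. -/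
def SO (a : ℕ) (w : Par K O s1 s2 s3) : Submodule K (Grid (O ++ [s3, s1, s2]) → K) :=
  ⨆ x : Fin a, T _ (pw O w.1 w.2.1 (w.2.2.1 x) (w.2.2.2 x))

/-- The additional vector in the next slice. -/
def EY (c0 c1 : K) (w : Par K O s1 s2 s3) : Grid (O ++ [s3, s1, s2]) → K :=
  c0 • EE w 0 2 + c1 • EE w 1 2

/-- The contribution of a class to the next slice. -/
def SP (c0 c1 : K) (a o : ℕ) (w : Par K O s1 s2 s3) :
    Submodule K (Grid (O ++ [s3, s1, s2]) → K) :=
  span K (Set.range fun x : Fin a × Fin a => EE w x.1 x.2) ⊔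
    (span K (Set.range fun _ : Fin o => EX w) ⊔ span K (Set.range fun _ : Fin o => EY c0 c1 w))

/-- The contribution of a class to the slice of its external point. -/
def SH (w : Par K O s1 s2 s3) : Submodule K (Grid (O ++ [s3, s1, s2]) → K) :=
  T _ (pw O w.1 w.2.1 (w.2.2.1 0 + w.2.2.1 1) (w.2.2.2 2)) ⊔ span K {EE w 0 0, EE w 1 1}

/-- The position of a class. -/
def wc (o : Grid O) (z : Fin s3) (r1 : ℕ → Fin s1) (r2 : ℕ → Fin s2) (off : ℕ) :
    Par K O s1 s2 s3 :=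
  (cpt O o, Pi.single z 1, fun x => Pi.single (r1 (off + x)) 1,
    fun y => Pi.single (r2 (off + y)) 1)

/-- The position of a class in the slice of its external point. -/
def wh (o : Grid O) (z : Fin s3) (r1 : ℕ → Fin s1) (r2 : ℕ → Fin s2) (α : ℕ) :
    Par K O s1 s2 s3 :=
  (cpt O o, Pi.single z 1,
    fun x => if x = 0 then Pi.single (r1 α) 1 - Pi.single (r1 (α + 1)) 1 else
      Pi.single (r1 (α + 1)) 1,
    fun y => if y = 0 then Pi.single (r2 (α + 1)) 1 else if y = 1 then Pi.single (r2 (α + 2)) 1 else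
      Pi.single (r2 α) 1)

/-- The cells of a class in its own slice. -/
def UO (o : Grid O) (z : Fin s3) (r1 : ℕ → Fin s1) (r2 : ℕ → Fin s2) (off a : ℕ) :
    Finset (Grid (O ++ [s3, s1, s2])) :=
  (Finset.range a).biUnion fun x => Ball _ (cell O o z (r1 (off + x)) (r2 (off + x)))

/-- The cells of a class in the next slice. -/
def UP (o : Grid O) (z : Fin s3) (r1 : ℕ → Fin s1) (r2 : ℕ → Fin s2) (off a e : ℕ) :
    Finset (Grid (O ++ [s3, s1, s2])) :=
  ((Finset.range a) ×ˢ (Finset.range (a + e))).image fun x =>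
    cell O o z (r1 (off + x.1)) (r2 (off + x.2))

/-- The cells of a class in the slice of its external point. -/
def UH (o : Grid O) (z : Fin s3) (r1 : ℕ → Fin s1) (r2 : ℕ → Fin s2) (α : ℕ) :
    Finset (Grid (O ++ [s3, s1, s2])) :=
  Ball _ (cell O o z (r1 α) (r2 α)) ∪
    {cell O o z (r1 (α + 1)) (r2 (α + 1)), cell O o z (r1 (α + 1)) (r2 (α + 2))}

theorem EE_wc (o : Grid O) (z : Fin s3) (r1 : ℕ → Fin s1) (r2 : ℕ → Fin s2) (off x y : ℕ) :
    EE (wc o z r1 r2 off : Par K O s1 s2 s3) x y =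
      Pi.single (cell O o z (r1 (off + x)) (r2 (off + y))) 1 :=
  E_pw_single O o z _ _

theorem own_le (o : Grid O) (z : Fin s3) (r1 : ℕ → Fin s1) (r2 : ℕ → Fin s2) (off a : ℕ) :
    coordSub K (UO o z r1 r2 off a) ≤ SO a (wc o z r1 r2 off : Par K O s1 s2 s3) := by
  refine coordSub_le_of_single _ _ fun g hg => ?_
  obtain ⟨x, hx, hg⟩ := Finset.mem_biUnion.1 hg
  rw [Finset.mem_range] at hx
  refine (le_iSup (fun x : Fin a => T _ (pw O (wc (K := K) o z r1 r2 off).1
    (wc (K := K) o z r1 r2 off).2.1 ((wc (K := K) o z r1 r2 off).2.2.1 x)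
      ((wc (K := K) o z r1 r2 off).2.2.2 x))) ⟨x, hx⟩) ?_
  change Pi.single g 1 ∈ T _ (pw O (cpt O o) (Pi.single z 1) (Pi.single (r1 (off + x)) 1)
    (Pi.single (r2 (off + x)) 1))
  rw [T_pw_single]
  intro g' hg'
  rw [Pi.single_eq_of_ne (fun h => hg' (by rw [h]; exact hg))]

theorem EX_wc (o : Grid O) (z : Fin s3) (r1 : ℕ → Fin s1) (r2 : ℕ → Fin s2) (off : ℕ) :
    EX (wc o z r1 r2 off : Par K O s1 s2 s3) =
      EE (wc o z r1 r2 off : Par K O s1 s2 s3) 0 2 + EE (wc o z r1 r2 off : Par K O s1 s2 s3) 1 2 :=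
  E_pw_add _ _ _ _ _ _

theorem prev_le (c0 c1 : K) (hc : c0 ≠ c1) (o : Grid O) (z : Fin s3) (r1 : ℕ → Fin s1)
    (r2 : ℕ → Fin s2) (off a e : ℕ) (hae : e = 0 ∨ (e = 1 ∧ a = 2)) :
    coordSub K (UP o z r1 r2 off a e) ≤ SP c0 c1 a e (wc o z r1 r2 off : Par K O s1 s2 s3) := by
  refine coordSub_le_of_single _ _ fun g hg => ?_
  obtain ⟨⟨x, y⟩, hx, rfl⟩ := Finset.mem_image.1 hg
  rw [Finset.mem_product, Finset.mem_range, Finset.mem_range] at hx
  dsimp only at hx ⊢
  rcases Nat.lt_or_ge y a with hy | hy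
  · refine mem_sup_left (subset_span ⟨(⟨x, hx.1⟩, ⟨y, hy⟩), ?_⟩)
    exact EE_wc o z r1 r2 off x y
  · rcases hae with rfl | ⟨rfl, rfl⟩
    · omega
    · have hy2 : y = 2 := by omega
      subst hy2
      rw [← EE_wc (K := K)]
      set w : Par K O s1 s2 s3 := wc o z r1 r2 off with hw
      have m1 : EX w ∈ SP c0 c1 2 1 w :=
        mem_sup_right (mem_sup_left (subset_span ⟨0, rfl⟩))
      have m2 : EY c0 c1 w ∈ SP c0 c1 2 1 w :=
        mem_sup_right (mem_sup_right (subset_span ⟨0, rfl⟩))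
      have hd : c1 - c0 ≠ 0 := sub_ne_zero.2 hc.symm
      have hx2 : x = 0 ∨ x = 1 := by omega
      have e1 : EX w = EE w 0 2 + EE w 1 2 := EX_wc o z r1 r2 off
      rcases hx2 with rfl | rfl
      · have e2 : EE w 0 2 = (c1 - c0)⁻¹ • (c1 • EX w - EY c0 c1 w) := by
          rw [eq_inv_smul_iff₀ hd, e1, EY]
          module
        rw [e2]
        exact Submodule.smul_mem _ _ (Submodule.sub_mem _ (Submodule.smul_mem _ _ m1) m2)
      · have e2 : EE w 1 2 = (c1 - c0)⁻¹ • (EY c0 c1 w - c0 • EX w) := by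
          rw [eq_inv_smul_iff₀ hd, e1, EY]
          module
        rw [e2]
        exact Submodule.smul_mem _ _ (Submodule.sub_mem _ m2 (Submodule.smul_mem _ _ m1))

theorem host_le (o : Grid O) (z : Fin s3) (r1 : ℕ → Fin s1) (r2 : ℕ → Fin s2) (α : ℕ) :
    coordSub K (UH o z r1 r2 α) ≤ SH (wh o z r1 r2 α : Par K O s1 s2 s3) := by
  have hx : (wh (K := K) o z r1 r2 α).2.2.1 0 + (wh (K := K) o z r1 r2 α).2.2.1 1 =
      Pi.single (r1 α) 1 := by
    change (Pi.single (r1 α) 1 - Pi.single (r1 (α + 1)) 1) + Pi.single (r1 (α + 1)) 1 = _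
    rw [sub_add_cancel]
  have hT : T _ (pw O (wh (K := K) o z r1 r2 α).1 (wh (K := K) o z r1 r2 α).2.1
      ((wh (K := K) o z r1 r2 α).2.2.1 0 + (wh (K := K) o z r1 r2 α).2.2.1 1)
        ((wh (K := K) o z r1 r2 α).2.2.2 2)) =
      coordSub K (Ball _ (cell O o z (r1 α) (r2 α))) := by
    rw [hx]
    exact T_pw_single O o z _ _
  have h1 : ∀ g ∈ Ball _ (cell O o z (r1 α) (r2 α)), (Pi.single g 1 :
      Grid (O ++ [s3, s1, s2]) → K) ∈ SH (wh o z r1 r2 α : Par K O s1 s2 s3) := by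
    intro g hg
    rw [SH, hT]
    refine mem_sup_left ?_
    intro g' hg'
    rw [Pi.single_eq_of_ne (fun h => hg' (by rw [h]; exact hg))]
  refine coordSub_le_of_single _ _ fun g hg => ?_
  rw [UH, Finset.mem_union, Finset.mem_insert, Finset.mem_singleton] at hg
  rcases hg with hg | rfl | rfl
  · exact h1 g hg
  · have e1 : EE (wh o z r1 r2 α : Par K O s1 s2 s3) 0 0 =
        Pi.single (cell O o z (r1 α) (r2 (α + 1))) 1 -
          Pi.single (cell O o z (r1 (α + 1)) (r2 (α + 1))) 1 := by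
      rw [← E_pw_single (K := K) O o z, ← E_pw_single (K := K) O o z, eq_sub_iff_add_eq]
      change E _ (pw O (cpt O o) (Pi.single z 1) (Pi.single (r1 α) 1 - Pi.single (r1 (α + 1)) 1)
        (Pi.single (r2 (α + 1)) 1)) + _ = _
      rw [← E_pw_add, sub_add_cancel]
    have e2 : (Pi.single (cell O o z (r1 (α + 1)) (r2 (α + 1))) 1 :
        Grid (O ++ [s3, s1, s2]) → K) = Pi.single (cell O o z (r1 α) (r2 (α + 1))) 1 -
          EE (wh o z r1 r2 α : Par K O s1 s2 s3) 0 0 := by rw [e1]; abel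
    rw [e2]
    refine Submodule.sub_mem _ (h1 _ ?_) (mem_sup_right (subset_span (by simp)))
    rw [mem_Ball_cell]
    exact Or.inl ⟨rfl, Or.inl ⟨rfl, Or.inl rfl⟩⟩
  · have e1 : EE (wh o z r1 r2 α : Par K O s1 s2 s3) 1 1 =
        Pi.single (cell O o z (r1 (α + 1)) (r2 (α + 2))) 1 := E_pw_single O o z _ _
    rw [← e1]
    exact mem_sup_right (subset_span (by simp))

/-! ### Cardinalities -/

variable (τ : ℕ) (o : Grid O) (z : Fin s3) (r1 : ℕ → Fin s1) (r2 : ℕ → Fin s2)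
  (h1 : ∀ k < τ, (r1 k).val = k) (h2 : ∀ k < τ, (r2 k).val = k)

include h1 in
theorem r1_ne {k l : ℕ} (hk : k < τ) (hl : l < τ) (h : k ≠ l) : r1 k ≠ r1 l := fun h' => h (by
  rw [← h1 k hk, ← h1 l hl, h'])

include h1 h2 in
theorem card_UO (off a : ℕ) (ha : off + a ≤ τ) :
    a * D (O ++ [s3, s1, s2]) ≤ (UO o z r1 r2 off a).card + a * (a - 1) := by
  classical
  induction a with
  | zero => simp
  | succ a ih =>
    have ih' := ih (by omega)
    have e : UO o z r1 r2 off (a + 1) = UO o z r1 r2 off a ∪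
        Ball _ (cell O o z (r1 (off + a)) (r2 (off + a))) := by
      rw [UO, Finset.range_add_one, Finset.biUnion_insert, Finset.union_comm]
      rfl
    have h3 := Finset.card_union_add_card_inter (UO o z r1 r2 off a)
      (Ball _ (cell O o z (r1 (off + a)) (r2 (off + a))))
    rw [← e, card_Ball] at h3
    have h4 : (UO o z r1 r2 off a ∩ Ball _ (cell O o z (r1 (off + a)) (r2 (off + a)))).card ≤
        a * 2 := by
      rw [UO, Finset.biUnion_inter]
      refine Finset.card_biUnion_le.trans ?_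
      refine (Finset.sum_le_card_nsmul _ _ 2 fun x hx => ?_).trans ?_
      · rw [Finset.mem_range] at hx
        exact card_inter_Ball_cell (r1_ne τ r1 h1 (by omega) (by omega) (by omega))
          (r1_ne τ r2 h2 (by omega) (by omega) (by omega))
      · rw [Finset.card_range, smul_eq_mul]
    have h5 : (a + 1) * D (O ++ [s3, s1, s2]) = a * D (O ++ [s3, s1, s2]) +
        D (O ++ [s3, s1, s2]) := by ring
    have h6 : (a + 1) * (a + 1 - 1) = a * (a - 1) + a * 2 := by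
      rcases a with _ | a
      · rfl
      · simp only [Nat.add_sub_cancel]; ring
    omega

include h1 h2 in
theorem card_UP (off a e : ℕ) (ha : off + a + e ≤ τ) :
    (UP o z r1 r2 off a e).card = a * (a + e) := by
  rw [UP, Finset.card_image_of_injOn, Finset.card_product, Finset.card_range, Finset.card_range]
  rintro ⟨x, y⟩ hx ⟨x', y'⟩ hy h
  rw [Finset.mem_coe, Finset.mem_product, Finset.mem_range, Finset.mem_range] at hx hy
  obtain ⟨_, _, h3, h4⟩ := cell_inj h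
  dsimp only at hx hy h3 h4
  have h5 := congrArg Fin.val h3
  have h6 := congrArg Fin.val h4
  rw [h1 _ (by omega), h1 _ (by omega)] at h5
  rw [h2 _ (by omega), h2 _ (by omega)] at h6
  exact Prod.ext (by dsimp only; omega) (by dsimp only; omega)

include h1 h2 in
theorem card_UH (α : ℕ) (ha : α + 2 < τ) :
    (UH o z r1 r2 α).card = D (O ++ [s3, s1, s2]) + 2 := by
  classical
  have n1 : r1 (α + 1) ≠ r1 α := r1_ne τ r1 h1 (by omega) (by omega) (by omega)
  have n2 : r2 (α + 1) ≠ r2 α := r1_ne τ r2 h2 (by omega) (by omega) (by omega)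
  have n3 : r2 (α + 2) ≠ r2 α := r1_ne τ r2 h2 (by omega) (by omega) (by omega)
  have n4 : r2 (α + 1) ≠ r2 (α + 2) := r1_ne τ r2 h2 (by omega) (by omega) (by omega)
  rw [UH, Finset.card_union_of_disjoint, card_Ball, Finset.card_pair]
  · intro h
    exact n4 (cell_inj h).2.2.2
  · rw [Finset.disjoint_right]
    intro g hg
    rw [Finset.mem_insert, Finset.mem_singleton] at hg
    rcases hg with rfl | rfl
    · rw [mem_Ball_cell]
      tauto
    · rw [mem_Ball_cell]
      tauto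

/-! ### Disjointness -/

include h1 h2 in
theorem disjoint_UO_UO (z' : Fin s3) (hz : z ≠ z') (off a off' a' : ℕ) (ha : off + a ≤ τ)
    (ha' : off' + a' ≤ τ) (hoff : off + a ≤ off' ∨ off' + a' ≤ off) :
    Disjoint (UO o z r1 r2 off a) (UO o z' r1 r2 off' a') := by
  rw [UO, UO, Finset.disjoint_biUnion_left]
  intro x hx
  rw [Finset.disjoint_biUnion_right]
  intro y hy
  rw [Finset.mem_range] at hx hy
  exact disjoint_Ball_cell hz (r1_ne τ r1 h1 (by omega) (by omega) (by omega))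
    (r1_ne τ r2 h2 (by omega) (by omega) (by omega))

include h1 h2 in
theorem disjoint_UO_UP (z' : Fin s3) (off a off' a' e : ℕ) (ha : off + a ≤ off')
    (ha' : off' + a' + e ≤ τ) : Disjoint (UO o z r1 r2 off a) (UP o z' r1 r2 off' a' e) := by
  rw [UO, Finset.disjoint_biUnion_left]
  intro x hx
  rw [Finset.mem_range] at hx
  rw [Finset.disjoint_right]
  intro g hg
  obtain ⟨⟨x', y'⟩, hx', rfl⟩ := Finset.mem_image.1 hg
  rw [Finset.mem_product, Finset.mem_range, Finset.mem_range] at hx'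
  dsimp only at hx' ⊢
  have n1 : r1 (off' + x') ≠ r1 (off + x) := r1_ne τ r1 h1 (by omega) (by omega) (by omega)
  have n2 : r2 (off' + y') ≠ r2 (off + x) := r1_ne τ r2 h2 (by omega) (by omega) (by omega)
  rw [mem_Ball_cell]
  tauto

include h1 h2 in
theorem disjoint_UO_UH (z' : Fin s3) (hz : z ≠ z') (off a α : ℕ) (ha : off + a ≤ α)
    (hα : α + 2 < τ) : Disjoint (UO o z r1 r2 off a) (UH o z' r1 r2 α) := by
  rw [UO, Finset.disjoint_biUnion_left]
  intro x hx
  rw [Finset.mem_range] at hx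
  rw [UH, Finset.disjoint_union_right]
  constructor
  · exact disjoint_Ball_cell hz (r1_ne τ r1 h1 (by omega) (by omega) (by omega))
      (r1_ne τ r2 h2 (by omega) (by omega) (by omega))
  · rw [Finset.disjoint_right]
    have n1 : r1 (α + 1) ≠ r1 (off + x) := r1_ne τ r1 h1 (by omega) (by omega) (by omega)
    have n2 : r2 (α + 1) ≠ r2 (off + x) := r1_ne τ r2 h2 (by omega) (by omega) (by omega)
    have n3 : r2 (α + 2) ≠ r2 (off + x) := r1_ne τ r2 h2 (by omega) (by omega) (by omega)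
    intro g hg
    rw [Finset.mem_insert, Finset.mem_singleton] at hg
    rcases hg with rfl | rfl
    · rw [mem_Ball_cell]
      tauto
    · rw [mem_Ball_cell]
      tauto

theorem disjoint_UP_UP (z' : Fin s3) (hz : z ≠ z') (off a e off' a' e' : ℕ) :
    Disjoint (UP o z r1 r2 off a e) (UP o z' r1 r2 off' a' e') := by
  rw [Finset.disjoint_left]
  intro g hg hg'
  obtain ⟨x, _, rfl⟩ := Finset.mem_image.1 hg
  obtain ⟨y, _, h⟩ := Finset.mem_image.1 hg'
  exact hz (cell_inj h).2.1.symm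

include h1 h2 in
theorem disjoint_UP_UH (z' : Fin s3) (hz : z ≠ z') (off a e α : ℕ) (ha : α + 2 < off)
    (hα : off + a + e ≤ τ) : Disjoint (UP o z r1 r2 off a e) (UH o z' r1 r2 α) := by
  rw [Finset.disjoint_left]
  intro g hg
  obtain ⟨⟨x', y'⟩, hx', rfl⟩ := Finset.mem_image.1 hg
  rw [Finset.mem_product, Finset.mem_range, Finset.mem_range] at hx'
  dsimp only at hx' ⊢
  have n1 : r1 (off + x') ≠ r1 α := r1_ne τ r1 h1 (by omega) (by omega) (by omega)
  have n2 : r2 (off + y') ≠ r2 α := r1_ne τ r2 h2 (by omega) (by omega) (by omega)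
  rw [UH, Finset.mem_union, mem_Ball_cell, Finset.mem_insert, Finset.mem_singleton]
  rintro (h | h | h)
  · tauto
  · exact hz (cell_inj h).2.1
  · exact hz (cell_inj h).2.1

/-! ### The position in the set of all the cells -/

include h1 h2 in
theorem Ball_subset_cset (T1 : ℕ) (k : ℕ) (hk : k < T1) (hT : T1 ≤ τ) (hz : z.val < 6) :
    Ball _ (cell O o z (r1 k) (r2 k)) ⊆ cset [s3, s1, s2] O o (Fmax s3 s1 s2 T1)
      (Qmax s3 s1 s2 T1 τ) := by
  intro g hg
  obtain ⟨o1, z1, a1, b1, rfl⟩ := cell_surj g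
  rw [mem_Ball_cell] at hg
  rw [mem_cset]
  have e1 : firstPart [s3, s1, s2] O (cell O o1 z1 a1 b1) = o1 := firstPart_app _ _ _ _
  have e2 : lastPart [s3, s1, s2] O (cell O o1 z1 a1 b1) = (z1, a1, b1, ()) :=
    lastPart_app _ _ _ _
  rw [e1, e2, mem_Fmax, mem_Qmax]
  have v1 := h1 k (by omega)
  have v2 := h2 k (by omega)
  rcases hg with ⟨ho, (⟨hz1, (ha | hb)⟩ | ⟨ha, hb⟩)⟩ | ⟨ho, hz1, ha, hb⟩
  · refine Or.inr ⟨ho, Or.inl ⟨by rw [hz1]; exact hz, Or.inl ?_⟩⟩
    rw [ha, v1]; exact hk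
  · refine Or.inr ⟨ho, Or.inl ⟨by rw [hz1]; exact hz, Or.inr (Or.inl ?_)⟩⟩
    rw [hb, v2]; exact hk
  · refine Or.inr ⟨ho, Or.inr ⟨?_, ?_⟩⟩
    · rw [ha, v1]; exact hk
    · rw [ha, hb, v1, v2]
  · refine Or.inl ⟨ho, by rw [hz1]; exact hz, ?_, ?_⟩
    · rw [ha, v1]; exact hk
    · rw [ha, hb, v1, v2]

include h1 h2 in
theorem cell_mem_cset (T1 : ℕ) (k l : ℕ) (hk : k < τ) (hl : l < τ) (hz : z.val < 6) :
    cell O o z (r1 k) (r2 l) ∈ cset [s3, s1, s2] O o (Fmax s3 s1 s2 T1)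
      (Qmax s3 s1 s2 T1 τ) := by
  rw [mem_cset]
  have e1 : firstPart [s3, s1, s2] O (cell O o z (r1 k) (r2 l)) = o := firstPart_app _ _ _ _
  have e2 : lastPart [s3, s1, s2] O (cell O o z (r1 k) (r2 l)) = (z, r1 k, r2 l, ()) :=
    lastPart_app _ _ _ _
  rw [e1, e2, mem_Qmax, h1 k hk, h2 l hl]
  exact Or.inr ⟨rfl, Or.inl ⟨hz, Or.inr (Or.inr ⟨hk, hl⟩)⟩⟩

include h1 h2 in
theorem UO_subset (T1 off a : ℕ) (ha : off + a ≤ T1) (hT : T1 ≤ τ) (hz : z.val < 6) :
    UO o z r1 r2 off a ⊆ cset [s3, s1, s2] O o (Fmax s3 s1 s2 T1) (Qmax s3 s1 s2 T1 τ) := by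
  rw [UO, Finset.biUnion_subset]
  intro x hx
  rw [Finset.mem_range] at hx
  exact Ball_subset_cset τ o z r1 r2 h1 h2 T1 _ (by omega) hT hz

include h1 h2 in
theorem UP_subset (T1 off a e : ℕ) (ha : off + a + e ≤ τ) (hz : z.val < 6) :
    UP o z r1 r2 off a e ⊆ cset [s3, s1, s2] O o (Fmax s3 s1 s2 T1) (Qmax s3 s1 s2 T1 τ) := by
  intro g hg
  obtain ⟨⟨x', y'⟩, hx', rfl⟩ := Finset.mem_image.1 hg
  rw [Finset.mem_product, Finset.mem_range, Finset.mem_range] at hx'
  dsimp only at hx' ⊢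
  exact cell_mem_cset τ o z r1 r2 h1 h2 T1 _ _ (by omega) (by omega) hz

include h1 h2 in
theorem UH_subset (T1 α : ℕ) (ha : α < T1) (hT : T1 ≤ τ) (hα : α + 2 < τ) (hz : z.val < 6) :
    UH o z r1 r2 α ⊆ cset [s3, s1, s2] O o (Fmax s3 s1 s2 T1) (Qmax s3 s1 s2 T1 τ) := by
  rw [UH, Finset.union_subset_iff]
  refine ⟨Ball_subset_cset τ o z r1 r2 h1 h2 T1 _ ha hT hz, ?_⟩
  intro g hg
  rw [Finset.mem_insert, Finset.mem_singleton] at hg
  rcases hg with rfl | rfl
  · exact cell_mem_cset τ o z r1 r2 h1 h2 T1 _ _ (by omega) (by omega) hz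
  · exact cell_mem_cset τ o z r1 r2 h1 h2 T1 _ _ (by omega) (by omega) hz

end Pool.Agent.Lib.MP_635d71_ag
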