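import Mathlib
import Pool.Agent.Lib.MP_635d71_ag.Cells

/-!
# The dimension of a slice with special points
-/

open Module Submodule

namespace Pool.Agent.Lib.MP_635d71_ag

variable {K : Type} [Field K]

variable {O : List ℕ} {s1 s2 s3 : ℕ}

/-- Number of external points of a class. -/
def ec {q : ℕ} (e : Fin q → ℕ) (j : Fin q) (c : Fin 5) : ℕ := if c = 4 then e j else 0

/-- The contribution of the class `(j, c)` to the slice `i`. -/
def cnt {q : ℕ} (Dm : ℕ) (nx : Equiv.Perm (Fin q)) (a : Fin q → Fin 5 → ℕ) (e : Fin q → ℕ)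
    (i j : Fin q) (c : Fin 5) : ℕ :=
  if j = i then a j c * Dm - a j c * (a j c - 1)
  else if nx j = i then a j c * (a j c + ec e j c)
  else if j = nx i ∧ c = 4 ∧ e j = 1 then Dm + 2
  else a j c + ec e j c

/-- The space spanned in the slice `i`. -/
def RS {q : ℕ} (d : ℕ → K) (nx : Equiv.Perm (Fin q)) (b : Fin q → ℕ) (a : Fin q → Fin 5 → ℕ)
    (e : Fin q → ℕ) (i : Fin q) (g : (Σ j, Fin (b j)) → Coord (O ++ [s3, s1, s2]) → K)
    (w : Fin q → Fin 5 → Par K O s1 s2 s3) : Submodule K (Grid (O ++ [s3, s1, s2]) → K) :=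
  (⨆ c, SO (a i c) (w i c)) ⊔
  (⨆ c, SP (d 0) (d 1) (a (nx.symm i) c) (ec e (nx.symm i) c) (w (nx.symm i) c)) ⊔
  (⨆ _ : e (nx i) = 1, SH (w (nx i) 4)) ⊔ (⨆ x, T _ (g ⟨i, x⟩)) ⊔
  (⨆ j, ⨆ c, SB (a j c) (ec e j c) (w j c)) ⊔ span K {f | ∃ p, f = E _ (g p)}

theorem slice_eval [Infinite K] (h2 : (2 : K) ≠ 0) {q T' : ℕ} (nx : Equiv.Perm (Fin q))
    (b : Fin q → ℕ) (a : Fin q → Fin 5 → ℕ)
    (e : Fin q → ℕ) (he : ∀ j, e j = 0 ∨ e j = 1) (ha4 : ∀ j, a j 4 = 2 * e j)
    (haT : ∀ j, ∑ c, a j c ≤ T') (hs3 : 6 ≤ s3) (hs1 : 2 * T' + 4 ≤ s1) (hs2 : 2 * T' + 4 ≤ s2)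
    (hOp : 1 ≤ O.prod) (o : Grid O) (d : ℕ → K) (hd : d 0 ≠ d 1) (i : Fin q)
    (hG : Good K (O ++ [s3, s1, s2]) (b i) (cset [s3, s1, s2] O o (Fmax s3 s1 s2 (T' + 1))
      (Qmax s3 s1 s2 (T' + 1) (2 * T' + 4))))
    (hroom : (cset [s3, s1, s2] O o (Fmax s3 s1 s2 (T' + 1))
      (Qmax s3 s1 s2 (T' + 1) (2 * T' + 4))).card + b i * D (O ++ [s3, s1, s2]) +
      (T' * (O.prod * s3) + 3 * (O.prod * s3 * s1)) + q * (T' + 1) ≤ (O ++ [s3, s1, s2]).prod) :
    ∃ (g : (Σ j, Fin (b j)) → Coord (O ++ [s3, s1, s2]) → K)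
      (w : Fin q → Fin 5 → Par K O s1 s2 s3),
      min (O ++ [s3, s1, s2]).prod ((∑ j, ∑ c, cnt (D (O ++ [s3, s1, s2])) nx a e i j c) +
        b i * D (O ++ [s3, s1, s2]) + ∑ j ∈ Finset.univ.erase i, b j) ≤
      finrank K ↥(RS d nx b a e i g w) := by
  classical
  set CM := cset [s3, s1, s2] O o (Fmax s3 s1 s2 (T' + 1)) (Qmax s3 s1 s2 (T' + 1) (2 * T' + 4))
    with hCM
  obtain ⟨r1, h1⟩ : ∃ r1 : ℕ → Fin s1, ∀ k < 2 * T' + 4, (r1 k).val = k :=
    ⟨fun k => ⟨min k (s1 - 1), by omega⟩, fun k hk => by dsimp only; omega⟩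
  obtain ⟨r2, h2'⟩ : ∃ r2 : ℕ → Fin s2, ∀ k < 2 * T' + 4, (r2 k).val = k :=
    ⟨fun k => ⟨min k (s2 - 1), by omega⟩, fun k hk => by dsimp only; omega⟩
  obtain ⟨zc, hzc⟩ : ∃ zc : Fin 5 → Fin s3, ∀ c, (zc c).val = c.val :=
    ⟨fun c => ⟨c.val, by omega⟩, fun c => rfl⟩
  obtain ⟨z5, hz5⟩ : ∃ z5 : Fin s3, z5.val = 5 := ⟨⟨5, by omega⟩, rfl⟩
  have hzc6 : ∀ c, (zc c).val < 6 := fun c => by rw [hzc]; omega
  have hzne : ∀ c c', c ≠ c' → zc c ≠ zc c' := fun c c' h h' => h (Fin.ext (by
    rw [← hzc, ← hzc, h']))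
  have hz5ne : ∀ c, zc c ≠ z5 := fun c h => by
    have := congrArg Fin.val h
    rw [hzc, hz5] at this
    omega
  obtain ⟨off, hoff⟩ : ∃ off : Fin q → Fin 5 → ℕ,
      ∀ j c, off j c = ∑ c' ∈ Finset.univ.filter (· < c), a j c' := ⟨_, fun _ _ => rfl⟩
  have hoff2 : ∀ j c c', c < c' → off j c + a j c ≤ off j c' := by
    intro j c c' hc
    rw [hoff, hoff, add_comm, ← Finset.sum_insert (by simp)]
    refine Finset.sum_le_sum_of_subset ?_
    intro x hx
    rw [Finset.mem_insert, Finset.mem_filter] at hx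
    rw [Finset.mem_filter]
    refine ⟨Finset.mem_univ _, ?_⟩
    rcases hx with rfl | ⟨_, hx⟩
    · exact hc
    · exact hx.trans hc
  have hoff1 : ∀ j c, off j c + a j c ≤ T' := by
    intro j c
    refine le_trans ?_ (haT j)
    rw [hoff, add_comm, ← Finset.sum_insert (by simp)]
    exact Finset.sum_le_sum_of_subset (Finset.subset_univ _)
  have hec1 : ∀ j c, ec e j c ≤ 1 := by
    intro j c
    unfold ec
    rcases he j with h | h <;> split_ifs <;> omega
  have hae : ∀ j c, ec e j c = 0 ∨ (ec e j c = 1 ∧ a j c = 2) := by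
    intro j c
    unfold ec
    by_cases hc : c = 4
    · rw [if_pos hc, hc, ha4]
      rcases he j with h | h
      · exact Or.inl h
      · exact Or.inr ⟨h, by omega⟩
    · rw [if_neg hc]
      exact Or.inl rfl
  -- the cells
  obtain ⟨U, hU⟩ : ∃ U : Fin q × Fin 5 → Finset (Grid (O ++ [s3, s1, s2])), ∀ p, U p = if p.1 = i then
      UO o (zc p.2) r1 r2 (off p.1 p.2) (a p.1 p.2)
    else if nx p.1 = i then UP o (zc p.2) r1 r2 (T' + 3 + off p.1 p.2) (a p.1 p.2) (ec e p.1 p.2)
    else if p.1 = nx i ∧ p.2 = 4 ∧ e p.1 = 1 then UH o z5 r1 r2 T' else ∅ := ⟨_, fun _ => rfl⟩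
  obtain ⟨w0, hw0⟩ : ∃ w0 : Fin q → Fin 5 → Par K O s1 s2 s3, ∀ j c, w0 j c = if j = i then
      wc o (zc c) r1 r2 (off j c)
    else if nx j = i then wc o (zc c) r1 r2 (T' + 3 + off j c)
    else wh o z5 r1 r2 T' := ⟨_, fun _ _ => rfl⟩
  have hUsub : ∀ p, U p ⊆ CM := by
    intro p
    rw [hU]
    split_ifs
    · exact UO_subset (2 * T' + 4) o (zc p.2) r1 r2 h1 h2' (T' + 1) _ _
        (by have := hoff1 p.1 p.2; omega) (by omega) (hzc6 _)
    · exact UP_subset (2 * T' + 4) o (zc p.2) r1 r2 h1 h2' (T' + 1) _ _ _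
        (by have := hoff1 p.1 p.2; have := hec1 p.1 p.2; omega) (hzc6 _)
    · exact UH_subset (2 * T' + 4) o z5 r1 r2 h1 h2' (T' + 1) T' (by omega) (by omega) (by omega)
        (by rw [hz5]; omega)
    · exact Finset.empty_subset _
  have hUdisj : ∀ p p', p ≠ p' → Disjoint (U p) (U p') := by
    intro p p' hpp
    -- own cells
    have d1 : ∀ c c', c < c' → Disjoint (UO o (zc c) r1 r2 (off i c) (a i c) :
        Finset (Grid (O ++ [s3, s1, s2]))) (UO o (zc c') r1 r2 (off i c') (a i c')) := fun c c' hc =>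
      disjoint_UO_UO (2 * T' + 4) o (zc c) r1 r2 h1 h2' (zc c') (hzne c c' (ne_of_lt hc)) _ _ _ _
        (by have := hoff1 i c; omega) (by have := hoff1 i c'; omega) (Or.inl (hoff2 i c c' hc))
    have d2 : ∀ c j c', Disjoint (UO o (zc c) r1 r2 (off i c) (a i c) :
        Finset (Grid (O ++ [s3, s1, s2]))) (UP o (zc c') r1 r2 (T' + 3 + off j c') (a j c') (ec e j c')) :=
      fun c j c' => disjoint_UO_UP (2 * T' + 4) o (zc c) r1 r2 h1 h2' (zc c') _ _ _ _ _
        (by have := hoff1 i c; omega) (by have := hoff1 j c'; have := hec1 j c'; omega)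
    have d3 : ∀ c, Disjoint (UO o (zc c) r1 r2 (off i c) (a i c) :
        Finset (Grid (O ++ [s3, s1, s2]))) (UH o z5 r1 r2 T') := fun c =>
      disjoint_UO_UH (2 * T' + 4) o (zc c) r1 r2 h1 h2' z5 (hz5ne c) _ _ _
        (by have := hoff1 i c; omega) (by omega)
    have d4 : ∀ j c, Disjoint (UP o (zc c) r1 r2 (T' + 3 + off j c) (a j c) (ec e j c) :
        Finset (Grid (O ++ [s3, s1, s2]))) (UH o z5 r1 r2 T') := fun j c =>
      disjoint_UP_UH (2 * T' + 4) o (zc c) r1 r2 h1 h2' z5 (hz5ne c) _ _ _ _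
        (by omega) (by have := hoff1 j c; have := hec1 j c; omega)
    obtain ⟨j, c⟩ := p
    obtain ⟨j', c'⟩ := p'
    rw [hU, hU]
    dsimp only
    by_cases r1' : j = i
    · rw [if_pos r1', r1']
      by_cases s1' : j' = i
      · rw [if_pos s1', s1']
        have hc : c ≠ c' := fun h => hpp (by rw [r1', s1', h])
        rcases lt_or_gt_of_ne hc with h | h
        · exact d1 c c' h
        · exact (d1 c' c h).symm
      · rw [if_neg s1']
        by_cases s2' : nx j' = i
        · rw [if_pos s2']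
          exact d2 c j' c'
        · rw [if_neg s2']
          split_ifs
          · exact d3 c
          · exact Finset.disjoint_empty_right _
    · rw [if_neg r1']
      by_cases r2' : nx j = i
      · rw [if_pos r2']
        by_cases s1' : j' = i
        · rw [if_pos s1', s1']
          exact (d2 c' j c).symm
        · rw [if_neg s1']
          by_cases s2' : nx j' = i
          · rw [if_pos s2']
            have hjj : j = j' := nx.injective (r2'.trans s2'.symm)
            have hc : c ≠ c' := fun h => hpp (by rw [hjj, h])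
            exact disjoint_UP_UP o (zc c) r1 r2 (zc c') (hzne c c' hc) _ _ _ _ _ _
          · rw [if_neg s2']
            split_ifs
            · exact d4 j c
            · exact Finset.disjoint_empty_right _
      · rw [if_neg r2']
        by_cases r3' : j = nx i ∧ c = 4 ∧ e j = 1
        · rw [if_pos r3']
          by_cases s1' : j' = i
          · rw [if_pos s1', s1']
            exact (d3 c').symm
          · rw [if_neg s1']
            by_cases s2' : nx j' = i
            · rw [if_pos s2']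
              exact (d4 j' c').symm
            · rw [if_neg s2']
              by_cases s3' : j' = nx i ∧ c' = 4 ∧ e j' = 1
              · exact absurd (Prod.ext (r3'.1.trans s3'.1.symm) (r3'.2.1.trans s3'.2.1.symm)) hpp
              · rw [if_neg s3']
                exact Finset.disjoint_empty_right _
        · rw [if_neg r3']
          exact Finset.disjoint_empty_left _
  let C := Finset.univ.biUnion U
  have hCcard : C.card = ∑ p, (U p).card :=
    Finset.card_biUnion fun p _ p' _ hpp => hUdisj p p' hpp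
  have hCsub : C ⊆ CM := by
    rw [Finset.biUnion_subset]
    exact fun p _ => hUsub p
  have hCle : C.card ≤ CM.card := Finset.card_le_card hCsub
  -- generic points of the slice
  obtain ⟨x, hx⟩ := hG.mono hCsub
  set M1 := coordSub K C ⊔ ⨆ a, T (O ++ [s3, s1, s2]) (x a) with hM1
  have hM1le : finrank K M1 ≤ C.card + b i * D (O ++ [s3, s1, s2]) := by
    refine (Submodule.finrank_add_le_finrank_add_finrank _ _).trans ?_
    rw [finrank_coordSub]
    refine Nat.add_le_add_left ?_ _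
    have key : ∀ s : Finset (Fin (b i)), finrank K ↥(⨆ a ∈ s, T (O ++ [s3, s1, s2]) (x a)) ≤ s.card * D (O ++ [s3, s1, s2]) := by
      intro s
      induction s using Finset.induction_on with
      | empty => simp
      | insert a s ha ih =>
        rw [Finset.iSup_insert, Finset.card_insert_of_notMem ha, add_mul, one_mul, add_comm]
        exact (Submodule.finrank_add_le_finrank_add_finrank _ _).trans
          (Nat.add_le_add (finrank_T_le (O ++ [s3, s1, s2]) (x a)) ih)
    have h3 := key Finset.univ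
    have h4 : (⨆ a ∈ (Finset.univ : Finset (Fin (b i))), T (O ++ [s3, s1, s2]) (x a)) = ⨆ a, T (O ++ [s3, s1, s2]) (x a) := by simp
    rwa [h4, Finset.card_univ, Fintype.card_fin] at h3
  -- the blocks
  obtain ⟨oth, hoth⟩ : ∃ oth : Fin q × Fin 5 → Prop, ∀ p, oth p ↔ (p.1 ≠ i ∧ nx p.1 ≠ i ∧
      ¬ (p.1 = nx i ∧ p.2 = 4 ∧ e p.1 = 1)) := ⟨_, fun _ => Iff.rfl⟩
  obtain ⟨nn, hnn⟩ : ∃ nn : Fin q × Fin 5 → ℕ, ∀ p, nn p = if oth p then
      a p.1 p.2 + ec e p.1 p.2 else 0 := ⟨_, fun _ => rfl⟩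
  have hdim : finrank K (Grid (O ++ [s3, s1, s2]) → K) = (O ++ [s3, s1, s2]).prod := by
    rw [Module.finrank_fintype_fun_eq_card, card_grid]
  have hnnsum : ∑ p, nn p ≤ q * (T' + 1) := by
    rw [Fintype.sum_prod_type]
    have h3 : ∀ j : Fin q, ∑ c, nn (j, c) ≤ T' + 1 := by
      intro j
      have h4 : ∀ c : Fin 5, nn (j, c) ≤ a j c + ec e j c := by
        intro c
        rw [hnn]
        split_ifs
        · exact le_rfl
        · exact Nat.zero_le _
      refine (Finset.sum_le_sum fun c _ => h4 c).trans ?_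
      rw [Finset.sum_add_distrib]
      have h5 : ∑ c, ec e j c = e j := by
        unfold ec
        simp
      have h6 := haT j
      have h7 := he j
      omega
    refine (Finset.sum_le_card_nsmul _ _ _ fun j _ => h3 j).trans ?_
    simp
  have hs13 : 1 ≤ O.prod * s3 := Nat.mul_pos (by omega) (by omega)
  have hs133 : 1 ≤ O.prod * s3 * s1 := Nat.mul_pos hs13 (by omega)
  have : Nonempty (Par K O s1 s2 s3) := ⟨0⟩
  have hsub : ∑ p : {p : Fin q × Fin 5 // oth p}, (a p.1.1 p.1.2 + ec e p.1.1 p.1.2) =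
      ∑ p, nn p := by
    rw [← Finset.sum_subtype (Finset.univ.filter oth) (fun p => by simp)
      (fun p => a p.1 p.2 + ec e p.1 p.2), Finset.sum_filter]
    exact Finset.sum_congr rfl fun p _ => (hnn p).symm
  obtain ⟨wb, hwb⟩ := exists_blocks (K := K) (V := Grid (O ++ [s3, s1, s2]) → K)
    (β := {p : Fin q × Fin 5 // oth p}) (W := Par K O s1 s2 s3)
    (fun p w => SB (a p.1.1 p.1.2) (ec e p.1.1 p.1.2) w)
    (fun p => a p.1.1 p.1.2 + ec e p.1.1 p.1.2)
    (T' * (O.prod * s3) + 3 * (O.prod * s3 * s1)) (fun p w => finrank_SB_le _ _ w) (by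
      rintro ⟨p, hp⟩ M hM
      rw [hdim] at hM
      dsimp only
      rcases hae p.1 p.2 with h3 | ⟨h3, h4⟩
      · rw [h3, add_zero]
        refine ext_clique _ hs13 M ?_
        have h5 : a p.1 p.2 * (O.prod * s3) ≤ T' * (O.prod * s3) :=
          Nat.mul_le_mul_right _ ((Nat.le_add_left _ _).trans (hoff1 p.1 p.2))
        omega
      · rw [h3, h4]
        exact ext_triple h2 hs133 M (by omega)) M1 (by rw [hdim, hsub]; omega)
  rw [hsub] at hwb
  set M2 := M1 ⊔ ⨆ p : {p : Fin q × Fin 5 // oth p}, SB (a p.1.1 p.1.2) (ec e p.1.1 p.1.2) (wb p)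
    with hM2
  -- the generic points of the other slices
  obtain ⟨zz, hzz⟩ := point_lemma' (O ++ [s3, s1, s2]) M2 {p : Σ j, Fin (b j) // p.1 ≠ i}
  rw [card_sigma_ne] at hzz
  -- the choice
  let g : (Σ j, Fin (b j)) → Coord (O ++ [s3, s1, s2]) → K := fun p =>
    if h : p.1 = i then x (Fin.cast (congrArg b h) p.2) else zz ⟨p, h⟩
  have hg1 : ∀ y, g ⟨i, y⟩ = x y := fun y => by simp [g]
  have hg2 : ∀ p : {p : Σ j, Fin (b j) // p.1 ≠ i}, g p.1 = zz p := fun p => by
    simp only [g, dif_neg p.2]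
  let w : Fin q → Fin 5 → Par K O s1 s2 s3 := fun j c =>
    if h : oth (j, c) then wb ⟨(j, c), h⟩ else w0 j c
  refine ⟨g, w, ?_⟩
  have hmono : M2 ⊔ span K (Set.range fun p => E (O ++ [s3, s1, s2]) (zz p)) ≤ RS d nx b a e i g w := by
    -- the contributions
    have b1 : ∀ c, SO (a i c) (w i c) ≤ RS d nx b a e i g w := fun c => by
      unfold RS
      exact le_sup_of_le_left (le_sup_of_le_left (le_sup_of_le_left (le_sup_of_le_left
        (le_sup_of_le_left (le_iSup (fun c => SO (a i c) (w i c)) c)))))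
    have b2 : ∀ j c, nx j = i → SP (d 0) (d 1) (a j c) (ec e j c) (w j c) ≤
        RS d nx b a e i g w := fun j c hj => by
      have hj' : nx.symm i = j := by rw [← hj, Equiv.symm_apply_apply]
      unfold RS
      refine le_sup_of_le_left (le_sup_of_le_left (le_sup_of_le_left (le_sup_of_le_left
        (le_sup_of_le_right ?_))))
      rw [hj']
      exact le_iSup (fun c => SP (d 0) (d 1) (a j c) (ec e j c) (w j c)) c
    have b3 : e (nx i) = 1 → SH (w (nx i) 4) ≤ RS d nx b a e i g w := fun h => by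
      unfold RS
      exact le_sup_of_le_left (le_sup_of_le_left (le_sup_of_le_left
        (le_sup_of_le_right (le_iSup (fun _ : e (nx i) = 1 => SH (w (nx i) 4)) h))))
    have b4 : ∀ y, T (O ++ [s3, s1, s2]) (g ⟨i, y⟩) ≤ RS d nx b a e i g w := fun y => by
      unfold RS
      exact le_sup_of_le_left (le_sup_of_le_left
        (le_sup_of_le_right (le_iSup (fun y => T (O ++ [s3, s1, s2]) (g ⟨i, y⟩)) y)))
    have b5 : ∀ j c, SB (a j c) (ec e j c) (w j c) ≤ RS d nx b a e i g w := fun j c => by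
      unfold RS
      exact le_sup_of_le_left (le_sup_of_le_right
        (le_iSup_of_le j (le_iSup (fun c => SB (a j c) (ec e j c) (w j c)) c)))
    have b6 : ∀ p, E (O ++ [s3, s1, s2]) (g p) ∈ RS d nx b a e i g w := fun p => by
      unfold RS
      exact mem_sup_right (subset_span ⟨p, rfl⟩)
    refine sup_le (sup_le (sup_le ?_ ?_) ?_) ?_
    · refine coordSub_le_of_single _ _ fun y hy => ?_
      obtain ⟨⟨j, c⟩, _, hy⟩ := Finset.mem_biUnion.1 hy
      rw [hU] at hy
      dsimp only at hy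
      have hsing : ∀ (A : Finset (Grid (O ++ [s3, s1, s2]))), y ∈ A → (Pi.single y 1 : Grid (O ++ [s3, s1, s2]) → K) ∈
          coordSub K A := fun A hA y' hy' => Pi.single_eq_of_ne (fun h => hy' (by rw [h]; exact hA)) _
      by_cases r1' : j = i
      · rw [if_pos r1'] at hy
        subst r1'
        have hw : w j c = wc o (zc c) r1 r2 (off j c) := by
          have : ¬ oth (j, c) := fun h => ((hoth _).1 h).1 rfl
          simp only [w, dif_neg this, hw0, if_true]
        refine b1 c ?_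
        rw [hw]
        exact own_le o (zc c) r1 r2 (off j c) (a j c) (hsing _ hy)
      rw [if_neg r1'] at hy
      by_cases r2' : nx j = i
      · rw [if_pos r2'] at hy
        have hw : w j c = wc o (zc c) r1 r2 (T' + 3 + off j c) := by
          have : ¬ oth (j, c) := fun h => ((hoth _).1 h).2.1 r2'
          simp only [w, dif_neg this, hw0, if_neg r1', if_pos r2']
        refine b2 j c r2' ?_
        rw [hw]
        exact prev_le (d 0) (d 1) hd o (zc c) r1 r2 _ _ _ (hae j c) (hsing _ hy)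
      rw [if_neg r2'] at hy
      by_cases r3' : j = nx i ∧ c = 4 ∧ e j = 1
      · rw [if_pos r3'] at hy
        have hw : w j c = wh o z5 r1 r2 T' := by
          have : ¬ oth (j, c) := fun h => ((hoth _).1 h).2.2 r3'
          simp only [w, dif_neg this, hw0, if_neg r1', if_neg r2']
        obtain ⟨rj, rc, re⟩ := r3'
        subst rc
        rw [rj] at hw re
        refine b3 re ?_
        rw [hw]
        exact host_le o z5 r1 r2 T' (hsing _ hy)
      · rw [if_neg r3'] at hy
        exact absurd hy (Finset.notMem_empty y)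
    · refine iSup_le fun y => ?_
      rw [← hg1]
      exact b4 y
    · refine iSup_le fun p => ?_
      have hw : w p.1.1 p.1.2 = wb p := by
        have : oth (p.1.1, p.1.2) := p.2
        simp only [w, dif_pos this]
      rw [← hw]
      exact b5 p.1.1 p.1.2
    · rw [span_le]
      rintro _ ⟨p, rfl⟩
      change E (O ++ [s3, s1, s2]) (zz p) ∈ RS d nx b a e i g w
      rw [← hg2]
      exact b6 p.1
  refine le_trans ?_ (Submodule.finrank_mono hmono)
  refine le_trans ?_ hzz
  refine min_le_min le_rfl ?_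
  -- the numbers
  have hterm : ∀ p, cnt (D (O ++ [s3, s1, s2])) nx a e i p.1 p.2 ≤ (U p).card + nn p := by
    intro p
    rw [hU, hnn]
    unfold cnt
    by_cases r1' : p.1 = i
    · rw [if_pos r1', if_pos r1']
      have h3 := card_UO (2 * T' + 4) o (zc p.2) r1 r2 h1 h2' (off p.1 p.2) (a p.1 p.2)
        (by have := hoff1 p.1 p.2; omega)
      have h4 : a p.1 p.2 * D (O ++ [s3, s1, s2]) ≤ (UO o (zc p.2) r1 r2 (off p.1 p.2) (a p.1 p.2) :
        Finset (Grid (O ++ [s3, s1, s2]))).card + a p.1 p.2 * (a p.1 p.2 - 1) := h3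
      omega
    rw [if_neg r1', if_neg r1']
    by_cases r2' : nx p.1 = i
    · rw [if_pos r2', if_pos r2']
      have h3 : (UP o (zc p.2) r1 r2 (T' + 3 + off p.1 p.2) (a p.1 p.2) (ec e p.1 p.2) :
          Finset (Grid (O ++ [s3, s1, s2]))).card = a p.1 p.2 * (a p.1 p.2 + ec e p.1 p.2) :=
        card_UP (2 * T' + 4) o (zc p.2) r1 r2 h1 h2' _ _ _
          (by have := hoff1 p.1 p.2; have := hec1 p.1 p.2; omega)
      rw [h3]
      exact Nat.le_add_right _ _
    rw [if_neg r2', if_neg r2']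
    by_cases r3' : p.1 = nx i ∧ p.2 = 4 ∧ e p.1 = 1
    · rw [if_pos r3', if_pos r3']
      have h3 : (UH o z5 r1 r2 T' : Finset (Grid (O ++ [s3, s1, s2]))).card = D (O ++ [s3, s1, s2]) + 2 :=
        card_UH (2 * T' + 4) o z5 r1 r2 h1 h2' T' (by omega)
      rw [h3]
      exact Nat.le_add_right _ _
    · rw [if_neg r3', if_neg r3']
      have : oth p := (hoth p).2 ⟨r1', r2', r3'⟩
      rw [if_pos this]
      exact Nat.le_add_left _ _
  have hsum : ∑ j, ∑ c, cnt (D (O ++ [s3, s1, s2])) nx a e i j c ≤ C.card + ∑ p, nn p := by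
    rw [hCcard, ← Finset.sum_add_distrib, ← Fintype.sum_prod_type']
    exact Finset.sum_le_sum fun p _ => hterm p
  omega

end Pool.Agent.Lib.MP_635d71_ag
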