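import Mathlib
import Pool.Agent.Lib.MP_635d71_ag.SliceEval

/-!
# The main specialization with special points
-/

open Module Submodule Polynomial

namespace Pool.Agent.Lib.MP_635d71_ag

variable {K : Type} [Field K]

variable {O : List ℕ} {s1 s2 s3 : ℕ}

theorem LinePoly.add_fun {V κ : Type} [AddCommGroup V] [Module K V] (f g : V → κ → K)
    (hf : LinePoly K f) (hg : LinePoly K g) : LinePoly K (fun v c => f v c + g v c) := by
  intro x0 x1 c
  obtain ⟨a, ha⟩ := hf x0 x1 c
  obtain ⟨b, hb⟩ := hg x0 x1 c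
  exact ⟨a + b, fun t => by rw [eval_add, ← ha, ← hb]⟩

theorem pt_add (z z' : Fin s3 → K) (x x' : Fin s1 → K) (y y' : Fin s2 → K) :
    pt (z + z') (x + x') (y + y') = pt z x y + pt z' x' y' := by
  funext c
  rcases c with c | c | c | c
  · rfl
  · rfl
  · rfl
  · exact c.elim

theorem pt_smul (a : K) (z : Fin s3 → K) (x : Fin s1 → K) (y : Fin s2 → K) :
    pt (a • z) (a • x) (a • y) = a • pt z x y := by
  funext c
  rcases c with c | c | c | c
  · rfl
  · rfl
  · rfl
  · exact c.elim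

theorem pw_add (ζ ζ' : Coord O → K) (z z' : Fin s3 → K) (x x' : Fin s1 → K) (y y' : Fin s2 → K) :
    pw O (ζ + ζ') (z + z') (x + x') (y + y') = pw O ζ z x y + pw O ζ' z' x' y' := by
  rw [pw, pt_add, capp_add]
  rfl

theorem pw_smul (a : K) (ζ : Coord O → K) (z : Fin s3 → K) (x : Fin s1 → K) (y : Fin s2 → K) :
    pw O (a • ζ) (a • z) (a • x) (a • y) = a • pw O ζ z x y := by
  rw [pw, pt_smul, capp_smul]
  rfl

/-- The special point with vectors `x`, `y`, as a linear map. -/
def pwL (x y : ℕ) : Par K O s1 s2 s3 →ₗ[K] (Coord (O ++ [s3, s1, s2]) → K) where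
  toFun := fun w => pw O w.1 w.2.1 (w.2.2.1 x) (w.2.2.2 y)
  map_add' := fun _ _ => pw_add _ _ _ _ _ _ _ _
  map_smul' := fun _ _ => pw_smul _ _ _ _ _

/-- The external point, as a linear map. -/
def pwX : Par K O s1 s2 s3 →ₗ[K] (Coord (O ++ [s3, s1, s2]) → K) where
  toFun := fun w => pw O w.1 w.2.1 (w.2.2.1 0 + w.2.2.1 1) (w.2.2.2 2)
  map_add' := fun w w' => by
    have h : (w + w').2.2.1 0 + (w + w').2.2.1 1 =
        (w.2.2.1 0 + w.2.2.1 1) + (w'.2.2.1 0 + w'.2.2.1 1) := by
      change (w.2.2.1 0 + w'.2.2.1 0) + (w.2.2.1 1 + w'.2.2.1 1) = _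
      abel
    rw [h]
    exact pw_add _ _ _ _ _ _ _ _
  map_smul' := fun a w => by
    have h : (a • w).2.2.1 0 + (a • w).2.2.1 1 = a • (w.2.2.1 0 + w.2.2.1 1) := by
      change a • w.2.2.1 0 + a • w.2.2.1 1 = _
      rw [smul_add]
    rw [h]
    exact pw_smul _ _ _ _ _

theorem ten_add_left {q : ℕ} {l : List ℕ} (u u' : Fin q → K) (f : Grid l → K) :
    (ten (u + u') f : Grid (q :: l) → K) = ten u f + ten u' f := by
  ext c
  simp [ten, add_mul]

theorem ten_add_right {q : ℕ} {l : List ℕ} (u : Fin q → K) (f f' : Grid l → K) :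
    (ten u (f + f') : Grid (q :: l) → K) = ten u f + ten u f' := by
  ext c
  simp [ten, mul_add]

theorem ten_smul_right {q : ℕ} {l : List ℕ} (u : Fin q → K) (a : K) (f : Grid l → K) :
    (ten u (a • f) : Grid (q :: l) → K) = a • ten u f := by
  ext c
  simp only [ten, Pi.smul_apply, smul_eq_mul]
  ring

/-- The parameters of all the points. -/
abbrev VV (K : Type) [Field K] {q : ℕ} (b : Fin q → ℕ) (O : List ℕ) (s1 s2 s3 : ℕ) : Type :=
  ((Σ j, Fin (b j)) → Coord (O ++ [s3, s1, s2]) → K) × (Fin q → Fin 5 → Par K O s1 s2 s3)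

/-- The parameters of a class. -/
def clsL {q : ℕ} (b : Fin q → ℕ) (j : Fin q) (c : Fin 5) :
    VV K b O s1 s2 s3 →ₗ[K] Par K O s1 s2 s3 where
  toFun := fun v => v.2 j c
  map_add' := fun _ _ => rfl
  map_smul' := fun _ _ => rfl

/-- A generic point. -/
def genL {q : ℕ} (b : Fin q → ℕ) (i : Σ j, Fin (b j)) :
    VV K b O s1 s2 s3 →ₗ[K] (Coord (O ++ [s3, s1, s2]) → K) where
  toFun := fun v => v.1 i
  map_add' := fun _ _ => rfl
  map_smul' := fun _ _ => rfl

/-- The main specialization with special points. -/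
theorem special_reach [Infinite K] (h2 : (2 : K) ≠ 0) {q T' : ℕ} (nx : Equiv.Perm (Fin q))
    (b : Fin q → ℕ) (a : Fin q → Fin 5 → ℕ)
    (e : Fin q → ℕ) (he : ∀ j, e j = 0 ∨ e j = 1) (ha4 : ∀ j, a j 4 = 2 * e j)
    (haT : ∀ j, ∑ c, a j c ≤ T') (hs3 : 6 ≤ s3) (hs1 : 2 * T' + 4 ≤ s1) (hs2 : 2 * T' + 4 ≤ s2)
    (hOp : 1 ≤ O.prod) (o : Grid O)
    (hG : ∀ i, Good K (O ++ [s3, s1, s2]) (b i) (cset [s3, s1, s2] O o (Fmax s3 s1 s2 (T' + 1))
      (Qmax s3 s1 s2 (T' + 1) (2 * T' + 4))))
    (hroom : ∀ i, (cset [s3, s1, s2] O o (Fmax s3 s1 s2 (T' + 1))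
      (Qmax s3 s1 s2 (T' + 1) (2 * T' + 4))).card + b i * D (O ++ [s3, s1, s2]) +
      (T' * (O.prod * s3) + 3 * (O.prod * s3 * s1)) + q * (T' + 1) ≤ (O ++ [s3, s1, s2]).prod) :
    Reach K (q :: (O ++ [s3, s1, s2])) (∑ j, (b j + ∑ c, a j c + e j))
      (∑ i, min (O ++ [s3, s1, s2]).prod ((∑ j, ∑ c, cnt (D (O ++ [s3, s1, s2])) nx a e i j c) +
        b i * D (O ++ [s3, s1, s2]) + ∑ j ∈ Finset.univ.erase i, b j)) := by
  classical
  obtain ⟨d, hd⟩ : ∃ d : ℕ → K, Function.Injective d :=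
    ⟨Infinite.natEmbedding K, (Infinite.natEmbedding K).injective⟩
  let V := VV K b O s1 s2 s3
  let ι := (Σ j, Fin (b j)) ⊕ (Σ j, Σ c, Fin (a j c)) ⊕ (Σ j, Fin (e j))
  let LW : ∀ j c, V →ₗ[K] Par K O s1 s2 s3 := fun j c => clsL b j c
  let L : ι → V →ₗ[K] (Coord (O ++ [s3, s1, s2]) → K) := fun p => match p with
    | Sum.inl i => genL b i
    | Sum.inr (Sum.inl i) => (pwL i.2.2.val i.2.2.val).comp (LW i.1 i.2.1)
    | Sum.inr (Sum.inr i) => pwX.comp (LW i.1 4)
  let sl : ι → Fin q := fun p => match p with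
    | Sum.inl i => i.1
    | Sum.inr (Sum.inl i) => i.1
    | Sum.inr (Sum.inr i) => nx.symm i.1
  let u : ι → Fin q → K[X] := fun p j' => match p with
    | Sum.inl i => Polynomial.C ((Pi.single i.1 (1 : K) : Fin q → K) j')
    | Sum.inr (Sum.inl i) => Polynomial.C ((Pi.single i.1 (1 : K) : Fin q → K) j') +
        X * Polynomial.C (d i.2.2.val * (Pi.single (nx i.1) (1 : K) : Fin q → K) j')
    | Sum.inr (Sum.inr i) => Polynomial.C ((Pi.single (nx.symm i.1) (1 : K) : Fin q → K) j')
  let κ := (Σ j, Σ c, {x : Fin (a j c) × Fin (a j c) // x.1 ≠ x.2}) ⊕ (Σ j, Fin (e j))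
  let tgt : κ → Fin q := fun k => match k with
    | Sum.inl k => nx k.1
    | Sum.inr k => nx k.1
  let ν : κ → V → Grid (O ++ [s3, s1, s2]) → K := fun k v => match k with
    | Sum.inl k => (d k.2.2.1.1.val - d k.2.2.1.2.val) • EE (v.2 k.1 k.2.1) k.2.2.1.1.val k.2.2.1.2.val
    | Sum.inr k => EY (d 0) (d 1) (v.2 k.1 4)
  have hEE : ∀ j c x y, LinePoly K (fun v : V => EE (v.2 j c) x y) := fun j c x y =>
    linePoly_E (O ++ [s3, s1, s2]) ((pwL x y).comp (LW j c))
  have hν : ∀ k, LinePoly K (ν k) := by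
    rintro (k | k)
    · exact LinePoly.smul_const _ _ (hEE _ _ _ _)
    · exact LinePoly.add_fun _ _ (LinePoly.smul_const _ _ (hEE _ _ _ _))
        (LinePoly.smul_const _ _ (hEE _ _ _ _))
  have hνs : ∀ k, LinePoly K (fun w : K × V => ν k w.2) := by
    rintro (k | k)
    · exact LinePoly.smul_const _ _ (linePoly_E (O ++ [s3, s1, s2])
        (((pwL _ _).comp (LW k.1 k.2.1)).comp (LinearMap.snd K K V)))
    · exact LinePoly.add_fun _ _ (LinePoly.smul_const _ _ (linePoly_E (O ++ [s3, s1, s2])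
        (((pwL _ _).comp (LW k.1 4)).comp (LinearMap.snd K K V))))
        (LinePoly.smul_const _ _ (linePoly_E (O ++ [s3, s1, s2])
        (((pwL _ _).comp (LW k.1 4)).comp (LinearMap.snd K K V))))
  obtain ⟨W, hW⟩ := assembly_eps (K := K) (O ++ [s3, s1, s2])
    (∅ : Finset (Grid (q :: (O ++ [s3, s1, s2])))) L sl u (by
      rintro (i | i | i) j
      · simp only [u, sl, eval_C]
      · simp only [u, sl, eval_C, eval_add, eval_mul, eval_X, zero_mul, add_zero]
      · simp only [u, sl, eval_C])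
    (fun k w => ten (Pi.single (tgt k) 1) (ν k w.2))
    (fun k => linePoly_ten _ _ (LinePoly.const _) (hνs k)) (by
      intro k w hw
      have hTle : ∀ p, T (q :: (O ++ [s3, s1, s2])) (cons (fun j => (u p j).eval w.1) (L p w.2)) ≤
          ⨆ p, T (q :: (O ++ [s3, s1, s2])) (cons (fun j => (u p j).eval w.1) (L p w.2)) :=
        fun p => le_iSup (fun p => T (q :: (O ++ [s3, s1, s2]))
          (cons (fun j => (u p j).eval w.1) (L p w.2))) p
      have hu : ∀ (j : Fin q) (c : Fin 5) (x : Fin (a j c)),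
          (fun j' => (u (Sum.inr (Sum.inl ⟨j, c, x⟩)) j').eval w.1) =
          (Pi.single j (1 : K) : Fin q → K) +
            (w.1 * d x.val) • (Pi.single (nx j) (1 : K) : Fin q → K) := by
        intro j c x
        funext j'
        simp only [u, eval_add, eval_mul, eval_C, eval_X, Pi.add_apply, Pi.smul_apply, smul_eq_mul]
        ring
      rcases k with ⟨j, c, ⟨x, y⟩, hxy⟩ | ⟨j, x⟩
      · -- a pair
        set F := EE (w.2.2 j c) x.val y.val with hF
        have m1 : ten ((Pi.single j (1 : K) : Fin q → K) +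
            (w.1 * d x.val) • (Pi.single (nx j) (1 : K) : Fin q → K)) F ∈
            ⨆ p, T (q :: (O ++ [s3, s1, s2])) (cons (fun j => (u p j).eval w.1) (L p w.2)) := by
          refine hTle (Sum.inr (Sum.inl ⟨j, c, x⟩)) ?_
          rw [← hu j c x]
          exact ten_mem_T (cons _ (L (Sum.inr (Sum.inl ⟨j, c, x⟩)) w.2)) (E_pw_mem_y O _ _ _ _ _)
        have m2 : ten ((Pi.single j (1 : K) : Fin q → K) +
            (w.1 * d y.val) • (Pi.single (nx j) (1 : K) : Fin q → K)) F ∈
            ⨆ p, T (q :: (O ++ [s3, s1, s2])) (cons (fun j => (u p j).eval w.1) (L p w.2)) := by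
          refine hTle (Sum.inr (Sum.inl ⟨j, c, y⟩)) ?_
          rw [← hu j c y]
          exact ten_mem_T (cons _ (L (Sum.inr (Sum.inl ⟨j, c, y⟩)) w.2)) (E_pw_mem_x O _ _ _ _ _)
        have m3 := Submodule.smul_mem _ (w.1)⁻¹ (Submodule.sub_mem _ m1 m2)
        have e1 : (w.1)⁻¹ • (ten ((Pi.single j (1 : K) : Fin q → K) +
            (w.1 * d x.val) • (Pi.single (nx j) (1 : K) : Fin q → K)) F -
            ten ((Pi.single j (1 : K) : Fin q → K) +
            (w.1 * d y.val) • (Pi.single (nx j) (1 : K) : Fin q → K)) F) =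
            ten (Pi.single (nx j) 1) ((d x.val - d y.val) • F) := by
          rw [ten_smul_right, ten_add_left, ten_add_left, ten_smul_left, ten_smul_left,
            add_sub_add_left_eq_sub, ← sub_smul, ← mul_sub, smul_smul, ← mul_assoc,
            inv_mul_cancel₀ hw, one_mul]
        rw [e1] at m3
        exact m3
      · -- the additional vector
        have hx : e j = 1 := by
          have := x.2
          rcases he j with h | h <;> omega
        have ha2 : a j 4 = 2 := by rw [ha4, hx]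
        let x0 : Fin (a j 4) := ⟨0, by omega⟩
        let x1 : Fin (a j 4) := ⟨1, by omega⟩
        set F0 := EE (w.2.2 j 4) 0 2 with hF0
        set F1 := EE (w.2.2 j 4) 1 2 with hF1
        have m1 : ten ((Pi.single j (1 : K) : Fin q → K) +
            (w.1 * d 0) • (Pi.single (nx j) (1 : K) : Fin q → K)) F0 ∈
            ⨆ p, T (q :: (O ++ [s3, s1, s2])) (cons (fun j => (u p j).eval w.1) (L p w.2)) := by
          refine hTle (Sum.inr (Sum.inl ⟨j, 4, x0⟩)) ?_
          have := hu j 4 x0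
          rw [show (x0 : Fin (a j 4)).val = 0 from rfl] at this
          rw [← this]
          exact ten_mem_T (cons _ (L (Sum.inr (Sum.inl ⟨j, 4, x0⟩)) w.2)) (E_pw_mem_y O _ _ _ _ _)
        have m2 : ten ((Pi.single j (1 : K) : Fin q → K) +
            (w.1 * d 1) • (Pi.single (nx j) (1 : K) : Fin q → K)) F1 ∈
            ⨆ p, T (q :: (O ++ [s3, s1, s2])) (cons (fun j => (u p j).eval w.1) (L p w.2)) := by
          refine hTle (Sum.inr (Sum.inl ⟨j, 4, x1⟩)) ?_
          have := hu j 4 x1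
          rw [show (x1 : Fin (a j 4)).val = 1 from rfl] at this
          rw [← this]
          exact ten_mem_T (cons _ (L (Sum.inr (Sum.inl ⟨j, 4, x1⟩)) w.2)) (E_pw_mem_y O _ _ _ _ _)
        have m0 : ten (Pi.single j (1 : K) : Fin q → K) (F0 + F1) ∈
            ⨆ p, T (q :: (O ++ [s3, s1, s2])) (cons (fun j => (u p j).eval w.1) (L p w.2)) := by
          refine hTle (Sum.inr (Sum.inr ⟨j, x⟩)) ?_
          have h3 : F0 + F1 = E _ (L (Sum.inr (Sum.inr ⟨j, x⟩)) w.2) :=
            (E_pw_add O _ _ _ _ _).symm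
          rw [h3]
          exact ten_E_mem_T (cons (fun j' => (u (Sum.inr (Sum.inr ⟨j, x⟩)) j').eval w.1)
            (L (Sum.inr (Sum.inr ⟨j, x⟩)) w.2)) _
        have m3 := Submodule.smul_mem _ (w.1)⁻¹ (Submodule.sub_mem _ (Submodule.add_mem _ m1 m2) m0)
        have e1 : (w.1)⁻¹ • (ten ((Pi.single j (1 : K) : Fin q → K) +
            (w.1 * d 0) • (Pi.single (nx j) (1 : K) : Fin q → K)) F0 +
            ten ((Pi.single j (1 : K) : Fin q → K) +
            (w.1 * d 1) • (Pi.single (nx j) (1 : K) : Fin q → K)) F1 -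
            ten (Pi.single j (1 : K) : Fin q → K) (F0 + F1)) =
            ten (Pi.single (nx j) 1) (d 0 • F0 + d 1 • F1) := by
          rw [ten_add_right, ten_add_right, ten_smul_right, ten_smul_right, ten_add_left,
            ten_add_left, ten_smul_left, ten_smul_left]
          have e2 : ∀ A B C' D' : Grid (q :: (O ++ [s3, s1, s2])) → K,
              A + C' + (B + D') - (A + B) = C' + D' := fun A B C' D' => by abel
          rw [e2, smul_add, smul_smul, smul_smul, ← mul_assoc, ← mul_assoc, inv_mul_cancel₀ hw,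
            one_mul, one_mul]
        rw [e1] at m3
        exact m3) tgt ν hν (fun k v => rfl)
    (fun i => min (O ++ [s3, s1, s2]).prod ((∑ j, ∑ c, cnt (D (O ++ [s3, s1, s2])) nx a e i j c) +
        b i * D (O ++ [s3, s1, s2]) + ∑ j ∈ Finset.univ.erase i, b j)) (by
      intro i
      obtain ⟨g, w, hgw⟩ := slice_eval (K := K) h2 nx b a e he ha4 haT hs3 hs1 hs2 hOp o d
        (fun h => absurd (hd h) (by norm_num)) i (hG i) (hroom i)
      refine ⟨(g, w), hgw.trans (Submodule.finrank_mono (le_sup_of_le_right ?_))⟩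
      set S := span K (({f | ∃ p, sl p = i ∧ f ∈ T (O ++ [s3, s1, s2]) (L p (g, w))} ∪
        {f | ∃ k, tgt k = i ∧ f = ν k (g, w)} ∪
        {f | ∃ p, f = E (O ++ [s3, s1, s2]) (L p (g, w))})) with hS
      have t1 : ∀ p, sl p = i → T (O ++ [s3, s1, s2]) (L p (g, w)) ≤ S := fun p hp f hf =>
        subset_span (Or.inl (Or.inl ⟨p, hp, hf⟩))
      have t2 : ∀ k, tgt k = i → ν k (g, w) ∈ S := fun k hk =>
        subset_span (Or.inl (Or.inr ⟨k, hk, rfl⟩))
      have t3 : ∀ p, E (O ++ [s3, s1, s2]) (L p (g, w)) ∈ S := fun p =>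
        subset_span (Or.inr ⟨p, rfl⟩)
      have tE : ∀ j c (x : Fin (a j c)), EE (w j c) x.val x.val ∈ S := fun j c x =>
        t3 (Sum.inr (Sum.inl ⟨j, c, x⟩))
      have tX : ∀ j, e j = 1 → EX (w j 4) ∈ S := fun j hj =>
        t3 (Sum.inr (Sum.inr ⟨j, ⟨0, by omega⟩⟩))
      have hec : ∀ j c, 0 < ec e j c → c = 4 ∧ e j = 1 := by
        intro j c h
        unfold ec at h
        split_ifs at h with hc
        · exact ⟨hc, by rcases he j with h' | h' <;> omega⟩
        · omega
      unfold RS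
      refine sup_le (sup_le (sup_le (sup_le (sup_le ?_ ?_) ?_) ?_) ?_) ?_
      · refine iSup_le fun c => iSup_le fun x => ?_
        exact t1 (Sum.inr (Sum.inl ⟨i, c, x⟩)) rfl
      · refine iSup_le fun c => ?_
        obtain ⟨j, hj⟩ : ∃ j, nx.symm i = j := ⟨_, rfl⟩
        rw [hj]
        have hji : nx j = i := by rw [← hj, Equiv.apply_symm_apply]
        unfold SP
        refine sup_le ?_ (sup_le ?_ ?_)
        · rw [span_le]
          rintro _ ⟨⟨x, y⟩, rfl⟩
          dsimp only
          by_cases hxy : x = y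
          · rw [hxy]
            exact tE j c y
          · have h3 := t2 (Sum.inl ⟨j, c, ⟨(x, y), hxy⟩⟩) hji
            have h4 : d x.val - d y.val ≠ 0 := sub_ne_zero.2 fun h => hxy (Fin.ext (hd h))
            have h5 : EE (w j c) x.val y.val = (d x.val - d y.val)⁻¹ •
                ν (Sum.inl ⟨j, c, ⟨(x, y), hxy⟩⟩) (g, w) := by
              simp only [ν]
              rw [smul_smul, inv_mul_cancel₀ h4, one_smul]
            rw [SetLike.mem_coe, h5]
            exact Submodule.smul_mem _ _ h3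
        · rw [span_le]
          rintro _ ⟨x, rfl⟩
          obtain ⟨hc, hej⟩ := hec j c (by have := x.2; omega)
          subst hc
          exact tX j hej
        · rw [span_le]
          rintro _ ⟨x, rfl⟩
          obtain ⟨hc, hej⟩ := hec j c (by have := x.2; omega)
          subst hc
          exact t2 (Sum.inr ⟨j, ⟨0, by omega⟩⟩) hji
      · refine iSup_le fun hei => ?_
        have ha2 : a (nx i) 4 = 2 := by rw [ha4, hei]
        refine sup_le ?_ ?_
        · exact t1 (Sum.inr (Sum.inr ⟨nx i, ⟨0, by omega⟩⟩)) (nx.symm_apply_apply i)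
        · rw [span_le]
          rintro f hf
          rw [Set.mem_insert_iff, Set.mem_singleton_iff] at hf
          rcases hf with rfl | rfl
          · exact tE (nx i) 4 ⟨0, by omega⟩
          · exact tE (nx i) 4 ⟨1, by omega⟩
      · refine iSup_le fun y => ?_
        exact t1 (Sum.inl ⟨i, y⟩) rfl
      · refine iSup_le fun j => iSup_le fun c => ?_
        refine sup_le ?_ ?_
        · rw [span_le]
          rintro _ ⟨x, rfl⟩
          exact tE j c x
        · rw [span_le]
          rintro _ ⟨x, rfl⟩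
          obtain ⟨hc, hej⟩ := hec j c (by have := x.2; omega)
          subst hc
          exact tX j hej
      · rw [span_le]
        rintro _ ⟨p, rfl⟩
        exact t3 (Sum.inl p))
  -- the points
  have hcard : Fintype.card ι = ∑ j, (b j + ∑ c, a j c + e j) := by
    simp only [ι, Fintype.card_sum, Fintype.card_sigma, Fintype.card_fin,
      Finset.sum_add_distrib]
    omega
  let en := Fintype.equivFinOfCardEq hcard
  refine ⟨fun x => cons (fun j => (u (en.symm x) j).eval W.1) (L (en.symm x) W.2), ?_⟩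
  have hSup : (⨆ x, T (q :: (O ++ [s3, s1, s2])) (cons (fun j => (u (en.symm x) j).eval W.1)
      (L (en.symm x) W.2))) = ⨆ p, T (q :: (O ++ [s3, s1, s2]))
        (cons (fun j => (u p j).eval W.1) (L p W.2)) :=
    en.symm.iSup_comp (g := fun p => T (q :: (O ++ [s3, s1, s2]))
        (cons (fun j => (u p j).eval W.1) (L p W.2)))
  rw [hSup]
  refine hW.trans (Submodule.finrank_mono (sup_le ?_ le_rfl))
  intro f hf
  have : f = 0 := by ext g; exact hf g (Finset.notMem_empty g)
  rw [this]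
  exact Submodule.zero_mem _

end Pool.Agent.Lib.MP_635d71_ag
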