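import Mathlib
import Pool.Agent.Lib.MP_635d71_ag.Special
import Pool.Agent.Lib.MP_635d71_ag.ArithD
import Pool.Agent.Lib.MP_635d71_ag.FourTri

/-!
# The criterion for at least four factors
-/

open Module Submodule

namespace Pool.Agent.Lib.MP_635d71_ag

variable {K : Type} [Field K]

theorem sum_ec {q : ℕ} (e : Fin q → ℕ) (j : Fin q) : ∑ c, ec e j c = e j := by
  unfold ec
  simp

theorem count_class {q : ℕ} (Dm : ℕ) (nx : Equiv.Perm (Fin q)) (hnx1 : ∀ j, nx j ≠ j)
    (hnx2 : ∀ j, nx (nx j) ≠ j) (a : Fin q → Fin 5 → ℕ) (e : Fin q → ℕ)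
    (he : ∀ j, e j = 0 ∨ e j = 1) (ha4 : ∀ j, a j 4 = 2 * e j) (haD : ∀ j c, a j c ≤ Dm)
    (i j : Fin q) :
    ∑ c, cnt Dm nx a e i j c + (if j = i then ∑ c, a j c * (a j c - 1) + ∑ c, a j c + e j else 0) +
      (if j = nx i then e j else 0) = (∑ c, a j c + e j) +
      (if j = i then (∑ c, a j c) * Dm else 0) +
      (if j = nx.symm i then ∑ c, a j c * (a j c - 1) + e j else 0) +
      (if j = nx i then e j * Dm else 0) := by
  have hs : ∀ j, nx j = i ↔ j = nx.symm i := fun j => by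
    rw [Equiv.eq_symm_apply]
  have n1 : i ≠ nx i := (hnx1 i).symm
  have n2 : i ≠ nx.symm i := fun h => hnx1 i (by rw [hs]; exact h)
  have n3 : nx i ≠ nx.symm i := fun h => hnx2 i (by rw [hs]; exact h)
  by_cases h1 : j = i
  · subst h1
    simp only [cnt, if_true, if_neg n1, if_neg n2]
    have h2 : ∑ c, (a j c * Dm - a j c * (a j c - 1)) + ∑ c, a j c * (a j c - 1) =
        (∑ c, a j c) * Dm := by
      rw [← Finset.sum_add_distrib, Finset.sum_mul]
      refine Finset.sum_congr rfl fun c _ => Nat.sub_add_cancel ?_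
      exact Nat.mul_le_mul_left _ ((Nat.sub_le _ _).trans (haD j c))
    omega
  · simp only [cnt, if_neg h1]
    by_cases h2 : nx j = i
    · have h3 : j = nx.symm i := (hs j).1 h2
      have h4 : j ≠ nx i := fun h => n3 (by rw [← h, ← h3])
      simp only [if_pos h2, if_pos h3, if_neg h4]
      have h5 : ∑ c, a j c * (a j c + ec e j c) = ∑ c, a j c * (a j c - 1) + ∑ c, a j c +
          2 * e j := by
        have h6 : ∀ c, a j c * (a j c + ec e j c) = a j c * (a j c - 1) + a j c +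
            a j c * ec e j c := by
          intro c
          rcases Nat.eq_zero_or_pos (a j c) with h | h
          · rw [h]; simp
          · obtain ⟨x, hx⟩ : ∃ x, a j c = x + 1 := ⟨a j c - 1, by omega⟩
            rw [hx, Nat.add_sub_cancel]; ring
        rw [Finset.sum_congr rfl fun c _ => h6 c, Finset.sum_add_distrib, Finset.sum_add_distrib]
        congr 1
        have h7 : ∀ c, a j c * ec e j c = if c = 4 then a j 4 * e j else 0 := by
          intro c
          unfold ec
          split_ifs with hc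
          · rw [hc]
          · simp
        rw [Finset.sum_congr rfl fun c _ => h7 c, Finset.sum_ite_eq' Finset.univ,
          if_pos (Finset.mem_univ _), ha4]
        rcases he j with h | h <;> rw [h]
      omega
    · have h3 : j ≠ nx.symm i := fun h => h2 ((hs j).2 h)
      simp only [if_neg h2, if_neg h3]
      by_cases h4 : j = nx i
      · simp only [h4, true_and, if_true]
        rcases he (nx i) with h | h
        · have h5 : ∑ c, (if c = 4 ∧ e (nx i) = 1 then Dm + 2 else a (nx i) c + ec e (nx i) c) =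
              ∑ c, a (nx i) c + ∑ c, ec e (nx i) c := by
            rw [← Finset.sum_add_distrib]
            refine Finset.sum_congr rfl fun c _ => ?_
            rw [if_neg (by rw [h]; omega)]
          rw [sum_ec] at h5
          have h6 : e (nx i) * Dm = 0 := by rw [h, zero_mul]
          omega
        · have h5 : ∀ c, (if c = 4 ∧ e (nx i) = 1 then Dm + 2 else a (nx i) c + ec e (nx i) c) =
              a (nx i) c + if c = 4 then Dm else 0 := by
            intro c
            by_cases hc : c = 4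
            · rw [if_pos ⟨hc, h⟩, if_pos hc, hc, ha4, h]; ring
            · rw [if_neg (fun h' => hc h'.1), if_neg hc]
              unfold ec
              rw [if_neg hc]
          rw [Finset.sum_congr rfl fun c _ => h5 c, Finset.sum_add_distrib,
            Finset.sum_ite_eq' Finset.univ, if_pos (Finset.mem_univ _), h]
          omega
      · simp only [h4, false_and, if_false]
        rw [Finset.sum_add_distrib, sum_ec]

theorem count_id {q : ℕ} (N : ℕ) (nx : Equiv.Perm (Fin q)) (hnx1 : ∀ j, nx j ≠ j)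
    (hnx2 : ∀ j, nx (nx j) ≠ j) (b : Fin q → ℕ) (a : Fin q → Fin 5 → ℕ) (e : Fin q → ℕ)
    (he : ∀ j, e j = 0 ∨ e j = 1) (ha4 : ∀ j, a j 4 = 2 * e j) (haD : ∀ j c, a j c ≤ N + 1)
    (i : Fin q) :
    (∑ j, ∑ c, cnt (N + 1) nx a e i j c) + b i * (N + 1) + ∑ j ∈ Finset.univ.erase i, b j +
      (∑ c, a i c * (a i c - 1) + e i) =
    ∑ j, (b j + ∑ c, a j c + e j) + N * (b i + ∑ c, a i c + e (nx i)) +
      (∑ c, a (nx.symm i) c * (a (nx.symm i) c - 1) + e (nx.symm i)) := by
  have h1 := Finset.sum_congr (rfl : (Finset.univ : Finset (Fin q)) = Finset.univ)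
    (fun j _ => count_class (N + 1) nx hnx1 hnx2 a e he ha4 haD i j)
  simp only [Finset.sum_add_distrib, Finset.sum_ite_eq', Finset.mem_univ, if_true] at h1 ⊢
  have h2 := Finset.add_sum_erase Finset.univ b (Finset.mem_univ i)
  obtain ⟨S1, hS1⟩ : ∃ S, ∑ j, ∑ c, cnt (N + 1) nx a e i j c = S := ⟨_, rfl⟩
  obtain ⟨S2, hS2⟩ : ∃ S, ∑ j, ∑ c, a j c = S := ⟨_, rfl⟩
  obtain ⟨S3, hS3⟩ : ∃ S, ∑ j, e j = S := ⟨_, rfl⟩
  obtain ⟨S4, hS4⟩ : ∃ S, ∑ c, a i c = S := ⟨_, rfl⟩
  rw [hS1, hS2, hS3, hS4] at h1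
  rw [hS1, hS2, hS3, hS4]
  have e1 : S4 * (N + 1) = N * S4 + S4 := by ring
  have e2 : e (nx i) * (N + 1) = N * e (nx i) + e (nx i) := by ring
  have e3 : b i * (N + 1) = N * b i + b i := by ring
  have e4 : N * (b i + S4 + e (nx i)) = N * b i + N * S4 + N * e (nx i) := by ring
  rw [e1, e2] at h1
  rw [e3, e4]
  omega

/-- The criterion for at least four factors, near the critical rank. -/
theorem reach_num [Infinite K] (h2 : (2 : K) ≠ 0) (q N z s1 s2 s3 : ℕ) (O : List ℕ)
    (hO : ∀ a ∈ O, 1 ≤ a) (hq : 3 ≤ q) (hN : 2 ≤ N) (hD : D (O ++ [s3, s1, s2]) = N + 1)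
    (hz : 4 * (N + 2) ≤ z ^ 2) (hs3 : 6 ≤ s3) (hs1 : 2 * z + 12 ≤ s1) (hs2 : 2 * z + 12 ≤ s2)
    (hzN : z + 4 ≤ N + 1)
    (hnum : (N + q) * ((Qmax s3 s1 s2 (z + 5) (2 * z + 12)).card + (Fmax s3 s1 s2 (z + 5)).card +
      4 * (N + q) + (z + 4) * s3 + 3 * (s3 * s1) + q * (z + 5)) ≤ (q - 1) * (s3 * (s1 * s2)))
    (hbase : ∀ b, b * (N + q) ≤ s3 * (s1 * s2) + 4 * (N + q) →
      Good K [s3, s1, s2] b (Qmax s3 s1 s2 (z + 5) (2 * z + 12)))
    (r : ℕ) (hr1 : r * (N + q) ≤ q * (O ++ [s3, s1, s2]).prod + (N + q))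
    (hr2 : q * (z + 8) ≤ r) :
    Reach K (q :: (O ++ [s3, s1, s2])) r (min (r * (N + q)) (q * (O ++ [s3, s1, s2]).prod)) := by
  classical
  obtain ⟨P, hP⟩ : ∃ P, (O ++ [s3, s1, s2]).prod = P := ⟨_, rfl⟩
  obtain ⟨Θ, hΘ⟩ : ∃ Θ, N + q = Θ := ⟨_, rfl⟩
  have hPO : P = O.prod * (s3 * (s1 * s2)) := by rw [← hP, List.prod_append]; simp
  have hz8 : 4 * q ≤ r := le_trans (by
    have : q * 4 ≤ q * (z + 8) := Nat.mul_le_mul_left _ (by omega)
    omega) hr2
  obtain ⟨t, e, he0, heq, hsum, hne, hele, hup, hlo, hL⟩ := arith_ne q N P r (by omega) hN hz8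
  have hcl := fun i : ℕ => exists_classes (e (i + 1)) z (hne _) (by
    have := hele (i + 1)
    omega)
  choose a' e' hce ha4 hdel haT using hcl
  obtain ⟨q', rfl⟩ : ∃ q', q = q' + 3 := ⟨q - 3, by omega⟩
  let nx : Equiv.Perm (Fin (q' + 3)) := finRotate (q' + 3)
  have hnxv : ∀ j : Fin (q' + 3), nx j = j + 1 := fun j => finRotate_apply j
  have hv1 : ((1 : Fin (q' + 3)) : ℕ) = 1 := rfl
  have hnx1 : ∀ j, nx j ≠ j := fun j h => by
    rw [hnxv] at h
    have h5 : (1 : Fin (q' + 3)) = 0 := add_eq_left.1 h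
    have h6 := congrArg Fin.val h5
    rw [hv1] at h6
    exact absurd h6 (by norm_num)
  have hnx2 : ∀ j, nx (nx j) ≠ j := fun j h => by
    rw [hnxv, hnxv] at h
    have h5 : (1 + 1 : Fin (q' + 3)) = 0 := by
      rw [add_assoc] at h
      exact add_eq_left.1 h
    have h6 := congrArg Fin.val h5
    rw [Fin.val_add, hv1] at h6
    change (1 + 1) % (q' + 3) = 0 at h6
    rw [Nat.mod_eq_of_lt (by omega)] at h6
    omega
  have hnxval : ∀ j : Fin (q' + 3), (nx j).val = (j.val + 1) % (q' + 3) := fun j => by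
    rw [hnxv, Fin.val_add, hv1]
  -- the number of generic points
  have htlow : ∀ i, z + 5 ≤ t i := by
    intro i
    have h1 := hlo i
    by_contra hcon
    have h3 : (q' + 3) * t i ≤ (q' + 3) * (z + 4) := Nat.mul_le_mul_left _ (by omega)
    have h4 : (q' + 3) * (z + 8) = (q' + 3) * (z + 4) + 4 * (q' + 3) := by ring
    omega
  let b : Fin (q' + 3) → ℕ := fun j => t j.val - (∑ c, a' j.val c + e' (nx j).val)
  let a : Fin (q' + 3) → Fin 5 → ℕ := fun j => a' j.val
  let ee : Fin (q' + 3) → ℕ := fun j => e' j.val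
  have hee : ∀ j, ee j = 0 ∨ ee j = 1 := fun j => hce _
  have hb : ∀ j, b j + ∑ c, a j c + ee (nx j) = t j.val := by
    intro j
    have h1 := htlow j.val
    have h3 := haT j.val
    have h4 := hee (nx j)
    change t j.val - (∑ c, a' j.val c + ee (nx j)) + ∑ c, a' j.val c + ee (nx j) = t j.val
    omega
  have hr : ∑ j, (b j + ∑ c, a j c + ee j) = r := by
    have h1 : ∑ j, (b j + ∑ c, a j c + ee (nx j)) = ∑ j : Fin (q' + 3), t j.val :=
      Finset.sum_congr rfl fun j _ => hb j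
    rw [Finset.sum_add_distrib, Equiv.sum_comp nx ee, ← Finset.sum_add_distrib] at h1
    rw [h1, ← Finset.sum_range, hsum]
  have hGo := good_ind (K := K) [s3, s1, s2] (Fmax s3 s1 s2 (z + 5))
    (Qmax s3 s1 s2 (z + 5) (2 * z + 12)) (Fmax_subset _ _ _ _ _) Θ 4 (q' + 3 - 1) (by norm_num)
    (fun b hb => hbase b (by rw [hΘ]; simpa using hb)) (by
      rw [hΘ] at hnum
      refine le_trans (Nat.mul_le_mul_left _ ?_) (hnum.trans (le_of_eq (by simp)))
      omega) O hO (by rw [hD]; omega)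
  have hbΘ : ∀ j, b j * Θ ≤ P + 4 * Θ := by
    intro j
    have h1 := hb j
    have h3 : (q' + 3) * (t j.val * Θ) ≤ (q' + 3) * (P + 4 * Θ) := by
      calc (q' + 3) * (t j.val * Θ) = ((q' + 3) * t j.val) * Θ := by ring
        _ ≤ (r + 3 * (q' + 3)) * Θ := Nat.mul_le_mul_right _ (hup _)
        _ = r * Θ + 3 * (q' + 3) * Θ := by ring
        _ ≤ (q' + 3) * P + Θ + 3 * (q' + 3) * Θ := by
          rw [hP, hΘ] at hr1
          exact Nat.add_le_add_right hr1 _
        _ ≤ (q' + 3) * (P + 4 * Θ) := by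
          have : (q' + 3) * (P + 4 * Θ) = (q' + 3) * P + 3 * (q' + 3) * Θ + (q' + 3) * Θ := by ring
          have h5 : 1 * Θ ≤ (q' + 3) * Θ := Nat.mul_le_mul_right _ (by omega)
          omega
    have h4 := Nat.le_of_mul_le_mul_left h3 (by omega)
    exact (Nat.mul_le_mul_right _ (by omega)).trans h4
  obtain ⟨o⟩ := nonempty_grid O hO
  have hOp : 1 ≤ O.prod := one_le_prod O hO
  have hDO : D O ≤ O.prod := D_le_prod O hO
  have key := special_reach (K := K) (O := O) (s1 := s1) (s2 := s2) (s3 := s3) h2 (T' := z + 4) nx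
    b a ee hee (fun j => ha4 _) (fun j => haT _) hs3 (by omega) (by omega) hOp o
    (fun i => hGo (b i) (by rw [hP]; exact hbΘ i) o) (by
      intro i
      have hc := card_cset_le [s3, s1, s2] O o (Fmax s3 s1 s2 (z + 4 + 1))
        (Qmax s3 s1 s2 (z + 4 + 1) (2 * (z + 4) + 4))
      have e1 : z + 4 + 1 = z + 5 := rfl
      have e2 : 2 * (z + 4) + 4 = 2 * z + 12 := by ring
      rw [e1, e2] at hc ⊢
      rw [hP, hD]
      obtain ⟨Qc, hQc⟩ : ∃ Qc, (Qmax s3 s1 s2 (z + 5) (2 * z + 12)).card = Qc := ⟨_, rfl⟩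
      obtain ⟨Fc, hFc⟩ : ∃ Fc, (Fmax s3 s1 s2 (z + 5)).card = Fc := ⟨_, rfl⟩
      rw [hQc, hFc] at hc
      rw [hQc, hFc, hΘ, show q' + 3 - 1 = q' + 2 by omega] at hnum
      refine (Nat.add_le_add_right (Nat.add_le_add_right (Nat.add_le_add_right hc _) _) _).trans ?_
      have hΘ1 : 0 < Θ := by omega
      refine Nat.le_of_mul_le_mul_left ?_ hΘ1
      have h3 : Θ * (b i * (N + 1)) ≤ (P + 4 * Θ) * (N + 1) := by
        calc Θ * (b i * (N + 1)) = b i * Θ * (N + 1) := by ring
          _ ≤ _ := Nat.mul_le_mul_right _ (hbΘ i)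
      have hx : (P + 4 * Θ) * (N + 1) + (q' + 2) * P = Θ * P + Θ * (4 * (N + 1)) := by
        rw [← hΘ]; ring
      have h4 : Θ * (Qc + Fc * D O + 4 * (N + 1) + ((z + 4) * (O.prod * s3) +
          3 * (O.prod * s3 * s1)) + (q' + 3) * (z + 5)) ≤ (q' + 2) * P := by
        calc Θ * (Qc + Fc * D O + 4 * (N + 1) + ((z + 4) * (O.prod * s3) +
              3 * (O.prod * s3 * s1)) + (q' + 3) * (z + 5)) ≤
            Θ * (O.prod * (Qc + Fc + 4 * Θ + (z + 4) * s3 + 3 * (s3 * s1) +
              (q' + 3) * (z + 5))) := by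
              refine Nat.mul_le_mul_left _ ?_
              have g1 : Qc ≤ O.prod * Qc := Nat.le_mul_of_pos_left _ hOp
              have g2 : Fc * D O ≤ O.prod * Fc := by
                rw [mul_comm]; exact Nat.mul_le_mul_right _ hDO
              have g3 : 4 * (N + 1) ≤ O.prod * (4 * Θ) :=
                (show 4 * (N + 1) ≤ 4 * Θ by omega).trans (Nat.le_mul_of_pos_left _ hOp)
              have g4 : (q' + 3) * (z + 5) ≤ O.prod * ((q' + 3) * (z + 5)) :=
                Nat.le_mul_of_pos_left _ hOp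
              have g5 : O.prod * (Qc + Fc + 4 * Θ + (z + 4) * s3 + 3 * (s3 * s1) +
                (q' + 3) * (z + 5)) = O.prod * Qc + O.prod * Fc + O.prod * (4 * Θ) +
                ((z + 4) * (O.prod * s3) + 3 * (O.prod * s3 * s1)) +
                O.prod * ((q' + 3) * (z + 5)) := by ring
              omega
          _ = O.prod * (Θ * (Qc + Fc + 4 * Θ + (z + 4) * s3 + 3 * (s3 * s1) +
              (q' + 3) * (z + 5))) := by ring
          _ ≤ O.prod * ((q' + 2) * (s3 * (s1 * s2))) := Nat.mul_le_mul_left _ hnum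
          _ = (q' + 2) * P := by rw [hPO]; ring
      have h5 : Θ * (Qc + Fc * D O + b i * (N + 1) + ((z + 4) * (O.prod * s3) +
          3 * (O.prod * s3 * s1)) + (q' + 3) * (z + 5)) + Θ * (4 * (N + 1)) =
          Θ * (Qc + Fc * D O + 4 * (N + 1) + ((z + 4) * (O.prod * s3) +
          3 * (O.prod * s3 * s1)) + (q' + 3) * (z + 5)) + Θ * (b i * (N + 1)) := by ring
      change Θ * (Qc + Fc * D O + b i * (N + 1) + ((z + 4) * (O.prod * s3) +
          3 * (O.prod * s3 * s1)) + (q' + 3) * (z + 5)) ≤ Θ * P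
      omega)
  rw [hr, hP, hD] at key
  refine key.mono ?_
  rw [hP, hΘ]
  -- the loads
  have hid := count_id N nx hnx1 hnx2 b a ee hee (fun j => ha4 _) (fun j c => by
    have h3 : a j c ≤ ∑ c, a j c := Finset.single_le_sum (fun _ _ => Nat.zero_le _)
      (Finset.mem_univ c)
    have h4 := haT j.val
    exact h3.trans (h4.trans hzN))
  have hdel' : ∀ j : Fin (q' + 3), ∑ c, a j c * (a j c - 1) + ee j = e (j.val + 1) := fun j =>
    hdel j.val
  have hprev : ∀ i : Fin (q' + 3), e ((nx.symm i).val + 1) = e i.val := by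
    intro i
    have h3 := hnxval (nx.symm i)
    rw [Equiv.apply_symm_apply] at h3
    rcases Nat.lt_or_ge ((nx.symm i).val + 1) (q' + 3) with h | h
    · rw [Nat.mod_eq_of_lt h] at h3
      rw [h3]
    · have h4 : (nx.symm i).val + 1 = q' + 3 := by
        have := (nx.symm i).2
        omega
      rw [h4, Nat.mod_self] at h3
      rw [h4, h3, heq, he0]
  have hload : ∀ i : Fin (q' + 3), ∑ j, ∑ c, cnt (N + 1) nx a ee i j c + b i * (N + 1) +
      ∑ j ∈ Finset.univ.erase i, b j + e (i.val + 1) = r + N * t i.val + e i.val := by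
    intro i
    have h3 := hid i
    rw [hr, hb, hdel', hdel', hprev] at h3
    exact h3
  have hesum : ∑ i : Fin (q' + 3), e (i.val + 1) = ∑ i : Fin (q' + 3), e i.val := by
    have h1 := Finset.sum_range_succ e (q' + 3)
    have h3 := Finset.sum_range_succ' e (q' + 3)
    rw [h1, heq, he0] at h3
    rw [← Finset.sum_range (fun i => e (i + 1)), ← Finset.sum_range (fun i => e i)]
    omega
  have htsum : ∑ i : Fin (q' + 3), t i.val = r := by rw [← Finset.sum_range, hsum]
  rcases hL with hL | hL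
  · refine (min_le_left _ _).trans ?_
    have h1 : ∀ i : Fin (q' + 3), min P (∑ j, ∑ c, cnt (N + 1) nx a ee i j c + b i * (N + 1) +
      ∑ j ∈ Finset.univ.erase i, b j) + e (i.val + 1) = r + N * t i.val + e i.val := by
      intro i
      have h3 := hload i
      have h4 := hL i.val
      rw [min_eq_right (by omega)]
      exact h3
    have h4 : ∑ i : Fin (q' + 3), min P (∑ j, ∑ c, cnt (N + 1) nx a ee i j c + b i * (N + 1) +
      ∑ j ∈ Finset.univ.erase i, b j) + ∑ i : Fin (q' + 3), e (i.val + 1) =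
        ∑ i : Fin (q' + 3), (r + N * t i.val + e i.val) := by
      rw [← Finset.sum_add_distrib]
      exact Finset.sum_congr rfl fun i _ => h1 i
    rw [Finset.sum_add_distrib, Finset.sum_add_distrib, ← Finset.mul_sum, htsum, hesum,
      Finset.sum_const, Finset.card_univ, Fintype.card_fin, smul_eq_mul] at h4
    have h5 : r * Θ = (q' + 3) * r + N * r := by rw [← hΘ]; ring
    omega
  · refine (min_le_right _ _).trans ?_
    have h1 : ∀ i : Fin (q' + 3), P ≤ min P (∑ j, ∑ c, cnt (N + 1) nx a ee i j c +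
      b i * (N + 1) + ∑ j ∈ Finset.univ.erase i, b j) := by
      intro i
      have h3 := hload i
      have h4 := hL i.val
      refine le_min le_rfl ?_
      omega
    calc (q' + 3) * P = ∑ _i : Fin (q' + 3), P := by simp
      _ ≤ _ := Finset.sum_le_sum fun i _ => h1 i

end Pool.Agent.Lib.MP_635d71_ag
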