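import Mathlib
import Pool.Agent.Lib.MP_635d71_ag.Count

/-!
# Formats with four large factors
-/

open Module Submodule

namespace Pool.Agent.Lib.MP_635d71_ag

variable {K : Type} [Field K]

/-- The room for the special points. -/
theorem big_num (q s1 s2 s3 v Θ Qc Fc : ℕ) (h12 : s1 ≤ s2) (h23 : s2 ≤ s3) (h3q : s3 ≤ q)
    (hs1 : 400 ≤ s1) (hv : 10 * v ≤ s1) (hΘ : 100 * Θ ≤ s1 ^ 2)
    (hQ : Qc ≤ 6 * ((2 * v + 7) * (s1 + s2) + (2 * v + 9) ^ 2) + s3 * (2 * v + 7))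
    (hF : Fc ≤ 6 * (2 * v + 7)) :
    Θ * (Qc + Fc + 4 * Θ + (2 * v + 6) * s3 + 3 * (s3 * s1) + q * (2 * v + 7)) ≤
      (q - 1) * (s3 * (s1 * s2)) := by
  obtain ⟨u, hu⟩ : ∃ u, 2 * v + 9 = u := ⟨_, rfl⟩
  obtain ⟨t, ht⟩ : ∃ t, 2 * v + 7 = t := ⟨_, rfl⟩
  rw [hu, ht] at hQ
  rw [ht] at hF ⊢
  have hu1 : 40 * u ≤ 9 * s1 := by omega
  have ht1 : 40 * t ≤ 9 * s1 := by omega
  have hus : u ≤ q := by omega
  have a1 : 40 * (t * (s1 + s2)) ≤ 18 * (s1 * q) := by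
    calc 40 * (t * (s1 + s2)) = 40 * t * (s1 + s2) := by ring
      _ ≤ 9 * s1 * (2 * q) := Nat.mul_le_mul ht1 (by omega)
      _ = 18 * (s1 * q) := by ring
  have a2 : 40 * u ^ 2 ≤ 9 * (s1 * q) := by
    calc 40 * u ^ 2 = 40 * u * u := by ring
      _ ≤ 9 * s1 * q := Nat.mul_le_mul hu1 hus
      _ = 9 * (s1 * q) := by ring
  have a3 : 40 * (s3 * t) ≤ 9 * (s1 * q) := by
    calc 40 * (s3 * t) = 40 * t * s3 := by ring
      _ ≤ 9 * s1 * q := Nat.mul_le_mul ht1 h3q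
      _ = 9 * (s1 * q) := by ring
  have a4 : 40 * ((2 * v + 6) * s3) ≤ 9 * (s1 * q) := by
    calc 40 * ((2 * v + 6) * s3) = 40 * (2 * v + 6) * s3 := by ring
      _ ≤ 9 * s1 * q := Nat.mul_le_mul (by omega) h3q
      _ = 9 * (s1 * q) := by ring
  have a5 : 40 * (q * t) ≤ 9 * (s1 * q) := by
    calc 40 * (q * t) = 40 * t * q := by ring
      _ ≤ 9 * s1 * q := Nat.mul_le_mul_right _ ht1
      _ = 9 * (s1 * q) := by ring
  have a6 : s3 * s1 ≤ s1 * q := by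
    rw [mul_comm s3]; exact Nat.mul_le_mul_left _ h3q
  have a7 : s1 * 400 ≤ s1 * q := Nat.mul_le_mul_left _ (by omega)
  have a8 : s1 ^ 2 ≤ s1 * q := by
    rw [sq]; exact Nat.mul_le_mul_left _ (by omega)
  have hW : 40 * (Qc + Fc + 4 * Θ + (2 * v + 6) * s3 + 3 * (s3 * s1) + q * t) ≤
      312 * (s1 * q) := by omega
  have h1 : 4000 * (Θ * (Qc + Fc + 4 * Θ + (2 * v + 6) * s3 + 3 * (s3 * s1) + q * t)) ≤
      4000 * ((q - 1) * (s3 * (s1 * s2))) := by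
    calc 4000 * (Θ * (Qc + Fc + 4 * Θ + (2 * v + 6) * s3 + 3 * (s3 * s1) + q * t)) =
        (100 * Θ) * (40 * (Qc + Fc + 4 * Θ + (2 * v + 6) * s3 + 3 * (s3 * s1) + q * t)) := by ring
      _ ≤ s1 ^ 2 * (312 * (s1 * q)) := Nat.mul_le_mul hΘ hW
      _ = 312 * q * (s1 * (s1 * s1)) := by ring
      _ ≤ 4000 * (q - 1) * (s3 * (s1 * s2)) := by
        refine Nat.mul_le_mul (by omega) (Nat.mul_le_mul (by omega) ?_)
        exact Nat.mul_le_mul_left _ h12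
      _ = 4000 * ((q - 1) * (s3 * (s1 * s2))) := by ring
  exact Nat.le_of_mul_le_mul_left h1 (by norm_num)

/-- The base case. -/
theorem big_base [Infinite K] (q s1 s2 s3 v Θ : ℕ) (h12 : s1 ≤ s2) (h23 : s2 ≤ s3) (h3q : s3 ≤ q)
    (hs1 : 400 ≤ s1) (hv : 10 * v ≤ s1) (hΘ : 100 * Θ ≤ s1 ^ 2)
    (hsum : q + s1 + s2 + s3 ≤ Θ + 3) (b : ℕ) (hb : b * Θ ≤ s3 * (s1 * s2) + 4 * Θ) :
    Good K [s3, s1, s2] b (Qmax s3 s1 s2 (2 * v + 7) (4 * v + 16)) := by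
  obtain ⟨g, rfl⟩ : ∃ g, s3 = 6 + g := ⟨s3 - 6, by omega⟩
  obtain ⟨β, hβ⟩ : ∃ β, b / g = β := ⟨_, rfl⟩
  have hgβ : g * β ≤ b := by rw [← hβ]; exact Nat.mul_div_le _ _
  have hΘ0 : 0 < Θ := by omega
  obtain ⟨P12, hP12⟩ : ∃ P, s1 * s2 = P := ⟨_, rfl⟩
  rw [hP12] at hb
  have hΘP : 100 * Θ ≤ P12 := by
    rw [← hP12]
    refine hΘ.trans ?_
    rw [sq]; exact Nat.mul_le_mul_left _ h12
  -- the number of points in a slice
  have hβ1 : 20 * β ≤ 7 * s1 := by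
    by_contra hcon
    push Not at hcon
    have e1 : (7 * s1 + 1) * (g * Θ) ≤ 20 * β * (g * Θ) := Nat.mul_le_mul_right _ hcon
    have e2 : 20 * β * (g * Θ) ≤ 20 * ((6 + g) * P12 + 4 * Θ) := by
      calc 20 * β * (g * Θ) = 20 * (g * β * Θ) := by ring
        _ ≤ 20 * (b * Θ) := Nat.mul_le_mul_left _ (Nat.mul_le_mul_right _ hgβ)
        _ ≤ _ := Nat.mul_le_mul_left _ hb
    have e3 : 3 * P12 ≤ s1 * Θ := by
      calc 3 * P12 = s1 * (3 * s2) := by rw [← hP12]; ring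
        _ ≤ s1 * Θ := Nat.mul_le_mul_left _ (by omega)
    have e4 : 3 * (20 * ((6 + g) * P12 + 4 * Θ)) ≤ (20 * ((6 + g) * s1) + 240) * Θ := by
      calc 3 * (20 * ((6 + g) * P12 + 4 * Θ)) = 20 * (6 + g) * (3 * P12) + 240 * Θ := by ring
        _ ≤ 20 * (6 + g) * (s1 * Θ) + 240 * Θ := Nat.add_le_add_right (Nat.mul_le_mul_left _ e3) _
        _ = (20 * ((6 + g) * s1) + 240) * Θ := by ring
    have e5 : (3 * ((7 * s1 + 1) * g)) * Θ ≤ (20 * ((6 + g) * s1) + 240) * Θ := by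
      calc (3 * ((7 * s1 + 1) * g)) * Θ = 3 * ((7 * s1 + 1) * (g * Θ)) := by ring
        _ ≤ 3 * (20 * ((6 + g) * P12 + 4 * Θ)) := Nat.mul_le_mul_left _ (e1.trans e2)
        _ ≤ _ := e4
    have e6 := Nat.le_of_mul_le_mul_right e5 hΘ0
    have e7 : 3 * ((7 * s1 + 1) * g) = 21 * (s1 * g) + 3 * g := by ring
    have e8 : 20 * ((6 + g) * s1) = 120 * s1 + 20 * (s1 * g) := by ring
    have e9 : s1 * 394 ≤ s1 * g := Nat.mul_le_mul_left _ (by omega)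
    omega
  refine base_num g s1 s2 (2 * v + 7) (4 * v + 16) b (by omega) ?_ ?_ ?_ ?_
  · rw [hβ]; omega
  · rw [hβ]; omega
  · -- the bad slices
    rw [show 4 * v + 16 - (2 * v + 7) = 2 * v + 9 by omega, hP12]
    have e1 : 2 * (b * Θ) ≤ (P12 + 8) * Θ := by
      calc 2 * (b * Θ) ≤ 2 * ((6 + g) * P12 + 4 * Θ) := Nat.mul_le_mul_left _ hb
        _ = (2 * (6 + g)) * P12 + 8 * Θ := by ring
        _ ≤ Θ * P12 + 8 * Θ := Nat.add_le_add_right (Nat.mul_le_mul_right _ (by omega)) _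
        _ = (P12 + 8) * Θ := by ring
    have e2 : 2 * b ≤ P12 + 8 := Nat.le_of_mul_le_mul_right (by
      calc 2 * b * Θ = 2 * (b * Θ) := by ring
        _ ≤ _ := e1) hΘ0
    have e3 : 400 * ((2 * v + 7) * (s1 + s2)) ≤ 174 * P12 := by
      calc 400 * ((2 * v + 7) * (s1 + s2)) = (400 * (2 * v + 7)) * (s1 + s2) := by ring
        _ ≤ (87 * s1) * (2 * s2) := Nat.mul_le_mul (by omega) (by omega)
        _ = 174 * P12 := by rw [← hP12]; ring
    have e4 : 160000 * (2 * v + 9) ^ 2 ≤ 7921 * P12 := by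
      calc 160000 * (2 * v + 9) ^ 2 = (400 * (2 * v + 9)) * (400 * (2 * v + 9)) := by ring
        _ ≤ (89 * s1) * (89 * s2) := Nat.mul_le_mul (by omega) (by omega)
        _ = 7921 * P12 := by rw [← hP12]; ring
    have e5 : 400 * 400 ≤ P12 := by
      rw [← hP12]; exact Nat.mul_le_mul hs1 (by omega)
    omega
  · -- the good slices
    rw [hβ, hP12]
    have e1 : 6 * P12 + 4 * Θ ≤ g * (7 * s2) := by
      have f1 : 6 * P12 ≤ (6 * s1) * s2 := by rw [← hP12]; exact le_of_eq (by ring)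
      have f2 : 4 * Θ ≤ s1 * s2 := by rw [hP12]; omega
      have f3 : (6 * s1) * s2 + s1 * s2 = (7 * s1) * s2 := by ring
      -- `7 s1 ≤ 7 g` may fail, so use more precise bounds
      have f4 : 100 * (4 * Θ) ≤ 4 * (s1 * s2) := by rw [hP12]; omega
      have f5 : 100 * (6 * P12 + 4 * Θ) ≤ (604 * s1) * s2 := by
        have : (604 * s1) * s2 = 100 * ((6 * s1) * s2) + 4 * (s1 * s2) := by ring
        omega
      have f6 : (604 * s1) * s2 ≤ (700 * g) * s2 := Nat.mul_le_mul_right _ (by omega)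
      have f7 : (700 * g) * s2 = 100 * (g * (7 * s2)) := by ring
      omega
    have e2 : Θ * β ≤ P12 + 7 * s2 := by
      have f1 : g * (Θ * β) ≤ g * (P12 + 7 * s2) := by
        calc g * (Θ * β) = g * β * Θ := by ring
          _ ≤ b * Θ := Nat.mul_le_mul_right _ hgβ
          _ ≤ (6 + g) * P12 + 4 * Θ := hb
          _ = g * P12 + (6 * P12 + 4 * Θ) := by ring
          _ ≤ g * P12 + g * (7 * s2) := Nat.add_le_add_left e1 _
          _ = g * (P12 + 7 * s2) := by ring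
      exact Nat.le_of_mul_le_mul_left f1 (by omega)
    have e3 : 400 * (Θ * (2 * v + 7 + s1 + s2 + 5)) ≤ 9 * (P12 * q) := by
      have f1 : 4 * (2 * v + 7 + s1 + s2 + 5) ≤ 9 * s2 := by omega
      calc 400 * (Θ * (2 * v + 7 + s1 + s2 + 5)) =
          (100 * Θ) * (4 * (2 * v + 7 + s1 + s2 + 5)) := by ring
        _ ≤ P12 * (9 * s2) := Nat.mul_le_mul hΘP f1
        _ ≤ P12 * (9 * q) := Nat.mul_le_mul_left _ (by omega)
        _ = 9 * (P12 * q) := by ring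
    have e4 : 400 * (7 * s2 * (s1 + s2 + 2)) ≤ 21 * (P12 * q) := by
      calc 400 * (7 * s2 * (s1 + s2 + 2)) ≤ s1 * (7 * s2 * (3 * q)) :=
            Nat.mul_le_mul hs1 (Nat.mul_le_mul_left _ (by omega))
        _ = 21 * (P12 * q) := by rw [← hP12]; ring
    have e5 : 400 * P12 ≤ P12 * q := by
      rw [mul_comm]; exact Nat.mul_le_mul_left _ (by omega)
    obtain ⟨w, hw⟩ : ∃ w, Θ + 3 = q + s1 + s2 + (6 + g) + w := ⟨Θ + 3 - (q + s1 + s2 + (6 + g)),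
      by omega⟩
    have e6 : (Θ + 3) * P12 = P12 * q + (s1 + s2) * P12 + (6 + g) * P12 + w * P12 := by
      rw [hw]; ring
    refine Nat.le_of_mul_le_mul_left ?_ hΘ0
    calc Θ * (2 * v + 7 + (β + 1) * (s1 + s2) + (2 * β + 1) + b) =
        Θ * (2 * v + 7 + s1 + s2 + 1) + Θ * β * (s1 + s2 + 2) + b * Θ := by ring
      _ ≤ Θ * (2 * v + 7 + s1 + s2 + 1) + (P12 + 7 * s2) * (s1 + s2 + 2) +
          ((6 + g) * P12 + 4 * Θ) :=
        Nat.add_le_add (Nat.add_le_add_left (Nat.mul_le_mul_right _ e2) _) hb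
      _ = Θ * (2 * v + 7 + s1 + s2 + 5) + (s1 + s2) * P12 + 2 * P12 + 7 * s2 * (s1 + s2 + 2) +
          (6 + g) * P12 := by ring
      _ ≤ Θ * P12 := by
        have e7 : (Θ + 3) * P12 = Θ * P12 + 3 * P12 := by ring
        omega

/-- Four large factors, sorted. -/
theorem four_lists [Infinite K] (h2 : (2 : K) ≠ 0) (q s1 s2 s3 Θ : ℕ) (O : List ℕ)
    (hO : ∀ a ∈ O, 1 ≤ a) (h12 : s1 ≤ s2) (h23 : s2 ≤ s3) (h3q : s3 ≤ q)
    (hΘ : D (q :: (O ++ [s3, s1, s2])) = Θ) (hbig : 100 * Θ ≤ s1 ^ 2) (r : ℕ) :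
    Reach K (q :: (O ++ [s3, s1, s2])) r
      (min (r * D (q :: (O ++ [s3, s1, s2]))) (q :: (O ++ [s3, s1, s2])).prod) := by
  refine Reach.all (fun r hr1 hr2 => ?_) r
  rw [hΘ] at hr1 hr2 ⊢
  have hprod : (q :: (O ++ [s3, s1, s2])).prod = q * (O ++ [s3, s1, s2]).prod := by simp
  rw [hprod] at hr1 hr2 ⊢
  have hD1 : D (q :: (O ++ [s3, s1, s2])) = (q - 1) + D (O ++ [s3, s1, s2]) := rfl
  have hD2 := D_append O [s3, s1, s2]
  have hD3 : D [s3, s1, s2] = (s3 - 1) + ((s1 - 1) + ((s2 - 1) + 1)) := rfl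
  have hD4 := one_le_D O
  have hs0 : 1 ≤ s1 := by
    rcases Nat.eq_zero_or_pos s1 with h | h
    · rw [h] at hbig
      have := one_le_D (O ++ [s3, s1, s2])
      omega
    · exact h
  have hsum : q + s1 + s2 + s3 ≤ Θ + 3 := by omega
  have hs1 : 400 ≤ s1 := by
    by_contra hcon
    obtain ⟨x, hx⟩ : ∃ x, s1 = x + 1 := ⟨s1 - 1, by omega⟩
    obtain ⟨y, hy⟩ : ∃ y, 399 = s1 + y := ⟨399 - s1, by omega⟩
    have h3 : s1 ^ 2 + x * y + 399 = 400 * s1 := by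
      have h4 : y = 398 - x := by omega
      obtain ⟨w, hw⟩ : ∃ w, 398 = x + w := ⟨398 - x, by omega⟩
      have h5 : y = w := by omega
      have h6 : (x : ℤ) + w = 398 := by exact_mod_cast hw.symm
      rw [hx, h5]
      zify
      linear_combination (x : ℤ) * h6
    omega
  obtain ⟨v, hv⟩ : ∃ v, Nat.sqrt Θ = v := ⟨_, rfl⟩
  have hv1 : v ^ 2 ≤ Θ := by
    have := Nat.sqrt_le' Θ
    rwa [hv] at this
  have hv2 : Θ < (v + 1) ^ 2 := by
    have := Nat.lt_succ_sqrt' Θ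
    rwa [hv] at this
  have hv3 : 10 * v ≤ s1 := by
    have : (10 * v) ^ 2 ≤ s1 ^ 2 := by
      calc (10 * v) ^ 2 = 100 * v ^ 2 := by ring
        _ ≤ 100 * Θ := Nat.mul_le_mul_left _ hv1
        _ ≤ s1 ^ 2 := hbig
    exact (Nat.pow_le_pow_iff_left (by norm_num)).1 this
  obtain ⟨N, hN⟩ : ∃ N, D (O ++ [s3, s1, s2]) = N + 1 := ⟨D (O ++ [s3, s1, s2]) - 1, by
    have := one_le_D (O ++ [s3, s1, s2]); omega⟩
  have hNΘ : N + q = Θ := by omega
  have hz1 : 2 * v + 2 + 5 = 2 * v + 7 := rfl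
  have hz2 : 2 * (2 * v + 2) + 12 = 4 * v + 16 := by ring
  have hz3 : 2 * v + 2 + 4 = 2 * v + 6 := rfl
  have key := reach_num (K := K) h2 q N (2 * v + 2) s1 s2 s3 O hO (by omega) (by omega) hN (by
      have e1 : (2 * v + 2) ^ 2 = 4 * (v + 1) ^ 2 := by ring
      omega) (by omega) (by omega) (by omega) (by omega) (by
      rw [hNΘ, hz1, hz2, hz3]
      refine big_num q s1 s2 s3 v Θ _ _ h12 h23 h3q hs1 hv3 hbig ?_ ?_
      · have := card_Qmax_le s3 s1 s2 (2 * v + 7) (4 * v + 16)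
        rwa [show 4 * v + 16 - (2 * v + 7) = 2 * v + 9 by omega] at this
      · exact card_Fmax_le s3 s1 s2 (2 * v + 7)) (by
      intro b hb
      rw [hNΘ] at hb
      rw [hz1, hz2]
      exact big_base q s1 s2 s3 v Θ h12 h23 h3q hs1 hv3 hbig hsum b hb) r (by
      rw [hNΘ]; exact hr1) (by
      have hΘ0 : 0 < Θ := by omega
      refine Nat.le_of_mul_le_mul_right ?_ hΘ0
      have hOp : 1 ≤ O.prod := one_le_prod O hO
      have hP : (O ++ [s3, s1, s2]).prod = O.prod * (s3 * (s1 * s2)) := by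
        rw [List.prod_append]; simp
      have e1 : Θ * (2 * v + 11) ≤ (O ++ [s3, s1, s2]).prod := by
        rw [hP]
        have f1 : Θ ≤ s1 * s2 := by
          have : s1 ^ 2 ≤ s1 * s2 := by rw [sq]; exact Nat.mul_le_mul_left _ h12
          omega
        calc Θ * (2 * v + 11) ≤ (s1 * s2) * s3 := Nat.mul_le_mul f1 (by omega)
          _ = 1 * (s3 * (s1 * s2)) := by ring
          _ ≤ O.prod * (s3 * (s1 * s2)) := Nat.mul_le_mul_right _ hOp
      have e2 : q * (Θ * (2 * v + 11)) ≤ r * Θ + Θ := (Nat.mul_le_mul_left _ e1).trans hr2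
      have e3 : q * (Θ * (2 * v + 11)) = q * (2 * v + 2 + 8) * Θ + q * Θ := by ring
      have e4 : 1 * Θ ≤ q * Θ := Nat.mul_le_mul_right _ (by omega)
      omega)
  rw [hNΘ] at key
  exact key

end Pool.Agent.Lib.MP_635d71_ag
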