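import Mathlib
import Pool.Agent.Lib.MP_635d71_ag.BigFour

/-!
# Formats with four large factors, one of them possibly very large
-/

open Module Submodule

namespace Pool.Agent.Lib.MP_635d71_ag

variable {K : Type} [Field K]

/-- The room for the special points. -/
theorem big_num2 (q s1 s2 s3 v N Θ Qc Fc : ℕ) (hΘN : N + q = Θ) (h12 : s1 ≤ s2) (h23 : s2 ≤ s3)
    (h3q : s3 ≤ q) (hs1 : 300 ≤ s1) (hv : 10 * v ≤ s1) (hN : 100 * (N + 1) ≤ s1 ^ 2)
    (hbig : 1000 * (Θ * (2 * v + 11)) ≤ 860 * (s3 * (s1 * s2)))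
    (hQ : Qc ≤ 6 * ((2 * v + 7) * (s1 + s2) + (2 * v + 9) ^ 2) + s3 * (2 * v + 7))
    (hF : Fc ≤ 6 * (2 * v + 7)) :
    Θ * (Qc + Fc + 4 * Θ + (2 * v + 6) * s3 + 3 * (s3 * s1) + q * (2 * v + 7)) ≤
      (q - 1) * (s3 * (s1 * s2)) := by
  obtain ⟨u, hu⟩ : ∃ u, 2 * v + 9 = u := ⟨_, rfl⟩
  obtain ⟨t, ht⟩ : ∃ t, 2 * v + 7 = t := ⟨_, rfl⟩
  obtain ⟨S, hS⟩ : ∃ S, s3 * (s1 * s2) = S := ⟨_, rfl⟩
  rw [hu, ht] at hQ
  rw [ht] at hF
  rw [hS] at hbig
  rw [ht, hS]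
  have hu1 : 100 * u ≤ 23 * s1 := by omega
  have ht1 : 1000 * t ≤ 224 * s1 := by omega
  -- the sum without the terms in `q`
  obtain ⟨W, hW⟩ : ∃ W, Qc + Fc + 4 * N + (2 * v + 6) * s3 + 3 * (s3 * s1) = W := ⟨_, rfl⟩
  have b1 : 1000 * (t * (s1 + s2)) ≤ 448 * (s1 * s3) := by
    calc 1000 * (t * (s1 + s2)) = 1000 * t * (s1 + s2) := by ring
      _ ≤ 224 * s1 * (2 * s3) := Nat.mul_le_mul ht1 (by omega)
      _ = 448 * (s1 * s3) := by ring
  have b2 : 1000 * u ^ 2 ≤ 53 * (s1 * s3) := by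
    have : 10000 * u ^ 2 ≤ 529 * (s1 * s3) := by
      calc 10000 * u ^ 2 = (100 * u) * (100 * u) := by ring
        _ ≤ 23 * s1 * (23 * s3) := Nat.mul_le_mul hu1 (by omega)
        _ = 529 * (s1 * s3) := by ring
    omega
  have b3 : 1000 * (s3 * t) ≤ 224 * (s1 * s3) := by
    calc 1000 * (s3 * t) = 1000 * t * s3 := by ring
      _ ≤ 224 * s1 * s3 := Nat.mul_le_mul_right _ ht1
      _ = 224 * (s1 * s3) := by ring
  have b4 : 1000 * ((2 * v + 6) * s3) ≤ 224 * (s1 * s3) := by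
    calc 1000 * ((2 * v + 6) * s3) = 1000 * (2 * v + 6) * s3 := by ring
      _ ≤ 224 * s1 * s3 := Nat.mul_le_mul_right _ (by omega)
      _ = 224 * (s1 * s3) := by ring
  have b5 : 1000 * (4 * N) ≤ 40 * (s1 * s3) := by
    have : s1 ^ 2 ≤ s1 * s3 := by rw [sq]; exact Nat.mul_le_mul_left _ (by omega)
    omega
  have b6 : s3 * s1 = s1 * s3 := mul_comm _ _
  have b7 : 300 * s1 ≤ s1 * s3 := by
    rw [mul_comm]; exact Nat.mul_le_mul_left _ (by omega)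
  have hW1 : 1000 * W ≤ 6500 * (s1 * s3) := by omega
  -- the large terms
  have c1 : 100 * (N * W) ≤ 65 * (q * S) / 10 := by
    rw [Nat.le_div_iff_mul_le (by norm_num)]
    calc 100 * (N * W) * 10 = (100 * N) * (10 * W) := by ring
      _ ≤ s1 ^ 2 * (65 * (s1 * s3)) := Nat.mul_le_mul (by omega) (by omega)
      _ = 65 * (s1 * (s3 * (s1 * s1))) := by ring
      _ ≤ 65 * (q * (s3 * (s1 * s2))) := by
        refine Nat.mul_le_mul_left _ (Nat.mul_le_mul (by omega) (Nat.mul_le_mul_left _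
          (Nat.mul_le_mul_left _ h12)))
      _ = 65 * (q * S) := by rw [hS]
  have c2 : 300 * (1000 * (q * W)) ≤ 6500 * (q * S) := by
    calc 300 * (1000 * (q * W)) = q * (300 * (1000 * W)) := by ring
      _ ≤ q * (s2 * (6500 * (s1 * s3))) :=
        Nat.mul_le_mul_left _ (Nat.mul_le_mul (by omega) hW1)
      _ = 6500 * (q * S) := by rw [← hS]; ring
  have c3 : 1000 * (q * (Θ * (t + 4))) ≤ 860 * (q * S) := by
    calc 1000 * (q * (Θ * (t + 4))) = q * (1000 * (Θ * (2 * v + 11))) := by rw [← ht]; ring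
      _ ≤ q * (860 * S) := Nat.mul_le_mul_left _ hbig
      _ = 860 * (q * S) := by ring
  have c4 : 300 * S ≤ q * S := Nat.mul_le_mul_right _ (by omega)
  have e1 : Θ * (Qc + Fc + 4 * Θ + (2 * v + 6) * s3 + 3 * (s3 * s1) + q * t) =
      N * W + q * W + q * (Θ * (t + 4)) := by
    rw [← hΘN, ← hW]; ring
  have e2 : (q - 1) * S + S = q * S := by
    obtain ⟨q', rfl⟩ : ∃ q', q = q' + 1 := ⟨q - 1, by omega⟩
    rw [Nat.add_sub_cancel]; ring
  rw [e1]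
  omega

/-- The base case. -/
theorem big_base2 [Infinite K] (s1 s2 s3 v Θ : ℕ) (h12 : s1 ≤ s2) (h23 : s2 ≤ s3)
    (hs1 : 300 ≤ s1) (hv : 10 * v ≤ s1) (hΘ : 50 * Θ ≤ s1 ^ 2)
    (hsum : s1 + s2 + 2 * s3 = Θ + 3) (b : ℕ) (hb : b * Θ ≤ s3 * (s1 * s2) + 4 * Θ) :
    Good K [s3, s1, s2] b (Qmax s3 s1 s2 (2 * v + 7) (4 * v + 16)) := by
  obtain ⟨g, rfl⟩ : ∃ g, s3 = 6 + g := ⟨s3 - 6, by omega⟩
  obtain ⟨β, hβ⟩ : ∃ β, b / g = β := ⟨_, rfl⟩
  have hgβ : g * β ≤ b := by rw [← hβ]; exact Nat.mul_div_le _ _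
  have hΘ0 : 0 < Θ := by omega
  obtain ⟨P12, hP12⟩ : ∃ P, s1 * s2 = P := ⟨_, rfl⟩
  rw [hP12] at hb
  have hΘP : 50 * Θ ≤ P12 := by
    rw [← hP12]
    refine hΘ.trans ?_
    rw [sq]; exact Nat.mul_le_mul_left _ h12
  -- the number of points in a slice
  have hβ1 : 20 * β ≤ 7 * s1 := by
    by_contra hcon
    push Not at hcon
    have e1 : (7 * s1 + 1) * (g * Θ) ≤ 20 * β * (g * Θ) := Nat.mul_le_mul_right _ hcon
    have e2 : 20 * β * (g * Θ) ≤ 20 * ((6 + g) * P12 + 4 * Θ) := by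
      calc 20 * β * (g * Θ) = 20 * (g * β * Θ) := by ring
        _ ≤ 20 * (b * Θ) := Nat.mul_le_mul_left _ (Nat.mul_le_mul_right _ hgβ)
        _ ≤ _ := Nat.mul_le_mul_left _ hb
    have e3 : 3 * P12 ≤ s1 * Θ := by
      calc 3 * P12 = s1 * (3 * s2) := by rw [← hP12]; ring
        _ ≤ s1 * Θ := Nat.mul_le_mul_left _ (by omega)
    have e4 : 3 * (20 * ((6 + g) * P12 + 4 * Θ)) ≤ (20 * ((6 + g) * s1) + 240) * Θ := by
      calc 3 * (20 * ((6 + g) * P12 + 4 * Θ)) = 20 * (6 + g) * (3 * P12) + 240 * Θ := by ring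
        _ ≤ 20 * (6 + g) * (s1 * Θ) + 240 * Θ := Nat.add_le_add_right (Nat.mul_le_mul_left _ e3) _
        _ = (20 * ((6 + g) * s1) + 240) * Θ := by ring
    have e5 : (3 * ((7 * s1 + 1) * g)) * Θ ≤ (20 * ((6 + g) * s1) + 240) * Θ := by
      calc (3 * ((7 * s1 + 1) * g)) * Θ = 3 * ((7 * s1 + 1) * (g * Θ)) := by ring
        _ ≤ 3 * (20 * ((6 + g) * P12 + 4 * Θ)) := Nat.mul_le_mul_left _ (e1.trans e2)
        _ ≤ _ := e4
    have e6 := Nat.le_of_mul_le_mul_right e5 hΘ0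
    have e7 : 3 * ((7 * s1 + 1) * g) = 21 * (s1 * g) + 3 * g := by ring
    have e8 : 20 * ((6 + g) * s1) = 120 * s1 + 20 * (s1 * g) := by ring
    have e9 : s1 * 294 ≤ s1 * g := Nat.mul_le_mul_left _ (by omega)
    omega
  refine base_num g s1 s2 (2 * v + 7) (4 * v + 16) b (by omega) ?_ ?_ ?_ ?_
  · rw [hβ]; omega
  · rw [hβ]; omega
  · -- the bad slices
    rw [show 4 * v + 16 - (2 * v + 7) = 2 * v + 9 by omega, hP12]
    have e1 : 2 * (b * Θ) ≤ (P12 + 8) * Θ := by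
      calc 2 * (b * Θ) ≤ 2 * ((6 + g) * P12 + 4 * Θ) := Nat.mul_le_mul_left _ hb
        _ = (2 * (6 + g)) * P12 + 8 * Θ := by ring
        _ ≤ Θ * P12 + 8 * Θ := Nat.add_le_add_right (Nat.mul_le_mul_right _ (by omega)) _
        _ = (P12 + 8) * Θ := by ring
    have e2 : 2 * b ≤ P12 + 8 := Nat.le_of_mul_le_mul_right (by
      calc 2 * b * Θ = 2 * (b * Θ) := by ring
        _ ≤ _ := e1) hΘ0
    have e3 : 300 * ((2 * v + 7) * (s1 + s2)) ≤ 134 * P12 := by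
      calc 300 * ((2 * v + 7) * (s1 + s2)) = (300 * (2 * v + 7)) * (s1 + s2) := by ring
        _ ≤ (67 * s1) * (2 * s2) := Nat.mul_le_mul (by omega) (by omega)
        _ = 134 * P12 := by rw [← hP12]; ring
    have e4 : 10000 * (2 * v + 9) ^ 2 ≤ 529 * P12 := by
      calc 10000 * (2 * v + 9) ^ 2 = (100 * (2 * v + 9)) * (100 * (2 * v + 9)) := by ring
        _ ≤ (23 * s1) * (23 * s2) := Nat.mul_le_mul (by omega) (by omega)
        _ = 529 * P12 := by rw [← hP12]; ring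
    have e5 : 300 * 300 ≤ P12 := by
      rw [← hP12]; exact Nat.mul_le_mul hs1 (by omega)
    omega
  · -- the good slices
    rw [hβ, hP12]
    have e1 : 6 * P12 + 4 * Θ ≤ g * (7 * s2) := by
      have f1 : 6 * P12 = (6 * s1) * s2 := by rw [← hP12]; ring
      have f2 : 50 * (4 * Θ) ≤ 4 * (s1 * s2) := by rw [hP12]; omega
      have f5 : 50 * (6 * P12 + 4 * Θ) ≤ (304 * s1) * s2 := by
        have : (304 * s1) * s2 = 50 * ((6 * s1) * s2) + 4 * (s1 * s2) := by ring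
        omega
      have f6 : (304 * s1) * s2 ≤ (350 * g) * s2 := Nat.mul_le_mul_right _ (by omega)
      have f7 : (350 * g) * s2 = 50 * (g * (7 * s2)) := by ring
      omega
    have e2 : Θ * β ≤ P12 + 7 * s2 := by
      have f1 : g * (Θ * β) ≤ g * (P12 + 7 * s2) := by
        calc g * (Θ * β) = g * β * Θ := by ring
          _ ≤ b * Θ := Nat.mul_le_mul_right _ hgβ
          _ ≤ (6 + g) * P12 + 4 * Θ := hb
          _ = g * P12 + (6 * P12 + 4 * Θ) := by ring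
          _ ≤ g * P12 + g * (7 * s2) := Nat.add_le_add_left e1 _
          _ = g * (P12 + 7 * s2) := by ring
      exact Nat.le_of_mul_le_mul_left f1 (by omega)
    obtain ⟨q, hq⟩ : ∃ q, 6 + g = q := ⟨_, rfl⟩
    have e3 : 200 * (Θ * (2 * v + 7 + s1 + s2 + 5)) ≤ 9 * (P12 * q) := by
      have f1 : 4 * (2 * v + 7 + s1 + s2 + 5) ≤ 9 * s2 := by omega
      calc 200 * (Θ * (2 * v + 7 + s1 + s2 + 5)) =
          (50 * Θ) * (4 * (2 * v + 7 + s1 + s2 + 5)) := by ring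
        _ ≤ P12 * (9 * s2) := Nat.mul_le_mul hΘP f1
        _ ≤ P12 * (9 * q) := Nat.mul_le_mul_left _ (by omega)
        _ = 9 * (P12 * q) := by ring
    have e4 : 300 * (7 * s2 * (s1 + s2 + 2)) ≤ 21 * (P12 * q) := by
      calc 300 * (7 * s2 * (s1 + s2 + 2)) ≤ s1 * (7 * s2 * (3 * q)) :=
            Nat.mul_le_mul hs1 (Nat.mul_le_mul_left _ (by omega))
        _ = 21 * (P12 * q) := by rw [← hP12]; ring
    have e5 : 300 * P12 ≤ P12 * q := by
      rw [mul_comm]; exact Nat.mul_le_mul_left _ (by omega)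
    have e6 : (Θ + 3) * P12 = P12 * q + (s1 + s2) * P12 + (6 + g) * P12 := by
      rw [← hsum, ← hq]; ring
    refine Nat.le_of_mul_le_mul_left ?_ hΘ0
    calc Θ * (2 * v + 7 + (β + 1) * (s1 + s2) + (2 * β + 1) + b) =
        Θ * (2 * v + 7 + s1 + s2 + 1) + Θ * β * (s1 + s2 + 2) + b * Θ := by ring
      _ ≤ Θ * (2 * v + 7 + s1 + s2 + 1) + (P12 + 7 * s2) * (s1 + s2 + 2) +
          ((6 + g) * P12 + 4 * Θ) :=
        Nat.add_le_add (Nat.add_le_add_left (Nat.mul_le_mul_right _ e2) _) hb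
      _ = Θ * (2 * v + 7 + s1 + s2 + 5) + (s1 + s2) * P12 + 2 * P12 + 7 * s2 * (s1 + s2 + 2) +
          (6 + g) * P12 := by ring
      _ ≤ Θ * P12 := by
        have e7 : (Θ + 3) * P12 = Θ * P12 + 3 * P12 := by ring
        omega

end Pool.Agent.Lib.MP_635d71_ag
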