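import Mathlib
import Pool.Agent.Lib.MP_635d71_ag.Point
import Pool.Agent.Lib.MP_635d71_ag.Main
import Pool.Agent.Lib.MP_635d71_ag.Defs

/-!
# Permutation of the factors; from lists to families
-/

open Module Submodule

namespace Pool.Agent.Lib.MP_635d71_ag

section perm

variable {K : Type} [Field K]

/-- The two formats differ by a permutation of the factors. -/
def Equ (K : Type) [Field K] (L L' : List ℕ) : Prop :=
  ∃ (e : Grid L ≃ Grid L') (φ : (Coord L → K) → (Coord L' → K)), ∀ x,
    (∀ g, E L' (φ x) (e g) = E L x g) ∧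
      ∀ f ∈ T L x, (fun g => f (e.symm g)) ∈ T L' (φ x)

theorem Equ.refl (L : List ℕ) : Equ K L L :=
  ⟨Equiv.refl _, id, fun _ => ⟨fun _ => rfl, fun _ hf => hf⟩⟩

theorem Equ.trans {L L' L'' : List ℕ} (h : Equ K L L') (h' : Equ K L' L'') : Equ K L L'' := by
  obtain ⟨e, φ, h1⟩ := h
  obtain ⟨e', φ', h2⟩ := h'
  refine ⟨e.trans e', fun x => φ' (φ x), fun x => ⟨fun g => ?_, fun f hf => ?_⟩⟩
  · rw [Equiv.trans_apply, (h2 (φ x)).1, (h1 x).1]
  · exact (h2 (φ x)).2 _ ((h1 x).2 f hf)

theorem mem_T_of_gen {L L' : List ℕ} (e : Grid L ≃ Grid L') (x : Coord L → K) (y : Coord L' → K)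
    (h : ∀ i, (fun g => TVec L x i (e.symm g)) ∈ T L' y) :
    ∀ f ∈ T L x, (fun g => f (e.symm g)) ∈ T L' y := by
  intro f hf
  have h1 : T L x ≤ (T L' y).comap (LinearMap.funLeft K K e.symm) := by
    rw [T, span_le]
    rintro _ ⟨i, rfl⟩
    exact h i
  exact h1 hf

theorem Equ.cons {L L' : List ℕ} (q : ℕ) (h : Equ K L L') : Equ K (q :: L) (q :: L') := by
  obtain ⟨e, φ, h1⟩ := h
  refine ⟨(Equiv.prodCongr (Equiv.refl (Fin q)) e : Fin q × Grid L ≃ Fin q × Grid L'),
    fun x => MP_635d71_ag.cons (hd x) (φ (tl x)), fun x => ⟨?_, mem_T_of_gen _ _ _ ?_⟩⟩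
  · rintro ⟨j, g⟩
    change hd x j * E L' (φ (tl x)) (e g) = hd x j * E L (tl x) g
    rw [(h1 (tl x)).1]
  · rintro (i | j)
    · exact ten_mem_T (MP_635d71_ag.cons (hd x) (φ (tl x)))
        ((h1 (tl x)).2 (TVec L (tl x) i) (subset_span ⟨i, rfl⟩))
    · have h2 : (fun g : Grid (q :: L') => TVec (q :: L) x (Sum.inr j)
          ((Equiv.prodCongr (Equiv.refl (Fin q)) e : Fin q × Grid L ≃ Fin q × Grid L').symm g)) =
          ten (Pi.single j 1) (E L' (φ (tl x))) := by
        ext ⟨j', g⟩
        change (Pi.single j (1 : K) : Fin q → K) j' * E L (tl x) (e.symm g) =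
          (Pi.single j (1 : K) : Fin q → K) j' * E L' (φ (tl x)) g
        rw [← (h1 (tl x)).1, Equiv.apply_symm_apply]
      rw [h2]
      exact ten_E_mem_T (MP_635d71_ag.cons (hd x) (φ (tl x))) (Pi.single j 1)

/-- Exchange of the first two factors. -/
def swapE (a b : ℕ) (L : List ℕ) : Grid (a :: b :: L) ≃ Grid (b :: a :: L) where
  toFun := fun g => (g.2.1, g.1, g.2.2)
  invFun := fun g => (g.2.1, g.1, g.2.2)
  left_inv := fun _ => rfl
  right_inv := fun _ => rfl

theorem ten_ten_symm {a b : ℕ} {L : List ℕ} (u : Fin a → K) (v : Fin b → K) (f : Grid L → K) :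
    (fun g => (ten u (ten v f) : Grid (a :: b :: L) → K) ((swapE a b L).symm g)) =
      ten v (ten u f) := by
  ext ⟨i, j, g⟩
  change u j * (v i * f g) = v i * (u j * f g)
  ring

theorem Equ.swap (a b : ℕ) (L : List ℕ) : Equ K (a :: b :: L) (b :: a :: L) := by
  refine ⟨swapE a b L, fun x => MP_635d71_ag.cons (hd (tl x)) (MP_635d71_ag.cons (hd x) (tl (tl x))),
    fun x => ⟨?_, mem_T_of_gen _ _ _ ?_⟩⟩
  · rintro ⟨i, j, g⟩
    change hd (tl x) j * (hd x i * E L (tl (tl x)) g) = hd x i * (hd (tl x) j * E L (tl (tl x)) g)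
    ring
  · rintro ((i | j) | j)
    · have h := ten_ten_symm (hd x) (hd (tl x)) (TVec L (tl (tl x)) i)
      change (fun g => (ten (hd x) (ten (hd (tl x)) (TVec L (tl (tl x)) i)) : Grid (a :: b :: L) → K)
        ((swapE a b L).symm g)) ∈ _
      rw [h]
      exact ten_mem_T (MP_635d71_ag.cons (hd (tl x)) (MP_635d71_ag.cons (hd x) (tl (tl x))))
        (ten_mem_T (MP_635d71_ag.cons (hd x) (tl (tl x))) (subset_span ⟨i, rfl⟩))
    · have h := ten_ten_symm (hd x) (Pi.single j (1 : K) : Fin b → K) (E L (tl (tl x)))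
      change (fun g => (ten (hd x) (ten (Pi.single j (1 : K) : Fin b → K) (E L (tl (tl x)))) :
        Grid (a :: b :: L) → K) ((swapE a b L).symm g)) ∈ _
      rw [h]
      exact ten_E_mem_T (MP_635d71_ag.cons (hd (tl x)) (MP_635d71_ag.cons (hd x) (tl (tl x)))) _
    · have h := ten_ten_symm (Pi.single j (1 : K) : Fin a → K) (hd (tl x)) (E L (tl (tl x)))
      change (fun g => (ten (Pi.single j (1 : K) : Fin a → K) (ten (hd (tl x)) (E L (tl (tl x)))) :
        Grid (a :: b :: L) → K) ((swapE a b L).symm g)) ∈ _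
      rw [h]
      exact ten_mem_T (MP_635d71_ag.cons (hd (tl x)) (MP_635d71_ag.cons (hd x) (tl (tl x))))
        (ten_E_mem_T (MP_635d71_ag.cons (hd x) (tl (tl x))) (Pi.single j 1))

theorem Equ.of_perm {L L' : List ℕ} (h : L.Perm L') : Equ K L L' := by
  induction h with
  | nil => exact Equ.refl _
  | cons q _ ih => exact ih.cons q
  | swap a b L => exact Equ.swap b a L
  | trans _ _ ih1 ih2 => exact ih1.trans ih2

theorem Reach.of_equ {L L' : List ℕ} (h : Equ K L L') {r s : ℕ} (hr : Reach K L r s) :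
    Reach K L' r s := by
  obtain ⟨e, φ, h1⟩ := h
  obtain ⟨x, hx⟩ := hr
  refine ⟨fun a => φ (x a), hx.trans ?_⟩
  let Φ := LinearEquiv.funCongrLeft K K e.symm
  have h2 : (⨆ a, T L (x a)).map Φ.toLinearMap ≤ ⨆ a, T L' (φ (x a)) := by
    rw [Submodule.map_iSup]
    refine iSup_mono fun a => ?_
    rintro _ ⟨f, hf, rfl⟩
    exact (h1 (x a)).2 f hf
  rw [← LinearEquiv.finrank_map_eq Φ (⨆ a, T L (x a))]
  exact Submodule.finrank_mono h2

end perm

section lists

/-- The list of sizes of a family. -/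
def lst : ∀ {k : ℕ}, (Fin k → ℕ) → List ℕ
  | 0, _ => []
  | _ + 1, d => (d 0 + 1) :: lst fun i => d i.succ

theorem lst_eq : ∀ {k : ℕ} (d : Fin k → ℕ), lst d = List.ofFn fun i => d i + 1
  | 0, d => by simp [lst]
  | k + 1, d => by rw [lst, lst_eq, List.ofFn_succ]

theorem D_lst : ∀ {k : ℕ} (d : Fin k → ℕ), D (lst d) = ∑ i, d i + 1
  | 0, d => by simp [lst, D]
  | k + 1, d => by rw [lst, D, D_lst, Fin.sum_univ_succ]; omega

theorem prod_lst {k : ℕ} (d : Fin k → ℕ) : (lst d).prod = ∏ i, (d i + 1) := by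
  rw [lst_eq, List.prod_ofFn]

/-- From a tuple to a family of vectors. -/
def toVecs : ∀ {k : ℕ} (d : Fin k → ℕ), (Coord (lst d) → ℂ) → Vecs d
  | 0, _, _ => fun i => i.elim0
  | _ + 1, d, x => Fin.cons (α := fun i => Fin (d i + 1) → ℂ) (hd x) (toVecs (fun i => d i.succ) (tl x))

/-- From multi-indices to the grid. -/
def toGrid : ∀ {k : ℕ} (d : Fin k → ℕ), Idx d → Grid (lst d)
  | 0, _, _ => ()
  | _ + 1, d, a => (a 0, toGrid (fun i => d i.succ) fun i => a i.succ)

theorem toGrid_surjective : ∀ {k : ℕ} (d : Fin k → ℕ), Function.Surjective (toGrid d)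
  | 0, d => fun _ => ⟨fun i => i.elim0, rfl⟩
  | k + 1, d => by
    rintro ⟨j, g⟩
    obtain ⟨a, ha⟩ := toGrid_surjective (fun i => d i.succ) g
    refine ⟨Fin.cons (α := fun i => Fin (d i + 1)) j a, ?_⟩
    rw [toGrid]
    exact Prod.ext_iff.2 ⟨rfl, ha⟩

theorem E_toGrid : ∀ {k : ℕ} (d : Fin k → ℕ) (x : Coord (lst d) → ℂ) (a : Idx d),
    E (lst d) x (toGrid d a) = rankOne (toVecs d x) a
  | 0, d, x, a => by simp [rankOne, lst, toGrid, E]
  | k + 1, d, x, a => by
    rw [rankOne, Fin.prod_univ_succ]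
    change hd x (a 0) * E (lst fun i => d i.succ) (tl x) (toGrid (fun i => d i.succ)
      fun i => a i.succ) = _
    rw [E_toGrid]
    rfl

theorem T_toGrid : ∀ {k : ℕ} (d : Fin k → ℕ) (x : Coord (lst d) → ℂ), ∀ f ∈ T (lst d) x,
    (fun a => f (toGrid d a)) ∈ tangent (toVecs d x) ⊔ span ℂ {rankOne (toVecs d x)}
  | 0, d, x, f, hf => by
    refine mem_sup_right (mem_span_singleton.2 ⟨f (), ?_⟩)
    ext a
    simp [rankOne, toGrid]
  | k + 1, d, x, f, hf => by
    have h1 : T (lst d) x ≤ (tangent (toVecs d x) ⊔ span ℂ {rankOne (toVecs d x)}).comap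
        (LinearMap.funLeft ℂ ℂ (toGrid d)) := by
      rw [T, span_le]
      rintro _ ⟨i | j, rfl⟩
      · have h2 := T_toGrid (fun i => d i.succ) (tl x) (TVec (lst fun i => d i.succ) (tl x) i)
          (subset_span ⟨i, rfl⟩)
        -- tensor with the first vector
        let Λ : (Idx (fun i : Fin k => d i.succ) → ℂ) →ₗ[ℂ] (Idx d → ℂ) :=
          { toFun := fun g a => hd x (a 0) * g fun i => a i.succ
            map_add' := fun g g' => by ext a; simp [mul_add]
            map_smul' := fun c g => by ext a; simp [mul_left_comm] }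
        have h3 : (tangent (toVecs (fun i => d i.succ) (tl x)) ⊔
            span ℂ {rankOne (toVecs (fun i => d i.succ) (tl x))}).map Λ ≤
            tangent (toVecs d x) ⊔ span ℂ {rankOne (toVecs d x)} := by
          rw [Submodule.map_sup]
          refine sup_le_sup ?_ ?_
          · rw [tangent, Submodule.map_span_le]
            rintro _ ⟨i, w, rfl⟩
            refine subset_span ⟨i.succ, w, ?_⟩
            ext a
            rw [rankOne, Fin.prod_univ_succ]
            change hd x (a 0) * rankOne (Function.update (toVecs (fun i => d i.succ) (tl x)) i w)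
              (fun i => a i.succ) = _
            have h4 : Function.update (toVecs d x) i.succ w 0 = hd x := by
              rw [Function.update_of_ne (Fin.succ_ne_zero i).symm]; rfl
            rw [h4, rankOne]
            congr 1
            refine Finset.prod_congr rfl fun i' _ => ?_
            by_cases hi : i' = i
            · subst hi; simp
            · rw [Function.update_of_ne hi, Function.update_of_ne (fun h => hi (Fin.succ_injective _ h))]
              rfl
          · rw [Submodule.map_span_le]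
            rintro _ rfl
            refine mem_span_singleton.2 ⟨1, ?_⟩
            rw [one_smul]
            ext a
            rw [rankOne, Fin.prod_univ_succ]
            rfl
        exact h3 ⟨_, h2, rfl⟩
      · refine mem_sup_left (subset_span ⟨0, Pi.single j 1, ?_⟩)
        ext a
        rw [rankOne, Fin.prod_univ_succ]
        change (Pi.single j (1 : ℂ) : Fin (d 0 + 1) → ℂ) (a 0) *
          E (lst fun i => d i.succ) (tl x) (toGrid (fun i => d i.succ) fun i => a i.succ) = _
        rw [E_toGrid, Function.update_self, rankOne]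
        congr 1
    exact h1 hf

/-- Conversion of the lower bound to families. -/
theorem exists_vecs {k : ℕ} (hk : 1 ≤ k) (d : Fin k → ℕ) {r s : ℕ} (h : Reach ℂ (lst d) r s) :
    ∃ x : Fin r → Vecs d, s ≤ finrank ℂ (⨆ j, tangent (x j) : Submodule ℂ (Idx d → ℂ)) := by
  obtain ⟨x, hx⟩ := h
  refine ⟨fun a => toVecs d (x a), hx.trans ?_⟩
  have h1 : ∀ y : Vecs d, rankOne y ∈ tangent y := by
    intro y
    refine subset_span ⟨⟨0, hk⟩, y ⟨0, hk⟩, ?_⟩
    rw [Function.update_eq_self]
  let Φ : (Grid (lst d) → ℂ) →ₗ[ℂ] (Idx d → ℂ) := LinearMap.funLeft ℂ ℂ (toGrid d)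
  have hinj : Function.Injective Φ := LinearMap.funLeft_injective_of_surjective _ _ _
    (toGrid_surjective d)
  have h2 : (⨆ a, T (lst d) (x a)).map Φ ≤ ⨆ a, tangent (toVecs d (x a)) := by
    rw [Submodule.map_iSup]
    refine iSup_mono fun a => ?_
    rintro _ ⟨f, hf, rfl⟩
    have h3 := T_toGrid d (x a) f hf
    have h4 : tangent (toVecs d (x a)) ⊔ span ℂ {rankOne (toVecs d (x a))} ≤
        tangent (toVecs d (x a)) := by
      refine sup_le le_rfl ?_
      rw [span_le]
      rintro _ rfl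
      exact h1 _
    exact h4 h3
  rw [(Submodule.equivMapOfInjective Φ hinj (⨆ a, T (lst d) (x a))).finrank_eq]
  exact Submodule.finrank_mono h2

end lists

end Pool.Agent.Lib.MP_635d71_ag
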