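import Mathlib
import Pool.Agent.Lib.MP_635d71_ag.AllR
import Pool.Agent.Lib.MP_635d71_ag.Transfer
import Pool.Agent.Lib.MP_635d71_ag.AGUpper
import Pool.Agent.Lib.MP_635d71_ag.AGLower

/-!
# The criterion for families
-/

open Module

namespace Pool.Agent.Lib.MP_635d71_ag

/-- The general criterion. -/
theorem nondefective {k : ℕ} (d : Fin k → ℕ) (hd : ∀ i, 1 ≤ d i) (n : ℕ) (F Z : Finset (Fin k))
    (hFZ : Disjoint F Z) (hF : 5 ≤ F.card) (hFn : ∀ i ∈ F, d i ≤ n)
    (h1 : (∑ i ∈ Z, d i + 1) ^ 2 + n ≤ ∑ i, d i + 1)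
    (h2 : (∑ i, d i + 1) * (7 * (∑ i, d i + 1) + 9 +
      2 * (n + 1) ^ 5 * (∑ i, d i + 1) ^ 2 * (∑ i ∈ Z, d i + 1)) ≤ ∏ i ∈ Z, (d i + 1)) (r : ℕ) :
    coneDim d r = ((min (r * (∑ i, d i + 1)) (∏ i, (d i + 1)) : ℕ) : Cardinal) := by
  classical
  refine le_antisymm (coneDim_le d r) ?_
  have hk : 1 ≤ k := by
    rcases k with _ | k
    · have : F.card ≤ 0 := (Finset.card_le_univ F).trans (by simp)
      omega
    · omega
  obtain ⟨F5, hF5, hF5c⟩ := Finset.exists_subset_card_eq hF
  have hl5 : F5.toList.length = 5 := by rw [Finset.length_toList, hF5c]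
  obtain ⟨i0, i1, i2, i3, i4, hl5e⟩ : ∃ i0 i1 i2 i3 i4, F5.toList = [i0, i1, i2, i3, i4] := by
    match hm : F5.toList, hl5 with
    | [i0, i1, i2, i3, i4], _ => exact ⟨i0, i1, i2, i3, i4, rfl⟩
  have hmem : ∀ i ∈ F5.toList, d i ≤ n := fun i hi => hFn i (hF5 (Finset.mem_toList.1 hi))
  rw [hl5e] at hmem
  let rest := (Finset.univ \ (F5 ∪ Z)).toList
  have hperm : (List.finRange k).Perm (F5.toList ++ (rest ++ Z.toList)) := by
    rw [List.perm_ext_iff_of_nodup (List.nodup_finRange k)]
    · intro i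
      simp only [List.mem_finRange, List.mem_append, Finset.mem_toList, rest, Finset.mem_sdiff,
        Finset.mem_univ, Finset.mem_union, true_and, true_iff]
      tauto
    · rw [List.nodup_append]
      refine ⟨Finset.nodup_toList _, ?_, ?_⟩
      · rw [List.nodup_append]
        refine ⟨Finset.nodup_toList _, Finset.nodup_toList _, ?_⟩
        intro a ha b hb hab
        subst hab
        simp only [rest, Finset.mem_toList, Finset.mem_sdiff, Finset.mem_univ, Finset.mem_union,
          true_and, not_or] at ha hb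
        exact ha.2 hb
      · intro a ha b hb hab
        subst hab
        simp only [rest, Finset.mem_toList, Finset.mem_sdiff, Finset.mem_univ, Finset.mem_union,
          true_and, not_or, List.mem_append] at ha hb
        rcases hb with hb | hb
        · exact hb.1 ha
        · exact (Finset.disjoint_left.1 hFZ (hF5 ha)) hb
  let g : Fin k → ℕ := fun i => d i + 1
  have hperm2 : ((F5.toList ++ (rest ++ Z.toList)).map g).Perm (lst d) := by
    rw [lst_eq, List.ofFn_eq_map]
    exact (hperm.map g).symm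
  set L := (F5.toList ++ (rest ++ Z.toList)).map g with hLdef
  have hLe : L = (d i0 + 1) :: (d i1 - 1 + 2) :: (d i2 - 1 + 2) :: (d i3 - 1 + 2) ::
      (d i4 - 1 + 2) :: (rest.map g ++ Z.toList.map g) := by
    rw [hLdef, hl5e]
    have e1 := hd i1
    have e2 := hd i2
    have e3 := hd i3
    have e4 := hd i4
    have f1 : g i1 = d i1 - 1 + 2 := by simp only [g]; omega
    have f2 : g i2 = d i2 - 1 + 2 := by simp only [g]; omega
    have f3 : g i3 = d i3 - 1 + 2 := by simp only [g]; omega
    have f4 : g i4 = d i4 - 1 + 2 := by simp only [g]; omega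
    simp only [List.cons_append, List.nil_append, List.map_cons, List.map_append, f1, f2, f3, f4]
    rfl
  have hDL : D L = ∑ i, d i + 1 := by rw [D_perm hperm2, D_lst]
  have hpL : L.prod = ∏ i, (d i + 1) := by rw [hperm2.prod_eq, prod_lst]
  have hDz : D (Z.toList.map g) = ∑ i ∈ Z, d i + 1 := by
    rw [D_map d, Finset.sum_map_toList]
  have hpz : (Z.toList.map g).prod = ∏ i ∈ Z, (d i + 1) := by
    rw [Finset.prod_map_toList]
  have g0 := hmem i0 (by simp)
  have g1 := hmem i1 (by simp)
  have g2 := hmem i2 (by simp)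
  have g3 := hmem i3 (by simp)
  have g4 := hmem i4 (by simp)
  have e0 := hd i0
  have e1 := hd i1
  have e2 := hd i2
  have e3 := hd i3
  have e4 := hd i4
  have key : Reach ℂ L r (min (r * D L) L.prod) :=
    main_lists n (d i0 + 1) (d i1 - 1) (d i2 - 1) (d i3 - 1) (d i4 - 1) (rest.map g)
      (Z.toList.map g) (by omega) (by omega) (by omega) (by omega) (by omega) (by omega)
      (by
        intro a ha
        obtain ⟨i, _, rfl⟩ := List.mem_map.1 ha
        simp [g]) L hLe (by rw [hDz, hDL]; exact h1) (by rw [hDz, hDL, hpz]; exact h2) r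
  have key2 := key.of_equ (Equ.of_perm hperm2)
  rw [hDL, hpL] at key2
  obtain ⟨x, hx⟩ := exists_vecs hk d key2
  refine le_trans ?_ (le_coneDim x)
  exact_mod_cast hx

end Pool.Agent.Lib.MP_635d71_ag
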