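import Mathlib
import Pool.Agent.Lib.MP_635d71_ag.Final

/-!
# Corollaries of the criterion
-/

open Module

namespace Pool.Agent.Lib.MP_635d71_ag

/-- The criterion with the same bounds for all the special factors. -/
theorem nondefective_of_card {k : ℕ} (d : Fin k → ℕ) (hd : ∀ i, 1 ≤ d i) (n lo m : ℕ)
    (S : Finset (Fin k)) (hS : m + 5 ≤ S.card) (hlo : ∀ i ∈ S, lo ≤ d i) (hn : ∀ i ∈ S, d i ≤ n)
    (h1 : (n * m + 1) ^ 2 + n ≤ ∑ i, d i + 1)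
    (h2 : (∑ i, d i + 1) * (7 * (∑ i, d i + 1) + 9 +
      2 * (n + 1) ^ 5 * (∑ i, d i + 1) ^ 2 * (n * m + 1)) ≤ (lo + 1) ^ m) (r : ℕ) :
    coneDim d r = ((min (r * (∑ i, d i + 1)) (∏ i, (d i + 1)) : ℕ) : Cardinal) := by
  classical
  obtain ⟨F, hF, hFc⟩ := Finset.exists_subset_card_eq (show 5 ≤ S.card by omega)
  have h3 : m ≤ (S \ F).card := by
    rw [Finset.card_sdiff_of_subset hF]
    omega
  obtain ⟨Z, hZ, hZc⟩ := Finset.exists_subset_card_eq h3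
  have hZS : ∀ i ∈ Z, i ∈ S := fun i hi => (Finset.mem_sdiff.1 (hZ hi)).1
  have hsum : ∑ i ∈ Z, d i ≤ n * m := by
    refine (Finset.sum_le_card_nsmul Z d n fun i hi => hn i (hZS i hi)).trans ?_
    rw [hZc, smul_eq_mul, mul_comm]
  have hprod : (lo + 1) ^ m ≤ ∏ i ∈ Z, (d i + 1) := by
    rw [← hZc]
    exact Finset.pow_card_le_prod Z _ _ fun i hi => by have := hlo i (hZS i hi); omega
  refine nondefective d hd n F Z ?_ hFc.ge (fun i hi => hn i (hF hi)) ?_ ?_ r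
  · rw [Finset.disjoint_left]
    intro i hi hi'
    exact (Finset.mem_sdiff.1 (hZ hi')).2 hi
  · refine le_trans (Nat.add_le_add_right (Nat.pow_le_pow_left (by omega) 2) n) h1
  · refine le_trans (Nat.mul_le_mul_left _ (Nat.add_le_add_left (Nat.mul_le_mul_left _ (by omega)) _))
      (h2.trans hprod)

/-- The final estimate. -/
theorem final_est (B D w M : ℕ) (hB : 1 ≤ B) (hD : 16 ≤ D) (hw : 1 ≤ w)
    (h : 3 * B ^ 5 * D ^ 3 * w ≤ M) : D * (7 * D + 9 + 2 * B ^ 5 * D ^ 2 * w) ≤ M := by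
  refine le_trans ?_ h
  have h1 : 7 * D + 9 ≤ D ^ 2 := by nlinarith
  have h2 : D ^ 2 * 1 ≤ D ^ 2 * (B ^ 5 * w) :=
    Nat.mul_le_mul_left _ (Nat.mul_pos (Nat.pow_pos hB) hw)
  calc D * (7 * D + 9 + 2 * B ^ 5 * D ^ 2 * w) ≤ D * (D ^ 2 * (B ^ 5 * w) + 2 * B ^ 5 * D ^ 2 * w) :=
        Nat.mul_le_mul_left _ (by omega)
    _ = 3 * B ^ 5 * D ^ 3 * w := by ring

theorem num1 (s : ℕ) (hs : 56 ≤ s) : 3 * (s + 1) ^ 7 * 2 ^ 12 ≤ 2 ^ (s - 1) := by
  induction s, hs using Nat.le_induction with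
  | base => norm_num
  | succ s hs ih =>
    have h1 : (s + 1 + 1) ^ 7 ≤ 2 * (s + 1) ^ 7 := by
      have h2 : 57 * (s + 1 + 1) ≤ 58 * (s + 1) := by omega
      have h3 := Nat.pow_le_pow_left h2 7
      rw [mul_pow, mul_pow] at h3
      have h4 : 58 ^ 7 * (s + 1) ^ 7 ≤ 57 ^ 7 * (2 * (s + 1) ^ 7) := by
        have : 58 ^ 7 ≤ 57 ^ 7 * 2 := by norm_num
        calc 58 ^ 7 * (s + 1) ^ 7 ≤ (57 ^ 7 * 2) * (s + 1) ^ 7 := Nat.mul_le_mul_right _ this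
          _ = _ := by ring
      exact Nat.le_of_mul_le_mul_left (h3.trans h4) (by norm_num)
    have h5 : 2 ^ (s + 1 - 1) = 2 * 2 ^ (s - 1) := by
      rw [← pow_succ']
      congr 1; omega
    rw [h5]
    calc 3 * (s + 1 + 1) ^ 7 * 2 ^ 12 ≤ 3 * (2 * (s + 1) ^ 7) * 2 ^ 12 :=
          Nat.mul_le_mul_right _ (Nat.mul_le_mul_left _ h1)
      _ = 2 * (3 * (s + 1) ^ 7 * 2 ^ 12) := by ring
      _ ≤ _ := Nat.mul_le_mul_left _ ih

theorem num2 (s : ℕ) (hs : 60 ≤ s) : (3 * (s + 1) ^ 7) ^ 4 ≤ 2 ^ (3 * s - 4) := by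
  induction s, hs using Nat.le_induction with
  | base => norm_num
  | succ s hs ih =>
    have h1 : (s + 1 + 1) ^ 28 ≤ 8 * (s + 1) ^ 28 := by
      have h2 : 61 * (s + 1 + 1) ≤ 62 * (s + 1) := by omega
      have h3 := Nat.pow_le_pow_left h2 28
      rw [mul_pow, mul_pow] at h3
      have h4 : 62 ^ 28 * (s + 1) ^ 28 ≤ 61 ^ 28 * (8 * (s + 1) ^ 28) := by
        have : 62 ^ 28 ≤ 61 ^ 28 * 8 := by norm_num
        calc 62 ^ 28 * (s + 1) ^ 28 ≤ (61 ^ 28 * 8) * (s + 1) ^ 28 := Nat.mul_le_mul_right _ this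
          _ = _ := by ring
      exact Nat.le_of_mul_le_mul_left (h3.trans h4) (by norm_num)
    have h5 : 2 ^ (3 * (s + 1) - 4) = 8 * 2 ^ (3 * s - 4) := by
      have : 3 * (s + 1) - 4 = 3 + (3 * s - 4) := by omega
      rw [this, pow_add]; norm_num
    rw [h5]
    calc (3 * (s + 1 + 1) ^ 7) ^ 4 = 3 ^ 4 * (s + 1 + 1) ^ 28 := by ring
      _ ≤ 3 ^ 4 * (8 * (s + 1) ^ 28) := Nat.mul_le_mul_left _ h1
      _ = 8 * (3 * (s + 1) ^ 7) ^ 4 := by ring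
      _ ≤ _ := Nat.mul_le_mul_left _ ih

theorem num3 (s t : ℕ) (ht : 1 ≤ t) (hs : 60 * t ≤ s) : 3 * (s + 1) ^ 7 * 2 ^ (15 * t) ≤ 2 ^ (s - 1) := by
  have h1 := num2 s (by omega)
  have h2 : (3 * (s + 1) ^ 7 * 2 ^ (15 * t)) ^ 4 ≤ (2 ^ (s - 1)) ^ 4 := by
    calc (3 * (s + 1) ^ 7 * 2 ^ (15 * t)) ^ 4 = (3 * (s + 1) ^ 7) ^ 4 * 2 ^ (60 * t) := by
          rw [mul_pow _ (2 ^ (15 * t)), ← pow_mul]
          congr 2; ring
      _ ≤ 2 ^ (3 * s - 4) * 2 ^ s := Nat.mul_le_mul h1 (Nat.pow_le_pow_right (by norm_num) hs)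
      _ = (2 ^ (s - 1)) ^ 4 := by
          rw [← pow_add, ← pow_mul]
          congr 1; omega
  exact le_of_pow_le_pow_left₀ (by norm_num) (Nat.zero_le _) h2

theorem aux_sq (n m : ℕ) (hn : 1 ≤ n) : (n * m + 1) ^ 2 + n ≤ (n * (m + 1)) ^ 2 + 1 := by
  have h1 : n * 1 ≤ n * n := Nat.mul_le_mul_left _ hn
  have h2 : n * m * 1 ≤ n * m * n := Nat.mul_le_mul_left _ hn
  nlinarith

/-- Equal factors. -/
theorem equal_factors (n k r : ℕ) (hn : 1 ≤ n) (hk : 3136 * n ≤ k) :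
    coneDim (fun _ : Fin k => n) r = ((min (r * (k * n + 1)) ((n + 1) ^ k) : ℕ) : Cardinal) := by
  obtain ⟨s, hs⟩ : ∃ s, Nat.sqrt (k / n) = s := ⟨_, rfl⟩
  have h1 : s ^ 2 ≤ k / n := by rw [← hs]; exact Nat.sqrt_le' _
  have h2 : k / n < (s + 1) ^ 2 := by rw [← hs]; exact Nat.lt_succ_sqrt' _
  have h3 : s ^ 2 * n ≤ k := (Nat.le_div_iff_mul_le hn).1 h1
  have h4 : k < (s + 1) ^ 2 * n := (Nat.div_lt_iff_lt_mul hn).1 h2
  have h5 : 56 ≤ s := by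
    rw [← hs, Nat.le_sqrt']
    exact (Nat.le_div_iff_mul_le hn).2 hk
  obtain ⟨m, rfl⟩ : ∃ m, s = m + 1 := ⟨s - 1, by omega⟩
  have hsum : ∑ _i : Fin k, n = k * n := by simp
  have hprod : ∏ _i : Fin k, (n + 1) = (n + 1) ^ k := by simp
  have key := nondefective_of_card (fun _ : Fin k => n) (fun _ => hn) n n m Finset.univ
    (by
      rw [Finset.card_univ, Fintype.card_fin]
      have : (m + 1) ^ 2 * 1 ≤ (m + 1) ^ 2 * n := Nat.mul_le_mul_left _ hn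
      nlinarith) (fun _ _ => le_rfl) (fun _ _ => le_rfl) (by
      rw [hsum]
      refine (aux_sq n m hn).trans ?_
      have := Nat.mul_le_mul_right n h3
      nlinarith) (by
      rw [hsum]
      have hD : k * n + 1 ≤ (n + 1) ^ 2 * (m + 1 + 1) ^ 2 := by
        have e1 : (k + 1) * n ≤ ((m + 1 + 1) ^ 2 * n) * n := Nat.mul_le_mul_right _ h4
        have e2 : (m + 1 + 1) ^ 2 * n * n ≤ (n + 1) ^ 2 * (m + 1 + 1) ^ 2 := by
          calc (m + 1 + 1) ^ 2 * n * n = n ^ 2 * (m + 1 + 1) ^ 2 := by ring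
            _ ≤ _ := Nat.mul_le_mul_right _ (Nat.pow_le_pow_left (Nat.le_succ n) 2)
        have e3 : (k + 1) * n = k * n + n := by ring
        omega
      refine final_est (n + 1) (k * n + 1) (n * m + 1) _ (by omega) ?_ (by omega) ?_
      · have : 3136 * 1 * 1 ≤ k * n := Nat.mul_le_mul (le_trans (Nat.mul_le_mul_left _ hn) hk) hn
        omega
      · calc 3 * (n + 1) ^ 5 * (k * n + 1) ^ 3 * (n * m + 1)
            ≤ 3 * (n + 1) ^ 5 * ((n + 1) ^ 2 * (m + 1 + 1) ^ 2) ^ 3 * ((n + 1) * (m + 1 + 1)) :=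
              Nat.mul_le_mul (Nat.mul_le_mul_left _ (Nat.pow_le_pow_left hD 3)) (by nlinarith)
          _ = (3 * (m + 1 + 1) ^ 7) * (n + 1) ^ 12 := by ring
          _ ≤ 2 ^ (m - 12) * (n + 1) ^ 12 := by
              refine Nat.mul_le_mul_right _ ?_
              have e4 := num1 (m + 1) h5
              have e5 : 2 ^ (m + 1 - 1) = 2 ^ (m - 12) * 2 ^ 12 := by
                rw [← pow_add]; congr 1; omega
              rw [e5] at e4
              exact Nat.le_of_mul_le_mul_right e4 (by norm_num)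
          _ ≤ (n + 1) ^ (m - 12) * (n + 1) ^ 12 :=
              Nat.mul_le_mul_right _ (Nat.pow_le_pow_left (by omega) _)
          _ = (n + 1) ^ m := by rw [← pow_add]; congr 1; omega) r
  rw [hsum, hprod] at key
  exact key

/-- Bounded factors. -/
theorem bounded_factors (n k r : ℕ) (hn : 1 ≤ n) (hk : (60 * n * (Nat.log 2 n + 1)) ^ 2 ≤ k)
    (d : Fin k → ℕ) (hd : ∀ i, 1 ≤ d i) (hdn : ∀ i, d i ≤ n) :
    coneDim d r = ((min (r * (∑ i, d i + 1)) (∏ i, (d i + 1)) : ℕ) : Cardinal) := by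
  obtain ⟨t, ht⟩ : ∃ t, Nat.log 2 n + 1 = t := ⟨_, rfl⟩
  rw [ht] at hk
  obtain ⟨s, hs⟩ : ∃ s, Nat.sqrt k / n = s := ⟨_, rfl⟩
  have h1 : s * n ≤ Nat.sqrt k := by rw [← hs]; exact Nat.div_mul_le_self _ _
  have h2 : Nat.sqrt k < (s + 1) * n := (Nat.div_lt_iff_lt_mul hn).1 (by omega)
  have h3 : (s * n) ^ 2 ≤ k := (Nat.pow_le_pow_left h1 2).trans (Nat.sqrt_le' k)
  have h4 : k < ((s + 1) * n) ^ 2 := by
    refine lt_of_lt_of_le (Nat.lt_succ_sqrt' k) (Nat.pow_le_pow_left h2 2)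
  have h5 : 60 * t ≤ s := by
    rw [← hs, Nat.le_div_iff_mul_le hn]
    rw [Nat.le_sqrt']
    refine le_trans (le_of_eq (by ring)) hk
  have ht1 : 1 ≤ t := by omega
  obtain ⟨m, rfl⟩ : ∃ m, s = m + 1 := ⟨s - 1, by omega⟩
  have hn2 : n + 1 ≤ 2 ^ t := by rw [← ht]; exact Nat.lt_pow_succ_log_self (by norm_num) n
  have hlow : k ≤ ∑ i, d i := by
    have := Finset.card_nsmul_le_sum Finset.univ d 1 (fun i _ => hd i)
    simpa using this
  have hhigh : ∑ i, d i ≤ k * n := by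
    have := Finset.sum_le_card_nsmul Finset.univ d n (fun i _ => hdn i)
    simpa using this
  have hkbig : (m + 1) ^ 2 ≤ k := by
    refine le_trans (Nat.pow_le_pow_left ?_ 2) h3
    exact Nat.le_mul_of_pos_right _ hn
  refine nondefective_of_card d hd n 1 m Finset.univ ?_ (fun i _ => hd i) (fun i _ => hdn i) ?_ ?_ r
  · rw [Finset.card_univ, Fintype.card_fin]
    nlinarith
  · refine (aux_sq n m hn).trans ?_
    have : (n * (m + 1)) ^ 2 = ((m + 1) * n) ^ 2 := by ring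
    omega
  · set D := ∑ i, d i + 1 with hDdef
    have hD : D ≤ (n + 1) ^ 3 * (m + 1 + 1) ^ 2 := by
      have e1 : (k + 1) * n ≤ (((m + 1 + 1) * n) ^ 2) * n := Nat.mul_le_mul_right _ h4
      have e2 : ((m + 1 + 1) * n) ^ 2 * n ≤ (n + 1) ^ 3 * (m + 1 + 1) ^ 2 := by
        calc ((m + 1 + 1) * n) ^ 2 * n = n ^ 3 * (m + 1 + 1) ^ 2 := by ring
          _ ≤ _ := Nat.mul_le_mul_right _ (Nat.pow_le_pow_left (Nat.le_succ n) 3)
      have e3 : (k + 1) * n = k * n + n := by ring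
      omega
    refine final_est (n + 1) D (n * m + 1) _ (by omega) ?_ (by omega) ?_
    · have : (m + 1) ^ 2 ≥ 60 ^ 2 := Nat.pow_le_pow_left (by omega) 2
      omega
    · calc 3 * (n + 1) ^ 5 * D ^ 3 * (n * m + 1)
          ≤ 3 * (n + 1) ^ 5 * ((n + 1) ^ 3 * (m + 1 + 1) ^ 2) ^ 3 * ((n + 1) * (m + 1 + 1)) :=
            Nat.mul_le_mul (Nat.mul_le_mul_left _ (Nat.pow_le_pow_left hD 3)) (by nlinarith)
        _ = (3 * (m + 1 + 1) ^ 7) * (n + 1) ^ 15 := by ring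
        _ ≤ (3 * (m + 1 + 1) ^ 7) * (2 ^ t) ^ 15 :=
            Nat.mul_le_mul_left _ (Nat.pow_le_pow_left hn2 15)
        _ = 3 * (m + 1 + 1) ^ 7 * 2 ^ (15 * t) := by rw [← pow_mul, mul_comm t 15]
        _ ≤ 2 ^ (m + 1 - 1) := num3 (m + 1) t ht1 h5
        _ = (1 + 1) ^ m := by rw [Nat.add_sub_cancel]

theorem num4 (l : ℕ) (hl : 12 ≤ l) : (4 * l + 6) ^ 2 + 1 ≤ 2 ^ l ∧ 96 * (4 * l + 6) ≤ 2 ^ (l + 2) := by
  induction l, hl using Nat.le_induction with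
  | base => norm_num
  | succ l hl ih =>
    obtain ⟨h1, h2⟩ := ih
    constructor
    · have : 2 ^ (l + 1) = 2 * 2 ^ l := by ring
      rw [this]
      nlinarith
    · have : 2 ^ (l + 1 + 2) = 2 * 2 ^ (l + 2) := by ring
      rw [this]
      omega

/-- Many factors `P^1`. -/
theorem many_lines (k r : ℕ) (d : Fin k → ℕ) (hd : ∀ i, 1 ≤ d i) (hD : 4096 ≤ ∑ i, d i + 1)
    (hS : 4 * Nat.log 2 (∑ i, d i + 1) + 10 ≤ (Finset.univ.filter fun i => d i = 1).card) :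
    coneDim d r = ((min (r * (∑ i, d i + 1)) (∏ i, (d i + 1)) : ℕ) : Cardinal) := by
  obtain ⟨l, hl⟩ : ∃ l, Nat.log 2 (∑ i, d i + 1) = l := ⟨_, rfl⟩
  rw [hl] at hS
  have h1 : 2 ^ l ≤ ∑ i, d i + 1 := by rw [← hl]; exact Nat.pow_log_le_self 2 (by omega)
  have h2 : ∑ i, d i + 1 < 2 ^ (l + 1) := by
    rw [← hl]; exact Nat.lt_pow_succ_log_self (by norm_num) _
  have h3 : 12 ≤ l := by
    by_contra hcon
    have : 2 ^ (l + 1) ≤ 2 ^ 12 := Nat.pow_le_pow_right (by norm_num) (by omega)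
    omega
  obtain ⟨h4, h5⟩ := num4 l h3
  refine nondefective_of_card d hd 1 1 (4 * l + 5) _ hS (fun i hi => (Finset.mem_filter.1 hi).2.ge)
    (fun i hi => (Finset.mem_filter.1 hi).2.le) ?_ ?_ r
  · refine le_trans (le_of_eq ?_) (h4.trans h1)
    ring
  · refine final_est (1 + 1) _ _ _ (by norm_num) (by omega) (by omega) ?_
    calc 3 * (1 + 1) ^ 5 * (∑ i, d i + 1) ^ 3 * (1 * (4 * l + 5) + 1)
        ≤ 3 * (1 + 1) ^ 5 * (2 ^ (l + 1)) ^ 3 * (1 * (4 * l + 5) + 1) :=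
          Nat.mul_le_mul_right _ (Nat.mul_le_mul_left _ (Nat.pow_le_pow_left h2.le 3))
      _ = (96 * (4 * l + 6)) * (2 ^ (l + 1)) ^ 3 := by ring
      _ ≤ 2 ^ (l + 2) * (2 ^ (l + 1)) ^ 3 := Nat.mul_le_mul_right _ h5
      _ = (1 + 1) ^ (4 * l + 5) := by
          rw [← pow_mul, ← pow_add]
          norm_num
          ring

end Pool.Agent.Lib.MP_635d71_ag
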