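import Mathlib
import Pool.Agent.Lib.MP_635d71_ag.FlexB

/-!
# Inequalities between sums and products
-/

namespace Pool.Agent.Lib.MP_635d71_ag

theorem mul_choose_le (x n a : ℕ) : (a + 1) * x.choose n ≤ (x + a + 1).choose (n + 1) := by
  induction a with
  | zero =>
    rw [Nat.add_zero, Nat.choose_succ_succ]
    omega
  | succ a ih =>
    have h1 : (x + (a + 1) + 1).choose (n + 1) = (x + a + 1).choose n + (x + a + 1).choose (n + 1) := by
      rw [show x + (a + 1) + 1 = (x + a + 1) + 1 by ring, Nat.choose_succ_succ]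
    have h2 : x.choose n ≤ (x + a + 1).choose n := Nat.choose_le_choose n (by omega)
    rw [h1]
    have h3 : (a + 1 + 1) * x.choose n = x.choose n + (a + 1) * x.choose n := by ring
    omega

theorem prod_le_choose (L : List ℕ) (h : ∀ a ∈ L, 1 ≤ a) :
    L.prod ≤ (D L - 1 + L.length).choose L.length := by
  induction L with
  | nil => simp
  | cons a L ih =>
    have h1 := ih fun b hb => h b (List.mem_cons_of_mem _ hb)
    have h2 := h a List.mem_cons_self
    have h3 := one_le_D L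
    obtain ⟨a', rfl⟩ : ∃ a', a = a' + 1 := ⟨a - 1, by omega⟩
    rw [List.prod_cons, List.length_cons, D, Nat.add_sub_cancel]
    refine (Nat.mul_le_mul_left _ h1).trans ((mul_choose_le _ _ _).trans (le_of_eq ?_))
    congr 1
    omega

theorem prod_le_choose' (L : List ℕ) (h : ∀ a ∈ L, 1 ≤ a) (Δ m : ℕ) (hD : D L ≤ Δ)
    (hm : L.length ≤ m) : L.prod ≤ (Δ - 1 + m).choose m := by
  refine (prod_le_choose L h).trans ?_
  have h1 : (D L - 1 + L.length).choose L.length = (D L - 1 + L.length).choose (D L - 1) := by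
    rw [← Nat.choose_symm_of_eq_add (n := D L - 1 + L.length) (a := D L - 1) (b := L.length) rfl]
  have h2 : (D L - 1 + m).choose m = (D L - 1 + m).choose (D L - 1) := by
    rw [← Nat.choose_symm_of_eq_add (n := D L - 1 + m) (a := D L - 1) (b := m) rfl]
  have h3 : (D L - 1 + L.length).choose (D L - 1) ≤ (D L - 1 + m).choose (D L - 1) :=
    Nat.choose_le_choose _ (by omega)
  rw [h1]
  refine h3.trans ?_
  rw [← h2]
  exact Nat.choose_le_choose _ (by omega)

theorem prod_le_two_pow (L : List ℕ) (h : ∀ a ∈ L, 1 ≤ a) : L.prod ≤ 2 ^ (D L - 1) := by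
  induction L with
  | nil => simp [D]
  | cons a L ih =>
    have h1 := ih fun b hb => h b (List.mem_cons_of_mem _ hb)
    have h2 := h a List.mem_cons_self
    have h3 := one_le_D L
    obtain ⟨a', rfl⟩ : ∃ a', a = a' + 1 := ⟨a - 1, by omega⟩
    rw [List.prod_cons, D, Nat.add_sub_cancel, show a' + D L - 1 = a' + (D L - 1) by omega, pow_add]
    exact Nat.mul_le_mul Nat.lt_two_pow_self h1

theorem pow_aux (σ j : ℕ) (h : j ≤ σ) : (σ + 1) ^ j ≤ (j + 1) * σ ^ j := by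
  induction j with
  | zero => simp
  | succ j ih =>
    have h1 := ih (by omega)
    calc (σ + 1) ^ (j + 1) = (σ + 1) ^ j * (σ + 1) := pow_succ _ _
      _ ≤ ((j + 1) * σ ^ j) * (σ + 1) := Nat.mul_le_mul_right _ h1
      _ = ((j + 1) * (σ + 1)) * σ ^ j := by ring
      _ ≤ ((j + 2) * σ) * σ ^ j := by
          refine Nat.mul_le_mul_right _ ?_
          nlinarith
      _ = (j + 1 + 1) * σ ^ (j + 1) := by ring

theorem pow_comp (s k : ℕ) (hs : 2 ≤ s) : (s + k) ^ (s - 1) ≤ s ^ (s + k - 1) := by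
  induction k with
  | zero => rw [Nat.add_zero]
  | succ k ih =>
    have h1 := pow_aux (s + k) (s - 1) (by omega)
    have h2 : s - 1 + 1 = s := by omega
    rw [h2] at h1
    calc (s + (k + 1)) ^ (s - 1) = (s + k + 1) ^ (s - 1) := by rw [← add_assoc]
      _ ≤ s * (s + k) ^ (s - 1) := h1
      _ ≤ s * s ^ (s + k - 1) := Nat.mul_le_mul_left _ ih
      _ = s ^ (s + (k + 1) - 1) := by
          rw [← pow_succ', show s + k - 1 + 1 = s + (k + 1) - 1 by omega]

theorem pow_comp' (s σ : ℕ) (hs : 2 ≤ s) (h : s ≤ σ) : σ ^ (s - 1) ≤ s ^ (σ - 1) := by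
  obtain ⟨k, rfl⟩ := Nat.exists_eq_add_of_le h
  exact pow_comp s k hs

theorem list_small (σ : ℕ) (A : List ℕ) (h : ∀ a ∈ A, 2 ≤ a ∧ a ≤ σ) :
    σ ^ (D A - 1) ≤ A.prod ^ (σ - 1) := by
  induction A with
  | nil => simp [D]
  | cons a A ih =>
    have h1 := ih fun b hb => h b (List.mem_cons_of_mem _ hb)
    have h2 := h a List.mem_cons_self
    have h3 := one_le_D A
    rw [List.prod_cons, D, show a - 1 + D A - 1 = (a - 1) + (D A - 1) by omega, pow_add, mul_pow]
    exact Nat.mul_le_mul (pow_comp' a σ h2.1 h2.2) h1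

theorem list_big (σ : ℕ) (hσ : 2 ≤ σ) (A : List ℕ) (h : ∀ a ∈ A, σ ≤ a) :
    A.prod ^ (σ - 1) ≤ σ ^ (D A - 1) := by
  induction A with
  | nil => simp [D]
  | cons a A ih =>
    have h1 := ih fun b hb => h b (List.mem_cons_of_mem _ hb)
    have h2 := h a List.mem_cons_self
    have h3 := one_le_D A
    rw [List.prod_cons, D, show a - 1 + D A - 1 = (a - 1) + (D A - 1) by omega, pow_add, mul_pow]
    exact Nat.mul_le_mul (pow_comp' σ a hσ h2) h1

theorem D_lt_D (σ : ℕ) (hσ : 2 ≤ σ) (A B : List ℕ) (hA : ∀ a ∈ A, 2 ≤ a ∧ a ≤ σ)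
    (hB : ∀ a ∈ B, σ ≤ a) (h : σ * A.prod ≤ B.prod) : D A + 1 ≤ D B := by
  have h1 := list_small σ A hA
  have h2 := list_big σ hσ B hB
  have h3 : (σ * A.prod) ^ (σ - 1) ≤ B.prod ^ (σ - 1) := Nat.pow_le_pow_left h _
  have h4 : σ ^ ((σ - 1) + (D A - 1)) ≤ σ ^ (D B - 1) := by
    rw [pow_add]
    refine le_trans (Nat.mul_le_mul_left _ h1) ?_
    rw [← mul_pow]
    exact h3.trans h2
  have h5 := (Nat.pow_le_pow_iff_right (show 1 < σ by omega)).1 h4
  have h6 := one_le_D A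
  have h7 := one_le_D B
  omega

theorem len_mul_le (σ : ℕ) (B : List ℕ) (hB : ∀ a ∈ B, σ ≤ a) : B.length * (σ - 1) + 1 ≤ D B := by
  induction B with
  | nil => simp [D]
  | cons a B ih =>
    have h1 := ih fun b hb => hB b (List.mem_cons_of_mem _ hb)
    have h2 := hB a List.mem_cons_self
    rw [List.length_cons, D, add_mul, one_mul]
    omega

theorem num47 (Δ : ℕ) (h1 : 1 ≤ Δ) (h : 2 * Δ ^ 8 ≤ 2 ^ (Δ - 1)) : 47 ≤ Δ := by
  by_contra hcon
  push Not at hcon
  interval_cases Δ <;> norm_num at h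

/-- Eight elements are not enough. -/
theorem num8 (δ P : ℕ) (hδ : 47 ≤ δ) (hP : 2 * δ ^ 8 ≤ P) (h : P ≤ 432 * (δ - 1 + 8).choose 8) :
    False := by
  have h1 : (δ - 1 + 8).choose 8 * 40320 ≤ (δ + 7) ^ 8 := by
    have h2 := Nat.descFactorial_eq_factorial_mul_choose (δ + 7) 8
    have h3 := Nat.descFactorial_le_pow (δ + 7) 8
    rw [h2, show Nat.factorial 8 = 40320 from rfl] at h3
    rw [show δ - 1 + 8 = δ + 7 by omega]
    omega
  have h4 : (47 * (δ + 7)) ^ 8 ≤ (54 * δ) ^ 8 := Nat.pow_le_pow_left (by omega) 8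
  rw [mul_pow, mul_pow] at h4
  have h5 : 0 < δ ^ 8 := Nat.pow_pos (by omega)
  norm_num at h4
  omega

/-- Five elements are not enough. -/
theorem num5 (Δ δ P : ℕ) (hδ : 47 ≤ δ) (hΔ : δ ≤ Δ) (hP : 2 * (Δ ^ 2 * δ ^ 6) ≤ P)
    (h : P ≤ 432 * (3 * (Δ * δ)) * (δ - 1 + 5).choose 5) : False := by
  have h1 : (δ - 1 + 5).choose 5 * 120 ≤ (δ + 4) ^ 5 := by
    have h2 := Nat.descFactorial_eq_factorial_mul_choose (δ + 4) 5
    have h3 := Nat.descFactorial_le_pow (δ + 4) 5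
    rw [h2, show Nat.factorial 5 = 120 from rfl] at h3
    rw [show δ - 1 + 5 = δ + 4 by omega]
    omega
  have h4 : (47 * (δ + 4)) ^ 5 ≤ (51 * δ) ^ 5 := Nat.pow_le_pow_left (by omega) 5
  rw [mul_pow, mul_pow] at h4
  norm_num at h4
  have h6 : (δ - 1 + 5).choose 5 * 50 ≤ δ ^ 5 := by omega
  have h7 : 0 < Δ * δ ^ 6 := Nat.mul_pos (by omega) (Nat.pow_pos (by omega))
  have h8 : 432 * (3 * (Δ * δ)) * (δ - 1 + 5).choose 5 * 50 ≤ 1296 * (Δ * δ ^ 6) := by
    calc 432 * (3 * (Δ * δ)) * (δ - 1 + 5).choose 5 * 50 =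
          1296 * (Δ * δ) * ((δ - 1 + 5).choose 5 * 50) := by ring
      _ ≤ 1296 * (Δ * δ) * δ ^ 5 := Nat.mul_le_mul_left _ h6
      _ = 1296 * (Δ * δ ^ 6) := by ring
  have h9 : 2 * (Δ ^ 2 * δ ^ 6) = 2 * Δ * (Δ * δ ^ 6) := by ring
  have h10 : 2 * 47 * (Δ * δ ^ 6) ≤ 2 * Δ * (Δ * δ ^ 6) := Nat.mul_le_mul_right _ (by omega)
  generalize 432 * (3 * (Δ * δ)) * (δ - 1 + 5).choose 5 = X at *
  omega

/-- Cut a list where the product becomes large. -/
theorem exists_cut (N : ℕ) : ∀ W z : List ℕ, z.prod < N → N ≤ (z ++ W).prod →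
    ∃ M σ R, W = M ++ σ :: R ∧ (z ++ M).prod < N ∧ N ≤ (z ++ M).prod * σ := by
  intro W
  induction W with
  | nil =>
    intro z h1 h2
    rw [List.append_nil] at h2
    omega
  | cons a W ih =>
    intro z h1 h2
    by_cases h3 : z.prod * a < N
    · obtain ⟨M, σ, R, h4, h5, h6⟩ := ih (z ++ [a]) (by simpa using h3) (by simpa using h2)
      refine ⟨a :: M, σ, R, by rw [h4]; rfl, ?_, ?_⟩
      · simpa using h5
      · simpa using h6
    · exact ⟨[], a, W, rfl, by simpa using h1, by simpa using h3⟩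

end Pool.Agent.Lib.MP_635d71_ag
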