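import Mathlib
import Pool.Agent.Lib.MP_635d71_ag.Ineq
import Pool.Agent.Lib.MP_635d71_ag.MainB
import Pool.Agent.Lib.MP_635d71_ag.BaseC
import Pool.Agent.Lib.MP_635d71_ag.BaseD
import Pool.Agent.Lib.MP_635d71_ag.Transfer

/-!
# Selection of the special factors
-/

open Module Submodule

namespace Pool.Agent.Lib.MP_635d71_ag

variable {K : Type} [Field K]

theorem finish [Infinite K] (q v1 v2 v3 v4 Δ δ : ℕ) (T R O M z Y : List ℕ)
    (hY : Y.Perm ((v1 + 2) :: (v2 + 2) :: (v3 + 2) :: (v4 + 2) :: (((R ++ T) ++ O) ++ (M ++ z))))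
    (hq : 2 ≤ q) (hY1 : ∀ a ∈ Y, 1 ≤ a) (hΔ : D Y = Δ)
    (hδ : D ((v1 + 2) :: (v2 + 2) :: (v3 + 2) :: (v4 + 2) :: ((R ++ T) ++ (M ++ z))) = δ)
    (h47 : 47 ≤ δ)
    (hP : q * Δ ^ 2 * δ ^ 6 ≤
      ((v1 + 2) :: (v2 + 2) :: (v3 + 2) :: (v4 + 2) :: ((R ++ T) ++ (M ++ z))).prod)
    (hZl : 3 * (Δ * δ) ≤ (M ++ z).prod) (hZu : (M ++ z).prod ≤ Δ * δ ^ 2)
    (hZ2 : 2 * D (M ++ z) ≤ δ) (h4 : 4 * D z ≤ z.prod)
    (base : ∀ b w C, C ⊆ Ball z w → (b - 1) * (2 * Δ + 1) ≤ 2 * z.prod → Good K z b C) (r : ℕ) :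
    Reach K (q :: Y) r (min (r * D (q :: Y)) (q :: Y).prod) := by
  set u := (v1 + 2) :: (v2 + 2) :: (v3 + 2) :: (v4 + 2) :: (R ++ T) with hu
  have hperm : (q :: Y).Perm
      (q :: (v1 + 2) :: (v2 + 2) :: (v3 + 2) :: (v4 + 2) :: (((R ++ T) ++ O) ++ (M ++ z))) := hY.cons q
  have hmem : ∀ a ∈ (v1 + 2) :: (v2 + 2) :: (v3 + 2) :: (v4 + 2) :: (((R ++ T) ++ O) ++ (M ++ z)),
    1 ≤ a := fun a ha => hY1 a (hY.mem_iff.2 ha)
  have hD1 : D ((v1 + 2) :: (v2 + 2) :: (v3 + 2) :: (v4 + 2) :: (((R ++ T) ++ O) ++ (M ++ z))) = Δ := by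
    rw [← D_perm hY, hΔ]
  have hP1 : ((v1 + 2) :: (v2 + 2) :: (v3 + 2) :: (v4 + 2) :: (((R ++ T) ++ O) ++ (M ++ z))).prod =
    Y.prod := hY.prod_eq.symm
  -- the parts
  have hyO : D ((u ++ O) ++ (M ++ z)) = Δ := hD1
  have hyO' : D (u ++ (M ++ z)) = δ := hδ
  have hδΔ : δ ≤ Δ := by
    have h1 := D_append (u ++ O) (M ++ z)
    have h2 := D_append u O
    have h3 := D_append u (M ++ z)
    have h5 := one_le_D O
    omega
  have hPO : u.prod * (M ++ z).prod ≤ Y.prod := by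
    have h1 : Y.prod = (u.prod * O.prod) * (M ++ z).prod := by
      rw [← hP1, ← List.prod_append, ← List.prod_append]; rfl
    rw [h1]
    refine Nat.mul_le_mul_right _ (Nat.le_mul_of_pos_right _ ?_)
    exact one_le_prod O fun a ha => hmem a (by simp only [List.mem_cons, List.mem_append]; tauto)
  have hPS : q * Δ ^ 2 * δ ^ 6 ≤ u.prod * (M ++ z).prod := by
    have h1 : u.prod * (M ++ z).prod =
        ((v1 + 2) :: (v2 + 2) :: (v3 + 2) :: (v4 + 2) :: ((R ++ T) ++ (M ++ z))).prod := by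
      rw [← List.prod_append]; rfl
    rw [h1]; exact hP
  obtain ⟨Λ, hΛ⟩ : ∃ Λ, Δ = Λ + 1 := ⟨Δ - 1, by omega⟩
  have hqD : D (q :: Y) = Λ + q := by rw [D, hΔ]; omega
  have hqP : (q :: Y).prod = q * Y.prod := List.prod_cons
  have hqP' : (q :: (v1 + 2) :: (v2 + 2) :: (v3 + 2) :: (v4 + 2) ::
      (((R ++ T) ++ O) ++ (M ++ z))).prod = q * Y.prod := by rw [List.prod_cons, hP1]
  have hqD' : D (q :: (v1 + 2) :: (v2 + 2) :: (v3 + 2) :: (v4 + 2) ::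
      (((R ++ T) ++ O) ++ (M ++ z))) = Λ + q := by rw [D, hD1]; omega
  rw [hqD, hqP]
  refine Reach.of_equ (Equ.of_perm hperm.symm) ?_
  have hall := Reach.all (K := K)
    (l := q :: (v1 + 2) :: (v2 + 2) :: (v3 + 2) :: (v4 + 2) :: (((R ++ T) ++ O) ++ (M ++ z))) ?_ r
  · rw [hqD', hqP'] at hall
    exact hall
  intro r hr1 hr2
  rw [hqD', hqP'] at hr1 hr2 ⊢
  rw [← hP1] at hr1 hr2 ⊢
  have hΔpos : 0 < Δ := by omega
  have hδpos : 0 < δ := by omega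
  -- the part outside of the last factors
  have hub : q * Δ * δ ^ 4 ≤ u.prod := by
    refine Nat.le_of_mul_le_mul_right ?_ (Nat.mul_pos hΔpos (Nat.pow_pos hδpos) : 0 < Δ * δ ^ 2)
    calc q * Δ * δ ^ 4 * (Δ * δ ^ 2) = q * Δ ^ 2 * δ ^ 6 := by ring
      _ ≤ _ := hPS
      _ ≤ _ := Nat.mul_le_mul_left _ hZu
  have hDu : D u ≤ δ := by
    have h1 := D_append u (M ++ z)
    have h3 := one_le_D (M ++ z)
    omega
  refine reach_closeB q v1 v2 v3 v4 Λ (R ++ T) O M z hq ?_ ?_ ?_ ?_ (by omega) (by rw [hD1, hΛ])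
    ?_ ?_ ?_ (by omega) h4 (by rw [← hΛ]; exact base) r hr1 hr2
  · intro a ha
    exact hmem a (by simp only [List.mem_cons, List.mem_append] at ha ⊢; tauto)
  · intro a ha
    exact hmem a (by simp only [List.mem_cons, List.mem_append] at ha ⊢; tauto)
  · intro a ha
    exact hmem a (by simp only [List.mem_cons, List.mem_append] at ha ⊢; tauto)
  · intro a ha
    exact hmem a (by simp only [List.mem_cons, List.mem_append] at ha ⊢; tauto)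
  · rw [hP1]
    refine le_trans ?_ (hPS.trans hPO)
    have h1 : (3 * Λ + 1) * (Λ + q) ≤ (3 * Δ) * (q * Δ) := by
      refine Nat.mul_le_mul (by omega) ?_
      have h0 : (Λ + 1) + q ≤ q * (Λ + 1) + 1 := by nlinarith
      rw [hΛ]
      omega
    refine h1.trans ?_
    have h3 : δ ^ 1 ≤ δ ^ 6 := Nat.pow_le_pow_right hδpos (by norm_num)
    rw [pow_one] at h3
    calc (3 * Δ) * (q * Δ) = q * Δ ^ 2 * 3 := by ring
      _ ≤ q * Δ ^ 2 * δ ^ 6 := Nat.mul_le_mul_left _ (by omega)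
  · change 36 * (q * Λ) * D u ^ 2 ≤ u.prod
    refine le_trans ?_ hub
    calc 36 * (q * Λ) * D u ^ 2 ≤ 36 * (q * Δ) * δ ^ 2 :=
          Nat.mul_le_mul (Nat.mul_le_mul_left _ (Nat.mul_le_mul_left _ (by omega)))
            (Nat.pow_le_pow_left hDu 2)
      _ = q * Δ * δ ^ 2 * 36 := by ring
      _ ≤ q * Δ * δ ^ 2 * (δ * δ) := Nat.mul_le_mul_left _
          (Nat.mul_le_mul (show 6 ≤ δ by omega) (show 6 ≤ δ by omega) : 6 * 6 ≤ δ * δ)
      _ = q * Δ * δ ^ 4 := by ring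
  · refine le_trans ?_ hZl
    rw [← hΛ]
    calc (2 * Δ + 1) * (2 * D (M ++ z) + 1) ≤ (2 * Δ + 1) * (δ + 1) :=
          Nat.mul_le_mul_left _ (by omega)
      _ ≤ 3 * (Δ * δ) := by
          have h1 : Δ * 4 ≤ Δ * δ := Nat.mul_le_mul_left _ (by omega)
          have h2 : (2 * Δ + 1) * (δ + 1) = 2 * (Δ * δ) + 2 * Δ + δ + 1 := by ring
          omega

end Pool.Agent.Lib.MP_635d71_ag
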