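import Mathlib
import Pool.Agent.Lib.MP_635d71_ag.Select

/-!
# Selection of the special factors, continued
-/

open Module Submodule

namespace Pool.Agent.Lib.MP_635d71_ag

variable {K : Type} [Field K]

theorem num_sig (Δ δ σ : ℕ) (h47 : 47 ≤ δ) (hσ : 5 * σ ≤ δ) :
    432 * ((3 * (Δ * δ) * σ) * ((3 * (Δ * δ) * σ) * σ)) ≤ 2 * (Δ ^ 2 * δ ^ 6) := by
  have h1 : (5 * σ) ^ 3 ≤ δ ^ 3 := Nat.pow_le_pow_left hσ 3
  rw [mul_pow] at h1
  norm_num at h1
  calc 432 * ((3 * (Δ * δ) * σ) * ((3 * (Δ * δ) * σ) * σ)) = 3888 * (Δ ^ 2 * δ ^ 2 * σ ^ 3) := by ring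
    _ ≤ 40 * 125 * (Δ ^ 2 * δ ^ 2 * σ ^ 3) := Nat.mul_le_mul_right _ (by norm_num)
    _ = 40 * (Δ ^ 2 * δ ^ 2 * (125 * σ ^ 3)) := by ring
    _ ≤ 40 * (Δ ^ 2 * δ ^ 2 * δ ^ 3) := Nat.mul_le_mul_left _ (Nat.mul_le_mul_left _ h1)
    _ ≤ (2 * δ) * (Δ ^ 2 * δ ^ 2 * δ ^ 3) := Nat.mul_le_mul_right _ (by omega)
    _ = 2 * (Δ ^ 2 * δ ^ 6) := by ring

/-- The last step: the special factors are chosen. -/
theorem core_aux [Infinite K] (q Δ δ σ : ℕ) (T z M R O z' Y : List ℕ) (hz' : z'.Perm z)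
    (hY : Y.Perm ((T ++ (z ++ (M ++ R))) ++ O)) (hq : 2 ≤ q) (hY2 : ∀ a ∈ Y, 2 ≤ a)
    (hTp : T.prod ≤ 432) (hΔ : D Y = Δ) (hδ : D (T ++ (z ++ (M ++ R))) = δ) (h47 : 47 ≤ δ)
    (hP : q * Δ ^ 2 * δ ^ 6 ≤ (T ++ (z ++ (M ++ R))).prod)
    (hσ : 5 * σ ≤ δ) (hσ2 : 2 ≤ σ) (hA : ∀ a ∈ z ++ M, a ≤ σ) (hB : ∀ a ∈ R, σ ≤ a)
    (hR : 4 ≤ R.length) (hZl : 3 * (Δ * δ) ≤ (z ++ M).prod) (hZu : (z ++ M).prod ≤ 3 * (Δ * δ) * σ)
    (h4 : 4 * D z' ≤ z'.prod)
    (base : ∀ b w C, C ⊆ Ball z' w → (b - 1) * (2 * Δ + 1) ≤ 2 * z'.prod → Good K z' b C) (r : ℕ) :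
    Reach K (q :: Y) r (min (r * D (q :: Y)) (q :: Y).prod) := by
  have hmem : ∀ a ∈ (T ++ (z ++ (M ++ R))) ++ O, 2 ≤ a := fun a ha => hY2 a (hY.mem_iff.2 ha)
  have hpMz : (M ++ z').Perm (z ++ M) := (List.perm_append_comm).trans (hz'.append_right M)
  have hprodM : (M ++ z').prod = (z ++ M).prod := hpMz.prod_eq
  have hDM : D (M ++ z') = D (z ++ M) := D_perm hpMz
  have hYp : (T ++ (z ++ (M ++ R))).prod = T.prod * ((z ++ M).prod * R.prod) := by
    rw [List.prod_append, ← List.append_assoc, List.prod_append]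
  have hpos : ∀ L : List ℕ, (∀ a ∈ L, 2 ≤ a) → 1 ≤ L.prod := fun L hL =>
    one_le_prod L fun a ha => (by norm_num : 1 ≤ 2).trans (hL a ha)
  have hδΔ : δ ≤ Δ := by
    have h1 := D_append (T ++ (z ++ (M ++ R))) O
    have h2 := D_perm hY
    have h3 := one_le_D O
    omega
  have hΔpos : 0 < Δ := by omega
  have hδpos : 0 < δ := by omega
  -- the sum of the chosen factors is small
  have hdouble : D (z ++ M) + 1 ≤ D R := by
    refine D_lt_D σ hσ2 (z ++ M) R (fun a ha => ⟨hmem a ?_, hA a ha⟩) hB ?_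
    · simp only [List.mem_append] at ha ⊢; tauto
    · have h1 : 432 * ((z ++ M).prod * ((z ++ M).prod * σ)) ≤ 432 * ((z ++ M).prod * R.prod) := by
        calc 432 * ((z ++ M).prod * ((z ++ M).prod * σ)) ≤
            432 * ((3 * (Δ * δ) * σ) * ((3 * (Δ * δ) * σ) * σ)) := Nat.mul_le_mul_left _
              (Nat.mul_le_mul hZu (Nat.mul_le_mul_right _ hZu))
          _ ≤ 2 * (Δ ^ 2 * δ ^ 6) := num_sig Δ δ σ h47 hσ
          _ ≤ q * (Δ ^ 2 * δ ^ 6) := Nat.mul_le_mul_right _ hq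
          _ = q * Δ ^ 2 * δ ^ 6 := by ring
          _ ≤ _ := hP
          _ = T.prod * ((z ++ M).prod * R.prod) := hYp
          _ ≤ _ := Nat.mul_le_mul_right _ hTp
      have h2 : 0 < (z ++ M).prod := by
        have : 0 < 3 * (Δ * δ) := by positivity
        omega
      have h3 := Nat.le_of_mul_le_mul_left h1 (by norm_num)
      have h4 := Nat.le_of_mul_le_mul_left h3 h2
      rw [mul_comm]
      exact h4
  have hDD : 2 * D (z ++ M) ≤ δ := by
    have h1 := D_append T (z ++ (M ++ R))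
    have h2 := D_append (z ++ M) R
    rw [List.append_assoc] at h2
    have h3 := one_le_D T
    omega
  -- four further factors
  obtain ⟨r1, r2, r3, r4, R', rfl⟩ : ∃ r1 r2 r3 r4 R', R = r1 :: r2 :: r3 :: r4 :: R' := by
    match R, hR with
    | r1 :: r2 :: r3 :: r4 :: R', _ => exact ⟨r1, r2, r3, r4, R', rfl⟩
  have g1 : 2 ≤ r1 := hmem r1 (by simp)
  have g2 : 2 ≤ r2 := hmem r2 (by simp)
  have g3 : 2 ≤ r3 := hmem r3 (by simp)
  have g4 : 2 ≤ r4 := hmem r4 (by simp)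
  obtain ⟨v1, rfl⟩ : ∃ v, r1 = v + 2 := ⟨r1 - 2, by omega⟩
  obtain ⟨v2, rfl⟩ : ∃ v, r2 = v + 2 := ⟨r2 - 2, by omega⟩
  obtain ⟨v3, rfl⟩ : ∃ v, r3 = v + 2 := ⟨r3 - 2, by omega⟩
  obtain ⟨v4, rfl⟩ : ∃ v, r4 = v + 2 := ⟨r4 - 2, by omega⟩
  have hperm : ∀ O : List ℕ,
      ((T ++ (z ++ (M ++ (v1 + 2) :: (v2 + 2) :: (v3 + 2) :: (v4 + 2) :: R'))) ++ O).Perm
      ((v1 + 2) :: (v2 + 2) :: (v3 + 2) :: (v4 + 2) :: (((R' ++ T) ++ O) ++ (M ++ z'))) := by
    intro O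
    have e0 : ((T ++ (z ++ (M ++ (v1 + 2) :: (v2 + 2) :: (v3 + 2) :: (v4 + 2) :: R'))) ++ O).Perm
        ((((v1 + 2) :: (v2 + 2) :: (v3 + 2) :: (v4 + 2) :: R') ++ T) ++ O ++ (z ++ M)) := by
      generalize ((v1 + 2) :: (v2 + 2) :: (v3 + 2) :: (v4 + 2) :: R') = Q
      rw [← Multiset.coe_eq_coe]
      simp only [← Multiset.coe_add]
      abel
    refine e0.trans ?_
    have e3 : (((v1 + 2) :: (v2 + 2) :: (v3 + 2) :: (v4 + 2) :: R') ++ T) ++ O ++ (z ++ M) =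
      (v1 + 2) :: (v2 + 2) :: (v3 + 2) :: (v4 + 2) :: (((R' ++ T) ++ O) ++ (z ++ M)) := rfl
    rw [e3]
    exact ((((List.Perm.append_left _ hpMz.symm).cons _).cons _).cons _).cons _
  have hperm0 : (T ++ (z ++ (M ++ (v1 + 2) :: (v2 + 2) :: (v3 + 2) :: (v4 + 2) :: R'))).Perm
      ((v1 + 2) :: (v2 + 2) :: (v3 + 2) :: (v4 + 2) :: ((R' ++ T) ++ (M ++ z'))) := by
    have := hperm []
    simpa only [List.append_nil] using this
  refine finish q v1 v2 v3 v4 Δ δ T R' O M z' Y (hY.trans (hperm O)) hq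
    (fun a ha => (by norm_num : 1 ≤ 2).trans (hY2 a ha))
    hΔ (by rw [← D_perm hperm0, hδ]) h47 (by rw [← hperm0.prod_eq]; exact hP)
    (by rw [hprodM]; exact hZl) ?_ (by rw [hDM]; exact hDD) h4 base r
  rw [hprodM]
  refine hZu.trans ?_
  calc 3 * (Δ * δ) * σ = Δ * δ * (3 * σ) := by ring
    _ ≤ Δ * δ * δ := Nat.mul_le_mul_left _ (by omega)
    _ = Δ * δ ^ 2 := by ring

/-- The selection. -/
theorem core [Infinite K] (q Δ δ : ℕ) (T z W O z' Y : List ℕ) (hz' : z'.Perm z)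
    (hY : Y.Perm ((T ++ (z ++ W)) ++ O)) (hq : 2 ≤ q) (hY2 : ∀ a ∈ Y, 2 ≤ a) (hTp : T.prod ≤ 432)
    (hs : (z ++ W).Pairwise (· ≤ ·))
    (hΔ : D Y = Δ) (hδ : D (T ++ (z ++ W)) = δ) (h47 : 47 ≤ δ)
    (hP : q * Δ ^ 2 * δ ^ 6 ≤ (T ++ (z ++ W)).prod)
    (hcase : z.prod < 3 * δ ^ 2 ∨ ∃ σ, 2 ≤ σ ∧ 5 * σ ≤ δ ∧ (∀ a ∈ z, a ≤ σ) ∧ (∀ a ∈ W, σ ≤ a) ∧
      z.prod ≤ σ ^ 3 ∧ 4 ≤ W.length)
    (h4 : 4 * D z' ≤ z'.prod)
    (base : ∀ b w C, C ⊆ Ball z' w → (b - 1) * (2 * δ + 1) ≤ 2 * z'.prod → Good K z' b C) (r : ℕ) :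
    Reach K (q :: Y) r (min (r * D (q :: Y)) (q :: Y).prod) := by
  have hmem : ∀ a ∈ T ++ (z ++ W), 2 ≤ a := fun a ha =>
    hY2 a (hY.mem_iff.2 (List.mem_append_left _ ha))
  have hδΔ : δ ≤ Δ := by
    have h1 := D_append (T ++ (z ++ W)) O
    have h2 := D_perm hY
    have h3 := one_le_D O
    omega
  have base' : ∀ b w C, C ⊆ Ball z' w → (b - 1) * (2 * Δ + 1) ≤ 2 * z'.prod → Good K z' b C := by
    intro b w C hC hb
    refine base b w C hC (le_trans (Nat.mul_le_mul_left _ (by omega)) hb)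
  by_cases hc : z.prod < 3 * (Δ * δ)
  · have hYp : (T ++ (z ++ W)).prod = T.prod * (z ++ W).prod := List.prod_append
    have hbig : 3 * (Δ * δ) ≤ (z ++ W).prod := by
      have h1 : 432 * (3 * (Δ * δ)) ≤ 432 * (z ++ W).prod := by
        have h0 : 47 ^ 2 ≤ Δ * δ := by
          rw [pow_two]
          exact Nat.mul_le_mul (by omega) h47
        calc 432 * (3 * (Δ * δ)) = 1296 * (Δ * δ) := by ring
          _ ≤ (Δ * δ) * (Δ * δ) := Nat.mul_le_mul_right _ (by omega)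
          _ = 1 * Δ ^ 2 * δ ^ 2 := by ring
          _ ≤ q * Δ ^ 2 * δ ^ 6 := Nat.mul_le_mul (Nat.mul_le_mul_right _ (by omega))
              (Nat.pow_le_pow_right (by omega) (by norm_num))
          _ ≤ _ := hP
          _ = T.prod * (z ++ W).prod := hYp
          _ ≤ _ := Nat.mul_le_mul_right _ hTp
      exact Nat.le_of_mul_le_mul_left h1 (by norm_num)
    obtain ⟨M, σ, R, rfl, h1, h2⟩ := exists_cut (3 * (Δ * δ)) W z hc hbig
    have hs2 : ((z ++ M) ++ (σ :: R)).Pairwise (· ≤ ·) := by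
      rw [List.append_assoc]; exact hs
    rw [List.pairwise_append] at hs2
    obtain ⟨_, hs3, hs4⟩ := hs2
    rw [List.pairwise_cons] at hs3
    have hB : ∀ a ∈ σ :: R, σ ≤ a := by
      intro a ha
      rcases List.mem_cons.1 ha with rfl | ha
      · exact le_rfl
      · exact hs3.1 a ha
    have hσ2 : 2 ≤ σ := hmem σ (by simp)
    -- at least six large elements
    have hlen : 6 ≤ (σ :: R).length := by
      by_contra hcon
      push Not at hcon
      have h3 := prod_le_choose' (σ :: R) (fun a ha => (by omega : 1 ≤ σ).trans (hB a ha)) δ 5 ?_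
        (by omega)
      · refine num5 Δ δ (T ++ (z ++ (M ++ σ :: R))).prod h47 hδΔ ?_ ?_
        · refine le_trans ?_ hP
          calc 2 * (Δ ^ 2 * δ ^ 6) ≤ q * (Δ ^ 2 * δ ^ 6) := Nat.mul_le_mul_right _ hq
            _ = q * Δ ^ 2 * δ ^ 6 := by ring
        · rw [hYp, ← List.append_assoc, List.prod_append]
          calc T.prod * ((z ++ M).prod * (σ :: R).prod) ≤
              432 * ((3 * (Δ * δ)) * (δ - 1 + 5).choose 5) :=
                Nat.mul_le_mul hTp (Nat.mul_le_mul h1.le h3)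
            _ = _ := by ring
      · have h6 := D_append_le T (z ++ (M ++ σ :: R))
        have h7 := D_append_le z (M ++ σ :: R)
        have h8 := D_append_le M (σ :: R)
        omega
    have hσ5 : 5 * σ ≤ δ := by
      have h3 := len_mul_le σ (σ :: R) hB
      have h6 := D_append_le T (z ++ (M ++ σ :: R))
      have h7 := D_append_le z (M ++ σ :: R)
      have h8 := D_append_le M (σ :: R)
      have h9 : 6 * (σ - 1) ≤ (σ :: R).length * (σ - 1) := Nat.mul_le_mul_right _ hlen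
      omega
    have hprod : (z ++ (M ++ [σ])).prod = (z ++ M).prod * σ := by
      rw [← List.append_assoc, List.prod_append, List.prod_singleton]
    have hMR : M ++ [σ] ++ R = M ++ σ :: R := by simp
    refine core_aux q Δ δ σ T z (M ++ [σ]) R O z' Y hz' (by rw [hMR]; exact hY) hq hY2 hTp hΔ
      (by rw [hMR]; exact hδ) h47 (by rw [hMR]; exact hP) hσ5 hσ2 ?_
      (fun a ha => hB a (List.mem_cons_of_mem _ ha)) (by
        rw [List.length_cons] at hlen; omega) (by rw [hprod]; exact h2) ?_ h4 base' r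
    · intro a ha
      rw [← List.append_assoc, List.mem_append, List.mem_singleton] at ha
      rcases ha with ha | rfl
      · exact hs4 a ha σ List.mem_cons_self
      · exact le_rfl
    · rw [hprod]
      exact Nat.mul_le_mul_right _ h1.le
  · push Not at hc
    rcases hcase with h | ⟨σ, h1, h2, h3, h5, h6, h7⟩
    · have h8 : δ * δ ≤ Δ * δ := Nat.mul_le_mul_right _ hδΔ
      rw [pow_two] at h
      omega
    · refine core_aux q Δ δ σ T z [] W O z' Y hz' hY hq hY2 hTp hΔ hδ h47 hP h2 h1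
        (by simpa using h3) h5 h7 (by simpa using hc) ?_ h4 base' r
      rw [List.append_nil]
      refine h6.trans ?_
      calc σ ^ 3 = σ * σ * σ := by ring
        _ ≤ (3 * (Δ * δ)) * σ := Nat.mul_le_mul_right _ (by
            have : σ * σ ≤ Δ * δ := Nat.mul_le_mul (by omega) (by omega)
            omega)

end Pool.Agent.Lib.MP_635d71_ag
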