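import Mathlib
import Pool.Agent.Lib.MP_635d71_ag.Core

/-!
# The theorem for lists
-/

open Module Submodule

namespace Pool.Agent.Lib.MP_635d71_ag

variable {K : Type} [Field K]

/-- Base case with three factors. -/
theorem base_triple [Infinite K] (s1 s2 s3 Δ : ℕ) (h1 : 4 ≤ s1) (h12 : s1 ≤ s2) (h23 : s2 ≤ s3)
    (hΔ : 7 * (s3 - 1) + (s1 - 1) + (s2 - 1) + 1 ≤ Δ) :
    ∃ z', z'.Perm [s1, s2, s3] ∧ 4 * D z' ≤ z'.prod ∧
      ∀ b w C, C ⊆ Ball z' w → (b - 1) * (2 * Δ + 1) ≤ 2 * z'.prod → Good K z' b C := by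
  have hΔ' : 14 * s3 + 2 * s1 + 2 * s2 ≤ 2 * Δ + 16 := by omega
  have hfour : 4 * (s1 + s2 + s3) ≤ s1 * s2 * s3 + 8 := by
    obtain ⟨u, rfl⟩ := Nat.exists_eq_add_of_le h1
    obtain ⟨t, rfl⟩ := Nat.exists_eq_add_of_le h12
    obtain ⟨p, rfl⟩ := Nat.exists_eq_add_of_le h23
    nlinarith [Nat.zero_le (u * t), Nat.zero_le (u * p), Nat.zero_le (t * p), Nat.zero_le (u * u),
      Nat.zero_le (t * t), Nat.zero_le (u * u * u), Nat.zero_le (u * u * t), Nat.zero_le (u * t * t),
      Nat.zero_le (u * u * p), Nat.zero_le (u * t * p)]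
  -- few points
  have hfew : ∀ b, (b - 1) * (2 * Δ + 1) ≤ 2 * (s1 * s2 * s3) → 7 * (b - 1) ≤ s1 * s2 := by
    intro b hb
    have h2 : (b - 1) * (14 * s3) ≤ (b - 1) * (2 * Δ + 1) := Nat.mul_le_mul_left _ (by omega)
    have h3 : (2 * s3) * (7 * (b - 1)) ≤ (2 * s3) * (s1 * s2) := by
      calc (2 * s3) * (7 * (b - 1)) = (b - 1) * (14 * s3) := by ring
        _ ≤ _ := h2.trans hb
        _ = _ := by ring
    exact Nat.le_of_mul_le_mul_left h3 (by omega)
  by_cases h5 : s1 ≤ 5
  · refine ⟨[s3, s1, s2], ?_, ?_, ?_⟩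
    · exact (List.Perm.swap s1 s3 [s2]).trans ((List.Perm.swap s2 s3 []).cons s1)
    · have : [s3, s1, s2].prod = s1 * s2 * s3 := by simp; ring
      rw [this]
      simp only [D]
      omega
    · intro b w C hC hb
      have hp : [s3, s1, s2].prod = s1 * s2 * s3 := by simp; ring
      rw [hp] at hb
      have h6 := hfew b hb
      refine base_slices s3 [s1, s2] (by simp) ?_ b ?_ ?_ w C hC
      · intro a ha
        simp only [List.mem_cons, List.not_mem_nil, or_false] at ha
        rcases ha with rfl | rfl <;> omega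
      · -- fewer than `s3` points
        by_contra hcon
        push Not at hcon
        have h7 : (s3 - 1) * (14 * s3 + 2 * s1 + 2 * s2 - 15) ≤ 2 * (s1 * s2 * s3) := by
          refine le_trans ?_ hb
          exact Nat.mul_le_mul (by omega) (by omega)
        obtain ⟨p, rfl⟩ := Nat.exists_eq_add_of_le h23
        have h8 : s1 = 4 ∨ s1 = 5 := by omega
        rcases h8 with rfl | rfl
        · obtain ⟨u, rfl⟩ := Nat.exists_eq_add_of_le h12
          rw [show 4 + u + p - 1 = 3 + u + p by omega,
            show 14 * (4 + u + p) + 2 * 4 + 2 * (4 + u) - 15 = 57 + 16 * u + 14 * p by omega] at h7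
          nlinarith [Nat.zero_le (u * p), Nat.zero_le (u * u), Nat.zero_le (p * p)]
        · obtain ⟨u, rfl⟩ := Nat.exists_eq_add_of_le h12
          rw [show 5 + u + p - 1 = 4 + u + p by omega,
            show 14 * (5 + u + p) + 2 * 5 + 2 * (5 + u) - 15 = 75 + 16 * u + 14 * p by omega] at h7
          nlinarith [Nat.zero_le (u * p), Nat.zero_le (u * u), Nat.zero_le (p * p)]
      · simp only [D, List.prod_cons, List.prod_nil, mul_one]
        have h9 : 7 * (s1 + s2) ≤ 6 * (s1 * s2) := by
          obtain ⟨u, rfl⟩ := Nat.exists_eq_add_of_le h1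
          obtain ⟨t, rfl⟩ := Nat.exists_eq_add_of_le h12
          nlinarith [Nat.zero_le (u * t), Nat.zero_le (u * u)]
        omega
  · refine ⟨[s1, s2, s3], List.Perm.refl _, ?_, ?_⟩
    · have : [s1, s2, s3].prod = s1 * s2 * s3 := by simp; ring
      rw [this]
      simp only [D]
      omega
    · intro b w C hC hb
      have hp : [s1, s2, s3].prod = s1 * s2 * s3 := by simp; ring
      rw [hp] at hb
      have h6 := hfew b hb
      refine Two.base_three (by omega) (by omega) (Nat.div_le_div_right (h12.trans h23))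
        (Nat.div_le_div_right h23) b ?_ w C hC
      by_contra hcon
      push Not at hcon
      obtain ⟨a, ha⟩ : ∃ a, s1 / 2 = 3 + a := ⟨s1 / 2 - 3, by omega⟩
      obtain ⟨c, hc⟩ : ∃ c, s2 / 2 = 3 + c := ⟨s2 / 2 - 3, by omega⟩
      rw [ha, hc] at hcon
      have h7 : s1 * s2 ≤ (7 + 2 * a) * (7 + 2 * c) := Nat.mul_le_mul (by omega) (by omega)
      have h8 : (7 + 2 * a) * (7 + 2 * c) = 49 + 14 * a + 14 * c + 4 * (a * c) := by ring
      have h9 : (3 + a) * (3 + c) = 9 + 3 * a + 3 * c + a * c := by ring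
      rw [h9] at hcon
      rw [h8] at h7
      omega

/-- Sorting. -/
theorem exists_sort (Y : List ℕ) (hY : ∀ a ∈ Y, 2 ≤ a) :
    ∃ n2 n3 U, Y.Perm (List.replicate n2 2 ++ (List.replicate n3 3 ++ U)) ∧
      U.Pairwise (· ≤ ·) ∧ ∀ a ∈ U, 4 ≤ a := by
  let p2 : ℕ → Bool := fun a => decide (a = 2)
  let p3 : ℕ → Bool := fun a => decide (a = 3)
  let Y1 := Y.filter (fun a => !p2 a)
  let Y2 := Y1.filter (fun a => !p3 a)
  have e2 : Y.filter p2 = List.replicate (Y.filter p2).length 2 := by
    rw [List.eq_replicate_iff]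
    refine ⟨rfl, fun b hb => ?_⟩
    have := (List.mem_filter.1 hb).2
    simpa [p2] using this
  have e3 : Y1.filter p3 = List.replicate (Y1.filter p3).length 3 := by
    rw [List.eq_replicate_iff]
    refine ⟨rfl, fun b hb => ?_⟩
    have := (List.mem_filter.1 hb).2
    simpa [p3] using this
  refine ⟨(Y.filter p2).length, (Y1.filter p3).length, Y2.insertionSort (· ≤ ·), ?_, ?_, ?_⟩
  · rw [← e2, ← e3]
    have h1 : (Y.filter p2 ++ Y1).Perm Y := List.filter_append_perm p2 Y
    have h2 : (Y1.filter p3 ++ Y2).Perm Y1 := List.filter_append_perm p3 Y1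
    have h3 : (Y2.insertionSort (· ≤ ·)).Perm Y2 := List.perm_insertionSort _ _
    exact (((h3.append_left _).trans h2).append_left _ |>.trans h1).symm
  · exact List.pairwise_insertionSort _ _
  · intro a ha
    rw [List.mem_insertionSort] at ha
    obtain ⟨ha1, ha2⟩ := List.mem_filter.1 ha
    obtain ⟨ha3, ha4⟩ := List.mem_filter.1 ha1
    have h1 := hY a ha3
    have h2 : a ≠ 2 := by simpa [p2] using ha4
    have h3 : a ≠ 3 := by simpa [p3] using ha2
    omega

theorem replicate_prod_le (n m a : ℕ) (ha : 1 ≤ a) (h : n ≤ m) :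
    (List.replicate n a).prod ≤ a ^ m := by
  rw [List.prod_replicate]
  exact Nat.pow_le_pow_right ha h

/-- The theorem for lists. -/
theorem lists_final [Infinite K] (q : ℕ) (S O Y : List ℕ) (hSO : Y.Perm (S ++ O)) (hq : 2 ≤ q)
    (hY : ∀ a ∈ Y, 2 ≤ a) (hP : q * D Y ^ 2 * D S ^ 6 ≤ S.prod) (r : ℕ) :
    Reach K (q :: Y) r (min (r * D (q :: Y)) (q :: Y).prod) := by
  obtain ⟨Δ, hΔ⟩ : ∃ Δ, D Y = Δ := ⟨_, rfl⟩
  obtain ⟨δ, hδ⟩ : ∃ δ, D S = δ := ⟨_, rfl⟩
  rw [hΔ, hδ] at hP
  have hS : ∀ a ∈ S, 2 ≤ a := fun a ha => hY a (hSO.mem_iff.2 (List.mem_append_left _ ha))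
  have hS1 : ∀ a ∈ S, 1 ≤ a := fun a ha => (by norm_num : 1 ≤ 2).trans (hS a ha)
  have hδΔ : δ ≤ Δ := by
    have h1 := D_append S O
    have h2 := D_perm hSO
    have h3 := one_le_D O
    omega
  have hP8 : 2 * δ ^ 8 ≤ S.prod := by
    refine le_trans ?_ hP
    calc 2 * δ ^ 8 = 2 * δ ^ 2 * δ ^ 6 := by ring
      _ ≤ q * Δ ^ 2 * δ ^ 6 := Nat.mul_le_mul_right _ (Nat.mul_le_mul hq
          (Nat.pow_le_pow_left hδΔ 2))
  have h47 : 47 ≤ δ := by
    have h1 := prod_le_two_pow S hS1
    rw [hδ] at h1
    have h2 := one_le_D S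
    exact num47 δ (by omega) (hP8.trans h1)
  obtain ⟨n2, n3, U, hperm, hsort, hU⟩ := exists_sort S hS
  by_cases hn2 : 5 ≤ n2
  · -- five factors of size two
    obtain ⟨m, rfl⟩ : ∃ m, n2 = 5 + m := ⟨n2 - 5, by omega⟩
    have h1 : ([2, 2, 2, 2, 2] : List ℕ) ++ (List.replicate m 2 ++ (List.replicate n3 3 ++ U)) =
      List.replicate (5 + m) 2 ++ (List.replicate n3 3 ++ U) := by
      rw [List.replicate_add]
      simp [List.replicate]
    have hperm' : S.Perm ([] ++ ([2, 2, 2, 2, 2] ++
        (List.replicate m 2 ++ (List.replicate n3 3 ++ U)))) := by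
      rw [List.nil_append, h1]; exact hperm
    refine core q Δ δ [] [2, 2, 2, 2, 2] (List.replicate m 2 ++ (List.replicate n3 3 ++ U)) O
      [2, 2, 2, 2, 2] Y (List.Perm.refl _) (hSO.trans (hperm'.append_right O)) hq hY (by simp) ?_ hΔ
      (by rw [← D_perm hperm', hδ]) h47 (by rw [← hperm'.prod_eq]; exact hP) (Or.inl ?_) (by simp [D])
      ?_ r
    · rw [h1, List.pairwise_append, List.pairwise_append]
      refine ⟨List.pairwise_replicate.2 (Or.inr le_rfl), ⟨List.pairwise_replicate.2 (Or.inr le_rfl),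
        hsort, ?_⟩, ?_⟩
      · intro a ha b hb
        rw [List.eq_of_mem_replicate ha]
        have := hU b hb
        omega
      · intro a ha b hb
        rw [List.eq_of_mem_replicate ha]
        rcases List.mem_append.1 hb with hb | hb
        · rw [List.eq_of_mem_replicate hb]; norm_num
        · have := hU b hb
          omega
    · have : 47 ^ 2 ≤ δ ^ 2 := Nat.pow_le_pow_left h47 2
      simp only [List.prod_cons, List.prod_nil]
      omega
    · intro b w C hC hb
      exact base_one [2, 2, 2, 2, 2] (by simp) (by simp) δ (by simp; omega) b w C hC hb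
  · by_cases hn3 : 4 ≤ n3
    · -- four factors of size three
      obtain ⟨m, rfl⟩ : ∃ m, n3 = 4 + m := ⟨n3 - 4, by omega⟩
      have h1 : ([3, 3, 3, 3] : List ℕ) ++ (List.replicate m 3 ++ U) =
        List.replicate (4 + m) 3 ++ U := by
        rw [List.replicate_add]
        simp [List.replicate]
      have hperm' : S.Perm (List.replicate n2 2 ++ ([3, 3, 3, 3] ++
          (List.replicate m 3 ++ U))) := by
        rw [h1]; exact hperm
      refine core q Δ δ (List.replicate n2 2) [3, 3, 3, 3] (List.replicate m 3 ++ U) O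
        [3, 3, 3, 3] Y (List.Perm.refl _) (hSO.trans (hperm'.append_right O)) hq hY ?_ ?_ hΔ
        (by rw [← D_perm hperm', hδ]) h47 (by rw [← hperm'.prod_eq]; exact hP) (Or.inl ?_)
        (by simp [D]) ?_ r
      · exact (replicate_prod_le n2 4 2 (by norm_num) (by omega)).trans (by norm_num)
      · rw [h1, List.pairwise_append]
        refine ⟨List.pairwise_replicate.2 (Or.inr le_rfl), hsort, ?_⟩
        intro a ha b hb
        rw [List.eq_of_mem_replicate ha]
        have := hU b hb
        omega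
      · have : 47 ^ 2 ≤ δ ^ 2 := Nat.pow_le_pow_left h47 2
        simp only [List.prod_cons, List.prod_nil]
        omega
      · intro b w C hC hb
        have hp : ([3, 3, 3, 3] : List ℕ).prod = 81 := by simp
        rw [hp] at hb
        have hb2 : b ≤ 2 := by
          by_contra hcon
          have : 2 * (2 * δ + 1) ≤ (b - 1) * (2 * δ + 1) := Nat.mul_le_mul_right _ (by omega)
          omega
        exact base_slices 3 [3, 3, 3] (by simp) (by simp) b (by omega) (by simp [D]; omega) w C hC
    · -- many large factors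
      have hTp : (List.replicate n2 2 ++ List.replicate n3 3).prod ≤ 432 := by
        rw [List.prod_append]
        calc (List.replicate n2 2).prod * (List.replicate n3 3).prod ≤ 2 ^ 4 * 3 ^ 3 :=
              Nat.mul_le_mul (replicate_prod_le n2 4 2 (by norm_num) (by omega))
                (replicate_prod_le n3 3 3 (by norm_num) (by omega))
          _ = 432 := by norm_num
      have hperm' : S.Perm ((List.replicate n2 2 ++ List.replicate n3 3) ++ U) := by
        rw [List.append_assoc]; exact hperm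
      have hDU : D U ≤ δ := by
        have h5 := D_perm hperm'
        have h6 := D_append_le (List.replicate n2 2 ++ List.replicate n3 3) U
        omega
      have hlen : 9 ≤ U.length := by
        by_contra hcon
        push Not at hcon
        have h3 := prod_le_choose' U (fun a ha => by have := hU a ha; omega) δ 8 hDU (by omega)
        refine num8 δ S.prod h47 hP8 ?_
        rw [hperm'.prod_eq, List.prod_append]
        exact Nat.mul_le_mul hTp h3
      obtain ⟨s1, s2, s3, W, rfl⟩ : ∃ s1 s2 s3 W, U = s1 :: s2 :: s3 :: W := by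
        match U, hlen with
        | s1 :: s2 :: s3 :: W, _ => exact ⟨s1, s2, s3, W, rfl⟩
      have hs := hsort
      rw [List.pairwise_cons, List.pairwise_cons, List.pairwise_cons] at hs
      obtain ⟨i1, i2, i3, i4⟩ := hs
      have g1 : 4 ≤ s1 := hU s1 (by simp)
      have g12 : s1 ≤ s2 := i1 s2 (by simp)
      have g23 : s2 ≤ s3 := i2 s3 (by simp)
      have hW : ∀ a ∈ s3 :: W, s3 ≤ a := by
        intro a ha
        rcases List.mem_cons.1 ha with rfl | ha
        · exact le_rfl
        · exact i3 a ha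
      simp only [List.length_cons] at hlen
      have hD7 : 7 * (s3 - 1) + (s1 - 1) + (s2 - 1) + 1 ≤ δ := by
        have h1 := len_mul_le s3 (s3 :: W) hW
        have h2 : D (s1 :: s2 :: s3 :: W) = (s1 - 1) + ((s2 - 1) + D (s3 :: W)) := rfl
        have h3 : 7 * (s3 - 1) ≤ (s3 :: W).length * (s3 - 1) :=
          Nat.mul_le_mul_right _ (by rw [List.length_cons]; omega)
        omega
      obtain ⟨z', hz', h4, base⟩ := base_triple (K := K) s1 s2 s3 δ g1 g12 g23 hD7
      refine core q Δ δ (List.replicate n2 2 ++ List.replicate n3 3) [s1, s2, s3] W O z' Y hz'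
        (hSO.trans (hperm'.append_right O)) hq hY hTp hsort hΔ
        (by rw [hδ.symm, D_perm hperm']; rfl) h47 (by
          have h9 : S.prod = ((List.replicate n2 2 ++ List.replicate n3 3) ++
            ([s1, s2, s3] ++ W)).prod := hperm'.prod_eq
          rw [← h9]; exact hP)
        (Or.inr ⟨s3, by omega, by omega, ?_, ?_, ?_, by omega⟩) h4 base r
      · intro a ha
        simp only [List.mem_cons, List.not_mem_nil, or_false] at ha
        rcases ha with rfl | rfl | rfl <;> omega
      · intro a ha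
        exact i3 a ha
      · simp only [List.prod_cons, List.prod_nil, mul_one]
        calc s1 * (s2 * s3) ≤ s3 * (s3 * s3) := Nat.mul_le_mul (g12.trans g23)
              (Nat.mul_le_mul_right _ g23)
          _ = s3 ^ 3 := by ring

end Pool.Agent.Lib.MP_635d71_ag
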