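import Mathlib
import Pool.Agent.Lib.MP_635d71_ag.Lists
import Pool.Agent.Lib.MP_635d71_ag.AGUpper
import Pool.Agent.Lib.MP_635d71_ag.AGLower

/-!
# The theorem for families
-/

open Module

namespace Pool.Agent.Lib.MP_635d71_ag

theorem balanced {k : ℕ} (d : Fin k → ℕ) (hd : ∀ i, 1 ≤ d i) (i₀ : Fin k) (S : Finset (Fin k))
    (hS : i₀ ∉ S)
    (h : (d i₀ + 1) * (∑ i ∈ Finset.univ.erase i₀, d i + 1) ^ 2 * (∑ i ∈ S, d i + 1) ^ 6 ≤
      ∏ i ∈ S, (d i + 1)) (r : ℕ) :
    coneDim d r = ((min (r * (∑ i, d i + 1)) (∏ i, (d i + 1)) : ℕ) : Cardinal) := by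
  classical
  refine le_antisymm (coneDim_le d r) ?_
  have hk : 1 ≤ k := by
    rcases k with _ | k
    · exact i₀.elim0
    · omega
  let O := Finset.univ \ insert i₀ S
  have hperm : (List.finRange k).Perm (i₀ :: (S.toList ++ O.toList)) := by
    rw [List.perm_ext_iff_of_nodup (List.nodup_finRange k)]
    · intro i
      simp only [List.mem_finRange, List.mem_append, Finset.mem_toList, O, Finset.mem_sdiff,
        Finset.mem_univ, Finset.mem_insert, List.mem_cons, true_and, true_iff]
      tauto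
    · rw [List.nodup_cons, List.nodup_append]
      refine ⟨?_, Finset.nodup_toList _, Finset.nodup_toList _, ?_⟩
      · simp only [List.mem_append, Finset.mem_toList, O, Finset.mem_sdiff, Finset.mem_univ,
          Finset.mem_insert, true_and]
        tauto
      · intro a ha b hb hab
        subst hab
        simp only [Finset.mem_toList, O, Finset.mem_sdiff, Finset.mem_univ, Finset.mem_insert,
          true_and, not_or] at ha hb
        exact hb.2 ha
  let g : Fin k → ℕ := fun i => d i + 1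
  have hperm2 : ((i₀ :: (S.toList ++ O.toList)).map g).Perm (lst d) := by
    rw [lst_eq, List.ofFn_eq_map]
    exact (hperm.map g).symm
  set Y := (S.toList ++ O.toList).map g with hYdef
  have hperm3 : ((d i₀ + 1) :: Y).Perm (lst d) := by
    rw [List.map_cons] at hperm2
    exact hperm2
  have hDL : D ((d i₀ + 1) :: Y) = ∑ i, d i + 1 := by rw [D_perm hperm3, D_lst]
  have hpL : ((d i₀ + 1) :: Y).prod = ∏ i, (d i + 1) := by rw [hperm3.prod_eq, prod_lst]
  have hDY : D Y = ∑ i ∈ Finset.univ.erase i₀, d i + 1 := by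
    have h1 : D ((d i₀ + 1) :: Y) = (d i₀ + 1 - 1) + D Y := rfl
    have h2 := Finset.add_sum_erase Finset.univ d (Finset.mem_univ i₀)
    omega
  have hDS : D (S.toList.map g) = ∑ i ∈ S, d i + 1 := by
    rw [D_map d, Finset.sum_map_toList]
  have hpS : (S.toList.map g).prod = ∏ i ∈ S, (d i + 1) := by
    rw [Finset.prod_map_toList]
  have e0 := hd i₀
  have hY2 : ∀ a ∈ Y, 2 ≤ a := by
    intro a ha
    obtain ⟨i, _, rfl⟩ := List.mem_map.1 ha
    have := hd i
    simp only [g]
    omega
  have key : Reach ℂ ((d i₀ + 1) :: Y) r (min (r * D ((d i₀ + 1) :: Y)) ((d i₀ + 1) :: Y).prod) :=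
    lists_final (d i₀ + 1) (S.toList.map g) (O.toList.map g) Y (by
      rw [hYdef, List.map_append]) (by omega) hY2 (by rw [hDY, hDS, hpS]; exact h) r
  have key2 := key.of_equ (Equ.of_perm hperm3)
  rw [hDL, hpL] at key2
  obtain ⟨x, hx⟩ := exists_vecs hk d key2
  refine le_trans ?_ (le_coneDim x)
  exact_mod_cast hx

end Pool.Agent.Lib.MP_635d71_ag
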