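import Mathlib
import Pool.Agent.Lib.MP_635d71_ag.FlowDim
import Pool.Agent.Lib.MP_635d71_ag.Special

/-!
# Flows between the slices of a format with three factors, with external points

An external point `p` of a slice has first vector `x_a + x_b` for two points `a`, `b` of another
slice. Its product tensor is absorbed in that slice, and gives a new vector in the next slice.
-/

open Module Submodule Polynomial

namespace Pool.Agent.Lib.MP_635d71_ag

variable {K : Type} [Field K]

/-- The points, with the constraints. -/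
def px {ι : Type} {A B : ℕ} (ext : ι → Option (ι × ι)) (v : ι → Coord [A, B] → K) (p : ι) :
    Coord [A, B] → K :=
  match ext p with
  | none => v p
  | some ab => cons (hd (v ab.1) + hd (v ab.2)) (tl (v p))

/-- The points, with the constraints, as linear maps. -/
def pxL (K : Type) [Field K] {ι : Type} (A B : ℕ) (ext : ι → Option (ι × ι)) (p : ι) :
    (ι → Coord [A, B] → K) →ₗ[K] (Coord [A, B] → K) where
  toFun := fun v => px ext v p
  map_add' := fun v w => by
    unfold px
    split
    · rfl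
    · funext c
      rcases c with c | c
      · change (v _ _ + w _ _) + (v _ _ + w _ _) = (v _ _ + v _ _) + (w _ _ + w _ _)
        ring
      · rfl
  map_smul' := fun a v => by
    unfold px
    split
    · rfl
    · funext c
      rcases c with c | c
      · change a * v _ _ + a * v _ _ = a * (v _ _ + v _ _)
        ring
      · rfl

theorem px_none {ι : Type} {A B : ℕ} (ext : ι → Option (ι × ι)) (v : ι → Coord [A, B] → K) (p : ι)
    (h : ext p = none) : px ext v p = v p := by
  unfold px
  rw [h]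

theorem px_some {ι : Type} {A B : ℕ} (ext : ι → Option (ι × ι)) (v : ι → Coord [A, B] → K)
    (p a b : ι) (h : ext p = some (a, b)) :
    px ext v p = cons (hd (v a) + hd (v b)) (tl (v p)) := by
  unfold px
  rw [h]

theorem E_px_some {ι : Type} {A B : ℕ} (ext : ι → Option (ι × ι)) (v : ι → Coord [A, B] → K)
    (p a b : ι) (h : ext p = some (a, b)) :
    E [A, B] (px ext v p) = E [A, B] (mix (v a) (v p)) + E [A, B] (mix (v b) (v p)) := by
  rw [px_some ext v p a b h]
  exact ten_add_left _ _ _

theorem linePoly_of_linear_E {V : Type} [AddCommGroup V] [Module K V] {A B : ℕ}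
    (L : V →ₗ[K] (Coord [A, B] → K)) (a : K) :
    LinePoly K (fun w : K × V => a • E [A, B] (L w.2)) :=
  LinePoly.smul_const _ _ (linePoly_E [A, B] (L.comp (LinearMap.snd K K V)))

/-- Flows between the slices. -/
theorem flow3 [Infinite K] {q A B : ℕ} {ι : Type} [Finite ι] (sl : ι → Fin q) (cls : ι → ℕ)
    (n1 n2 : Fin q → Fin q) (ext : ι → Option (ι × ι))
    (hext : ∀ p a b, ext p = some (a, b) → ext a = none ∧ ext b = none ∧ sl a = sl b ∧
      cls a ≠ cls b) (C : Finset (Grid [q, A, B])) (n : Fin q → ℕ)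
    (hn : ∀ j, ∃ v : ι → Coord [A, B] → K, n j ≤ finrank K ↥(coordSub K (slice C j) ⊔
      span K ((({f | ∃ p, sl p = j ∧ f ∈ T [A, B] (px ext v p)} ∪
        {f | ∃ p p', p ≠ p' ∧ sl p = sl p' ∧ ((cls p ≠ cls p' ∧ n1 (sl p) = j) ∨
          (cls p = cls p' ∧ n2 (sl p) = j)) ∧ f = E [A, B] (mix (px ext v p) (px ext v p'))}) ∪
        {f | ∃ p a b, ext p = some (a, b) ∧ n1 (sl a) = j ∧ f = E [A, B] (mix (v a) (v p))}) ∪
        {f | ∃ p, f = E [A, B] (px ext v p)}))) :
    ∃ x : ι → Coord [q, A, B] → K,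
      ∑ j, n j ≤ finrank K ↥(coordSub K C ⊔ ⨆ p, T [q, A, B] (x p)) := by
  classical
  cases nonempty_fintype ι
  obtain ⟨c, hc⟩ : ∃ c : ι → K, ∀ p p', c p = c p' ↔ cls p = cls p' :=
    ⟨fun p => Infinite.natEmbedding K (cls p), fun p p' =>
      (Infinite.natEmbedding K).injective.eq_iff⟩
  obtain ⟨d, hd'⟩ : ∃ d : ι → K, Function.Injective d :=
    ⟨fun p => Infinite.natEmbedding K (Fintype.equivFin ι p).val,
      (Infinite.natEmbedding K).injective.comp
        (Fin.val_injective.comp (Fintype.equivFin ι).injective)⟩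
  let u : ι → Fin q → K[X] := fun p j => Polynomial.C ((Pi.single (sl p) (1 : K) : Fin q → K) j) +
    X * Polynomial.C (c p * (Pi.single (n1 (sl p)) (1 : K) : Fin q → K) j) +
    X ^ 2 * Polynomial.C (d p * (Pi.single (n2 (sl p)) (1 : K) : Fin q → K) j)
  have hu : ∀ p (ε : K), (fun j => (u p j).eval ε) = (Pi.single (sl p) (1 : K) : Fin q → K) +
      (ε * c p) • (Pi.single (n1 (sl p)) (1 : K) : Fin q → K) +
      (ε ^ 2 * d p) • (Pi.single (n2 (sl p)) (1 : K) : Fin q → K) := by
    intro p ε
    funext j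
    simp only [u, eval_add, eval_mul, eval_C, eval_X, eval_pow, Pi.add_apply, Pi.smul_apply,
      smul_eq_mul]
    ring
  let L : ι → (ι → Coord [A, B] → K) →ₗ[K] (Coord [A, B] → K) := fun p => pxL K A B ext p
  let κ1 := {x : ι × ι // x.1 ≠ x.2 ∧ sl x.1 = sl x.2}
  let κ2 := {x : ι × ι × ι // ext x.1 = some (x.2.1, x.2.2)}
  -- the mixed points
  let mL : ι → ι → (ι → Coord [A, B] → K) →ₗ[K] (Coord [A, B] → K) := fun p p' =>
    (mixL K A [B] (0 : Fin 2) 1).comp (LinearMap.pi fun i : Fin 2 => if i = 0 then L p else L p')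
  have hmL : ∀ p p' v, mL p p' v = mix (px ext v p) (px ext v p') := by
    intro p p' v
    rfl
  -- the direction of a pair
  let P : κ1 → Fin q → K[X] := fun k j => if cls k.1.1 = cls k.1.2 then
      Polynomial.C ((d k.1.1 - d k.1.2) * (Pi.single (n2 (sl k.1.1)) (1 : K) : Fin q → K) j)
    else Polynomial.C ((c k.1.1 - c k.1.2) * (Pi.single (n1 (sl k.1.1)) (1 : K) : Fin q → K) j) +
      X * Polynomial.C ((d k.1.1 - d k.1.2) * (Pi.single (n2 (sl k.1.1)) (1 : K) : Fin q → K) j)
  let Q : κ2 → Fin q → K[X] := fun k j =>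
      X * Polynomial.C ((Pi.single (n2 (sl k.1.2.1)) (1 : K) : Fin q → K) j)
  let Ω : κ1 ⊕ κ2 → K × (ι → Coord [A, B] → K) → Grid [q, A, B] → K := fun k w => match k with
    | Sum.inl k => ten (fun j => (P k j).eval w.1) (E [A, B] (mix (px ext w.2 k.1.1)
        (px ext w.2 k.1.2)))
    | Sum.inr k => ten (Pi.single (n1 (sl k.1.2.1)) 1)
          (c k.1.2.1 • E [A, B] (mixL K A [B] k.1.2.1 k.1.1 w.2) +
            c k.1.2.2 • E [A, B] (mixL K A [B] k.1.2.2 k.1.1 w.2)) +
        ten (fun j => (Q k j).eval w.1)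
          (d k.1.2.1 • E [A, B] (mixL K A [B] k.1.2.1 k.1.1 w.2) +
            d k.1.2.2 • E [A, B] (mixL K A [B] k.1.2.2 k.1.1 w.2))
  let tgt : κ1 ⊕ κ2 → Fin q := fun k => match k with
    | Sum.inl k => if cls k.1.1 = cls k.1.2 then n2 (sl k.1.1) else n1 (sl k.1.1)
    | Sum.inr k => n1 (sl k.1.2.1)
  let co : κ1 → K := fun k => if cls k.1.1 = cls k.1.2 then d k.1.1 - d k.1.2 else
    c k.1.1 - c k.1.2
  have hco : ∀ k, co k ≠ 0 := by
    intro k
    simp only [co]
    split_ifs with h
    · exact sub_ne_zero.2 fun h' => k.2.1 (hd' h')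
    · exact sub_ne_zero.2 fun h' => h ((hc _ _).1 h')
  let ν : κ1 ⊕ κ2 → (ι → Coord [A, B] → K) → Grid [A, B] → K := fun k v => match k with
    | Sum.inl k => co k • E [A, B] (mL k.1.1 k.1.2 v)
    | Sum.inr k => c k.1.2.1 • E [A, B] (mixL K A [B] k.1.2.1 k.1.1 v) +
            c k.1.2.2 • E [A, B] (mixL K A [B] k.1.2.2 k.1.1 v)
  obtain ⟨w, hw⟩ := assembly_eps (K := K) [A, B] C L sl u
    (fun p j => by
      have h := congrFun (hu p 0) j
      change (u p j).eval 0 = _ at h
      rw [h]
      simp)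
    Ω (by
      rintro (k | k)
      · exact linePoly_ten _ _ (LinePoly.of_poly (P k))
          (linePoly_E [A, B] ((mL k.1.1 k.1.2).comp (LinearMap.snd K K (ι → Coord [A, B] → K))))
      · refine LinePoly.add_fun _ _ (linePoly_ten _ _ (LinePoly.const _)
          (LinePoly.add_fun _ _ (linePoly_of_linear_E _ _) (linePoly_of_linear_E _ _)))
          (linePoly_ten _ _ (LinePoly.of_poly (Q k))
          (LinePoly.add_fun _ _ (linePoly_of_linear_E _ _) (linePoly_of_linear_E _ _))))
    (by
      have hTle : ∀ (w : K × (ι → Coord [A, B] → K)) p,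
          T [q, A, B] (cons (fun j => (u p j).eval w.1) (L p w.2)) ≤
          ⨆ p, T [q, A, B] (cons (fun j => (u p j).eval w.1) (L p w.2)) := fun w p =>
        le_iSup (fun p => T [q, A, B] (cons (fun j => (u p j).eval w.1) (L p w.2))) p
      rintro (k | k) w hw
      · have h1 : ten (fun j => (u k.1.1 j).eval w.1) (E [A, B] (mix (px ext w.2 k.1.1)
            (px ext w.2 k.1.2))) -
            ten (fun j => (u k.1.2 j).eval w.1) (E [A, B] (mix (px ext w.2 k.1.1)
            (px ext w.2 k.1.2))) ∈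
            ⨆ p, T [q, A, B] (cons (fun j => (u p j).eval w.1) (L p w.2)) := by
          refine Submodule.sub_mem _ (hTle w k.1.1 ?_) (hTle w k.1.2 ?_)
          · exact ten_mem_T (cons (fun j => (u k.1.1 j).eval w.1) (L k.1.1 w.2))
              (E_mix_mem_left (px ext w.2 k.1.1) (px ext w.2 k.1.2))
          · exact ten_mem_T (cons (fun j => (u k.1.2 j).eval w.1) (L k.1.2 w.2))
              (E_mix_mem_right (px ext w.2 k.1.1) (px ext w.2 k.1.2))
        rw [ten_sub_left, hu, hu, ← k.2.2] at h1
        by_cases h : cls k.1.1 = cls k.1.2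
        · have hcc : c k.1.1 = c k.1.2 := (hc _ _).2 h
          have h2 : (Pi.single (sl k.1.1) (1 : K) : Fin q → K) +
              (w.1 * c k.1.1) • (Pi.single (n1 (sl k.1.1)) (1 : K) : Fin q → K) +
              (w.1 ^ 2 * d k.1.1) • (Pi.single (n2 (sl k.1.1)) (1 : K) : Fin q → K) -
              ((Pi.single (sl k.1.1) (1 : K) : Fin q → K) +
              (w.1 * c k.1.2) • (Pi.single (n1 (sl k.1.1)) (1 : K) : Fin q → K) +
              (w.1 ^ 2 * d k.1.2) • (Pi.single (n2 (sl k.1.1)) (1 : K) : Fin q → K)) =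
              w.1 ^ 2 • (fun j => (P k j).eval w.1) := by
            funext j
            simp only [P, if_pos h, hcc, eval_C, Pi.add_apply, Pi.sub_apply, Pi.smul_apply,
              smul_eq_mul]
            ring
          rw [h2, ten_smul_left] at h1
          have h3 := Submodule.smul_mem _ (w.1 ^ 2)⁻¹ h1
          rwa [smul_smul, inv_mul_cancel₀ (pow_ne_zero 2 hw), one_smul] at h3
        · have h2 : (Pi.single (sl k.1.1) (1 : K) : Fin q → K) +
              (w.1 * c k.1.1) • (Pi.single (n1 (sl k.1.1)) (1 : K) : Fin q → K) +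
              (w.1 ^ 2 * d k.1.1) • (Pi.single (n2 (sl k.1.1)) (1 : K) : Fin q → K) -
              ((Pi.single (sl k.1.1) (1 : K) : Fin q → K) +
              (w.1 * c k.1.2) • (Pi.single (n1 (sl k.1.1)) (1 : K) : Fin q → K) +
              (w.1 ^ 2 * d k.1.2) • (Pi.single (n2 (sl k.1.1)) (1 : K) : Fin q → K)) =
              w.1 • (fun j => (P k j).eval w.1) := by
            funext j
            simp only [P, if_neg h, eval_C, eval_add, eval_mul, eval_X, Pi.add_apply,
              Pi.sub_apply, Pi.smul_apply, smul_eq_mul]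
            ring
          rw [h2, ten_smul_left] at h1
          have h3 := Submodule.smul_mem _ (w.1)⁻¹ h1
          rwa [smul_smul, inv_mul_cancel₀ hw, one_smul] at h3
      · obtain ⟨⟨p, a, b⟩, hp⟩ := k
        change ext p = some (a, b) at hp
        obtain ⟨ha, hb, hsab, _⟩ := hext p a b hp
        have hLa : L a w.2 = w.2 a := px_none ext w.2 a ha
        have hLb : L b w.2 = w.2 b := px_none ext w.2 b hb
        set Fa := E [A, B] (mix (w.2 a) (w.2 p)) with hFa
        set Fb := E [A, B] (mix (w.2 b) (w.2 p)) with hFb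
        have h1 : ten (fun j => (u a j).eval w.1) Fa ∈
            ⨆ p, T [q, A, B] (cons (fun j => (u p j).eval w.1) (L p w.2)) := by
          refine hTle w a ?_
          refine ten_mem_T (cons (fun j => (u a j).eval w.1) (L a w.2)) ?_
          rw [tl_cons, hLa]
          exact E_mix_mem_left (w.2 a) (w.2 p)
        have h2 : ten (fun j => (u b j).eval w.1) Fb ∈
            ⨆ p, T [q, A, B] (cons (fun j => (u p j).eval w.1) (L p w.2)) := by
          refine hTle w b ?_
          refine ten_mem_T (cons (fun j => (u b j).eval w.1) (L b w.2)) ?_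
          rw [tl_cons, hLb]
          exact E_mix_mem_left (w.2 b) (w.2 p)
        have h3 : ten (Pi.single (sl a) (1 : K) : Fin q → K) (Fa + Fb) ∈
            ⨆ p, T [q, A, B] (cons (fun j => (u p j).eval w.1) (L p w.2)) := by
          refine hTle w p ?_
          have h4 : Fa + Fb = E [A, B] (L p w.2) := (E_px_some ext w.2 p a b hp).symm
          rw [h4]
          exact ten_E_mem_T (cons (fun j => (u p j).eval w.1) (L p w.2)) _
        have h5 := Submodule.smul_mem _ (w.1)⁻¹ (Submodule.sub_mem _ (Submodule.add_mem _ h1 h2) h3)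
        have h6 : (w.1)⁻¹ • (ten (fun j => (u a j).eval w.1) Fa +
            ten (fun j => (u b j).eval w.1) Fb - ten (Pi.single (sl a) (1 : K) : Fin q → K)
              (Fa + Fb)) = Ω (Sum.inr ⟨(p, a, b), hp⟩) w := by
          rw [inv_smul_eq_iff₀ hw, hu, hu, ← hsab]
          funext g
          simp only [Ω, Q, ten, eval_mul, eval_X, eval_C, Pi.add_apply, Pi.sub_apply,
            Pi.smul_apply, smul_eq_mul]
          change _ = w.1 * (_ * (c a * Fa g.2 + c b * Fb g.2) +
            _ * (d a * Fa g.2 + d b * Fb g.2))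
          ring
        rw [h6] at h5
        exact h5)
    tgt ν (by
      rintro (k | k)
      · exact LinePoly.smul_const (co k) _ (linePoly_E [A, B] (mL k.1.1 k.1.2))
      · exact LinePoly.add_fun _ _ (LinePoly.smul_const _ _ (linePoly_E [A, B] _))
          (LinePoly.smul_const _ _ (linePoly_E [A, B] _)))
    (by
      rintro (k | k) v
      · ext ⟨j, g⟩
        rw [ten_apply]
        change (P k j).eval 0 * E [A, B] (mix (px ext v k.1.1) (px ext v k.1.2)) g = _
        by_cases h : cls k.1.1 = cls k.1.2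
        · simp only [P, tgt, ν, co, if_pos h, eval_C, Pi.smul_apply, smul_eq_mul, hmL]
          ring
        · simp only [P, tgt, ν, co, if_neg h, eval_C, eval_add, eval_mul, eval_X, Pi.smul_apply,
            smul_eq_mul, hmL]
          ring
      · ext ⟨j, g⟩
        simp only [Ω, Q, tgt, ν, ten, eval_mul, eval_X, eval_C, Pi.add_apply, Pi.smul_apply,
          smul_eq_mul]
        ring) n (by
      intro j
      obtain ⟨v, hv⟩ := hn j
      refine ⟨v, hv.trans (Submodule.finrank_mono (sup_le_sup_left ?_ _))⟩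
      rw [span_le]
      rintro g (((⟨p, hp, hg⟩ | ⟨p, p', hne, hs, ht, rfl⟩) | ⟨p, a, b, hp, hj, rfl⟩) | ⟨p, rfl⟩)
      · exact subset_span (Or.inl (Or.inl ⟨p, hp, hg⟩))
      · let k : κ1 := ⟨(p, p'), hne, hs⟩
        have hk : E [A, B] (mix (px ext v p) (px ext v p')) = (co k)⁻¹ • ν (Sum.inl k) v := by
          change _ = (co k)⁻¹ • (co k • E [A, B] (mL p p' v))
          rw [smul_smul, inv_mul_cancel₀ (hco k), one_smul, hmL]
        rw [SetLike.mem_coe, hk]
        refine Submodule.smul_mem _ _ (subset_span (Or.inl (Or.inr ⟨Sum.inl k, ?_, rfl⟩)))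
        rcases ht with ⟨h1, h2⟩ | ⟨h1, h2⟩
        · simp only [tgt, k, if_neg h1]; exact h2
        · simp only [tgt, k, if_pos h1]; exact h2
      · obtain ⟨ha, hb, hsab, hcl⟩ := hext p a b hp
        let k : κ2 := ⟨(p, a, b), hp⟩
        set S := span K ({f | ∃ p, sl p = j ∧ f ∈ T [A, B] (L p v)} ∪ {f | ∃ k, tgt k = j ∧ f = ν k v} ∪
          {f | ∃ p, f = E [A, B] (L p v)}) with hS
        have m1 : ν (Sum.inr k) v ∈ S := subset_span (Or.inl (Or.inr ⟨Sum.inr k, hj, rfl⟩))
        have m2 : E [A, B] (L p v) ∈ S := subset_span (Or.inr ⟨p, rfl⟩)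
        have e2 : E [A, B] (L p v) = E [A, B] (mix (v a) (v p)) + E [A, B] (mix (v b) (v p)) :=
          E_px_some ext v p a b hp
        have e1 : ν (Sum.inr k) v = c a • E [A, B] (mix (v a) (v p)) +
            c b • E [A, B] (mix (v b) (v p)) := rfl
        have hcd : c b - c a ≠ 0 := sub_ne_zero.2 fun h' => hcl ((hc _ _).1 h'.symm)
        have e3 : E [A, B] (mix (v a) (v p)) =
            (c b - c a)⁻¹ • (c b • E [A, B] (L p v) - ν (Sum.inr k) v) := by
          rw [eq_inv_smul_iff₀ hcd, e1, e2]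
          module
        rw [SetLike.mem_coe, e3]
        exact Submodule.smul_mem _ _ (Submodule.sub_mem _ (Submodule.smul_mem _ _ m2) m1)
      · exact subset_span (Or.inr ⟨p, rfl⟩))
  exact ⟨fun p => cons (fun j => (u p j).eval w.1) (L p w.2), hw⟩

end Pool.Agent.Lib.MP_635d71_ag
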