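import Mathlib
import Pool.Agent.Lib.MP_635d71_ag.BigFour
import Pool.Agent.Lib.MP_635d71_ag.AGUpper
import Pool.Agent.Lib.MP_635d71_ag.AGLower
import Pool.Agent.Lib.MP_635d71_ag.Transfer

/-!
# Four large factors: the theorem for families
-/

open Module

namespace Pool.Agent.Lib.MP_635d71_ag

theorem four_factors {k : ℕ} (n : Fin k → ℕ) (S : Finset (Fin k)) (hS : S.card = 4)
    (h : ∀ i ∈ S, 100 * (∑ j, n j + 1) ≤ (n i + 1) ^ 2) (r : ℕ) :
    coneDim n r = ((min (r * (∑ i, n i + 1)) (∏ i, (n i + 1)) : ℕ) : Cardinal) := by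
  classical
  refine le_antisymm (coneDim_le n r) ?_
  -- sort the four factors
  obtain ⟨i1, m1, l1⟩ := Finset.exists_min_image S n (Finset.card_pos.1 (by omega))
  have c1 := Finset.card_erase_of_mem m1
  obtain ⟨i2, m2, l2⟩ := Finset.exists_min_image (S.erase i1) n (Finset.card_pos.1 (by omega))
  have c2 := Finset.card_erase_of_mem m2
  obtain ⟨i3, m3, l3⟩ := Finset.exists_min_image ((S.erase i1).erase i2) n
    (Finset.card_pos.1 (by omega))
  have c3 := Finset.card_erase_of_mem m3
  obtain ⟨i4, m4⟩ : (((S.erase i1).erase i2).erase i3).Nonempty := Finset.card_pos.1 (by omega)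
  have c4 : (((S.erase i1).erase i2).erase i3) = {i4} := by
    obtain ⟨x, hx⟩ := Finset.card_eq_one.1 (show (((S.erase i1).erase i2).erase i3).card = 1 by
      omega)
    rw [hx, Finset.mem_singleton] at m4
    rw [hx, m4]
  have hSe : S = {i1, i2, i3, i4} := by
    rw [← Finset.insert_erase m1, ← Finset.insert_erase m2, ← Finset.insert_erase m3, c4]
  have h12 : n i1 ≤ n i2 := l1 i2 (Finset.mem_of_mem_erase m2)
  have h23 : n i2 ≤ n i3 := l2 i3 (Finset.mem_of_mem_erase m3)
  have h34 : n i3 ≤ n i4 := l3 i4 (Finset.mem_of_mem_erase m4)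
  have hi1 : i1 ∉ ({i2, i3, i4} : Finset (Fin k)) := by
    intro hc
    have : S = {i2, i3, i4} := by rw [hSe, Finset.insert_eq_of_mem hc]
    have h5 := Finset.card_le_three (a := i2) (b := i3) (c := i4)
    rw [← this] at h5
    omega
  have hk : 1 ≤ k := by
    rcases k with _ | k
    · exact i1.elim0
    · omega
  have d21 : i2 ≠ i1 := Finset.ne_of_mem_erase m2
  have d32 : i3 ≠ i2 := Finset.ne_of_mem_erase m3
  have d31 : i3 ≠ i1 := Finset.ne_of_mem_erase (Finset.mem_of_mem_erase m3)
  have d43 : i4 ≠ i3 := Finset.ne_of_mem_erase m4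
  have d42 : i4 ≠ i2 := Finset.ne_of_mem_erase (Finset.mem_of_mem_erase m4)
  have d41 : i4 ≠ i1 := Finset.ne_of_mem_erase (Finset.mem_of_mem_erase (Finset.mem_of_mem_erase m4))
  let O := Finset.univ \ S
  have hperm : (List.finRange k).Perm (i4 :: (O.toList ++ [i3, i1, i2])) := by
    rw [List.perm_ext_iff_of_nodup (List.nodup_finRange k)]
    · intro i
      simp only [List.mem_finRange, List.mem_append, Finset.mem_toList, O, Finset.mem_sdiff,
        Finset.mem_univ, List.mem_cons, true_and, true_iff, List.not_mem_nil, or_false]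
      by_cases hi : i ∈ S
      · rw [hSe] at hi
        simp only [Finset.mem_insert, Finset.mem_singleton] at hi
        tauto
      · tauto
    · have hS4 : ∀ i, i ∉ S → i ≠ i1 ∧ i ≠ i2 ∧ i ≠ i3 ∧ i ≠ i4 := by
        intro i hi
        rw [hSe] at hi
        simp only [Finset.mem_insert, Finset.mem_singleton, not_or] at hi
        exact hi
      rw [List.nodup_cons, List.nodup_append]
      refine ⟨?_, Finset.nodup_toList _, ?_, ?_⟩
      · simp only [List.mem_append, Finset.mem_toList, O, Finset.mem_sdiff, Finset.mem_univ,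
          List.mem_cons, true_and, List.not_mem_nil, or_false, not_or]
        refine ⟨fun hc => (hS4 _ hc).2.2.2 rfl, d43, d41, d42⟩
      · simp [d31, d32, d21.symm]
      · intro a ha b hb hab
        subst hab
        simp only [Finset.mem_toList, O, Finset.mem_sdiff, Finset.mem_univ, true_and] at ha
        simp only [List.mem_cons, List.not_mem_nil, or_false] at hb
        have := hS4 a ha
        tauto
  let g : Fin k → ℕ := fun i => n i + 1
  have hperm2 : ((i4 :: (O.toList ++ [i3, i1, i2])).map g).Perm (lst n) := by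
    rw [lst_eq, List.ofFn_eq_map]
    exact (hperm.map g).symm
  have hperm3 : ((n i4 + 1) :: (O.toList.map g ++ [n i3 + 1, n i1 + 1, n i2 + 1])).Perm
      (lst n) := by
    rw [List.map_cons, List.map_append] at hperm2
    exact hperm2
  have hDL : D ((n i4 + 1) :: (O.toList.map g ++ [n i3 + 1, n i1 + 1, n i2 + 1])) =
      ∑ i, n i + 1 := by rw [D_perm hperm3, D_lst]
  have hpL : ((n i4 + 1) :: (O.toList.map g ++ [n i3 + 1, n i1 + 1, n i2 + 1])).prod =
      ∏ i, (n i + 1) := by rw [hperm3.prod_eq, prod_lst]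
  have key := four_lists (K := ℂ) two_ne_zero (n i4 + 1) (n i1 + 1) (n i2 + 1) (n i3 + 1)
    (∑ i, n i + 1) (O.toList.map g) (by
      intro a ha
      obtain ⟨i, _, rfl⟩ := List.mem_map.1 ha
      simp only [g]
      omega) (by omega) (by omega) (by omega) hDL (h i1 m1) r
  have key2 := key.of_equ (Equ.of_perm hperm3)
  rw [hDL, hpL] at key2
  obtain ⟨x, hx⟩ := exists_vecs hk n key2
  refine le_trans ?_ (le_coneDim x)
  exact_mod_cast hx

end Pool.Agent.Lib.MP_635d71_ag
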