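import Mathlib
import Pool.Agent.Lib.MP_635d71_ag.BigFour2
import Pool.Agent.Lib.MP_635d71_ag.FourFinal

/-!
# Four large factors, one of them possibly very large: the final form
-/

open Module Submodule

namespace Pool.Agent.Lib.MP_635d71_ag

variable {K : Type} [Field K]

/-- Four large factors, sorted. -/
theorem four_lists2 [Infinite K] (h2 : (2 : K) ≠ 0) (q s1 s2 s3 N Θ : ℕ) (O : List ℕ)
    (hO : ∀ a ∈ O, 1 ≤ a) (h12 : s1 ≤ s2) (h23 : s2 ≤ s3) (h3q : s3 ≤ q)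
    (hN : D (O ++ [s3, s1, s2]) = N + 1) (hNΘ : N + q = Θ) (hs0 : 1 ≤ s1)
    (hbig1 : 100 * (N + 1) ≤ s1 ^ 2) (hbig2 : 8 * (N + 1) * Θ ^ 2 ≤ (s3 * (s1 * s2)) ^ 2) (r : ℕ) :
    Reach K (q :: (O ++ [s3, s1, s2])) r
      (min (r * D (q :: (O ++ [s3, s1, s2]))) (q :: (O ++ [s3, s1, s2])).prod) := by
  have hD1 : D (q :: (O ++ [s3, s1, s2])) = (q - 1) + D (O ++ [s3, s1, s2]) := rfl
  have hΘ : D (q :: (O ++ [s3, s1, s2])) = Θ := by rw [hD1, hN]; omega
  refine Reach.all (fun r hr1 hr2 => ?_) r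
  rw [hΘ] at hr1 hr2 ⊢
  have hprod : (q :: (O ++ [s3, s1, s2])).prod = q * (O ++ [s3, s1, s2]).prod := by simp
  rw [hprod] at hr1 hr2 ⊢
  have hD2 := D_append O [s3, s1, s2]
  have hD3 : D [s3, s1, s2] = (s3 - 1) + ((s1 - 1) + ((s2 - 1) + 1)) := rfl
  have hD4 := one_le_D O
  have hsum : s1 + s2 + s3 ≤ N + 3 := by omega
  have hs1 : 300 ≤ s1 := by
    by_contra hcon
    obtain ⟨x, hx⟩ : ∃ x, s1 = x + 1 := ⟨s1 - 1, by omega⟩
    obtain ⟨y, hy⟩ : ∃ y, 299 = s1 + y := ⟨299 - s1, by omega⟩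
    have h3 : s1 ^ 2 + x * y + 299 = 300 * s1 := by
      obtain ⟨w, hw⟩ : ∃ w, 298 = x + w := ⟨298 - x, by omega⟩
      have h5 : y = w := by omega
      have h6 : (x : ℤ) + w = 298 := by exact_mod_cast hw.symm
      rw [hx, h5]
      zify
      linear_combination (x : ℤ) * h6
    omega
  obtain ⟨v, hv⟩ : ∃ v, Nat.sqrt (N + 1) = v := ⟨_, rfl⟩
  have hv1 : v ^ 2 ≤ N + 1 := by
    have := Nat.sqrt_le' (N + 1)
    rwa [hv] at this
  have hv2 : N + 1 < (v + 1) ^ 2 := by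
    have := Nat.lt_succ_sqrt' (N + 1)
    rwa [hv] at this
  have hv3 : 10 * v ≤ s1 := by
    have : (10 * v) ^ 2 ≤ s1 ^ 2 := by
      calc (10 * v) ^ 2 = 100 * v ^ 2 := by ring
        _ ≤ 100 * (N + 1) := Nat.mul_le_mul_left _ hv1
        _ ≤ s1 ^ 2 := hbig1
    exact (Nat.pow_le_pow_iff_left (by norm_num)).1 this
  have hv29 : 29 ≤ v := by
    rcases Nat.lt_or_ge v 29 with h | h
    · have : (v + 1) ^ 2 ≤ 29 ^ 2 := Nat.pow_le_pow_left (by omega) 2
      omega
    · exact h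
  obtain ⟨S, hS⟩ : ∃ S, s3 * (s1 * s2) = S := ⟨_, rfl⟩
  have hbig : 1000 * (Θ * (2 * v + 11)) ≤ 860 * S := by
    have e1 : (1000 * (Θ * (2 * v + 11))) ^ 2 ≤ (860 * S) ^ 2 := by
      calc (1000 * (Θ * (2 * v + 11))) ^ 2 = (Θ * (1000 * (2 * v + 11))) ^ 2 := by ring
        _ ≤ (Θ * (2380 * v)) ^ 2 :=
          Nat.pow_le_pow_left (Nat.mul_le_mul_left _ (by omega)) 2
        _ = 5664400 * (v ^ 2 * Θ ^ 2) := by ring
        _ ≤ 5664400 * ((N + 1) * Θ ^ 2) := Nat.mul_le_mul_left _ (Nat.mul_le_mul_right _ hv1)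
        _ = 708050 * (8 * (N + 1) * Θ ^ 2) := by ring
        _ ≤ 739600 * (8 * (N + 1) * Θ ^ 2) := Nat.mul_le_mul_right _ (by norm_num)
        _ ≤ 739600 * S ^ 2 := Nat.mul_le_mul_left _ (by rw [← hS]; exact hbig2)
        _ = (860 * S) ^ 2 := by ring
    exact (Nat.pow_le_pow_iff_left (by norm_num)).1 e1
  have hz1 : 2 * v + 2 + 5 = 2 * v + 7 := rfl
  have hz2 : 2 * (2 * v + 2) + 12 = 4 * v + 16 := by ring
  have hz3 : 2 * v + 2 + 4 = 2 * v + 6 := rfl
  have key := reach_num (K := K) h2 q N (2 * v + 2) s1 s2 s3 O hO (by omega) (by omega) hN (by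
      have e1 : (2 * v + 2) ^ 2 = 4 * (v + 1) ^ 2 := by ring
      omega) (by omega) (by omega) (by omega) (by omega) (by
      rw [hNΘ, hz1, hz2, hz3]
      refine big_num2 q s1 s2 s3 v N Θ _ _ hNΘ h12 h23 h3q hs1 hv3 hbig1 (by rw [hS]; exact hbig)
        ?_ ?_
      · have := card_Qmax_le s3 s1 s2 (2 * v + 7) (4 * v + 16)
        rwa [show 4 * v + 16 - (2 * v + 7) = 2 * v + 9 by omega] at this
      · exact card_Fmax_le s3 s1 s2 (2 * v + 7)) (by
      intro b hb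
      rw [hNΘ] at hb
      rw [hz1, hz2]
      obtain ⟨Θ', hΘ'⟩ : ∃ Θ', s1 + s2 + 2 * s3 = Θ' + 3 := ⟨s1 + s2 + 2 * s3 - 3, by omega⟩
      refine big_base2 s1 s2 s3 v Θ' h12 h23 hs1 hv3 (by omega) hΘ' b ?_
      rcases Nat.lt_or_ge b 4 with h4 | h4
      · have : b * Θ' ≤ 4 * Θ' := Nat.mul_le_mul_right _ (by omega)
        omega
      · obtain ⟨b', rfl⟩ := Nat.exists_eq_add_of_le h4
        have e1 : b' * Θ' ≤ b' * Θ := Nat.mul_le_mul_left _ (by omega)
        have e2 : (4 + b') * Θ = 4 * Θ + b' * Θ := by ring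
        have e3 : (4 + b') * Θ' = 4 * Θ' + b' * Θ' := by ring
        omega) r (by
      rw [hNΘ]; exact hr1) (by
      have hΘ0 : 0 < Θ := by omega
      refine Nat.le_of_mul_le_mul_right ?_ hΘ0
      have hOp : 1 ≤ O.prod := one_le_prod O hO
      have hP : (O ++ [s3, s1, s2]).prod = O.prod * (s3 * (s1 * s2)) := by
        rw [List.prod_append]; simp
      have e1 : Θ * (2 * v + 11) ≤ (O ++ [s3, s1, s2]).prod := by
        rw [hP, hS]
        calc Θ * (2 * v + 11) ≤ 1 * S := by omega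
          _ ≤ O.prod * S := Nat.mul_le_mul_right _ hOp
      have e2 : q * (Θ * (2 * v + 11)) ≤ r * Θ + Θ := (Nat.mul_le_mul_left _ e1).trans hr2
      have e3 : q * (Θ * (2 * v + 11)) = q * (2 * v + 2 + 8) * Θ + q * Θ := by ring
      have e4 : 1 * Θ ≤ q * Θ := Nat.mul_le_mul_right _ (by omega)
      omega)
  rw [hNΘ] at key
  exact key

/-- The family version. -/
theorem four_factors2 {k : ℕ} (n : Fin k → ℕ) (i : Fin k) (S : Finset (Fin k)) (hS : S.card = 3)
    (hiS : i ∉ S) (hmax : ∀ j ∈ S, n j ≤ n i)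
    (h1 : ∀ j ∈ S, 100 * (∑ l ∈ Finset.univ.erase i, n l + 1) ≤ (n j + 1) ^ 2)
    (h2 : 8 * (∑ l ∈ Finset.univ.erase i, n l + 1) * (∑ l, n l + 1) ^ 2 ≤
      (∏ j ∈ S, (n j + 1)) ^ 2) (r : ℕ) :
    coneDim n r = ((min (r * (∑ i, n i + 1)) (∏ i, (n i + 1)) : ℕ) : Cardinal) := by
  classical
  refine le_antisymm (coneDim_le n r) ?_
  -- sort the three factors
  obtain ⟨i1, m1, l1⟩ := Finset.exists_min_image S n (Finset.card_pos.1 (by omega))
  have c1 := Finset.card_erase_of_mem m1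
  obtain ⟨i2, m2, l2⟩ := Finset.exists_min_image (S.erase i1) n (Finset.card_pos.1 (by omega))
  have c2 := Finset.card_erase_of_mem m2
  obtain ⟨i3, m3⟩ : ((S.erase i1).erase i2).Nonempty := Finset.card_pos.1 (by omega)
  have c3 : ((S.erase i1).erase i2) = {i3} := by
    obtain ⟨x, hx⟩ := Finset.card_eq_one.1 (show ((S.erase i1).erase i2).card = 1 by omega)
    rw [hx, Finset.mem_singleton] at m3
    rw [hx, m3]
  have hSe : S = {i1, i2, i3} := by
    rw [← Finset.insert_erase m1, ← Finset.insert_erase m2, c3]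
  have m3S : i3 ∈ S := Finset.mem_of_mem_erase (Finset.mem_of_mem_erase m3)
  have m2S : i2 ∈ S := Finset.mem_of_mem_erase m2
  have h12 : n i1 ≤ n i2 := l1 i2 m2S
  have h23 : n i2 ≤ n i3 := l2 i3 (Finset.mem_of_mem_erase m3)
  have h3i : n i3 ≤ n i := hmax i3 m3S
  have hk : 1 ≤ k := by
    rcases k with _ | k
    · exact i.elim0
    · omega
  have d21 : i2 ≠ i1 := Finset.ne_of_mem_erase m2
  have d32 : i3 ≠ i2 := Finset.ne_of_mem_erase m3
  have d31 : i3 ≠ i1 := Finset.ne_of_mem_erase (Finset.mem_of_mem_erase m3)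
  have di1 : i ≠ i1 := fun h => hiS (h ▸ m1)
  have di2 : i ≠ i2 := fun h => hiS (h ▸ m2S)
  have di3 : i ≠ i3 := fun h => hiS (h ▸ m3S)
  let O := (Finset.univ \ S).erase i
  have hmemS : ∀ j, j ∈ S ↔ j = i1 ∨ j = i2 ∨ j = i3 := fun j => by
    rw [hSe]; simp only [Finset.mem_insert, Finset.mem_singleton]
  have hmemO : ∀ j, j ∈ O.toList ↔ j ≠ i ∧ j ∉ S := fun j => by
    simp only [Finset.mem_toList, O, Finset.mem_erase, Finset.mem_sdiff, Finset.mem_univ, true_and]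
  have hperm : (List.finRange k).Perm (i :: (O.toList ++ [i3, i1, i2])) := by
    rw [List.perm_ext_iff_of_nodup (List.nodup_finRange k)]
    · intro j
      simp only [List.mem_finRange, List.mem_append, hmemO, hmemS, List.mem_cons, true_iff,
        List.not_mem_nil, or_false]
      tauto
    · rw [List.nodup_cons, List.nodup_append]
      refine ⟨?_, Finset.nodup_toList _, ?_, ?_⟩
      · simp only [List.mem_append, hmemO, List.mem_cons, List.not_mem_nil, or_false, not_or]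
        exact ⟨fun hc => hc.1 rfl, di3, di1, di2⟩
      · simp [d31, d32, d21.symm]
      · intro a ha b hb hab
        subst hab
        rw [hmemO, hmemS] at ha
        simp only [List.mem_cons, List.not_mem_nil, or_false] at hb
        tauto
  let g : Fin k → ℕ := fun i => n i + 1
  have hperm2 : ((i :: (O.toList ++ [i3, i1, i2])).map g).Perm (lst n) := by
    rw [lst_eq, List.ofFn_eq_map]
    exact (hperm.map g).symm
  have hperm3 : ((n i + 1) :: (O.toList.map g ++ [n i3 + 1, n i1 + 1, n i2 + 1])).Perm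
      (lst n) := by
    rw [List.map_cons, List.map_append] at hperm2
    exact hperm2
  have hDL : D ((n i + 1) :: (O.toList.map g ++ [n i3 + 1, n i1 + 1, n i2 + 1])) =
      ∑ i, n i + 1 := by rw [D_perm hperm3, D_lst]
  have hpL : ((n i + 1) :: (O.toList.map g ++ [n i3 + 1, n i1 + 1, n i2 + 1])).prod =
      ∏ i, (n i + 1) := by rw [hperm3.prod_eq, prod_lst]
  have hsum := Finset.add_sum_erase Finset.univ n (Finset.mem_univ i)
  obtain ⟨N, hN⟩ : ∃ N, ∑ l ∈ Finset.univ.erase i, n l = N := ⟨_, rfl⟩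
  rw [hN] at h1 h2 hsum
  have hDO : D (O.toList.map g ++ [n i3 + 1, n i1 + 1, n i2 + 1]) = N + 1 := by
    have h4 : D ((n i + 1) :: (O.toList.map g ++ [n i3 + 1, n i1 + 1, n i2 + 1])) =
      (n i + 1 - 1) + D (O.toList.map g ++ [n i3 + 1, n i1 + 1, n i2 + 1]) := rfl
    rw [hDL] at h4
    omega
  have hprod : ∏ j ∈ S, (n j + 1) = (n i3 + 1) * ((n i1 + 1) * (n i2 + 1)) := by
    rw [hSe, Finset.prod_insert, Finset.prod_insert, Finset.prod_singleton]
    · ring
    · simp [d32.symm]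
    · simp [d21.symm, d31.symm]
  rw [hprod] at h2
  have key := four_lists2 (K := ℂ) two_ne_zero (n i + 1) (n i1 + 1) (n i2 + 1) (n i3 + 1) N
    (∑ j, n j + 1) (O.toList.map g) (by
      intro a ha
      obtain ⟨i, _, rfl⟩ := List.mem_map.1 ha
      simp only [g]
      omega) (by omega) (by omega) (by omega) hDO (by omega) (by omega) (h1 i1 m1) h2 r
  have key2 := key.of_equ (Equ.of_perm hperm3)
  rw [hDL, hpL] at key2
  obtain ⟨x, hx⟩ := exists_vecs hk n key2
  refine le_trans ?_ (le_coneDim x)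
  exact_mod_cast hx

end Pool.Agent.Lib.MP_635d71_ag
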