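import Mathlib
import Pool.Agent.Lib.MP_635d71_ag.Flow3
import Pool.Agent.Lib.MP_635d71_ag.Blocks

/-!
# The dimension of a slice of a format with three factors, with external points
-/

open Module Submodule Polynomial

namespace Pool.Agent.Lib.MP_635d71_ag

variable {K : Type} [Field K]

/-- Three vectors of a gadget in general position. -/
def triS {A B : ℕ} (w : Fin 3 → Coord [A, B] → K) : Submodule K (Grid [A, B] → K) :=
  span K {E [A, B] (w 0), E [A, B] (w 1), E [A, B] (cons (hd (w 0) + hd (w 1)) (tl (w 2)))}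

theorem finrank_triS_le {A B : ℕ} (w : Fin 3 → Coord [A, B] → K) : finrank K (triS w) ≤ 3 := by
  classical
  unfold triS
  have h : ({E [A, B] (w 0), E [A, B] (w 1), E [A, B] (cons (hd (w 0) + hd (w 1)) (tl (w 2)))} :
      Set (Grid [A, B] → K)) = Set.range (fun i : Fin 3 => ![E [A, B] (w 0), E [A, B] (w 1),
        E [A, B] (cons (hd (w 0) + hd (w 1)) (tl (w 2)))] i) := by
    ext f
    simp only [Set.mem_insert_iff, Set.mem_singleton_iff, Set.mem_range]
    constructor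
    · rintro (rfl | rfl | rfl)
      · exact ⟨0, rfl⟩
      · exact ⟨1, rfl⟩
      · exact ⟨2, rfl⟩
    · rintro ⟨i, rfl⟩
      fin_cases i
      · exact Or.inl rfl
      · exact Or.inr (Or.inl rfl)
      · exact Or.inr (Or.inr rfl)
  rw [h]
  have := finrank_range_le_card (R := K) (fun i : Fin 3 => ![E [A, B] (w 0), E [A, B] (w 1),
        E [A, B] (cons (hd (w 0) + hd (w 1)) (tl (w 2)))] i)
  rwa [Fintype.card_fin] at this

theorem ext_tri (h2 : (2 : K) ≠ 0) {A B : ℕ} (hA : 1 ≤ A)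
    (M : Submodule K (Grid [A, B] → K)) (hM : finrank K M + 3 * A ≤ A * B) :
    ∃ w : Fin 3 → Coord [A, B] → K, finrank K M + 3 ≤ finrank K ↥(M ⊔ triS w) := by
  classical
  have : Nonempty (Fin A) := ⟨⟨0, hA⟩⟩
  have hV : finrank K (Grid [A, B] → K) = A * B := by
    rw [Module.finrank_fintype_fun_eq_card, card_grid]
    simp
  let f : Fin A → Fin B → Grid [A, B] → K := fun a b => Pi.single ((a, b, ()) : Grid [A, B]) 1
  obtain ⟨a, ha⟩ := exists_big_part M (fun a => span K (Set.range (f a))) (by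
    rw [single_mem_iSup, sup_top_eq]
    rintro ⟨a, b, ⟨⟩⟩
    exact ⟨a, subset_span ⟨b, rfl⟩⟩) 3 (by rw [Fintype.card_fin, hV]; exact hM)
  obtain ⟨g, hg⟩ := exists_subfamily M (f a) 3 ha
  refine ⟨fun i => cpt [A, B] (a, g i, ()), hg.trans (Submodule.finrank_mono
    (sup_le_sup_left ?_ _))⟩
  rw [span_le]
  rintro _ ⟨i, rfl⟩
  fin_cases i
  · refine subset_span (Or.inl ?_)
    exact (E_cpt [A, B] (a, g 0, ())).symm
  · refine subset_span (Or.inr (Or.inl ?_))
    exact (E_cpt [A, B] (a, g 1, ())).symm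
  · have h3 : f a (g 2) = (2 : K)⁻¹ • E [A, B] (cons (hd (cpt [A, B] (a, g 0, ()) :
        Coord [A, B] → K) + hd (cpt [A, B] (a, g 1, ()) : Coord [A, B] → K))
        (tl (cpt [A, B] (a, g 2, ()) : Coord [A, B] → K))) := by
      have h4 : hd (cpt [A, B] (a, g 0, ()) : Coord [A, B] → K) +
          hd (cpt [A, B] (a, g 1, ()) : Coord [A, B] → K) =
          (2 : K) • hd (cpt [A, B] (a, g 2, ()) : Coord [A, B] → K) := by
        change Pi.single a 1 + Pi.single a 1 = (2 : K) • Pi.single a 1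
        rw [two_smul]
      rw [h4]
      have h5 : E [A, B] (cons ((2 : K) • hd (cpt [A, B] (a, g 2, ()) : Coord [A, B] → K))
          (tl (cpt [A, B] (a, g 2, ()) : Coord [A, B] → K))) =
          (2 : K) • E [A, B] (cpt [A, B] (a, g 2, ())) := ten_smul_left _ _ _
      rw [h5, smul_smul, inv_mul_cancel₀ h2, one_smul]
      exact (E_cpt [A, B] (a, g 2, ())).symm
    change f a (g 2) ∈ _
    rw [h3]
    exact Submodule.smul_mem _ _ (subset_span (Or.inr (Or.inr rfl)))

/-- The number of vectors of a gadget, by role. -/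
def cg : Fin 5 → ℕ := ![0, 2, 2, 2, 3]

theorem slice_dim3 [Infinite K] (h2 : (2 : K) ≠ 0) {A B : ℕ} {ι Γ : Type} [Fintype ι]
    [DecidableEq ι] [Fintype Γ] [DecidableEq Γ] (hA1 : 1 ≤ A)
    (P1 P2 P3 : Finset ι) (h12 : Disjoint P1 P2) (h13 : Disjoint P1 P3) (h23 : Disjoint P2 P3)
    (cls : ι → ℕ) (ρ : ι → Fin A) (κ : ι → Fin B)
    (hρ : ∀ p ∈ P1 ∪ P2 ∪ P3, ∀ p' ∈ P1 ∪ P2 ∪ P3, ρ p = ρ p' → p = p')
    (hκ : ∀ p ∈ P1 ∪ P2 ∪ P3, ∀ p' ∈ P1 ∪ P2 ∪ P3, κ p = κ p' → p = p')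
    (tri : Γ × Fin 3 → ι) (htri : Function.Injective tri) (ext : ι → Option (ι × ι))
    (hext1 : ∀ g, ext (tri (g, 2)) = some (tri (g, 0), tri (g, 1)))
    (hext2 : ∀ p, (∀ g, p ≠ tri (g, 2)) → ext p = none) (role : Γ → Fin 5)
    (hown : ∀ g, role g = 0 → tri (g, 0) ∈ P1 ∧ tri (g, 1) ∈ P1 ∧ tri (g, 2) ∉ P1 ∪ P2 ∪ P3)
    (hnext : ∀ g, role g = 1 → tri (g, 0) ∈ P2 ∧ tri (g, 1) ∈ P2 ∧ tri (g, 2) ∉ P1 ∪ P2 ∪ P3)
    (hhost : ∀ g, role g = 2 → tri (g, 0) ∉ P1 ∪ P2 ∪ P3 ∧ tri (g, 1) ∉ P1 ∪ P2 ∪ P3 ∧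
      tri (g, 2) ∈ P1)
    (hph : ∀ g, role g = 3 → tri (g, 0) ∉ P1 ∪ P2 ∪ P3 ∧ tri (g, 1) ∉ P1 ∪ P2 ∪ P3 ∧
      tri (g, 2) ∈ P2)
    (hoth : ∀ g, role g = 4 → ∀ k, tri (g, k) ∉ P1 ∪ P2 ∪ P3)
    (huniq : ∀ g g', role g = role g' → role g ≠ 4 → g = g')
    (a2 a3 : Fin A) (b b' : Fin B) (ha : a2 ≠ a3) (hbb : b ≠ b')
    (ha2 : ∀ p ∈ P1 ∪ P2 ∪ P3, ρ p ≠ a2) (ha3 : ∀ p ∈ P1 ∪ P2 ∪ P3, ρ p ≠ a3)
    (hb : ∀ p ∈ P1 ∪ P2 ∪ P3, κ p ≠ b) (hb' : ∀ p ∈ P1 ∪ P2 ∪ P3, κ p ≠ b')
    (hroom : P1.card * (A + B - P1.card) +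
        ((P2 ×ˢ P2).filter (fun x => x.1 = x.2 ∨ cls x.1 ≠ cls x.2)).card +
        ((P3 ×ˢ P3).filter (fun x => cls x.1 = cls x.2)).card + 3 * A + 3 * Fintype.card Γ ≤
          A * B) :
    ∃ v : ι → Coord [A, B] → K,
      min (A * B) (P1.card * (A + B - P1.card) +
        ((P2 ×ˢ P2).filter (fun x => x.1 = x.2 ∨ cls x.1 ≠ cls x.2)).card +
        ((P3 ×ˢ P3).filter (fun x => cls x.1 = cls x.2)).card + ∑ g, cg (role g) +
        Fintype.card {p : ι // p ∉ P1 ∪ P2 ∪ P3 ∧ p ∉ Set.range tri}) ≤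
      finrank K ↥(span K ((({f | ∃ p ∈ P1, f ∈ T [A, B] (px ext v p)} ∪
        {f | ∃ p p', p ≠ p' ∧ ((p ∈ P2 ∧ p' ∈ P2 ∧ cls p ≠ cls p') ∨
          (p ∈ P3 ∧ p' ∈ P3 ∧ cls p = cls p')) ∧
            f = E [A, B] (mix (px ext v p) (px ext v p'))}) ∪
        {f | ∃ g, role g = 1 ∧ f = E [A, B] (mix (v (tri (g, 0))) (v (tri (g, 2))))}) ∪
        {f | ∃ p, f = E [A, B] (px ext v p)})) := by
  classical
  set Sp := P1 ∪ P2 ∪ P3 with hSp
  have m1 : ∀ p ∈ P1, p ∈ Sp := fun p hp => by simp [hSp, hp]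
  have m2 : ∀ p ∈ P2, p ∈ Sp := fun p hp => by simp [hSp, hp]
  have m3 : ∀ p ∈ P3, p ∈ Sp := fun p hp => by simp [hSp, hp]
  let cell : ι × ι → Grid [A, B] := fun x => (ρ x.1, κ x.2, ())
  let U1 : Finset (Grid [A, B]) := Finset.univ.filter fun g => ∃ p ∈ P1, g.1 = ρ p ∨ g.2.1 = κ p
  let Q2 := (P2 ×ˢ P2).filter (fun x : ι × ι => x.1 = x.2 ∨ cls x.1 ≠ cls x.2)
  let Q3 := (P3 ×ˢ P3).filter (fun x : ι × ι => cls x.1 = cls x.2)
  let U2 := Q2.image cell
  let U3 := Q3.image cell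
  -- the cells of the gadgets
  obtain ⟨G, hG⟩ : ∃ G : Γ → Finset (Grid [A, B]), ∀ g, G g =
      if role g = 1 then {(ρ (tri (g, 0)), b, ()), (ρ (tri (g, 1)), b, ())}
      else if role g = 2 then {(a2, b, ()), (a2, b', ())}
      else if role g = 3 then {(a3, κ (tri (g, 2)), ()), (a3, b', ())} else ∅ := ⟨_, fun _ => rfl⟩
  have hG1 : ∀ g, role g = 1 → G g = {(ρ (tri (g, 0)), b, ()), (ρ (tri (g, 1)), b, ())} :=
    fun g hg => by rw [hG, if_pos hg]
  have hG2 : ∀ g, role g = 2 → G g = {(a2, b, ()), (a2, b', ())} :=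
    fun g hg => by rw [hG, if_neg (by rw [hg]; decide), if_pos hg]
  have hG3 : ∀ g, role g = 3 → G g = {(a3, κ (tri (g, 2)), ()), (a3, b', ())} :=
    fun g hg => by rw [hG, if_neg (by rw [hg]; decide), if_neg (by rw [hg]; decide), if_pos hg]
  have hG0 : ∀ g, role g ≠ 1 → role g ≠ 2 → role g ≠ 3 → G g = ∅ := fun g e1 e2 e3 => by
    rw [hG, if_neg e1, if_neg e2, if_neg e3]
  have hGcard : ∀ g, role g ≠ 4 → cg (role g) ≤ (G g).card := by
    intro g hg
    have hlt := (role g).2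
    have hcases : role g = 0 ∨ role g = 1 ∨ role g = 2 ∨ role g = 3 := by
      have : (role g).val ≠ 4 := fun h => hg (Fin.ext h)
      rcases (by omega : (role g).val = 0 ∨ (role g).val = 1 ∨ (role g).val = 2 ∨
        (role g).val = 3) with h | h | h | h
      · exact Or.inl (Fin.ext h)
      · exact Or.inr (Or.inl (Fin.ext h))
      · exact Or.inr (Or.inr (Or.inl (Fin.ext h)))
      · exact Or.inr (Or.inr (Or.inr (Fin.ext h)))
    rcases hcases with h | h | h | h
    · rw [h]; exact Nat.zero_le _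
    · rw [hG1 g h, h, Finset.card_pair]
      · exact le_rfl
      · intro h'
        simp only [Prod.mk.injEq, and_true] at h'
        have h3 := hρ _ (m2 _ (hnext g h).1) _ (m2 _ (hnext g h).2.1) h'
        have h4 := htri h3
        simp only [Prod.mk.injEq] at h4
        exact absurd h4.2 (by decide)
    · rw [hG2 g h, h, Finset.card_pair]
      · exact le_rfl
      · intro h'
        simp only [Prod.mk.injEq, and_true, true_and] at h'
        exact hbb h'
    · rw [hG3 g h, h, Finset.card_pair]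
      · exact le_rfl
      · intro h'
        simp only [Prod.mk.injEq, and_true, true_and] at h'
        exact hb' _ (m2 _ (hph g h).2.2) h'
  have hGdisj : ∀ g g', g ≠ g' → Disjoint (G g) (G g') := by
    intro g g' hgg
    rw [Finset.disjoint_left]
    intro y hy hy'
    -- rows
    have rowinfo : ∀ g, y ∈ G g → (role g = 1 ∧ ∃ p ∈ Sp, y.1 = ρ p) ∨ (role g = 2 ∧ y.1 = a2) ∨
        (role g = 3 ∧ y.1 = a3) := by
      intro g hy
      by_cases e1 : role g = 1
      · rw [hG1 g e1, Finset.mem_insert, Finset.mem_singleton] at hy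
        refine Or.inl ⟨e1, ?_⟩
        rcases hy with rfl | rfl
        · exact ⟨_, m2 _ (hnext g e1).1, rfl⟩
        · exact ⟨_, m2 _ (hnext g e1).2.1, rfl⟩
      by_cases e2 : role g = 2
      · rw [hG2 g e2, Finset.mem_insert, Finset.mem_singleton] at hy
        refine Or.inr (Or.inl ⟨e2, ?_⟩)
        rcases hy with rfl | rfl <;> rfl
      by_cases e3 : role g = 3
      · rw [hG3 g e3, Finset.mem_insert, Finset.mem_singleton] at hy
        refine Or.inr (Or.inr ⟨e3, ?_⟩)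
        rcases hy with rfl | rfl <;> rfl
      rw [hG0 g e1 e2 e3] at hy
      exact absurd hy (Finset.notMem_empty y)
    rcases rowinfo g hy with ⟨r1, p, hp, y1⟩ | ⟨r1, y1⟩ | ⟨r1, y1⟩ <;>
      rcases rowinfo g' hy' with ⟨r2, p', hp', y2⟩ | ⟨r2, y2⟩ | ⟨r2, y2⟩
    · exact hgg (huniq g g' (r1.trans r2.symm) (by rw [r1]; decide))
    · exact ha2 p hp (y1.symm.trans y2)
    · exact ha3 p hp (y1.symm.trans y2)
    · exact ha2 p' hp' (y2.symm.trans y1)
    · exact hgg (huniq g g' (r1.trans r2.symm) (by rw [r1]; decide))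
    · exact ha (y1.symm.trans y2)
    · exact ha3 p' hp' (y2.symm.trans y1)
    · exact ha (y2.symm.trans y1)
    · exact hgg (huniq g g' (r1.trans r2.symm) (by rw [r1]; decide))
  let U4 := Finset.univ.biUnion G
  have hU4card : U4.card = ∑ g, (G g).card :=
    Finset.card_biUnion fun g _ g' _ hgg => hGdisj g g' hgg
  have hU4info : ∀ y ∈ U4, (∀ p ∈ Sp, y.1 ≠ ρ p) ∨ ((∃ p ∈ P2, y.1 = ρ p) ∧ y.2.1 = b) := by
    intro y hy
    obtain ⟨g, _, hy⟩ := Finset.mem_biUnion.1 hy
    by_cases e1 : role g = 1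
    · rw [hG1 g e1, Finset.mem_insert, Finset.mem_singleton] at hy
      refine Or.inr ?_
      rcases hy with rfl | rfl
      · exact ⟨⟨_, (hnext g e1).1, rfl⟩, rfl⟩
      · exact ⟨⟨_, (hnext g e1).2.1, rfl⟩, rfl⟩
    by_cases e2 : role g = 2
    · rw [hG2 g e2, Finset.mem_insert, Finset.mem_singleton] at hy
      refine Or.inl fun p hp => ?_
      rcases hy with rfl | rfl <;> exact (ha2 p hp).symm
    by_cases e3 : role g = 3
    · rw [hG3 g e3, Finset.mem_insert, Finset.mem_singleton] at hy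
      refine Or.inl fun p hp => ?_
      rcases hy with rfl | rfl <;> exact (ha3 p hp).symm
    rw [hG0 g e1 e2 e3] at hy
    exact absurd hy (Finset.notMem_empty y)
  have hU4col : ∀ y ∈ U4, ∀ p ∈ P1, y.2.1 ≠ κ p := by
    intro y hy p hp
    obtain ⟨g, _, hy⟩ := Finset.mem_biUnion.1 hy
    by_cases e1 : role g = 1
    · rw [hG1 g e1, Finset.mem_insert, Finset.mem_singleton] at hy
      rcases hy with rfl | rfl <;> exact (hb p (m1 p hp)).symm
    by_cases e2 : role g = 2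
    · rw [hG2 g e2, Finset.mem_insert, Finset.mem_singleton] at hy
      rcases hy with rfl | rfl
      · exact (hb p (m1 p hp)).symm
      · exact (hb' p (m1 p hp)).symm
    by_cases e3 : role g = 3
    · rw [hG3 g e3, Finset.mem_insert, Finset.mem_singleton] at hy
      rcases hy with rfl | rfl
      · intro h
        have h3 := hκ _ (m2 _ (hph g e3).2.2) _ (m1 p hp) h
        exact Finset.disjoint_left.1 h12 hp (h3 ▸ (hph g e3).2.2)
      · exact (hb' p (m1 p hp)).symm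
    rw [hG0 g e1 e2 e3] at hy
    exact absurd hy (Finset.notMem_empty y)
  have hinj : ∀ Q : Finset (ι × ι), (∀ x ∈ Q, x.1 ∈ Sp ∧ x.2 ∈ Sp) →
      (Q.image cell).card = Q.card := by
    intro Q hQ
    refine Finset.card_image_of_injOn ?_
    intro x hx y hy h
    simp only [cell, Prod.mk.injEq, and_true] at h
    exact Prod.ext (hρ _ (hQ x hx).1 _ (hQ y hy).1 h.1) (hκ _ (hQ x hx).2 _ (hQ y hy).2 h.2)
  have hQ2 : ∀ x ∈ Q2, x.1 ∈ P2 ∧ x.2 ∈ P2 ∧ (x.1 = x.2 ∨ cls x.1 ≠ cls x.2) := by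
    intro x hx
    obtain ⟨h1, h2⟩ := Finset.mem_filter.1 hx
    obtain ⟨h3, h4⟩ := Finset.mem_product.1 h1
    exact ⟨h3, h4, h2⟩
  have hQ3 : ∀ x ∈ Q3, x.1 ∈ P3 ∧ x.2 ∈ P3 ∧ cls x.1 = cls x.2 := by
    intro x hx
    obtain ⟨h1, h2⟩ := Finset.mem_filter.1 hx
    obtain ⟨h3, h4⟩ := Finset.mem_product.1 h1
    exact ⟨h3, h4, h2⟩
  have c2 : U2.card = Q2.card := hinj Q2 fun x hx => ⟨m2 _ (hQ2 x hx).1, m2 _ (hQ2 x hx).2.1⟩
  have c3 : U3.card = Q3.card := hinj Q3 fun x hx => ⟨m3 _ (hQ3 x hx).1, m3 _ (hQ3 x hx).2.1⟩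
  -- the cross
  have cR : (P1.image ρ).card = P1.card := Finset.card_image_of_injOn fun p hp p' hp' h =>
    hρ p (m1 p hp) p' (m1 p' hp') h
  have cK : (P1.image κ).card = P1.card := Finset.card_image_of_injOn fun p hp p' hp' h =>
    hκ p (m1 p hp) p' (m1 p' hp') h
  have hA : P1.card ≤ A := by
    rw [← cR]
    exact (Finset.card_le_univ _).trans (by rw [Fintype.card_fin])
  have hB : P1.card ≤ B := by
    rw [← cK]
    exact (Finset.card_le_univ _).trans (by rw [Fintype.card_fin])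
  have c1' : U1.card + (Finset.univ \ U1).card = A * B := by
    rw [Finset.card_sdiff_of_subset (Finset.subset_univ _), Finset.card_univ, card_grid]
    have := Finset.card_le_univ U1
    rw [card_grid] at this
    simp only [List.prod_cons, List.prod_nil, mul_one] at this ⊢
    omega
  have h2' : Finset.univ \ U1 = ((Finset.univ \ P1.image ρ) ×ˢ (Finset.univ \ P1.image κ)).image
          (fun x => ((x.1, x.2, ()) : Grid [A, B])) := by
    ext ⟨x, y, z⟩
    rw [Finset.mem_sdiff, Finset.mem_filter, Finset.mem_image]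
    constructor
    · rintro ⟨_, hg2⟩
      push Not at hg2
      have hg3 := hg2 (Finset.mem_univ _)
      refine ⟨(x, y), ?_, rfl⟩
      rw [Finset.mem_product, Finset.mem_sdiff, Finset.mem_sdiff, Finset.mem_image,
        Finset.mem_image]
      refine ⟨⟨Finset.mem_univ _, ?_⟩, ⟨Finset.mem_univ _, ?_⟩⟩
      · rintro ⟨p, hp, h⟩
        exact (hg3 p hp).1 h.symm
      · rintro ⟨p, hp, h⟩
        exact (hg3 p hp).2 h.symm
    · rintro ⟨⟨x', y'⟩, hx, h⟩
      rw [Finset.mem_product, Finset.mem_sdiff, Finset.mem_sdiff, Finset.mem_image,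
        Finset.mem_image] at hx
      simp only [Prod.mk.injEq, and_true] at h
      obtain ⟨rfl, rfl⟩ := h
      refine ⟨Finset.mem_univ _, ?_⟩
      rintro ⟨_, p, hp, h | h⟩
      · exact hx.1.2 ⟨p, hp, h.symm⟩
      · exact hx.2.2 ⟨p, hp, h.symm⟩
  have c1'' : (Finset.univ \ U1).card = (A - P1.card) * (B - P1.card) := by
    rw [h2', Finset.card_image_of_injective, Finset.card_product,
        Finset.card_sdiff_of_subset (Finset.subset_univ _),
        Finset.card_sdiff_of_subset (Finset.subset_univ _), Finset.card_univ, Finset.card_univ,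
        Fintype.card_fin, Fintype.card_fin, cR, cK]
    intro x y h
    simp only [Prod.mk.injEq, and_true] at h
    exact Prod.ext h.1 h.2
  have c1 : U1.card = P1.card * (A + B - P1.card) := by
    have h3 := card_cross A B P1.card hA hB
    omega
  -- disjointness
  have dj1 : ∀ Q : Finset (ι × ι), (∀ x ∈ Q, (x.1 ∈ Sp ∧ x.1 ∉ P1) ∧ (x.2 ∈ Sp ∧ x.2 ∉ P1)) →
      Disjoint U1 (Q.image cell) := by
    intro Q hQ
    rw [Finset.disjoint_left]
    intro g hg hg'
    obtain ⟨_, p, hp, h⟩ := Finset.mem_filter.1 hg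
    obtain ⟨x, hx, rfl⟩ := Finset.mem_image.1 hg'
    obtain ⟨⟨h1, h2⟩, h3, h4⟩ := hQ x hx
    rcases h with h | h
    · have : x.1 = p := hρ _ h1 _ (m1 p hp) h
      exact h2 (this ▸ hp)
    · have : x.2 = p := hκ _ h3 _ (m1 p hp) h
      exact h4 (this ▸ hp)
  have dj12 : Disjoint U1 U2 := dj1 Q2 fun x hx => by
    obtain ⟨h1, h2, _⟩ := hQ2 x hx
    exact ⟨⟨m2 _ h1, Finset.disjoint_right.1 h12 h1⟩, ⟨m2 _ h2, Finset.disjoint_right.1 h12 h2⟩⟩
  have dj13 : Disjoint U1 U3 := dj1 Q3 fun x hx => by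
    obtain ⟨h1, h2, _⟩ := hQ3 x hx
    exact ⟨⟨m3 _ h1, Finset.disjoint_right.1 h13 h1⟩, ⟨m3 _ h2, Finset.disjoint_right.1 h13 h2⟩⟩
  have dj23 : Disjoint U2 U3 := by
    rw [Finset.disjoint_left]
    intro g hg hg'
    obtain ⟨x, hx, rfl⟩ := Finset.mem_image.1 hg
    obtain ⟨y, hy, h⟩ := Finset.mem_image.1 hg'
    obtain ⟨h1, _, _⟩ := hQ2 x hx
    obtain ⟨h2, _, _⟩ := hQ3 y hy
    simp only [cell, Prod.mk.injEq, and_true] at h
    have := hρ _ (m3 _ h2) _ (m2 _ h1) h.1
    exact Finset.disjoint_left.1 h23 h1 (this ▸ h2)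
  have dj14 : Disjoint U1 U4 := by
    rw [Finset.disjoint_left]
    intro y hy hy'
    obtain ⟨_, p, hp, h | h⟩ := Finset.mem_filter.1 hy
    · rcases hU4info y hy' with h3 | ⟨⟨p', hp', h3⟩, _⟩
      · exact h3 p (m1 p hp) h
      · have h4 := hρ _ (m1 p hp) _ (m2 p' hp') (h.symm.trans h3)
        exact Finset.disjoint_left.1 h12 hp (h4 ▸ hp')
    · exact hU4col y hy' p hp h
  have djQ4 : ∀ Q : Finset (ι × ι), (∀ x ∈ Q, x.1 ∈ Sp ∧ x.2 ∈ Sp) →
      Disjoint (Q.image cell) U4 := by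
    intro Q hQ
    rw [Finset.disjoint_left]
    intro y hy hy'
    obtain ⟨x, hx, rfl⟩ := Finset.mem_image.1 hy
    rcases hU4info _ hy' with h3 | ⟨_, h3⟩
    · exact h3 x.1 (hQ x hx).1 rfl
    · exact hb x.2 (hQ x hx).2 h3
  have dj24 : Disjoint U2 U4 := djQ4 Q2 fun x hx => ⟨m2 _ (hQ2 x hx).1, m2 _ (hQ2 x hx).2.1⟩
  have dj34 : Disjoint U3 U4 := djQ4 Q3 fun x hx => ⟨m3 _ (hQ3 x hx).1, m3 _ (hQ3 x hx).2.1⟩
  let U := U1 ∪ U2 ∪ U3 ∪ U4
  have cU : U.card = P1.card * (A + B - P1.card) + Q2.card + Q3.card + ∑ g, (G g).card := by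
    rw [Finset.card_union_of_disjoint (Finset.disjoint_union_left.2
      ⟨Finset.disjoint_union_left.2 ⟨dj14, dj24⟩, dj34⟩),
      Finset.card_union_of_disjoint (Finset.disjoint_union_left.2 ⟨dj13, dj23⟩),
      Finset.card_union_of_disjoint dj12, c1, c2, c3, hU4card]
  have hGle : ∀ g, (G g).card ≤ (if role g = 4 then 0 else 2) := by
    intro g
    by_cases e1 : role g = 1
    · rw [hG1 g e1, if_neg (by rw [e1]; decide)]; exact Finset.card_le_two
    by_cases e2 : role g = 2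
    · rw [hG2 g e2, if_neg (by rw [e2]; decide)]; exact Finset.card_le_two
    by_cases e3 : role g = 3
    · rw [hG3 g e3, if_neg (by rw [e3]; decide)]; exact Finset.card_le_two
    rw [hG0 g e1 e2 e3]
    simp
  -- the blocks
  have hdim : finrank K (Grid [A, B] → K) = A * B := by
    rw [Module.finrank_fintype_fun_eq_card, card_grid]
    simp
  have hsumle : ∑ g, (G g).card + ∑ _g : {g : Γ // role g = 4}, 3 ≤ 3 * Fintype.card Γ := by
    have e1 : ∑ _g : {g : Γ // role g = 4}, 3 = ∑ g : Γ, if role g = 4 then 3 else 0 := by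
      rw [← Finset.sum_filter, ← Finset.sum_subtype (Finset.univ.filter fun g => role g = 4)
        (fun g => by simp) (fun _ => 3)]
    rw [e1, ← Finset.sum_add_distrib]
    refine (Finset.sum_le_card_nsmul _ _ 3 fun g _ => ?_).trans ?_
    · have := hGle g
      split_ifs at this ⊢ <;> omega
    · rw [Finset.card_univ, smul_eq_mul, mul_comm]
  obtain ⟨wb, hwb⟩ := exists_blocks (K := K) (V := Grid [A, B] → K) (β := {g : Γ // role g = 4})
    (W := Fin 3 → Coord [A, B] → K) (fun _ w => triS w) (fun _ => 3) (3 * A)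
    (fun _ w => finrank_triS_le w) (fun _ M hM => ext_tri h2 hA1 M (by rw [hdim] at hM; exact hM))
    (coordSub K U) (by
      rw [hdim, finrank_coordSub, cU]
      change P1.card * (A + B - P1.card) + Q2.card + Q3.card + ∑ g, (G g).card + 3 * A +
        ∑ _g : {g : Γ // role g = 4}, 3 ≤ A * B
      have : P1.card * (A + B - P1.card) + Q2.card + Q3.card + 3 * A + 3 * Fintype.card Γ ≤
        A * B := hroom
      omega)
  set M2 := coordSub K U ⊔ ⨆ g : {g : Γ // role g = 4}, triS (wb g) with hM2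
  -- the generic points
  obtain ⟨z, hz⟩ := point_lemma' [A, B] M2 {p : ι // p ∉ Sp ∧ p ∉ Set.range tri}
  -- the choice
  let z' : ι → Coord [A, B] → K := fun p => if h : p ∉ Sp ∧ p ∉ Set.range tri then z ⟨p, h⟩ else 0
  let sg : Fin A → Fin A → K := fun a => Pi.single a 1
  let mk : (Fin A → K) → Fin B → Coord [A, B] → K := fun x c => cons x (cpt [B] (c, ()))
  let val : Γ × Fin 3 → Coord [A, B] → K := fun x =>
    if h : role x.1 = 4 then wb ⟨x.1, h⟩ x.2
    else if role x.1 = 1 then mk 0 b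
    else if role x.1 = 2 then (if x.2 = 0 then mk (sg (ρ (tri (x.1, 2))) - sg a2) b
      else mk (sg a2) b')
    else if role x.1 = 3 then (if x.2 = 0 then mk (sg (ρ (tri (x.1, 2))) - sg a3)
      (κ (tri (x.1, 2))) else mk (sg a3) b')
    else 0
  let v : ι → Coord [A, B] → K := fun p =>
    if p ∈ Sp then cpt [A, B] (ρ p, κ p, ()) else Function.extend tri val z' p
  have hvS : ∀ p ∈ Sp, v p = cpt [A, B] (ρ p, κ p, ()) := fun p hp => by simp only [v, if_pos hp]
  have hvG : ∀ x, tri x ∉ Sp → v (tri x) = val x := fun x hx => by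
    simp only [v, if_neg hx]
    exact htri.extend_apply val z' x
  have hvz : ∀ p (h : p ∉ Sp ∧ p ∉ Set.range tri), v p = z ⟨p, h⟩ := fun p h => by
    simp only [v, if_neg h.1]
    rw [Function.extend_apply' _ _ _ (fun ⟨x, hx⟩ => h.2 ⟨x, hx⟩)]
    simp only [z', dif_pos h]
  have hnone : ∀ p, (∀ g, p ≠ tri (g, 2)) → px ext v p = v p := fun p hp =>
    px_none ext v p (hext2 p hp)
  have htri0 : ∀ g g', tri (g, 0) ≠ tri (g', 2) := fun g g' h => by
    have := htri h
    simp only [Prod.mk.injEq] at this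
    exact absurd this.2 (by decide)
  have htri1 : ∀ g g', tri (g, 1) ≠ tri (g', 2) := fun g g' h => by
    have := htri h
    simp only [Prod.mk.injEq] at this
    exact absurd this.2 (by decide)
  -- the points of `Sp`
  have hrole : ∀ g, role g = 0 ∨ role g = 1 ∨ role g = 2 ∨ role g = 3 ∨ role g = 4 := by
    intro g
    have hlt := (role g).2
    rcases (by omega : (role g).val = 0 ∨ (role g).val = 1 ∨ (role g).val = 2 ∨
      (role g).val = 3 ∨ (role g).val = 4) with h | h | h | h | h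
    · exact Or.inl (Fin.ext h)
    · exact Or.inr (Or.inl (Fin.ext h))
    · exact Or.inr (Or.inr (Or.inl (Fin.ext h)))
    · exact Or.inr (Or.inr (Or.inr (Or.inl (Fin.ext h))))
    · exact Or.inr (Or.inr (Or.inr (Or.inr (Fin.ext h))))
  have val2 : ∀ g k, role g = 2 → val (g, k) = if k = 0 then mk (sg (ρ (tri (g, 2))) - sg a2) b
      else mk (sg a2) b' := fun g k hg => by
    have e4 : ¬ role g = 4 := by rw [hg]; decide
    have e1 : ¬ role g = 1 := by rw [hg]; decide
    simp only [val, dif_neg e4, if_neg e1, if_pos hg]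
  have val3 : ∀ g k, role g = 3 → val (g, k) = if k = 0 then mk (sg (ρ (tri (g, 2))) - sg a3)
      (κ (tri (g, 2))) else mk (sg a3) b' := fun g k hg => by
    have e4 : ¬ role g = 4 := by rw [hg]; decide
    have e1 : ¬ role g = 1 := by rw [hg]; decide
    have e2 : ¬ role g = 2 := by rw [hg]; decide
    simp only [val, dif_neg e4, if_neg e1, if_neg e2, if_pos hg]
  have val1 : ∀ g k, role g = 1 → val (g, k) = mk 0 b := fun g k hg => by
    have e4 : ¬ role g = 4 := by rw [hg]; decide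
    simp only [val, dif_neg e4, if_pos hg]
  have hpS : ∀ p ∈ Sp, px ext v p = cpt [A, B] (ρ p, κ p, ()) := by
    intro p hp
    by_cases hg : ∃ g, p = tri (g, 2)
    · obtain ⟨g, rfl⟩ := hg
      rw [px_some ext v _ _ _ (hext1 g), hvS _ hp]
      rcases hrole g with h | h | h | h | h
      · exact absurd hp (hown g h).2.2
      · exact absurd hp (hnext g h).2.2
      · rw [hvG _ (hhost g h).1, hvG _ (hhost g h).2.1, val2 g 0 h, val2 g 1 h, if_pos rfl,
          if_neg (by decide)]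
        change cons (sg (ρ (tri (g, 2))) - sg a2 + sg a2) _ = _
        rw [sub_add_cancel]
        rfl
      · rw [hvG _ (hph g h).1, hvG _ (hph g h).2.1, val3 g 0 h, val3 g 1 h, if_pos rfl,
          if_neg (by decide)]
        change cons (sg (ρ (tri (g, 2))) - sg a3 + sg a3) _ = _
        rw [sub_add_cancel]
        rfl
      · exact absurd hp (hoth g h 2)
    · push Not at hg
      rw [hnone p hg, hvS p hp]
  -- product tensors
  have hEmk : ∀ (a : Fin A) (c : Fin B), E [A, B] (mk (sg a) c) = Pi.single (a, c, ()) 1 :=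
    fun a c => E_cpt [A, B] (a, c, ())
  have hEsub : ∀ (x y : Fin A → K) (c : Fin B), E [A, B] (mk (x - y) c) =
      E [A, B] (mk x c) - E [A, B] (mk y c) := fun x y c => (ten_sub_left _ _ _).symm
  refine ⟨v, ?_⟩
  set S := span K ((({f | ∃ p ∈ P1, f ∈ T [A, B] (px ext v p)} ∪
        {f | ∃ p p', p ≠ p' ∧ ((p ∈ P2 ∧ p' ∈ P2 ∧ cls p ≠ cls p') ∨
          (p ∈ P3 ∧ p' ∈ P3 ∧ cls p = cls p')) ∧
            f = E [A, B] (mix (px ext v p) (px ext v p'))}) ∪
        {f | ∃ g, role g = 1 ∧ f = E [A, B] (mix (v (tri (g, 0))) (v (tri (g, 2))))}) ∪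
        {f | ∃ p, f = E [A, B] (px ext v p)}) with hS
  have sT : ∀ p ∈ P1, T [A, B] (px ext v p) ≤ S := fun p hp f hf =>
    subset_span (Or.inl (Or.inl (Or.inl ⟨p, hp, hf⟩)))
  have sP : ∀ p p', p ≠ p' → ((p ∈ P2 ∧ p' ∈ P2 ∧ cls p ≠ cls p') ∨
      (p ∈ P3 ∧ p' ∈ P3 ∧ cls p = cls p')) → E [A, B] (mix (px ext v p) (px ext v p')) ∈ S :=
    fun p p' h1 h2 => subset_span (Or.inl (Or.inl (Or.inr ⟨p, p', h1, h2, rfl⟩)))
  have sG : ∀ g, role g = 1 → E [A, B] (mix (v (tri (g, 0))) (v (tri (g, 2)))) ∈ S :=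
    fun g hg => subset_span (Or.inl (Or.inr ⟨g, hg, rfl⟩))
  have sE : ∀ p, E [A, B] (px ext v p) ∈ S := fun p => subset_span (Or.inr ⟨p, rfl⟩)
  have sU1 : ∀ y ∈ U1, (Pi.single y 1 : Grid [A, B] → K) ∈ S := by
    intro y hy
    obtain ⟨_, p, hp, h⟩ := Finset.mem_filter.1 hy
    refine sT p hp ?_
    rw [hpS p (m1 p hp), T_cpt]
    intro g' hg'
    by_cases hgg : g' = y
    · exfalso
      apply hg'
      rw [hgg]
      obtain ⟨x, y, w⟩ := y
      exact (mem_Ball2 x (ρ p) y (κ p)).2 h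
    · rw [Pi.single_eq_of_ne hgg]
  have sU2 : ∀ y ∈ U2, (Pi.single y 1 : Grid [A, B] → K) ∈ S := by
    intro y hy
    obtain ⟨x, hx, rfl⟩ := Finset.mem_image.1 hy
    obtain ⟨h1, h2, h3⟩ := hQ2 x hx
    by_cases h : x.1 = x.2
    · have h4 := sE x.1
      rw [hpS _ (m2 _ h1), E_cpt] at h4
      simpa only [cell, ← h] using h4
    · have h4 := sP x.1 x.2 h (Or.inl ⟨h1, h2, h3.resolve_left h⟩)
      rw [hpS _ (m2 _ h1), hpS _ (m2 _ h2)] at h4
      rw [← E_cpt (K := K) [A, B] (ρ x.1, κ x.2, ())]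
      exact h4
  have sU3 : ∀ y ∈ U3, (Pi.single y 1 : Grid [A, B] → K) ∈ S := by
    intro y hy
    obtain ⟨x, hx, rfl⟩ := Finset.mem_image.1 hy
    obtain ⟨h1, h2, h3⟩ := hQ3 x hx
    by_cases h : x.1 = x.2
    · have h4 := sE x.1
      rw [hpS _ (m3 _ h1), E_cpt] at h4
      simpa only [cell, ← h] using h4
    · have h4 := sP x.1 x.2 h (Or.inr ⟨h1, h2, h3⟩)
      rw [hpS _ (m3 _ h1), hpS _ (m3 _ h2)] at h4
      rw [← E_cpt (K := K) [A, B] (ρ x.1, κ x.2, ())]
      exact h4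
  have sU4 : ∀ y ∈ U4, (Pi.single y 1 : Grid [A, B] → K) ∈ S := by
    intro y hy
    obtain ⟨g, _, hy⟩ := Finset.mem_biUnion.1 hy
    by_cases e1 : role g = 1
    · rw [hG1 g e1, Finset.mem_insert, Finset.mem_singleton] at hy
      have hv0 := hvS _ (m2 _ (hnext g e1).1)
      have hv1 := hvS _ (m2 _ (hnext g e1).2.1)
      have hv2 : v (tri (g, 2)) = mk 0 b := by rw [hvG _ (hnext g e1).2.2, val1 g 2 e1]
      have f0 : E [A, B] (mix (v (tri (g, 0))) (v (tri (g, 2)))) =
          Pi.single (ρ (tri (g, 0)), b, ()) 1 := by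
        rw [hv0, hv2, ← E_cpt (K := K) [A, B] (ρ (tri (g, 0)), b, ())]
        rfl
      have f1 : E [A, B] (mix (v (tri (g, 1))) (v (tri (g, 2)))) =
          Pi.single (ρ (tri (g, 1)), b, ()) 1 := by
        rw [hv1, hv2, ← E_cpt (K := K) [A, B] (ρ (tri (g, 1)), b, ())]
        rfl
      have g0 := sG g e1
      have g2 := sE (tri (g, 2))
      rw [E_px_some ext v _ _ _ (hext1 g)] at g2
      have g1 : E [A, B] (mix (v (tri (g, 1))) (v (tri (g, 2)))) ∈ S := by
        have := Submodule.sub_mem _ g2 g0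
        rwa [add_sub_cancel_left] at this
      rw [f0] at g0
      rw [f1] at g1
      rcases hy with rfl | rfl
      · exact g0
      · exact g1
    by_cases e2 : role g = 2
    · rw [hG2 g e2, Finset.mem_insert, Finset.mem_singleton] at hy
      have hv0 := hvG _ (hhost g e2).1
      have hv1 := hvG _ (hhost g e2).2.1
      rw [val2 g 0 e2, if_pos rfl] at hv0
      rw [val2 g 1 e2, if_neg (by decide)] at hv1
      have g0 := sE (tri (g, 0))
      have g1 := sE (tri (g, 1))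
      rw [hnone _ (htri0 g), hv0, hEsub, hEmk, hEmk] at g0
      rw [hnone _ (htri1 g), hv1, hEmk] at g1
      rcases hy with rfl | rfl
      · have g2 : (Pi.single (ρ (tri (g, 2)), b, ()) 1 : Grid [A, B] → K) ∈ S := by
          refine sU1 _ (Finset.mem_filter.2 ⟨Finset.mem_univ _, _, (hhost g e2).2.2, Or.inl rfl⟩)
        have := Submodule.sub_mem _ g2 g0
        rwa [sub_sub_cancel] at this
      · exact g1
    by_cases e3 : role g = 3
    · rw [hG3 g e3, Finset.mem_insert, Finset.mem_singleton] at hy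
      have hv0 := hvG _ (hph g e3).1
      have hv1 := hvG _ (hph g e3).2.1
      rw [val3 g 0 e3, if_pos rfl] at hv0
      rw [val3 g 1 e3, if_neg (by decide)] at hv1
      have g0 := sE (tri (g, 0))
      have g1 := sE (tri (g, 1))
      rw [hnone _ (htri0 g), hv0, hEsub, hEmk, hEmk] at g0
      rw [hnone _ (htri1 g), hv1, hEmk] at g1
      rcases hy with rfl | rfl
      · have g2 : (Pi.single (ρ (tri (g, 2)), κ (tri (g, 2)), ()) 1 : Grid [A, B] → K) ∈ S := by
          have h4 := sE (tri (g, 2))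
          rwa [hpS _ (m2 _ (hph g e3).2.2), E_cpt] at h4
        have := Submodule.sub_mem _ g2 g0
        rwa [sub_sub_cancel] at this
      · exact g1
    rw [hG0 g e1 e2 e3] at hy
    exact absurd hy (Finset.notMem_empty y)
  have hmain : M2 ⊔ span K (Set.range fun i => E [A, B] (z i)) ≤ S := by
    refine sup_le (sup_le (coordSub_le_of_single U _ ?_) (iSup_le fun g => ?_)) ?_
    · intro y hy
      rw [Finset.mem_union, Finset.mem_union, Finset.mem_union] at hy
      rcases hy with ((hy | hy) | hy) | hy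
      · exact sU1 y hy
      · exact sU2 y hy
      · exact sU3 y hy
      · exact sU4 y hy
    · obtain ⟨g, hg⟩ := g
      have hv : ∀ k, v (tri (g, k)) = wb ⟨g, hg⟩ k := fun k => by
        rw [hvG _ (hoth g hg k)]
        simp only [val, dif_pos hg]
      rw [triS, span_le]
      intro f hf
      rw [Set.mem_insert_iff, Set.mem_insert_iff, Set.mem_singleton_iff] at hf
      rcases hf with rfl | rfl | rfl
      · have := sE (tri (g, 0))
        rwa [hnone _ (htri0 g), hv] at this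
      · have := sE (tri (g, 1))
        rwa [hnone _ (htri1 g), hv] at this
      · have := sE (tri (g, 2))
        rwa [px_some ext v _ _ _ (hext1 g), hv, hv, hv] at this
    · rw [span_le]
      rintro _ ⟨p, rfl⟩
      have := sE p.1
      rwa [hnone p.1 (fun g h => p.2.2 ⟨(g, 2), h.symm⟩), hvz p.1 p.2] at this
  refine le_trans ?_ (Submodule.finrank_mono hmain)
  refine le_trans ?_ hz
  have hprod : [A, B].prod = A * B := by simp
  rw [hprod]
  refine min_le_min le_rfl ?_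
  have hMM : U.card + ∑ _g : {g : Γ // role g = 4}, 3 ≤ finrank K M2 := by
    rw [finrank_coordSub] at hwb
    exact hwb
  have hcount : ∑ g, cg (role g) ≤ ∑ g, (G g).card + ∑ _g : {g : Γ // role g = 4}, 3 := by
    have e1 : ∑ _g : {g : Γ // role g = 4}, 3 = ∑ g : Γ, if role g = 4 then 3 else 0 := by
      rw [← Finset.sum_filter, ← Finset.sum_subtype (Finset.univ.filter fun g => role g = 4)
        (fun g => by simp) (fun _ => 3)]
    rw [e1, ← Finset.sum_add_distrib]
    refine Finset.sum_le_sum fun g _ => ?_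
    by_cases h4 : role g = 4
    · rw [if_pos h4, h4]
      exact Nat.le_add_left _ _
    · rw [if_neg h4]
      exact hGcard g h4
  change P1.card * (A + B - P1.card) + Q2.card + Q3.card + ∑ g, cg (role g) + _ ≤ _
  omega

end Pool.Agent.Lib.MP_635d71_ag
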