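import Mathlib
import Pool.Agent.Lib.MP_635d71_ag.Slice3
import Pool.Agent.Lib.MP_635d71_ag.Three

/-!
# The dimension of a slice of a format with three factors, in numbers, with gadgets
-/

open Module Submodule

namespace Pool.Agent.Lib.MP_635d71_ag

variable {K : Type} [Field K]

/-- The points of the gadgets. -/
def tri3 {q : ℕ} (t g : Fin q → ℕ) (n2 : Fin q → Fin q) (ht : ∀ j, 3 ≤ t j) :
    {i : Fin q // g i = 1} × Fin 3 → Σ j, Fin (t j) := fun x =>
  ⟨if x.2 = 2 then n2 x.1.1 else x.1.1, ⟨t (if x.2 = 2 then n2 x.1.1 else x.1.1) - (x.2.val + 1), by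
    have h1 := ht (if x.2 = 2 then n2 x.1.1 else x.1.1)
    have h2 := x.2.2
    omega⟩⟩

theorem tri3_val {q : ℕ} (t g : Fin q → ℕ) (n2 : Fin q → Fin q) (ht : ∀ j, 3 ≤ t j)
    (x : {i : Fin q // g i = 1} × Fin 3) :
    (tri3 t g n2 ht x).2.val + (x.2.val + 1) = t (tri3 t g n2 ht x).1 := by
  have h1 := ht (if x.2 = 2 then n2 x.1.1 else x.1.1)
  have h2 := x.2.2
  change t (if x.2 = 2 then n2 x.1.1 else x.1.1) - (x.2.val + 1) + (x.2.val + 1) =
    t (if x.2 = 2 then n2 x.1.1 else x.1.1)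
  omega

theorem tri3_fst {q : ℕ} (t g : Fin q → ℕ) (n2 : Fin q → Fin q) (ht : ∀ j, 3 ≤ t j)
    (i : {i : Fin q // g i = 1}) (k : Fin 3) :
    (tri3 t g n2 ht (i, k)).1 = if k = 2 then n2 i.1 else i.1 := rfl

theorem tri3_inj {q : ℕ} (t g : Fin q → ℕ) (n2 : Fin q → Fin q) (ht : ∀ j, 3 ≤ t j)
    (hn2 : Function.Injective n2) : Function.Injective (tri3 t g n2 ht) := by
  rintro ⟨i, k⟩ ⟨i', k'⟩ h
  have h1 := congrArg Sigma.fst h
  have h2 := tri3_val t g n2 ht (i, k)
  have h3 := tri3_val t g n2 ht (i', k')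
  rw [h] at h2
  have h4 : k = k' := Fin.ext (by
    change _ + (k.val + 1) = _ at h2
    change _ + (k'.val + 1) = _ at h3
    omega)
  subst h4
  rw [tri3_fst, tri3_fst] at h1
  have h5 : i.1 = i'.1 := by
    by_cases hk : k = 2
    · rw [if_pos hk, if_pos hk] at h1
      exact hn2 h1
    · rwa [if_neg hk, if_neg hk] at h1
  rw [Subtype.ext h5]

/-- The number of points of a gadget outside the special points. -/
def og : Fin 5 → ℕ := ![1, 1, 2, 2, 3]

theorem card_compl_range {ι Γ : Type} [Fintype ι] [DecidableEq ι] [Fintype Γ] [DecidableEq Γ]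
    (Sp : Finset ι) (tri : Γ × Fin 3 → ι) (htri : Function.Injective tri) (role : Γ → Fin 5)
    (hro : ∀ g, (Finset.univ.filter (fun k : Fin 3 => tri (g, k) ∉ Sp)).card = og (role g)) :
    Fintype.card {p : ι // p ∉ Sp ∧ p ∉ Set.range tri} + ∑ g, og (role g) =
      (Finset.univ \ Sp).card := by
  classical
  have h1 : Fintype.card {p : ι // p ∉ Sp ∧ p ∉ Set.range tri} =
      ((Finset.univ \ Sp) \ Finset.univ.image tri).card := by
    rw [Fintype.card_subtype]
    congr 1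
    ext p
    simp
  have h2 : ∑ g, og (role g) = ((Finset.univ \ Sp) ∩ Finset.univ.image tri).card := by
    have h3 : (Finset.univ \ Sp) ∩ Finset.univ.image tri =
        (Finset.univ.filter (fun x : Γ × Fin 3 => tri x ∉ Sp)).image tri := by
      ext p
      simp only [Finset.mem_inter, Finset.mem_sdiff, Finset.mem_univ, true_and, Finset.mem_image,
        Finset.mem_filter]
      constructor
      · rintro ⟨h, x, rfl⟩
        exact ⟨x, h, rfl⟩
      · rintro ⟨x, h, rfl⟩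
        exact ⟨h, x, rfl⟩
    rw [h3, Finset.card_image_of_injective _ htri]
    have h4 : (Finset.univ.filter (fun x : Γ × Fin 3 => tri x ∉ Sp)).card =
        ∑ g, (Finset.univ.filter (fun k : Fin 3 => tri (g, k) ∉ Sp)).card := by
      simp only [Finset.card_filter]
      rw [Fintype.sum_prod_type]
    rw [h4]
    exact Finset.sum_congr rfl fun g _ => (hro g).symm
  rw [h1, h2, Finset.card_sdiff_add_card_inter]

theorem sum_cg {Γ : Type} [Fintype Γ] (role : Γ → Fin 5) :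
    ∑ g, cg (role g) + (Finset.univ.filter fun g => role g = 0).card =
      ∑ g, og (role g) + (Finset.univ.filter fun g => role g = 1).card := by
  classical
  rw [Finset.card_filter, Finset.card_filter, ← Finset.sum_add_distrib, ← Finset.sum_add_distrib]
  refine Finset.sum_congr rfl fun g _ => ?_
  have : ∀ x : Fin 5, cg x + (if x = 0 then 1 else 0) = og x + (if x = 1 then 1 else 0) := by decide
  exact this (role g)

/-- The role of a gadget for a slice. -/
def roleOf {q : ℕ} (i j1 j2 j3 x : Fin q) : Fin 5 :=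
  if x = i then 0 else if x = j1 then 1 else if x = j2 then 2 else if x = j3 then 3 else 4

theorem roleOf_zero {q : ℕ} (i j1 j2 j3 x : Fin q) : roleOf i j1 j2 j3 x = 0 ↔ x = i := by
  unfold roleOf
  split_ifs with a1 a2 a3 a4
  · exact iff_of_true rfl a1
  · exact iff_of_false (by decide) a1
  · exact iff_of_false (by decide) a1
  · exact iff_of_false (by decide) a1
  · exact iff_of_false (by decide) a1

theorem roleOf_one {q : ℕ} (i j1 j2 j3 x : Fin q) (h : i ≠ j1) :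
    roleOf i j1 j2 j3 x = 1 ↔ x = j1 := by
  unfold roleOf
  split_ifs with a1 a2 a3 a4
  · exact iff_of_false (by decide) (by rw [a1]; exact h)
  · exact iff_of_true rfl a2
  · exact iff_of_false (by decide) a2
  · exact iff_of_false (by decide) a2
  · exact iff_of_false (by decide) a2

theorem roleOf_two {q : ℕ} (i j1 j2 j3 x : Fin q) (h : i ≠ j2) (h' : j1 ≠ j2) :
    roleOf i j1 j2 j3 x = 2 ↔ x = j2 := by
  unfold roleOf
  split_ifs with a1 a2 a3 a4
  · exact iff_of_false (by decide) (by rw [a1]; exact h)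
  · exact iff_of_false (by decide) (by rw [a2]; exact h')
  · exact iff_of_true rfl a3
  · exact iff_of_false (by decide) a3
  · exact iff_of_false (by decide) a3

theorem roleOf_three {q : ℕ} (i j1 j2 j3 x : Fin q) (h : i ≠ j3) (h' : j1 ≠ j3) (h'' : j2 ≠ j3) :
    roleOf i j1 j2 j3 x = 3 ↔ x = j3 := by
  unfold roleOf
  split_ifs with a1 a2 a3 a4
  · exact iff_of_false (by decide) (by rw [a1]; exact h)
  · exact iff_of_false (by decide) (by rw [a2]; exact h')
  · exact iff_of_false (by decide) (by rw [a3]; exact h'')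
  · exact iff_of_true rfl a4
  · exact iff_of_false (by decide) a4

theorem roleOf_four {q : ℕ} (i j1 j2 j3 x : Fin q) :
    roleOf i j1 j2 j3 x = 4 → (x ≠ i ∧ x ≠ j1) ∧ (x ≠ j2 ∧ x ≠ j3) := by
  unfold roleOf
  split_ifs with a1 a2 a3 a4
  · intro h; exact absurd h (by decide)
  · intro h; exact absurd h (by decide)
  · intro h; exact absurd h (by decide)
  · intro h; exact absurd h (by decide)
  · intro _; exact ⟨⟨a1, a2⟩, ⟨a3, a4⟩⟩

theorem og_roleOf {q : ℕ} (i j1 j2 j3 x : Fin q) (h1 : i ≠ j1) (h2 : i ≠ j2) (h3 : i ≠ j3)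
    (h12 : j1 ≠ j2) (h13 : j1 ≠ j3) (h23 : j2 ≠ j3) :
    (if ¬(x = i ∨ x = j1) then 1 else 0) + (if ¬(x = i ∨ x = j1) then 1 else 0) +
      (if ¬(x = j2 ∨ x = j3) then 1 else 0) = og (roleOf i j1 j2 j3 x) := by
  unfold roleOf
  by_cases c1 : x = i
  · simp [c1, h2, h3, og]
  · by_cases c2 : x = j1
    · simp [c2, h1.symm, h12, h13, og]
    · by_cases c3 : x = j2
      · simp [c3, h2.symm, h12.symm, og]
      · by_cases c4 : x = j3
        · simp [c4, h3.symm, h13.symm, h23.symm, og]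
        · simp [c1, c2, c3, c4, og]

theorem card_eq_one_sub {q : ℕ} (g : Fin q → ℕ) (i : Fin q) :
    (Finset.univ.filter fun x : {i : Fin q // g i = 1} => x.1 = i).card =
      if g i = 1 then 1 else 0 := by
  classical
  split_ifs with h
  · rw [Finset.card_eq_one]
    refine ⟨⟨i, h⟩, ?_⟩
    ext x
    simp only [Finset.mem_filter, Finset.mem_univ, true_and, Finset.mem_singleton]
    exact ⟨fun hx => Subtype.ext hx, fun hx => by rw [hx]⟩
  · rw [Finset.card_eq_zero, Finset.filter_eq_empty_iff]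
    intro x _ hx
    exact h (by rw [← hx]; exact x.2)

/-- The position of a special point. -/
def fpos {q : ℕ} (t : Fin q → ℕ) (i j1 : Fin q) (p : Σ j, Fin (t j)) : ℕ :=
  if p.1 = i then p.2.val else if p.1 = j1 then t i + p.2.val else t i + t j1 + p.2.val

theorem fpos_spec {q : ℕ} (t : Fin q → ℕ) (i j1 j2 : Fin q) (m : ℕ) (h1 : i ≠ j1) (h2 : i ≠ j2)
    (h12 : j1 ≠ j2) :
    (∀ p ∈ Pset t i (t i), fpos t i j1 p = p.2.val ∧ p.2.val < t i) ∧
    (∀ p ∈ Pset t j1 (t j1), fpos t i j1 p = t i + p.2.val ∧ p.2.val < t j1) ∧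
    (∀ p ∈ Pset t j2 m, fpos t i j1 p = t i + t j1 + p.2.val ∧ p.2.val < m) := by
  refine ⟨fun p hp => ?_, fun p hp => ?_, fun p hp => ?_⟩
  · obtain ⟨h3, h4⟩ := (mem_Pset _ _ _ _).1 hp
    exact ⟨if_pos h3, h4⟩
  · obtain ⟨h3, h4⟩ := (mem_Pset _ _ _ _).1 hp
    refine ⟨?_, h4⟩
    unfold fpos
    rw [if_neg (by rw [h3]; exact h1.symm), if_pos h3]
  · obtain ⟨h3, h4⟩ := (mem_Pset _ _ _ _).1 hp
    refine ⟨?_, h4⟩
    unfold fpos
    rw [if_neg (by rw [h3]; exact h2.symm), if_neg (by rw [h3]; exact h12.symm)]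

theorem mem3 {ι : Type} [DecidableEq ι] {P1 P2 P3 : Finset ι} {p : ι} :
    p ∈ P1 ∪ P2 ∪ P3 ↔ p ∈ P1 ∨ p ∈ P2 ∨ p ∈ P3 := by
  rw [Finset.mem_union, Finset.mem_union, or_assoc]

theorem fpos_lt {q : ℕ} (t : Fin q → ℕ) (i j1 j2 : Fin q) (m : ℕ) (h1 : i ≠ j1) (h2 : i ≠ j2)
    (h12 : j1 ≠ j2) : ∀ p ∈ Pset t i (t i) ∪ Pset t j1 (t j1) ∪ Pset t j2 m,
    fpos t i j1 p < t i + t j1 + m := by
  obtain ⟨f1, f2, f3⟩ := fpos_spec t i j1 j2 m h1 h2 h12
  intro p hp
  rcases mem3.1 hp with h | h | h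
  · have := f1 p h; omega
  · have := f2 p h; omega
  · have := f3 p h; omega

theorem fpos_inj {q : ℕ} (t : Fin q → ℕ) (i j1 j2 : Fin q) (m : ℕ) (h1 : i ≠ j1) (h2 : i ≠ j2)
    (h12 : j1 ≠ j2) : ∀ p ∈ Pset t i (t i) ∪ Pset t j1 (t j1) ∪ Pset t j2 m,
    ∀ p' ∈ Pset t i (t i) ∪ Pset t j1 (t j1) ∪ Pset t j2 m,
    fpos t i j1 p = fpos t i j1 p' → p = p' := by
  obtain ⟨f1, f2, f3⟩ := fpos_spec t i j1 j2 m h1 h2 h12
  intro p hp p' hp' hf
  rcases mem3.1 hp with h | h | h <;> rcases mem3.1 hp' with h' | h' | h'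
  · have := f1 p h; have := f1 p' h'
    exact Pset_inj t i (t i) p h p' h' (by omega)
  · have := f1 p h; have := f2 p' h'; omega
  · have := f1 p h; have := f3 p' h'; omega
  · have := f2 p h; have := f1 p' h'; omega
  · have := f2 p h; have := f2 p' h'
    exact Pset_inj t j1 (t j1) p h p' h' (by omega)
  · have := f2 p h; have := f3 p' h'; omega
  · have := f3 p h; have := f1 p' h'; omega
  · have := f3 p h; have := f2 p' h'; omega
  · have := f3 p h; have := f3 p' h'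
    exact Pset_inj t j2 m p h p' h' (by omega)

theorem mem_Pset_full {q : ℕ} (t : Fin q → ℕ) (j : Fin q) (p : Σ j, Fin (t j)) :
    p ∈ Pset t j (t j) ↔ p.1 = j := by
  rw [mem_Pset]
  refine ⟨fun h => h.1, fun h => ⟨h, ?_⟩⟩
  have := p.2.2
  have h' : t p.1 = t j := congrArg t h
  omega

theorem mem_tri3 {q : ℕ} (t g : Fin q → ℕ) (n2 : Fin q → Fin q) (ht : ∀ j, 3 ≤ t j)
    (i j1 j2 : Fin q) (m : ℕ) (hm : m + 3 ≤ t j2) (x : {i : Fin q // g i = 1}) (k : Fin 3) :
    tri3 t g n2 ht (x, k) ∈ Pset t i (t i) ∪ Pset t j1 (t j1) ∪ Pset t j2 m ↔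
      ((if k = 2 then n2 x.1 else x.1) = i ∨ (if k = 2 then n2 x.1 else x.1) = j1) := by
  rw [← tri3_fst t g n2 ht x k, mem3, mem_Pset_full, mem_Pset_full]
  constructor
  · rintro (h | h | h)
    · exact Or.inl h
    · exact Or.inr h
    · exfalso
      obtain ⟨a2, a3⟩ := (mem_Pset _ _ _ _).1 h
      have a1 := tri3_val t g n2 ht (x, k)
      have a5 : t (tri3 t g n2 ht (x, k)).1 = t j2 := congrArg t a2
      have a6 := k.2
      change _ + (k.val + 1) = _ at a1
      omega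
  · rintro (h | h)
    · exact Or.inl h
    · exact Or.inr (Or.inl h)

/-- The numbers of pairs. -/
theorem pairs_num {q : ℕ} (t m G : Fin q → ℕ) (cls : Fin q → ℕ → ℕ) (hm : ∀ j, m j ≤ t j)
    (hs : ∀ j, same (cls j) (m j) = G j + m j)
    (hc : ∀ j, ((Finset.range (t j) ×ˢ Finset.range (t j)).filter
      (fun x => x.1 = x.2 ∨ cls j x.1 ≠ cls j x.2)).card + G j = t j ^ 2) (j1 j2 : Fin q)
    (lab : (Σ j, Fin (t j)) → ℕ) (hlab : ∀ (j : Fin q) (p : Σ j, Fin (t j)), p.1 = j →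
      lab p = cls j p.2.val) [DecidableEq (Σ j, Fin (t j))] :
    ((Pset t j1 (t j1) ×ˢ Pset t j1 (t j1)).filter
      (fun x => x.1 = x.2 ∨ lab x.1 ≠ lab x.2)).card = t j1 ^ 2 - G j1 ∧
    ((Pset t j2 (m j2) ×ˢ Pset t j2 (m j2)).filter
      (fun x => lab x.1 = lab x.2)).card = G j2 + m j2 := by
  constructor
  · have k4 : ((Pset t j1 (t j1) ×ˢ Pset t j1 (t j1)).filter
        (fun x => x.1 = x.2 ∨ lab x.1 ≠ lab x.2)).card + G j1 = t j1 ^ 2 := by
      rw [← hc j1, ← count_transfer (Pset t j1 (t j1)) (fun p => p.2.val) (t j1)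
        (Pset_inj t j1 (t j1)) (fun x hx => ((mem_Pset _ _ _ _).1 hx).2)
        (Pset_surj t j1 (t j1) le_rfl) (fun a b => a = b ∨ cls j1 a ≠ cls j1 b)]
      congr 2
      refine Finset.filter_congr fun x hx => ?_
      obtain ⟨hx1, hx2⟩ := Finset.mem_product.1 hx
      rw [hlab j1 _ ((mem_Pset _ _ _ _).1 hx1).1, hlab j1 _ ((mem_Pset _ _ _ _).1 hx2).1]
      refine or_congr_left ?_
      exact ⟨fun h => by rw [h], fun h => Pset_inj t j1 (t j1) x.1 hx1 x.2 hx2 h⟩
    omega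
  · rw [← hs j2, same, ← count_transfer (Pset t j2 (m j2)) (fun p => p.2.val) (m j2)
      (Pset_inj t j2 (m j2)) (fun x hx => ((mem_Pset _ _ _ _).1 hx).2)
      (Pset_surj t j2 (m j2) (hm j2)) (fun a b => cls j2 a = cls j2 b)]
    congr 1
    refine Finset.filter_congr fun x hx => ?_
    obtain ⟨hx1, hx2⟩ := Finset.mem_product.1 hx
    rw [hlab j2 _ ((mem_Pset _ _ _ _).1 hx1).1, hlab j2 _ ((mem_Pset _ _ _ _).1 hx2).1]

end Pool.Agent.Lib.MP_635d71_ag
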