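import Mathlib
import Pool.Agent.Lib.MP_635d71_ag.Num3

/-!
# The dimension of a slice of a format with three factors, in numbers, with gadgets, II
-/

open Module Submodule

namespace Pool.Agent.Lib.MP_635d71_ag

variable {K : Type} [Field K]

/-- The dimension of a slice, in terms of the numbers, with gadgets. -/
theorem slice_num3 [Infinite K] (h2 : (2 : K) ≠ 0) {q A B : ℕ} (t m G g : Fin q → ℕ)
    (cls : Fin q → ℕ → ℕ) (r : ℕ)
    (hr : ∑ j, t j = r) (ht : ∀ j, 3 ≤ t j) (hm : ∀ j, m j + 3 ≤ t j)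
    (hs : ∀ j, same (cls j) (m j) = G j + m j)
    (hc : ∀ j, ((Finset.range (t j) ×ˢ Finset.range (t j)).filter
      (fun x => x.1 = x.2 ∨ cls j x.1 ≠ cls j x.2)).card + G j = t j ^ 2)
    (n2 : Fin q → Fin q) (hn2i : Function.Injective n2)
    (i j1 j2 j3 : Fin q) (h1 : i ≠ j1) (h2' : i ≠ j2) (h12 : j1 ≠ j2) (h13 : i ≠ j3)
    (h23 : j1 ≠ j3) (h33 : j2 ≠ j3) (hn2 : n2 j2 = i) (hn3 : n2 j3 = j1)
    (hA : t i + t j1 + m j2 + 2 ≤ A) (hB : t i + t j1 + m j2 + 2 ≤ B)
    (ext : (Σ j, Fin (t j)) → Option ((Σ j, Fin (t j)) × (Σ j, Fin (t j))))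
    (hext1 : ∀ x, ext (tri3 t g n2 ht (x, 2)) = some (tri3 t g n2 ht (x, 0), tri3 t g n2 ht (x, 1)))
    (hext2 : ∀ p, (∀ x, p ≠ tri3 t g n2 ht (x, 2)) → ext p = none)
    (lab : (Σ j, Fin (t j)) → ℕ) (hlab : ∀ (j : Fin q) (p : Σ j, Fin (t j)), p.1 = j →
      lab p = cls j p.2.val)
    (hroom : t i * (A + B - t i) + (t j1 ^ 2 - G j1) + (G j2 + m j2) + 3 * A + 3 * q ≤ A * B)
    (X : ℕ) (hX : X + (if g i = 1 then 1 else 0) ≤
      t i * (A + B - t i) + (t j1 ^ 2 - G j1) + (G j2 + m j2) +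
        (r - (t i + t j1 + m j2)) + (if g j1 = 1 then 1 else 0)) :
    ∃ v : (Σ j, Fin (t j)) → Coord [A, B] → K,
      min (A * B) X ≤
      finrank K ↥(span K ((({f | ∃ p ∈ Pset t i (t i), f ∈ T [A, B] (px ext v p)} ∪
        {f | ∃ p p', p ≠ p' ∧ ((p ∈ Pset t j1 (t j1) ∧ p' ∈ Pset t j1 (t j1) ∧ lab p ≠ lab p') ∨
          (p ∈ Pset t j2 (m j2) ∧ p' ∈ Pset t j2 (m j2) ∧ lab p = lab p')) ∧
            f = E [A, B] (mix (px ext v p) (px ext v p'))}) ∪
        {f | ∃ x : {i : Fin q // g i = 1}, roleOf i j1 j2 j3 x.1 = 1 ∧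
          f = E [A, B] (mix (v (tri3 t g n2 ht (x, 0))) (v (tri3 t g n2 ht (x, 2))))}) ∪
        {f | ∃ p, f = E [A, B] (px ext v p)})) := by
  classical
  have d12 : Disjoint (Pset t i (t i)) (Pset t j1 (t j1)) := Finset.disjoint_left.2 fun p hp hp' =>
    h1 (((mem_Pset _ _ _ _).1 hp).1.symm.trans ((mem_Pset _ _ _ _).1 hp').1)
  have d13 : Disjoint (Pset t i (t i)) (Pset t j2 (m j2)) := Finset.disjoint_left.2 fun p hp hp' =>
    h2' (((mem_Pset _ _ _ _).1 hp).1.symm.trans ((mem_Pset _ _ _ _).1 hp').1)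
  have d23 : Disjoint (Pset t j1 (t j1)) (Pset t j2 (m j2)) :=
    Finset.disjoint_left.2 fun p hp hp' =>
    h12 (((mem_Pset _ _ _ _).1 hp).1.symm.trans ((mem_Pset _ _ _ _).1 hp').1)
  have flt := fpos_lt t i j1 j2 (m j2) h1 h2' h12
  have finj := fpos_inj t i j1 j2 (m j2) h1 h2' h12
  obtain ⟨ρ, hρ⟩ : ∃ ρ : (Σ j, Fin (t j)) → Fin A, ∀ p, (ρ p).val = min (fpos t i j1 p) (A - 1) :=
    ⟨fun p => ⟨min (fpos t i j1 p) (A - 1), by omega⟩, fun _ => rfl⟩
  obtain ⟨κ, hκ⟩ : ∃ κ : (Σ j, Fin (t j)) → Fin B, ∀ p, (κ p).val = min (fpos t i j1 p) (B - 1) :=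
    ⟨fun p => ⟨min (fpos t i j1 p) (B - 1), by omega⟩, fun _ => rfl⟩
  obtain ⟨c4, c5⟩ := pairs_num t m G cls (fun j => by have := hm j; omega) hs hc j1 j2 lab hlab
  have k1 : (Pset t i (t i)).card = t i := card_Pset t i (t i) le_rfl
  have k2 : (Pset t j1 (t j1)).card = t j1 := card_Pset t j1 (t j1) le_rfl
  have k3 : (Pset t j2 (m j2)).card = m j2 := card_Pset t j2 (m j2) (by have := hm j2; omega)
  have k6 : (Finset.univ \ (Pset t i (t i) ∪ Pset t j1 (t j1) ∪ Pset t j2 (m j2))).card =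
      r - (t i + t j1 + m j2) := by
    rw [Finset.card_sdiff_of_subset (Finset.subset_univ _), Finset.card_union_of_disjoint
      (Finset.disjoint_union_left.2 ⟨d13, d23⟩), Finset.card_union_of_disjoint d12, k1, k2, k3]
    congr 1
    rw [Finset.card_univ, Fintype.card_sigma, ← hr]
    simp
  have ne2 : ∀ x : Fin q, n2 x = i ↔ x = j2 := fun x =>
    ⟨fun h => hn2i (h.trans hn2.symm), fun h => by rw [h]; exact hn2⟩
  have ne3 : ∀ x : Fin q, n2 x = j1 ↔ x = j3 := fun x =>
    ⟨fun h => hn2i (h.trans hn3.symm), fun h => by rw [h]; exact hn3⟩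
  have nz0 : (0 : Fin 3) ≠ 2 := by decide
  have nz1 : (1 : Fin 3) ≠ 2 := by decide
  have hS0 : ∀ x : {i : Fin q // g i = 1}, tri3 t g n2 ht (x, 0) ∈
      Pset t i (t i) ∪ Pset t j1 (t j1) ∪ Pset t j2 (m j2) ↔ (x.1 = i ∨ x.1 = j1) := fun x => by
    rw [mem_tri3 t g n2 ht i j1 j2 (m j2) (hm j2), if_neg nz0]
  have hS1 : ∀ x : {i : Fin q // g i = 1}, tri3 t g n2 ht (x, 1) ∈
      Pset t i (t i) ∪ Pset t j1 (t j1) ∪ Pset t j2 (m j2) ↔ (x.1 = i ∨ x.1 = j1) := fun x => by
    rw [mem_tri3 t g n2 ht i j1 j2 (m j2) (hm j2), if_neg nz1]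
  have hS2 : ∀ x : {i : Fin q // g i = 1}, tri3 t g n2 ht (x, 2) ∈
      Pset t i (t i) ∪ Pset t j1 (t j1) ∪ Pset t j2 (m j2) ↔ (x.1 = j2 ∨ x.1 = j3) := fun x => by
    rw [mem_tri3 t g n2 ht i j1 j2 (m j2) (hm j2), if_pos rfl, ne2, ne3]
  have hF0 : ∀ x : {i : Fin q // g i = 1}, (tri3 t g n2 ht (x, 0)).1 = x.1 := fun x => by
    rw [tri3_fst, if_neg nz0]
  have hF1 : ∀ x : {i : Fin q // g i = 1}, (tri3 t g n2 ht (x, 1)).1 = x.1 := fun x => by
    rw [tri3_fst, if_neg nz1]
  have hF2 : ∀ x : {i : Fin q // g i = 1}, (tri3 t g n2 ht (x, 2)).1 = n2 x.1 := fun x => by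
    rw [tri3_fst, if_pos rfl]
  have hcount := card_compl_range (Pset t i (t i) ∪ Pset t j1 (t j1) ∪ Pset t j2 (m j2))
    (tri3 t g n2 ht) (tri3_inj t g n2 ht hn2i) (fun x => roleOf i j1 j2 j3 x.1) (by
      intro x
      rw [Finset.card_filter, Fin.sum_univ_three]
      simp only [hS0, hS1, hS2]
      exact og_roleOf i j1 j2 j3 x.1 h1 h2' h13 h12 h23 h33)
  have hsum := sum_cg (fun x : {i : Fin q // g i = 1} => roleOf i j1 j2 j3 x.1)
  have c0 : (Finset.univ.filter fun x : {i : Fin q // g i = 1} =>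
      roleOf i j1 j2 j3 x.1 = 0).card = if g i = 1 then 1 else 0 := by
    rw [← card_eq_one_sub g i]
    congr 1
    exact Finset.filter_congr fun x _ => roleOf_zero i j1 j2 j3 x.1
  have c1 : (Finset.univ.filter fun x : {i : Fin q // g i = 1} =>
      roleOf i j1 j2 j3 x.1 = 1).card = if g j1 = 1 then 1 else 0 := by
    rw [← card_eq_one_sub g j1]
    congr 1
    exact Finset.filter_congr fun x _ => roleOf_one i j1 j2 j3 x.1 h1
  have hΓ : Fintype.card {i : Fin q // g i = 1} ≤ q := by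
    have := Fintype.card_subtype_le (fun i : Fin q => g i = 1)
    rwa [Fintype.card_fin] at this
  obtain ⟨v, hv⟩ := slice_dim3 (K := K) (A := A) (B := B) h2 (by omega) (Pset t i (t i))
    (Pset t j1 (t j1))
    (Pset t j2 (m j2)) d12 d13 d23 lab ρ κ
    (by
      intro p hp p' hp' h
      refine finj p hp p' hp' ?_
      have h3 := flt p hp
      have h4 := flt p' hp'
      have h5 := congrArg Fin.val h
      rw [hρ, hρ] at h5
      omega)
    (by
      intro p hp p' hp' h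
      refine finj p hp p' hp' ?_
      have h3 := flt p hp
      have h4 := flt p' hp'
      have h5 := congrArg Fin.val h
      rw [hκ, hκ] at h5
      omega)
    (tri3 t g n2 ht) (tri3_inj t g n2 ht hn2i) ext hext1 hext2 (fun x => roleOf i j1 j2 j3 x.1)
    (fun x hx => by
      rw [roleOf_zero] at hx
      refine ⟨(mem_Pset_full t i _).2 (by rw [hF0]; exact hx),
        (mem_Pset_full t i _).2 (by rw [hF1]; exact hx), ?_⟩
      rw [hS2, hx]
      rintro (h | h)
      · exact h2' h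
      · exact h13 h)
    (fun x hx => by
      rw [roleOf_one _ _ _ _ _ h1] at hx
      refine ⟨(mem_Pset_full t j1 _).2 (by rw [hF0]; exact hx),
        (mem_Pset_full t j1 _).2 (by rw [hF1]; exact hx), ?_⟩
      rw [hS2, hx]
      rintro (h | h)
      · exact h12 h
      · exact h23 h)
    (fun x hx => by
      rw [roleOf_two _ _ _ _ _ h2' h12] at hx
      refine ⟨?_, ?_, (mem_Pset_full t i _).2 (by rw [hF2, ne2]; exact hx)⟩
      · rw [hS0, hx]
        rintro (h | h)
        · exact h2' h.symm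
        · exact h12 h.symm
      · rw [hS1, hx]
        rintro (h | h)
        · exact h2' h.symm
        · exact h12 h.symm)
    (fun x hx => by
      rw [roleOf_three _ _ _ _ _ h13 h23 h33] at hx
      refine ⟨?_, ?_, (mem_Pset_full t j1 _).2 (by rw [hF2, ne3]; exact hx)⟩
      · rw [hS0, hx]
        rintro (h | h)
        · exact h13 h.symm
        · exact h23 h.symm
      · rw [hS1, hx]
        rintro (h | h)
        · exact h13 h.symm
        · exact h23 h.symm)
    (fun x hx k => by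
      have hx' := roleOf_four _ _ _ _ _ hx
      rw [mem_tri3 t g n2 ht i j1 j2 (m j2) (hm j2)]
      by_cases hk : k = 2
      · rw [if_pos hk, ne2, ne3]
        rintro (h | h)
        · exact hx'.2.1 h
        · exact hx'.2.2 h
      · rw [if_neg hk]
        rintro (h | h)
        · exact hx'.1.1 h
        · exact hx'.1.2 h)
    (fun x x' hxx hne => by
      apply Subtype.ext
      have c : ∀ y : Fin 5, y = 0 ∨ y = 1 ∨ y = 2 ∨ y = 3 ∨ y = 4 := by decide
      rcases c (roleOf i j1 j2 j3 x.1) with h | h | h | h | h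
      · have h' := hxx.symm.trans h
        rw [roleOf_zero] at h h'
        rw [h, h']
      · have h' := hxx.symm.trans h
        rw [roleOf_one _ _ _ _ _ h1] at h h'
        rw [h, h']
      · have h' := hxx.symm.trans h
        rw [roleOf_two _ _ _ _ _ h2' h12] at h h'
        rw [h, h']
      · have h' := hxx.symm.trans h
        rw [roleOf_three _ _ _ _ _ h13 h23 h33] at h h'
        rw [h, h']
      · exact absurd h hne)
    ⟨t i + t j1 + m j2, by omega⟩ ⟨t i + t j1 + m j2 + 1, by omega⟩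
    ⟨t i + t j1 + m j2, by omega⟩ ⟨t i + t j1 + m j2 + 1, by omega⟩
    (by rw [Ne, Fin.mk.injEq]; omega) (by rw [Ne, Fin.mk.injEq]; omega)
    (fun p hp h => by
      have h3 := flt p hp
      have h5 := congrArg Fin.val h
      rw [hρ] at h5
      change _ = t i + t j1 + m j2 at h5
      omega)
    (fun p hp h => by
      have h3 := flt p hp
      have h5 := congrArg Fin.val h
      rw [hρ] at h5
      change _ = t i + t j1 + m j2 + 1 at h5
      omega)
    (fun p hp h => by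
      have h3 := flt p hp
      have h5 := congrArg Fin.val h
      rw [hκ] at h5
      change _ = t i + t j1 + m j2 at h5
      omega)
    (fun p hp h => by
      have h3 := flt p hp
      have h5 := congrArg Fin.val h
      rw [hκ] at h5
      change _ = t i + t j1 + m j2 + 1 at h5
      omega)
    (by
      rw [k1, c4, c5]
      omega)
  refine ⟨v, le_trans ?_ hv⟩
  rw [k1, c4, c5]
  rw [k6] at hcount
  rw [c0, c1] at hsum
  omega

end Pool.Agent.Lib.MP_635d71_ag
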