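import Mathlib
import Pool.Agent.Lib.MP_635d71_ag.Num3B
import Pool.Agent.Lib.MP_635d71_ag.ArithD

/-!
# Three factors, without parity condition
-/

open Module Submodule

namespace Pool.Agent.Lib.MP_635d71_ag

variable {K : Type} [Field K]

theorem cls_ne_of_num (cls : ℕ → ℕ) (t m G : ℕ) (hs : same cls m = G + m) (hmt : m ≤ t)
    (hc : ((Finset.range t ×ˢ Finset.range t).filter
      (fun x => x.1 = x.2 ∨ cls x.1 ≠ cls x.2)).card + G = t ^ 2)
    (a b : ℕ) (ha : m ≤ a) (ha' : a < t) (hb : b < t) (hab : a ≠ b) : cls a ≠ cls b := by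
  classical
  intro hcl
  have h1 := same_compl cls t
  have h2 : ((Finset.range m ×ˢ Finset.range m).filter (fun x : ℕ × ℕ => cls x.1 = cls x.2) ∪
      ((Finset.Ico m t).image (fun x => (x, x)) ∪ {(a, b)})) ⊆
      (Finset.range t ×ˢ Finset.range t).filter (fun x : ℕ × ℕ => cls x.1 = cls x.2) := by
    intro x hx
    simp only [Finset.mem_union, Finset.mem_filter, Finset.mem_product, Finset.mem_range,
      Finset.mem_image, Finset.mem_Ico, Finset.mem_singleton] at hx ⊢
    rcases hx with ⟨⟨h3, h4⟩, h5⟩ | ⟨y, hy, rfl⟩ | rfl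
    · exact ⟨⟨by omega, by omega⟩, h5⟩
    · exact ⟨⟨hy.2, hy.2⟩, rfl⟩
    · exact ⟨⟨ha', hb⟩, hcl⟩
  have h3 := Finset.card_le_card h2
  rw [Finset.card_union_of_disjoint, Finset.card_union_of_disjoint, Finset.card_singleton,
    Finset.card_image_of_injective, Nat.card_Ico] at h3
  · change same cls m + _ ≤ same cls t at h3
    omega
  · intro x y hxy
    exact (Prod.mk.inj hxy).1
  · rw [Finset.disjoint_singleton_right, Finset.mem_image]
    rintro ⟨y, _, hy⟩
    have := Prod.mk.inj hy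
    exact hab (this.1.symm.trans this.2)
  · rw [Finset.disjoint_left]
    intro x hx hx'
    simp only [Finset.mem_filter, Finset.mem_product, Finset.mem_range] at hx
    simp only [Finset.mem_union, Finset.mem_image, Finset.mem_Ico, Finset.mem_singleton] at hx'
    rcases hx' with ⟨y, hy, rfl⟩ | rfl
    · omega
    · omega

theorem exists_ext {ι Γ : Type} (tri : Γ × Fin 3 → ι) (htri : Function.Injective tri) :
    ∃ ext : ι → Option (ι × ι), (∀ x, ext (tri (x, 2)) = some (tri (x, 0), tri (x, 1))) ∧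
      (∀ p, (∀ x, p ≠ tri (x, 2)) → ext p = none) := by
  classical
  refine ⟨fun p => if h : ∃ x, p = tri (x, 2) then some (tri (h.choose, 0), tri (h.choose, 1))
    else none, ?_, ?_⟩
  · intro x
    have h : ∃ y, tri (x, 2) = tri (y, 2) := ⟨x, rfl⟩
    dsimp only
    rw [dif_pos h]
    have h2 : h.choose = x := by
      have h3 := htri h.choose_spec
      exact (Prod.mk.inj h3).1.symm
    rw [h2]
  · intro p hp
    dsimp only
    rw [dif_neg]
    rintro ⟨x, hx⟩
    exact hp x hx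

theorem ext_some {ι Γ : Type} (tri : Γ × Fin 3 → ι)
    (ext : ι → Option (ι × ι)) (h1 : ∀ x, ext (tri (x, 2)) = some (tri (x, 0), tri (x, 1)))
    (h2 : ∀ p, (∀ x, p ≠ tri (x, 2)) → ext p = none) (p a b : ι) (h : ext p = some (a, b)) :
    ∃ x, p = tri (x, 2) ∧ a = tri (x, 0) ∧ b = tri (x, 1) := by
  by_cases hp : ∀ x, p ≠ tri (x, 2)
  · rw [h2 p hp] at h
    cases h
  · push Not at hp
    obtain ⟨x, hx⟩ := hp
    rw [hx, h1] at h
    injection h with h
    obtain ⟨h3, h4⟩ := Prod.mk.inj h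
    exact ⟨x, hx, h3.symm, h4.symm⟩

theorem room3_key (x w a b : ℕ) :
    5 * (x + w + 65) * ((x + w + 69) ^ 2 + (w + 60) +
        3 * (a + 2 * x + 3 * w + 198)) +
      (x + w + 65) * (w + 60) ^ 2 +
      15 * ((a + 2 * x + 3 * w + 198) *
        (b + 2 * x + 3 * w + 198)) ≤
      5 * (x + w + 65) * ((a + x + 2 * w + 129) *
        (b + x + 2 * w + 129)) := by
    have : 5 * (x + w + 65) * ((a + x + 2 * w + 129) *
        (b + x + 2 * w + 129)) = 5 * (x + w + 65) * ((x + w + 69) ^ 2 + (w + 60) +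
        3 * (a + 2 * x + 3 * w + 198)) +
      (x + w + 65) * (w + 60) ^ 2 +
      15 * ((a + 2 * x + 3 * w + 198) *
        (b + 2 * x + 3 * w + 198)) + (14 * w^3 + 24 * w^2 * x + 10 * w^2 * a + 10 * w^2 * b + 2495 * w^2 +
      10 * w * x^2 + 15 * w * x * a + 15 * w * x * b + 2760 * w * x + 5 * w * a * b +
      1235 * w * a + 1250 * w * b + 146510 * w + 5 * x^2 * a + 5 * x^2 * b + 510 * x^2 +
      5 * x * a * b + 925 * x * a + 940 * x * b + 77700 * x + 310 * a * b + 37980 * a +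
      38955 * b + 2826390) := by ring
    rw [this]
    exact Nat.le_add_right _ _

theorem room3_poly (x w a b W q : ℕ) (hw : 60 ≤ w) (hx : w + 9 ≤ x) (ha : x + w ≤ a)
    (hb : x + w ≤ b) (hW : 5 * W ≤ w ^ 2) (hq : (x - 4) * q ≤ (a + x) * (b + x)) :
    x ^ 2 + W + w + 3 * (a + x) + 3 * q ≤ a * b := by
  obtain ⟨w', rfl⟩ : ∃ w', w = w' + 60 := ⟨w - 60, by omega⟩
  obtain ⟨x', hx'⟩ : ∃ x', x = x' + w' + 69 := ⟨x - (w' + 69), by omega⟩
  obtain ⟨a', ha'⟩ : ∃ a', a = a' + x' + 2 * w' + 129 := ⟨a - (x' + 2 * w' + 129), by omega⟩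
  obtain ⟨b', hb'⟩ : ∃ b', b = b' + x' + 2 * w' + 129 := ⟨b - (x' + 2 * w' + 129), by omega⟩
  have e1 : x - 4 = x' + w' + 65 := by omega
  have e2 : a + x = a' + 2 * x' + 3 * w' + 198 := by omega
  have e3 : b + x = b' + 2 * x' + 3 * w' + 198 := by omega
  have key := room3_key x' w' a' b'
  rw [← e1, ← e2, ← e3, ← ha', ← hb', ← hx'] at key
  have h3 : (x - 4) * (5 * W) ≤ (x - 4) * (w' + 60) ^ 2 := Nat.mul_le_mul_left _ hW
  have h4 : 15 * ((x - 4) * q) ≤ 15 * ((a + x) * (b + x)) := Nat.mul_le_mul_left _ hq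
  have h5 : 5 * (x - 4) * (x ^ 2 + W + (w' + 60) + 3 * (a + x) + 3 * q) ≤
      5 * (x - 4) * (a * b) := by
    calc 5 * (x - 4) * (x ^ 2 + W + (w' + 60) + 3 * (a + x) + 3 * q)
        = 5 * (x - 4) * (x ^ 2 + (w' + 60) + 3 * (a + x)) + (x - 4) * (5 * W) +
          15 * ((x - 4) * q) := by ring
      _ ≤ 5 * (x - 4) * (x ^ 2 + (w' + 60) + 3 * (a + x)) + (x - 4) * (w' + 60) ^ 2 +
          15 * ((a + x) * (b + x)) := Nat.add_le_add (Nat.add_le_add le_rfl h3) h4
      _ ≤ _ := key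
  exact Nat.le_of_mul_le_mul_left h5 (by omega)

theorem room3 (A B t x w G G' m b q : ℕ) (hw : 60 ≤ w) (hx : w + 9 ≤ x) (ht : t ≤ x)
    (hb : b ≤ x) (hA : 2 * x + w ≤ A) (hB : 2 * x + w ≤ B) (hG : 5 * G' ≤ w ^ 2) (hm : m ≤ w)
    (hq : (x - 4) * q ≤ A * B) :
    t * (A + B - t) + (b ^ 2 - G) + (G' + m) + 3 * A + 3 * q ≤ A * B := by
  obtain ⟨a', rfl⟩ : ∃ a', A = a' + x := ⟨A - x, by omega⟩
  obtain ⟨b', rfl⟩ : ∃ b', B = b' + x := ⟨B - x, by omega⟩
  have h1 := room3_poly x w a' b' G' q hw hx (by omega) (by omega) hG hq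
  obtain ⟨y, rfl⟩ := Nat.exists_eq_add_of_le ht
  have h2 : a' + (t + y) + (b' + (t + y)) - t = a' + b' + t + 2 * y := by omega
  rw [h2]
  have h3 : b ^ 2 - G ≤ (t + y) ^ 2 := (Nat.sub_le _ _).trans (Nat.pow_le_pow_left hb 2)
  have h4 : t * (a' + b' + t + 2 * y) + (a' * b' + y * (a' + b' + y)) =
      (a' + (t + y)) * (b' + (t + y)) := by ring
  have h5 : 0 ≤ y * (a' + b' + y) := Nat.zero_le _
  omega

/-- The flows, with gadgets. -/
theorem three_flow [Infinite K] (h2 : (2 : K) ≠ 0) {q A B : ℕ} (t m G g : Fin q → ℕ)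
    (cls : Fin q → ℕ → ℕ) (r : ℕ)
    (hr : ∑ j, t j = r) (ht : ∀ j, 3 ≤ t j) (hm : ∀ j, m j + 3 ≤ t j)
    (hs : ∀ j, same (cls j) (m j) = G j + m j)
    (hc : ∀ j, ((Finset.range (t j) ×ˢ Finset.range (t j)).filter
      (fun x => x.1 = x.2 ∨ cls j x.1 ≠ cls j x.2)).card + G j = t j ^ 2)
    (n1 n2 p1 p2 p3 : Fin q → Fin q) (hn2i : Function.Injective n2)
    (hd1 : ∀ j, j ≠ p1 j) (hd2 : ∀ j, j ≠ p2 j) (hd12 : ∀ j, p1 j ≠ p2 j) (hd3 : ∀ j, j ≠ p3 j)
    (hd13 : ∀ j, p1 j ≠ p3 j) (hd23 : ∀ j, p2 j ≠ p3 j) (hn1 : ∀ j, n1 (p1 j) = j)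
    (hn2 : ∀ j, n2 (p2 j) = j) (hn3 : ∀ j, n2 (p3 j) = p1 j)
    (hA : ∀ i, t i + t (p1 i) + m (p2 i) + 2 ≤ A) (hB : ∀ i, t i + t (p1 i) + m (p2 i) + 2 ≤ B)
    (hroom : ∀ i, t i * (A + B - t i) + (t (p1 i) ^ 2 - G (p1 i)) + (G (p2 i) + m (p2 i)) +
      3 * A + 3 * q ≤ A * B)
    (X : Fin q → ℕ) (hX : ∀ i, X i + (if g i = 1 then 1 else 0) ≤
      t i * (A + B - t i) + (t (p1 i) ^ 2 - G (p1 i)) + (G (p2 i) + m (p2 i)) +
        (r - (t i + t (p1 i) + m (p2 i))) + (if g (p1 i) = 1 then 1 else 0)) :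
    ∃ x : (Σ j, Fin (t j)) → Coord [q, A, B] → K,
      ∑ i, min (A * B) (X i) ≤ finrank K ↥(coordSub K (∅ : Finset (Grid [q, A, B])) ⊔
        ⨆ p, T [q, A, B] (x p)) := by
  classical
  have htri := tri3_inj t g n2 ht hn2i
  obtain ⟨ext, hext1, hext2⟩ := exists_ext (tri3 t g n2 ht) htri
  obtain ⟨lab, hlab⟩ : ∃ lab : (Σ j, Fin (t j)) → ℕ, ∀ p, lab p = cls p.1 p.2.val :=
    ⟨_, fun _ => rfl⟩
  have hlab' : ∀ (j : Fin q) (p : Σ j, Fin (t j)), p.1 = j → lab p = cls j p.2.val :=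
    fun j p h => by
      rw [hlab]
      exact congrFun (congrArg cls h) p.2.val
  have hF0 : ∀ x : {i : Fin q // g i = 1}, (tri3 t g n2 ht (x, 0)).1 = x.1 := fun x => by
    rw [tri3_fst, if_neg (by decide)]
  have hF1 : ∀ x : {i : Fin q // g i = 1}, (tri3 t g n2 ht (x, 1)).1 = x.1 := fun x => by
    rw [tri3_fst, if_neg (by decide)]
  refine flow3 (K := K) (q := q) (A := A) (B := B) (ι := Σ j, Fin (t j))
    (fun p => p.1) lab n1 n2 ext ?_ ∅ (fun i => min (A * B) (X i)) ?_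
  · intro p a b hp
    obtain ⟨x, rfl, rfl, rfl⟩ := ext_some (tri3 t g n2 ht) ext hext1 hext2 p a b hp
    refine ⟨hext2 _ ?_, hext2 _ ?_, ?_, ?_⟩
    · intro y hy
      exact absurd (Prod.mk.inj (htri hy)).2 (by decide)
    · intro y hy
      exact absurd (Prod.mk.inj (htri hy)).2 (by decide)
    · rw [hF0, hF1]
    · rw [hlab' x.1 _ (hF0 x), hlab' x.1 _ (hF1 x)]
      have v0 := tri3_val t g n2 ht (x, 0)
      have v1 := tri3_val t g n2 ht (x, 1)
      have w0 := v0.trans (congrArg t (hF0 x))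
      have w1 := v1.trans (congrArg t (hF1 x))
      change _ + (0 + 1) = _ at w0
      change _ + (1 + 1) = _ at w1
      have h3 := hm x.1
      exact cls_ne_of_num (cls x.1) (t x.1) (m x.1) (G x.1) (hs x.1) (by omega) (hc x.1) _ _
        (by omega) (by omega) (by omega) (by omega)
  · intro i
    obtain ⟨v, hv⟩ := slice_num3 (K := K) h2 t m G g cls r hr ht hm hs hc n2 hn2i i (p1 i) (p2 i)
      (p3 i) (hd1 i) (hd2 i) (hd12 i) (hd3 i) (hd13 i) (hd23 i) (hn2 i) (hn3 i) (hA i) (hB i) ext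
      hext1 hext2 lab hlab' (hroom i) (X i) (hX i)
    refine ⟨v, hv.trans (Submodule.finrank_mono (le_trans (span_mono ?_) le_sup_right))⟩
    refine Set.union_subset_union (Set.union_subset_union (Set.union_subset_union ?_ ?_) ?_)
      (fun _ h => h)
    · rintro f ⟨p, hp, hf⟩
      exact ⟨p, (mem_Pset_full t i p).1 hp, hf⟩
    · rintro f ⟨p, p', hne, h, rfl⟩
      refine ⟨p, p', hne, ?_, ?_, rfl⟩
      · rcases h with ⟨h3, h4, _⟩ | ⟨h3, h4, _⟩
        · exact ((mem_Pset _ _ _ _).1 h3).1.trans ((mem_Pset _ _ _ _).1 h4).1.symm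
        · exact ((mem_Pset _ _ _ _).1 h3).1.trans ((mem_Pset _ _ _ _).1 h4).1.symm
      · rcases h with ⟨h3, h4, h5⟩ | ⟨h3, h4, h5⟩
        · refine Or.inl ⟨h5, ?_⟩
          rw [((mem_Pset _ _ _ _).1 h3).1]
          exact hn1 i
        · refine Or.inr ⟨h5, ?_⟩
          rw [((mem_Pset _ _ _ _).1 h3).1]
          exact hn2 i
    · rintro f ⟨x, hx, rfl⟩
      rw [roleOf_one _ _ _ _ _ (hd1 i)] at hx
      refine ⟨tri3 t g n2 ht (x, 2), tri3 t g n2 ht (x, 0), tri3 t g n2 ht (x, 1), hext1 x, ?_, rfl⟩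
      rw [hF0, hx]
      exact hn1 i

/-- The criterion for three factors, for a given rank, without parity condition. -/
theorem three_reach2 [Infinite K] (h2K : (2 : K) ≠ 0) (q A B w r : ℕ) (hq : 4 ≤ q) (hA : 2 ≤ A)
    (hB : 2 ≤ B)
    (hw : 60 * (r / q) + 10 * (A + B - 2) ≤ w ^ 2) (hws : w + 6 ≤ r / q)
    (hwA : 2 * (r / q) + 8 + w ≤ A) (hwB : 2 * (r / q) + 8 + w ≤ B)
    (hqs : (r / q - 1) * q ≤ A * B) :
    Reach K [q, A, B] r (min (r * (A + B - 2 + q)) (q * (A * B))) := by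
  classical
  obtain ⟨N, hN⟩ : ∃ N, A + B - 2 = N := ⟨_, rfl⟩
  obtain ⟨s, hs⟩ : ∃ s, r / q = s := ⟨_, rfl⟩
  rw [hN] at hw ⊢
  rw [hs] at hw hws hwA hwB hqs
  have hw60 : 60 ≤ w := by
    by_contra hcon
    have h1 : w * w ≤ 59 * w := Nat.mul_le_mul_right _ (by omega)
    have h2 : w ^ 2 = w * w := sq w
    omega
  have hq0 : 0 < q := by omega
  have hrs1 : q * s ≤ r := by rw [← hs]; exact Nat.mul_div_le r q
  have hrs2 : r < q * s + q := by
    have h1 := Nat.div_add_mod r q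
    have h2 := Nat.mod_lt r hq0
    rw [hs] at h1
    omega
  have hbig : 4 * q ≤ r := by
    have : q * 4 ≤ q * s := Nat.mul_le_mul_left _ (by omega)
    omega
  obtain ⟨t, e, he0, heq, hsum, hne, helt, hup, hlo, hL⟩ :=
    arith_ne q N (A * B) r (by omega) (by omega) hbig
  have ht1 : ∀ i, t i ≤ s + 3 := fun i => by
    by_contra hcon
    have h1 : q * (s + 4) ≤ q * t i := Nat.mul_le_mul_left _ (by omega)
    have h2 := hup i
    have h3 : q * (s + 4) = q * s + 4 * q := by ring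
    omega
  have ht2 : ∀ i, s ≤ t i + 3 := fun i => by
    by_contra hcon
    have h1 : q * (t i + 4) ≤ q * s := Nat.mul_le_mul_left _ (by omega)
    have h2 := hlo i
    have h3 : q * (t i + 4) = q * t i + 4 * q := by ring
    omega
  obtain ⟨out, hout⟩ : ∃ out : ℕ → ℕ, ∀ i, out i = t i * (t i - 1) := ⟨_, fun _ => rfl⟩
  obtain ⟨γ, hγ⟩ : ∃ γ, γ = (s + 3) * (s + 2) := ⟨_, rfl⟩
  have hout1 : ∀ i, out i ≤ γ := fun i => by
    rw [hout, hγ]
    exact Nat.mul_le_mul (ht1 i) (by have := ht1 i; omega)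
  obtain ⟨s', rfl⟩ : ∃ s', s = s' + 4 := ⟨s - 4, by omega⟩
  have hout2 : ∀ i, (s' + 1) * s' ≤ out i := fun i => by
    rw [hout]
    have := ht2 i
    exact Nat.mul_le_mul (by omega) (by omega)
  have hoev : ∀ i, Even (out i) := fun i => by
    rw [hout]
    rcases Nat.eq_zero_or_pos (t i) with h0 | h0
    · rw [h0]; simp
    · obtain ⟨x, hx⟩ : ∃ x, t i = x + 1 := ⟨t i - 1, by omega⟩
      rw [hx, Nat.add_sub_cancel, mul_comm]
      exact Nat.even_mul_succ_self x
  have hγev : Even γ := by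
    rw [hγ, mul_comm]
    exact Nat.even_mul_succ_self (s' + 4 + 2)
  -- the even part
  obtain ⟨eb, heb⟩ : ∃ eb : ℕ → ℕ, ∀ i, eb i = e i - e i % 2 := ⟨_, fun _ => rfl⟩
  have hebev : ∀ i, Even (eb i) := fun i => by
    rw [heb, Nat.even_iff]
    omega
  have hebe : ∀ i, eb i + e i % 2 = e i := fun i => by rw [heb]; omega
  obtain ⟨G, hG⟩ : ∃ G : ℕ → ℕ, ∀ i, G i + out ((i + 1) % q) = γ + eb ((i + 2) % q) :=
    ⟨fun i => γ + eb ((i + 2) % q) - out ((i + 1) % q), fun i => by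
      have := hout1 ((i + 1) % q)
      dsimp only
      omega⟩
  have hGev : ∀ i, Even (G i) := fun i => by
    have h1 : Even (G i + out ((i + 1) % q)) := by
      rw [hG]; exact hγev.add (hebev _)
    rw [Nat.even_add] at h1
    exact h1.2 (hoev _)
  have hGw : ∀ i, 5 * G i ≤ w ^ 2 := fun i => by
    have h1 := hG i
    have h2 := hout2 ((i + 1) % q)
    have h3 := helt ((i + 2) % q)
    have h5 := hebe ((i + 2) % q)
    have h4 : γ = (s' + 1) * s' + 12 * s' + 42 := by rw [hγ]; ring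
    omega
  have hwt : ∀ i, w + 3 ≤ t i := fun i => by have := ht2 i; omega
  have hcl : ∀ i, ∃ (cls : ℕ → ℕ) (m : ℕ), m ^ 2 ≤ 5 * G i ∧ m ≤ t i ∧ same cls m = G i + m ∧
      ((Finset.range (t i) ×ˢ Finset.range (t i)).filter
        (fun x => x.1 = x.2 ∨ cls x.1 ≠ cls x.2)).card + G i = t i ^ 2 := fun i =>
    exists_cls (t i) (G i) (hGev i) ((hGw i).trans (Nat.pow_le_pow_left (by
      have := hwt i; omega) 2))
  choose cls m hm1 hm2 hm3 hm4 using hcl
  have hmw : ∀ i, m i ≤ w := fun i => by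
    by_contra hcon
    have h1 : (w + 1) ^ 2 ≤ m i ^ 2 := Nat.pow_le_pow_left (by omega) 2
    have h2 := hm1 i
    have h3 := hGw i
    nlinarith
  -- the slices
  obtain ⟨tF, htF⟩ : ∃ tF : Fin q → ℕ, ∀ j, tF j = t j.val := ⟨_, fun _ => rfl⟩
  obtain ⟨g, hg⟩ : ∃ g : Fin q → ℕ, ∀ j, g j = e (j.val + 1) % 2 := ⟨_, fun _ => rfl⟩
  let n1 : Fin q → Fin q := fun j => ⟨(j.val + 1) % q, Nat.mod_lt _ hq0⟩
  let n2 : Fin q → Fin q := fun j => ⟨(j.val + 2) % q, Nat.mod_lt _ hq0⟩
  let p1 : Fin q → Fin q := fun j => ⟨(j.val + (q - 1)) % q, Nat.mod_lt _ hq0⟩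
  let p2 : Fin q → Fin q := fun j => ⟨(j.val + (q - 2)) % q, Nat.mod_lt _ hq0⟩
  let p3 : Fin q → Fin q := fun j => ⟨(j.val + (q - 3)) % q, Nat.mod_lt _ hq0⟩
  have hn1 : ∀ j, n1 (p1 j) = j := fun j => Fin.ext (by
    change ((j.val + (q - 1)) % q + 1) % q = j.val
    rw [Nat.mod_add_mod, show j.val + (q - 1) + 1 = j.val + q by omega, Nat.add_mod_right,
      Nat.mod_eq_of_lt j.2])
  have hn2 : ∀ j, n2 (p2 j) = j := fun j => Fin.ext (by
    change ((j.val + (q - 2)) % q + 2) % q = j.val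
    rw [Nat.mod_add_mod, show j.val + (q - 2) + 2 = j.val + q by omega, Nat.add_mod_right,
      Nat.mod_eq_of_lt j.2])
  have hn2s : Function.Surjective n2 := fun j => ⟨p2 j, hn2 j⟩
  have hn2i : Function.Injective n2 := Finite.injective_iff_surjective.2 hn2s
  have hn3 : ∀ j, n2 (p3 j) = p1 j := fun j => Fin.ext (by
    change ((j.val + (q - 3)) % q + 2) % q = (j.val + (q - 1)) % q
    rw [Nat.mod_add_mod, show j.val + (q - 3) + 2 = j.val + (q - 1) by omega])
  have hmodv : ∀ (x : ℕ), x < 2 * q → x % q = if x < q then x else x - q := fun x hx => by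
    split_ifs with h
    · exact Nat.mod_eq_of_lt h
    · rw [Nat.mod_eq_sub_mod (by omega), Nat.mod_eq_of_lt (by omega)]
  have hp1 : ∀ j, (p1 j).val = if j.val + (q - 1) < q then j.val + (q - 1) else
      j.val + (q - 1) - q := fun j => hmodv _ (by have := j.2; omega)
  have hp2 : ∀ j, (p2 j).val = if j.val + (q - 2) < q then j.val + (q - 2) else
      j.val + (q - 2) - q := fun j => hmodv _ (by have := j.2; omega)
  have hp3 : ∀ j, (p3 j).val = if j.val + (q - 3) < q then j.val + (q - 3) else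
      j.val + (q - 3) - q := fun j => hmodv _ (by have := j.2; omega)
  have hd1 : ∀ j, j ≠ p1 j := fun j h => by
    have h1 := congrArg Fin.val h
    rw [hp1] at h1
    have := j.2
    split_ifs at h1 <;> omega
  have hd2 : ∀ j, j ≠ p2 j := fun j h => by
    have h1 := congrArg Fin.val h
    rw [hp2] at h1
    have := j.2
    split_ifs at h1 <;> omega
  have hd3 : ∀ j, j ≠ p3 j := fun j h => by
    have h1 := congrArg Fin.val h
    rw [hp3] at h1
    have := j.2
    split_ifs at h1 <;> omega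
  have hd12 : ∀ j, p1 j ≠ p2 j := fun j h => by
    have h1 := congrArg Fin.val h
    rw [hp1, hp2] at h1
    have := j.2
    split_ifs at h1 <;> omega
  have hd13 : ∀ j, p1 j ≠ p3 j := fun j h => by
    have h1 := congrArg Fin.val h
    rw [hp1, hp3] at h1
    have := j.2
    split_ifs at h1 <;> omega
  have hd23 : ∀ j, p2 j ≠ p3 j := fun j h => by
    have h1 := congrArg Fin.val h
    rw [hp2, hp3] at h1
    have := j.2
    split_ifs at h1 <;> omega
  have hsumF : ∑ j, tF j = r := by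
    rw [← hsum, Finset.sum_range]
    exact Finset.sum_congr rfl fun j _ => htF j
  have ht3 : ∀ j, 3 ≤ tF j := fun j => by rw [htF]; have := hwt j.val; omega
  have hm3F : ∀ j : Fin q, m j.val + 3 ≤ tF j := fun j => by
    rw [htF]
    have := hwt j.val
    have := hmw j.val
    omega
  have hs3 : ∀ j : Fin q, same (cls j.val) (m j.val) = G j.val + m j.val := fun j => hm3 j.val
  have hc3 : ∀ j : Fin q, ((Finset.range (tF j) ×ˢ Finset.range (tF j)).filter
      (fun x => x.1 = x.2 ∨ cls j.val x.1 ≠ cls j.val x.2)).card + G j.val = tF j ^ 2 := fun j => by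
    rw [htF]
    exact hm4 j.val
  -- the loads
  obtain ⟨W, hW⟩ : ∃ W : Fin q → ℕ, ∀ i, W i = tF i * (A + B - tF i) +
      (tF (p1 i) ^ 2 - G (p1 i).val) + (G (p2 i).val + m (p2 i).val) +
      (r - (tF i + tF (p1 i) + m (p2 i).val)) := ⟨_, fun _ => rfl⟩
  have hgi : ∀ i : Fin q, (if g i = 1 then 1 else 0) = e (i.val + 1) % 2 := fun i => by
    rw [hg]
    split_ifs with h <;> omega
  have hep : ∀ i : Fin q, (p1 i).val + 1 = i.val ∨ ((p1 i).val + 1 = q ∧ i.val = 0) := fun i => by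
    have h1 := hp1 i
    have := i.2
    split_ifs at h1 <;> omega
  have hgp : ∀ i : Fin q, (if g (p1 i) = 1 then 1 else 0) = e i.val % 2 := fun i => by
    rw [hgi]
    rcases hep i with h | ⟨h, h'⟩
    · rw [h]
    · rw [h, h', heq, he0]
  have hload : ∀ i : Fin q, W i + eb (i.val + 1) = r + N * t i.val + eb i.val := by
    intro i
    have hi := i.2
    have a1 : ((p1 i).val + 1) % q = i.val := congrArg Fin.val (hn1 i)
    have a2 : eb (((p1 i).val + 2) % q) = eb (i.val + 1) := by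
      have h1 : ((p1 i).val + 2) % q = (i.val + 1) % q := by
        change ((i.val + (q - 1)) % q + 2) % q = _
        rw [Nat.mod_add_mod, show i.val + (q - 1) + 2 = i.val + 1 + q by omega, Nat.add_mod_right]
      rw [h1]
      rcases Nat.lt_or_ge (i.val + 1) q with h | h
      · rw [Nat.mod_eq_of_lt h]
      · have h2 : i.val + 1 = q := by omega
        rw [h2, Nat.mod_self, heb, heb, he0, heq]
    have a3 : ((p2 i).val + 2) % q = i.val := congrArg Fin.val (hn2 i)
    have a4 : ((p2 i).val + 1) % q = (p1 i).val := by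
      change ((i.val + (q - 2)) % q + 1) % q = (i.val + (q - 1)) % q
      rw [Nat.mod_add_mod, show i.val + (q - 2) + 1 = i.val + (q - 1) by omega]
    have g1 := hG (p1 i).val
    rw [a1, a2, hout] at g1
    have g2 := hG (p2 i).val
    rw [a3, a4, hout] at g2
    have hr3 : t i.val + t (p1 i).val + m (p2 i).val ≤ r := by
      have h1 : ∑ j ∈ ({i, p1 i, p2 i} : Finset (Fin q)), tF j ≤ ∑ j, tF j :=
        Finset.sum_le_sum_of_subset (Finset.subset_univ _)
      rw [Finset.sum_insert (by simp [hd1 i, hd2 i]), Finset.sum_insert (by simp [hd12 i]),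
        Finset.sum_singleton, hsumF, htF, htF, htF] at h1
      have h2 := hm2 (p2 i).val
      omega
    rw [hW, htF, htF]
    refine load_id A B N (t i.val) (t (p1 i).val) (m (p2 i).val) r γ (eb i.val) (eb (i.val + 1))
      (G (p1 i).val) (G (p2 i).val) (by omega) ?_ ?_ ?_ hr3 g1 g2 ?_
    · have := ht1 i.val; omega
    · have := ht2 (p1 i).val; omega
    · have := ht2 i.val; omega
    · have h1 := hGw (p1 i).val
      have h2 : w ^ 2 ≤ t (p1 i).val ^ 2 := Nat.pow_le_pow_left (by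
        have := hwt (p1 i).val; omega) 2
      omega
  obtain ⟨X, hX⟩ : ∃ X : Fin q → ℕ, ∀ i, X i + e (i.val + 1) = r + N * t i.val + e i.val :=
    ⟨fun i => r + N * t i.val + e i.val - e (i.val + 1), fun i => by
      have h0 : 1 ≤ tF i * (A + B - tF i) := by
        refine Nat.mul_pos (by have := ht3 i; omega) ?_
        rw [htF]
        have := ht1 i.val
        omega
      have h1 := hload i
      rw [hW] at h1
      have h2 := hebe i.val
      have h3 := hebe (i.val + 1)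
      dsimp only
      omega⟩
  obtain ⟨x, hx⟩ := three_flow (K := K) h2K tF (fun j => m j.val) (fun j => G j.val) g
    (fun j => cls j.val) r hsumF ht3 hm3F hs3 hc3 n1 n2 p1 p2 p3 hn2i hd1 hd2 hd12 hd3 hd13 hd23
    hn1 hn2 hn3 (A := A) (B := B) (fun i => by
      have e1 := ht1 i.val
      have e2 := ht1 (p1 i).val
      have e3 := hmw (p2 i).val
      rw [htF, htF]
      omega) (fun i => by
      have e1 := ht1 i.val
      have e2 := ht1 (p1 i).val
      have e3 := hmw (p2 i).val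
      rw [htF, htF]
      omega) (fun i => by
      rw [htF, htF]
      exact room3 A B (t i.val) (s' + 4 + 3) w (G (p1 i).val) (G (p2 i).val) (m (p2 i).val)
        (t (p1 i).val) q hw60 (by omega) (ht1 _) (ht1 _) (by omega) (by omega) (hGw _) (hmw _) (by
          rw [show s' + 4 + 3 - 4 = s' + 4 - 1 by omega]
          exact hqs)) X (fun i => by
      have h1 := hload i
      have h2 := hX i
      have h3 := hebe i.val
      have h4 := hebe (i.val + 1)
      rw [hgi, hgp]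
      rw [hW] at h1
      omega)
  have hcard : Fintype.card (Σ j, Fin (tF j)) = r := by
    rw [Fintype.card_sigma, ← hsumF]
    simp
  let E := Fintype.equivFinOfCardEq hcard
  refine ⟨fun a => x (E.symm a), ?_⟩
  have hS : (⨆ a, T [q, A, B] (x (E.symm a))) = ⨆ p, T [q, A, B] (x p) :=
    E.symm.iSup_comp (g := fun p => T [q, A, B] (x p))
  rw [hS]
  have hbot : coordSub K (∅ : Finset (Grid [q, A, B])) ⊔ (⨆ p, T [q, A, B] (x p)) =
      ⨆ p, T [q, A, B] (x p) := by
    rw [sup_eq_right]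
    intro f hf
    have : f = 0 := by ext g; exact hf g (Finset.notMem_empty g)
    rw [this]
    exact Submodule.zero_mem _
  rw [hbot] at hx
  refine le_trans ?_ hx
  have hesum : ∑ i : Fin q, e (i.val + 1) = ∑ i : Fin q, e i.val := by
    have h1 := Finset.sum_range_succ e q
    have h2 := Finset.sum_range_succ' e q
    rw [h1, heq, he0] at h2
    rw [← Finset.sum_range (fun i => e (i + 1)), ← Finset.sum_range (fun i => e i)]
    omega
  have htsum : ∑ i : Fin q, t i.val = r := by rw [← Finset.sum_range, hsum]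
  rcases hL with hL | hL
  · refine (min_le_left _ _).trans ?_
    have h1 : ∀ i : Fin q, min (A * B) (X i) + e (i.val + 1) = r + N * t i.val + e i.val := by
      intro i
      have h2 := hX i
      have h3 := hL i.val
      rw [min_eq_right (by omega)]
      exact h2
    have h4 : ∑ i : Fin q, min (A * B) (X i) + ∑ i : Fin q, e (i.val + 1) =
        ∑ i : Fin q, (r + N * t i.val + e i.val) := by
      rw [← Finset.sum_add_distrib]
      exact Finset.sum_congr rfl fun i _ => h1 i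
    rw [Finset.sum_add_distrib, Finset.sum_add_distrib, ← Finset.mul_sum, htsum, hesum,
      Finset.sum_const, Finset.card_univ, Fintype.card_fin, smul_eq_mul] at h4
    have h5 : r * (N + q) = q * r + N * r := by ring
    omega
  · refine (min_le_right _ _).trans ?_
    have h1 : ∀ i : Fin q, A * B ≤ min (A * B) (X i) := by
      intro i
      have h2 := hX i
      have h3 := hL i.val
      refine le_min le_rfl ?_
      omega
    calc q * (A * B) = ∑ _i : Fin q, A * B := by simp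
      _ ≤ _ := Finset.sum_le_sum fun i _ => h1 i

end Pool.Agent.Lib.MP_635d71_ag
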