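import Mathlib
import Pool.Agent.Lib.MP_635d71_ag.Three
import Pool.Agent.Lib.MP_635d71_ag.AGUpper
import Pool.Agent.Lib.MP_635d71_ag.AGLower
import Pool.Agent.Lib.MP_635d71_ag.Transfer

/-!
# Three factors: the final form
-/

open Module Submodule

namespace Pool.Agent.Lib.MP_635d71_ag

variable {K : Type} [Field K]

theorem sq_le_of {v Θ X : ℕ} (hv : v ^ 2 ≤ Θ) (hv2 : 22 ≤ v) (h : 32 * Θ ^ 3 ≤ X ^ 2) :
    (5 * v + 14) * Θ ≤ X := by
  have h1 : (5 * v + 14) ^ 2 ≤ 32 * v ^ 2 := by nlinarith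
  have h2 : ((5 * v + 14) * Θ) ^ 2 ≤ X ^ 2 := by
    calc ((5 * v + 14) * Θ) ^ 2 = (5 * v + 14) ^ 2 * Θ ^ 2 := by ring
      _ ≤ 32 * v ^ 2 * Θ ^ 2 := Nat.mul_le_mul_right _ h1
      _ ≤ 32 * Θ * Θ ^ 2 := Nat.mul_le_mul_right _ (Nat.mul_le_mul_left _ hv)
      _ = 32 * Θ ^ 3 := by ring
      _ ≤ X ^ 2 := h
  exact (Nat.pow_le_pow_iff_left (by norm_num)).1 h2

theorem three_window [Infinite K] (q A B Θ : ℕ) (hq : 3 ≤ q) (hA : 1 ≤ A) (hB : 1 ≤ B)
    (hΘ : Θ + 2 = q + A + B) (h1 : 32 * Θ ^ 3 ≤ (A * B) ^ 2)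
    (h2 : 32 * Θ ^ 3 ≤ (A * (Θ - 2 * B)) ^ 2) (h3 : 32 * Θ ^ 3 ≤ (B * (Θ - 2 * A)) ^ 2) (r : ℕ)
    (hr1 : r * Θ ≤ q * (A * B) + 2 * Θ) (hr2 : q * (A * B) ≤ r * Θ + 2 * Θ)
    (hpar : Odd (A + B) ∨ Even (r + A * B) ∨ r * Θ + q ≤ q * (A * B) ∨
      q * (A * B) + q ≤ r * Θ) :
    Reach K [q, A, B] r (min (r * Θ) (q * (A * B))) := by
  have hΘ0 : 1 ≤ Θ := by omega
  have hΘ3 : 1 ≤ Θ ^ 3 := Nat.one_le_pow _ _ (by omega)
  have h2A : 2 * A < Θ := by
    rcases Nat.lt_or_ge (2 * A) Θ with h | h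
    · exact h
    · exfalso
      rw [Nat.sub_eq_zero_of_le h, Nat.mul_zero] at h3
      norm_num at h3
      omega
  have h2B : 2 * B < Θ := by
    rcases Nat.lt_or_ge (2 * B) Θ with h | h
    · exact h
    · exfalso
      rw [Nat.sub_eq_zero_of_le h, Nat.mul_zero] at h2
      norm_num at h2
      omega
  have h512 : 512 < Θ := by
    have e1 : 4 * (A * B) ≤ Θ * Θ := by
      calc 4 * (A * B) = (2 * A) * (2 * B) := by ring
        _ ≤ Θ * Θ := Nat.mul_le_mul h2A.le h2B.le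
    have e2 : 16 * (A * B) ^ 2 < Θ ^ 4 := by
      have : (2 * A) * (2 * B) < Θ * Θ := Nat.mul_lt_mul'' h2A h2B
      calc 16 * (A * B) ^ 2 = ((2 * A) * (2 * B)) ^ 2 := by ring
        _ < (Θ * Θ) ^ 2 := Nat.pow_lt_pow_left this (by norm_num)
        _ = Θ ^ 4 := by ring
    have e3 : 512 * Θ ^ 3 < Θ * Θ ^ 3 := by
      calc 512 * Θ ^ 3 = 16 * (32 * Θ ^ 3) := by ring
        _ ≤ 16 * (A * B) ^ 2 := Nat.mul_le_mul_left _ h1
        _ < Θ ^ 4 := e2
        _ = Θ * Θ ^ 3 := by ring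
    exact Nat.lt_of_mul_lt_mul_right e3
  obtain ⟨v, hv⟩ : ∃ v, Nat.sqrt Θ = v := ⟨_, rfl⟩
  have hv1 : v ^ 2 ≤ Θ := by
    have := Nat.sqrt_le' Θ
    rwa [hv] at this
  have hv2 : Θ < (v + 1) ^ 2 := by
    have := Nat.lt_succ_sqrt' Θ
    rwa [hv] at this
  have hv3 : 22 ≤ v := by
    rcases Nat.lt_or_ge v 22 with h | h
    · have : (v + 1) ^ 2 ≤ 22 ^ 2 := Nat.pow_le_pow_left (by omega) 2
      omega
    · exact h
  have f1 := sq_le_of hv1 hv3 h1
  have f2 := sq_le_of hv1 hv3 h2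
  have f3 := sq_le_of hv1 hv3 h3
  obtain ⟨R, hR⟩ : ∃ R, r / q = R := ⟨_, rfl⟩
  have hR1 : q * R ≤ r := by
    rw [← hR]
    exact Nat.mul_div_le r q
  have hR2 : r < q * (R + 1) := by
    rw [← hR]
    exact Nat.lt_mul_div_succ r (by omega)
  -- bounds on `R`
  have g1 : R * Θ ≤ A * B + Θ := by
    have : q * (R * Θ) ≤ q * (A * B + Θ) := by
      calc q * (R * Θ) = q * R * Θ := by ring
        _ ≤ r * Θ := Nat.mul_le_mul_right _ hR1
        _ ≤ q * (A * B) + 2 * Θ := hr1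
        _ ≤ q * (A * B) + q * Θ := by
          have : 2 * Θ ≤ q * Θ := Nat.mul_le_mul_right _ (by omega)
          omega
        _ = q * (A * B + Θ) := by ring
    exact Nat.le_of_mul_le_mul_left this (by omega)
  have g2 : A * B ≤ (R + 2) * Θ := by
    have : q * (A * B) ≤ q * ((R + 2) * Θ) := by
      calc q * (A * B) ≤ r * Θ + 2 * Θ := hr2
        _ ≤ q * (R + 1) * Θ + q * Θ := by
          have e1 : r * Θ ≤ q * (R + 1) * Θ := Nat.mul_le_mul_right _ hR2.le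
          have e2 : 2 * Θ ≤ q * Θ := Nat.mul_le_mul_right _ (by omega)
          omega
        _ = q * ((R + 2) * Θ) := by ring
    exact Nat.le_of_mul_le_mul_left this (by omega)
  have g3 : 5 * v + 14 ≤ R + 2 := by
    have : (5 * v + 14) * Θ ≤ (R + 2) * Θ := f1.trans g2
    exact Nat.le_of_mul_le_mul_right this (by omega)
  have g4 : 2 * R + 5 * v + 12 ≤ A := by
    have e1 : A * (Θ - 2 * B) + 2 * (A * B) = A * Θ := by
      obtain ⟨c, hc⟩ : ∃ c, Θ = 2 * B + c := ⟨Θ - 2 * B, by omega⟩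
      rw [hc, Nat.add_sub_cancel_left]
      ring
    have : (2 * R + 5 * v + 12) * Θ ≤ A * Θ := by
      have e2 : (2 * R + 5 * v + 12) * Θ + 2 * Θ = 2 * (R * Θ) + (5 * v + 14) * Θ := by ring
      omega
    exact Nat.le_of_mul_le_mul_right this (by omega)
  have g5 : 2 * R + 5 * v + 12 ≤ B := by
    have e1 : B * (Θ - 2 * A) + 2 * (A * B) = B * Θ := by
      obtain ⟨c, hc⟩ : ∃ c, Θ = 2 * A + c := ⟨Θ - 2 * A, by omega⟩
      rw [hc, Nat.add_sub_cancel_left]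
      ring
    have : (2 * R + 5 * v + 12) * Θ ≤ B * Θ := by
      have e2 : (2 * R + 5 * v + 12) * Θ + 2 * Θ = 2 * (R * Θ) + (5 * v + 14) * Θ := by ring
      omega
    exact Nat.le_of_mul_le_mul_right this (by omega)
  have hN : A + B - 2 + q = Θ := by omega
  have key := three_reach (K := K) q A B (5 * v + 6) r hq (by omega) (by omega) (by
      rw [hN]
      rcases hpar with h | h | h | h
      · left
        obtain ⟨c, hc⟩ := h
        exact ⟨c - 1, by omega⟩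
      · exact Or.inr (Or.inl h)
      · exact Or.inr (Or.inr (Or.inl h))
      · exact Or.inr (Or.inr (Or.inr h))) (by
      rw [hR]
      have e1 : (5 * v + 6) ^ 2 = 25 * (v + 1) ^ 2 + 10 * (v + 1) + 1 := by ring
      omega) (by rw [hR]; omega) (by rw [hR]; omega) (by rw [hR]; omega)
  rw [hN] at key
  exact key

/-- Three factors. -/
theorem three_lists [Infinite K] (q A B Θ : ℕ) (hq : 3 ≤ q) (hA : 1 ≤ A) (hB : 1 ≤ B)
    (hΘ : Θ + 2 = q + A + B) (h1 : 32 * Θ ^ 3 ≤ (A * B) ^ 2)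
    (h2 : 32 * Θ ^ 3 ≤ (A * (Θ - 2 * B)) ^ 2) (h3 : 32 * Θ ^ 3 ≤ (B * (Θ - 2 * A)) ^ 2) (r : ℕ)
    (hpar : Odd (A + B) ∨ Even (r + A * B) ∨ r * Θ + q ≤ q * (A * B) ∨
      q * (A * B) + q ≤ r * Θ) :
    Reach K [q, A, B] r (min (r * D [q, A, B]) [q, A, B].prod) := by
  have hD : D [q, A, B] = Θ := by
    change (q - 1) + ((A - 1) + ((B - 1) + 1)) = Θ
    omega
  have hP : [q, A, B].prod = q * (A * B) := by simp
  rw [hD, hP]
  have hqΘ : q ≤ Θ := by omega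
  obtain ⟨r0, hr0⟩ : ∃ r0, q * (A * B) / Θ = r0 := ⟨_, rfl⟩
  have e1 : r0 * Θ ≤ q * (A * B) := by
    rw [← hr0]
    exact Nat.div_mul_le_self _ _
  have e2 : q * (A * B) < r0 * Θ + Θ := by
    have := Nat.lt_div_mul_add (a := q * (A * B)) (b := Θ) (by omega)
    rwa [hr0] at this
  rcases Nat.lt_or_ge r (r0 + 2) with h | h
  · rcases Nat.lt_or_ge r r0 with h' | h'
    · obtain ⟨i, hi⟩ : ∃ i, r0 = r + i + 1 := ⟨r0 - r - 1, by omega⟩
      have e3 : r0 * Θ = (r + i) * Θ + Θ := by rw [hi]; ring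
      have := three_window (K := K) q A B Θ hq hA hB hΘ h1 h2 h3 (r + i) (by omega) (by omega)
        (Or.inr (Or.inr (Or.inl (by omega))))
      refine (Reach.drop' i this).mono ?_
      rw [hD, min_eq_left (by omega : (r + i) * Θ ≤ q * (A * B))]
      have e4 : (r + i) * Θ = r * Θ + i * Θ := by ring
      refine (min_le_left _ _).trans ?_
      omega
    · have e3 : r * Θ ≤ (r0 + 1) * Θ := Nat.mul_le_mul_right _ (by omega)
      have e4 : r0 * Θ ≤ r * Θ := Nat.mul_le_mul_right _ h'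
      have e5 : (r0 + 1) * Θ = r0 * Θ + Θ := by ring
      exact three_window q A B Θ hq hA hB hΘ h1 h2 h3 r (by omega) (by omega) hpar
  · obtain ⟨i, rfl⟩ : ∃ i, r = r0 + 2 + i := ⟨r - (r0 + 2), by omega⟩
    have e3 : (r0 + 2) * Θ = r0 * Θ + 2 * Θ := by ring
    have := three_window (K := K) q A B Θ hq hA hB hΘ h1 h2 h3 (r0 + 2) (by omega) (by omega)
      (Or.inr (Or.inr (Or.inr (by omega))))
    refine (this.add' i).mono ?_
    rw [min_eq_right (by omega : q * (A * B) ≤ (r0 + 2) * Θ)]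
    exact min_le_right _ _

/-- The family version. -/
theorem three_factors (n : Fin 3 → ℕ) (hn : ∀ i, 2 ≤ n i) (i j l : Fin 3) (hij : i ≠ j)
    (hil : i ≠ l) (hjl : j ≠ l) (Θ : ℕ) (hΘ : Θ = n 0 + n 1 + n 2 + 1)
    (h1 : 32 * Θ ^ 3 ≤ ((n j + 1) * (n l + 1)) ^ 2)
    (h2 : 32 * Θ ^ 3 ≤ ((n j + 1) * (Θ - 2 * (n l + 1))) ^ 2)
    (h3 : 32 * Θ ^ 3 ≤ ((n l + 1) * (Θ - 2 * (n j + 1))) ^ 2) (r : ℕ)
    (hpar : Odd (n j + n l) ∨ Even (r + (n j + 1) * (n l + 1)) ∨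
      r * Θ + (n i + 1) ≤ (n i + 1) * ((n j + 1) * (n l + 1)) ∨
      (n i + 1) * ((n j + 1) * (n l + 1)) + (n i + 1) ≤ r * Θ) :
    coneDim n r = ((min (r * (∑ i, n i + 1)) (∏ i, (n i + 1)) : ℕ) : Cardinal) := by
  classical
  refine le_antisymm (coneDim_le n r) ?_
  let g : Fin 3 → ℕ := fun i => n i + 1
  have hsum : n i + n j + n l = n 0 + n 1 + n 2 := by
    fin_cases i <;> fin_cases j <;> fin_cases l <;>
      first
      | exact absurd rfl hij
      | exact absurd rfl hil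
      | exact absurd rfl hjl
      | (simp only [Fin.zero_eta, Fin.mk_one, Fin.reduceFinMk] <;> omega)
  have hperm : ([i, j, l] : List (Fin 3)).Perm (List.finRange 3) := by
    rw [List.perm_ext_iff_of_nodup]
    · intro a
      simp only [List.mem_cons, List.not_mem_nil, or_false, List.mem_finRange, iff_true]
      clear h1 h2 h3 hpar hsum
      revert i j l a
      decide
    · simp [hij, hil, hjl]
    · exact List.nodup_finRange 3
  have hperm3 : ([n i + 1, n j + 1, n l + 1] : List ℕ).Perm (lst n) := by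
    rw [lst_eq, List.ofFn_eq_map]
    exact hperm.map g
  have hDL : D [n i + 1, n j + 1, n l + 1] = ∑ i, n i + 1 := by rw [D_perm hperm3, D_lst]
  have hpL : ([n i + 1, n j + 1, n l + 1] : List ℕ).prod = ∏ i, (n i + 1) := by
    rw [hperm3.prod_eq, prod_lst]
  have hi := hn i
  have key := three_lists (K := ℂ) (n i + 1) (n j + 1) (n l + 1) Θ (by omega) (by omega) (by omega)
    (by omega) h1 h2 h3 r (by
      rcases hpar with h | h
      · left
        obtain ⟨c, hc⟩ := h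
        exact ⟨c + 1, by omega⟩
      · exact Or.inr h)
  have key2 := key.of_equ (Equ.of_perm hperm3)
  rw [hDL, hpL] at key2
  obtain ⟨x, hx⟩ := exists_vecs (by norm_num) n key2
  refine le_trans ?_ (le_coneDim x)
  exact_mod_cast hx

end Pool.Agent.Lib.MP_635d71_ag
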